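import Pool.Agent.Lib.MP_79902f_lc.Step

/-!
The rigid base configuration: pairs of complementary convex sets are half-planes, and the code
forces their boundary lines up to an affine change of coordinates.
-/

namespace Pool.Agent.Lib.MP_79902f_lc

open Set

/-- The function `g` is negative only on `N` and positive only on `P`. -/
def Sp (N P : Set (ℝ × ℝ)) (g : ℝ × ℝ → ℝ) : Prop := ∀ w, (g w < 0 → w ∈ N) ∧ (0 < g w → w ∈ P)

theorem exists_sp {N P : Set (ℝ × ℝ)} (hN : Convex ℝ N) (hP : Convex ℝ P)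
    (h : ∀ w, w ∈ P ↔ w ∉ N) (nN : N.Nonempty) (nP : P.Nonempty) :
    ∃ a b c : ℝ, (a ≠ 0 ∨ b ≠ 0) ∧ Sp N P (fun w => a * w.1 + b * w.2 + c) := by
  have key : ∀ {N P : Set (ℝ × ℝ)}, Convex ℝ N → Convex ℝ P → (∀ w, w ∈ P ↔ w ∉ N) →
      (interior N).Nonempty → P.Nonempty →
      ∃ a b c : ℝ, (a ≠ 0 ∨ b ≠ 0) ∧ Sp N P (fun w => a * w.1 + b * w.2 + c) := by
    intro N P hN hP h nN nP
    obtain ⟨f, u, hf, h1, h2⟩ := geometric_hahn_banach_of_nonempty_interior hN hP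
      (Set.disjoint_left.2 fun w hw hw' => (h w).1 hw' (interior_subset hw)) nN nP
    have e : ∀ w : ℝ × ℝ, f w = f (1, 0) * w.1 + f (0, 1) * w.2 := by
      intro w
      have : w = w.1 • ((1 : ℝ), (0 : ℝ)) + w.2 • ((0 : ℝ), (1 : ℝ)) := by ext <;> simp
      conv_lhs => rw [this]
      rw [map_add, map_smul, map_smul]
      simp [mul_comm]
    refine ⟨f (1, 0), f (0, 1), -u, ?_, fun w => ⟨fun hw => ?_, fun hw => ?_⟩⟩
    · by_contra hc
      push Not at hc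
      apply hf
      ext <;> simp [hc.1, hc.2]
    · by_contra hn
      have := h2 w ((h w).2 hn)
      dsimp only at hw
      linarith [e w]
    · rw [h]
      intro hn
      have := h1 w hn
      dsimp only at hw
      linarith [e w]
  have hi : (interior N).Nonempty ∨ (interior P).Nonempty := by
    obtain ⟨i, hi⟩ := nonempty_interior_of_iUnion_of_closed
      (f := fun b : Bool => closure (if b then N else P)) (fun _ => isClosed_closure) (by
        ext w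
        simp only [mem_iUnion, mem_univ, iff_true]
        by_cases hw : w ∈ N
        · exact ⟨true, subset_closure hw⟩
        · exact ⟨false, subset_closure ((h w).2 hw)⟩)
    have gen : ∀ {S : Set (ℝ × ℝ)}, Convex ℝ S → (interior (closure S)).Nonempty →
        (interior S).Nonempty := by
      intro S hS h
      rw [hS.interior_nonempty_iff_affineSpan_eq_top]
      rw [hS.closure.interior_nonempty_iff_affineSpan_eq_top] at h
      refine top_le_iff.1 (h ▸ affineSpan_le.2 ?_)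
      exact closure_minimal (subset_affineSpan ℝ S) (affineSpan ℝ S).closed_of_finiteDimensional
    cases i
    · exact Or.inr (gen hP hi)
    · exact Or.inl (gen hN hi)
  rcases hi with hi | hi
  · exact key hN hP h hi nP
  · obtain ⟨a, b, c, hab, hs⟩ := key hP hN (fun w => by rw [h, not_not]) hi nN
    refine ⟨-a, -b, -c, by simpa using hab, fun w => ⟨fun hw => (hs w).2 ?_, fun hw => (hs w).1 ?_⟩⟩
    · dsimp only at hw ⊢; linarith
    · dsimp only at hw ⊢; linarith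

theorem pin_two {N P : Set (ℝ × ℝ)} (h : ∀ w, w ∈ P ↔ w ∉ N) {a b c a' b' c' : ℝ}
    (hab : a ≠ 0 ∨ b ≠ 0) (hs : Sp N P (fun w => a * w.1 + b * w.2 + c))
    {v : ℝ × ℝ} (hv : a * v.1 + b * v.2 + c = 0) (hv' : a' * v.1 + b' * v.2 + c' = 0)
    (hd : a * b' = b * a') {o : ℝ × ℝ} (ho : o ∈ N) (ho' : a' * o.1 + b' * o.2 + c' < 0) :
    Sp N P (fun w => a' * w.1 + b' * w.2 + c') := by
  have ho2 : a * o.1 + b * o.2 + c ≤ 0 := by
    by_contra hc
    exact (h o).1 ((hs o).2 (not_le.1 hc)) ho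
  have hn : 0 < a' ^ 2 + b' ^ 2 := by
    by_contra hc
    have h1 : a' = 0 := by nlinarith [sq_nonneg a', sq_nonneg b']
    have h2 : b' = 0 := by nlinarith [sq_nonneg a', sq_nonneg b']
    rw [h1, h2] at hv' ho'
    linarith
  set l := (a * a' + b * b') / (a' ^ 2 + b' ^ 2) with hl
  have ea : a = l * a' := by
    rw [hl]; field_simp; linear_combination b' * hd
  have eb : b = l * b' := by
    rw [hl]; field_simp; linear_combination (-a') * hd
  have ec : c = l * c' := by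
    linear_combination hv - l * hv' - v.1 * ea - v.2 * eb
  have e : ∀ w : ℝ × ℝ, a * w.1 + b * w.2 + c = l * (a' * w.1 + b' * w.2 + c') := by
    intro w
    linear_combination w.1 * ea + w.2 * eb + ec
  have l0 : l ≠ 0 := by
    intro h0
    rw [h0, zero_mul] at ea eb
    tauto
  have lp : 0 < l := by
    rw [e] at ho2
    by_contra hc
    have : l < 0 := lt_of_le_of_ne (not_lt.1 hc) l0
    nlinarith
  intro w
  refine ⟨fun hw => (hs w).1 ?_, fun hw => (hs w).2 ?_⟩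
  · dsimp only at hw ⊢; rw [e]; exact mul_neg_of_pos_of_neg lp hw
  · dsimp only at hw ⊢; rw [e]; exact mul_pos lp hw

theorem zero_of_thru {N P : Set (ℝ × ℝ)} (h : ∀ w, w ∈ P ↔ w ∉ N) {a b c : ℝ}
    (hs : Sp N P (fun w => a * w.1 + b * w.2 + c)) (v d : ℝ × ℝ)
    (h1 : ∀ ε : ℝ, 0 < ε → (v.1 - ε * d.1, v.2 - ε * d.2) ∈ N)
    (h2 : ∀ ε : ℝ, 0 < ε → (v.1 + ε * d.1, v.2 + ε * d.2) ∈ P) : a * v.1 + b * v.2 + c = 0 := by
  have k1 : ∀ ε : ℝ, 0 < ε → a * v.1 + b * v.2 + c ≤ ε * (a * d.1 + b * d.2) := by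
    intro ε hε
    by_contra hc
    refine (h _).1 ((hs _).2 ?_) (h1 ε hε)
    dsimp only
    linarith
  have k2 : ∀ ε : ℝ, 0 < ε → -(a * v.1 + b * v.2 + c) ≤ ε * (a * d.1 + b * d.2) := by
    intro ε hε
    by_contra hc
    refine (h _).1 (h2 ε hε) ((hs _).1 ?_)
    dsimp only
    linarith
  have gen : ∀ s t : ℝ, (∀ ε : ℝ, 0 < ε → s ≤ ε * t) → s ≤ 0 := by
    intro s t hh
    by_contra hc
    push Not at hc
    have h3 := hh (s / (2 * (|t| + 1))) (by positivity)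
    have h4 : s / (2 * (|t| + 1)) * t ≤ s / (2 * (|t| + 1)) * (|t| + 1) :=
      mul_le_mul_of_nonneg_left (by linarith [le_abs_self t]) (by positivity)
    have h5 : s / (2 * (|t| + 1)) * (|t| + 1) = s / 2 := by field_simp
    linarith
  linarith [gen _ _ k1, gen _ _ k2]

theorem dir_of_par {N P : Set (ℝ × ℝ)} (h : ∀ w, w ∈ P ↔ w ∉ N) {a b c : ℝ}
    (hs : Sp N P (fun w => a * w.1 + b * w.2 + c)) (v d : ℝ × ℝ)
    (h1 : ∀ s : ℝ, (v.1 + s * d.1, v.2 + s * d.2) ∈ N) : a * d.1 + b * d.2 = 0 := by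
  by_contra hc
  refine (h _).1 ((hs _).2 ?_) (h1 ((1 - (a * v.1 + b * v.2 + c)) / (a * d.1 + b * d.2)))
  dsimp only
  have : (1 - (a * v.1 + b * v.2 + c)) / (a * d.1 + b * d.2) * (a * d.1 + b * d.2)
      = 1 - (a * v.1 + b * v.2 + c) := div_mul_cancel₀ _ hc
  nlinarith

theorem not_collinear {a b c : ℝ} (hab : a ≠ 0 ∨ b ≠ 0) {z₁ z₂ z₃ : ℝ × ℝ}
    {S₁ S₂ S₃ : Set (ℝ × ℝ)} (c₁ : Convex ℝ S₁) (c₂ : Convex ℝ S₂) (c₃ : Convex ℝ S₃)
    (a₁ : z₁ ∉ S₁) (a₂ : z₂ ∈ S₁) (a₃ : z₃ ∈ S₁) (b₁ : z₁ ∈ S₂) (b₂ : z₂ ∉ S₂) (b₃ : z₃ ∈ S₂)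
    (d₁ : z₁ ∈ S₃) (d₂ : z₂ ∈ S₃) (d₃ : z₃ ∉ S₃) (e₁ : a * z₁.1 + b * z₁.2 + c = 0)
    (e₂ : a * z₂.1 + b * z₂.2 + c = 0) (e₃ : a * z₃.1 + b * z₃.2 + c = 0) : False := by
  have hn : 0 < a ^ 2 + b ^ 2 := by
    rcases hab with h | h <;> positivity
  have hc : Collinear ℝ {z₁, z₂, z₃} := by
    rw [collinear_iff_of_mem (p₀ := z₁) (by simp)]
    refine ⟨(-b, a), fun p hp => ⟨(a * (p.2 - z₁.2) - b * (p.1 - z₁.1)) / (a ^ 2 + b ^ 2), ?_⟩⟩
    have ep : a * p.1 + b * p.2 + c = 0 := by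
      rcases hp with rfl | rfl | rfl <;> assumption
    ext
    · simp only [vadd_eq_add, Prod.fst_add, Prod.smul_fst, smul_eq_mul]
      field_simp
      linear_combination a * ep - a * e₁
    · simp only [vadd_eq_add, Prod.snd_add, Prod.smul_snd, smul_eq_mul]
      field_simp
      linear_combination b * ep - b * e₁
  rcases hc.wbtw_or_wbtw_or_wbtw with h | h | h
  · exact b₂ (c₂.segment_subset b₁ b₃ h.mem_segment)
  · exact d₃ (c₃.segment_subset d₂ d₁ h.mem_segment)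
  · exact a₁ (c₁.segment_subset a₃ a₂ h.mem_segment)

/-- The lines of the base configuration. -/
inductive BL : Type
  | h (b : Bool) : BL
  | g (j : Fin 32000) : BL
  | d (j : Fin 32000) : BL
  | l (n : Fin 89) : BL
  | z (b : Bool) : BL

instance : Finite BL := by
  let f : BL → Bool × Fin 32000 × Fin 89 × Fin 5
    | .h b => (b, 0, 0, 0)
    | .g j => (false, j, 0, 1)
    | .d j => (false, j, 0, 2)
    | .l n => (false, 0, n, 3)
    | .z b => (b, 0, 0, 4)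
  refine Finite.of_injective f ?_
  intro i j h
  cases i <;> cases j <;> simp_all [f]

/-- The equations of the base lines. -/
noncomputable def BL.f : BL → ℝ × ℝ → ℝ
  | .h b, w => if b then w.1 + 1 else w.1
  | .g j, w => w.2 - 36 - (j : ℕ)
  | .d j, w => w.2 - w.1 - 37 - (j : ℕ)
  | .l n, w => w.2 - lin (2 * (n : ℕ) + 1) w.1
  | .z b, w => if b then w.1 - 89 else w.1 - 86

/-- The point `z` of the family `N, P` has the pattern of the point `z'` of the base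
configuration. -/
def Match (N P : BL → Set (ℝ × ℝ)) (z z' : ℝ × ℝ) : Prop :=
  ∀ i, (z ∈ N i ↔ i.f z' < 0) ∧ (z ∈ P i ↔ 0 ≤ i.f z')

theorem force_normal {N P : BL → Set (ℝ × ℝ)} (cN : ∀ i, Convex ℝ (N i))
    (cP : ∀ i, Convex ℝ (P i)) (hA : ∀ z, ∃ z', Match N P z z') (hB : ∀ z', ∃ z, Match N P z z')
    (p1 : Sp (N (.h false)) (P (.h false)) (BL.h false).f)
    (p2 : Sp (N (.h true)) (P (.h true)) (BL.h true).f)
    (p3 : Sp (N (.g 0)) (P (.g 0)) (BL.g 0).f) (p4 : Sp (N (.g 1)) (P (.g 1)) (BL.g 1).f) :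
    ∀ i, Sp (N i) (P i) i.f := by
  have hc : ∀ i w, w ∈ P i ↔ w ∉ N i := by
    intro i w
    obtain ⟨z', h⟩ := hA w
    rw [(h i).1, (h i).2, not_lt]
  have ex : ∀ i : BL, ∀ z₁ z₂ : ℝ × ℝ, i.f z₁ < 0 → 0 ≤ i.f z₂ →
      ∃ a b c : ℝ, (a ≠ 0 ∨ b ≠ 0) ∧ Sp (N i) (P i) (fun w => a * w.1 + b * w.2 + c) := by
    intro i z₁ z₂ h1 h2
    obtain ⟨w₁, k1⟩ := hB z₁
    obtain ⟨w₂, k2⟩ := hB z₂
    exact exists_sp (cN i) (cP i) (hc i) ⟨w₁, (k1 i).1.2 h1⟩ ⟨w₂, (k2 i).2.2 h2⟩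
  have add : ∀ i j k : BL, ∀ s : ℝ, 0 ≤ s → (∀ w, k.f w = i.f w + s * j.f w) → Sp (N i) (P i) i.f →
      Sp (N j) (P j) j.f → ∀ w, (i.f w < 0 → j.f w < 0 → w ∈ N k) ∧
        (0 < i.f w → 0 < j.f w → w ∈ P k) := by
    intro i j k s hs e hi hj w
    obtain ⟨z', h⟩ := hA w
    refine ⟨fun h1 h2 => (h k).1.2 ?_, fun h1 h2 => (h k).2.2 ?_⟩
    · have a1 := (h i).1.1 ((hi w).1 h1)
      have a2 := (h j).1.1 ((hj w).1 h2)
      rw [e]; nlinarith
    · have a1 := (h i).2.1 ((hi w).2 h1)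
      have a2 := (h j).2.1 ((hj w).2 h2)
      rw [e]; positivity
  have sub : ∀ i j k : BL, (∀ w, k.f w = i.f w - j.f w) → Sp (N i) (P i) i.f →
      Sp (N j) (P j) j.f → ∀ w, (i.f w < 0 → 0 < j.f w → w ∈ N k) ∧
        (0 < i.f w → j.f w < 0 → w ∈ P k) := by
    intro i j k e hi hj w
    obtain ⟨z', h⟩ := hA w
    refine ⟨fun h1 h2 => (h k).1.2 ?_, fun h1 h2 => (h k).2.2 ?_⟩
    · have a1 := (h i).1.1 ((hi w).1 h1)
      have a2 := (h j).2.1 ((hj w).2 h2)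
      rw [e]; linarith
    · have a1 := (h i).2.1 ((hi w).2 h1)
      have a2 := (h j).1.1 ((hj w).1 h2)
      rw [e]; linarith
  have par : ∀ i k : BL, (∀ w, k.f w ≤ i.f w) → Sp (N i) (P i) i.f → ∀ w, i.f w < 0 → w ∈ N k := by
    intro i k e hi w h1
    obtain ⟨z', h⟩ := hA w
    exact (h k).1.2 ((e z').trans_lt ((h i).1.1 ((hi w).1 h1)))
  have conv : ∀ (i : BL) (a b c : ℝ), (∀ w, i.f w = a * w.1 + b * w.2 + c) →
      Sp (N i) (P i) (fun w => a * w.1 + b * w.2 + c) → Sp (N i) (P i) i.f := by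
    intro i a b c e h
    rwa [show i.f = fun w => a * w.1 + b * w.2 + c from funext e]
  have dz : ∀ j : Fin 32000, Sp (N (.g j)) (P (.g j)) (BL.g j).f → ∀ a b c : ℝ,
      Sp (N (.d j)) (P (.d j)) (fun w => a * w.1 + b * w.2 + c) →
      a * (-1) + b * (36 + (j : ℕ)) + c = 0 := by
    intro j hj a b c hs
    have := sub (.g j) (.h true) (.d j) (fun w => by simp [BL.f]; ring) hj p2
    refine zero_of_thru (hc _) hs (-1, 36 + (j : ℕ)) (-1, 1) (fun ε hε => (this _).1 ?_ ?_)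
      (fun ε hε => (this _).2 ?_ ?_) <;> simp [BL.f] <;> linarith
  have d0 : Sp (N (.d 0)) (P (.d 0)) (BL.d 0).f := by
    obtain ⟨a, b, c, hab, hs⟩ := ex (.d 0) (0, 0) (0, 37) (by simp [BL.f]) (by simp [BL.f])
    have e1 := dz 0 p3 a b c hs
    have := sub (.g 1) (.h false) (.d 0) (fun w => by simp [BL.f]; ring) p4 p1
    have e2 : a * 0 + b * 37 + c = 0 := by
      refine zero_of_thru (hc _) hs (0, 37) (-1, 1) (fun ε hε => (this _).1 ?_ ?_)
        (fun ε hε => (this _).2 ?_ ?_) <;> simp [BL.f] <;> linarith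
    simp at e1
    refine conv _ (-1) 1 (-37) (fun w => by simp [BL.f]; ring) (pin_two (hc _) hab hs
      (v := (0, 37)) e2 (by norm_num) (by linarith) (o := (1, 0)) ((this _).1 ?_ ?_)
      (by norm_num)) <;> norm_num [BL.f]
  have dj : ∀ j : Fin 32000, Sp (N (.g j)) (P (.g j)) (BL.g j).f →
      Sp (N (.d j)) (P (.d j)) (BL.d j).f := by
    intro j hj
    have j0 : (0 : ℝ) ≤ (j : ℕ) := Nat.cast_nonneg _
    obtain ⟨a, b, c, hab, hs⟩ := ex (.d j) (0, 0) (0, 37 + (j : ℕ))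
      (by simp only [BL.f]; linarith) (by simp [BL.f])
    have e1 := dz j hj a b c hs
    have hp := par (.d 0) (.d j) (fun w => by simp [BL.f]) d0
    have e2 := dir_of_par (hc _) hs (0, 0) (1, 1) (fun s => hp _ (by simp [BL.f]))
    refine conv _ (-1) 1 (-37 - (j : ℕ)) (fun w => by simp [BL.f]; ring) (pin_two (hc _) hab hs
      (v := (-1, 36 + (j : ℕ))) e1 (by dsimp only; ring) (by dsimp only at e2; linarith)
      (o := (0, 0)) (hp _ (by simp [BL.f])) (by dsimp only; linarith))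
  have gj : ∀ (n : ℕ) (hn : n < 32000), Sp (N (.g ⟨n, hn⟩)) (P (.g ⟨n, hn⟩)) (BL.g ⟨n, hn⟩).f := by
    intro n
    induction n with
    | zero => exact fun _ => p3
    | succ n ih =>
      intro hn
      have hd := dj ⟨n, by omega⟩ (ih (by omega))
      have j0 : (0 : ℝ) ≤ n := Nat.cast_nonneg _
      obtain ⟨a, b, c, hab, hs⟩ := ex (.g ⟨n + 1, hn⟩) (0, 0) (0, 37 + n)
        (by simp only [BL.f]; push_cast; linarith) (by simp only [BL.f]; push_cast; linarith)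
      have := add (.d ⟨n, by omega⟩) (.h false) (.g ⟨n + 1, hn⟩) 1 zero_le_one
        (fun w => by simp [BL.f]; ring) hd p1
      have e1 : a * 0 + b * (37 + n) + c = 0 := by
        refine zero_of_thru (hc _) hs (0, 37 + n) (1, 2) (fun ε hε => (this _).1 ?_ ?_)
          (fun ε hε => (this _).2 ?_ ?_) <;> simp [BL.f] <;> linarith
      have hp := par (.g 0) (.g ⟨n + 1, hn⟩) (fun w => by simp [BL.f]; linarith) p3
      have e2 := dir_of_par (hc _) hs (0, 0) (1, 0) (fun s => hp _ (by simp [BL.f]))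
      refine conv _ 0 1 (-37 - n) (fun w => by simp [BL.f]; ring) (pin_two (hc _) hab hs
        (v := (0, 37 + n)) e1 (by dsimp only; ring) (by dsimp only at e2; linarith)
        (o := (0, 0)) (hp _ (by simp [BL.f])) (by dsimp only; linarith))
  have gj' : ∀ j, Sp (N (.g j)) (P (.g j)) (BL.g j).f := fun j => gj j.1 j.2
  intro i
  cases i with
  | h b => cases b <;> assumption
  | g j => exact gj' j
  | d j => exact dj j (gj' j)
  | l n =>
    have n0 : (0 : ℝ) ≤ (n : ℕ) := Nat.cast_nonneg _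
    have hn : (n : ℕ) ≤ 88 := by omega
    have hn' : (n : ℕ) * n ≤ 88 * 88 := Nat.mul_le_mul hn hn
    have hn1 : 4 * (n : ℕ) * n + 4 * n < 32000 := by rw [mul_assoc]; omega
    have hn2 : 4 * (n : ℕ) * n + 8 * n + 2 < 32000 := by rw [mul_assoc]; omega
    obtain ⟨a, b, c, hab, hs⟩ := ex (.l n) (0, 0) (0, lin (2 * (n : ℕ) + 1) 0)
      (by simp only [BL.f, lin]; nlinarith) (by simp [BL.f])
    have t1 := add (.g ⟨4 * n * n + 4 * n, hn1⟩) (.h false) (.l n) (2 * (2 * (n : ℕ) + 1))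
      (by positivity) (fun w => by simp [BL.f, lin]; ring) (gj' _) p1
    have t2 := add (.g ⟨4 * n * n + 8 * n + 2, hn2⟩) (.h true) (.l n)
      (2 * (2 * (n : ℕ) + 1)) (by positivity) (fun w => by simp [BL.f, lin]; ring) (gj' _) p2
    have e1 : a * 0 + b * (36 + (4 * (n : ℕ) * (n : ℕ) + 4 * (n : ℕ))) + c = 0 := by
      refine zero_of_thru (hc _) hs (0, 36 + (4 * (n : ℕ) * (n : ℕ) + 4 * (n : ℕ))) (1, 1)
        (fun ε hε => (t1 _).1 ?_ ?_) (fun ε hε => (t1 _).2 ?_ ?_) <;> simp [BL.f] <;> linarith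
    have e2 : a * (-1) + b * (36 + (4 * (n : ℕ) * (n : ℕ) + 8 * (n : ℕ) + 2)) + c = 0 := by
      refine zero_of_thru (hc _) hs (-1, 36 + (4 * (n : ℕ) * (n : ℕ) + 8 * (n : ℕ) + 2)) (1, 1)
        (fun ε hε => (t2 _).1 ?_ ?_) (fun ε hε => (t2 _).2 ?_ ?_) <;> simp [BL.f] <;> linarith
    refine conv _ (2 * (2 * (n : ℕ) + 1)) 1 (-(2 * (n : ℕ) + 1) ^ 2 - 35)
      (fun w => by simp [BL.f, lin]; ring) (pin_two (hc _) hab hs
      (v := (0, 36 + (4 * (n : ℕ) * (n : ℕ) + 4 * (n : ℕ)))) e1 (by dsimp only; ring)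
      (by linear_combination e1 - e2) (o := (-1, 0)) ((t1 _).1 ?_ ?_) (by dsimp only; nlinarith))
    · simp only [BL.f]; push_cast; nlinarith
    · simp [BL.f]
  | z b =>
    have gen : ∀ k : Fin 32000, (∀ w, (BL.z b).f w = w.1 + 1 - (k : ℕ)) → 1 ≤ (k : ℕ) →
        Sp (N (.z b)) (P (.z b)) (BL.z b).f := by
      intro k e hk
      have hk' : (1 : ℝ) ≤ (k : ℕ) := by exact_mod_cast hk
      obtain ⟨a, b', c, hab, hs⟩ := ex (.z b) (-1, 0) ((k : ℕ), 0)
        (by rw [e]; dsimp only; linarith) (by rw [e]; dsimp only; linarith)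
      have := sub (.g k) (.d 0) (.z b) (fun w => by rw [e]; simp [BL.f]; ring) (gj' k) d0
      have e1 : a * ((k : ℕ) - 1) + b' * (36 + (k : ℕ)) + c = 0 := by
        refine zero_of_thru (hc _) hs ((k : ℕ) - 1, 36 + (k : ℕ)) (2, 1)
          (fun ε hε => (this _).1 ?_ ?_) (fun ε hε => (this _).2 ?_ ?_) <;> simp [BL.f] <;> linarith
      have hp := par (.h false) (.z b) (fun w => by rw [e]; simp [BL.f]; linarith) p1
      have e2 := dir_of_par (hc _) hs (-1, 0) (0, 1) (fun s => hp _ (by simp [BL.f]))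
      refine conv _ 1 0 (1 - (k : ℕ)) (fun w => by rw [e]; ring) (pin_two (hc _) hab hs
        (v := ((k : ℕ) - 1, 36 + (k : ℕ))) e1 (by dsimp only; ring) (by dsimp only at e2; linarith)
        (o := (-1, 0)) (hp _ (by simp [BL.f])) (by dsimp only; linarith))
    cases b
    · exact gen 87 (fun w => by simp [BL.f]; ring) (by decide)
    · exact gen 90 (fun w => by simp [BL.f]; ring) (by decide)

theorem par_of {a b c a' b' c' : ℝ} (hab : a ≠ 0 ∨ b ≠ 0) (hab' : a' ≠ 0 ∨ b' ≠ 0)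
    (h : ∀ w : ℝ × ℝ, a * w.1 + b * w.2 + c < 0 → a' * w.1 + b' * w.2 + c' ≤ 0) :
    ∃ l e : ℝ, 0 < l ∧ 0 ≤ e ∧ a' = l * a ∧ b' = l * b ∧ c' = l * c - e := by
  have hn : 0 < a ^ 2 + b ^ 2 := by
    rcases hab with h | h <;> positivity
  have k : ∀ r s : ℝ, r < 0 → a' * (((r - c) * a) / (a ^ 2 + b ^ 2) - s * b) +
      b' * (((r - c) * b) / (a ^ 2 + b ^ 2) + s * a) + c' ≤ 0 := by
    intro r s hr
    refine h (_, _) ?_
    have : a * (((r - c) * a) / (a ^ 2 + b ^ 2) - s * b) +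
      b * (((r - c) * b) / (a ^ 2 + b ^ 2) + s * a) + c = r := by field_simp; ring
    dsimp only
    rw [this]; exact hr
  set l := (a' * a + b' * b) / (a ^ 2 + b ^ 2) with hl
  have k' : ∀ r s : ℝ, r < 0 → l * (r - c) + s * (b' * a - a' * b) + c' ≤ 0 := by
    intro r s hr
    have := k r s hr
    convert this using 1
    rw [hl]; field_simp; ring
  have hd : b' * a - a' * b = 0 := by
    by_contra hc
    have := k' (-1) ((1 - l * (-1 - c) - c') / (b' * a - a' * b)) (by norm_num)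
    rw [div_mul_cancel₀ _ hc] at this
    linarith
  have ea : a' = l * a := by
    rw [hl]; field_simp; linear_combination (-b) * hd
  have eb : b' = l * b := by
    rw [hl]; field_simp; linear_combination a * hd
  have l0 : l ≠ 0 := by
    intro h0
    rw [h0, zero_mul] at ea eb
    tauto
  have k2 : ∀ r : ℝ, r < 0 → l * (r - c) + c' ≤ 0 := fun r hr => by simpa using k' r 0 hr
  have lp : 0 < l := by
    by_contra hc
    have hl' : l < 0 := lt_of_le_of_ne (not_lt.1 hc) l0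
    have h3 := k2 ((|c' - l * c| + 1) / l) (div_neg_of_pos_of_neg (by positivity) hl')
    have h4 : l * ((|c' - l * c| + 1) / l) = |c' - l * c| + 1 := by field_simp
    have := neg_abs_le (c' - l * c)
    nlinarith
  refine ⟨l, l * c - c', lp, ?_, ea, eb, by ring⟩
  by_contra hc
  have h3 := k2 ((l * c - c') / (2 * l)) (div_neg_of_neg_of_pos (by linarith) (by positivity))
  have h4 : l * ((l * c - c') / (2 * l)) = (l * c - c') / 2 := by field_simp
  nlinarith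

theorem force {N P : BL → Set (ℝ × ℝ)} (cN : ∀ i, Convex ℝ (N i))
    (cP : ∀ i, Convex ℝ (P i)) (hA : ∀ z, ∃ z', Match N P z z') (hB : ∀ z', ∃ z, Match N P z z') :
    ∃ φ : ℝ × ℝ → ℝ × ℝ, (∀ S : Set (ℝ × ℝ), Convex ℝ S → Convex ℝ (φ ⁻¹' S)) ∧
      ∀ i, Sp (φ ⁻¹' N i) (φ ⁻¹' P i) i.f := by
  have hc : ∀ i w, w ∈ P i ↔ w ∉ N i := by
    intro i w
    obtain ⟨z', h⟩ := hA w
    rw [(h i).1, (h i).2, not_lt]
  have ex : ∀ i : BL, ∀ z₁ z₂ : ℝ × ℝ, i.f z₁ < 0 → 0 ≤ i.f z₂ →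
      ∃ a b c : ℝ, (a ≠ 0 ∨ b ≠ 0) ∧ Sp (N i) (P i) (fun w => a * w.1 + b * w.2 + c) := by
    intro i z₁ z₂ h1 h2
    obtain ⟨w₁, k1⟩ := hB z₁
    obtain ⟨w₂, k2⟩ := hB z₂
    exact exists_sp (cN i) (cP i) (hc i) ⟨w₁, (k1 i).1.2 h1⟩ ⟨w₂, (k2 i).2.2 h2⟩
  have le0 : ∀ {i : BL} {g : ℝ × ℝ → ℝ}, Sp (N i) (P i) g → ∀ w, (w ∈ N i → g w ≤ 0) ∧
      (w ∈ P i → 0 ≤ g w) := by
    intro i g hs w
    refine ⟨fun hw => ?_, fun hw => ?_⟩
    · by_contra hn
      exact (hc i w).1 ((hs w).2 (not_le.1 hn)) hw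
    · by_contra hn
      exact (hc i w).1 hw ((hs w).1 (not_le.1 hn))
  obtain ⟨a1, b1, c1, n1, s1⟩ := ex (.h true) (-2, 0) (0, 0) (by norm_num [BL.f]) (by simp [BL.f])
  obtain ⟨a2, b2, c2, n2, s2⟩ := ex (.h false) (-2, 0) (0, 0) (by simp [BL.f]) (by simp [BL.f])
  obtain ⟨a3, b3, c3, n3, s3⟩ := ex (.g 0) (0, 0) (0, 37) (by simp [BL.f]) (by norm_num [BL.f])
  obtain ⟨a4, b4, c4, n4, s4⟩ := ex (.g 1) (0, 0) (0, 37) (by norm_num [BL.f]) (by norm_num [BL.f])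
  obtain ⟨l, e, lp, e0, ea, eb, ec⟩ := par_of n1 n2 (c := c1) (c' := c2) (fun w hw => by
    obtain ⟨z', h⟩ := hA w
    have := (h _).1.1 ((s1 w).1 hw)
    refine (le0 s2 w).1 ((h _).1.2 ?_)
    simp [BL.f] at this ⊢
    linarith)
  obtain ⟨m, f, mp, f0, fa, fb, fc⟩ := par_of n3 n4 (c := c3) (c' := c4) (fun w hw => by
    obtain ⟨z', h⟩ := hA w
    have := (h _).1.1 ((s3 w).1 hw)
    refine (le0 s4 w).1 ((h _).1.2 ?_)
    simp [BL.f] at this ⊢
    linarith)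
  have ep : 0 < e := by
    refine lt_of_le_of_ne e0 fun h0 => ?_
    obtain ⟨z₁, h₁⟩ := hB (-1 / 4, 75 / 2)
    obtain ⟨z₂, h₂⟩ := hB (-1 / 10, 73 / 2)
    obtain ⟨z₃, h₃⟩ := hB (-9 / 10, 73 / 2)
    have on : ∀ z z', Match N P z z' → -1 ≤ z'.1 → z'.1 < 0 → a1 * z.1 + b1 * z.2 + c1 = 0 := by
      intro z z' h k1 k2
      have t1 := (le0 s1 z).2 ((h _).2.2 (by simp [BL.f]; linarith))
      have t2 := (le0 s2 z).1 ((h _).1.2 (by simp [BL.f]; linarith))
      rw [ea, eb, ec, ← h0] at t2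
      nlinarith
    refine not_collinear n1 (cN (.g 1)) (cP (.d 0)) (cP (.l 0)) ?_ ?_ ?_ ?_ ?_ ?_ ?_ ?_ ?_
      (on _ _ h₁ (by norm_num) (by norm_num)) (on _ _ h₂ (by norm_num) (by norm_num))
      (on _ _ h₃ (by norm_num) (by norm_num)) <;>
      simp only [(h₁ _).1, (h₂ _).1, (h₃ _).1, (h₁ _).2, (h₂ _).2, (h₃ _).2] <;>
      norm_num [BL.f, lin]
  have fp : 0 < f := by
    refine lt_of_le_of_ne f0 fun h0 => ?_
    obtain ⟨z₁, h₁⟩ := hB (-2, 73 / 2)
    obtain ⟨z₂, h₂⟩ := hB (-1 / 3, 361 / 10)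
    obtain ⟨z₃, h₃⟩ := hB (-1 / 3, 369 / 10)
    have on : ∀ z z', Match N P z z' → 36 ≤ z'.2 → z'.2 < 37 → a3 * z.1 + b3 * z.2 + c3 = 0 := by
      intro z z' h k1 k2
      have t1 := (le0 s3 z).2 ((h _).2.2 (by simp [BL.f]; linarith))
      have t2 := (le0 s4 z).1 ((h _).1.2 (by simp [BL.f]; linarith))
      rw [fa, fb, fc, ← h0] at t2
      nlinarith
    refine not_collinear n3 (cP (.h true)) (cP (.d 0)) (cN (.l 0)) ?_ ?_ ?_ ?_ ?_ ?_ ?_ ?_ ?_
      (on _ _ h₁ (by norm_num) (by norm_num)) (on _ _ h₂ (by norm_num) (by norm_num))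
      (on _ _ h₃ (by norm_num) (by norm_num)) <;>
      simp only [(h₁ _).1, (h₂ _).1, (h₃ _).1, (h₁ _).2, (h₂ _).2, (h₃ _).2] <;>
      norm_num [BL.f, lin]
  have hdet : a1 * b3 - b1 * a3 ≠ 0 := by
    intro hd
    have pt : ∀ x y : ℝ, ∃ z : ℝ × ℝ, (x < -1 → a1 * z.1 + b1 * z.2 + c1 ≤ 0) ∧
        (0 ≤ x → e ≤ l * (a1 * z.1 + b1 * z.2 + c1)) ∧ (y < 36 → a3 * z.1 + b3 * z.2 + c3 ≤ 0) ∧
        (36 ≤ y → 0 ≤ a3 * z.1 + b3 * z.2 + c3) := by
      intro x y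
      obtain ⟨z, h⟩ := hB (x, y)
      refine ⟨z, fun k => (le0 s1 z).1 ((h _).1.2 (by simp [BL.f]; linarith)), fun k => ?_,
        fun k => (le0 s3 z).1 ((h _).1.2 (by simp [BL.f]; linarith)),
        fun k => (le0 s3 z).2 ((h _).2.2 (by simp [BL.f]; linarith))⟩
      have t2 := (le0 s2 z).2 ((h _).2.2 (by simp [BL.f]; linarith))
      rw [ea, eb, ec] at t2
      linarith
    obtain ⟨z₁, -, t1, t2, -⟩ := pt 0 0
    obtain ⟨z₂, t3, -, -, t4⟩ := pt (-2) 36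
    obtain ⟨z₃, -, t5, -, t6⟩ := pt 0 36
    obtain ⟨z₄, t7, -, t8, -⟩ := pt (-2) 0
    replace t1 := t1 le_rfl
    replace t2 := t2 (by norm_num)
    replace t3 := t3 (by norm_num)
    replace t4 := t4 le_rfl
    replace t5 := t5 le_rfl
    replace t6 := t6 le_rfl
    replace t7 := t7 (by norm_num)
    replace t8 := t8 (by norm_num)
    have u1 : 0 < a1 * z₁.1 + b1 * z₁.2 + c1 := by nlinarith
    have u5 : 0 < a1 * z₃.1 + b1 * z₃.2 + c1 := by nlinarith
    have hn : 0 < a3 ^ 2 + b3 ^ 2 := by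
      rcases n3 with h | h <;> positivity
    set k := (a1 * a3 + b1 * b3) / (a3 ^ 2 + b3 ^ 2) with hk
    have ka : a1 = k * a3 := by
      rw [hk]; field_simp; linear_combination b3 * hd
    have kb : b1 = k * b3 := by
      rw [hk]; field_simp; linear_combination (-a3) * hd
    rw [ka, kb] at u1 u5 t3 t7
    rcases le_total 0 k with k0 | k0 <;> nlinarith
  obtain ⟨D, hD⟩ : ∃ D, D * (a1 * b3 - b1 * a3) = 1 := ⟨_, inv_mul_cancel₀ hdet⟩
  let φ : ℝ × ℝ → ℝ × ℝ := fun w =>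
    ((b3 * (e / l * (w.1 + 1) - c1) - b1 * (f / m * (w.2 - 36) - c3)) * D,
      (a1 * (f / m * (w.2 - 36) - c3) - a3 * (e / l * (w.1 + 1) - c1)) * D)
  have q1 : ∀ w, a1 * (φ w).1 + b1 * (φ w).2 + c1 = e / l * (w.1 + 1) := by
    intro w; simp only [φ]; linear_combination (e / l * (w.1 + 1) - c1) * hD
  have q3 : ∀ w, a3 * (φ w).1 + b3 * (φ w).2 + c3 = f / m * (w.2 - 36) := by
    intro w; simp only [φ]; linear_combination (f / m * (w.2 - 36) - c3) * hD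
  have q2 : ∀ w, a2 * (φ w).1 + b2 * (φ w).2 + c2 = e * w.1 := by
    intro w
    have : l * (e / l * (w.1 + 1)) = e * (w.1 + 1) := by field_simp
    rw [ea, eb, ec]
    linear_combination l * q1 w + this
  have q4 : ∀ w, a4 * (φ w).1 + b4 * (φ w).2 + c4 = f * (w.2 - 37) := by
    intro w
    have : m * (f / m * (w.2 - 36)) = f * (w.2 - 36) := by field_simp
    rw [fa, fb, fc]
    linear_combination m * q3 w + this
  have cv : ∀ S : Set (ℝ × ℝ), Convex ℝ S → Convex ℝ (φ ⁻¹' S) := by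
    intro S hS w hw w' hw' s t hs ht hst
    have : φ (s • w + t • w') = s • φ w + t • φ w' := by
      obtain rfl : t = 1 - s := by linarith
      ext <;> simp only [φ, Prod.fst_add, Prod.snd_add, Prod.smul_fst, Prod.smul_snd,
        smul_eq_mul] <;> ring
    rw [mem_preimage, this]
    exact hS hw hw' hs ht hst
  have sj : Function.Surjective φ := by
    intro z
    refine ⟨(l / e * (a1 * z.1 + b1 * z.2 + c1) - 1, m / f * (a3 * z.1 + b3 * z.2 + c3) + 36), ?_⟩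
    have i1 : e / l * (l / e * (a1 * z.1 + b1 * z.2 + c1) - 1 + 1) = a1 * z.1 + b1 * z.2 + c1 := by
      field_simp; ring
    have i2 : f / m * (m / f * (a3 * z.1 + b3 * z.2 + c3) + 36 - 36) = a3 * z.1 + b3 * z.2 + c3 := by
      field_simp; ring
    ext <;> simp only [φ, i1, i2]
    · linear_combination z.1 * hD
    · linear_combination z.2 * hD
  have el : 0 < e / l := by positivity
  have fm : 0 < f / m := by positivity
  refine ⟨φ, cv, force_normal (fun i => cv _ (cN i)) (fun i => cv _ (cP i)) (fun z => hA (φ z))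
    (fun z' => ?_) (fun w => ⟨fun h => (s2 _).1 ?_, fun h => (s2 _).2 ?_⟩)
    (fun w => ⟨fun h => (s1 _).1 ?_, fun h => (s1 _).2 ?_⟩)
    (fun w => ⟨fun h => (s3 _).1 ?_, fun h => (s3 _).2 ?_⟩)
    (fun w => ⟨fun h => (s4 _).1 ?_, fun h => (s4 _).2 ?_⟩)⟩
  · obtain ⟨z, h⟩ := hB z'
    obtain ⟨w, rfl⟩ := sj z
    exact ⟨w, h⟩
  all_goals
    simp only [q1, q2, q3, q4]
    simp [BL.f] at h
    nlinarith

end Pool.Agent.Lib.MP_79902f_lc
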