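import Pool.Agent.Lib.MP_79902f_lc.Sound

/-!
A short enough reconfiguration sequence gives a convex realization of the code.
-/

namespace Pool.Agent.Lib.MP_79902f_lc

open Set

variable {A : Type} {n : ℕ} {H : A → A → Prop} {B : Fin 3 → ℕ → A → Prop}

/-- A reconfiguration sequence, in the strong form used to build a realization. -/
def StrongSeq (H : A → A → Prop) (B : Fin 3 → ℕ → A → Prop) : Prop :=
  ∃ (T N : ℕ) (w : ℕ → ℕ → A), 8 * N ≤ 2 ^ T ∧ (∀ i t, t ≤ T → w i t = w 0 t) ∧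
    (∀ t, B 0 t (w 0 t)) ∧ (∀ t, B 2 t (w N t)) ∧ (∀ i t, i ≤ N → B 1 t (w i t)) ∧
    ∀ i j t, i ≤ N → j ≤ N → i ≤ j + 1 → j ≤ i + 1 → H (w i t) (w j (t + 1))

/-- The half-plane conditions of the intended realization. -/
def Hs (H : A → A → Prop) (L : ℕ → ℝ → A) (t : ℕ) : Fin 22 ⊕ A → Set (ℝ × ℝ)
  | .inl k => {z | Per (sc t z) (k : ℕ)}
  | .inr b => {z | (∀ m, Bel m (sc t z)) ∧
      (∀ m : ℤ, b ≠ L t ((2 * m + 1) / 2 ^ (t + 1)) → Bel m (sc (t + 1) z)) ∧
      ∀ m : ℤ, ¬ H b (L (t + 1) ((2 * m + 1) / 2 ^ (t + 2))) → Bel m (sc (t + 2) z)}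

theorem convex_bel (m : ℤ) (t : ℕ) : Convex ℝ {z | Bel m (sc t z)} := by
  intro z hz z' hz' a b ha hb hab
  simp only [mem_ofPred_eq, Bel, lin, sc, Prod.fst_add, Prod.snd_add, Prod.smul_fst, Prod.smul_snd,
    smul_eq_mul] at *
  have := hz.le
  rcases ha.eq_or_lt with rfl | ha'
  · obtain rfl : b = 1 := by linarith
    simpa using hz'
  · have k1 := mul_lt_mul_of_pos_left hz ha'
    have k2 := mul_le_mul_of_nonneg_left hz'.le hb
    obtain rfl : b = 1 - a := by linarith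
    nlinarith

theorem convex_Hs (L : ℕ → ℝ → A) (t : ℕ) (s : Fin 22 ⊕ A) : Convex ℝ (Hs H L t s) := by
  intro z hz z' hz' a b ha hb hab
  cases s with
  | inl k => exact fun j => convex_bel _ t (hz j) (hz' j) ha hb hab
  | inr c =>
    exact ⟨fun m => convex_bel _ _ (hz.1 m) (hz'.1 m) ha hb hab,
      fun m h => convex_bel _ _ (hz.2.1 m h) (hz'.2.1 m h) ha hb hab,
      fun m h => convex_bel _ _ (hz.2.2 m h) (hz'.2.2 m h) ha hb hab⟩

theorem convex_epi {S : Set (ℝ × ℝ)} (h1 : ∀ z : ℝ × ℝ, om z.1 < z.2 → z ∈ S)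
    (h2 : ∀ z ∈ S, om z.1 ≤ z.2) : Convex ℝ S := by
  intro z hz z' hz' a b ha hb hab
  rcases ha.eq_or_lt with rfl | ha'
  · obtain rfl : b = 1 := by linarith
    simpa using hz'
  rcases hb.eq_or_lt with rfl | hb'
  · obtain rfl : a = 1 := by linarith
    simpa using hz
  by_cases e : z = z'
  · subst e
    rwa [← add_smul, hab, one_smul]
  apply h1
  have k1 := h2 z hz
  have k2 := h2 z' hz'
  obtain rfl : b = 1 - a := by linarith
  simp only [om, Prod.fst_add, Prod.snd_add, Prod.smul_fst, Prod.smul_snd, smul_eq_mul] at *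
  by_cases e1 : z.1 = z'.1
  · have e2 : z.2 ≠ z'.2 := fun e2 => e (Prod.ext e1 e2)
    rw [← e1] at k2 ⊢
    rcases lt_or_gt_of_ne e2 with e3 | e3 <;> nlinarith
  · have k3 : 0 < (z.1 - z'.1) ^ 2 := by positivity
    have k4 := mul_pos (mul_pos ha' hb') k3
    nlinarith

theorem mem_Hs_of_lt (L : ℕ → ℝ → A) {t : ℕ} {z : ℝ × ℝ} (h : 4 ^ t * ht z < 35 / 16)
    (s : Fin 22 ⊕ A) : z ∈ Hs H L t s := by
  have b0 : ∀ m, Bel m (sc t z) := bel_of_lt (by rw [ht_sc]; linarith)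
  have b1 : ∀ m, Bel m (sc (t + 1) z) := bel_of_lt (by rw [ht_sc, pow_succ]; linarith)
  have b2 : ∀ m, Bel m (sc (t + 2) z) := bel_of_lt (by rw [ht_sc, pow_add]; linarith)
  cases s with
  | inl k => exact fun j => b0 _
  | inr c => exact ⟨b0, fun m _ => b1 m, fun m _ => b2 m⟩

theorem lt_of_mem_Hs {L : ℕ → ℝ → A} {t : ℕ} {z : ℝ × ℝ} {s : Fin 22 ⊕ A} (h : z ∈ Hs H L t s) :
    4 ^ t * ht z < 519 := by
  rw [← ht_sc]
  cases s with
  | inl k => exact lt_of_per h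
  | inr c => linarith [lt_of_all h.1]

theorem varPat_inner {L : ℕ → ℝ → A}
    (hH : ∀ t x x', |x - x'| < 8 / 2 ^ (t + 1) → H (L t x) (L (t + 1) x'))
    (hB : ∀ t x x', |x - x'| < 1 / 2 ^ (t + 1) → B (reg x') t (L t x))
    {z : ℝ × ℝ} {σ : Neu A → Prop} (h1 : ∀ i b, σ (.inl (i, b)) ↔ b = side (reg z.1) i)
    (h2 : ∀ t s, σ (.inr (t, s)) ↔ t < n ∧ z ∈ Hs H L t s) : VarPat n H B (reg z.1) σ := by
  classical
  have ex : ∀ t, xs σ t = fun m => t < n ∧ Per (sc t z) m := by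
    intro t
    funext m
    simp only [xs, h2, Hs, mem_ofPred_eq, per_cls]
  refine ⟨h1, fun t s h => ((h2 t s).1 h).1, ?_, fun t htn j => ⟨fun ht' => ?_, ?_, ?_, ?_⟩⟩
  · have hex : ∃ t, n ≤ t ∨ 35 / 16 ≤ 4 ^ t * ht z := ⟨n, Or.inl le_rfl⟩
    refine ⟨Nat.find hex, fun t s h => ?_, fun t s h => ?_⟩
    · have := Nat.find_min hex h
      push Not at this
      exact (h2 t s).2 ⟨this.1, mem_Hs_of_lt L this.2 s⟩
    · obtain ⟨a1, a2⟩ := (h2 t s).1 h
      by_contra hc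
      obtain ⟨d, rfl⟩ := Nat.exists_eq_add_of_le (not_lt.1 hc)
      have a3 := lt_of_mem_Hs a2
      have a4 : (1 : ℝ) ≤ 4 ^ d := one_le_pow₀ (by norm_num)
      rcases Nat.find_spec hex with a5 | a5
      · omega
      · rw [pow_add, pow_add] at a3
        nlinarith
  · rw [ex, ex, sc_succ]
    simp only [htn, ht', true_and]
    exact step_per _ j
  · rw [ex]
    intro hw
    obtain ⟨k, hk⟩ := win_inv (win_and hw).2 le_rfl (by omega)
    set α := j + 22 * k
    obtain ⟨a1, a2, a3⟩ := hk.one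
    have p1 : (0 : ℝ) < 2 ^ (t + 1) := by positivity
    have ex1 : (sc (t + 1) z).1 = 2 ^ (t + 1) * z.1 := rfl
    refine ⟨L t ((2 * α + 1) / 2 ^ (t + 1)), hB _ _ _ ?_, (h2 _ _).2 ⟨htn, bel_of_lt ?_,
      fun m hm => hk.bel ?_, fun m hm => ?_⟩⟩
    · rw [show (2 * (α : ℝ) + 1) / 2 ^ (t + 1) - z.1 = (2 * α + 1 - 2 ^ (t + 1) * z.1) / 2 ^ (t + 1) by
        field_simp, abs_div, abs_of_pos p1, div_lt_div_iff_of_pos_right p1, abs_lt]
      constructor <;> linarith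
    · rw [ht_sc, pow_succ] at a1
      rw [ht_sc]
      linarith
    · by_contra hc
      exact hm (by rw [show m = α by omega])
    · by_contra hc
      apply hm
      apply hH
      rw [bel_iff, ht_sc, not_lt] at hc
      rw [ht_sc] at a1
      have ex2 : (sc (t + 2) z).1 = 2 * (2 ^ (t + 1) * z.1) := by simp only [sc]; ring
      rw [ex2, pow_succ 4 (t + 1)] at hc
      have c1 := abs_lt_of_sq_lt_sq' (a := 2 * (2 ^ (t + 1) * z.1) - (2 * m + 1)) (b := 11)
        (by linarith) (by norm_num)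
      rw [show (2 * (α : ℝ) + 1) / 2 ^ (t + 1) - (2 * m + 1) / 2 ^ (t + 2)
          = (2 * α + 1 - (2 * m + 1) / 2) / 2 ^ (t + 1) by rw [pow_succ 2 (t + 1)]; field_simp,
        abs_div, abs_of_pos p1, div_lt_div_iff_of_pos_right p1, abs_lt]
      constructor <;> linarith [c1.1, c1.2]
  · rw [ex]
    intro hw a b ha hb
    obtain ⟨k, hk⟩ := win_inv (win_and hw).2 le_rfl (by omega)
    have e1 : a = L (t + 1) ((2 * (j + 22 * k : ℤ) + 1) / 2 ^ (t + 2)) := by
      by_contra hc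
      exact hk.2.1 (((h2 _ _).1 ha).2.2.1 _ hc)
    by_contra hc
    exact hk.2.1 (((h2 _ _).1 hb).2.2.2 _ (e1 ▸ hc))
  · rw [ex]
    intro hw b
    obtain ⟨k, hk⟩ := win_inv (win_and hw).2 le_rfl (by omega)
    have a1 := hk.one.1
    rw [ht_sc, pow_add] at a1
    exact (h2 _ _).2 ⟨htn, mem_Hs_of_lt L (by linarith) _⟩

theorem realize_of [Finite A] (hn : 2 ≤ n) {L : ℕ → ℝ → A}
    (hH : ∀ t x x', |x - x'| < 8 / 2 ^ (t + 1) → H (L t x) (L (t + 1) x'))
    (hB : ∀ t x x', |x - x'| < 1 / 2 ^ (t + 1) → B (reg x') t (L t x)) :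
    ∃ Y : Neu A → Set (ℝ × ℝ), (∀ a, Convex ℝ (Y a)) ∧
      ∀ σ, InCode n H B σ ↔ ∃ z, σ = fun a => z ∈ Y a := by
  classical
  have fin : {σ : Neu A → Prop | ∀ t s, σ (.inr (t, s)) → t < n}.Finite := by
    have f1 : (range (Sum.inl : BL × Bool → Neu A) ∪
        Sum.inr '' (Iio n ×ˢ (univ : Set (Fin 22 ⊕ A)))).Finite :=
      (finite_range _).union (((finite_Iio n).prod finite_univ).image _)
    refine f1.finite_subsets.subset ?_
    intro σ hσ a ha
    rcases a with a | ⟨t, s⟩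
    · exact Or.inl ⟨a, rfl⟩
    · exact Or.inr ⟨(t, s), ⟨hσ t s ha, trivial⟩, rfl⟩
  obtain ⟨e, he⟩ := Set.countable_iff_exists_injOn.1 (Set.Finite.countable fin)
  let xr : Fin 3 → ℝ := fun r => 85 + 5 / 2 * (r : ℕ)
  let mx : Fin 3 → (Neu A → Prop) → ℝ := fun r σ => xr r + 1 / (e σ + 2)
  have m1 : ∀ σ, (0 : ℝ) < 1 / (e σ + 2) := fun σ => by positivity
  have m2 : ∀ σ, (1 : ℝ) / (e σ + 2) ≤ 1 / 2 := fun σ =>
    one_div_le_one_div_of_le (by norm_num) (by linarith [Nat.cast_nonneg (α := ℝ) (e σ)])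
  have mreg : ∀ r σ, reg (mx r σ) = r := by
    intro r σ
    have a1 := m1 σ
    have a2 := m2 σ
    simp only [mx, xr]
    generalize (1 : ℝ) / (e σ + 2) = u at a1 a2 ⊢
    unfold reg
    fin_cases r <;> norm_num
    · intro h; linarith
    · rw [if_neg (by linarith), if_pos (by linarith)]
    · rw [if_neg (by linarith), if_neg (by linarith)]; rfl
  have mb : ∀ r σ, 85 ≤ mx r σ ∧ mx r σ ≤ 91 := by
    intro r σ
    have hr : ((r : ℕ) : ℝ) ≤ 2 := by exact_mod_cast (show (r : ℕ) ≤ 2 by omega)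
    have h0 : (0 : ℝ) ≤ (r : ℕ) := Nat.cast_nonneg _
    have a1 := m1 σ
    have a2 := m2 σ
    simp only [mx, xr]
    constructor <;> linarith
  have mht : ∀ r σ, ht (mx r σ, om (mx r σ)) < 0 := by
    intro r σ
    obtain ⟨a1, a2⟩ := mb r σ
    simp only [ht, om]
    nlinarith
  have mact : ∀ r σ, Act (mx r σ, om (mx r σ)) := by
    intro r σ
    refine ⟨by linarith [(mb r σ).1], fun k => ?_⟩
    have h6 := bel_of_lt (z := (mx r σ, om (mx r σ))) (by linarith [mht r σ]) (k : ℕ)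
    simp only [Bel, BL.f] at h6 ⊢
    push_cast at h6
    linarith
  have minj : ∀ r σ r' σ', VarPat n H B r σ → VarPat n H B r' σ' → mx r σ = mx r' σ' → σ = σ' := by
    intro r σ r' σ' h h' e1
    have e2 : r = r' := by rw [← mreg r σ, e1, mreg]
    subst e2
    refine he h.2.1 h'.2.1 ?_
    simp only [mx, add_right_inj, one_div, inv_inj, add_left_inj] at e1
    exact_mod_cast e1
  let S : Neu A → Set (ℝ × ℝ) := fun a =>
    {z | om z.1 < z.2 ∨ ∃ r σ, VarPat n H B r σ ∧ σ a ∧ z = (mx r σ, om (mx r σ))}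
  let Y : Neu A → Set (ℝ × ℝ) := Sum.elim (fun p => {z | if p.2 then 0 ≤ p.1.f z else p.1.f z < 0})
    (fun p => {z | p.1 < n ∧ z ∈ Hs H L p.1 p.2 ∧ z ∈ S (.inr p)})
  have mus : ∀ r σ, VarPat n H B r σ → σ = fun a => (mx r σ, om (mx r σ)) ∈ Y a := by
    intro r σ h
    funext a
    apply propext
    rcases a with ⟨i, b⟩ | ⟨t, s⟩
    · rw [h.1]
      have := side_reg (mact r σ) i b
      rw [mreg] at this
      exact this.symm
    · refine ⟨fun h' => ⟨h.2.1 t s h', mem_Hs_of_lt L ?_ s, Or.inr ⟨r, σ, h, h', rfl⟩⟩, ?_⟩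
      · have := mul_neg_of_pos_of_neg (by positivity : (0 : ℝ) < 4 ^ t) (mht r σ)
        linarith
      · rintro ⟨-, -, h' | ⟨r', σ', a1, a2, a3⟩⟩
        · exact absurd h' (lt_irrefl _)
        · rwa [minj r σ r' σ' h a1 (congrArg Prod.fst a3)]
  have cst : ∀ z, ¬ Act z → pat0 z = fun a => z ∈ Y a := by
    intro z hz
    funext a
    apply propext
    have hs : ∀ a, z ∈ S a ↔ om z.1 < z.2 := by
      intro a
      refine ⟨?_, Or.inl⟩
      rintro (h | ⟨r, σ, -, -, rfl⟩)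
      · exact h
      · exact absurd (mact r σ) hz
    rcases a with ⟨i, b⟩ | ⟨t, k | b⟩
    · rfl
    · have := xs_pat0 (A := A) hz t (k : ℕ)
      have e1 : cls (k : ℕ) = k := by
        ext; simp only [cls]; omega
      simp only [xs, e1] at this
      refine ⟨fun h => ⟨by have := h.1; omega, h.2.2, (hs _).2 h.2.1⟩,
        fun h => this.2 ⟨(hs _).1 h.2.2, h.2.1⟩⟩
    · refine ⟨False.elim, fun h => ?_⟩
      obtain ⟨m, hm⟩ := ge_of_not_act hz ((hs _).1 h.2.2)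
      have a1 := h.2.1.1
      rcases Nat.eq_zero_or_pos t with rfl | ht'
      · rw [sc_zero] at a1
        exact hm (a1 m)
      · have a2 := lt_of_all a1
        have a3 := ge_of_not_bel hm
        have a4 : (4 : ℝ) ^ 1 ≤ 4 ^ t := pow_le_pow_right₀ (by norm_num) ht'
        rw [ht_sc] at a2
        nlinarith
  refine ⟨Y, fun a => ?_, fun σ => ⟨?_, ?_⟩⟩
  · rcases a with ⟨i, b⟩ | ⟨t, s⟩
    · have af : ∀ (z z' : ℝ × ℝ) (u v : ℝ), u + v = 1 →
          i.f (u • z + v • z') = u * i.f z + v * i.f z' := by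
        intro z z' u v h
        obtain rfl : v = 1 - u := by linarith
        cases i <;> simp only [BL.f, lin, Prod.fst_add, Prod.snd_add, Prod.smul_fst, Prod.smul_snd,
          smul_eq_mul] <;> (try split_ifs) <;> ring
      intro z hz z' hz' u v hu hv huv
      cases b
      · simp only [Y, Sum.elim_inl, Bool.false_eq_true, if_false, mem_ofPred_eq] at hz hz' ⊢
        rw [af _ _ _ _ huv]
        rcases hu.eq_or_lt with rfl | hu'
        · obtain rfl : v = 1 := by linarith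
          simpa using hz'
        · nlinarith
      · simp only [Y, Sum.elim_inl, if_true, mem_ofPred_eq] at hz hz' ⊢
        rw [af _ _ _ _ huv]
        positivity
    · have cS : Convex ℝ (S (.inr (t, s))) := by
        refine convex_epi (fun z h => Or.inl h) ?_
        rintro z (h | ⟨r, σ, -, -, rfl⟩)
        · exact h.le
        · exact le_rfl
      intro z hz z' hz' u v hu hv huv
      exact ⟨hz.1, convex_Hs L t s hz.2.1 hz'.2.1 hu hv huv, cS hz.2.2 hz'.2.2 hu hv huv⟩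
  · rintro (⟨z, hz, rfl⟩ | ⟨r, h⟩)
    · exact ⟨z, cst z hz⟩
    · exact ⟨_, mus r σ h⟩
  · rintro ⟨z, rfl⟩
    by_cases hz : Act z
    · right
      by_cases h1 : om z.1 < z.2
      · refine ⟨reg z.1, varPat_inner hH hB (fun i b => side_reg hz i b) (fun t s => ?_)⟩
        exact ⟨fun h => ⟨h.1, h.2.1⟩, fun h => ⟨h.1, h.2, Or.inl h1⟩⟩
      by_cases h2 : ∃ r σ, VarPat n H B r σ ∧ z = (mx r σ, om (mx r σ))
      · obtain ⟨r, σ, h, rfl⟩ := h2
        exact ⟨r, mus r σ h ▸ h⟩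
      · refine ⟨reg z.1, varPat_empty n H B _ (fun i b => side_reg hz i b) ?_⟩
        rintro p ⟨-, -, h | ⟨r, σ, a1, -, a2⟩⟩
        · exact h1 h
        · exact h2 ⟨r, σ, a1, a2⟩
    · exact Or.inl ⟨z, hz, (cst z hz).symm⟩

theorem realize [Finite A] (hn : 2 ≤ n) (h : StrongSeq H B) :
    ∃ Y : Neu A → Set (ℝ × ℝ), (∀ a, Convex ℝ (Y a)) ∧
      ∀ σ, InCode n H B σ ↔ ∃ z, σ = fun a => z ∈ Y a := by
  obtain ⟨T, N, w, h1, h2, h3, h4, h5, h6⟩ := h
  have pT : (0 : ℝ) < 2 ^ T := by positivity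
  refine realize_of hn (L := fun t x => w (min N ⌊(x - 87) * 2 ^ T / 8⌋₊) t) (fun t x x' hx => ?_)
    (fun t x x' hx => ?_)
  · rcases le_total (t + 1) T with ht | ht
    · rw [h2 _ t (by omega), h2 _ (t + 1) ht]
      exact h6 0 0 t (by omega) (by omega) (by omega) (by omega)
    · have a1 : (2 : ℝ) ^ T ≤ 2 ^ (t + 1) := pow_le_pow_right₀ (by norm_num) ht
      have a2 : |x - x'| < 8 / 2 ^ T :=
        hx.trans_le (div_le_div_of_nonneg_left (by norm_num) pT a1)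
      rw [lt_div_iff₀ pT] at a2
      have a3 : ∀ u v : ℝ, u ≤ v + 1 → ⌊u⌋₊ ≤ ⌊v⌋₊ + 1 := by
        intro u v huv
        rcases le_total 0 v with hv | hv
        · rw [← Nat.floor_add_one hv]; exact Nat.floor_mono huv
        · have : ⌊u⌋₊ ≤ ⌊(1 : ℝ)⌋₊ := Nat.floor_mono (by linarith)
          rw [Nat.floor_one] at this
          omega
      have a4 := a3 ((x - 87) * 2 ^ T / 8) ((x' - 87) * 2 ^ T / 8) (by
        nlinarith [le_abs_self (x - x')])
      have a5 := a3 ((x' - 87) * 2 ^ T / 8) ((x - 87) * 2 ^ T / 8) (by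
        nlinarith [neg_abs_le (x - x')])
      exact h6 _ _ t (min_le_left _ _) (min_le_left _ _) (by omega) (by omega)
  · have a1 : (1 : ℝ) / 2 ^ (t + 1) ≤ 1 := by
      rw [div_le_one (by positivity)]; exact one_le_pow₀ (by norm_num)
    obtain ⟨a2, a3⟩ := abs_lt.1 (hx.trans_le a1)
    unfold reg
    split_ifs with c1 c2
    · have : ⌊(x - 87) * 2 ^ T / 8⌋₊ = 0 := Nat.floor_of_nonpos (by nlinarith)
      simp only [this, Nat.min_zero]
      exact h3 t
    · exact h5 _ t (min_le_left _ _)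
    · have c3 : (8 * N : ℝ) ≤ 2 ^ T := by exact_mod_cast h1
      have : N ≤ ⌊(x - 87) * 2 ^ T / 8⌋₊ := Nat.le_floor (by nlinarith)
      simp only [min_eq_left this]
      exact h4 t

end Pool.Agent.Lib.MP_79902f_lc
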