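import Pool.Agent.Lib.MP_79902f_lc.Defs
import Pool.Agent.Lib.MP_79902f_lc.Real
import Pool.Agent.Shared.PolyTime.Extra

/-!
The code as an explicit list, computable in polynomial time.
-/

namespace Pool.Agent.Lib.MP_79902f_lc

open N68a2faeb Pool.Agent.Shared.PolyTime N487b59b3

variable {A : Type} [Finite A]

/-- The number of neurons of the base configuration. -/
noncomputable def nb : ℕ := Nat.card (BL × Bool)

/-- The number of neurons in one generation. -/
noncomputable def nw (A : Type) : ℕ := Nat.card (Fin 22 ⊕ A)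

/-- The numbering of the neurons. -/
noncomputable def idx : Neu A → ℕ
  | .inl p => Finite.equivFin (BL × Bool) p
  | .inr (t, s) => nb + t * nw A + Finite.equivFin (Fin 22 ⊕ A) s

theorem idx_inl_lt (p : BL × Bool) : idx (.inl p : Neu A) < nb := (Finite.equivFin _ p).2

theorem idx_inr (t : ℕ) (s : Fin 22 ⊕ A) :
    nb + t * nw A ≤ idx (.inr (t, s)) ∧ idx (.inr (t, s)) < nb + (t + 1) * nw A := by
  have : (Finite.equivFin (Fin 22 ⊕ A) s : ℕ) < nw A := (Finite.equivFin _ s).2
  simp only [idx, add_mul]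
  omega

theorem idx_inr_lt (t u : ℕ) (s : Fin 22 ⊕ A) : idx (.inr (t, s)) < nb + u * nw A ↔ t < u := by
  obtain ⟨h1, h2⟩ := idx_inr t s
  constructor
  · intro h
    by_contra hc
    have := Nat.mul_le_mul_right (nw A) (not_lt.1 hc)
    omega
  · intro h
    have := Nat.mul_le_mul_right (nw A) (show t + 1 ≤ u from h)
    omega

theorem idx_injective : Function.Injective (idx : Neu A → ℕ) := by
  rintro (p | ⟨t, s⟩) (p' | ⟨t', s'⟩) h
  · simp only [idx] at h
    rw [(Finite.equivFin _).injective (Fin.ext h)]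
  · have := idx_inl_lt (A := A) p
    have := (idx_inr t' s').1
    omega
  · have := idx_inl_lt (A := A) p'
    have := (idx_inr t s).1
    omega
  · have h1 := (idx_inr_lt t (t' + 1) s).1 (h ▸ (idx_inr t' s').2)
    have h2 := (idx_inr_lt t' (t + 1) s').1 (h ▸ (idx_inr t s).2)
    obtain rfl : t = t' := by omega
    simp only [idx, add_right_inj] at h
    rw [(Finite.equivFin _).injective (Fin.ext h)]

theorem idx_surjective : Function.Surjective (idx : Neu A → ℕ) := by
  intro i
  by_cases h : i < nb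
  · exact ⟨.inl ((Finite.equivFin _).symm ⟨i, h⟩), by simp [idx]⟩
  · have hw : 0 < nw A := Nat.card_pos
    refine ⟨.inr ((i - nb) / nw A, (Finite.equivFin _).symm ⟨(i - nb) % nw A, Nat.mod_lt _ hw⟩), ?_⟩
    have := Nat.div_add_mod' (i - nb) (nw A)
    simp only [idx, Equiv.apply_symm_apply]
    omega

theorem exists_const (A : Type) [Finite A] : ∃ C : List (List ℕ), ∀ σ : Neu A → Prop,
    (∃ z, ¬ Act z ∧ σ = pat0 z) ↔ ∃ c ∈ C, σ = fun a => idx a ∈ c := by
  classical
  refine ⟨(List.range (nb + 2 * nw A)).sublists.filter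
    (fun c => decide (∃ z, ¬ Act z ∧ (fun a : Neu A => idx a ∈ c) = pat0 z)), fun σ => ⟨?_, ?_⟩⟩
  · rintro ⟨z, hz, rfl⟩
    have key : pat0 z = fun a : Neu A => idx a ∈ (List.range (nb + 2 * nw A)).filter
        (fun i => decide (∃ a : Neu A, pat0 z a ∧ idx a = i)) := by
      funext a
      simp only [List.mem_filter, List.mem_range, decide_eq_true_eq, idx_injective.eq_iff,
        exists_eq_right, eq_iff_iff, iff_and_self]
      rcases a with p | ⟨t, k | b⟩
      · have := idx_inl_lt (A := A) p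
        omega
      · intro h
        rw [idx_inr_lt]
        have := h.1
        omega
      · exact False.elim
    refine ⟨_, ?_, key⟩
    simp only [List.mem_filter, List.mem_sublists, List.filter_sublist, true_and,
      decide_eq_true_eq]
    exact ⟨z, hz, by simpa using key.symm⟩
  · rintro ⟨c, hc, rfl⟩
    simpa using (List.mem_filter.1 hc).2

/-- The constant part of the code. -/
noncomputable def constL (A : Type) [Finite A] : List (List ℕ) := (exists_const A).choose

open Classical in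
/-- The base neurons of the active region number `r`. -/
noncomputable def baseL (r : Fin 3) : List ℕ :=
  (List.range nb).filter fun i => decide (∃ p : BL × Bool, p.2 = side r p.1 ∧
    (Finite.equivFin (BL × Bool) p : ℕ) = i)

/-- A candidate codeword. -/
noncomputable def cand (A : Type) (r : Fin 3) (t : ℕ) (u : List ℕ) : List ℕ :=
  baseL r ++ (List.range (t * nw A)).map (fun i => nb + i) ++ u.map fun i => nb + t * nw A + i

/-- The test that a candidate has to pass. -/
def Chk (n : ℕ) (H : A → A → Prop) (B : ℕ → A → Prop) (c : List ℕ) : Prop :=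
  (∀ i ∈ c, i < nb + n * nw A) ∧
    ∀ t < n, ∀ j : Fin 22, RuleAt n H B (fun a => idx a ∈ c) t (j : ℕ)

open Classical in
/-- The codewords of the active region number `r`. -/
noncomputable def varL (n : ℕ) (H : A → A → Prop) (B : ℕ → A → Prop) (r : Fin 3) : List (List ℕ) :=
  ((List.range (n + 1)).flatMap fun t =>
    (List.range (4 * nw A)).sublists.map fun u => cand A r t u).filter fun c => decide (Chk n H B c)

/-- The code as a list. -/
noncomputable def codeL (n : ℕ) (H : A → A → Prop) (B : Fin 3 → ℕ → A → Prop) : List (List ℕ) :=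
  constL A ++ (varL n H (B 0) 0 ++ varL n H (B 1) 1 ++ varL n H (B 2) 2)

theorem ruleAt_mod {n : ℕ} {H : A → A → Prop} {B : ℕ → A → Prop} {σ : Neu A → Prop} {t : ℕ}
    (h : ∀ j : Fin 22, RuleAt n H B σ t (j : ℕ)) (j : ℤ) : RuleAt n H B σ t j := by
  have h1 := h (cls j)
  obtain ⟨k, hk⟩ : ∃ k, j = ((cls j : ℕ) : ℤ) + 22 * k := ⟨j / 22, by simp only [cls]; omega⟩
  generalize ((cls j : ℕ) : ℤ) = i at h1 hk
  subst hk
  have e : ∀ t a b, (a - b) % 22 = 0 → (xs σ t a ↔ xs σ t b) := by
    intro t a b hab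
    have : cls a = cls b := by
      ext; simp only [cls]; omega
    simp only [xs, this]
  have w : ∀ t a b a' b', (a - a') % 22 = 0 → (b - b') % 22 = 0 →
      Win (xs σ t) a b → Win (xs σ t) a' b' := fun t a b a' b' h1 h2 h =>
    ⟨(e _ _ _ (by omega)).1 h.1, fun k => h.2.1 ((e _ _ _ h1).2 k),
      fun k => h.2.2.1 ((e _ _ _ h2).2 k), (e _ _ _ (by omega)).1 h.2.2.2⟩
  obtain ⟨r1, r2, r3, r4⟩ := h1
  refine ⟨fun ht => ?_, fun k => r2 (w _ _ _ _ _ (by omega) (by omega) k),
    fun k => r3 (w _ _ _ _ _ (by omega) (by omega) k),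
    fun k => r4 (w _ _ _ _ _ (by omega) (by omega) k)⟩
  obtain ⟨s1, s2, s3, s4, s5, s6⟩ := r1 ht
  exact ⟨fun k => (e _ _ _ (by omega)).1 (s1 (w _ _ _ _ _ (by omega) (by omega) k)),
    fun k => (e _ _ _ (by omega)).1 (s2 (w _ _ _ _ _ (by omega) (by omega) k)),
    fun k k' => s3 (w _ _ _ _ _ (by omega) (by omega) k) ((e _ _ _ (by omega)).1 k'),
    fun k => (e _ _ _ (by omega)).1 (s4 (w _ _ _ _ _ (by omega) (by omega) k)),
    fun k => (e _ _ _ (by omega)).1 (s5 (w _ _ _ _ _ (by omega) (by omega) k)),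
    fun k k' => s6 (w _ _ _ _ _ (by omega) (by omega) k) ((e _ _ _ (by omega)).1 k')⟩

theorem mem_cand_inl (r : Fin 3) (t : ℕ) (u : List ℕ) (i : BL) (b : Bool) :
    idx (.inl (i, b) : Neu A) ∈ cand A r t u ↔ b = side r i := by
  have h := idx_inl_lt (A := A) (i, b)
  simp only [cand, List.mem_append, List.mem_map, baseL, List.mem_filter, List.mem_range,
    decide_eq_true_eq]
  constructor
  · rintro ((⟨-, p, h1, h2⟩ | ⟨j, -, h1⟩) | ⟨j, -, h1⟩)
    · obtain rfl : p = (i, b) := (Finite.equivFin _).injective (Fin.ext h2)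
      exact h1
    · omega
    · omega
  · exact fun hb => Or.inl (Or.inl ⟨h, (i, b), hb, rfl⟩)

theorem mem_cand_inr (r : Fin 3) (t₀ : ℕ) (u : List ℕ) (t : ℕ) (s : Fin 22 ⊕ A) :
    idx (.inr (t, s) : Neu A) ∈ cand A r t₀ u ↔
      t < t₀ ∨ ∃ i ∈ u, nb + t₀ * nw A + i = idx (.inr (t, s) : Neu A) := by
  have h := (idx_inr t s).1
  simp only [cand, List.mem_append, List.mem_map, baseL, List.mem_filter, List.mem_range,
    ← idx_inr_lt t t₀ s]
  constructor
  · rintro ((⟨h1, -⟩ | ⟨j, h1, h2⟩) | h1)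
    · omega
    · left; omega
    · exact Or.inr h1
  · rintro (h1 | h1)
    · exact Or.inl (Or.inr ⟨idx (.inr (t, s) : Neu A) - nb, by omega, by omega⟩)
    · exact Or.inr h1

theorem varL_spec {n : ℕ} {H : A → A → Prop} {B : Fin 3 → ℕ → A → Prop} (r : Fin 3)
    (σ : Neu A → Prop) :
    VarPat n H B r σ ↔ ∃ c ∈ varL n H (B r) r, σ = fun a => idx a ∈ c := by
  classical
  simp only [varL, List.mem_filter, List.mem_flatMap, List.mem_range, List.mem_map,
    List.mem_sublists, decide_eq_true_eq]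
  constructor
  · rintro ⟨h1, h2, ⟨t₀, h3, h4⟩, h5⟩
    have key : σ = fun a => idx a ∈ cand A r t₀ ((List.range (4 * nw A)).filter fun i =>
        decide (∃ a, σ a ∧ idx a = nb + t₀ * nw A + i)) := by
      funext a
      apply propext
      rcases a with ⟨i, b⟩ | ⟨t, s⟩
      · rw [mem_cand_inl, h1]
      · rw [mem_cand_inr]
        simp only [List.mem_filter, List.mem_range, decide_eq_true_eq]
        constructor
        · intro h
          by_cases ht : t < t₀
          · exact Or.inl ht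
          · have a1 := (idx_inr_lt t (t₀ + 4) s).2 (h4 t s h)
            have a2 := mt (idx_inr_lt t t₀ s).1 ht
            rw [add_mul] at a1
            exact Or.inr ⟨idx (.inr (t, s) : Neu A) - (nb + t₀ * nw A), ⟨by omega, _, h, by omega⟩,
              by omega⟩
        · rintro (h | ⟨i, ⟨-, a, a1, a2⟩, a3⟩)
          · exact h3 t s h
          · rwa [← idx_injective (a2.trans a3)]
    have ht : t₀ ≤ n := by
      by_contra hc
      exact lt_irrefl _ (h2 n (.inl 0) (h3 n _ (not_le.1 hc)))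
    refine ⟨_, ⟨⟨t₀, by omega, _, List.filter_sublist, rfl⟩, fun i hi => ?_, fun t ht j => ?_⟩, key⟩
    · obtain ⟨a, rfl⟩ := idx_surjective (A := A) i
      have ha : σ a := by rw [key]; exact hi
      rcases a with p | ⟨t, s⟩
      · have := idx_inl_lt (A := A) p
        omega
      · exact (idx_inr_lt _ _ _).2 (h2 t s ha)
    · rw [← key]; exact h5 t ht _
  · rintro ⟨c, ⟨⟨t₀, -, u, hu, rfl⟩, h1, h2⟩, rfl⟩
    refine ⟨mem_cand_inl r t₀ u, fun t s h => (idx_inr_lt _ _ _).1 (h1 _ h), ⟨t₀, fun t s h =>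
      (mem_cand_inr _ _ _ _ _).2 (Or.inl h), fun t s h => ?_⟩, fun t ht => ruleAt_mod (h2 t ht)⟩
    rcases (mem_cand_inr _ _ _ _ _).1 h with h | ⟨i, a1, a2⟩
    · omega
    · have := List.mem_range.1 (hu.subset a1)
      rw [← idx_inr_lt t (t₀ + 4) s, add_mul]
      omega

theorem codeL_spec {n : ℕ} {H : A → A → Prop} {B : Fin 3 → ℕ → A → Prop} (σ : Neu A → Prop) :
    InCode n H B σ ↔ ∃ c ∈ codeL n H B, σ = fun a => idx a ∈ c := by
  simp only [InCode, codeL, List.mem_append, or_and_right, exists_or, ← varL_spec,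
    Fin.exists_fin_succ, constL, ← (exists_const A).choose_spec σ]
  simp [or_assoc]

theorem inCode_lt {n : ℕ} (hn : 2 ≤ n) {H : A → A → Prop} {B : Fin 3 → ℕ → A → Prop}
    {σ : Neu A → Prop} (h : InCode n H B σ) {a : Neu A} (ha : σ a) : idx a < nb + n * nw A := by
  rcases a with p | ⟨t, s⟩
  · have := idx_inl_lt (A := A) p
    omega
  · rw [idx_inr_lt]
    rcases h with ⟨z, -, rfl⟩ | ⟨r, h⟩
    · rcases s with k | b
      · have := ha.1
        omega
      · exact ha.elim
    · exact h.2.1 t s ha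

theorem weak_of_realizable {n : ℕ} (hn : 2 ≤ n) {H : A → A → Prop} {B : Fin 3 → ℕ → A → Prop}
    (h : ConvexRealizable (nb + n * nw A) (codeL n H B)) : WeakSeq n H B := by
  obtain ⟨X, hX, h⟩ := h
  refine sound hn (Y := fun a => {z | idx a < nb + n * nw A ∧ z ∈ X (idx a)})
    (fun a z hz z' hz' u v hu hv huv => ⟨hz.1, hX _ hz.2 hz'.2 hu hv huv⟩) fun σ => ?_
  rw [codeL_spec]
  constructor
  · rintro ⟨c, hc, rfl⟩
    obtain ⟨z, hz⟩ := (Set.ext_iff.1 h _).1 ⟨c, hc, rfl⟩
    exact ⟨z, funext fun a => propext (Set.ext_iff.1 hz (idx a))⟩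
  · rintro ⟨z, rfl⟩
    obtain ⟨c, hc, hz⟩ := (Set.ext_iff.1 h _).2 ⟨z, rfl⟩
    exact ⟨c, hc, funext fun a => propext (Set.ext_iff.1 hz (idx a))⟩

theorem realizable_of_strong {n : ℕ} (hn : 2 ≤ n) {H : A → A → Prop} {B : Fin 3 → ℕ → A → Prop}
    (h : StrongSeq H B) : ConvexRealizable (nb + n * nw A) (codeL n H B) := by
  obtain ⟨Y, hY, h⟩ := realize hn h
  let e : Neu A ≃ ℕ := Equiv.ofBijective idx ⟨idx_injective, idx_surjective⟩
  have key : ∀ (z : ℝ × ℝ) (c : List ℕ), ((fun a => z ∈ Y a) = fun a => idx a ∈ c) →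
      {i | i ∈ c} = {i | i < nb + n * nw A ∧ z ∈ Y (e.symm i)} := by
    intro z c hz
    ext i
    obtain ⟨a, rfl⟩ := e.surjective i
    have := (congrFun hz a).to_iff
    simp only [Set.mem_ofPred_eq, Equiv.symm_apply_apply]
    exact ⟨fun k => ⟨inCode_lt hn ((h _).2 ⟨z, rfl⟩) (this.2 k), this.2 k⟩, fun k => this.1 k.2⟩
  refine ⟨fun i => Y (e.symm i), fun i => hY _, Set.ext fun S => ⟨?_, ?_⟩⟩
  · rintro ⟨c, hc, rfl⟩
    obtain ⟨z, hz⟩ := (h _).1 ((codeL_spec _).2 ⟨c, hc, rfl⟩)
    exact ⟨z, key z c hz.symm⟩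
  · rintro ⟨z, rfl⟩
    obtain ⟨c, hc, hz⟩ := (codeL_spec _).1 ((h _).2 ⟨z, rfl⟩)
    exact ⟨c, hc, (key z c hz).symm⟩

open Classical in
theorem pt_xs {α : Type} [N487b59b3 α] {c : α → List ℕ} {t : α → ℕ} (hc : IsPolyTime c)
    (ht : IsPolyTime t) (m : ℤ) :
    IsPolyTime fun x => decide (xs (fun a : Neu A => idx a ∈ c x) (t x) m) := by
  unfold xs idx
  fun_prop

open Classical in
theorem pt_win {α : Type} [N487b59b3 α] {c : α → List ℕ} {t : α → ℕ} (hc : IsPolyTime c)
    (ht : IsPolyTime t) (a b : ℤ) :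
    IsPolyTime fun x => decide (Win (xs (fun a : Neu A => idx a ∈ c x) (t x)) a b) := by
  have h := pt_xs (A := A) hc ht
  exact IsPolyTime.decide_and (h _) (IsPolyTime.decide_and (IsPolyTime.decide_not (h _))
    (IsPolyTime.decide_and (IsPolyTime.decide_not (h _)) (h _)))

open Classical in
theorem pt_chk {α : Type} [N487b59b3 α] {n : α → ℕ} (h1 : IsPolyTime n) (h2 : PolyBdd n)
    (H : A → A → Prop) {B : α → ℕ → A → Prop}
    (hB : ∀ a, IsPolyTime fun p : α × ℕ => decide (B p.1 p.2 a)) :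
    IsPolyTime fun p : α × List ℕ => decide (Chk (n p.1) H (B p.1) p.2) := by
  have hB' : ∀ a, IsPolyTime fun p : (α × List ℕ) × ℕ => decide (B p.1.1 p.2 a) := fun a =>
    (hB a).comp (g := fun p : (α × List ℕ) × ℕ => (p.1.1, p.2)) (by fun_prop)
  have hc : IsPolyTime fun p : (α × List ℕ) × ℕ => p.1.2 := by fun_prop
  have x1 := pt_xs (A := A) hc (t := fun p => p.2 + 1) (by fun_prop)
  have w0 := pt_win (A := A) hc (t := fun p => p.2) (by fun_prop)
  have w1 := pt_win (A := A) hc (t := fun p => p.2 + 1) (by fun_prop)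
  have w2 := pt_win (A := A) hc (t := fun p => p.2 + 2) (by fun_prop)
  have w3 := pt_win (A := A) hc (t := fun p => p.2 + 3) (by fun_prop)
  have m0 : ∀ a : A, IsPolyTime fun p : (α × List ℕ) × ℕ =>
      decide (idx (.inr (p.2, .inr a) : Neu A) ∈ p.1.2) := by
    intro a
    unfold idx
    fun_prop
  have m1 : ∀ a : A, IsPolyTime fun p : (α × List ℕ) × ℕ =>
      decide (idx (.inr (p.2 + 1, .inr a) : Neu A) ∈ p.1.2) := by
    intro a
    unfold idx
    fun_prop
  refine IsPolyTime.decide_and (by fun_prop) (IsPolyTime.decide_forall_lt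
    (IsPolyTime.decide_forall_finite fun j => ?_) (by fun_prop) (h2.comp (by fun_prop)))
  refine IsPolyTime.decide_and (IsPolyTime.decide_imp (by fun_prop) ?_) (IsPolyTime.decide_and
    (IsPolyTime.decide_imp (w1 _ _) (IsPolyTime.decide_exists_finite fun a =>
      IsPolyTime.decide_and (hB' a) (m0 a))) (IsPolyTime.decide_and
    (IsPolyTime.decide_imp (w2 _ _) (IsPolyTime.decide_forall_finite fun a =>
      IsPolyTime.decide_forall_finite fun b => IsPolyTime.decide_imp (m1 a)
        (IsPolyTime.decide_imp (m0 b) IsPolyTime.decide_const)))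
    (IsPolyTime.decide_imp (w3 _ _) (IsPolyTime.decide_forall_finite fun a => m0 a))))
  exact IsPolyTime.decide_and (IsPolyTime.decide_imp (w0 _ _) (x1 _)) (IsPolyTime.decide_and
    (IsPolyTime.decide_imp (w0 _ _) (x1 _)) (IsPolyTime.decide_and
    (IsPolyTime.decide_imp (w0 _ _) (IsPolyTime.decide_not (x1 _))) (IsPolyTime.decide_and
    (IsPolyTime.decide_imp (w0 _ _) (x1 _)) (IsPolyTime.decide_and
    (IsPolyTime.decide_imp (w0 _ _) (x1 _))
    (IsPolyTime.decide_imp (w0 _ _) (IsPolyTime.decide_not (x1 _)))))))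

open Classical in
theorem pt_codeL {α : Type} [N487b59b3 α] {n : α → ℕ} (h1 : IsPolyTime n) (h2 : PolyBdd n)
    (H : A → A → Prop) {B : α → Fin 3 → ℕ → A → Prop}
    (hB : ∀ r a, IsPolyTime fun p : α × ℕ => decide (B p.1 r p.2 a)) :
    IsPolyTime fun x => codeL (n x) H (B x) := by
  have key : ∀ r, IsPolyTime fun x => varL (n x) H (B x r) r := by
    intro r
    unfold varL
    refine IsPolyTime.filter (pt_chk h1 h2 H (B := fun x => B x r) (hB r)) ?_
    have hb : PolyBdd fun p : (α × ℕ) × List ℕ => n p.1.1 := h2.comp (by fun_prop)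
    have : IsPolyTime fun x => (List.range (n x + 1)).flatMap fun t =>
        (List.range (4 * nw A)).sublists.map fun u => cand A r (min t (n x)) u := by
      unfold cand
      fun_prop
    refine this.of_eq fun x => List.flatMap_congr fun t ht => ?_
    rw [min_eq_left (by simpa [Nat.lt_succ_iff] using ht)]
  unfold codeL
  have k0 := key 0
  have k1 := key 1
  have k2 := key 2
  fun_prop

end Pool.Agent.Lib.MP_79902f_lc
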