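import Mathlib
import Pool.Prelude.Def_F_458e953d

/-!
Polynomial space and the realizability problem for planar convex codes.
-/

namespace Pool.Agent.Lib.MP_79902f_lc

open N68a2faeb N793a5b8e

/-- A deterministic one-tape Turing machine with `nQ` states and `nG` tape symbols. -/
structure TM where
  nQ : ℕ
  nG : ℕ
  start : Fin nQ
  acc : Fin nQ
  rej : Fin nQ
  acc_ne_rej : acc ≠ rej
  blank : Fin nG
  inp : Bool → Fin nG
  delta : Fin nQ → Fin nG → Fin nQ × Fin nG × Bool

/-- A configuration: state, head position and tape contents (two-way infinite tape). -/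
structure TM.Cfg (M : TM) where
  q : Fin M.nQ
  pos : ℤ
  tape : ℤ → Fin M.nG

/-- One step: nothing happens in the two halting states; otherwise write, change state and move
right (`true`) or left (`false`). -/
def TM.step (M : TM) (c : M.Cfg) : M.Cfg :=
  if c.q = M.acc ∨ c.q = M.rej then c else
    ⟨(M.delta c.q (c.tape c.pos)).1,
      if (M.delta c.q (c.tape c.pos)).2.2 then c.pos + 1 else c.pos - 1,
      Function.update c.tape c.pos (M.delta c.q (c.tape c.pos)).2.1⟩

/-- The initial configuration: the input on cells `0, 1, …`, blanks elsewhere, head on cell `0`. -/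
def TM.init (M : TM) (x : List Bool) : M.Cfg :=
  ⟨M.start, 0, fun i => if 0 ≤ i then ((x[i.toNat]?).map M.inp).getD M.blank else M.blank⟩

/-- The configuration after `t` steps on input `x`. -/
def TM.run (M : TM) (x : List Bool) (t : ℕ) : M.Cfg := M.step^[t] (M.init x)

/-- Languages decided by a Turing machine whose head stays within a polynomial distance of the
origin. -/
def PSPACE : DecisionComplexityClass :=
  {L | ∃ (M : TM) (p : Polynomial ℕ), ∀ x : List Bool,
    (∃ t, (M.run x t).q = if L x then M.acc else M.rej) ∧
      ∀ t, (M.run x t).pos.natAbs ≤ p.eval x.length}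

/-- The code with codewords listed in `C`, on the neurons `0, …, n - 1`, is the set of intersection
patterns of convex sets in the plane. -/
def ConvexRealizable (n : ℕ) (C : List (List ℕ)) : Prop :=
  ∃ X : ℕ → Set (ℝ × ℝ), (∀ i, Convex ℝ (X i)) ∧
    {σ : Set ℕ | ∃ c ∈ C, σ = {i | i ∈ c}} = {σ : Set ℕ | ∃ z : ℝ × ℝ, σ = {i | i < n ∧ z ∈ X i}}

open Classical in
/-- The decision problem CONVEX-CODE in dimension two. -/
noncomputable def ConvexCode2 : DecisionProblem := fun w =>
  decide (∃ (n : ℕ) (C : List (List ℕ)), w = N487b59b3.bitEncode (n, C) ∧ ConvexRealizable n C)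

end Pool.Agent.Lib.MP_79902f_lc
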