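import Pool.Agent.Lib.MP_79902f_lc.WAbs

/-!
The unfolding lemmas of `Runs` are generated once, here.
-/

namespace Pool.Agent.Lib.MP_79902f_lc.W

theorem eqfix1 : True := by
  have := @Runs.eq_def
  have := @Runs.eq_1
  have := @Runs.eq_2
  trivial

end Pool.Agent.Lib.MP_79902f_lc.W
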