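import Mathlib

/-!
Words with local constraints simulate the rewriting of two adjacent cells.
-/

namespace Pool.Agent.Lib.MP_79902f_lc

open Function

/-- Letters: a kind, a transaction, a left value and a right value. -/
abbrev Ltr (V : Type) : Type := Fin 4 × ((V × V) × (V × V)) × V × V

variable {V : Type}

/-- The plain letter. -/
def pr (l r : V) : Ltr V := (0, ((l, r), (l, r)), l, r)

/-- The constraint between consecutive letters. -/
def HL (e e' : Ltr V) : Prop :=
  (e.1 = 2 → e'.1 = 1 ∧ e'.2.1 = e.2.1) ∧ (e'.1 = 3 → e.1 = 1 ∧ e.2.1 = e'.2.1) ∧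
    (e.1 ≠ 2 → e'.1 ≠ 3 → e.2.2.2 = e'.2.2.1)

/-- Admissible letters. -/
def OkL (Val : (V × V) × (V × V) → Prop) (e : Ltr V) : Prop :=
  e.1 = 1 → Val e.2.1 ∧ (e.2.2 = e.2.1.1 ∨ e.2.2 = e.2.1.2)

/-- The value of the cell between the letters `i` and `i + 1`. -/
def cval (w : ℕ → Ltr V) (i : ℕ) : V := if (w i).1 = 2 then (w (i + 1)).2.2.1 else (w i).2.2.2

/-- The word of a string. -/
def Wd (s : ℕ → V) (t : ℕ) : Ltr V := pr (s (t - 1)) (s t)

theorem cval_eq {w : ℕ → Ltr V} {i : ℕ} (h : HL (w i) (w (i + 1))) (h3 : (w (i + 1)).1 ≠ 3) :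
    cval w i = (w (i + 1)).2.2.1 := by
  unfold cval
  split_ifs with h2
  · rfl
  · exact h.2.2 h2 h3

theorem single_change {Val : (V × V) × (V × V) → Prop} {w w' : ℕ → Ltr V} {i : ℕ}
    (e0 : w' i = w i) (e2 : w' (i + 2) = w (i + 2))
    (h1 : HL (w i) (w (i + 1))) (h2 : HL (w (i + 1)) (w (i + 2)))
    (h1' : HL (w' i) (w' (i + 1))) (h2' : HL (w' (i + 1)) (w' (i + 2)))
    (o : OkL Val (w (i + 1))) (o' : OkL Val (w' (i + 1))) :
    (cval w' i = cval w i ∧ cval w' (i + 1) = cval w (i + 1)) ∨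
      ∃ τ, Val τ ∧ ((cval w i, cval w (i + 1)) = τ.1 ∨ (cval w i, cval w (i + 1)) = τ.2) ∧
        ((cval w' i, cval w' (i + 1)) = τ.1 ∨ (cval w' i, cval w' (i + 1)) = τ.2) := by
  by_cases hc : (w i).1 = 2 ∨ (w (i + 2)).1 = 3
  · have k : (w (i + 1)).1 = 1 ∧ (w' (i + 1)).1 = 1 ∧ (w' (i + 1)).2.1 = (w (i + 1)).2.1 := by
      rcases hc with hc | hc
      · have a := h1.1 hc
        have b := h1'.1 (e0 ▸ hc)
        exact ⟨a.1, b.1, by rw [a.2, b.2, e0]⟩
      · have a := h2.2.1 hc
        have b := h2'.2.1 (e2 ▸ hc)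
        exact ⟨a.1, b.1, by rw [a.2, b.2, e2]⟩
    obtain ⟨k1, k2, k3⟩ := k
    have a1 : (cval w i, cval w (i + 1)) = (w (i + 1)).2.2 := by
      rw [cval_eq h1 (by rw [k1]; decide), cval, if_neg (by rw [k1]; decide)]
    have a2 : (cval w' i, cval w' (i + 1)) = (w' (i + 1)).2.2 := by
      rw [cval_eq h1' (by rw [k2]; decide), cval, if_neg (by rw [k2]; decide)]
    refine Or.inr ⟨_, (o k1).1, a1 ▸ (o k1).2, ?_⟩
    rw [a2, ← k3]
    exact (o' k2).2
  · push Not at hc
    refine Or.inl ⟨?_, ?_⟩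
    · rw [cval, cval, e0, if_neg hc.1, if_neg hc.1]
    · rw [cval_eq h2 hc.2, cval_eq h2' (e2 ▸ hc.2), e2]

/-- An invariant of strings on the cells `lo, …, hi` that survives the rewriting survives a
compatible change of the word. -/
theorem inv_compat {Val : (V × V) × (V × V) → Prop} {lo hi : ℕ} {G : (ℕ → V) → Prop}
    (g1 : ∀ s s', (∀ i, lo ≤ i → i ≤ hi → s' i = s i) → G s → G s')
    (g2 : ∀ s s' i τ, lo ≤ i → i + 1 ≤ hi → Val τ → (∀ j, j ≠ i → j ≠ i + 1 → s' j = s j) →
      ((s i, s (i + 1)) = τ.1 ∨ (s i, s (i + 1)) = τ.2) →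
      ((s' i, s' (i + 1)) = τ.1 ∨ (s' i, s' (i + 1)) = τ.2) → G s → G s')
    {w w' : ℕ → Ltr V} (e1 : w' lo = w lo) (e2 : w' (hi + 1) = w (hi + 1))
    (h : ∀ t, lo ≤ t → t ≤ hi → HL (w t) (w (t + 1)) ∧ HL (w t) (w' (t + 1)) ∧
      HL (w' t) (w (t + 1)) ∧ HL (w' t) (w' (t + 1)))
    (o : ∀ t, lo < t → t ≤ hi → OkL Val (w t) ∧ OkL Val (w' t)) (hG : G (cval w)) :
    G (cval w') := by
  let u : ℕ → ℕ → Ltr V := fun k t => if t < k then w' t else w t
  have hu : ∀ k t, lo ≤ t → t ≤ hi → HL (u k t) (u k (t + 1)) := by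
    intro k t a b
    obtain ⟨c1, c2, c3, c4⟩ := h t a b
    simp only [u]
    split_ifs <;> assumption
  have key : ∀ k, G (cval (u k)) := by
    intro k
    induction k with
    | zero => simpa [u] using hG
    | succ k ih =>
      have ne : ∀ t, t ≠ k → u (k + 1) t = u k t := by
        intro t ht
        simp only [u]
        split_ifs <;> first | rfl | omega
      by_cases hk : lo < k ∧ k ≤ hi
      · obtain ⟨i, rfl⟩ : ∃ i, k = i + 1 := ⟨k - 1, by omega⟩
        have ou : ∀ k', OkL Val (u k' (i + 1)) := by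
          intro k'
          simp only [u]
          split_ifs
          · exact (o _ hk.1 hk.2).2
          · exact (o _ hk.1 hk.2).1
        have oth : ∀ j, j ≠ i → j ≠ i + 1 → cval (u (i + 1 + 1)) j = cval (u (i + 1)) j := by
          intro j a b
          rw [cval, cval, ne j b, ne (j + 1) (by omega)]
        rcases single_change (Val := Val) (ne i (by omega)) (ne (i + 2) (by omega))
          (hu _ i (by omega) (by omega)) (hu _ (i + 1) (by omega) (by omega))
          (hu _ i (by omega) (by omega)) (hu _ (i + 1) (by omega) (by omega)) (ou _) (ou _) with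
          ⟨a, b⟩ | ⟨τ, a, b, c⟩
        · refine g1 _ _ (fun j _ _ => ?_) ih
          by_cases c1 : j = i
          · rw [c1, a]
          by_cases c2 : j = i + 1
          · rw [c2, b]
          exact oth j c1 c2
        · exact g2 _ _ i τ (by omega) hk.2 a oth b c ih
      · have ne' : ∀ t, lo ≤ t → t ≤ hi + 1 → u (k + 1) t = u k t := by
          intro t a b
          by_cases ht : t = k
          · subst ht
            simp only [u, lt_irrefl, if_false, Nat.lt_succ_self, if_true]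
            rcases (by omega : t = lo ∨ t = hi + 1) with rfl | rfl <;> assumption
          · exact ne t ht
        refine g1 _ _ (fun j a b => ?_) ih
        rw [cval, cval, ne' j a (by omega), ne' (j + 1) (by omega) (by omega)]
  refine g1 _ _ (fun j a b => ?_) (key (hi + 2))
  simp only [cval, u]
  rw [if_pos (by omega : j < hi + 2), if_pos (by omega : j + 1 < hi + 2)]

/-- Words that satisfy all constraints and agree with `w₀` outside the middle part. -/
def InW (Val : (V × V) × (V × V) → Prop) (lo hi : ℕ) (w₀ w : ℕ → Ltr V) : Prop :=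
  (∀ t, if lo < t ∧ t ≤ hi then OkL Val (w t) else w t = w₀ t) ∧ ∀ t, HL (w t) (w (t + 1))

/-- Compatible words. -/
def Cpt (Val : (V × V) × (V × V) → Prop) (lo hi : ℕ) (w₀ w w' : ℕ → Ltr V) : Prop :=
  InW Val lo hi w₀ w ∧ InW Val lo hi w₀ w' ∧ ∀ t, HL (w t) (w' (t + 1)) ∧ HL (w' t) (w (t + 1))

theorem cpt_update {Val : (V × V) × (V × V) → Prop} {lo hi : ℕ} {w₀ w : ℕ → Ltr V}
    (h : InW Val lo hi w₀ w) {i : ℕ} (h1 : lo ≤ i) (h2 : i + 1 ≤ hi) {e : Ltr V} (o : OkL Val e)
    (a : HL (w i) e) (b : HL e (w (i + 2))) : Cpt Val lo hi w₀ w (update w (i + 1) e) := by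
  have k1 : ∀ t, HL (w t) (update w (i + 1) e (t + 1)) := by
    intro t
    by_cases ht : t = i
    · subst ht; rwa [update_self]
    · rw [update_of_ne (by omega)]; exact h.2 t
  have k2 : ∀ t, HL (update w (i + 1) e t) (w (t + 1)) := by
    intro t
    by_cases ht : t = i + 1
    · subst ht; rwa [update_self]
    · rw [update_of_ne ht]; exact h.2 t
  refine ⟨h, ⟨fun t => ?_, fun t => ?_⟩, fun t => ⟨k1 t, k2 t⟩⟩
  · by_cases ht : t = i + 1
    · subst ht; rwa [update_self, if_pos (by omega)]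
    · rw [update_of_ne ht]; exact h.1 t
  · by_cases ht : t = i + 1
    · rw [update_of_ne (a := t + 1) (by omega)]; exact k2 t
    · rw [update_of_ne ht]; exact k1 t

theorem reach_rewrite {Val : (V × V) × (V × V) → Prop} {lo hi : ℕ} {w₀ : ℕ → Ltr V}
    {s s' : ℕ → V} (h : InW Val lo hi w₀ (Wd s)) {a : ℕ} (h1 : lo ≤ a) (h2 : a + 3 ≤ hi)
    (v : Val ((s (a + 1), s (a + 2)), (s' (a + 1), s' (a + 2))))
    (e : ∀ j, j ≠ a + 1 → j ≠ a + 2 → s' j = s j) :
    Relation.ReflTransGen (Cpt Val lo hi w₀) (Wd s) (Wd s') := by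
  let τ := ((s (a + 1), s (a + 2)), (s' (a + 1), s' (a + 2)))
  have c1 := cpt_update h (i := a + 1) (by omega) (by omega) (e := (1, τ, s (a + 1), s (a + 2)))
    (fun _ => ⟨v, Or.inl rfl⟩) (by simp [HL, Wd, pr]) (by simp [HL, Wd, pr])
  have c2 := cpt_update c1.2.1 (i := a) (by omega) (by omega) (e := (2, τ, s a, s a))
    (by simp [OkL]) (by rw [update_of_ne (by omega)]; simp [HL, Wd, pr]) (by simp [HL])
  have c3 := cpt_update c2.2.1 (i := a + 2) (by omega) (by omega) (e := (3, τ, s (a + 3), s (a + 3)))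
    (by simp [OkL]) (by simp [HL, update_of_ne]) (by simp [HL, Wd, pr, update_of_ne])
  have c4 := cpt_update c3.2.1 (i := a + 1) (by omega) (by omega)
    (e := (1, τ, s' (a + 1), s' (a + 2))) (fun _ => ⟨v, Or.inr rfl⟩)
    (by simp [HL, update_of_ne]) (by simp [HL, update_of_ne])
  have c5 := cpt_update c4.2.1 (i := a) (by omega) (by omega) (e := pr (s a) (s' (a + 1)))
    (by simp [OkL, pr]) (by
      rw [update_of_ne (by omega), update_of_ne (by omega), update_of_ne (by omega),
        update_of_ne (by omega)]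
      simp [HL, Wd, pr]) (by simp [HL, pr, update_of_ne])
  have c6 := cpt_update c5.2.1 (i := a + 2) (by omega) (by omega) (e := pr (s' (a + 2)) (s (a + 3)))
    (by simp [OkL, pr]) (by simp [HL, pr, update_of_ne]) (by simp [HL, Wd, pr, update_of_ne])
  have c7 := cpt_update c6.2.1 (i := a + 1) (by omega) (by omega)
    (e := pr (s' (a + 1)) (s' (a + 2))) (by simp [OkL, pr]) (by simp [HL, pr, update_of_ne])
    (by simp [HL, pr, update_of_ne])
  have := ((((((Relation.ReflTransGen.single c1).tail c2).tail c3).tail c4).tail c5).tail c6).tail c7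
  convert this using 1
  funext t
  by_cases a1 : t = a + 1
  · subst a1; simp [Wd, update_of_ne, e]
  by_cases a2 : t = a + 2
  · subst a2; simp [Wd]
  by_cases a3 : t = a + 3
  · subst a3; simp [Wd, update_of_ne, e]
  rw [update_of_ne (by omega), update_of_ne (by omega), update_of_ne (by omega),
    update_of_ne (by omega), update_of_ne (by omega), update_of_ne (by omega),
    update_of_ne (by omega), Wd, Wd, e t a1 a2, e (t - 1) (by omega) (by omega)]

theorem short_path [Finite V] {Val : (V × V) × (V × V) → Prop} {lo len : ℕ} {w₀ w₁ : ℕ → Ltr V}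
    (h₀ : InW Val lo (lo + len) w₀ w₀)
    (h : Relation.ReflTransGen (Cpt Val lo (lo + len) w₀) w₀ w₁) :
    ∃ (N : ℕ) (w : ℕ → ℕ → Ltr V), N < Nat.card (Ltr V) ^ len ∧ w 0 = w₀ ∧ w N = w₁ ∧
      (∀ i, InW Val lo (lo + len) w₀ (w i)) ∧
      ∀ i, i < N → Cpt Val lo (lo + len) w₀ (w i) (w (i + 1)) := by
  classical
  let α := {w // InW Val lo (lo + len) w₀ w}
  let f : α → Fin len → Ltr V := fun w i => w.1 (lo + 1 + i)
  have hf : Injective f := by
    intro w w' e
    ext1
    funext t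
    by_cases ht : lo < t ∧ t ≤ lo + len
    · have := congrFun e ⟨t - (lo + 1), by omega⟩
      simp only [f] at this
      rwa [show lo + 1 + (t - (lo + 1)) = t by omega] at this
    · have a := w.2.1 t
      have b := w'.2.1 t
      rw [if_neg ht] at a b
      rw [a, b]
  have : Finite α := Finite.of_injective f hf
  have := Fintype.ofFinite α
  have hc : Fintype.card α ≤ Nat.card (Ltr V) ^ len := by
    have := Nat.card_le_card_of_injective f hf
    rwa [Nat.card_eq_fintype_card, Nat.card_fun, Nat.card_fin] at this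
  let G : SimpleGraph α := SimpleGraph.fromRel fun w w' => Cpt Val lo (lo + len) w₀ w.1 w'.1
  have key : ∀ w₁, Relation.ReflTransGen (Cpt Val lo (lo + len) w₀) w₀ w₁ →
      ∃ h₁ : InW Val lo (lo + len) w₀ w₁, G.Reachable ⟨w₀, h₀⟩ ⟨w₁, h₁⟩ := by
    intro w₁ h
    induction h with
    | refl => exact ⟨h₀, SimpleGraph.Reachable.refl _⟩
    | tail _ c ih =>
      obtain ⟨h₁, r⟩ := ih
      refine ⟨c.2.1, r.trans ?_⟩
      rename_i b d _
      by_cases e : (⟨b, h₁⟩ : α) = ⟨d, c.2.1⟩
      · rw [e]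
      · exact SimpleGraph.Adj.reachable ((SimpleGraph.fromRel_adj _ _ _).2 ⟨e, Or.inl c⟩)
  obtain ⟨h₁, r⟩ := key w₁ h
  obtain ⟨p, hp⟩ := r.exists_isPath
  refine ⟨p.length, fun i => (p.getVert i).1, hp.length_lt.trans_le hc, by simp, by simp,
    fun i => (p.getVert i).2, fun i hi => ?_⟩
  rcases ((SimpleGraph.fromRel_adj _ _ _).1 (p.adj_getVert_succ hi)).2 with c | c
  · exact c
  · exact ⟨c.2.1, c.1, fun t => (c.2.2 t).symm⟩

end Pool.Agent.Lib.MP_79902f_lc
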