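import Pool.Agent.Lib.MP_79902f_lc.Defs
import Pool.Agent.Lib.MP_79902f_lc.Word
import Pool.Agent.Lib.MP_79902f_lc.Real

/-!
Space-bounded runs of a Turing machine as reconfiguration sequences of words.
-/

namespace Pool.Agent.Lib.MP_79902f_lc

open Function

/-- The contents of a cell together with the state when the head is there. -/
abbrev TM.V (M : TM) : Type := Fin M.nG × Option (Fin M.nQ)

variable {M : TM}

/-- The value of a cell in a configuration. -/
def cellv (c : M.Cfg) (j : ℤ) : M.V := (c.tape j, if c.pos = j then some c.q else none)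

/-- The rewriting rules on two adjacent cells given by the transitions. -/
def ValT (M : TM) (τ : (M.V × M.V) × (M.V × M.V)) : Prop :=
  ∃ q g g', ¬ (q = M.acc ∨ q = M.rej) ∧ τ = if (M.delta q g).2.2 then
    (((g, some q), (g', none)), (((M.delta q g).2.1, none), (g', some (M.delta q g).1))) else
    (((g', none), (g, some q)), ((g', some (M.delta q g).1), ((M.delta q g).2.1, none)))

/-- The configuration leads to acceptance. -/
def Leads (c : M.Cfg) : Prop := ∃ k, (M.step^[k] c).q = M.acc

theorem step_halt {c : M.Cfg} (h : c.q = M.acc ∨ c.q = M.rej) : M.step c = c := if_pos h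

theorem leads_step (c : M.Cfg) : Leads (M.step c) ↔ Leads c := by
  refine ⟨fun ⟨k, h⟩ => ⟨k + 1, h⟩, fun ⟨k, h⟩ => ?_⟩
  cases k with
  | zero => exact ⟨0, by rw [step_halt (c := c) (Or.inl h)]; exact h⟩
  | succ k => exact ⟨k, h⟩

theorem cellv_step {c : M.Cfg} (h : ¬ (c.q = M.acc ∨ c.q = M.rej)) (j : ℤ) :
    cellv (M.step c) j = (if j = c.pos then (M.delta c.q (c.tape c.pos)).2.1 else c.tape j,
      if (if (M.delta c.q (c.tape c.pos)).2.2 then c.pos + 1 else c.pos - 1) = j then
        some (M.delta c.q (c.tape c.pos)).1 else none) := by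
  simp only [cellv, TM.step, if_neg h, update_apply]

/-- The string represents a configuration that does not lead to acceptance. -/
def Good (M : TM) (off lo hi : ℕ) (s : ℕ → M.V) : Prop :=
  ∃ c : M.Cfg, ¬ Leads c ∧ (lo ≤ c.pos + off ∧ c.pos + off ≤ hi) ∧
    ∀ i : ℕ, lo ≤ i → i ≤ hi → s i = cellv c (i - off)

theorem good_congr {off lo hi : ℕ} (s s' : ℕ → M.V) (h : ∀ i, lo ≤ i → i ≤ hi → s' i = s i) :
    Good M off lo hi s → Good M off lo hi s' :=
  fun ⟨c, h1, h2, h3⟩ => ⟨c, h1, h2, fun i a b => (h i a b).trans (h3 i a b)⟩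

theorem good_rewrite {off lo hi : ℕ} (s s' : ℕ → M.V) (i : ℕ) (τ : (M.V × M.V) × (M.V × M.V))
    (h1 : lo ≤ i) (h2 : i + 1 ≤ hi) (v : ValT M τ) (e : ∀ j, j ≠ i → j ≠ i + 1 → s' j = s j)
    (a : (s i, s (i + 1)) = τ.1 ∨ (s i, s (i + 1)) = τ.2)
    (b : (s' i, s' (i + 1)) = τ.1 ∨ (s' i, s' (i + 1)) = τ.2) :
    Good M off lo hi s → Good M off lo hi s' := by
  have same : (s' i, s' (i + 1)) = (s i, s (i + 1)) → Good M off lo hi s → Good M off lo hi s' := by
    intro h
    refine good_congr s s' fun j _ _ => ?_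
    by_cases c1 : j = i
    · rw [c1]; exact congrArg Prod.fst h
    by_cases c2 : j = i + 1
    · rw [c2]; exact congrArg Prod.snd h
    exact e j c1 c2
  rcases a with a | a <;> rcases b with b | b
  · exact same (b.trans a.symm)
  · rintro ⟨c, k1, k2, k3⟩
    obtain ⟨q, g, g', hq, rfl⟩ := v
    have x1 := k3 i h1 (by omega)
    have x2 := k3 (i + 1) (by omega) h2
    rw [x1, x2] at a
    cases hd : (M.delta q g).2.2 <;>
      simp only [hd, cellv, Prod.mk.injEq, Bool.false_eq_true, if_false, if_true, ite_eq_right_iff,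
        reduceCtorEq, imp_false, Option.ite_none_right_eq_some, Option.some.injEq] at a b
    · obtain ⟨⟨a1, a2⟩, a3, a4, a5⟩ := a
      have hq' : ¬ (c.q = M.acc ∨ c.q = M.rej) := a5 ▸ hq
      have ed : M.delta c.q (c.tape c.pos) = M.delta q g := by rw [a5, a4, a3]
      refine ⟨M.step c, by rwa [leads_step], ?_, fun j j1 j2 => ?_⟩
      · simp only [TM.step, if_neg hq', ed, hd]
        push_cast at a4 ⊢
        omega
      · rw [cellv_step hq', ed, hd, a4]
        by_cases c1 : j = i
        · subst c1
          rw [b.1, if_neg (by omega), a1, if_pos (by simp; omega)]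
        by_cases c2 : j = i + 1
        · subst c2
          rw [b.2, if_pos rfl, if_neg (by simp)]
        rw [e j c1 c2, k3 j j1 j2, cellv, a4, if_neg (by omega), if_neg (by omega),
          if_neg (by simp; omega)]
    · obtain ⟨⟨a1, a2, a3⟩, a4, a5⟩ := a
      have hq' : ¬ (c.q = M.acc ∨ c.q = M.rej) := a3 ▸ hq
      have ed : M.delta c.q (c.tape c.pos) = M.delta q g := by rw [a3, a2, a1]
      refine ⟨M.step c, by rwa [leads_step], ?_, fun j j1 j2 => ?_⟩
      · simp only [TM.step, if_neg hq', ed, hd]
        push_cast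
        omega
      · rw [cellv_step hq', ed, hd, a2]
        by_cases c1 : j = i
        · subst c1
          rw [b.1, if_pos rfl, if_neg (by simp)]
        by_cases c2 : j = i + 1
        · subst c2
          rw [b.2, if_neg (by omega), a4, if_pos (by simp; omega)]
        rw [e j c1 c2, k3 j j1 j2, cellv, a2, if_neg (by omega), if_neg (by omega),
          if_neg (by simp; omega)]
  · rintro ⟨c, k1, k2, k3⟩
    obtain ⟨q, g, g', hq, rfl⟩ := v
    have x1 := k3 i h1 (by omega)
    have x2 := k3 (i + 1) (by omega) h2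
    rw [x1, x2] at a
    cases hd : (M.delta q g).2.2 <;>
      simp only [hd, cellv, Prod.mk.injEq, Bool.false_eq_true, if_false, if_true, ite_eq_right_iff,
        reduceCtorEq, imp_false, Option.ite_none_right_eq_some, Option.some.injEq] at a b
    · obtain ⟨⟨a1, a2, a3⟩, a4, a5⟩ := a
      let c₀ : M.Cfg := ⟨q, (i + 1 : ℕ) - off, update c.tape ((i + 1 : ℕ) - off) g⟩
      have es : M.step c₀ = c := by
        simp only [TM.step, c₀, if_neg hq, update_self, hd, update_idem, ← a4, ← a3,
          update_eq_self, Bool.false_eq_true, if_false]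
        cases c
        simp only [TM.Cfg.mk.injEq, true_and, and_true] at a2 ⊢
        omega
      refine ⟨c₀, by rwa [← leads_step, es], by simp only [c₀]; omega, fun j j1 j2 => ?_⟩
      simp only [cellv, c₀, update_apply]
      by_cases c1 : j = i
      · subst c1
        rw [b.1, if_neg (by omega), a1, if_neg (by omega)]
      by_cases c2 : j = i + 1
      · subst c2
        rw [b.2, if_pos rfl, if_pos rfl]
      rw [e j c1 c2, k3 j j1 j2, cellv, a2, if_neg (by omega), if_neg (by omega),
        if_neg (by omega)]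
    · obtain ⟨⟨a1, a2⟩, a3, a4, a5⟩ := a
      let c₀ : M.Cfg := ⟨q, i - off, update c.tape (i - off) g⟩
      have es : M.step c₀ = c := by
        simp only [TM.step, c₀, if_neg hq, update_self, hd, update_idem, ← a1, ← a5,
          update_eq_self, if_true]
        cases c
        simp only [TM.Cfg.mk.injEq, true_and, and_true] at a4 ⊢
        omega
      refine ⟨c₀, by rwa [← leads_step, es], by simp only [c₀]; omega, fun j j1 j2 => ?_⟩
      simp only [cellv, c₀, update_apply]
      by_cases c1 : j = i
      · subst c1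
        rw [b.1, if_pos rfl, if_pos rfl]
      by_cases c2 : j = i + 1
      · subst c2
        rw [b.2, if_neg (by omega), a3, if_neg (by omega)]
      rw [e j c1 c2, k3 j j1 j2, cellv, a4, if_neg (by omega), if_neg (by omega),
        if_neg (by omega)]
  · exact same (b.trans a.symm)

/-- The initial string. -/
def iniS (M : TM) (x : List Bool) (off i : ℕ) : M.V :=
  (if off ≤ i then ((x[i - off]?).map M.inp).getD M.blank else M.blank,
    if i = off then some M.start else none)

theorem iniS_eq (x : List Bool) (off i : ℕ) : iniS M x off i = cellv (M.init x) (i - off) := by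
  simp only [iniS, cellv, TM.init, Prod.mk.injEq]
  constructor
  · by_cases h : off ≤ i
    · rw [if_pos h, if_pos (by omega), show ((i : ℤ) - off).toNat = i - off by omega]
    · rw [if_neg h, if_neg (by omega)]
  · congr 1
    apply propext
    omega

/-- The letters allowed in the three regions. -/
def BB (M : TM) (x : List Bool) (T s : ℕ) (r : Fin 3) (t : ℕ) (e : Ltr M.V) : Prop :=
  if (T < t ∧ t ≤ T + (2 * s + 2)) ∧ r ≠ 0 then
    (if r = 1 then OkL (ValT M) e else e.1 = 0 ∧ (e.2.2.2.2 = none ∨ e.2.2.2.2 = some M.acc))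
  else e = Wd (iniS M x (T + s + 1)) t

theorem leads_of_weak {x : List Bool} {T s : ℕ}
    (h : WeakSeq (T + (2 * s + 2) + 4) HL (BB M x T s)) : Leads (M.init x) := by
  obtain ⟨N, w, h1, h2, h3, h4⟩ := h
  by_contra hc
  have fr : ∀ i t, i ≤ N → (t = T ∨ t = T + (2 * s + 2) + 1) →
      w i t = Wd (iniS M x (T + s + 1)) t := by
    intro i t hi ht
    obtain ⟨r, h⟩ := h3 i t hi (by omega)
    rwa [BB, if_neg (by omega)] at h
  have ok : ∀ i t, i ≤ N → t ≤ T + (2 * s + 2) → OkL (ValT M) (w i t) := by
    intro i t hi ht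
    obtain ⟨r, h⟩ := h3 i t hi (by omega)
    unfold BB at h
    split_ifs at h
    · exact h
    · intro h'; rw [h.1] at h'; exact absurd h' (by decide)
    · rw [h]; intro h'; exact absurd h' (by simp [Wd, pr])
  have key : ∀ i, i ≤ N → Good M (T + s + 1) T (T + (2 * s + 2)) (cval (w i)) := by
    intro i
    induction i with
    | zero =>
      refine fun _ => ⟨M.init x, hc, by simp only [TM.init]; omega, fun j j1 j2 => ?_⟩
      have := h1 j (by omega)
      rw [BB, if_neg (by simp)] at this
      rw [cval, this, ← iniS_eq]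
      simp [Wd, pr]
    | succ i ih =>
      intro hi
      refine inv_compat (Val := ValT M) good_congr good_rewrite ?_ ?_ (fun t a b => ?_)
        (fun t a b => ⟨ok i t (by omega) b, ok (i + 1) t hi b⟩) (ih (by omega))
      · rw [fr _ _ hi (Or.inl rfl), fr _ _ (by omega) (Or.inl rfl)]
      · rw [fr _ _ hi (Or.inr rfl), fr _ _ (by omega) (Or.inr rfl)]
      · refine ⟨?_, ?_, ?_, ?_⟩ <;> apply h4 <;> omega
  obtain ⟨c, k1, k2, k3⟩ := key N le_rfl
  obtain ⟨j, hj⟩ : ∃ j : ℕ, c.pos + (T + s + 1 : ℕ) = j := ⟨_, (Int.toNat_of_nonneg (by omega)).symm⟩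
  have a1 := k3 j (by omega) (by omega)
  have a2 := h2 j (by omega)
  rw [cellv, if_pos (by omega)] at a1
  unfold BB at a2
  split_ifs at a2 with c1 c2
  · exact absurd c2 (by decide)
  · rw [cval, if_neg (by rw [a2.1]; decide)] at a1
    rw [a1] at a2
    exact k1 ⟨0, by simpa using a2.2⟩
  · have : j = T := by
      simp only [ne_eq, Fin.reduceEq, not_false_eq_true, and_true] at c1
      omega
    subst this
    rw [cval, a2] at a1
    simp [Wd, pr, iniS] at a1
    omega

theorem strong_of_leads {x : List Bool} {T s : ℕ} (h : Leads (M.init x))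
    (hs : ∀ t, (M.run x t).pos.natAbs ≤ s) (hT : 8 * Nat.card (Ltr M.V) ^ (2 * s + 2) ≤ 2 ^ T) :
    StrongSeq HL (BB M x T s) := by
  let S : ℕ → ℕ → M.V := fun k i => cellv (M.run x k) (i - (T + s + 1 : ℕ))
  have e0 : iniS M x (T + s + 1) = S 0 := funext fun i => iniS_eq x _ i
  have h₀ : InW (ValT M) T (T + (2 * s + 2)) (Wd (S 0)) (Wd (S 0)) :=
    ⟨fun t => by split_ifs <;> simp [OkL, Wd, pr], fun t => by simp [HL, Wd, pr]⟩
  have inw : ∀ w, Relation.ReflTransGen (Cpt (ValT M) T (T + (2 * s + 2)) (Wd (S 0))) (Wd (S 0)) w →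
      InW (ValT M) T (T + (2 * s + 2)) (Wd (S 0)) w := by
    intro w h
    induction h with
    | refl => exact h₀
    | tail _ c _ => exact c.2.1
  have key : ∀ k, Relation.ReflTransGen (Cpt (ValT M) T (T + (2 * s + 2)) (Wd (S 0))) (Wd (S 0))
      (Wd (S k)) := by
    intro k
    induction k with
    | zero => exact .refl
    | succ k ih =>
      have er : M.run x (k + 1) = M.step (M.run x k) := iterate_succ_apply' _ _ _
      by_cases hq : (M.run x k).q = M.acc ∨ (M.run x k).q = M.rej
      · have : S (k + 1) = S k := by simp only [S, er, step_halt hq]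
        rwa [this]
      have b1 := hs k
      have b2 := hs (k + 1)
      have sv : ∀ j : ℕ, S (k + 1) j = _ := fun j => by
        simp only [S, er]; exact cellv_step hq _
      rw [er] at b2
      simp only [TM.step, if_neg hq] at b2
      refine ih.trans ?_
      cases hd : (M.delta (M.run x k).q ((M.run x k).tape (M.run x k).pos)).2.2 <;>
        simp only [hd, Bool.false_eq_true, if_false, if_true] at b2 sv
      · obtain ⟨a, ha⟩ : ∃ a : ℕ, (M.run x k).pos + (T + s + 1 : ℕ) = (a + 2 : ℕ) :=
          ⟨((M.run x k).pos + (T + s + 1 : ℕ) - 2).toNat, by omega⟩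
        have p2 : ((a + 2 : ℕ) : ℤ) - (T + s + 1 : ℕ) = (M.run x k).pos := by omega
        refine reach_rewrite (inw _ ih) (a := a) (by omega) (by omega) ?_ (fun j j1 j2 => ?_)
        · refine ⟨_, (M.run x k).tape (M.run x k).pos,
            (M.run x k).tape ((a + 1 : ℕ) - (T + s + 1 : ℕ)), hq, ?_⟩
          rw [hd, sv, sv]
          simp only [S, cellv, p2, Bool.false_eq_true, if_false, if_true]
          rw [if_neg (by omega), if_neg (by omega), if_pos (by omega), if_neg (by omega)]
        · rw [sv, if_neg (by omega), if_neg (by omega)]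
          simp only [S, cellv]
          rw [if_neg (by omega)]
      · obtain ⟨a, ha⟩ : ∃ a : ℕ, (M.run x k).pos + (T + s + 1 : ℕ) = (a + 1 : ℕ) :=
          ⟨((M.run x k).pos + (T + s + 1 : ℕ) - 1).toNat, by omega⟩
        have p2 : ((a + 1 : ℕ) : ℤ) - (T + s + 1 : ℕ) = (M.run x k).pos := by omega
        refine reach_rewrite (inw _ ih) (a := a) (by omega) (by omega) ?_ (fun j j1 j2 => ?_)
        · refine ⟨_, (M.run x k).tape (M.run x k).pos,
            (M.run x k).tape ((a + 2 : ℕ) - (T + s + 1 : ℕ)), hq, ?_⟩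
          rw [hd, sv, sv]
          simp only [S, cellv, p2, if_true]
          rw [if_neg (by omega), if_neg (by omega), if_neg (by omega), if_pos (by omega)]
        · rw [sv, if_neg (by omega), if_neg (by omega)]
          simp only [S, cellv]
          rw [if_neg (by omega)]
  obtain ⟨k, hk⟩ := h
  obtain ⟨N, w, a1, a2, a3, a4, a5⟩ := short_path h₀ (key k)
  have fr : ∀ i t, ¬ (T < t ∧ t ≤ T + (2 * s + 2)) → w i t = Wd (S 0) t := by
    intro i t ht
    have := (a4 i).1 t
    rwa [if_neg ht] at this
  refine ⟨T, N, w, by omega, fun i t ht => by rw [fr i t (by omega), fr 0 t (by omega)],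
    fun t => ?_, fun t => ?_, fun i t hi => ?_, fun i j t hi hj c1 c2 => ?_⟩
  · rw [BB, if_neg (by simp), e0, a2]
  · unfold BB
    split_ifs with c1 c2
    · exact absurd c2 (by decide)
    · rw [a3]
      refine ⟨rfl, ?_⟩
      simp only [Wd, pr, S, cellv]
      split_ifs
      · exact Or.inr (congrArg some hk)
      · exact Or.inl rfl
    · rw [e0]; exact fr N t (by simpa using c1)
  · have := (a4 i).1 t
    unfold BB
    rw [e0]
    simpa using this
  · rcases (by omega : i = j ∨ j = i + 1 ∨ i = j + 1) with rfl | rfl | rfl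
    · exact (a4 i).2 t
    · exact ((a5 i hj).2.2 t).1
    · exact ((a5 j hi).2.2 t).2

end Pool.Agent.Lib.MP_79902f_lc
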