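import Pool.Agent.Lib.MP_79902f_lc.Code
import Pool.Agent.Lib.MP_79902f_lc.Mach

/-!
The reduction from polynomial space to the realizability of planar convex codes.
-/

namespace Pool.Agent.Lib.MP_79902f_lc

open N68a2faeb N793a5b8e Pool.Agent.Shared.PolyTime N487b59b3

open Classical in
theorem pt_BB (M : TM) {T s : List Bool → ℕ} (hT : IsPolyTime T) (hs : IsPolyTime s) (r : Fin 3)
    (e : Ltr M.V) : IsPolyTime fun p : List Bool × ℕ => decide (BB M p.1 (T p.1) (s p.1) r p.2 e) := by
  let F : (Bool × Option Bool × Bool) → M.V := fun u =>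
    (if u.1 then (u.2.1.map M.inp).getD M.blank else M.blank, if u.2.2 then some M.start else none)
  let G : (Bool × Option Bool × Bool) × (Bool × Option Bool × Bool) → Bool := fun u =>
    decide (e = pr (F u.1) (F u.2))
  let d : List Bool → ℕ → ℕ → Bool × Option Bool × Bool := fun x off i =>
    (decide (off ≤ i), x[i - off]?, decide (i = off))
  have h1 : IsPolyTime fun p : List Bool × ℕ =>
      G (d p.1 (T p.1 + s p.1 + 1) (p.2 - 1), d p.1 (T p.1 + s p.1 + 1) p.2) :=
    (IsPolyTime.of_finite G).comp (by simp only [d]; fun_prop)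
  have h2 : IsPolyTime fun p : List Bool × ℕ =>
      if (T p.1 < p.2 ∧ p.2 ≤ T p.1 + (2 * s p.1 + 2)) ∧ r ≠ 0 then
        decide (if r = 1 then OkL (ValT M) e else
          e.1 = 0 ∧ (e.2.2.2.2 = none ∨ e.2.2.2.2 = some M.acc))
      else G (d p.1 (T p.1 + s p.1 + 1) (p.2 - 1), d p.1 (T p.1 + s p.1 + 1) p.2) :=
    IsPolyTime.ite (by fun_prop) (IsPolyTime.const _) h1
  refine h2.of_eq fun p => ?_
  unfold BB
  split_ifs <;> simp [G, F, d, Wd, iniS]

theorem pspace_hard {L : DecisionProblem} (hL : L ∈ PSPACE) : ManyOneReducible L ConvexCode2 := by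
  classical
  obtain ⟨M, p, hM⟩ := hL
  let g := Nat.card (Ltr M.V)
  let s : List Bool → ℕ := fun x => p.eval x.length
  let T : List Bool → ℕ := fun x => g * (2 * s x + 2) + 3
  let n : List Bool → ℕ := fun x => T x + (2 * s x + 2) + 4
  have hs : IsPolyTime s := by fun_prop
  have hT : IsPolyTime T := by fun_prop
  have hn : IsPolyTime n := by fun_prop
  have hn' : PolyBdd n := by fun_prop
  have hc := pt_codeL hn hn' (HL (V := M.V)) (B := fun x => BB M x (T x) (s x)) (pt_BB M hT hs)
  refine ⟨fun x => bitEncode (nb + n x * nw (Ltr M.V), codeL (n x) HL (BB M x (T x) (s x))),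
    IsPolyTime.bitEncode (by fun_prop), fun x => ?_⟩
  have h2 : 2 ≤ n x := by simp only [n]; omega
  obtain ⟨⟨t, h3⟩, h4⟩ := hM x
  rw [Bool.eq_iff_iff]
  simp only [ConvexCode2, decide_eq_true_eq]
  constructor
  · intro hx
    rw [if_pos hx] at h3
    refine ⟨_, _, rfl, realizable_of_strong h2 (strong_of_leads ⟨t, h3⟩ h4 ?_)⟩
    calc 8 * g ^ (2 * s x + 2) ≤ 8 * (2 ^ g) ^ (2 * s x + 2) :=
          Nat.mul_le_mul_left _ (Nat.pow_le_pow_left Nat.lt_two_pow_self.le _)
      _ = 2 ^ T x := by simp only [T]; rw [← pow_mul, pow_add]; ring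
  · rintro ⟨n', C, e, h⟩
    obtain ⟨rfl, rfl⟩ := Prod.mk.inj (bitEncode_injective e)
    obtain ⟨k, hk⟩ := leads_of_weak (weak_of_realizable h2 h)
    by_contra hx
    rw [if_neg hx] at h3
    have st : ∀ (c : M.Cfg) (j : ℕ), (c.q = M.acc ∨ c.q = M.rej) → M.step^[j] c = c :=
      fun c j hc => Function.iterate_fixed (step_halt hc) j
    have a1 : M.step^[t + k] (M.init x) = M.step^[k] (M.init x) := by
      rw [Function.iterate_add_apply, st _ _ (Or.inl hk)]
    have a2 : M.step^[k + t] (M.init x) = M.run x t := by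
      rw [Function.iterate_add_apply]
      exact st _ _ (Or.inr h3)
    rw [add_comm, a2] at a1
    exact M.acc_ne_rej (by rw [← hk, ← a1, h3])

end Pool.Agent.Lib.MP_79902f_lc
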