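import Pool.Agent.Lib.MP_79902f_lc.Base

/-!
The code of the reduction, described on a structured set of neurons, and the local geometry of the
intended realization.
-/

namespace Pool.Agent.Lib.MP_79902f_lc

open Set

/-- Residue of a line number. -/
def cls (m : ℤ) : Fin 22 := ⟨(m % 22).toNat, by omega⟩

/-- Coordinates adapted to the generation `t`. -/
def sc (t : ℕ) (z : ℝ × ℝ) : ℝ × ℝ := (2 ^ t * z.1, 4 ^ t * z.2)

/-- Height above the limit parabola. -/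
def ht (z : ℝ × ℝ) : ℝ := z.2 + z.1 ^ 2

/-- Below all lines congruent to `m`. -/
def Per (z : ℝ × ℝ) (m : ℤ) : Prop := ∀ k : ℤ, Bel (m + 22 * k) z

/-- The half-open cell. -/
def HC (α β : ℤ) (z : ℝ × ℝ) : Prop := Bel (α - 1) z ∧ ¬ Bel α z ∧ ¬ Bel β z ∧ Bel (β + 1) z

/-- The lower boundary curve. -/
def om (x : ℝ) : ℝ := x ^ 2 - 353 * x + 36

/-- The neurons. -/
abbrev Neu (A : Type) : Type := (BL × Bool) ⊕ (ℕ × (Fin 22 ⊕ A))

variable {A : Type}

/-- The line sets of generation `t` in a pattern. -/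
def xs (σ : Neu A → Prop) (t : ℕ) (m : ℤ) : Prop := σ (.inr (t, .inl (cls m)))

/-- The rules at generation `t` and residue `j`. -/
def RuleAt (n : ℕ) (H : A → A → Prop) (B : ℕ → A → Prop) (σ : Neu A → Prop) (t : ℕ) (j : ℤ) :
    Prop :=
  (t + 1 < n → StepAt (xs σ t) (xs σ (t + 1)) j) ∧
    (Win (xs σ (t + 1)) j j → ∃ a, B t a ∧ σ (.inr (t, .inr a))) ∧
    (Win (xs σ (t + 2)) j j → ∀ a b, σ (.inr (t + 1, .inr a)) → σ (.inr (t, .inr b)) → H b a) ∧
    (Win (xs σ (t + 3)) j j → ∀ b, σ (.inr (t, .inr b)))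

/-- The sides of the base lines in the three active regions. -/
def side (r : Fin 3) : BL → Bool
  | .h _ => true
  | .g _ => false
  | .d _ => false
  | .l _ => false
  | .z b => if b then decide (2 ≤ (r : ℕ)) else decide (1 ≤ (r : ℕ))

/-- The patterns allowed in the active region number `r`. -/
def VarPat (n : ℕ) (H : A → A → Prop) (B : Fin 3 → ℕ → A → Prop) (r : Fin 3)
    (σ : Neu A → Prop) : Prop :=
  (∀ i b, σ (.inl (i, b)) ↔ b = side r i) ∧ (∀ t s, σ (.inr (t, s)) → t < n) ∧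
    (∃ t₀, (∀ t s, t < t₀ → σ (.inr (t, s))) ∧ ∀ t s, σ (.inr (t, s)) → t < t₀ + 4) ∧
    ∀ t < n, ∀ j, RuleAt n H (B r) σ t j

/-- The active part of the plane. -/
def Act (z : ℝ × ℝ) : Prop := 0 ≤ z.1 ∧ ∀ k : Fin 89, (BL.l k).f z < 0

/-- The pattern of a point outside the active part. -/
def pat0 (z : ℝ × ℝ) : Neu A → Prop
  | .inl (i, b) => if b then 0 ≤ i.f z else i.f z < 0
  | .inr (t, .inl k) => t ≤ 1 ∧ om z.1 < z.2 ∧ Per (sc t z) (k : ℕ)
  | .inr (_, .inr _) => False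

/-- The code. -/
def InCode (n : ℕ) (H : A → A → Prop) (B : Fin 3 → ℕ → A → Prop) (σ : Neu A → Prop) : Prop :=
  (∃ z, ¬ Act z ∧ σ = pat0 z) ∨ ∃ r, VarPat n H B r σ

/-- The number of the active region containing the points with abscissa `x`. -/
noncomputable def reg (x : ℝ) : Fin 3 := if x < 86 then 0 else if x < 89 then 1 else 2

theorem sc_succ (t : ℕ) (z : ℝ × ℝ) : sc (t + 1) z = psi (sc t z) := by
  ext <;> simp [sc, psi] <;> ring

theorem sc_zero (z : ℝ × ℝ) : sc 0 z = z := by ext <;> simp [sc]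

theorem ht_sc (t : ℕ) (z : ℝ × ℝ) : ht (sc t z) = 4 ^ t * ht z := by
  have : (4 : ℝ) ^ t = (2 ^ t) ^ 2 := by rw [← pow_mul, mul_comm, pow_mul]; norm_num
  simp only [ht, sc, this]; ring

theorem bel_iff (m : ℤ) (z : ℝ × ℝ) : Bel m z ↔ ht z < 35 + (z.1 - (2 * m + 1)) ^ 2 := by
  unfold Bel lin ht
  constructor <;> intro h <;> nlinarith

theorem bel_of_lt {z : ℝ × ℝ} (h : ht z < 35) (m : ℤ) : Bel m z := by
  rw [bel_iff]; nlinarith [sq_nonneg (z.1 - (2 * m + 1))]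

theorem per_add {z : ℝ × ℝ} {m : ℤ} (k : ℤ) : Per z (m + 22 * k) ↔ Per z m := by
  refine ⟨fun h j => ?_, fun h j => ?_⟩
  · convert h (j - k) using 1; ring
  · convert h (j + k) using 1; ring

theorem per_cls (z : ℝ × ℝ) (m : ℤ) : Per z ((cls m : ℕ) : ℤ) ↔ Per z m := by
  rw [← per_add (m / 22)]
  have : ((cls m : ℕ) : ℤ) + 22 * (m / 22) = m := by simp only [cls]; omega
  rw [this]

theorem Per.bel {z : ℝ × ℝ} {m : ℤ} (h : Per z m) : Bel m z := by simpa using h 0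

theorem lt_of_per {z : ℝ × ℝ} {m : ℤ} (h : Per z m) : ht z < 519 := by
  have h1 := h ⌊(z.1 - (2 * m + 1) + 22) / 44⌋
  have h2 := Int.floor_le ((z.1 - (2 * m + 1) + 22) / 44)
  have h3 := Int.lt_floor_add_one ((z.1 - (2 * m + 1) + 22) / 44)
  rw [bel_iff] at h1
  push_cast at h1
  nlinarith

theorem lt_of_all {z : ℝ × ℝ} (h : ∀ m, Bel m z) : ht z < 36 := by
  have h1 := h ⌊z.1 / 2⌋
  have h2 := Int.floor_le (z.1 / 2)
  have h3 := Int.lt_floor_add_one (z.1 / 2)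
  rw [bel_iff] at h1
  nlinarith

theorem nb_between {z : ℝ × ℝ} {a b m : ℤ} (ha : ¬ Bel a z) (hb : ¬ Bel b z) (h1 : a ≤ m)
    (h2 : m ≤ b) : ¬ Bel m z := by
  rw [bel_iff, not_lt] at *
  have k1 : (a : ℝ) ≤ m := by exact_mod_cast h1
  have k2 : (m : ℝ) ≤ b := by exact_mod_cast h2
  rcases le_total z.1 (2 * m + 1) with h | h <;> nlinarith

theorem win_inv {z : ℝ × ℝ} {α β : ℤ} (h : Win (Per z) α β) (h1 : α ≤ β) (h2 : β ≤ α + 20) :
    ∃ k : ℤ, HC (α + 22 * k) (β + 22 * k) z := by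
  obtain ⟨a1, a2, a3, a4⟩ := h
  simp only [Per, not_forall] at a2 a3
  obtain ⟨k1, a2⟩ := a2
  obtain ⟨k2, a3⟩ := a3
  have e : k1 = k2 := by
    rcases lt_trichotomy k1 k2 with h | h | h
    · exact absurd (a4 k1) (nb_between a2 a3 (by omega) (by omega))
    · exact h
    · exact absurd (a1 k1) (nb_between a3 a2 (by omega) (by omega))
  subst e
  refine ⟨k1, ?_, a2, a3, ?_⟩
  · convert a1 k1 using 1; ring
  · convert a4 k1 using 1; ring

theorem HC.bel {z : ℝ × ℝ} {α β : ℤ} (h : HC α β z) {m : ℤ} (hm : m < α ∨ β < m) : Bel m z := by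
  by_contra hc
  rcases hm with hm | hm
  · exact nb_between hc h.2.1 (by omega) (by omega) h.1
  · exact nb_between h.2.2.1 hc (by omega) (by omega) h.2.2.2

theorem HC.win {z : ℝ × ℝ} {α β : ℤ} (h : HC α β z) (h2 : β ≤ α + 20) : Win (Per z) α β :=
  ⟨fun k => h.bel (by omega), fun h' => h.2.1 h'.bel, fun h' => h.2.2.1 h'.bel,
    fun k => h.bel (by omega)⟩

theorem HC.param {z : ℝ × ℝ} {α β : ℤ} (h : HC α β z) (h1 : α ≤ β) :
    ∃ p q : ℝ, z = cr p q ∧ 2 * α - 1 < p ∧ p ≤ 2 * α + 1 ∧ 2 * β + 1 ≤ q ∧ q < 2 * β + 3 := by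
  obtain ⟨a1, a2, a3, a4⟩ := h
  rw [bel_iff] at a1 a2 a3 a4
  push_cast at a1 a4
  push Not at a2 a3
  have k1 : (α : ℝ) ≤ β := by exact_mod_cast h1
  have h0 : 0 ≤ ht z - 35 := by nlinarith [sq_nonneg (z.1 - (2 * α + 1))]
  obtain ⟨s, s0, hs⟩ : ∃ s : ℝ, 0 ≤ s ∧ s ^ 2 = ht z - 35 := ⟨_, Real.sqrt_nonneg _, Real.sq_sqrt h0⟩
  have b1 : 2 * α < z.1 := by nlinarith
  have b2 : z.1 < 2 * β + 2 := by nlinarith
  refine ⟨z.1 - s, z.1 + s, ?_, ?_, ?_, ?_, ?_⟩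
  · ext
    · simp [cr]
    · simp only [cr, ht] at hs ⊢; nlinarith
  · have := abs_lt_of_sq_lt_sq' (a := s) (b := z.1 - (2 * α - 1)) (by nlinarith) (by linarith)
    linarith [this.2]
  · have := abs_le_of_sq_le_sq' (a := z.1 - (2 * α + 1)) (b := s) (by nlinarith) s0
    linarith [this.2]
  · have := abs_le_of_sq_le_sq' (a := z.1 - (2 * β + 1)) (b := s) (by nlinarith) s0
    linarith [this.1]
  · have := abs_lt_of_sq_lt_sq' (a := s) (b := 2 * β + 3 - z.1) (by nlinarith) (by linarith)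
    linarith [this.2]

theorem bel_psi (m : ℤ) (p q : ℝ) :
    Bel m (psi (cr p q)) ↔ 105 < (2 * m + 1 - 2 * p) * (2 * m + 1 - 2 * q) := by
  simp only [Bel, lin, psi, cr]
  constructor <;> intro h <;> nlinarith

theorem per_psi {m : ℤ} {p q : ℝ} (h0 : 105 < (2 * m + 1 - 2 * p) * (2 * m + 1 - 2 * q))
    (h1 : -41 ≤ 2 * m + 1 - 2 * p) (h2 : 2 * m + 1 - 2 * p ≤ 41) (h3 : -41 ≤ 2 * m + 1 - 2 * q)
    (h4 : 2 * m + 1 - 2 * q ≤ 41)
    (h5 : 105 < (2 * m + 45 - 2 * p) * (2 * m + 45 - 2 * q))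
    (h6 : 105 < (2 * m - 43 - 2 * p) * (2 * m - 43 - 2 * q)) : Per (psi (cr p q)) m := by
  intro k
  rw [bel_psi]
  push_cast
  rcases lt_trichotomy k 0 with hk | hk | hk
  · have : (k : ℝ) ≤ -1 := by exact_mod_cast (show k ≤ -1 by omega)
    nlinarith
  · subst hk; simpa using h0
  · have : (1 : ℝ) ≤ k := by exact_mod_cast (show 1 ≤ k by omega)
    nlinarith

theorem step_per (z : ℝ × ℝ) (j : ℤ) : StepAt (Per z) (Per (psi z)) j := by
  refine ⟨fun h => ?_, fun h => ?_, fun h => ?_, fun h => ?_, fun h => ?_, fun h => ?_⟩ <;>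
    obtain ⟨k, hk⟩ := win_inv h (by omega) (by omega) <;>
    obtain ⟨p, q, rfl, a1, a2, a3, a4⟩ := hk.param (by omega) <;>
    rw [← per_add (2 * k)] <;> push_cast at a1 a2 a3 a4
  · apply per_psi <;> push_cast <;> nlinarith
  · apply per_psi <;> push_cast <;> nlinarith
  · intro h'
    have := (bel_psi _ _ _).1 h'.bel
    push_cast at this
    nlinarith
  · apply per_psi <;> push_cast <;> nlinarith
  · apply per_psi <;> push_cast <;> nlinarith
  · intro h'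
    have := (bel_psi _ _ _).1 h'.bel
    push_cast at this
    nlinarith

theorem step_and {c : Prop} {x x' : ℤ → Prop} {j : ℤ} (h : StepAt x x' j) :
    StepAt (fun m => c ∧ x m) (fun m => c ∧ x' m) j := by
  have w : ∀ {a b}, Win (fun m => c ∧ x m) a b → c ∧ Win x a b := fun h =>
    ⟨h.1.1, h.1.2, fun k => h.2.1 ⟨h.1.1, k⟩, fun k => h.2.2.1 ⟨h.1.1, k⟩, h.2.2.2.2⟩
  obtain ⟨h1, h2, h3, h4, h5, h6⟩ := h
  exact ⟨fun k => ⟨(w k).1, h1 (w k).2⟩, fun k => ⟨(w k).1, h2 (w k).2⟩,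
    fun k k' => h3 (w k).2 k'.2, fun k => ⟨(w k).1, h4 (w k).2⟩, fun k => ⟨(w k).1, h5 (w k).2⟩,
    fun k k' => h6 (w k).2 k'.2⟩

theorem win_and {c : Prop} {x : ℤ → Prop} {a b : ℤ} (h : Win (fun m => c ∧ x m) a b) :
    c ∧ Win x a b :=
  ⟨h.1.1, h.1.2, fun k => h.2.1 ⟨h.1.1, k⟩, fun k => h.2.2.1 ⟨h.1.1, k⟩, h.2.2.2.2⟩

theorem HC.one {z : ℝ × ℝ} {α : ℤ} (h : HC α α z) :
    ht z < 39 ∧ 2 * α < z.1 ∧ z.1 < 2 * α + 2 := by
  obtain ⟨p, q, rfl, a1, a2, a3, a4⟩ := h.param le_rfl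
  simp only [ht, cr]
  refine ⟨by nlinarith, by linarith, by linarith⟩

theorem ge_of_not_act {z : ℝ × ℝ} (h : ¬ Act z) (h' : om z.1 < z.2) : ∃ m, ¬ Bel m z := by
  by_contra hc
  push Not at hc
  refine h ⟨?_, fun k => ?_⟩
  · have := hc 0
    simp only [Bel, lin, om] at this h'
    by_contra hn
    push Not at hn
    norm_num at this
    nlinarith
  · have := hc (k : ℕ)
    simp only [Bel, BL.f] at this ⊢
    push_cast at this
    linarith

theorem ge_of_not_bel {z : ℝ × ℝ} {m : ℤ} (h : ¬ Bel m z) : 35 ≤ ht z := by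
  by_contra hc
  exact h (bel_of_lt (not_le.1 hc) m)

theorem xs_pat0 {z : ℝ × ℝ} (h : ¬ Act z) (t : ℕ) (m : ℤ) :
    xs (pat0 z : Neu A → Prop) t m ↔ om z.1 < z.2 ∧ Per (sc t z) m := by
  simp only [xs, pat0, per_cls]
  refine ⟨fun h => h.2, fun h' => ⟨?_, h'⟩⟩
  by_contra hc
  obtain ⟨m', hm⟩ := ge_of_not_act h h'.1
  have h1 := ge_of_not_bel hm
  have h2 := lt_of_per h'.2
  rw [ht_sc] at h2
  have h3 : (4 : ℝ) ^ 2 ≤ 4 ^ t := pow_le_pow_right₀ (by norm_num) (by omega)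
  nlinarith

theorem side_reg {z : ℝ × ℝ} (h : Act z) (i : BL) (b : Bool) :
    (if b then 0 ≤ i.f z else i.f z < 0) ↔ b = side (reg z.1) i := by
  have h0 := h.2 0
  have h1 := h.1
  simp [BL.f, lin] at h0
  have key : side (reg z.1) i = true ↔ 0 ≤ i.f z := by
    cases i with
    | h b => cases b <;> simp [side, BL.f] <;> linarith
    | g j =>
      have : (0 : ℝ) ≤ (j : ℕ) := Nat.cast_nonneg _
      simp [side, BL.f]; linarith
    | d j =>
      have : (0 : ℝ) ≤ (j : ℕ) := Nat.cast_nonneg _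
      simp [side, BL.f]; linarith
    | l k => simpa [side] using h.2 k
    | z b =>
      cases b <;> simp only [side, BL.f, reg] <;> split_ifs <;> simp <;> linarith
  cases b
  · rw [if_neg (by simp), ← not_le, ← key]; simp
  · rw [if_pos rfl, ← key]; exact eq_comm

theorem varPat_empty (n : ℕ) (H : A → A → Prop) (B : Fin 3 → ℕ → A → Prop) (r : Fin 3)
    {σ : Neu A → Prop} (h1 : ∀ i b, σ (.inl (i, b)) ↔ b = side r i)
    (h2 : ∀ p, ¬ σ (.inr p)) : VarPat n H B r σ := by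
  refine ⟨h1, fun t s h => (h2 _ h).elim, ⟨0, by simp, fun t s h => (h2 _ h).elim⟩, fun t _ j => ?_⟩
  simp [RuleAt, StepAt, Win, xs, h2]

end Pool.Agent.Lib.MP_79902f_lc
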