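import Pool.Agent.Lib.MP_79902f_lc.NRule

/-!
A run of the system with exact stacks gives a convex realization of the code.
-/

namespace Pool.Agent.Lib.MP_79902f_lc

open Set

variable {E C K : Type}

/-- The exact effect of an operation on a stack. -/
def OpL : Op → List Bool → List Bool → Prop
  | .inl t, l, l' => l' = l ∧ (t → ∃ l₀, l = false :: l₀)
  | .inr (d, b), l, l' => if d then l' = b :: l else l = b :: l'

/-- A run with exact stacks. -/
def StrongRun (M : Sys E C K) (T : ℕ) (pl : ℕ → E) : Prop :=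
  ∃ (c : ℤ → C) (S : ℤ → K → List Bool), ∀ j,
    M.Nx (adv M pl T j, c j) (adv M pl T (j + 1), c (j + 1)) ∧
      ∀ k, OpL (M.op (adv M pl T j, c j) k) (S j k) (S (j + 1) k)

theorem foldr_uu {v : ℝ} (hv : v ∈ Ioo (6 : ℝ) 8) (l : List Bool) : l.foldr uu v ∈ Ioo (6 : ℝ) 8 := by
  induction l with
  | nil => exact hv
  | cons b l ih => exact uu_Ioo b ih

theorem exists_vals {o : Op} {l l' : List Bool} (h : OpL o l l') : ∃ w : Gd → ℝ,
    (∀ g, w g ∈ Ioo (6 : ℝ) 8) ∧ w (.inl false) = l.foldr uu 7 ∧ w (.inl true) = l'.foldr uu 7 ∧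
      (∀ i : Fin 16, i.val < 8 → w (.inr i) = w (.inl true)) ∧
      (∀ j i, Int' j i → w (.inr i) = w (.inr j)) ∧ OpEx w o := by
  have a := fun l => foldr_uu (v := 7) (by norm_num) l
  have z : ∀ b m, ¬ (zi b m).val < 8 := by decide
  refine ⟨Sum.elim (fun d => (if d then l' else l).foldr uu 7) fun i =>
    (if i.val < 8 then l' else if o.elim (fun _ => true) Prod.fst then l else l').foldr uu 7,
    by rintro (d | i) <;> exact a _, rfl, rfl, fun i hi => by simp [hi], fun j i hi => ?_, ?_⟩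
  · have : i.val < 8 ↔ j.val < 8 := by revert j i; decide
    simp only [Sum.elim_inr, this]
  · rcases o with t | ⟨d, b⟩
    · obtain ⟨rfl, h⟩ := h
      refine ⟨by simp, fun ht => ?_⟩
      obtain ⟨l₀, rfl⟩ := h ht
      exact (uu_bd false (Ioo_subset_Icc_self (a l₀))).2
    · cases d <;> obtain rfl := h <;> exact ⟨fun m => by simp [z], rfl⟩

theorem c11_eq {i j : ℤ} : c11 i = c11 j ↔ i % 11 = j % 11 := by
  simp only [c11, Fin.mk.injEq]; omega

theorem not_bel {w : ℝ × ℝ} {j α β : ℤ} (h : HC (2 * j + α) (2 * j + β) w) (h1 : 0 ≤ α) (h2 : α ≤ 3)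
    (h3 : 7 ≤ β) (h4 : β ≤ 9) : ¬ Bel (4 * j + 9) (psi w) ∧ ¬ Bel (4 * (j + 1) + 9) (psi w) := by
  obtain ⟨p, q, rfl, a1, a2, a3, a4⟩ := h.param (by omega)
  have b2 : (α : ℝ) ≤ 3 := by exact_mod_cast h2
  have b3 : (7 : ℝ) ≤ β := by exact_mod_cast h3
  rw [bel_psi, bel_psi]
  push_cast at *
  constructor <;> nlinarith

theorem marker {w : ℝ × ℝ} {j k k' : ℤ} (h1 : HC (2 * j + 22 * k) (2 * j + 9 + 22 * k) (psi w))
    (h2 : HC (j + 2 + 22 * k') (j + 2 + 22 * k') w) : k = 2 * k' ∧ ht w < 39 ∧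
      (2 * (j + 22 * k') + 4 < w.1 ∧ w.1 < 2 * (j + 22 * k') + 6) ∧
      ∀ i, c11 i = c11 j → i ≠ j + 22 * k' → Bel (4 * i + 9) (psi (psi w)) := by
  obtain ⟨b1, b2, b3⟩ := h2.one
  obtain ⟨p, q, e, a1, a2, a3, a4⟩ := h1.param (by omega)
  have e1 : 2 * w.1 = (p + q) / 2 := congrArg Prod.fst e
  push_cast at *
  obtain rfl : k = 2 * k' := by
    have c1 : (2 * k' : ℝ) < k + 1 := by linarith
    have c2 : (k : ℝ) < 2 * k' + 1 := by linarith
    have d1 : 2 * k' < k + 1 := by exact_mod_cast c1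
    have d2 : k < 2 * k' + 1 := by exact_mod_cast c2
    omega
  refine ⟨rfl, b1, ⟨by linarith, by linarith⟩, fun i hi hj => ?_⟩
  rw [e, bel_psi]
  rw [c11_eq] at hi
  push_cast at *
  rcases (by omega : i ≤ j + 22 * k' - 11 ∨ j + 22 * k' + 11 ≤ i) with c | c
  · have : (i : ℝ) ≤ j + 22 * k' - 11 := by exact_mod_cast c
    nlinarith
  · have : (j : ℝ) + 22 * k' + 11 ≤ i := by exact_mod_cast c
    nlinarith

theorem real_run [Finite E] [Finite C] [Finite K] {M : Sys E C K} {T : ℕ} {pl : ℕ → E}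
    (h : StrongRun M T pl) : ∃ Y : Neu (Alp E C K) → Set (ℝ × ℝ), (∀ a, Convex ℝ (Y a)) ∧
      ∀ σ, InC (T + 5) (Rule M T pl) σ ↔ ∃ z, σ = fun a => z ∈ Y a := by
  obtain ⟨c, S, h⟩ := h
  choose w w1 w2 w3 w4 w5 w6 using fun j k => exists_vals ((h j).2 k)
  let H : ℕ → Alp E C K → Set (ℝ × ℝ) := fun t => Sum.elim
    (fun a => {z | (∀ m, Bel m (sc t z)) ∧
      ∀ j, c11 j = a.1 → a.2 ≠ (adv M pl t j, c j) → Bel (4 * j + 9) (sc (t + 3) z)})
    (fun a => {z | (∀ m, Bel m (sc t z)) ∧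
      ∀ j, c11 j = a.1 → Ln a.2.2 (2 * j + 1) (w j a.2.1 a.2.2) (sc (t + 2) z)})
  have hin : ∀ t s z, 4 ^ t * ht z < 35 / 64 → z ∈ H t s := by
    rintro t (a | a) z hz
    · exact ⟨bel_of_lt (by rw [ht_sc]; linarith), fun j _ _ =>
        bel_of_lt (by rw [ht_sc, pow_add]; linarith) _⟩
    · refine ⟨bel_of_lt (by rw [ht_sc]; linarith), fun j _ => ?_⟩
      obtain ⟨a1, a2, -⟩ := tau_bd a.2.2 (w1 j a.2.1 a.2.2)
      exact BeL.of_lt (by rw [ht_sc, pow_add]; linarith) (by linarith) (by linarith)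
  refine realize_gen (by omega) (rule_empty M T pl) (H := H) ?_ hin ?_ fun z t htn j => ?_
  · rintro t (a | a) z hz z' hz' u v hu hv e
    · exact ⟨fun m => convex_bel _ _ (hz.1 m) (hz'.1 m) hu hv e,
        fun j k k' => convex_bel _ _ (hz.2 j k k') (hz'.2 j k k') hu hv e⟩
    · exact ⟨fun m => convex_bel _ _ (hz.1 m) (hz'.1 m) hu hv e,
        fun j k => convex_BeL _ _ _ _ (hz.2 j k) (hz'.2 j k) hu hv e⟩
  · rintro t (a | a) z hz <;> exact hz.1
  set π : Loc (Alp E C K) := fun i s => t + i < T + 5 ∧ z ∈ Hx H (t + i) s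
  have ex : ∀ i, xl π i = fun m => t + i < T + 5 ∧ Per (sc (t + i) z) m := fun i => funext fun m => by
    simp only [xl, π, Hx, Sum.elim_inl, mem_ofPred_eq, per_cls]
  have wi : ∀ {i α β}, Win (xl π i) α β → α ≤ β → β ≤ α + 20 →
      ∃ k, HC (α + 22 * k) (β + 22 * k) (sc (t + i) z) := fun h h1 h2 =>
    win_inv (win_and (ex _ ▸ h)).2 h1 h2
  have hs : ∀ s, ht (sc (s + 1) z) = 4 * ht (sc s z) := fun s => by rw [ht_sc, ht_sc]; ring
  have mk : ∀ s, s < T + 5 → ∀ k k', HC (2 * j + 22 * k) (2 * j + 9 + 22 * k) (sc (s + 2) z) →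
      HC (j + 2 + 22 * k') (j + 2 + 22 * k') (sc (s + 1) z) →
      z ∈ H s (.inl (c11 j, adv M pl s (j + 22 * k'), c (j + 22 * k'))) := by
    intro s _ k k' h1 h2
    obtain ⟨-, a1, -, a2⟩ := marker (sc_succ _ _ ▸ h1) h2
    refine ⟨bel_of_lt (by linarith [hs s]), fun i b1 b2 => ?_⟩
    rw [sc_succ, sc_succ]
    exact a2 i b1 fun e => b2 (by rw [e])
  refine ⟨fun ht' => ?_, ?_, fun ht' h1 h2 => ?_, fun ht' h1 s => ?_, ?_⟩
  · rw [ex, ex]
    simp only [Fin.val_zero, Fin.val_one, add_zero, htn, ht', true_and, sc_succ]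
    exact step_per _ j
  · rintro rfl h1 h2
    obtain ⟨k, h1⟩ := wi h1 (by omega) (by omega)
    obtain ⟨k', h2⟩ := wi h2 (by omega) (by omega)
    refine ⟨_, ⟨htn, mk 0 htn k k' h1 h2⟩, if_congr ?_ rfl rfl⟩
    obtain ⟨-, -, ⟨a1, a2⟩, -⟩ := marker (sc_succ _ _ ▸ h1) h2
    rw [show (sc (0 + (1 : Fin 5)) z).1 = 2 * z.1 by simp [sc]] at a1 a2
    unfold reg
    constructor
    · intro e
      have : (j : ℝ) + 22 * k' = 85 := by exact_mod_cast e
      rw [if_neg (by linarith), if_pos (by linarith)]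
      exact ⟨rfl, by omega⟩
    · rintro ⟨e, e'⟩
      split_ifs at e with c1 c2
      · exact absurd e (by decide)
      · have d1 : (83 : ℝ) < j + 22 * k' := by linarith
        have d2 : (j : ℝ) + 22 * k' < 87 := by linarith
        have d3 : 83 < j + 22 * k' := by exact_mod_cast d1
        have d4 : j + 22 * k' < 87 := by exact_mod_cast d2
        omega
      · exact absurd e (by decide)
  · obtain ⟨k, h1⟩ := wi h1 (by omega) (by omega)
    obtain ⟨k', h2⟩ := wi h2 (by omega) (by omega)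
    refine ⟨_, ⟨by change t + 1 < _; omega, mk (t + 1) (by omega) k k' h1 h2⟩, fun b hb => ?_⟩
    obtain rfl := (marker (sc_succ _ _ ▸ h1) h2).1
    obtain rfl : b = (adv M pl t ((j + 22 * k') / 2), c ((j + 22 * k') / 2)) := by
      by_contra hc
      exact nb_between h1.2.1 h1.2.2.1 (by omega) (by omega) (hb.2.2 _ (c11_eq.2 (by omega)) hc)
    simp only [adv, show (j + 22 * k') % 2 = j % 2 by omega]
  · obtain ⟨k, h1⟩ := wi h1 le_rfl (by omega)
    have := h1.one.1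
    rw [ht_sc, pow_add] at this
    exact ⟨htn, hin t s z (by norm_num at this; linarith)⟩
  rintro rfl
  have st : ∀ {α β}, WW π j α β → α ≤ β → β ≤ α + 10 →
      ∃ u, u % 11 = j % 11 ∧ WH (2 * u + 1) (sc (t + 2) z) α β := fun h h1 h2 => by
    obtain ⟨k, h⟩ := wi h (by omega) (by omega)
    replace h : HC _ _ (sc (t + 2) z) := h
    exact ⟨j + 11 * k, by omega, by convert h using 1 <;> ring⟩
  have lab : ∀ {α β u}, WH (2 * u + 1) (sc (t + 2) z) α β → 0 ≤ α → α ≤ 2 → 6 ≤ β → β ≤ 7 →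
      ∀ i i' a, i % 11 = i' % 11 → i = u ∨ i = u + 1 → LL π 0 i' a → a = (adv M pl t i, c i) := by
    intro α β u h h1 h2 h3 h4 i i' a e hi ha
    by_contra hc
    have := ha.2.2 i (c11_eq.2 e) hc
    obtain ⟨a1, a2⟩ := not_bel (j := u) (α := 1 + α) (β := 1 + β) (by convert h using 1 <;> ring)
      (by omega) (by omega) (by omega) (by omega)
    rw [← sc_succ] at a1 a2
    rcases hi with rfl | rfl
    exacts [a1 this, a2 this]
  have gad : ∀ {α β u}, WH (2 * u + 1) (sc (t + 2) z) α β → α ≤ β → β ≤ α + 10 → -6 ≤ α → β ≤ 15 →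
      ∀ i i' k g, i % 11 = i' % 11 → i = u ∨ i = u + 1 →
        (GG π i' k g ↔ Ln g (2 * i + 1) (w i k g) (sc (t + 2) z)) := by
    intro α β u h h1 h2 h3 h4 i i' k g e hi
    refine ⟨fun k => k.2.2 i (c11_eq.2 e), fun h' => ⟨htn, bel_of_lt ?_, fun m hm => ?_⟩⟩
    · obtain ⟨p, q, e, a1, a2, a3, a4⟩ := h.param (by omega)
      have b1 : (α : ℝ) ≤ β := by exact_mod_cast h1
      have b2 : (β : ℝ) ≤ α + 10 := by exact_mod_cast h2
      push_cast at a1 a2 a3 a4
      have : ht (sc (t + 2) z) < 35 + 144 := by rw [e]; simp only [ht, cr]; nlinarith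
      have b3 : ht (sc (t + 2) z) = _ := hs (t + 1)
      change ht (sc t z) < 35
      linarith [hs t]
    · rw [c11_eq] at hm
      obtain ⟨a1, a2, a3, a4⟩ := tau_bd g (w1 m k g)
      rcases (by omega : m = i ∨ 2 * m + 1 + 10 ≤ 2 * u + 1 + α - 1 ∨ 2 * u + 1 + β + 1 ≤ 2 * m + 1)
        with rfl | c | c
      · exact h'
      · have := (Int.cast_le (R := ℝ)).2 c
        exact BeL.far h (by linarith) (by linarith) (Or.inl (by push_cast at *; linarith))
      · have := (Int.cast_le (R := ℝ)).2 c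
        exact BeL.far h (by linarith) (by linarith) (Or.inr (by push_cast at *; linarith))
  refine ⟨fun h1 a a' b1 b2 => ?_, fun k => ⟨GU.imp fun α β a1 a2 a3 a4 h1 => ?_,
    fun a b1 => GC.imp fun α β a1 a2 a3 a4 h1 => ?_⟩⟩
  · obtain ⟨u, e, h2⟩ := st h1 (by omega) (by omega)
    rw [lab h2 (by omega) (by omega) (by omega) (by omega) u j a e (Or.inl rfl) b1,
      lab h2 (by omega) (by omega) (by omega) (by omega) (u + 1) (j + 1) a' (by omega) (Or.inr rfl) b2]
    exact (h u).1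
  · obtain ⟨u, e, h2⟩ := st h1 a1 a2
    refine ⟨_, h2, ?_⟩
    rw [gad h2 a1 a2 a3 a4 (u + 1) (j + 1) k _ (by omega) (Or.inr rfl), w2, ← w3,
      show GG π j k = _ from funext fun g => propext (gad h2 a1 a2 a3 a4 u j k g e (Or.inl rfl)),
      show 2 * (u + 1) + 1 = 2 * u + 1 + 2 by ring]
    exact gu_line (w1 u k) (w4 u k) (w5 u k)
  · obtain ⟨u, e, h2⟩ := st h1 (by omega) (by omega)
    refine ⟨_, h2, ?_⟩
    rw [lab h2 a1 (by omega) a3 a4 u j a e (Or.inl rfl) b1, show GG π j k = _ from funext fun g =>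
      propext (gad h2 (by omega) (by omega) (by omega) (by omega) u j k g e (Or.inl rfl))]
    exact gc_line (w1 u k) (w6 u k)

end Pool.Agent.Lib.MP_79902f_lc
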