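import Pool.Agent.Lib.MP_79902f_lc.Code
import Pool.Agent.Lib.MP_79902f_lc.NReal

/-!
The code given by local rules as an explicit list, computable in polynomial time.
-/

namespace Pool.Agent.Lib.MP_79902f_lc

open N68a2faeb Pool.Agent.Shared.PolyTime N487b59b3

variable {A : Type} [Finite A]

/-- The test that a candidate has to pass. -/
def ChkN (n : ℕ) (Rl : ℕ → Loc A → Prop) (c : List ℕ) : Prop :=
  (∀ i ∈ c, i < nb + n * nw A) ∧ ∀ t < n, Rl t fun i s => idx (.inr (t + i, s) : Neu A) ∈ c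

open Classical in
/-- The codewords of the active region number `r`. -/
noncomputable def varN (n : ℕ) (Rl : ℕ → Loc A → Prop) (r : Fin 3) : List (List ℕ) :=
  ((List.range (n + 1)).flatMap fun t =>
    (List.range (5 * nw A)).sublists.map fun u => cand A r t u).filter fun c => decide (ChkN n Rl c)

/-- The code as a list. -/
noncomputable def codeN (n : ℕ) (Rl : Fin 3 → ℕ → Loc A → Prop) : List (List ℕ) :=
  constL A ++ (varN n (Rl 0) 0 ++ varN n (Rl 1) 1 ++ varN n (Rl 2) 2)

variable {n : ℕ} {Rl : Fin 3 → ℕ → Loc A → Prop}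

theorem varN_spec (r : Fin 3) (σ : Neu A → Prop) :
    VarP n Rl r σ ↔ ∃ c ∈ varN n (Rl r) r, σ = fun a => idx a ∈ c := by
  classical
  simp only [varN, List.mem_filter, List.mem_flatMap, List.mem_range, List.mem_map,
    List.mem_sublists, decide_eq_true_eq]
  constructor
  · rintro ⟨h1, h2, ⟨t₀, h3, h4⟩, h5⟩
    have key : σ = fun a => idx a ∈ cand A r t₀ ((List.range (5 * nw A)).filter fun i =>
        decide (∃ a, σ a ∧ idx a = nb + t₀ * nw A + i)) := by
      funext a
      apply propext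
      rcases a with ⟨i, b⟩ | ⟨t, s⟩
      · rw [mem_cand_inl, h1]
      · rw [mem_cand_inr]
        simp only [List.mem_filter, List.mem_range, decide_eq_true_eq]
        constructor
        · intro h
          by_cases ht : t < t₀
          · exact Or.inl ht
          · have a1 := (idx_inr_lt t (t₀ + 5) s).2 (h4 t s h)
            have a2 := mt (idx_inr_lt t t₀ s).1 ht
            rw [add_mul] at a1
            exact Or.inr ⟨idx (.inr (t, s) : Neu A) - (nb + t₀ * nw A), ⟨by omega, _, h, by omega⟩,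
              by omega⟩
        · rintro (h | ⟨i, ⟨-, a, a1, a2⟩, a3⟩)
          · exact h3 t s h
          · rwa [← idx_injective (a2.trans a3)]
    have ht : t₀ ≤ n := by
      by_contra hc
      exact lt_irrefl _ (h2 n (.inl 0) (h3 n _ (not_le.1 hc)))
    refine ⟨_, ⟨⟨t₀, by omega, _, List.filter_sublist, rfl⟩, fun i hi => ?_, fun t ht => ?_⟩, key⟩
    · obtain ⟨a, rfl⟩ := idx_surjective (A := A) i
      have ha : σ a := by rw [key]; exact hi
      rcases a with p | ⟨t, s⟩
      · have := idx_inl_lt (A := A) p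
        omega
      · exact (idx_inr_lt _ _ _).2 (h2 t s ha)
    · have := h5 t ht
      rwa [key] at this
  · rintro ⟨c, ⟨⟨t₀, -, u, hu, rfl⟩, h1, h2⟩, rfl⟩
    refine ⟨mem_cand_inl r t₀ u, fun t s h => (idx_inr_lt _ _ _).1 (h1 _ h), ⟨t₀, fun t s h =>
      (mem_cand_inr _ _ _ _ _).2 (Or.inl h), fun t s h => ?_⟩, h2⟩
    rcases (mem_cand_inr _ _ _ _ _).1 h with h | ⟨i, a1, a2⟩
    · omega
    · have := List.mem_range.1 (hu.subset a1)
      rw [← idx_inr_lt t (t₀ + 5) s, add_mul]
      omega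

theorem codeN_spec (σ : Neu A → Prop) :
    InC n Rl σ ↔ ∃ c ∈ codeN n Rl, σ = fun a => idx a ∈ c := by
  simp only [InC, codeN, List.mem_append, or_and_right, exists_or, ← varN_spec,
    Fin.exists_fin_succ, constL, ← (exists_const A).choose_spec σ]
  simp [or_assoc]

theorem realizable_iff (hn : 2 ≤ n) : ConvexRealizable (nb + n * nw A) (codeN n Rl) ↔
    ∃ Y : Neu A → Set (ℝ × ℝ), (∀ a, Convex ℝ (Y a)) ∧
      ∀ σ, InC n Rl σ ↔ ∃ z, σ = fun a => z ∈ Y a := by
  constructor
  · rintro ⟨X, hX, h⟩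
    refine ⟨fun a => {z | idx a < nb + n * nw A ∧ z ∈ X (idx a)},
      fun a z hz z' hz' u v hu hv huv => ⟨hz.1, hX _ hz.2 hz'.2 hu hv huv⟩, fun σ => ?_⟩
    rw [codeN_spec]
    constructor
    · rintro ⟨c, hc, rfl⟩
      obtain ⟨z, hz⟩ := (Set.ext_iff.1 h _).1 ⟨c, hc, rfl⟩
      exact ⟨z, funext fun a => propext (Set.ext_iff.1 hz (idx a))⟩
    · rintro ⟨z, rfl⟩
      obtain ⟨c, hc, hz⟩ := (Set.ext_iff.1 h _).2 ⟨z, rfl⟩
      exact ⟨c, hc, funext fun a => propext (Set.ext_iff.1 hz (idx a))⟩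
  rintro ⟨Y, hY, h⟩
  have lt : ∀ {σ : Neu A → Prop}, InC n Rl σ → ∀ {a}, σ a → idx a < nb + n * nw A := by
    rintro σ h (p | ⟨t, s⟩) ha
    · have := idx_inl_lt (A := A) p
      omega
    · rw [idx_inr_lt]
      rcases h with ⟨z, -, rfl⟩ | ⟨r, h⟩
      · rcases s with k | b
        · have := ha.1
          omega
        · exact ha.elim
      · exact h.2.1 t s ha
  let e : Neu A ≃ ℕ := Equiv.ofBijective idx ⟨idx_injective, idx_surjective⟩
  have key : ∀ (z : ℝ × ℝ) (c : List ℕ), ((fun a => z ∈ Y a) = fun a => idx a ∈ c) →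
      {i | i ∈ c} = {i | i < nb + n * nw A ∧ z ∈ Y (e.symm i)} := by
    intro z c hz
    ext i
    obtain ⟨a, rfl⟩ := e.surjective i
    have := (congrFun hz a).to_iff
    simp only [Set.mem_ofPred_eq, Equiv.symm_apply_apply]
    exact ⟨fun k => ⟨lt ((h _).2 ⟨z, rfl⟩) (this.2 k), this.2 k⟩, fun k => this.1 k.2⟩
  refine ⟨fun i => Y (e.symm i), fun i => hY _, Set.ext fun S => ⟨?_, ?_⟩⟩
  · rintro ⟨c, hc, rfl⟩
    obtain ⟨z, hz⟩ := (h _).1 ((codeN_spec _).2 ⟨c, hc, rfl⟩)
    exact ⟨z, key z c hz.symm⟩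
  · rintro ⟨z, rfl⟩
    obtain ⟨c, hc, hz⟩ := (codeN_spec _).1 ((h _).2 ⟨z, rfl⟩)
    exact ⟨c, hc, (key z c hz).symm⟩

open Classical in
theorem pt_fin {α ι : Type} [N487b59b3 α] [Finite ι] {f : α → ι → Prop}
    (hf : ∀ i, IsPolyTime fun x => decide (f x i)) (P : (ι → Prop) → Prop) :
    IsPolyTime fun x => decide (P (f x)) := by
  refine IsPolyTime.decide_congr (p := fun x => ∃ b : ι → Prop, (∀ i, f x i ↔ b i) ∧ P b)
    (IsPolyTime.decide_exists_finite fun b => IsPolyTime.decide_and (IsPolyTime.decide_forall_finite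
      fun i => IsPolyTime.decide_iff (hf i) IsPolyTime.decide_const) IsPolyTime.decide_const) fun x => ?_
  exact ⟨fun ⟨b, h1, h2⟩ => by rwa [show f x = b from funext fun i => propext (h1 i)],
    fun h => ⟨_, fun _ => Iff.rfl, h⟩⟩

open Classical in
theorem pt_codeN {α D : Type} [N487b59b3 α] [Finite D] {n : α → ℕ} (h1 : IsPolyTime n) (h2 : PolyBdd n)
    (P : Fin 3 → (D → Prop) → Loc A → Prop) {d : α → ℕ → D → Prop}
    (hd : ∀ i, IsPolyTime fun p : α × ℕ => decide (d p.1 p.2 i)) :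
    IsPolyTime fun x => codeN (n x) fun r t => P r (d x t) := by
  have key : ∀ r, IsPolyTime fun x => varN (n x) (fun t => P r (d x t)) r := by
    intro r
    unfold varN
    refine IsPolyTime.filter (f := fun x c => decide (ChkN (n x) (fun t => P r (d x t)) c)) ?_ ?_
    · refine IsPolyTime.decide_and (by fun_prop) (IsPolyTime.decide_forall_lt ?_ (by fun_prop)
        (h2.comp (by fun_prop)))
      refine pt_fin (ι := D ⊕ Fin 5 × (Fin 22 ⊕ A)) (f := fun p : (α × List ℕ) × ℕ => Sum.elim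
        (d p.1.1 p.2) fun i => idx (.inr (p.2 + i.1, i.2) : Neu A) ∈ p.1.2) ?_
        fun b => P r (fun i => b (.inl i)) fun i s => b (.inr (i, s))
      rintro (i | ⟨i, s⟩)
      · exact (hd i).comp (g := fun p : (α × List ℕ) × ℕ => (p.1.1, p.2)) (by fun_prop)
      · simp only [Sum.elim_inr, idx]
        fun_prop
    have hb : PolyBdd fun p : (α × ℕ) × List ℕ => n p.1.1 := h2.comp (by fun_prop)
    have : IsPolyTime fun x => (List.range (n x + 1)).flatMap fun t =>
        (List.range (5 * nw A)).sublists.map fun u => cand A r (min t (n x)) u := by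
      unfold cand
      fun_prop
    refine this.of_eq fun x => List.flatMap_congr fun t ht => ?_
    rw [min_eq_left (by simpa [Nat.lt_succ_iff] using ht)]
  unfold codeN
  have k0 := key 0
  have k1 := key 1
  have k2 := key 2
  fun_prop

end Pool.Agent.Lib.MP_79902f_lc
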