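import Pool.Agent.Lib.MP_79902f_lc.Defs

/-!
Nondeterministic exponential time.
-/

namespace Pool.Agent.Lib.MP_79902f_lc

open N68a2faeb

/-- Languages with witnesses of exponential length that are checked in time polynomial in the
total length of the input and the witness. -/
def NEXP : DecisionComplexityClass :=
  {L | ∃ (p : Polynomial ℕ) (R : List Bool × List Bool → Bool), IsPolyTime R ∧
    ∀ x, L x ↔ ∃ w : List Bool, w.length ≤ 2 ^ p.eval x.length ∧ R (x, w)}

end Pool.Agent.Lib.MP_79902f_lc
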