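import Pool.Agent.Lib.MP_79902f_lc.NGeo

/-!
The register gadget: the table of the free lines and the local rules.
-/

namespace Pool.Agent.Lib.MP_79902f_lc

open Set Mob

/-- One step: source line `a`, centre `(p, q)`, target line `b`, the cells of the incoming link,
the source and target coordinates and the slope parameter. -/
structure Stp where
  a : ℤ
  p : ℤ
  q : ℤ
  b : ℤ
  s : ℤ
  lo : ℤ
  hi : ℤ
  zs : Mob
  zt : Mob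
  ta : Mob

/-- The table of the steps. -/
def stp : Fin 16 → Stp :=
  ![⟨0, 3, 12, 8, 0, 6, 8, (6, 8, 1, 1), (18, 0, 9, 5), (36, 36, 9, 7)⟩,
    ⟨8, 2, 13, 9, 0, 0, 2, (18, 0, 9, 5), (126, 26, 63, 37), (18, 26, 9, 7)⟩,
    ⟨9, -1, 2, 8, 0, 0, 2, (126, 26, 63, 37), (10, 2, 5, 3), (90, 22, 45, 23)⟩,
    ⟨8, 3, 14, 2, 1, 0, 2, (10, 2, 5, 3), (8, 10, 1, 1), (26, 22, 7, 5)⟩,
    ⟨2, 6, 10, 4, 0, 8, 10, (8, 10, 1, 1), (42, 60, 5, 6), (22, 20, 3, 2)⟩,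
    ⟨4, -5, 7, -2, 1, 8, 10, (42, 60, 5, 6), (1064, 1440, 149, 198), (343, 450, 52, 72)⟩,
    ⟨-2, 4, 16, 8, 1, 7, 8, (1064, 1440, 149, 198), (2, 0, 7, 9), (216, 288, 41, 54)⟩,
    ⟨8, -4, 2, 0, 0, 0, 1, (2, 0, 7, 9), (6, 8, 1, 1), (4, 4, 4, 5)⟩,
    ⟨0, 1, 10, 9, 0, 6, 8, (6, 8, 1, 1), (30, 10, 35, 17), (10, 10, 5, 3)⟩,
    ⟨9, -6, 3, 0, 0, 0, 1, (30, 10, 35, 17), (150, 74, 25, 11), (450, 198, 225, 107)⟩,
    ⟨0, -6, 5, 6, 0, 6, 8, (150, 74, 25, 11), (0, -4, 5, 3), (150, 66, 35, 17)⟩,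
    ⟨6, 1, 12, 0, 0, -2, 0, (0, -4, 5, 3), (6, 8, 1, 1), (12, 12, 7, 5)⟩,
    ⟨0, 3, 14, 2, 0, 6, 8, (6, 8, 1, 1), (42, 63, 5, 6), (42, 42, 11, 9)⟩,
    ⟨2, -2, 7, 0, 0, 8, 11, (42, 63, 5, 6), (82, 120, 11, 15), (154, 210, 27, 45)⟩,
    ⟨0, 2, 14, 8, 0, 6, 8, (82, 120, 11, 15), (14, 0, 37, 45), (154, 210, 47, 60)⟩,
    ⟨8, -7, 2, 0, 0, 0, 1, (14, 0, 37, 45), (6, 8, 1, 1), (14, 14, 11, 13)⟩]

/-- The checks on one step. -/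
def Stp.Good (S : Stp) : Prop :=
  (S.zs.Pos ∧ S.zt.Pos ∧ S.ta.Pos) ∧ (Inc S.a S.p S.q S.zs S.ta ∧ Inc S.b S.p S.q S.zt S.ta) ∧
    (((S.zs.ad S.a).Lt (S.zt.ad S.b) ∧ (S.zt.ad S.b).Le (k (S.p + S.q))) ∨
      ((S.zt.ad S.b).Lt (S.zs.ad S.a) ∧ (k (S.p + S.q)).Le (S.zt.ad S.b))) ∧
    (((k S.b).Lt S.ta ∧ S.zt.1 * S.zt.2.2.2 < S.zt.2.1 * S.zt.2.2.1) ∨
      (S.ta.Lt (k S.b) ∧ S.zt.2.1 * S.zt.2.2.1 < S.zt.1 * S.zt.2.2.2)) ∧
    ((k S.p).Le S.ta ∧ S.ta.Le (k S.q) ∧ (k 0).Le S.ta ∧ S.ta.Le (k 10)) ∧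
    ((k S.lo).Le S.zs ∧ S.zs.Le (k S.hi) ∧ S.lo < S.hi ∧ (S.s = 0 ∨ S.s = 1)) ∧
    ((S.a + 1 ≤ S.lo ∧ S.hi ≤ S.a + 11 ∧ -6 ≤ S.a ∧ S.hi ≤ 16) ∨
      (S.hi ≤ S.a - 1 ∧ S.a - 11 ≤ S.lo ∧ -7 ≤ S.lo ∧ S.a ≤ 15)) ∧
    (S.p + 2 ≤ S.q ∧ S.q ≤ S.p + 12 ∧ -7 ≤ S.p ∧ S.q ≤ 16) ∧
    (k (-20)).Le (S.zt.ad S.b) ∧ (S.zt.ad S.b).Le (k 40)

instance (S : Stp) : Decidable S.Good := by unfold Stp.Good; infer_instance

theorem good : ∀ i, (stp i).Good := by decide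

/-- The internal links. -/
def Int' (j i : Fin 16) : Prop := i.val = j.val + 1 ∧ (i.val % 2 = 1 ∨ i = 2 ∨ i = 6)

instance (j i : Fin 16) : Decidable (Int' j i) := by unfold Int'; infer_instance

theorem linked : ∀ j i, Int' j i → (stp j).zt = (stp i).zs ∧ (stp j).b = (stp i).a ∧
    (((stp i).s = 1 ∧ (((k (stp i).a).Lt (stp i).ta ∧ (stp i).ta.Le (stp j).ta) ∨
      ((stp j).ta.Le (stp i).ta ∧ (stp i).ta.Lt (k (stp i).a)))) ∨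
    ((stp i).s = 0 ∧ (((k (stp i).a).Lt (stp j).ta ∧ (stp j).ta.Le (stp i).ta) ∨
      ((stp i).ta.Le (stp j).ta ∧ (stp j).ta.Lt (k (stp i).a))))) := by decide

theorem leaving : ∀ i : Fin 16, (i.val % 2 = 0 ∧ i ≠ 2 ∧ i ≠ 6) → (stp i).s = 0 ∧
    (stp i).lo = (stp i).a + 6 ∧ (stp i).hi = (stp i).a + 8 ∧
    Mob.Le (Mob.ad (1, 1, 2, 2) (stp i).a) (stp i).ta := by decide

theorem arriving : ∀ i : Fin 16, (i.val % 2 = 1 ∧ i ≠ 1 ∧ i ≠ 5) →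
    Mob.Le (Mob.ad (1, 1, 2, 2) (stp i).b) (stp i).ta := by decide

/-- The sets of one register at one station. -/
abbrev Gd : Type := Bool ⊕ Fin 16

/-- The centre of a set. -/
def cen : Gd → ℤ × ℤ := Sum.elim (fun _ => (-1, 2)) fun i => ((stp i).p, (stp i).q)

/-- The slope parameter of a set. -/
def tau : Gd → Mob := Sum.elim (fun _ => (2, 2, 5, 7)) fun i => (stp i).ta

/-- The cell next to the line `a` on the side `s`. -/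
def cel (a s n : ℤ) : ℤ × ℤ := if a ≤ n then (a + s, n) else (n + 1, a - s)

/-- The incoming link of the step `i`. -/
def Lk (W : ℤ → ℤ → Prop) (i : Fin 16) (Y Z : Prop) : Prop := ∀ n, (stp i).lo ≤ n → n < (stp i).hi →
  W (cel (stp i).a (stp i).s n).1 (cel (stp i).a (stp i).s n).2 → Y → Z

/-- The link to a register set on the line `b`. -/
def Ar (W : ℤ → ℤ → Prop) (b : ℤ) (Y Z : Prop) : Prop := ∀ n, 6 ≤ n → n < 8 → W (b + 1) (b + n) → Y → Z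

/-- The rules that always hold. -/
def GU (W : ℤ → ℤ → Prop) (X : Gd → Prop) (Xn : Prop) : Prop :=
  (∀ g, W ((cen g).1 + 1) ((cen g).2 - 1) → X g) ∧
    (∀ j i, Int' j i → Lk W i (X (.inr j)) (X (.inr i))) ∧ Lk W 0 (X (.inl true)) (X (.inr 0)) ∧
    Lk W 4 Xn (X (.inr 4)) ∧ Ar W 2 (X (.inr 3)) Xn ∧ Ar W 0 (X (.inr 7)) (X (.inl true))

/-- Operations: idle, test, pop and push. -/
abbrev Op : Type := Bool ⊕ Bool × Bool

/-- The steps of the loop for the bit `b`. -/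
def zi (b : Bool) (m : Fin 4) : Fin 16 := ⟨(if b then 12 else 8) + m, by split_ifs <;> omega⟩

/-- The rules of an operation. -/
def GC (W : ℤ → ℤ → Prop) (X : Gd → Prop) : Op → Prop
  | .inl t => (∀ d, Ar W 0 (X (.inl d)) (X (.inl !d))) ∧ (t → W 0 7 → ¬ X (.inl false))
  | .inr (d, b) => Lk W (zi b 0) (X (.inl !d)) (X (.inr (zi b 0))) ∧
      Ar W 0 (X (.inr (zi b 1))) (X (.inl d)) ∧ Lk W (zi b 2) (X (.inl d)) (X (.inr (zi b 2))) ∧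
      Ar W 0 (X (.inr (zi b 3))) (X (.inl !d)) ∧
      if b then W 1 6 → X (.inl d) else W 0 7 → ¬ X (.inl d)

theorem cel_bd (i : Fin 16) {n : ℤ} (h1 : (stp i).lo ≤ n) (h2 : n < (stp i).hi) :
    (cel (stp i).a (stp i).s n).1 ≤ (cel (stp i).a (stp i).s n).2 ∧
      (cel (stp i).a (stp i).s n).2 ≤ (cel (stp i).a (stp i).s n).1 + 10 ∧
      -6 ≤ (cel (stp i).a (stp i).s n).1 ∧ (cel (stp i).a (stp i).s n).2 ≤ 15 := by
  obtain ⟨-, -, -, -, -, ⟨-, -, -, a1⟩, a2, -⟩ := good i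
  unfold cel
  split_ifs <;> dsimp only <;> omega

theorem cen_bd (g : Gd) : (cen g).1 + 2 ≤ (cen g).2 ∧ (cen g).2 ≤ (cen g).1 + 12 ∧ -7 ≤ (cen g).1 ∧
    (cen g).2 ≤ 16 := by
  rcases g with d | i
  · simp [cen]
  · exact (good i).2.2.2.2.2.2.2.1

theorem GU.imp {W' : ℤ → ℤ → Prop} {X : Gd → Prop} {Xn : Prop}
    (h : ∀ α β, α ≤ β → β ≤ α + 10 → -6 ≤ α → β ≤ 15 → W' α β → ∃ W, W α β ∧ GU W X Xn) :
    GU W' X Xn := by
  have l : ∀ {i Y Z}, (∀ W, GU W X Xn → Lk W i Y Z) → Lk W' i Y Z := fun {i Y Z} k n h1 h2 hw => by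
    obtain ⟨a1, a2, a3, a4⟩ := cel_bd i h1 h2
    obtain ⟨W, b1, b2⟩ := h _ _ a1 a2 a3 a4 hw
    exact k W b2 n h1 h2 b1
  have r : ∀ {b Y Z}, (b = 0 ∨ b = 2) → (∀ W, GU W X Xn → Ar W b Y Z) → Ar W' b Y Z :=
    fun {b Y Z} hb k n h1 h2 hw => by
      obtain ⟨W, b1, b2⟩ := h _ _ (by omega) (by omega) (by omega) (by omega) hw
      exact k W b2 n h1 h2 b1
  refine ⟨fun g hw => ?_, fun j i hi => l fun _ k => k.2.1 j i hi, l fun _ k => k.2.2.1,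
    l fun _ k => k.2.2.2.1, r (by simp) fun _ k => k.2.2.2.2.1, r (by simp) fun _ k => k.2.2.2.2.2⟩
  obtain ⟨a1, a2, a3, a4⟩ := cen_bd g
  obtain ⟨W, b1, b2⟩ := h _ _ (by omega) (by omega) (by omega) (by omega) hw
  exact b2.1 g b1

theorem zi_data (b : Bool) : (∀ m : Fin 4, m.val % 2 = 0 → (stp (zi b m)).a = 0 ∧ (stp (zi b m)).s = 0 ∧
    (stp (zi b m)).lo = 6 ∧ (stp (zi b m)).hi = 8) ∧ (stp (zi b 0)).zs = (6, 8, 1, 1) ∧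
    (stp (zi b 2)).zs = (stp (zi b 1)).zt ∧ (stp (zi b 3)).zt = (6, 8, 1, 1) ∧ (stp (zi b 1)).b = 0 ∧
    (stp (zi b 3)).b = 0 ∧ Int' (zi b 0) (zi b 1) ∧ Int' (zi b 2) (zi b 3) := by
  cases b <;> decide

theorem GC.imp {W' : ℤ → ℤ → Prop} {X : Gd → Prop} {o : Op}
    (h : ∀ α β, 0 ≤ α → α ≤ 1 → 6 ≤ β → β ≤ 7 → W' α β → ∃ W, W α β ∧ GC W X o) : GC W' X o := by
  have l : ∀ {b m Y Z}, m.val % 2 = 0 → (∀ W, GC W X o → Lk W (zi b m) Y Z) → Lk W' (zi b m) Y Z :=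
    fun {b m Y Z} hm k n h1 h2 hw => by
      obtain ⟨a1, a2, a3, a4⟩ := (zi_data b).1 m hm
      obtain ⟨W, b1, b2⟩ := h _ _ (by simp [cel, a1, a2]; split_ifs <;> omega)
        (by simp [cel, a1, a2]; split_ifs <;> omega)
        (by simp [cel, a1, a2]; split_ifs <;> omega) (by simp [cel, a1, a2]; split_ifs <;> omega) hw
      exact k W b2 n h1 h2 b1
  have r : ∀ {Y Z}, (∀ W, GC W X o → Ar W 0 Y Z) → Ar W' 0 Y Z := fun {Y Z} k n h1 h2 hw => by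
    obtain ⟨W, b1, b2⟩ := h _ _ (by omega) (by omega) (by omega) (by omega) hw
    exact k W b2 n h1 h2 b1
  rcases o with t | ⟨d, b⟩
  · refine ⟨fun d => r fun _ k => k.1 d, fun ht hw => ?_⟩
    obtain ⟨W, b1, b2⟩ := h _ _ (by omega) (by omega) (by omega) (by omega) hw
    exact b2.2 ht b1
  · refine ⟨l rfl fun _ k => k.1, r fun _ k => k.2.1, l rfl fun _ k => k.2.2.1,
      r fun _ k => k.2.2.2.1, ?_⟩
    cases b <;> intro hw <;> obtain ⟨W, b1, b2⟩ := h _ _ (by omega) (by omega) (by omega) (by omega) hw <;>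
      exact b2.2.2.2.2 b1

/-- The map that pushes the bit `b`. -/
noncomputable def uu (b : Bool) (v : ℝ) : ℝ := (stp (zi b 1)).zt.ev v

theorem ev_id (v : ℝ) : Mob.ev (6, 8, 1, 1) v = v := by
  simp only [Mob.ev]; push_cast; rw [div_eq_iff (by norm_num)]; ring

theorem ev_id2 (v : ℝ) : Mob.ev (8, 10, 1, 1) v = 2 + v := by
  simp only [Mob.ev]; push_cast; rw [div_eq_iff (by norm_num)]; ring

theorem uu_lt (b : Bool) {v w : ℝ} (hv : v ∈ Icc (6 : ℝ) 8) (hw : w ∈ Icc (6 : ℝ) 8) (h : v < w) :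
    uu b v < uu b w := by
  obtain ⟨c, h1, h2⟩ := ev_sub (good (zi b 1)).1.2.1 hv hw
  have : (0 : ℝ) < ((stp (zi b 1)).zt.2.1 * (stp (zi b 1)).zt.2.2.1 -
      (stp (zi b 1)).zt.1 * (stp (zi b 1)).zt.2.2.2 : ℤ) := by
    exact_mod_cast (by cases b <;> decide)
  have := mul_pos (mul_pos h1 (sub_pos.2 h)) this
  unfold uu; linarith

theorem uu_bd (b : Bool) {v : ℝ} (hv : v ∈ Icc (6 : ℝ) 8) :
    if b then 7 < uu b v ∧ uu b v ≤ 8 else 6 ≤ uu b v ∧ uu b v < 7 := by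
  have hp := (good (zi b 1)).1.2.1
  have a1 : ∀ c : ℤ, (k c).Le (stp (zi b 1)).zt → c ≤ uu b v := fun c h => by
    simpa only [ev_k, uu] using h.le (pos_k c) hp hv
  have a2 : ∀ M : Mob, M.Pos → (stp (zi b 1)).zt.Le M → uu b v ≤ M.ev v := fun M h h' => h'.le hp h hv
  have a3 : ∀ M : Mob, M.Pos → M.Le (stp (zi b 1)).zt → M.ev v ≤ uu b v := fun M h h' => h'.le h hp hv
  cases b
  · have b1 := a1 6 (by decide)
    have b2 := a2 (27, 27, 4, 4) (by decide) (by decide)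
    rw [Mob.ev, le_div_iff₀ (den_pos (by decide) hv)] at b2
    push_cast at b1 b2
    exact ⟨b1, by nlinarith⟩
  · have b1 := a2 (k 8) (pos_k 8) (by decide)
    have b2 := a3 (29, 29, 4, 4) (by decide) (by decide)
    rw [Mob.ev, div_le_iff₀ (den_pos (by decide) hv)] at b2
    rw [ev_k] at b1
    push_cast at b1 b2
    exact ⟨by nlinarith, b1⟩

theorem uu_Icc (b : Bool) {v : ℝ} (hv : v ∈ Icc (6 : ℝ) 8) : uu b v ∈ Icc (6 : ℝ) 8 := by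
  have := uu_bd b hv
  cases b <;> constructor <;> linarith [this.1, this.2]

theorem uu_Ioo (b : Bool) {v : ℝ} (hv : v ∈ Ioo (6 : ℝ) 8) : uu b v ∈ Ioo (6 : ℝ) 8 :=
  ⟨(uu_Icc b (by norm_num)).1.trans_lt (uu_lt b (by norm_num) (Ioo_subset_Icc_self hv) hv.1),
    (uu_lt b (Ioo_subset_Icc_self hv) (by norm_num) hv.2).trans_le (uu_Icc b (by norm_num)).2⟩

end Pool.Agent.Lib.MP_79902f_lc
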