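import Pool.Agent.Lib.MP_79902f_lc.Model

/-!
Chords, free lines through lattice points, and Moebius functions on the interval from six to eight.
-/

namespace Pool.Agent.Lib.MP_79902f_lc

open Set

/-- The crossing of two tangent lines, in index coordinates. -/
noncomputable def cq (p q : ℝ) : ℝ × ℝ := cr (2 * p + 1) (2 * q + 1)

/-- Strictly below the line with slope parameter `τ` through the point `cq p q`. -/
def BeL (τ p q : ℝ) (z : ℝ × ℝ) : Prop := z.2 < lin (2 * τ + 1) z.1 - 4 * ((p - τ) * (q - τ))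

/-- The set contains the limit parabola in its interior. -/
def Deep (X : Set (ℝ × ℝ)) (lo hi : ℝ) : Prop := ∀ x, lo ≤ x → x ≤ hi → (x, -x ^ 2) ∈ interior X

theorem cq_comm (p q : ℝ) : cq p q = cq q p := by
  ext <;> simp only [cq, cr] <;> ring

theorem cq_fst (p q : ℝ) : (cq p q).1 = p + q + 1 := by simp only [cq, cr]; ring

theorem cq_closure {α β : ℤ} (h : α ≤ β) {p q : ℝ} (h1 : α - 1 ≤ p) (h2 : p ≤ α) (h3 : β ≤ q)
    (h4 : q ≤ β + 1) : cq p q ∈ closure (OC α β) :=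
  cr_mem_closure h (by linarith) (by linarith) (by linarith) (by linarith)

theorem vert {X : Set (ℝ × ℝ)} (hX : Convex ℝ X) {lo hi : ℝ} (hD : Deep X lo hi) {z : ℝ × ℝ}
    (h1 : lo ≤ z.1) (h2 : z.1 ≤ hi) (h3 : 0 < ht z) {y : ℝ} (h4 : (z.1, y) ∈ closure X)
    (h5 : z.2 < y) : z ∈ interior X := by
  unfold ht at h3
  have hy : 0 < y + z.1 ^ 2 := by linarith
  refine hX.openSegment_interior_closure_subset_interior (hD _ h1 h2) h4
    ⟨(y - z.2) / (y + z.1 ^ 2), (z.2 + z.1 ^ 2) / (y + z.1 ^ 2), div_pos (by linarith) hy,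
      div_pos h3 hy, by field_simp; ring, ?_⟩
  ext
  · simp only [Prod.fst_add, Prod.smul_fst, smul_eq_mul]; field_simp; ring
  · simp only [Prod.snd_add, Prod.smul_snd, smul_eq_mul]; field_simp; ring

theorem chord {X : Set (ℝ × ℝ)} (hX : Convex ℝ X) {a b u p x : ℝ} (hU : (u, a * u + b) ∈ X)
    (hP : (p, a * p + b) ∈ X) (h1 : u ≤ x) (h2 : x ≤ p) : (x, a * x + b) ∈ X := by
  rcases (h1.trans h2).eq_or_lt with rfl | h
  · rwa [le_antisymm h2 h1]
  have h0 : 0 < p - u := by linarith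
  convert hX hU hP (a := (p - x) / (p - u)) (b := (x - u) / (p - u))
    (div_nonneg (by linarith) h0.le) (div_nonneg (by linarith) h0.le) (by field_simp; ring) using 1
  ext
  · simp only [Prod.fst_add, Prod.smul_fst, smul_eq_mul]; field_simp; ring
  · simp only [Prod.snd_add, Prod.smul_snd, smul_eq_mul]; field_simp; ring

/-- A point below the chord between two points of the closure lies in the interior. -/
theorem below {X : Set (ℝ × ℝ)} (hX : Convex ℝ X) {lo hi : ℝ} (hD : Deep X lo hi)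
    {a ζ p q τ b w : ℝ} (hS : cq a ζ ∈ closure X) (hO : cq p q ∈ closure X)
    (e : (a - τ) * (ζ - τ) = (p - τ) * (q - τ))
    (hb : (a + ζ ≤ b + w ∧ b + w ≤ p + q) ∨ (p + q ≤ b + w ∧ b + w ≤ a + ζ))
    (hl : (p - τ) * (q - τ) < (b - τ) * (w - τ)) (h1 : lo ≤ b + w + 1) (h2 : b + w + 1 ≤ hi) :
    cq b w ∈ interior X := by
  have on : ∀ r s : ℝ, (r - τ) * (s - τ) = (p - τ) * (q - τ) → cq r s = (r + s + 1,
      -2 * (2 * τ + 1) * (r + s + 1) + ((2 * τ + 1) ^ 2 + 35 - 4 * ((p - τ) * (q - τ)))) := by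
    intro r s h
    ext
    · exact cq_fst r s
    · simp only [cq, cr]; linarith
  rw [on _ _ e] at hS
  rw [on _ _ rfl] at hO
  refine vert hX hD (by rwa [cq_fst]) (by rwa [cq_fst]) (by simp only [ht, cq, cr]; nlinarith [sq_nonneg (b - w)])
    (y := -2 * (2 * τ + 1) * (b + w + 1) + ((2 * τ + 1) ^ 2 + 35 - 4 * ((p - τ) * (q - τ)))) ?_
    (by simp only [cq, cr]; linarith)
  rw [cq_fst]
  rcases hb with h | h
  · exact chord hX.closure hS hO (by linarith [h.1]) (by linarith [h.2])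
  · exact chord hX.closure hO hS (by linarith [h.1]) (by linarith [h.2])

/-- The region under the tent spanned by a point of height `144`. -/
theorem tent {X : Set (ℝ × ℝ)} (hX : Convex ℝ X) {lo hi : ℝ} (hD : Deep X lo hi) {m : ℝ}
    (hM : (m, 144 - m ^ 2) ∈ X) (h1 : lo ≤ m - 12) (h2 : m + 12 ≤ hi) {z : ℝ × ℝ} (h3 : 0 < ht z)
    (h4 : m - 12 < z.1) (h5 : z.1 < m + 12) (h6 : ht z < (z.1 - (m - 12)) ^ 2)
    (h7 : ht z < (z.1 - (m + 12)) ^ 2) : z ∈ interior X := by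
  have hM' := subset_closure hM
  have cl : ∀ x, lo ≤ x → x ≤ hi → (x, -x ^ 2) ∈ closure X := fun x a b =>
    subset_closure (interior_subset (hD x a b))
  unfold ht at h6 h7
  rcases le_total z.1 m with h | h
  · refine vert hX hD (by linarith) (by linarith) h3
      (y := -2 * (m - 12) * z.1 + (m - 12) ^ 2) (chord hX.closure (u := m - 12) (p := m) ?_ ?_ h4.le h)
      (by linarith)
    · convert cl (m - 12) h1 (by linarith) using 2; ring
    · convert hM' using 2; ring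
  · refine vert hX hD (by linarith) (by linarith) h3
      (y := -2 * (m + 12) * z.1 + (m + 12) ^ 2) (chord hX.closure (u := m) (p := m + 12) ?_ ?_ h h5.le)
      (by linarith)
    · convert hM' using 2; ring
    · convert cl (m + 12) (by linarith) h2 using 2; ring

theorem pass {X Y K : Set (ℝ × ℝ)} {z : ℝ × ℝ} (h1 : z ∈ interior X) (h2 : z ∈ closure K)
    (h : ∀ w ∈ K, w ∈ X → w ∈ Y) : z ∈ closure Y :=
  closure_mono (fun w hw => h w hw.2 (interior_subset hw.1)) (isOpen_interior.inter_closure ⟨h1, h2⟩)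

theorem convex_BeL (τ p q : ℝ) (t : ℕ) : Convex ℝ {z | BeL τ p q (sc t z)} := by
  intro z hz z' hz' a b ha hb hab
  simp only [mem_ofPred_eq, BeL, lin, sc, Prod.fst_add, Prod.snd_add, Prod.smul_fst, Prod.smul_snd,
    smul_eq_mul] at *
  have := hz.le
  rcases ha.eq_or_lt with rfl | ha'
  · obtain rfl : b = 1 := by linarith
    simpa using hz'
  · have k1 := mul_lt_mul_of_pos_left hz ha'
    have k2 := mul_le_mul_of_nonneg_left hz'.le hb
    obtain rfl : b = 1 - a := by linarith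
    nlinarith

theorem BeL.center {p q : ℤ} {τ : ℝ} {z : ℝ × ℝ} (h1 : Bel p z) (h2 : Bel q z) (h3 : p ≤ τ)
    (h4 : τ ≤ q) : BeL τ p q z := by
  unfold Bel lin at h1 h2
  unfold BeL lin
  rcases h3.eq_or_lt with rfl | h3'
  · linarith
  have k1 := mul_le_mul_of_nonneg_left h1.le (sub_nonneg.2 h4)
  have k2 := mul_lt_mul_of_pos_left h2 (sub_pos.2 h3')
  have : (0 : ℝ) < q - p := by linarith
  by_contra hc
  have k3 := mul_le_mul_of_nonneg_left (not_lt.1 hc) this.le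
  nlinarith

theorem BeL.far {α β : ℤ} {τ p q : ℝ} {z : ℝ × ℝ} (h : HC α β z) (h3 : p ≤ τ) (h4 : τ ≤ q)
    (h5 : τ ≤ α - 1 ∨ β + 1 ≤ τ) : BeL τ p q z := by
  obtain ⟨a1, a2, a3, a4⟩ := h
  rw [bel_iff] at a1 a2 a3 a4
  push_cast at a1 a4
  have k : (p - τ) * (q - τ) ≤ 0 := mul_nonpos_of_nonpos_of_nonneg (by linarith) (by linarith)
  have : ht z < 35 + (z.1 - (2 * τ + 1)) ^ 2 := by
    rcases h5 with h5 | h5
    · have : 2 * α < z.1 := by nlinarith
      nlinarith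
    · have : z.1 < 2 * β + 2 := by nlinarith
      nlinarith
  unfold BeL lin
  unfold ht at this
  nlinarith

theorem BeL.of_lt {τ p q : ℝ} {z : ℝ × ℝ} (h : ht z < 35) (h3 : p ≤ τ) (h4 : τ ≤ q) :
    BeL τ p q z := by
  have k : (p - τ) * (q - τ) ≤ 0 := mul_nonpos_of_nonpos_of_nonneg (by linarith) (by linarith)
  unfold BeL lin
  unfold ht at h
  nlinarith [sq_nonneg (z.1 - (2 * τ + 1))]

/-- Two lines through the same point of the lattice line `a`. -/
theorem BeL.wedge {a : ℤ} {ζ τ τ' p q p' q' : ℝ} {z : ℝ × ℝ}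
    (e : (a - τ) * (ζ - τ) = (p - τ) * (q - τ)) (e' : (a - τ') * (ζ - τ') = (p' - τ') * (q' - τ'))
    (h : BeL τ p q z) (hs : (Bel a z ∧ ((a < τ' ∧ τ' ≤ τ) ∨ (τ ≤ τ' ∧ τ' < a))) ∨
      (¬ Bel a z ∧ ((a < τ ∧ τ ≤ τ') ∨ (τ' ≤ τ ∧ τ < a)))) : BeL τ' p' q' z := by
  unfold BeL at *
  rw [← e] at h
  rw [← e']
  unfold Bel at hs
  set F := lin (2 * a + 1) z.1 - z.2 with hF
  set s := 4 * (a + ζ + 1 - z.1) with hs'
  have k : ∀ t : ℝ, lin (2 * t + 1) z.1 - 4 * ((a - t) * (ζ - t)) - z.2 = F + (t - a) * s := by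
    intro t; simp only [hF, hs', lin]; ring
  have k1 := k τ
  have k2 := k τ'
  rcases hs with ⟨h0, ⟨h1, h2⟩ | ⟨h1, h2⟩⟩ | ⟨h0, ⟨h1, h2⟩ | ⟨h1, h2⟩⟩
  · rcases le_total 0 s with c | c <;> nlinarith
  · rcases le_total 0 s with c | c <;> nlinarith
  · have : 0 ≤ s := by by_contra c; nlinarith
    nlinarith
  · have : s ≤ 0 := by by_contra c; nlinarith
    nlinarith

/-- Moebius functions, given by numerators and denominators at the two end points. -/
abbrev Mob : Type := ℤ × ℤ × ℤ × ℤ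

namespace Mob

/-- The value at `v`. -/
noncomputable def ev (M : Mob) (v : ℝ) : ℝ :=
  (M.1 * (8 - v) + M.2.1 * (v - 6)) / (M.2.2.1 * (8 - v) + M.2.2.2 * (v - 6))

/-- The constant function. -/
def k (c : ℤ) : Mob := (c, c, 1, 1)

/-- Adding a constant. -/
def ad (M : Mob) (c : ℤ) : Mob := (M.1 + c * M.2.2.1, M.2.1 + c * M.2.2.2, M.2.2.1, M.2.2.2)

/-- Positive denominators. -/
def Pos (M : Mob) : Prop := 0 < M.2.2.1 ∧ 0 < M.2.2.2

/-- A test for `M ≤ N`. -/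
def Le (M N : Mob) : Prop := M.1 * N.2.2.1 ≤ N.1 * M.2.2.1 ∧ M.2.1 * N.2.2.2 ≤ N.2.1 * M.2.2.2 ∧
  M.1 * N.2.2.2 + M.2.1 * N.2.2.1 ≤ N.1 * M.2.2.2 + N.2.1 * M.2.2.1

/-- A test for `M < N`. -/
def Lt (M N : Mob) : Prop := Le M N ∧
  M.1 * N.2.2.2 + M.2.1 * N.2.2.1 < N.1 * M.2.2.2 + N.2.1 * M.2.2.1

/-- A test for the incidence of the point `cq a M` with the line `T` through `cq p q`. -/
def Inc (a p q : ℤ) (M T : Mob) : Prop :=
  T.1 * ((a - p - q) * M.2.2.1 + M.1) = T.2.2.1 * (a * M.1 - p * q * M.2.2.1) ∧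
  T.2.1 * ((a - p - q) * M.2.2.2 + M.2.1) = T.2.2.2 * (a * M.2.1 - p * q * M.2.2.2) ∧
  T.1 * ((a - p - q) * M.2.2.2 + M.2.1) + T.2.1 * ((a - p - q) * M.2.2.1 + M.1) =
    T.2.2.1 * (a * M.2.1 - p * q * M.2.2.2) + T.2.2.2 * (a * M.1 - p * q * M.2.2.1)

instance (M : Mob) : Decidable M.Pos := by unfold Pos; infer_instance
instance (M N : Mob) : Decidable (M.Le N) := by unfold Le; infer_instance
instance (M N : Mob) : Decidable (M.Lt N) := by unfold Lt; infer_instance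
instance (a p q : ℤ) (M N : Mob) : Decidable (Inc a p q M N) := by unfold Inc; infer_instance

variable {M N : Mob} {v : ℝ}

theorem den_pos (h : M.Pos) (hv : v ∈ Icc (6 : ℝ) 8) :
    (0 : ℝ) < M.2.2.1 * (8 - v) + M.2.2.2 * (v - 6) := by
  have h1 : (1 : ℝ) ≤ M.2.2.1 := by exact_mod_cast h.1
  have h2 : (1 : ℝ) ≤ M.2.2.2 := by exact_mod_cast h.2
  nlinarith [hv.1, hv.2]

theorem ev_k (c : ℤ) (v : ℝ) : (k c).ev v = c := by
  simp only [ev, k]; push_cast; rw [div_eq_iff (by norm_num)]; ring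

theorem pos_k (c : ℤ) : (k c).Pos := ⟨one_pos, one_pos⟩

theorem ev_ad (h : M.Pos) (hv : v ∈ Icc (6 : ℝ) 8) (c : ℤ) : (M.ad c).ev v = M.ev v + c := by
  have := den_pos h hv
  simp only [ev, ad]; push_cast; field_simp; ring

theorem Le.le (h : M.Le N) (hM : M.Pos) (hN : N.Pos) (hv : v ∈ Icc (6 : ℝ) 8) : M.ev v ≤ N.ev v := by
  obtain ⟨h1, h2, h3⟩ := h
  have k1 := mul_le_mul_of_nonneg_right ((Int.cast_le (R := ℝ)).2 h1) (sq_nonneg (8 - v))
  have k2 := mul_le_mul_of_nonneg_right ((Int.cast_le (R := ℝ)).2 h2) (sq_nonneg (v - 6))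
  have k3 := mul_le_mul_of_nonneg_right ((Int.cast_le (R := ℝ)).2 h3)
    (mul_nonneg (sub_nonneg.2 hv.2) (sub_nonneg.2 hv.1))
  push_cast at k1 k2 k3
  rw [ev, ev, div_le_div_iff₀ (den_pos hM hv) (den_pos hN hv)]
  linarith

theorem Lt.lt (h : M.Lt N) (hM : M.Pos) (hN : N.Pos) (hv : v ∈ Ioo (6 : ℝ) 8) : M.ev v < N.ev v := by
  obtain ⟨⟨h1, h2, -⟩, h3⟩ := h
  have k1 := mul_le_mul_of_nonneg_right ((Int.cast_le (R := ℝ)).2 h1) (sq_nonneg (8 - v))
  have k2 := mul_le_mul_of_nonneg_right ((Int.cast_le (R := ℝ)).2 h2) (sq_nonneg (v - 6))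
  have k3 := mul_lt_mul_of_pos_right ((Int.cast_lt (R := ℝ)).2 h3)
    (mul_pos (sub_pos.2 hv.2) (sub_pos.2 hv.1))
  push_cast at k1 k2 k3
  rw [ev, ev, div_lt_div_iff₀ (den_pos hM (Ioo_subset_Icc_self hv)) (den_pos hN (Ioo_subset_Icc_self hv))]
  linarith

theorem Inc.eq {a p q : ℤ} (h : Inc a p q M N) (hM : M.Pos) (hN : N.Pos) (hv : v ∈ Icc (6 : ℝ) 8) :
    (a - N.ev v) * (M.ev v - N.ev v) = (p - N.ev v) * (q - N.ev v) := by
  obtain ⟨h1, h2, h3⟩ := h
  have k1 := congrArg (Int.cast (R := ℝ)) h1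
  have k2 := congrArg (Int.cast (R := ℝ)) h2
  have k3 := congrArg (Int.cast (R := ℝ)) h3
  push_cast at k1 k2 k3
  have d1 := (den_pos hM hv).ne'
  have d2 := (den_pos hN hv).ne'
  have e1 : M.ev v * _ = _ := div_mul_cancel₀ _ d1
  have e2 : N.ev v * _ = _ := div_mul_cancel₀ _ d2
  have : N.ev v * (a + M.ev v - p - q) = a * M.ev v - p * q := by
    apply mul_left_cancel₀ (mul_ne_zero d1 d2)
    linear_combination (8 - v) ^ 2 * k1 + (v - 6) ^ 2 * k2 + (8 - v) * (v - 6) * k3 +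
      (a - p - q + M.ev v) * (M.2.2.1 * (8 - v) + M.2.2.2 * (v - 6)) * e2 +
      (N.1 * (8 - v) + N.2.1 * (v - 6) - a * (N.2.2.1 * (8 - v) + N.2.2.2 * (v - 6))) * e1
  linear_combination -this

theorem ev_sub (h : M.Pos) {v w : ℝ} (hv : v ∈ Icc (6 : ℝ) 8) (hw : w ∈ Icc (6 : ℝ) 8) :
    ∃ c : ℝ, 0 < c ∧ M.ev w - M.ev v = c * (w - v) * (M.2.1 * M.2.2.1 - M.1 * M.2.2.2 : ℤ) := by
  have d1 := den_pos h hv
  have d2 := den_pos h hw
  refine ⟨2 / ((M.2.2.1 * (8 - v) + M.2.2.2 * (v - 6)) * (M.2.2.1 * (8 - w) + M.2.2.2 * (w - 6))),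
    by positivity, ?_⟩
  rw [ev, ev, div_sub_div _ _ d2.ne' d1.ne', mul_assoc, div_mul_eq_mul_div]
  push_cast
  congr 1 <;> ring

theorem cont (h : M.Pos) (hv : v ∈ Icc (6 : ℝ) 8) : ContinuousAt M.ev v := by
  have d := (den_pos h hv).ne'
  unfold ev
  fun_prop (disch := exact d)

end Mob

end Pool.Agent.Lib.MP_79902f_lc
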