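import Pool.Agent.Lib.MP_79902f_lc.NGad

/-!
The register gadget works: every family of convex sets obeying the rules carries real values that
behave like a stack, and the intended lines obey the rules.
-/

namespace Pool.Agent.Lib.MP_79902f_lc

open Set Mob Filter Topology

/-- The set contains the points of the line `a` up to the value `y`. -/
def PR (X : Set (ℝ × ℝ)) (a : ℤ) (y : ℝ) : Prop := ∀ y', 6 < y' → y' < y → cq a (a + y') ∈ interior X

/-- The value carried by a register set. -/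
noncomputable def val (X : Set (ℝ × ℝ)) (a : ℤ) : ℝ := sSup {y | y ∈ Icc (6 : ℝ) 8 ∧ PR X a y}

theorem le_val {X : Set (ℝ × ℝ)} {a : ℤ} {y : ℝ} (h : y ∈ Icc (6 : ℝ) 8) (h' : PR X a y) : y ≤ val X a :=
  le_csSup ⟨8, fun _ h => h.1.2⟩ ⟨h, h'⟩

theorem val_mem (X : Set (ℝ × ℝ)) (a : ℤ) : val X a ∈ Icc (6 : ℝ) 8 :=
  ⟨le_val (by norm_num) fun _ h h' => absurd h h'.not_gt,
    csSup_le ⟨6, by norm_num, fun _ h h' => absurd h h'.not_gt⟩ fun _ h => h.1.2⟩

theorem val_PR (X : Set (ℝ × ℝ)) (a : ℤ) : PR X a (val X a) := fun y h1 h2 => by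
  obtain ⟨w, hw, h3⟩ := exists_lt_of_lt_csSup (s := {y | y ∈ Icc (6 : ℝ) 8 ∧ PR X a y})
    ⟨6, by norm_num, fun _ h h' => absurd h h'.not_gt⟩ h2
  exact hw.2 y h1 h3

/-- The relation between the values before and after pushing `b`. -/
def PRel (b : Bool) (v y : ℝ) : Prop := (6 < v → uu b v ≤ y) ∧
  (∀ v' ∈ Icc (6 : ℝ) 8, 6 < v' → uu b v' ≤ y → v' ≤ v) ∧ if b then 7 ≤ y else y ≤ 7

/-- The relation between the values before and after an operation. -/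
def OpRel : Op → ℝ → ℝ → Prop
  | .inl t, v, v' => v' = v ∧ (t → v ≤ 7)
  | .inr (d, b), v, v' => if d then PRel b v v' else PRel b v' v

section Sound

variable {a₀ : ℤ} {lo hi : ℝ} {X : Gd → Set (ℝ × ℝ)} {R : Set (ℝ × ℝ)}

/-- The cells around the station `a₀`. -/
abbrev WO (a₀ : ℤ) (z : ℝ × ℝ) (α β : ℤ) : Prop := z ∈ OC (a₀ + α) (a₀ + β)

theorem reg_le {a : ℤ} (hR : Convex ℝ R) (hD : Deep R lo hi) (hO : cq (a - 1) (a + 2) ∈ closure R)
    (h1 : lo ≤ 2 * a) (h2 : 2 * a + 9 ≤ hi) {y : ℝ} (hy : y ∈ Icc (6 : ℝ) 8)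
    (h : cq a (a + y) ∈ closure R) : y ≤ val R a := by
  refine le_val hy fun y' k1 k2 => ?_
  have hp : 0 < 2 / (y - 1) := div_pos two_pos (by linarith [hy.1])
  have e : 2 / (y - 1) * (y - 1) = 2 := div_mul_cancel₀ _ (by linarith [hy.1])
  exact below hR hD h hO (τ := a + 2 / (y - 1)) (by linarith) (Or.inr ⟨by linarith, by linarith⟩)
    (by nlinarith) (by linarith) (by linarith [hy.2])

theorem arrive {Y : Set (ℝ × ℝ)} {b : ℤ} (h : ∀ z, Ar (WO a₀ z) b (z ∈ Y) (z ∈ R)) {y : ℝ}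
    (hy : y ∈ Icc (6 : ℝ) 8) (hY : cq (a₀ + b : ℤ) ((a₀ + b : ℤ) + y) ∈ interior Y) :
    cq (a₀ + b : ℤ) ((a₀ + b : ℤ) + y) ∈ closure R := by
  rcases le_total y 7 with c | c
  · exact pass hY (cq_closure (α := a₀ + (b + 1)) (β := a₀ + (b + 6)) (by omega) (by push_cast; linarith)
      (by push_cast; linarith) (by push_cast; linarith [hy.1]) (by push_cast; linarith))
      fun w hw => h w 6 (by norm_num) (by norm_num) hw
  · exact pass hY (cq_closure (α := a₀ + (b + 1)) (β := a₀ + (b + 7)) (by omega) (by push_cast; linarith)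
      (by push_cast; linarith) (by push_cast; linarith) (by push_cast; linarith [hy.2]))
      fun w hw => h w 7 (by norm_num) (by norm_num) hw

theorem link {Y Z : Set (ℝ × ℝ)} {i : Fin 16} (h : ∀ z, Lk (WO a₀ z) i (z ∈ Y) (z ∈ Z)) {v : ℝ}
    (hv : v ∈ Icc (6 : ℝ) 8) (hY : cq (a₀ + (stp i).a) (a₀ + (stp i).zs.ev v) ∈ interior Y) :
    cq (a₀ + (stp i).a) (a₀ + (stp i).zs.ev v) ∈ closure Z := by
  obtain ⟨⟨p1, -⟩, -, -, -, -, ⟨a1, a2, a3, a4⟩, a5, -⟩ := good i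
  have b1 := a1.le (pos_k _) p1 hv
  have b2 := a2.le p1 (pos_k _) hv
  rw [ev_k] at b1 b2
  obtain ⟨n, n1, n2, n3, n4⟩ : ∃ n : ℤ, (stp i).lo ≤ n ∧ n < (stp i).hi ∧ n ≤ (stp i).zs.ev v ∧
      (stp i).zs.ev v ≤ n + 1 := by
    rcases b2.eq_or_lt with e | e
    · exact ⟨(stp i).hi - 1, by omega, by omega, by push_cast; linarith, by push_cast; linarith⟩
    · exact ⟨_, Int.le_floor.2 b1, Int.floor_lt.2 e, Int.floor_le _, (Int.lt_floor_add_one _).le⟩
  refine pass hY ?_ fun w hw => h w n n1 n2 hw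
  have hs : (0 : ℝ) ≤ (stp i).s ∧ ((stp i).s : ℝ) ≤ 1 := by rcases a4 with e | e <;> simp [e]
  unfold cel
  split_ifs with c
  · exact cq_closure (by dsimp only; omega) (by push_cast; linarith) (by push_cast; linarith)
      (by push_cast; linarith) (by push_cast; linarith)
  · rw [cq_comm]
    exact cq_closure (by dsimp only; omega) (by push_cast; linarith) (by push_cast; linarith)
      (by push_cast; linarith) (by push_cast; linarith)

theorem step {Z : Set (ℝ × ℝ)} (i : Fin 16) (hZ : Convex ℝ Z) (hD : Deep Z lo hi)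
    (h1 : lo ≤ 2 * a₀ - 20) (h2 : 2 * a₀ + 41 ≤ hi)
    (hO : cq (a₀ + (stp i).p) (a₀ + (stp i).q) ∈ closure Z) {v : ℝ} (hv : v ≤ 8)
    (h : ∀ w ∈ Ioo 6 v, cq (a₀ + (stp i).a) (a₀ + (stp i).zs.ev w) ∈ closure Z) :
    ∀ w ∈ Ioo 6 v, cq (a₀ + (stp i).b) (a₀ + (stp i).zt.ev w) ∈ interior Z := by
  obtain ⟨⟨p1, p2, p3⟩, ⟨i1, i2⟩, hb, hm, -, -, -, -, c1, c2⟩ := good i
  set S := stp i
  intro w hw
  have w1 : w ∈ Ioo (6 : ℝ) 8 := ⟨hw.1, hw.2.trans_le hv⟩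
  have w2 := Ioo_subset_Icc_self w1
  have d1 := c1.le (pos_k _) p2 w2
  have d2 := c2.le p2 (pos_k _) w2
  rw [ev_k, ev_ad p2 w2] at d1 d2
  push_cast at d1 d2
  have ct : Tendsto S.zs.ev (𝓝[>] w) (𝓝 (S.zs.ev w)) := (cont p1 w2).mono_left nhdsWithin_le_nhds
  obtain ⟨u, u1, u2⟩ : ∃ u ∈ Ioo w v, (S.a + S.zs.ev u ≤ S.b + S.zt.ev w ∧ S.b + S.zt.ev w ≤ S.p + S.q) ∨
      (S.p + S.q ≤ S.b + S.zt.ev w ∧ S.b + S.zt.ev w ≤ S.a + S.zs.ev u) := by
    rcases hb with ⟨e1, e2⟩ | ⟨e1, e2⟩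
    · have f1 := e1.lt p1 p2 w1
      have f2 := e2.le p2 (pos_k _) w2
      rw [ev_ad p1 w2, ev_ad p2 w2] at f1
      rw [ev_k, ev_ad p2 w2] at f2
      push_cast at f2
      obtain ⟨u, k1, k2⟩ := ((ct.eventually_lt_const (show _ < S.zt.ev w + S.b - S.a by linarith)).and
        (Ioo_mem_nhdsGT hw.2)).exists
      exact ⟨u, k2, Or.inl ⟨by linarith, by linarith⟩⟩
    · have f1 := e1.lt p2 p1 w1
      have f2 := e2.le (pos_k _) p2 w2
      rw [ev_ad p1 w2, ev_ad p2 w2] at f1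
      rw [ev_k, ev_ad p2 w2] at f2
      push_cast at f2
      obtain ⟨u, k1, k2⟩ := ((ct.eventually_const_lt (show S.zt.ev w + S.b - S.a < _ by linarith)).and
        (Ioo_mem_nhdsGT hw.2)).exists
      exact ⟨u, k2, Or.inr ⟨by linarith, by linarith⟩⟩
  have u3 : u ∈ Ioo (6 : ℝ) 8 := ⟨hw.1.trans u1.1, u1.2.trans_le hv⟩
  have u4 := Ioo_subset_Icc_self u3
  have e1 := i1.eq p1 p3 u4
  have e2 := i2.eq p2 p3 u4
  obtain ⟨c, c3, c4⟩ := ev_sub p2 w2 u4
  have c5 := mul_pos c3 (sub_pos.2 u1.1)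
  refine below hZ hD (h u ⟨u3.1, u1.2⟩) hO (τ := a₀ + S.ta.ev u) (by linarith) ?_ ?_ (by linarith)
    (by linarith)
  · rcases u2 with k | k
    exacts [Or.inl ⟨by linarith [k.1], by linarith [k.2]⟩, Or.inr ⟨by linarith [k.1], by linarith [k.2]⟩]
  · rcases hm with ⟨f1, f2⟩ | ⟨f1, f2⟩
    · have g1 := f1.lt (pos_k _) p3 u3
      have g2 := mul_pos c5 ((Int.cast_pos (R := ℝ)).2 (sub_pos.2 f2))
      rw [ev_k] at g1
      nlinarith
    · have g1 := f1.lt p3 (pos_k _) u3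
      have g2 := mul_neg_of_pos_of_neg c5 ((Int.cast_lt_zero (R := ℝ)).2 (sub_neg.2 f2))
      rw [ev_k] at g1
      nlinarith

variable (hX : ∀ g, Convex ℝ (X g)) (hD : ∀ g, Deep (X g) lo hi) (h1 : lo ≤ 2 * a₀ - 20)
  (h2 : 2 * a₀ + 41 ≤ hi) (hU : ∀ z, GU (WO a₀ z) (fun g => z ∈ X g) (z ∈ R))

include hU in
theorem center (g : Gd) : cq (a₀ + (cen g).1) (a₀ + (cen g).2) ∈ closure (X g) :=
  closure_mono (fun z hz => (hU z).1 g hz) (cq_closure (α := a₀ + ((cen g).1 + 1))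
    (β := a₀ + ((cen g).2 - 1)) (by have := cen_bd g; omega) (by push_cast; linarith)
    (by push_cast; linarith) (by push_cast; linarith) (by push_cast; linarith))

include hX hD h1 h2 hU

theorem next {j i : Fin 16} (hi : Int' j i) {v : ℝ} (hv : v ≤ 8)
    (h : ∀ w ∈ Ioo 6 v, cq (a₀ + (stp j).a) (a₀ + (stp j).zs.ev w) ∈ closure (X (.inr j))) :
    ∀ w ∈ Ioo 6 v, cq (a₀ + (stp i).a) (a₀ + (stp i).zs.ev w) ∈ closure (X (.inr i)) := fun w hw => by
  have := step j (hX _) (hD _) h1 h2 (center hU (.inr j)) hv h w hw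
  rw [(linked j i hi).1, (linked j i hi).2.1] at this
  exact link (fun z => (hU z).2.1 j i hi) ⟨hw.1.le, hw.2.le.trans hv⟩ this

omit hX hD h1 h2 hU in
theorem lim_le {φ : ℝ → ℝ} {v y : ℝ} (hc : ContinuousAt φ v) (hv : 6 < v)
    (h : ∀ w ∈ Ioo 6 v, φ w ≤ y) : φ v ≤ y :=
  le_of_tendsto (hc.mono_left (nhdsWithin_le_nhds (s := Iio v))) (mem_of_superset (Ioo_mem_nhdsLT hv) h)

omit hX hD h1 h2 hU in
theorem id_le {v y : ℝ} (hy : 6 ≤ y) (h : ∀ w ∈ Ioo 6 v, w ≤ y) : v ≤ y :=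
  (le_or_gt v 6).elim (fun c => c.trans hy) fun c => lim_le (φ := id) continuousAt_id c h

theorem own_le (d : Bool) {y : ℝ} (hy : y ∈ Icc (6 : ℝ) 8)
    (h : cq (a₀ + 0 : ℤ) ((a₀ + 0 : ℤ) + y) ∈ closure (X (.inl d))) : y ≤ val (X (.inl d)) a₀ :=
  reg_le (hX _) (hD _) (by simpa [cen, sub_eq_add_neg] using center hU (.inl d)) (by linarith)
    (by linarith) hy (by simpa using h)

theorem copy_val (hR : Convex ℝ R) (hDR : Deep R lo hi)
    (hO : cq ((a₀ + 2 : ℤ) - 1) ((a₀ + 2 : ℤ) + 2) ∈ closure R) :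
    val R (a₀ + 2) = val (X (.inl true)) a₀ := by
  have nx := fun {j i} hi {v} hv => next hX hD h1 h2 hU (j := j) (i := i) hi (v := v) hv
  apply le_antisymm
  · have hv := (val_mem R (a₀ + 2)).2
    refine id_le (val_mem _ _).1 fun w hw => ?_
    have w1 : w ∈ Icc (6 : ℝ) 8 := ⟨hw.1.le, hw.2.le.trans hv⟩
    refine own_le hX hD h1 h2 hU true w1 (arrive (fun z => (hU z).2.2.2.2.2) w1 ?_)
    have := step 7 (hX _) (hD _) h1 h2 (center hU (.inr 7)) hv (nx (j := 6) (by decide) hv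
      (nx (j := 5) (by decide) hv (nx (j := 4) (by decide) hv fun u hu =>
        link (fun z => (hU z).2.2.2.1) ⟨hu.1.le, hu.2.le.trans hv⟩ (by
          have := val_PR R (a₀ + 2) u hu.1 hu.2
          simpa [stp, ev_id2, add_assoc] using this)))) w hw
    simpa [stp, ev_id] using this
  · have hv := (val_mem (X (.inl true)) a₀).2
    refine id_le (val_mem _ _).1 fun w hw => ?_
    have w1 : w ∈ Icc (6 : ℝ) 8 := ⟨hw.1.le, hw.2.le.trans hv⟩
    refine reg_le hR hDR hO (by push_cast; linarith) (by push_cast; linarith) w1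
      (arrive (fun z => (hU z).2.2.2.2.1) w1 ?_)
    have := step 3 (hX _) (hD _) h1 h2 (center hU (.inr 3)) hv (nx (j := 2) (by decide) hv
      (nx (j := 1) (by decide) hv (nx (j := 0) (by decide) hv fun u hu =>
        link (fun z => (hU z).2.2.1) ⟨hu.1.le, hu.2.le.trans hv⟩ (by
          have := val_PR (X (.inl true)) a₀ u hu.1 hu.2
          simpa [stp, ev_id] using this)))) w hw
    simpa [stp, ev_id2, add_assoc] using this

omit hX hD h1 h2 hU in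
theorem val_le_seven {Y : Set (ℝ × ℝ)} (h : ∀ z, WO a₀ z 0 7 → z ∉ Y) : val Y a₀ ≤ 7 := by
  by_contra hc
  have h8 := (val_mem Y a₀).2
  have := pass (val_PR Y a₀ ((7 + val Y a₀) / 2) (by linarith) (by linarith))
    (cq_closure (α := a₀ + 0) (β := a₀ + 7) (by omega) (by push_cast; linarith) (by push_cast; linarith)
      (by push_cast; linarith) (by push_cast; linarith)) (Y := ∅) fun w hw hw' => h w hw hw'
  simp at this

theorem op_val {o : Op} (hC : ∀ z, GC (WO a₀ z) (fun g => z ∈ X g) o) :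
    OpRel o (val (X (.inl false)) a₀) (val (X (.inl true)) a₀) := by
  have nx := fun {j i} hi {v} hv => next hX hD h1 h2 hU (j := j) (i := i) hi (v := v) hv
  rcases o with t | ⟨d, b⟩
  · have k : ∀ d, val (X (.inl d)) a₀ ≤ val (X (.inl !d)) a₀ := fun d =>
      id_le (val_mem _ _).1 fun w hw => by
        have w1 : w ∈ Icc (6 : ℝ) 8 := ⟨hw.1.le, hw.2.le.trans (val_mem _ _).2⟩
        exact own_le hX hD h1 h2 hU _ w1 (arrive (fun z => (hC z).1 d) w1
          (by simpa using val_PR _ a₀ w hw.1 hw.2))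
    exact ⟨le_antisymm (k true) (k false), fun ht => val_le_seven fun z => (hC z).2 ht⟩
  obtain ⟨z0, z1, z2, z3, z4, z5, z6, z7⟩ := zi_data b
  have key : PRel b (val (X (.inl !d)) a₀) (val (X (.inl d)) a₀) := by
    refine ⟨fun h6 => ?_, fun v hv h6 hy => ?_, ?_⟩
    · have hv := val_mem (X (.inl !d)) a₀
      refine lim_le (cont (good _).1.2.1 hv) h6 fun w hw => ?_
      have w1 := uu_Icc b ⟨hw.1.le, hw.2.le.trans hv.2⟩
      refine own_le hX hD h1 h2 hU d w1 (arrive (fun z => (hC z).2.1) w1 ?_)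
      have := step (zi b 1) (hX _) (hD _) h1 h2 (center hU (.inr _)) hv.2 (nx z6 hv.2 fun u hu =>
        link (fun z => (hC z).1) ⟨hu.1.le, hu.2.le.trans hv.2⟩ (by
          simpa [z1, (z0 0 rfl).1, ev_id] using val_PR _ a₀ u hu.1 hu.2)) w hw
      simpa [z4, uu] using this
    · refine id_le (val_mem _ _).1 fun w hw => ?_
      have w1 : w ∈ Icc (6 : ℝ) 8 := ⟨hw.1.le, hw.2.le.trans hv.2⟩
      refine own_le hX hD h1 h2 hU _ w1 (arrive (fun z => (hC z).2.2.2.1) w1 ?_)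
      have := step (zi b 3) (hX _) (hD _) h1 h2 (center hU (.inr _)) hv.2 (nx z7 hv.2 fun u hu =>
        link (fun z => (hC z).2.2.1) ⟨hu.1.le, hu.2.le.trans hv.2⟩ (by
          have u1 : u ∈ Ioo (6 : ℝ) 8 := ⟨hu.1, hu.2.trans_le hv.2⟩
          simpa [z2, (z0 2 rfl).1, uu] using val_PR _ a₀ (uu b u) (uu_Ioo b u1).1
            ((uu_lt b (Ioo_subset_Icc_self u1) hv hu.2).trans_le hy))) w hw
      simpa [z3, z5, ev_id] using this
    · cases b
      · exact val_le_seven fun z => (hC z).2.2.2.2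
      · exact own_le hX hD h1 h2 hU d (by norm_num) (closure_mono (fun z hz => (hC z).2.2.2.2 hz)
          (cq_closure (α := a₀ + 1) (β := a₀ + 6) (by omega) (by push_cast; linarith)
            (by push_cast; linarith) (by push_cast; linarith) (by push_cast; linarith)))
  cases d <;> exact key

end Sound

theorem PRel.push {b : Bool} {v y : ℝ} (h : PRel b v y) (hv : v ∈ Ioo (6 : ℝ) 8) : y = uu b v := by
  refine le_antisymm (not_lt.1 fun hc => ?_) (h.1 hv.1)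
  obtain ⟨u, k1, k2⟩ := ((((cont (good (zi b 1)).1.2.1 (Ioo_subset_Icc_self hv)).mono_left
    (nhdsWithin_le_nhds (s := Ioi v))).eventually_lt_const hc).and (Ioo_mem_nhdsGT hv.2)).exists
  exact (h.2.1 u ⟨(hv.1.trans k2.1).le, k2.2.le⟩ (hv.1.trans k2.1) k1.le).not_gt k2.1

theorem PRel.pop {b b' : Bool} {v v' : ℝ} (h : PRel b v (uu b' v')) (hv : v ∈ Icc (6 : ℝ) 8)
    (hv' : v' ∈ Ioo (6 : ℝ) 8) : b = b' ∧ v = v' := by
  have h1 := uu_bd b' (Ioo_subset_Icc_self hv')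
  have h2 := h.2.2
  obtain rfl : b = b' := by
    cases b <;> cases b' <;> simp at h1 h2 ⊢ <;> linarith [h1.1, h1.2]
  have h3 := h.2.1 v' (Ioo_subset_Icc_self hv') hv'.1 le_rfl
  exact ⟨rfl, le_antisymm (not_lt.1 fun hc => (h.1 (hv'.1.trans hc)).not_gt
    (uu_lt b (Ioo_subset_Icc_self hv') hv hc)) h3⟩

theorem PRel.init {v y y' : ℝ} (h : PRel false v y) (h' : PRel true y y') (hy : y' ≤ 8) :
    y' ∈ Ioo (6 : ℝ) 8 := by
  have h1 : y ≤ 7 := h.2.2
  have h2 : 7 ≤ y' := h'.2.2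
  refine ⟨by linarith, lt_of_le_of_ne hy fun e => ?_⟩
  have := h'.2.1 8 (by norm_num) (by norm_num) (e ▸ (uu_Icc true (v := 8) (by norm_num)).2)
  linarith

/-- The intended line of the set `g` at the station `a` for the value `v`. -/
def Ln (g : Gd) (a : ℤ) (v : ℝ) (z : ℝ × ℝ) : Prop :=
  BeL (a + (tau g).ev v) (a + (cen g).1) (a + (cen g).2) z

theorem tauR {v : ℝ} (hv : v ∈ Ioo (6 : ℝ) 8) : 0 < Mob.ev (2, 2, 5, 7) v ∧ Mob.ev (2, 2, 5, 7) v < 1 / 2 ∧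
    Mob.ev (2, 2, 5, 7) v * (v - 1) = 2 := by
  have e : Mob.ev (2, 2, 5, 7) v = 2 / (v - 1) := by
    simp only [Mob.ev]; push_cast
    rw [div_eq_div_iff (by linarith [hv.1]) (by linarith [hv.1])]; ring
  rw [e]
  exact ⟨div_pos two_pos (by linarith [hv.1]), by rw [div_lt_iff₀ (by linarith [hv.1])]; linarith [hv.1],
    div_mul_cancel₀ _ (by linarith [hv.1])⟩

theorem tau_bd (g : Gd) {v : ℝ} (hv : v ∈ Ioo (6 : ℝ) 8) : (cen g).1 ≤ (tau g).ev v ∧
    (tau g).ev v ≤ (cen g).2 ∧ 0 ≤ (tau g).ev v ∧ (tau g).ev v ≤ 10 := by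
  rcases g with d | i
  · obtain ⟨a1, a2, -⟩ := tauR hv
    simp only [cen, tau, Sum.elim_inl]
    push_cast
    refine ⟨?_, ?_, ?_, ?_⟩ <;> linarith
  · obtain ⟨⟨-, -, p⟩, -, -, -, ⟨a1, a2, a3, a4⟩, -⟩ := good i
    have w := Ioo_subset_Icc_self hv
    simpa only [ev_k, Int.cast_zero, Int.cast_ofNat, cen, tau, Sum.elim_inr] using And.intro (a1.le (pos_k _) p w)
      (And.intro (a2.le p (pos_k _) w) (And.intro (a3.le (pos_k _) p w) (a4.le p (pos_k _) w)))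

section Lines

variable {a₀ : ℤ} {z : ℝ × ℝ}

/-- The half-open cells around the station `a₀`. -/
abbrev WH (a₀ : ℤ) (z : ℝ × ℝ) (α β : ℤ) : Prop := HC (a₀ + α) (a₀ + β) z

theorem half (b : ℤ) (v : ℝ) : (Mob.ad (1, 1, 2, 2) b).ev v = 1 / 2 + b := by
  simp only [Mob.ev, Mob.ad]; push_cast; rw [div_eq_iff (by linarith)]; ring

theorem ln_leave {i : Fin 16} (hi : i.val % 2 = 0 ∧ i ≠ 2 ∧ i ≠ 6) {d : Bool} {v y : ℝ}
    (hv : v ∈ Ioo (6 : ℝ) 8) (hy : y ∈ Ioo (6 : ℝ) 8) (e : (stp i).zs.ev v = (stp i).a + y) :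
    Lk (WH a₀ z) i (Ln (.inl d) (a₀ + (stp i).a) y z) (Ln (.inr i) a₀ v z) := by
  obtain ⟨⟨p1, -, p3⟩, ⟨i1, -⟩, -⟩ := good i
  obtain ⟨b1, b2, b3, b4⟩ := leaving i hi
  have w := Ioo_subset_Icc_self hv
  have c1 := i1.eq p1 p3 w
  have c2 := b4.le (by exact ⟨two_pos, two_pos⟩) p3 w
  obtain ⟨c3, c4, c5⟩ := tauR hy
  rw [half] at c2
  rw [e] at c1
  intro n n1 n2 hw h
  rw [cel, if_pos (by omega), b1, add_zero] at hw
  refine BeL.wedge (a := a₀ + (stp i).a) (ζ := a₀ + (stp i).a + y) ?_ ?_ h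
    (Or.inr ⟨hw.2.1, Or.inl ⟨?_, ?_⟩⟩) <;> simp only [tau, cen, Sum.elim_inl, Sum.elim_inr] <;>
    push_cast <;> linarith

theorem ln_arrive {i : Fin 16} (hi : i.val % 2 = 1 ∧ i ≠ 1 ∧ i ≠ 5) {d : Bool} {v y : ℝ}
    (hv : v ∈ Ioo (6 : ℝ) 8) (hy : y ∈ Ioo (6 : ℝ) 8) (e : (stp i).zt.ev v = (stp i).b + y) :
    Ar (WH a₀ z) (stp i).b (Ln (.inr i) a₀ v z) (Ln (.inl d) (a₀ + (stp i).b) y z) := by
  obtain ⟨⟨-, p2, p3⟩, ⟨-, i2⟩, -⟩ := good i
  have w := Ioo_subset_Icc_self hv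
  have c1 := i2.eq p2 p3 w
  have c2 := (arriving i hi).le (by exact ⟨two_pos, two_pos⟩) p3 w
  obtain ⟨c3, c4, c5⟩ := tauR hy
  rw [half] at c2
  rw [e] at c1
  intro n n1 n2 hw h
  refine BeL.wedge (a := a₀ + (stp i).b) (ζ := a₀ + (stp i).b + y) ?_ ?_ h
    (Or.inl ⟨by convert hw.1 using 1; ring, Or.inl ⟨?_, ?_⟩⟩) <;>
    simp only [tau, cen, Sum.elim_inl, Sum.elim_inr] <;> push_cast <;> linarith

theorem ln_link {j i : Fin 16} (hi : Int' j i) {v : ℝ} (hv : v ∈ Ioo (6 : ℝ) 8) :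
    Lk (WH a₀ z) i (Ln (.inr j) a₀ v z) (Ln (.inr i) a₀ v z) := by
  obtain ⟨⟨p1, -, p3⟩, ⟨i1, -⟩, -, -, -, -, a1, -⟩ := good i
  obtain ⟨⟨-, q2, q3⟩, ⟨-, i2⟩, -⟩ := good j
  obtain ⟨b1, b2, b3⟩ := linked j i hi
  have w := Ioo_subset_Icc_self hv
  have c1 := i1.eq p1 p3 w
  have c2 := i2.eq q2 q3 w
  rw [b1, b2] at c2
  intro n n1 n2 hw h
  refine BeL.wedge (a := a₀ + (stp i).a) (ζ := a₀ + (stp i).zs.ev v) ?_ ?_ h ?_
  · simp only [tau, cen, Sum.elim_inr]; push_cast; linarith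
  · simp only [tau, cen, Sum.elim_inr]; push_cast; linarith
  simp only [tau, Sum.elim_inr]
  push_cast
  rcases b3 with ⟨s, b3⟩ | ⟨s, b3⟩
  · refine Or.inl ⟨?_, ?_⟩
    · rw [cel, s] at hw
      split_ifs at hw
      · convert hw.1 using 1; ring
      · convert hw.2.2.2 using 1; ring
    · rcases b3 with ⟨k1, k2⟩ | ⟨k1, k2⟩
      · have := k1.lt (pos_k _) p3 hv
        rw [ev_k] at this
        exact Or.inl ⟨by linarith, by linarith [k2.le p3 q3 w]⟩
      · have := k2.lt p3 (pos_k _) hv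
        rw [ev_k] at this
        exact Or.inr ⟨by linarith [k1.le q3 p3 w], by linarith⟩
  · refine Or.inr ⟨?_, ?_⟩
    · rw [cel, s] at hw
      split_ifs at hw
      · simpa using hw.2.1
      · simpa using hw.2.2.1
    · rcases b3 with ⟨k1, k2⟩ | ⟨k1, k2⟩
      · have := k1.lt (pos_k _) q3 hv
        rw [ev_k] at this
        exact Or.inl ⟨by linarith, by linarith [k2.le q3 p3 w]⟩
      · have := k2.lt q3 (pos_k _) hv
        rw [ev_k] at this
        exact Or.inr ⟨by linarith [k1.le p3 q3 w], by linarith⟩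

theorem gu_line {w : Gd → ℝ} (hw : ∀ g, w g ∈ Ioo (6 : ℝ) 8)
    (h1 : ∀ i : Fin 16, i.val < 8 → w (.inr i) = w (.inl true))
    (h2 : ∀ j i, Int' j i → w (.inr i) = w (.inr j)) :
    GU (WH a₀ z) (fun g => Ln g a₀ (w g) z) (Ln (.inl false) (a₀ + 2) (w (.inl true)) z) := by
  refine ⟨fun g h => ?_, fun j i hi => ?_, ?_, ?_, ?_, ?_⟩
  · obtain ⟨a1, a2, -⟩ := tau_bd g (hw g)
    have := BeL.center (p := a₀ + (cen g).1) (q := a₀ + (cen g).2) (τ := a₀ + (tau g).ev (w g))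
      (z := z) (by convert h.1 using 1; ring) (by convert h.2.2.2 using 1; ring)
      (by push_cast; linarith) (by push_cast; linarith)
    simpa [Ln] using this
  · simp only [h2 j i hi]; exact ln_link hi (hw _)
  · simpa [stp] using ln_leave (i := 0) (d := true) (by decide) (hw (.inr 0)) (hw (.inl true))
      (by simp [stp, ev_id, h1])
  · exact ln_leave (i := 4) (d := false) (by decide) (hw (.inr 4)) (hw (.inl true))
      (by simp [stp, ev_id2, h1])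
  · exact ln_arrive (i := 3) (d := false) (by decide) (hw (.inr 3)) (hw (.inl true))
      (by simp [stp, ev_id2, h1])
  · simpa [stp] using ln_arrive (i := 7) (d := true) (by decide) (hw (.inr 7)) (hw (.inl true))
      (by simp [stp, ev_id, h1])

theorem ln_out {d : Bool} {y : ℝ} (hy : y ∈ Ioo (6 : ℝ) 8) (h7 : y < 7) (h : WH a₀ z 0 7) :
    ¬ Ln (.inl d) a₀ y z := by
  obtain ⟨c3, c4, c5⟩ := tauR hy
  obtain ⟨p, q, rfl, a1, a2, a3, a4⟩ := h.param (by omega)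
  simp only [Ln, BeL, tau, cen, Sum.elim_inl, lin, cr, not_lt]
  push_cast at a1 a2 a3 a4 ⊢
  have := mul_nonneg (sub_nonneg.2 a2) (show 0 ≤ q - (2 * a₀ + 2) by linarith)
  nlinarith

theorem ln_in {d : Bool} {y : ℝ} (hy : y ∈ Ioo (6 : ℝ) 8) (h7 : 7 < y) (h : WH a₀ z 1 6) :
    Ln (.inl d) a₀ y z := by
  obtain ⟨c3, c4, c5⟩ := tauR hy
  obtain ⟨p, q, rfl, a1, a2, a3, a4⟩ := h.param (by omega)
  simp only [Ln, BeL, tau, cen, Sum.elim_inl, lin, cr]
  push_cast at a1 a2 a3 a4 ⊢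
  have := mul_pos (show 0 < p - (2 * a₀ + 1) by linarith) (show 0 < q - (2 * a₀ + 2) by linarith)
  nlinarith

/-- The exact effect of an operation on the values. -/
def OpEx (w : Gd → ℝ) : Op → Prop
  | .inl t => w (.inl true) = w (.inl false) ∧ (t → w (.inl false) < 7)
  | .inr (d, b) => (∀ m, w (.inr (zi b m)) = w (.inl !d)) ∧ w (.inl d) = uu b (w (.inl !d))

theorem gc_line {w : Gd → ℝ} (hw : ∀ g, w g ∈ Ioo (6 : ℝ) 8) {o : Op} (h : OpEx w o) :
    GC (WH a₀ z) (fun g => Ln g a₀ (w g) z) o := by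
  rcases o with t | ⟨d, b⟩
  · refine ⟨fun d n _ _ _ k => ?_, fun ht => ln_out (hw _) (h.2 ht)⟩
    cases d
    · simpa [h.1, Ln, tau, cen] using k
    · simpa [h.1, Ln, tau, cen] using k
  obtain ⟨z0, z1, z2, z3, z4, z5, -⟩ := zi_data b
  obtain ⟨h1, h2⟩ := h
  refine ⟨?_, ?_, ?_, ?_, ?_⟩
  · simpa [(z0 0 rfl).1] using ln_leave (i := zi b 0) (d := !d) (by cases b <;> decide) (hw (.inr _))
      (hw (.inl !d)) (by simp [z1, (z0 0 rfl).1, ev_id, h1])
  · simpa [z4] using ln_arrive (i := zi b 1) (d := d) (by cases b <;> decide) (hw (.inr _))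
      (hw (.inl d)) (by simp [z4, h1, h2, uu])
  · simpa [(z0 2 rfl).1] using ln_leave (i := zi b 2) (d := d) (by cases b <;> decide) (hw (.inr _))
      (hw (.inl d)) (by simp [z2, (z0 2 rfl).1, h1, h2, uu])
  · simpa [z5] using ln_arrive (i := zi b 3) (d := !d) (by cases b <;> decide) (hw (.inr _))
      (hw (.inl !d)) (by simp [z3, z5, ev_id, h1])
  · have := uu_bd b (Ioo_subset_Icc_self (hw (.inl !d)))
    rw [← h2] at this
    cases b
    · exact ln_out (hw _) this.2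
    · exact ln_in (hw _) this.1

end Lines

end Pool.Agent.Lib.MP_79902f_lc
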