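import Pool.Agent.Lib.MP_79902f_lc.NReal
import Pool.Agent.Shared.PolyTime.SM

/-!
The system that guesses a witness, loads the input and runs a stack machine.
-/

namespace Pool.Agent.Lib.MP_79902f_lc

open Set Pool.Agent.Shared.PolyTime

/-- Operations on a stack: idle, push, and pop with a prescribed result. -/
abbrev LOp : Type := Option (Bool ⊕ Option Bool)

/-- The effect of an operation. -/
def LRel : LOp → List Bool → List Bool → Prop
  | none, l, l' => l' = l
  | some (.inl b), l, l' => l' = b :: l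
  | some (.inr o), l, l' => l.head? = o ∧ l' = l.tail

/-- The operations on the two registers of a stack. -/
def opR : LOp → Bool → Op
  | none, _ => .inl false
  | some (.inl b), f => .inr (true, f || b)
  | some (.inr none), f => .inl f
  | some (.inr (some b)), f => .inr (false, f || b)

/-- The contents of the two registers of a stack. -/
def rg (f : Bool) : List Bool → List Bool
  | [] => if f then [false] else []
  | b :: l => (f || b) :: rg f l

/-- A value encodes a list. -/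
def Enc (l : List Bool) (y : ℝ) : Prop := ∃ v ∈ Ioo (6 : ℝ) 8, y = l.foldr uu v

theorem Enc.push {l : List Bool} {y y' : ℝ} {b : Bool} (h : Enc l y) (h' : PRel b y y') :
    Enc (b :: l) y' := by
  obtain ⟨v, hv, rfl⟩ := h
  exact ⟨v, hv, h'.push (foldr_uu hv l)⟩

theorem Enc.pop {l : List Bool} {y y' : ℝ} {b b' : Bool} (h : Enc (b' :: l) y) (h' : PRel b y' y)
    (hy : y' ∈ Icc (6 : ℝ) 8) : b = b' ∧ Enc l y' := by
  obtain ⟨v, hv, rfl⟩ := h
  obtain ⟨a1, a2⟩ := PRel.pop h' hy (foldr_uu hv l)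
  exact ⟨a1, v, hv, a2⟩

theorem enc_step {o : LOp} {l : List Bool} {v v' : Bool → ℝ} (h : ∀ f, Enc (rg f l) (v f))
    (ho : ∀ f, OpRel (opR o f) (v f) (v' f)) (hv : ∀ f, v' f ∈ Icc (6 : ℝ) 8) :
    ∃ l', LRel o l l' ∧ ∀ f, Enc (rg f l') (v' f) := by
  rcases o with _ | b | _ | b
  · exact ⟨l, rfl, fun f => (ho f).1 ▸ h f⟩
  · exact ⟨_, rfl, fun f => (h f).push (ho f)⟩
  · rcases l with _ | ⟨c, l⟩
    · exact ⟨[], ⟨rfl, rfl⟩, fun f => (ho f).1 ▸ h f⟩
    · obtain ⟨u, hu, e⟩ := h true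
      have := (uu_bd true (Ioo_subset_Icc_self (foldr_uu hu (rg true l)))).1
      exact absurd (e.symm.trans_le ((ho true).2 rfl)) this.not_ge
  · rcases l with _ | ⟨c, l⟩
    · exact absurd ((h true).pop (ho true) (hv _)).1 (by simp)
    · obtain rfl : b = c := ((h false).pop (ho false) (hv _)).1
      exact ⟨l, ⟨rfl, rfl⟩, fun f => ((h f).pop (ho f) (hv _)).2⟩

theorem pre_step {o : LOp} {l l' s : List Bool} {f : Bool} (h : rg f l <+: s) (ho : LRel o l l') :
    ∃ s', OpL (opR o f) s s' ∧ rg f l' <+: s' := by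
  obtain ⟨t, rfl⟩ := h
  rcases o with _ | b | _ | b
  · exact ⟨_, ⟨rfl, by simp⟩, t, by rw [ho]⟩
  · exact ⟨_, rfl, t, by rw [ho]; rfl⟩
  · obtain rfl := List.head?_eq_none_iff.1 ho.1
    exact ⟨_, ⟨rfl, by rintro rfl; exact ⟨t, rfl⟩⟩, t, by rw [ho.2]; rfl⟩
  · obtain ⟨l₀, rfl⟩ := List.head?_eq_some_iff.1 ho.1
    exact ⟨_, rfl, t, by rw [ho.2]; rfl⟩

/-- Events. -/
inductive Ev : Type
  | nn : Ev
  | zz : Ev
  | ld (b : Bool) : Ev
  | go : Ev
  | fi : Ev

instance : Finite Ev := by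
  let f : Ev → Fin 5 × Bool
    | .nn => (0, false)
    | .zz => (1, false)
    | .ld b => (2, b)
    | .go => (3, false)
    | .fi => (4, false)
  refine Finite.of_injective f ?_
  intro i j h
  cases i <;> cases j <;> simp_all [f]

/-- Control states. -/
inductive Ct (Q : Type) : Type
  | pre : Ct Q
  | i0 : Ct Q
  | i1 : Ct Q
  | i2 : Ct Q
  | gs (b : Bool) : Ct Q
  | wt : Ct Q
  | run (q : Option Q) (g : Option Bool) : Ct Q
  | acc : Ct Q

instance {Q : Type} [Finite Q] : Finite (Ct Q) := by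
  let f : Ct Q → Fin 8 × Option Q × Option Bool
    | .pre => (0, none, none)
    | .i0 => (1, none, none)
    | .i1 => (2, none, none)
    | .i2 => (3, none, none)
    | .gs b => (4, none, some b)
    | .wt => (5, none, none)
    | .run q g => (6, q, g)
    | .acc => (7, none, none)
  refine Finite.of_injective f ?_
  intro i j h
  cases i <;> cases j <;> simp_all [f]

variable {K Q : Type} [DecidableEq K]

/-- The operation `o` on the stack `a` only. -/
def only (a : K) (o : Bool ⊕ Option Bool) (k : K) : LOp := if k = a then some o else none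

/-- The operation of an instruction, for a guessed result. -/
def iop : Instr K Q → Option Bool → K → LOp
  | .push k b _, _ => only k (.inl b)
  | .pop k _ _ _, g => only k (.inr g)

/-- The next state of an instruction, for a guessed result. -/
def inx : Instr K Q → Option Bool → Q
  | .push _ _ q, _ => q
  | .pop _ q _ _, none => q
  | .pop _ _ q _, some false => q
  | .pop _ _ _ q, some true => q

theorem only_push {a : K} {b : Bool} {S S' : Stk K} :
    (∀ k, LRel (only a (.inl b) k) (S k) (S' k)) ↔ S' = Function.update S a (b :: S a) := by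
  rw [funext_iff]
  refine forall_congr' fun k => ?_
  by_cases h : k = a
  · subst h; simp [only, LRel]
  · simp [only, LRel, h]

theorem only_pop {a : K} {g : Option Bool} {S S' : Stk K} :
    (∀ k, LRel (only a (.inr g) k) (S k) (S' k)) ↔
      (S a).head? = g ∧ S' = Function.update S a (S a).tail := by
  refine ⟨fun h => ⟨by simpa [only, LRel] using (show LRel (some (.inr g)) _ _ by
    simpa [only] using h a).1, funext fun k => ?_⟩, ?_⟩
  · have := h k
    by_cases e : k = a
    · subst e; simp only [only, if_true, LRel] at this; simp [this.2]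
    · simpa [only, LRel, e] using this
  · rintro ⟨rfl, rfl⟩ k
    by_cases e : k = a
    · subst e; simp [only, LRel]
    · simp [only, LRel, e]

theorem iop_sound {i : Instr K Q} {g : Option Bool} {S S' : Stk K}
    (h : ∀ k, LRel (iop i g k) (S k) (S' k)) : inx i g = i.next S ∧ S' = i.upd S := by
  cases i with
  | push k b q => exact ⟨rfl, only_push.1 h⟩
  | pop k q1 q2 q3 =>
    obtain ⟨rfl, h'⟩ := only_pop.1 h
    refine ⟨?_, h'⟩
    simp only [Instr.next]
    rcases S k with _ | ⟨_ | _, l⟩ <;> rfl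

theorem iop_ex (i : Instr K Q) (S : Stk K) : ∃ g, ∀ k, LRel (iop i g k) (S k) (i.upd S k) := by
  cases i with
  | push k b q => exact ⟨none, only_push.2 rfl⟩
  | pop k q1 q2 q3 => exact ⟨_, only_pop.2 ⟨rfl, rfl⟩⟩

variable (M : SM K) (a : K)

/-- The operations on the stacks. -/
def lop : Ev → Ct M.Q → K → LOp
  | _, .gs b => only a (.inl b)
  | .ld b, .wt => only a (.inl b)
  | _, .run (some q) g => iop (M.δ q) g
  | _, .run none _ => only a (.inr (some true))
  | _, _ => fun _ => none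

/-- The operations on the registers. -/
def rop (e : Ev) : Ct M.Q → K × Bool → Op
  | .i0, _ => .inr (true, false)
  | .i1, _ => .inr (true, true)
  | .i2, k => if k.2 then .inr (true, false) else .inl false
  | c, k => opR (lop M a e c k.1) k.2

/-- The transitions. -/
def Tr (e : Ev) (c' : Ct M.Q) : Ct M.Q → Prop
  | .pre => c' = .pre ∨ c' = .i0
  | .i0 => c' = .i1
  | .i1 => c' = .i2
  | .i2 => c' = .wt ∨ ∃ b, c' = .gs b
  | .gs _ => c' = .wt ∨ ∃ b, c' = .gs b
  | .wt => c' = .wt ∨ e = .go ∧ ∃ g, c' = .run M.start g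
  | .run (some q) g => ∃ g', c' = .run (inx (M.δ q) g) g'
  | .run none _ => c' = .acc
  | .acc => c' = .acc

/-- The labelling of the tree. -/
def dlt (e : Ev) : Ev → Bool → Ev
  | .zz, b => if b then e else .zz
  | σ, b => if b then .nn else σ

/-- The system. -/
def sys : Sys Ev (Ct M.Q) (K × Bool) where
  z0 := .zz
  n0 := .nn
  dl := dlt
  Nx x x' := ((x.1 = .zz → x.2 = .i0) ∧ (∀ b, x.1 = .ld b → x.2 = .wt) ∧ (x.1 = .fi → x.2 = .acc)) ∧
    Tr M x'.1 x'.2 x.2
  op x := rop M a x.1 x.2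

/-- The bits loaded before the time `i`. -/
def lded (A : ℕ → Ev) : ℕ → List Bool
  | 0 => []
  | i + 1 => match A i with
    | .ld b => b :: lded A i
    | _ => lded A i

theorem lded_succ {A : ℕ → Ev} {i : ℕ} (h : ∀ b, A i ≠ .ld b) : lded A (i + 1) = lded A i := by
  unfold lded
  split
  · exact absurd ‹_› (h _)
  · cases i <;> rfl

theorem lop_wt (A : ℕ → Ev) (i : ℕ) (u : List Bool) (S' : Stk K) :
    (∀ k, LRel (lop M a (A i) .wt k) (single a (lded A i ++ u) k) (S' k)) ↔
      S' = single a (lded A (i + 1) ++ u) := by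
  by_cases h : ∃ b, A i = .ld b
  · obtain ⟨b, h⟩ := h
    simp only [h, lop, only_push, lded]
    simp [single]
  · rw [lded_succ fun b e => h ⟨b, e⟩, funext_iff]
    cases e : A i <;> first | exact Iff.rfl | exact absurd ⟨_, e⟩ h

theorem mach_sound {A : ℕ → Ev} {N : ℕ} {y : List Bool} (h0 : A 0 = .zz)
    (hg : ∀ i, A i = .go → lded A i = y) (hf : A N = .fi) {c : ℕ → Ct M.Q} {v : ℕ → K × Bool → ℝ}
    (hv : ∀ i k, v i k ∈ Icc (6 : ℝ) 8)
    (h : ∀ i ≤ N, (sys M a).Nx (A i, c i) (A (i + 1), c (i + 1)) ∧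
      ∀ k, OpRel (rop M a (A i) (c i) k) (v i k) (v (i + 1) k)) :
    ∃ u t S, M.step^[t] (M.start, single a (y ++ u)) = (none, S) ∧ (S a).head? = some true := by
  let R : Stk K → (K × Bool → ℝ) → Prop := fun S v => ∀ k f, Enc (rg f (S k)) (v (k, f))
  let I : ℕ → Ct M.Q → Prop := fun i c => match c with
    | .pre => False
    | .i0 => lded A i = []
    | .i1 => lded A i = [] ∧ ∀ k, ∃ w, PRel false w (v i k)
    | .i2 => lded A i = [] ∧ ∀ k, v i k ∈ Ioo (6 : ℝ) 8
    | .gs _ => lded A i = [] ∧ ∃ u, R (single a u) (v i)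
    | .wt => ∃ u, R (single a (lded A i ++ u)) (v i)
    | .run q _ => ∃ u t S, R S (v i) ∧ M.step^[t] (M.start, single a (y ++ u)) = (q, S)
    | .acc => ∃ u t S, M.step^[t] (M.start, single a (y ++ u)) = (none, S) ∧ (S a).head? = some true
  have key : ∀ i ≤ N, I i (c i) := by
    intro i
    induction i with
    | zero => intro _; rw [show c 0 = .i0 from (h 0 (by omega)).1.1.1 h0]; rfl
    | succ i ih =>
      intro hi
      replace ih := ih (by omega)
      obtain ⟨⟨⟨-, h1, -⟩, h2⟩, h3⟩ := h i (by omega)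
      dsimp only at h1 h2
      have st : ∀ S, R S (v i) → (∀ k, rop M a (A i) (c i) k = opR (lop M a (A i) (c i) k.1) k.2) →
          ∃ S', (∀ k, LRel (lop M a (A i) (c i) k) (S k) (S' k)) ∧ R S' (v (i + 1)) := by
        intro S hS e
        choose S' a1 a2 using fun k => enc_step (hS k) (fun f => e (k, f) ▸ h3 (k, f)) fun f => hv _ _
        exact ⟨S', a1, a2⟩
      have gw : lded A (i + 1) = [] → (∃ u, R (single a u) (v (i + 1))) →
          (c (i + 1) = .wt ∨ ∃ b, c (i + 1) = .gs b) → I (i + 1) (c (i + 1)) := by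
        rintro a1 a2 (e | ⟨b, e⟩) <;> rw [e]
        · simpa only [I, a1, List.nil_append] using a2
        · exact ⟨a1, a2⟩
      have nl : c i ≠ .wt → lded A (i + 1) = lded A i := fun e => lded_succ fun b e' => e (h1 b e')
      generalize c i = c₀ at *
      rcases c₀ with _ | _ | _ | _ | b | _ | ⟨_ | q, g⟩ | _
      · exact ih.elim
      · rw [show c (i + 1) = _ from h2]
        exact ⟨(nl nofun).trans ih, fun k => ⟨_, h3 k⟩⟩
      · rw [show c (i + 1) = _ from h2]
        refine ⟨(nl nofun).trans ih.1, fun k => ?_⟩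
        obtain ⟨w, hw⟩ := ih.2 k
        exact hw.init (h3 k) (hv _ _).2
      · refine gw ((nl nofun).trans ih.1) ⟨[], fun k f => ?_⟩ h2
        have : Enc [] (v i (k, f)) := ⟨_, ih.2 _, rfl⟩
        rw [show single a [] k = [] by simp [single]]
        cases f
        · exact (h3 (k, false)).1 ▸ this
        · exact this.push (h3 (k, true))
      · obtain ⟨u, hu⟩ := ih.2
        obtain ⟨S', a1, a2⟩ := st _ hu fun _ => rfl
        refine gw ((nl nofun).trans ih.1) ⟨b :: u, ?_⟩ h2
        simpa [only_push.1 a1, single] using a2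
      · obtain ⟨u, hu⟩ := ih
        obtain ⟨S', a1, a2⟩ := st _ hu fun _ => rfl
        rw [(lop_wt M a A i u S').1 a1] at a2
        rcases h2 with e | ⟨e', g, e⟩ <;> rw [e]
        · exact ⟨u, a2⟩
        · exact ⟨u, 0, _, a2, by rw [hg _ e']; rfl⟩
      · obtain ⟨u, t, S, hu, e⟩ := ih
        obtain ⟨S', a1, -⟩ := st _ hu fun _ => rfl
        rw [show c (i + 1) = _ from h2]
        exact ⟨u, t, S, e, (only_pop.1 a1).1⟩
      · obtain ⟨u, t, S, hu, e⟩ := ih
        obtain ⟨S', a1, a2⟩ := st _ hu fun _ => rfl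
        obtain ⟨g', e'⟩ := h2
        obtain ⟨b1, b2⟩ := iop_sound a1
        rw [e']
        exact ⟨u, t + 1, S', a2, by rw [Function.iterate_succ_apply', e, b1, b2]; rfl⟩
      · rw [show c (i + 1) = _ from h2]
        exact ih
  have := key N le_rfl
  rwa [show c N = .acc from (h N le_rfl).1.1.2.2 hf] at this

theorem mach_complete {A : ℕ → Ev} {G τ : ℕ} {y u : List Bool} (hz : ∀ i, A i = .zz → i = 0)
    (hl : ∀ i b, A i = .ld b → 3 + u.length ≤ i ∧ i < G) (hG : 3 + u.length < G) (hg : A G = .go)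
    (hy : lded A G = y) (hf : ∀ i, A i = .fi → G + τ < i)
    (hr : M.Runs (single a (y ++ u)) (single a [true]) τ) :
    ∃ (c : ℕ → Ct M.Q) (S : ℕ → K × Bool → List Bool), c 0 = .i0 ∧ ∀ i,
      (sys M a).Nx (A i, c i) (A (i + 1), c (i + 1)) ∧
        ∀ k, OpL (rop M a (A i) (c i) k) (S i k) (S (i + 1) k) := by
  let R : Stk K → (K × Bool → List Bool) → Prop := fun L S => ∀ k f, rg f (L k) <+: S (k, f)
  let P : ℕ → Ct M.Q × (K × Bool → List Bool) → Prop := fun i s => match s.1 with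
    | .pre => False
    | .i0 => i = 0
    | .i1 => i = 1
    | .i2 => i = 2
    | .gs b => ∃ u₁ u₂, u = u₁ ++ b :: u₂ ∧ i = 3 + u₂.length ∧ R (single a u₂) s.2
    | .wt => 3 + u.length ≤ i ∧ i < G ∧ R (single a (lded A i ++ u)) s.2
    | .run q g => ∃ L t, R L s.2 ∧ M.RunsFrom q L (single a [true]) t ∧ G ≤ i ∧ i + t = G + τ ∧
        ∀ q', q = some q' → ∀ k, LRel (iop (M.δ q') g k) (L k) ((M.δ q').upd L k)
    | .acc => G < i
  have l0 : ∀ i ≤ 3 + u.length, lded A i = [] := by
    intro i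
    induction i with
    | zero => exact fun _ => rfl
    | succ i ih => exact fun hi => (lded_succ fun b e => by have := hl i b e; omega).trans (ih (by omega))
  have step : ∀ i s, P i s → ∃ s', P (i + 1) s' ∧ (sys M a).Nx (A i, s.1) (A (i + 1), s'.1) ∧
      ∀ k, OpL (rop M a (A i) s.1 k) (s.2 k) (s'.2 k) := by
    rintro i ⟨c, S⟩ h
    have st : ∀ L L', R L S → (∀ k, rop M a (A i) c k = opR (lop M a (A i) c k.1) k.2) →
        (∀ k, LRel (lop M a (A i) c k) (L k) (L' k)) →
        ∃ S', R L' S' ∧ ∀ k, OpL (rop M a (A i) c k) (S k) (S' k) := by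
      intro L L' hL e h
      choose S' a1 a2 using fun k : K × Bool => pre_step (hL k.1 k.2) (h k.1)
      exact ⟨S', fun k f => a2 (k, f), fun k => e k ▸ a1 k⟩
    have gw : ∀ u₁ u₂ S', u = u₁ ++ u₂ → i + 1 = 3 + u₂.length → R (single a u₂) S' →
        ∃ c', P (i + 1) (c', S') ∧ (c' = .wt ∨ ∃ b, c' = .gs b) := by
      intro u₁ u₂ S' a1 a2 a3
      rcases List.eq_nil_or_concat u₁ with rfl | ⟨u₃, b, rfl⟩
      · obtain rfl : u = u₂ := a1
        exact ⟨.wt, ⟨by omega, by omega, by rwa [l0 _ a2.le]⟩, Or.inl rfl⟩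
      · exact ⟨.gs b, ⟨u₃, u₂, by simpa using a1, a2, a3⟩, Or.inr ⟨b, rfl⟩⟩
    have rn : ∀ q L t S', R L S' → M.RunsFrom q L (single a [true]) t → G ≤ i + 1 → i + 1 + t = G + τ →
        ∃ g, P (i + 1) (.run q g, S') := by
      rintro (_ | q) L t S' a1 a2 a3 a4
      · exact ⟨none, L, t, a1, a2, a3, a4, nofun⟩
      · obtain ⟨g, hg⟩ := iop_ex (M.δ q) L
        exact ⟨g, L, t, a1, a2, a3, a4, by rintro _ ⟨⟩; exact hg⟩
    have U : (i = 0 → c = .i0) → (3 + u.length ≤ i → i < G → c = .wt) → (G + τ < i → c = .acc) →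
        (A i = .zz → c = .i0) ∧ (∀ b, A i = .ld b → c = .wt) ∧ (A i = .fi → c = .acc) :=
      fun a1 a2 a3 => ⟨fun e => a1 (hz i e), fun b e => a2 (hl i b e).1 (hl i b e).2, fun e => a3 (hf i e)⟩
    rcases c with _ | _ | _ | _ | b | _ | ⟨_ | q, g⟩ | _
    · exact h.elim
    · obtain rfl : i = 0 := h
      exact ⟨(.i1, fun k => false :: S k), rfl, ⟨U (fun _ => rfl) (by omega) (by omega), rfl⟩, fun _ => rfl⟩
    · obtain rfl : i = 1 := h
      exact ⟨(.i2, fun k => true :: S k), rfl, ⟨U (by omega) (by omega) (by omega), rfl⟩, fun _ => rfl⟩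
    · obtain rfl : i = 2 := h
      obtain ⟨c', a1, a2⟩ := gw u [] (fun k => if k.2 then false :: S k else S k) (by simp) rfl
        fun k f => by cases f <;> simp [single, rg]
      refine ⟨_, a1, ⟨U (by omega) (by omega) (by omega), a2⟩, ?_⟩
      rintro ⟨k, _ | _⟩
      · exact ⟨rfl, nofun⟩
      · exact rfl
    · obtain ⟨u₁, u₂, a1, a2, a3⟩ := h
      obtain ⟨S', b1, b2⟩ := st _ (single a (b :: u₂)) a3 (fun _ => rfl) (only_push.2 (by simp [single]))
      obtain ⟨c', c1, c2⟩ := gw u₁ _ S' a1 (by simp; omega) b1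
      have : u.length = u₁.length + (u₂.length + 1) := by simp [a1]
      exact ⟨_, c1, ⟨U (by omega) (by omega) (by omega), c2⟩, b2⟩
    · obtain ⟨a1, a2, a3⟩ := h
      obtain ⟨S', b1, b2⟩ := st _ _ a3 (fun _ => rfl) ((lop_wt M a A i u _).2 rfl)
      have c0 := U (by omega) (fun _ _ => rfl) (by omega)
      rcases (by omega : i + 1 < G ∨ G = i + 1) with e | rfl
      · exact ⟨(.wt, S'), ⟨by omega, e, b1⟩, ⟨c0, Or.inl rfl⟩, b2⟩
      · obtain ⟨g, c1⟩ := rn _ _ τ S' b1 (hy ▸ hr) le_rfl rfl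
        exact ⟨(_, S'), c1, ⟨c0, Or.inr ⟨hg, g, rfl⟩⟩, b2⟩
    · obtain ⟨L, t, a1, a2, a3, a4, -⟩ := h
      cases a2
      obtain ⟨S', -, b2⟩ := st _ _ a1 (fun _ => rfl) (only_pop.2 ⟨by simp [single], rfl⟩)
      exact ⟨(.acc, S'), by change G < _; omega, ⟨U (by omega) (by omega) (by omega), rfl⟩, b2⟩
    · obtain ⟨L, t, a1, a2, a3, a4, a5⟩ := h
      obtain ⟨S', b1, b2⟩ := st _ _ a1 (fun _ => rfl) (a5 q rfl)
      cases a2 with
      | step _ _ _ t a2 =>
        obtain ⟨g', c1⟩ := rn _ _ t S' b1 a2 (by omega) (by omega)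
        exact ⟨(_, S'), c1, ⟨U (by omega) (by omega) (by omega), g',
          by rw [(iop_sound (a5 q rfl)).1]⟩, b2⟩
    · have : G < i := h
      exact ⟨(.acc, S), by change G < _; omega, ⟨U (by omega) (by omega) fun _ => rfl, rfl⟩,
        fun k => ⟨rfl, nofun⟩⟩
  choose F h1 h2 using step
  let f : (i : ℕ) → {s // P i s} := fun i => Nat.rec ⟨(.i0, fun _ => []), rfl⟩
    (fun i s => ⟨F i s.1 s.2, h1 i s.1 s.2⟩) i
  exact ⟨fun i => (f i).1.1, fun i => (f i).1.2, rfl, fun i => h2 i _ (f i).2⟩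

end Pool.Agent.Lib.MP_79902f_lc
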