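import Pool.Agent.Lib.MP_79902f_lc.NDefs
import Pool.Agent.Lib.MP_79902f_lc.NCode
import Pool.Agent.Lib.MP_79902f_lc.NMach

/-!
The reduction from nondeterministic exponential time to the realizability of planar convex codes.
-/

namespace Pool.Agent.Lib.MP_79902f_lc

open N68a2faeb N793a5b8e Pool.Agent.Shared.PolyTime N487b59b3

section

variable {K : Type} [DecidableEq K] (M : SM K) (a : K)

theorem adv_spec {pl : ℕ → Ev} (hp : ∀ t, pl t ≠ .zz) (t : ℕ) :
    (∀ j, adv (sys M a) pl t j = .zz ↔ j = 85 * 2 ^ t) ∧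
      (∀ j, adv (sys M a) pl t j = .zz ∨ adv (sys M a) pl t j = .nn ∨ ∃ s < t, j = 85 * 2 ^ t + 2 ^ s) ∧
      ∀ s < t, adv (sys M a) pl t (85 * 2 ^ t + 2 ^ s) = pl (t - 1 - s) := by
  induction t with
  | zero =>
    refine ⟨fun j => ?_, fun j => ?_, by simp⟩ <;> simp only [adv, sys] <;> split_ifs with h <;> simp [h]
  | succ t ih =>
    obtain ⟨h1, h2, h3⟩ := ih
    have d1 : ∀ e b, dlt e .zz b = if b then e else .zz := fun _ _ => rfl
    have d2 : ∀ e σ b, σ ≠ .zz → dlt e σ b = if b then .nn else σ := fun e σ b h => by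
      cases σ <;> first | rfl | exact absurd rfl h
    have e : ∀ j, adv (sys M a) pl (t + 1) j =
        dlt (pl t) (adv (sys M a) pl t (j / 2)) (decide (j % 2 = 1)) := fun _ => rfl
    refine ⟨fun j => ?_, fun j => ?_, fun s hs => ?_⟩
    · rw [e, pow_succ]
      by_cases c : adv (sys M a) pl t (j / 2) = .zz
      · rw [c, d1]
        rw [h1] at c
        split_ifs with k <;> simp [hp] at k ⊢ <;> omega
      · rw [d2 _ _ _ c]
        split_ifs with k <;> simp [c] at k ⊢ <;> rw [h1] at c <;> omega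
    · rw [e, pow_succ]
      by_cases c : adv (sys M a) pl t (j / 2) = .zz
      · rw [c, d1]
        rw [h1] at c
        split_ifs with k
        · exact Or.inr (Or.inr ⟨0, by omega, by simp at k; omega⟩)
        · exact Or.inl rfl
      · rw [d2 _ _ _ c]
        split_ifs with k
        · exact Or.inr (Or.inl rfl)
        · refine (h2 (j / 2)).imp_right (Or.imp_right ?_)
          rintro ⟨s, a1, a2⟩
          exact ⟨s + 1, by omega, by simp at k; rw [pow_succ]; omega⟩
    · rw [e, pow_succ]
      rcases s with _ | s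
      · rw [(h1 _).2 (by omega), d1, if_pos (by simp; omega)]; rfl
      · rw [pow_succ, show (85 * (2 ^ t * 2) + 2 ^ s * 2 : ℤ) / 2 = 85 * 2 ^ t + 2 ^ s by omega,
          h3 s (by omega), d2 _ _ _ (hp _), if_neg (by simp; omega)]
        congr 1
        omega

open Classical in
/-- The event selected by the flags. -/
noncomputable def ev (b : Fin 8 → Prop) : Ev :=
  if b 4 then .nn else if b 5 then .ld (decide (b 6)) else if b 7 then .go else if b 1 then .fi else .nn

/-- The flags of the generation `t`. -/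
def dat (y : List Bool) (s T t : ℕ) : Fin 8 → Prop :=
  ![t + 1 < T + 5, t = 0, t < T, t = T, T - 1 - t < s, T - 1 - t < s + y.length,
    y.getD (s + y.length - 1 - (T - 1 - t)) false = true, T - 1 - t = s + y.length]

theorem events {y : List Bool} {s T : ℕ} (hT : s + y.length + 1 < T) {B : ℤ → Ev}
    (hB : B = adv (sys M a) (fun t => ev (dat y s T t)) T) {A : ℕ → Ev}
    (hA : A = fun i : ℕ => B (85 * 2 ^ T + i)) :
    (∀ j < 85 * 2 ^ T, B j = .nn) ∧ A 0 = .zz ∧ (∀ i, A i = .zz → i = 0) ∧
      (∀ i b, A i = .ld b → 2 ^ s ≤ i ∧ i < 2 ^ (s + y.length)) ∧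
      (∀ i, A i = .go ↔ i = 2 ^ (s + y.length)) ∧ (∀ i, A i = .fi ↔ i = 2 ^ (T - 1)) ∧
      lded A (2 ^ (s + y.length)) = y := by
  obtain ⟨h1, h2, h3⟩ := adv_spec M a (pl := fun t => ev (dat y s T t))
    (fun t => by unfold ev; split_ifs <;> nofun) T
  rw [← hB] at h1 h2 h3
  have a1 : ∀ r < T, A (2 ^ r) = if r < s then .nn else if r < s + y.length then
      .ld (y.getD (s + y.length - 1 - r) false) else if r = s + y.length then .go else
      if r = T - 1 then .fi else .nn := by
    intro r hr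
    have e : T - 1 - (T - 1 - r) = r := by omega
    have e' : T - 1 - r = 0 ↔ r = T - 1 := by omega
    simp only [hA]
    push_cast
    rw [h3 r hr]
    simp [ev, dat, e, e']
  have a2 : ∀ i, A i = .zz → i = 0 := fun i h => by
    have := (h1 _).1 (hA ▸ h :)
    omega
  have a3 : ∀ i, A i = .zz ∨ A i = .nn ∨ ∃ r < T, i = 2 ^ r := fun i => by
    simp only [hA]
    refine (h2 _).imp_right (Or.imp_right ?_)
    rintro ⟨r, b1, b2⟩
    exact ⟨r, b1, by exact_mod_cast add_left_cancel b2⟩
  have a0 : A 0 = .zz := by simp [hA, h1]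
  refine ⟨fun j hj => ?_, a0, a2, fun i b h => ?_, fun i => ⟨fun h => ?_, ?_⟩, fun i => ⟨fun h => ?_, ?_⟩, ?_⟩
  · rcases h2 j with h | h | ⟨r, -, h⟩
    · exact absurd ((h1 j).1 h) hj.ne
    · exact h
    · have : (0 : ℤ) < 2 ^ r := by positivity
      omega
  · rcases a3 i with e | e | ⟨r, b1, rfl⟩
    · simp [e] at h
    · simp [e] at h
    · rw [a1 r b1] at h
      split_ifs at h
      exact ⟨Nat.pow_le_pow_right two_pos (by omega), Nat.pow_lt_pow_right one_lt_two (by omega)⟩
  · rcases a3 i with e | e | ⟨r, b1, rfl⟩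
    · simp [e] at h
    · simp [e] at h
    · rw [a1 r b1] at h
      split_ifs at h
      congr 1
  · rintro rfl
    rw [a1 _ (by omega), if_neg (by omega), if_neg (by omega), if_pos rfl]
  · rcases a3 i with e | e | ⟨r, b1, rfl⟩
    · simp [e] at h
    · simp [e] at h
    · rw [a1 r b1] at h
      split_ifs at h
      congr 1
  · rintro rfl
    rw [a1 _ (by omega), if_neg (by omega), if_neg (by omega), if_neg (by omega), if_pos rfl]
  have gap : ∀ r i, 2 ^ r + 1 ≤ i → i ≤ 2 ^ (r + 1) → lded A i = lded A (2 ^ r + 1) := by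
    intro r i hi
    induction i, hi using Nat.le_induction with
    | base => exact fun _ => rfl
    | succ i hi ih =>
      intro h
      refine (lded_succ fun b e => ?_).trans (ih (by omega))
      rcases a3 i with e' | e' | ⟨r', -, rfl⟩
      · simp [e] at e'
      · simp [e] at e'
      · have c1 := (Nat.pow_lt_pow_iff_right one_lt_two).1 (show 2 ^ r < 2 ^ r' by omega)
        have c2 := (Nat.pow_lt_pow_iff_right one_lt_two).1 (show 2 ^ r' < 2 ^ (r + 1) by omega)
        omega
  have key : ∀ r ≤ s + y.length, lded A (2 ^ r) = y.drop (y.length - (r - s)) := by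
    intro r
    induction r with
    | zero => intro _; simp [lded, a0]
    | succ r ih =>
      intro hr
      rw [gap r _ (by have := Nat.one_le_two_pow (n := r); omega) le_rfl, lded, a1 r (by omega),
        ih (by omega)]
      split_ifs with c1 c2
      · rw [show r + 1 - s = r - s by omega]
      · rw [List.drop_eq_getElem_cons (i := y.length - (r + 1 - s)) (by omega),
          List.getD_eq_getElem _ _ (by omega), show y.length - (r - s) = y.length - (r + 1 - s) + 1 by omega]
        dsimp only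
        congr 2
        omega
      all_goals exfalso; omega
  simpa using key _ le_rfl

theorem strong_of {y u : List Bool} {s T τ : ℕ} (hu : 3 + u.length < 2 ^ s)
    (hT : 2 ^ (s + y.length) + τ < 2 ^ (T - 1))
    (hr : M.Runs (single a (y ++ u)) (single a [true]) τ) :
    StrongRun (sys M a) T fun t => ev (dat y s T t) := by
  have hT' := (Nat.pow_lt_pow_iff_right one_lt_two).1 (show 2 ^ (s + y.length) < 2 ^ (T - 1) by omega)
  obtain ⟨a0, -, a2, a3, a4, a5, a6⟩ := events M a (y := y) (s := s) (T := T) (by omega) rfl rfl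
  have := Nat.pow_le_pow_right two_pos (Nat.le_add_right s y.length)
  obtain ⟨c, S, h0, h⟩ := mach_complete M a a2 (fun i b e => by have := a3 i b e; omega) (by omega)
    ((a4 _).2 rfl) a6 (fun i e => by rw [(a5 i).1 e]; exact hT) hr
  refine ⟨fun j => if j < 85 * 2 ^ T then .pre else c (j - 85 * 2 ^ T).toNat,
    fun j => S (j - 85 * 2 ^ T).toNat, fun j => ?_⟩
  by_cases hj : j < 85 * 2 ^ T
  · simp only [a0 j hj, if_pos hj, show (j - 85 * 2 ^ T).toNat = 0 by omega,
      show (j + 1 - 85 * 2 ^ T).toNat = 0 by omega, h0]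
    exact ⟨⟨⟨nofun, nofun, nofun⟩, by split_ifs; exacts [Or.inl rfl, Or.inr rfl]⟩, fun k => ⟨rfl, nofun⟩⟩
  · obtain ⟨i, rfl⟩ : ∃ i : ℕ, j = 85 * 2 ^ T + i := ⟨(j - 85 * 2 ^ T).toNat, by omega⟩
    simp only [if_neg hj, if_neg (show ¬ (85 * 2 ^ T + i + 1 : ℤ) < 85 * 2 ^ T by omega),
      show (85 * 2 ^ T + i - 85 * 2 ^ T : ℤ).toNat = i by omega,
      show (85 * 2 ^ T + i + 1 - 85 * 2 ^ T : ℤ).toNat = i + 1 by omega]
    have := h i
    simp only [Nat.cast_add, Nat.cast_one, ← add_assoc] at this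
    exact this

theorem of_weak {y : List Bool} {s T : ℕ} (hT : s + y.length + 1 < T)
    (h : WeakRun (sys M a) T fun t => ev (dat y s T t)) :
    ∃ u t S, M.step^[t] (M.start, single a (y ++ u)) = (none, S) ∧ (S a).head? = some true := by
  obtain ⟨-, a1, -, -, a4, a5, a6⟩ := events M a hT rfl rfl
  obtain ⟨c, v, hv, h⟩ := h
  refine mach_sound M a a1 (fun i e => by rw [(a4 i).1 e, a6]) ((a5 _).2 rfl)
    (c := fun i => (c (85 * 2 ^ T + i)).2) (v := fun i => v (85 * 2 ^ T + i)) (fun _ _ => hv _ _)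
    fun i hi => ?_
  obtain ⟨d, rfl⟩ : ∃ d, T = d + 2 := ⟨T - 2, by omega⟩
  have b1 : (i : ℤ) ≤ 2 ^ (d + 1) := by exact_mod_cast hi
  have b2 : (1 : ℤ) ≤ 2 ^ d := one_le_pow₀ (by norm_num)
  obtain ⟨c1, c2⟩ := h (85 * 2 ^ (d + 2) + i) (by omega) (by rw [pow_succ] at *; omega)
  have c3 := (h (85 * 2 ^ (d + 2) + i + 1) (by omega) (by simp only [pow_succ] at *; omega)).1
  simp only [Nat.cast_add, Nat.cast_one, ← add_assoc, ← c1, ← c3]
  exact c2 (by simp only [pow_succ] at *; omega)

end

theorem nexp_hard {L : DecisionProblem} (hL : L ∈ NEXP) : ManyOneReducible L ConvexCode2 := by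
  classical
  obtain ⟨p, R, hR, hL⟩ := hL
  let R' : List Bool × Raw → Bool := fun z =>
    decide (z.2.bits.length ≤ 2 ^ p.eval z.1.length) && R (z.1, z.2.bits)
  have hR' : IsPolyTime R' :=
    IsPolyTime.and (by fun_prop) (hR.comp (IsPolyTime.pair (by fun_prop) (by fun_prop)))
  obtain ⟨K, _, _, a, M, q, hM⟩ := (isPolyTime_iff_comp R').1 hR'
  have := M.fin
  let y : List Bool → List Bool := fun x => delimit (bitEncode x)
  let s : List Bool → ℕ := fun x => p.eval x.length + 3
  let τ : List Bool → ℕ := fun x => q.eval ((y x).length + 2 ^ p.eval x.length)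
  let T : List Bool → ℕ := fun x => (2 ^ (s x + (y x).length) + τ x).size + 1
  have hy : IsPolyTime y := IsPolyTime.delimit (by fun_prop)
  have hs : IsPolyTime s := by fun_prop
  have hs' : PolyBdd s := by fun_prop
  have hτ : IsPolyTime τ := by fun_prop
  have hT : IsPolyTime T := by fun_prop
  have hT' : PolyBdd T := by fun_prop
  have hc := pt_codeN (n := fun x => T x + 5) (by fun_prop) (by fun_prop)
    (fun r b π => ∀ j, RuleJ (sys M a) r (b 0) (b 1) (b 2) (b 3) (ev b) π j)
    (d := fun x => dat (y x) (s x) (T x)) fun i => by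
      fin_cases i <;> simp only [dat] <;> fun_prop
  refine ⟨fun x => bitEncode (nb + (T x + 5) * nw (Alp Ev (Ct M.Q) (K × Bool)),
    codeN (T x + 5) (Rule (sys M a) (T x) fun t => ev (dat (y x) (s x) (T x) t))),
    IsPolyTime.bitEncode (IsPolyTime.pair (by fun_prop) hc), fun x => ?_⟩
  have h1 : 2 ^ (s x + (y x).length) + τ x < 2 ^ (T x - 1) := Nat.lt_size_self _
  have run : ∀ u, M.Runs (single a (y x ++ u)) (single a [R' (x, ⟨u⟩)])
    (q.eval ((y x).length + u.length)) := fun u => by
      simpa only [enc_pair, enc_raw, enc_bool, List.length_append] using hM (x, ⟨u⟩)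
  rw [Bool.eq_iff_iff, hL]
  simp only [ConvexCode2, decide_eq_true_eq]
  constructor
  · rintro ⟨w, h2, h3⟩
    refine ⟨_, _, rfl, (realizable_iff (by omega)).2 (real_run (strong_of M a (u := w) ?_ h1 ?_))⟩
    · have := Nat.one_le_two_pow (n := p.eval x.length)
      simp only [s, pow_add]
      omega
    · have := (run w).mono (eval_mono q (Nat.add_le_add_left h2 _))
      simpa [R', h2, h3] using this
  · rintro ⟨n', C, e, h⟩
    obtain ⟨rfl, rfl⟩ := Prod.mk.inj (bitEncode_injective e)
    obtain ⟨Y, cY, hY⟩ := (realizable_iff (by omega)).1 h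
    have h2 := (Nat.pow_lt_pow_iff_right one_lt_two).1
      (show 2 ^ (s x + (y x).length) < 2 ^ (T x - 1) by omega)
    obtain ⟨u, t, S, a1, a2⟩ := of_weak M a (by omega) (sound_run cY hY)
    have a3 := SM.runs_iff.1 (run u)
    have a4 := congrArg M.step^[t] a3
    rw [← Function.iterate_add_apply, add_comm, Function.iterate_add_apply, a1, M.iterate_step_none,
      M.iterate_step_none] at a4
    obtain rfl := (Prod.mk.inj a4).2
    exact ⟨u, by simpa [single, R'] using a2⟩

end Pool.Agent.Lib.MP_79902f_lc
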