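import Pool.Agent.Lib.MP_79902f_lc.Real
import Pool.Agent.Lib.MP_79902f_lc.NLoc

/-!
Codes given by arbitrary local rules on five consecutive generations: realization and pinning.
-/

namespace Pool.Agent.Lib.MP_79902f_lc

open Set

/-- Local patterns. -/
abbrev Loc (A : Type) : Type := Fin 5 → Fin 22 ⊕ A → Prop

variable {A : Type} {n : ℕ} {Rl : Fin 3 → ℕ → Loc A → Prop}

/-- The line sets in a local pattern. -/
def xl (π : Loc A) (i : Fin 5) (m : ℤ) : Prop := π i (.inl (cls m))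

/-- The patterns allowed in the active region number `r`. -/
def VarP (n : ℕ) (Rl : Fin 3 → ℕ → Loc A → Prop) (r : Fin 3) (σ : Neu A → Prop) : Prop :=
  (∀ i b, σ (.inl (i, b)) ↔ b = side r i) ∧ (∀ t s, σ (.inr (t, s)) → t < n) ∧
    (∃ t₀, (∀ t s, t < t₀ → σ (.inr (t, s))) ∧ ∀ t s, σ (.inr (t, s)) → t < t₀ + 5) ∧
    ∀ t < n, Rl r t fun i s => σ (.inr (t + i, s))

/-- The code. -/
def InC (n : ℕ) (Rl : Fin 3 → ℕ → Loc A → Prop) (σ : Neu A → Prop) : Prop :=
  (∃ z, ¬ Act z ∧ σ = pat0 z) ∨ ∃ r, VarP n Rl r σ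

/-- The intended sets. -/
def Hx (H : ℕ → A → Set (ℝ × ℝ)) (t : ℕ) : Fin 22 ⊕ A → Set (ℝ × ℝ) :=
  Sum.elim (fun k => {z | Per (sc t z) (k : ℕ)}) (H t)

theorem varP_empty (h0 : ∀ r t, Rl r t fun _ _ => False) (r : Fin 3) {σ : Neu A → Prop}
    (h1 : ∀ i b, σ (.inl (i, b)) ↔ b = side r i) (h2 : ∀ p, ¬ σ (.inr p)) : VarP n Rl r σ := by
  refine ⟨h1, fun t s h => (h2 _ h).elim, ⟨0, by simp, fun t s h => (h2 _ h).elim⟩, fun t _ => ?_⟩
  simpa only [h2] using h0 r t

theorem realize_gen [Finite A] (hn : 2 ≤ n) (h0 : ∀ r t, Rl r t fun _ _ => False)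
    {H : ℕ → A → Set (ℝ × ℝ)} (hc : ∀ t s, Convex ℝ (H t s))
    (hin : ∀ t s z, 4 ^ t * ht z < 35 / 64 → z ∈ H t s)
    (hout : ∀ t s, ∀ z ∈ H t s, ∀ m, Bel m (sc t z))
    (hR : ∀ z : ℝ × ℝ, ∀ t < n, Rl (reg z.1) t fun i s => t + i < n ∧ z ∈ Hx H (t + i) s) :
    ∃ Y : Neu A → Set (ℝ × ℝ), (∀ a, Convex ℝ (Y a)) ∧
      ∀ σ, InC n Rl σ ↔ ∃ z, σ = fun a => z ∈ Y a := by
  classical
  have cH : ∀ t s, Convex ℝ (Hx H t s) := by
    rintro t (k | s)
    · exact fun z hz z' hz' a b ha hb hab j => convex_bel _ t (hz j) (hz' j) ha hb hab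
    · exact hc t s
  have iH : ∀ t s z, 4 ^ t * ht z < 35 / 64 → z ∈ Hx H t s := by
    rintro t (k | s) z h
    · exact fun j => bel_of_lt (by rw [ht_sc]; linarith) _
    · exact hin t s z h
  have oH : ∀ t s, ∀ z ∈ Hx H t s, 4 ^ t * ht z < 519 := by
    rintro t (k | s) z h <;> rw [← ht_sc]
    · exact lt_of_per h
    · linarith [lt_of_all (hout t s z h)]
  have inner : ∀ {z : ℝ × ℝ} {σ : Neu A → Prop}, (∀ i b, σ (.inl (i, b)) ↔ b = side (reg z.1) i) →
      (∀ t s, σ (.inr (t, s)) ↔ t < n ∧ z ∈ Hx H t s) → VarP n Rl (reg z.1) σ := by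
    intro z σ h1 h2
    refine ⟨h1, fun t s h => ((h2 t s).1 h).1, ?_, fun t htn => by simpa only [h2] using hR z t htn⟩
    have hex : ∃ t, n ≤ t ∨ 35 / 64 ≤ 4 ^ t * ht z := ⟨n, Or.inl le_rfl⟩
    refine ⟨Nat.find hex, fun t s h => ?_, fun t s h => ?_⟩
    · have := Nat.find_min hex h
      push Not at this
      exact (h2 t s).2 ⟨this.1, iH t s z this.2⟩
    · obtain ⟨a1, a2⟩ := (h2 t s).1 h
      by_contra hc
      obtain ⟨d, rfl⟩ := Nat.exists_eq_add_of_le (not_lt.1 hc)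
      have a3 := oH _ _ _ a2
      have a4 : (1 : ℝ) ≤ 4 ^ d := one_le_pow₀ (by norm_num)
      rcases Nat.find_spec hex with a5 | a5
      · omega
      · rw [pow_add, pow_add] at a3
        nlinarith
  have fin : {σ : Neu A → Prop | ∀ t s, σ (.inr (t, s)) → t < n}.Finite := by
    have f1 : (range (Sum.inl : BL × Bool → Neu A) ∪
        Sum.inr '' (Iio n ×ˢ (univ : Set (Fin 22 ⊕ A)))).Finite :=
      (finite_range _).union (((finite_Iio n).prod finite_univ).image _)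
    refine f1.finite_subsets.subset ?_
    intro σ hσ a ha
    rcases a with a | ⟨t, s⟩
    · exact Or.inl ⟨a, rfl⟩
    · exact Or.inr ⟨(t, s), ⟨hσ t s ha, trivial⟩, rfl⟩
  obtain ⟨e, he⟩ := Set.countable_iff_exists_injOn.1 (Set.Finite.countable fin)
  let xr : Fin 3 → ℝ := fun r => 85 + 5 / 2 * (r : ℕ)
  let mx : Fin 3 → (Neu A → Prop) → ℝ := fun r σ => xr r + 1 / (e σ + 2)
  have m1 : ∀ σ, (0 : ℝ) < 1 / (e σ + 2) := fun σ => by positivity
  have m2 : ∀ σ, (1 : ℝ) / (e σ + 2) ≤ 1 / 2 := fun σ =>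
    one_div_le_one_div_of_le (by norm_num) (by linarith [Nat.cast_nonneg (α := ℝ) (e σ)])
  have mreg : ∀ r σ, reg (mx r σ) = r := by
    intro r σ
    have a1 := m1 σ
    have a2 := m2 σ
    simp only [mx, xr]
    generalize (1 : ℝ) / (e σ + 2) = u at a1 a2 ⊢
    unfold reg
    fin_cases r <;> norm_num
    · intro h; linarith
    · rw [if_neg (by linarith), if_pos (by linarith)]
    · rw [if_neg (by linarith), if_neg (by linarith)]; rfl
  have mb : ∀ r σ, 85 ≤ mx r σ ∧ mx r σ ≤ 91 := by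
    intro r σ
    have hr : ((r : ℕ) : ℝ) ≤ 2 := by exact_mod_cast (show (r : ℕ) ≤ 2 by omega)
    have h0 : (0 : ℝ) ≤ (r : ℕ) := Nat.cast_nonneg _
    have a1 := m1 σ
    have a2 := m2 σ
    simp only [mx, xr]
    constructor <;> linarith
  have mht : ∀ r σ, ht (mx r σ, om (mx r σ)) < 0 := by
    intro r σ
    obtain ⟨a1, a2⟩ := mb r σ
    simp only [ht, om]
    nlinarith
  have mact : ∀ r σ, Act (mx r σ, om (mx r σ)) := by
    intro r σ
    refine ⟨by linarith [(mb r σ).1], fun k => ?_⟩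
    have h6 := bel_of_lt (z := (mx r σ, om (mx r σ))) (by linarith [mht r σ]) (k : ℕ)
    simp only [Bel, BL.f] at h6 ⊢
    push_cast at h6
    linarith
  have minj : ∀ r σ r' σ', VarP n Rl r σ → VarP n Rl r' σ' → mx r σ = mx r' σ' → σ = σ' := by
    intro r σ r' σ' h h' e1
    have e2 : r = r' := by rw [← mreg r σ, e1, mreg]
    subst e2
    refine he h.2.1 h'.2.1 ?_
    simp only [mx, add_right_inj, one_div, inv_inj, add_left_inj] at e1
    exact_mod_cast e1
  let S : Neu A → Set (ℝ × ℝ) := fun a =>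
    {z | om z.1 < z.2 ∨ ∃ r σ, VarP n Rl r σ ∧ σ a ∧ z = (mx r σ, om (mx r σ))}
  let Y : Neu A → Set (ℝ × ℝ) := Sum.elim (fun p => {z | if p.2 then 0 ≤ p.1.f z else p.1.f z < 0})
    (fun p => {z | p.1 < n ∧ z ∈ Hx H p.1 p.2 ∧ z ∈ S (.inr p)})
  have mus : ∀ r σ, VarP n Rl r σ → σ = fun a => (mx r σ, om (mx r σ)) ∈ Y a := by
    intro r σ h
    funext a
    apply propext
    rcases a with ⟨i, b⟩ | ⟨t, s⟩
    · rw [h.1]
      have := side_reg (mact r σ) i b
      rw [mreg] at this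
      exact this.symm
    · refine ⟨fun h' => ⟨h.2.1 t s h', iH t s _ ?_, Or.inr ⟨r, σ, h, h', rfl⟩⟩, ?_⟩
      · have := mul_neg_of_pos_of_neg (by positivity : (0 : ℝ) < 4 ^ t) (mht r σ)
        linarith
      · rintro ⟨-, -, h' | ⟨r', σ', a1, a2, a3⟩⟩
        · exact absurd h' (lt_irrefl _)
        · rwa [minj r σ r' σ' h a1 (congrArg Prod.fst a3)]
  have cst : ∀ z, ¬ Act z → pat0 z = fun a => z ∈ Y a := by
    intro z hz
    funext a
    apply propext
    have hs : ∀ a, z ∈ S a ↔ om z.1 < z.2 := by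
      intro a
      refine ⟨?_, Or.inl⟩
      rintro (h | ⟨r, σ, -, -, rfl⟩)
      · exact h
      · exact absurd (mact r σ) hz
    rcases a with ⟨i, b⟩ | ⟨t, k | b⟩
    · rfl
    · have := xs_pat0 (A := A) hz t (k : ℕ)
      have e1 : cls (k : ℕ) = k := by
        ext; simp only [cls]; omega
      simp only [xs, e1] at this
      refine ⟨fun h => ⟨by have := h.1; omega, h.2.2, (hs _).2 h.2.1⟩,
        fun h => this.2 ⟨(hs _).1 h.2.2, h.2.1⟩⟩
    · refine ⟨False.elim, fun h => ?_⟩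
      obtain ⟨m, hm⟩ := ge_of_not_act hz ((hs _).1 h.2.2)
      have a1 := hout t b z h.2.1
      rcases Nat.eq_zero_or_pos t with rfl | ht'
      · rw [sc_zero] at a1
        exact hm (a1 m)
      · have a2 := lt_of_all a1
        have a3 := ge_of_not_bel hm
        have a4 : (4 : ℝ) ^ 1 ≤ 4 ^ t := pow_le_pow_right₀ (by norm_num) ht'
        rw [ht_sc] at a2
        nlinarith
  refine ⟨Y, fun a => ?_, fun σ => ⟨?_, ?_⟩⟩
  · rcases a with ⟨i, b⟩ | ⟨t, s⟩
    · have af : ∀ (z z' : ℝ × ℝ) (u v : ℝ), u + v = 1 →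
          i.f (u • z + v • z') = u * i.f z + v * i.f z' := by
        intro z z' u v h
        obtain rfl : v = 1 - u := by linarith
        cases i <;> simp only [BL.f, lin, Prod.fst_add, Prod.snd_add, Prod.smul_fst, Prod.smul_snd,
          smul_eq_mul] <;> (try split_ifs) <;> ring
      intro z hz z' hz' u v hu hv huv
      cases b
      · simp only [Y, Sum.elim_inl, Bool.false_eq_true, if_false, mem_ofPred_eq] at hz hz' ⊢
        rw [af _ _ _ _ huv]
        rcases hu.eq_or_lt with rfl | hu'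
        · obtain rfl : v = 1 := by linarith
          simpa using hz'
        · nlinarith
      · simp only [Y, Sum.elim_inl, if_true, mem_ofPred_eq] at hz hz' ⊢
        rw [af _ _ _ _ huv]
        positivity
    · have cS : Convex ℝ (S (.inr (t, s))) := by
        refine convex_epi (fun z h => Or.inl h) ?_
        rintro z (h | ⟨r, σ, -, -, rfl⟩)
        · exact h.le
        · exact le_rfl
      intro z hz z' hz' u v hu hv huv
      exact ⟨hz.1, cH t s hz.2.1 hz'.2.1 hu hv huv, cS hz.2.2 hz'.2.2 hu hv huv⟩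
  · rintro (⟨z, hz, rfl⟩ | ⟨r, h⟩)
    · exact ⟨z, cst z hz⟩
    · exact ⟨_, mus r σ h⟩
  · rintro ⟨z, rfl⟩
    by_cases hz : Act z
    · right
      by_cases h1 : om z.1 < z.2
      · refine ⟨reg z.1, inner (fun i b => side_reg hz i b) (fun t s => ?_)⟩
        exact ⟨fun h => ⟨h.1, h.2.1⟩, fun h => ⟨h.1, h.2, Or.inl h1⟩⟩
      by_cases h2 : ∃ r σ, VarP n Rl r σ ∧ z = (mx r σ, om (mx r σ))
      · obtain ⟨r, σ, h, rfl⟩ := h2
        exact ⟨r, mus r σ h ▸ h⟩
      · refine ⟨reg z.1, varP_empty h0 _ (fun i b => side_reg hz i b) ?_⟩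
        rintro p ⟨-, -, h | ⟨r, σ, a1, -, a2⟩⟩
        · exact h1 h
        · exact h2 ⟨r, σ, a1, a2⟩
    · exact Or.inl ⟨z, hz, (cst z hz).symm⟩

theorem normalize (h0 : ∀ r t, Rl r t fun _ _ => False) {Y : Neu A → Set (ℝ × ℝ)}
    (cY : ∀ a, Convex ℝ (Y a)) (hY : ∀ σ, InC n Rl σ ↔ ∃ z, σ = fun a => z ∈ Y a) :
    ∃ Y : Neu A → Set (ℝ × ℝ), (∀ a, Convex ℝ (Y a)) ∧ (∀ z, InC n Rl fun a => z ∈ Y a) ∧
      ∀ i : BL, Sp (Y (.inl (i, false))) (Y (.inl (i, true))) i.f := by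
  have hY' : ∀ z, InC n Rl (fun a => z ∈ Y a) := fun z => (hY _).2 ⟨z, rfl⟩
  have act : ∀ r : Fin 3, ∃ z : ℝ × ℝ, Act z ∧ reg z.1 = r := by
    intro r
    refine ⟨(85 + 5 / 2 * (r : ℕ), -10000), ⟨by positivity, fun k => ?_⟩, ?_⟩
    · have hr : ((r : ℕ) : ℝ) ≤ 2 := by exact_mod_cast (show (r : ℕ) ≤ 2 by omega)
      have h0 : (0 : ℝ) ≤ (r : ℕ) := Nat.cast_nonneg _
      have h6 := bel_of_lt (z := (85 + 5 / 2 * (r : ℕ), -10000)) (by simp only [ht]; nlinarith) (k : ℕ)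
      simp only [Bel, BL.f] at h6 ⊢
      push_cast at h6
      linarith
    · fin_cases r <;> norm_num [reg]
      rfl
  obtain ⟨φ, cv, hφ⟩ := force (N := fun i => Y (.inl (i, false))) (P := fun i => Y (.inl (i, true)))
    (fun i => cY _) (fun i => cY _) (fun z => by
      rcases hY' z with ⟨z', -, a2⟩ | ⟨r, h⟩
      · have g : ∀ a, z ∈ Y a ↔ pat0 z' a := fun a => (congrFun a2 a).to_iff
        exact ⟨z', fun i => by simp [g, pat0]⟩
      · obtain ⟨z', a1, rfl⟩ := act r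
        exact ⟨z', fun i => ⟨(h.1 _ _).trans (side_reg a1 i false).symm,
          (h.1 _ _).trans (side_reg a1 i true).symm⟩⟩) (fun z' => by
      by_cases h : Act z'
      · obtain ⟨z, hz⟩ := (hY (Sum.elim (fun p => p.2 = side (reg z'.1) p.1) fun _ => False)).1
          (Or.inr ⟨reg z'.1, varP_empty h0 _ (fun i b => Iff.rfl) (fun p => id)⟩)
        exact ⟨z, fun i => ⟨(congrFun hz (.inl (i, false))).symm.to_iff.trans
          (side_reg h i false).symm, (congrFun hz (.inl (i, true))).symm.to_iff.trans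
          (side_reg h i true).symm⟩⟩
      · obtain ⟨z, hz⟩ := (hY (pat0 z')).1 (Or.inl ⟨z', h, rfl⟩)
        have g : ∀ a, z ∈ Y a ↔ pat0 z' a := fun a => (congrFun hz a).symm.to_iff
        exact ⟨z, fun i => by simp [g, pat0]⟩)
  exact ⟨fun a => φ ⁻¹' Y a, fun a => cv _ (cY a), fun z => hY' (φ z), hφ⟩

/-- The cells of width up to ten have the expected patterns. -/
def Pin (F : ℤ → Set (ℝ × ℝ)) (lo hi : ℤ) : Prop :=
  ∀ α β : ℤ, lo < α → β < hi → α ≤ β → β ≤ α + 10 → ∀ z ∈ OC α β, Win (fun m => z ∈ F m) α β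

theorem pin_step {F G : ℤ → Set (ℝ × ℝ)} {lo hi : ℤ} (hG : ∀ m, Convex ℝ (G m))
    (hp : ∀ m, G (m + 22) = G m)
    (hr : ∀ z j, StepAt (fun m => z ∈ F m) (fun m => psi z ∈ G m) j)
    (hF : Pin F lo hi) : Pin G (2 * lo + 42) (2 * hi - 42) := by
  have E : ∀ m : ℤ, 2 * lo + 20 ≤ m → m ≤ 2 * hi - 20 → Edge (G m) (2 * m + 1) := by
    intro m h1 h2
    obtain ⟨j, rfl | rfl⟩ := Int.even_or_odd' m
    · refine edge_of (hG _) (α₁ := j - 9) (β₁ := j - 2) (α₂ := j + 2) (β₂ := j + 5) (α₃ := j - 3)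
        (β₃ := j - 2) (p₃ := 2 * j - 7) (q₃ := 2 * j - 3) (by omega) (by omega) (by omega)
        (fun z hz => (hr z j).2.2.2.1 (hF _ _ (by omega) (by omega) (by omega) (by omega) z hz))
        (fun z hz => (hr z j).2.2.2.2.1 (hF _ _ (by omega) (by omega) (by omega) (by omega) z hz))
        (fun z hz => (hr z j).2.2.2.2.2 (hF _ _ (by omega) (by omega) (by omega) (by omega) z hz))
        (by apply cr_mem_closure (by omega) <;> push_cast <;> linarith)
        ?_ ?_ ?_ ?_ ?_ ?_ ?_ ?_ ?_ <;> push_cast <;> linarith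
    · refine edge_of (hG _) (α₁ := j - 5) (β₁ := j - 2) (α₂ := j + 2) (β₂ := j + 9) (α₃ := j + 2)
        (β₃ := j + 3) (p₃ := 2 * j + 5) (q₃ := 2 * j + 9) (by omega) (by omega) (by omega)
        (fun z hz => (hr z j).1 (hF _ _ (by omega) (by omega) (by omega) (by omega) z hz))
        (fun z hz => (hr z j).2.1 (hF _ _ (by omega) (by omega) (by omega) (by omega) z hz))
        (fun z hz => (hr z j).2.2.1 (hF _ _ (by omega) (by omega) (by omega) (by omega) z hz))
        (by apply cr_mem_closure (by omega) <;> push_cast <;> linarith)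
        ?_ ?_ ?_ ?_ ?_ ?_ ?_ ?_ ?_ <;> push_cast <;> linarith
  have In : ∀ m : ℤ, 2 * lo + 42 ≤ m → m ≤ 2 * hi - 42 → ∀ z : ℝ × ℝ, Bel m z →
      2 * m + 1 - 13 < z.1 → z.1 < 2 * m + 1 + 13 → 0 ≤ z.2 + z.1 ^ 2 → z ∈ G m := by
    intro m h1 h2 z hz k1 k2 k3
    have a0 := E (m - 22) (by omega) (by omega)
    have a2 := E (m + 22) (by omega) (by omega)
    rw [← hp, sub_add_cancel] at a0
    rw [hp] at a2
    refine Edge.mem (hG m) ?_ (E m (by omega) (by omega)) ?_ hz k1 k2 k3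
    · convert a0 using 1; push_cast; ring
    · convert a2 using 1; push_cast; ring
  intro α β h1 h2 h3 h4 z ⟨z1, z2, z3, z4⟩
  have h3' : (α : ℝ) ≤ β := by exact_mod_cast h3
  have h4' : (β : ℝ) ≤ α + 10 := by exact_mod_cast h4
  have y1 := z1
  have y2 := z2
  have y3 := z3
  have y4 := z4
  simp only [Bel, Abv, lin] at y1 y2 y3 y4
  push_cast at y1 y4
  have c0 : 0 ≤ z.2 + z.1 ^ 2 := by nlinarith [sq_nonneg (2 * α + 1 - z.1)]
  have c1 : 2 * α < z.1 := by nlinarith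
  have c2 : z.1 < 2 * β + 2 := by nlinarith
  have c3 : z.1 < α + β + 2 := by
    by_contra hc
    push Not at hc
    nlinarith
  have c4 : α + β < z.1 := by
    by_contra hc
    push Not at hc
    nlinarith
  refine ⟨In _ (by omega) (by omega) z z1 ?_ ?_ c0, fun hz => ?_, fun hz => ?_,
    In _ (by omega) (by omega) z z4 ?_ ?_ c0⟩
  · push_cast; linarith
  · push_cast; linarith
  · exact absurd ((E α (by omega) (by omega)).2.1 z hz) (not_le.2 z2)
  · exact absurd ((E β (by omega) (by omega)).2.1 z hz) (not_le.2 z3)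
  · push_cast; linarith
  · push_cast; linarith

/-- The point with coordinates `w` at the generation `t`. -/
noncomputable def pt (t : ℕ) (w : ℝ × ℝ) : ℝ × ℝ := (w.1 / 2 ^ t, w.2 / 4 ^ t)

theorem pt_psi (t : ℕ) (w : ℝ × ℝ) : pt (t + 1) (psi w) = pt t w := by
  ext <;> simp only [pt, psi, pow_succ] <;> field_simp

variable {Y : Neu A → Set (ℝ × ℝ)} (cY : ∀ a, Convex ℝ (Y a)) (hY : ∀ z, InC n Rl fun a => z ∈ Y a)
  (hp : ∀ i : BL, Sp (Y (.inl (i, false))) (Y (.inl (i, true))) i.f)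

include cY hY hp in
theorem pin_all (hS : ∀ r t π j, t + 1 < n → Rl r t π → StepAt (xl π 0) (xl π 1) j) (t : ℕ)
    (ht : t < n) : Pin (fun m => pt t ⁻¹' Y (.inr (t, .inl (cls m)))) (42 * 2 ^ t - 42) (46 * 2 ^ t + 42) := by
  have step : ∀ z t j, t + 1 < n →
      StepAt (xs (fun a => z ∈ Y a) t) (xs (fun a => z ∈ Y a) (t + 1)) j := by
    intro z t j ht
    rcases hY z with ⟨z', h1, h2⟩ | ⟨r, h⟩
    · have e : ∀ t, xs (pat0 z' : Neu A → Prop) t = fun m => om z'.1 < z'.2 ∧ Per (sc t z') m :=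
        fun t => funext fun m => propext (xs_pat0 h1 t m)
      rw [h2, e, e, sc_succ]
      exact step_and (step_per _ j)
    · exact hS r t _ j ht (h.2.2.2 t (by omega))
  induction t with
  | zero =>
    intro α β h1 h2 h3 h4 z ⟨z1, z2, z3, z4⟩
    have tr : ∀ m : ℤ, 0 ≤ m → m ≤ 88 → ∃ k : Fin 89, ∀ w, (BL.l k).f w = w.2 - lin (2 * m + 1) w.1 := by
      intro m h0 h1
      refine ⟨⟨m.toNat, by omega⟩, fun w => ?_⟩
      have : ((m.toNat : ℕ) : ℝ) = (m : ℝ) := by exact_mod_cast Int.toNat_of_nonneg h0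
      simp only [BL.f, this]
    obtain ⟨k1, e1⟩ := tr (α - 1) (by omega) (by omega)
    obtain ⟨k2, e2⟩ := tr α (by omega) (by omega)
    obtain ⟨k3, e3⟩ := tr β (by omega) (by omega)
    obtain ⟨k4, e4⟩ := tr (β + 1) (by omega) (by omega)
    have y1 := (hp (.l k1) z).1 (by rw [e1]; exact sub_neg.2 z1)
    have y2 := (hp (.l k2) z).2 (by rw [e2]; exact sub_pos.2 z2)
    have y3 := (hp (.l k3) z).2 (by rw [e3]; exact sub_pos.2 z3)
    have y4 := (hp (.l k4) z).1 (by rw [e4]; exact sub_neg.2 z4)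
    rcases hY z with ⟨z', a1, a2⟩ | ⟨r, h⟩
    · have g : ∀ a, z ∈ Y a ↔ pat0 z' a := fun a => (congrFun a2 a).to_iff
      rw [g] at y1 y2 y3 y4
      simp only [pat0, e1, e2, e3, e4, if_true, Bool.false_eq_true, if_false, sub_neg,
        sub_nonneg] at y1 y2 y3 y4
      have hc : HC α β z' := ⟨y1, not_lt.2 y2, not_lt.2 y3, y4⟩
      have ho : om z'.1 < z'.2 := by
        obtain ⟨p, q, rfl, b1, b2, b3, b4⟩ := hc.param h3
        have c1 : (1 : ℝ) ≤ α := by exact_mod_cast (show 1 ≤ α by omega)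
        have c2 : (β : ℝ) ≤ 87 := by exact_mod_cast (show β ≤ 87 by omega)
        have c3 : (α : ℝ) ≤ β := by exact_mod_cast h3
        have c4 : 2 < (p + q) / 2 := by linarith
        have c5 : (p + q) / 2 < 176 := by linarith
        simp only [om, cr]
        nlinarith [sq_nonneg (p - q)]
      have : (fun m => z ∈ pt 0 ⁻¹' Y (.inr (0, .inl (cls m)))) = Per z' := by
        funext m
        have := xs_pat0 (A := A) a1 0 m
        rw [sc_zero, ← a2] at this
        simpa [pt, xs, ho] using this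
      rw [this]
      exact hc.win (by omega)
    · exact absurd ((h.1 _ _).1 y2) (by simp [side])
  | succ t ih =>
    have := pin_step (G := fun m => pt (t + 1) ⁻¹' Y (.inr (t + 1, .inl (cls m))))
      (fun m => convex_sc (cY _) _) (fun m => by
        have : cls (m + 22) = cls m := by simp [cls]
        simp only [this])
      (fun z j => by
        simp only [mem_preimage, pt_psi]
        exact step _ t j ht) (ih (by omega))
    convert this using 1 <;> ring

include hY hp in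
theorem var_of {z : ℝ × ℝ} (h1 : 0 < z.1) (h2 : ht z < 35) :
    ∃ r, VarP n Rl r (fun a => z ∈ Y a) ∧ (86 < z.1 → z.1 < 89 → r = 1) := by
  rcases hY z with ⟨z', a1, a2⟩ | ⟨r, h⟩
  · exfalso
    have g : ∀ a, z ∈ Y a ↔ pat0 z' a := fun a => (congrFun a2 a).to_iff
    refine a1 ⟨?_, fun k => ?_⟩
    · have := (hp (.h false) z).2 (by simpa [BL.f] using h1)
      simpa [g, pat0, BL.f] using this
    · have h6 := bel_of_lt h2 (k : ℕ)
      have := (hp (.l k) z).1 (by
        simp only [Bel, BL.f] at h6 ⊢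
        push_cast at h6
        linarith)
      simpa [g, pat0] using this
  · refine ⟨r, h, fun a b => ?_⟩
    have c1 := (h.1 _ _).1 ((hp (.z false) z).2 (by simp [BL.f]; linarith))
    have c2 := (h.1 _ _).1 ((hp (.z true) z).1 (by simp [BL.f]; linarith))
    simp [side] at c1 c2
    omega

end Pool.Agent.Lib.MP_79902f_lc
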