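import Pool.Agent.Lib.MP_79902f_lc.NModel

/-!
The local rules of the reduction: a binary tree of labels and, on its last level, a row of
register gadgets. Every convex realization carries a run of the system.
-/

namespace Pool.Agent.Lib.MP_79902f_lc

open Set

/-- The sets of one generation: labels and gadget sets. -/
abbrev Alp (E C K : Type) : Type := (Fin 11 × E × C) ⊕ (Fin 11 × K × Gd)

/-- Residue of a station number. -/
def c11 (j : ℤ) : Fin 11 := ⟨(j % 11).toNat, by omega⟩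

/-- A system: the labelling of the tree, the constraint on neighbours and the operations. -/
structure Sys (E C K : Type) where
  z0 : E
  n0 : E
  dl : E → E → Bool → E
  Nx : E × C → E × C → Prop
  op : E × C → K → Op

variable {E C K : Type}

/-- Labels in a local pattern. -/
def LL (π : Loc (Alp E C K)) (i : Fin 5) (j : ℤ) (a : E × C) : Prop := π i (.inr (.inl (c11 j, a)))

/-- Gadget sets in a local pattern. -/
def GG (π : Loc (Alp E C K)) (j : ℤ) (k : K) (g : Gd) : Prop := π 0 (.inr (.inr (c11 j, k, g)))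

/-- Cells around a station in a local pattern. -/
def WW (π : Loc (Alp E C K)) (j α β : ℤ) : Prop := Win (xl π 2) (2 * j + 1 + α) (2 * j + 1 + β)

/-- The rules at the position `j`. -/
def RuleJ (M : Sys E C K) (r : Fin 3) (f₁ f₂ f₃ f₄ : Prop) (e : E) (π : Loc (Alp E C K)) (j : ℤ) :
    Prop :=
  (f₁ → StepAt (xl π 0) (xl π 1) j) ∧
    (f₂ → Win (xl π 2) (2 * j) (2 * j + 9) → Win (xl π 1) (j + 2) (j + 2) →
      ∃ a, LL π 0 j a ∧ a.1 = if r = 1 ∧ j % 22 = 19 then M.z0 else M.n0) ∧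
    (f₃ → Win (xl π 3) (2 * j) (2 * j + 9) → Win (xl π 2) (j + 2) (j + 2) →
      ∃ a, LL π 1 j a ∧ ∀ b, LL π 0 (j / 2) b → a.1 = M.dl e b.1 (decide (j % 2 = 1))) ∧
    (f₃ ∨ f₄ → Win (xl π 4) j j → ∀ s, π 0 (.inr s)) ∧
    (f₄ → (WW π j 2 7 → ∀ a a', LL π 0 j a → LL π 0 (j + 1) a' → M.Nx a a') ∧
      ∀ k, GU (WW π j) (GG π j k) (GG π (j + 1) k (.inl false)) ∧
        ∀ a, LL π 0 j a → GC (WW π j) (GG π j k) (M.op a k))

/-- The rules. -/
def Rule (M : Sys E C K) (T : ℕ) (pl : ℕ → E) (r : Fin 3) (t : ℕ) (π : Loc (Alp E C K)) : Prop :=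
  ∀ j, RuleJ M r (t + 1 < T + 5) (t = 0) (t < T) (t = T) (pl t) π j

/-- The labels of the tree. -/
def adv (M : Sys E C K) (pl : ℕ → E) : ℕ → ℤ → E
  | 0, j => if j = 85 then M.z0 else M.n0
  | t + 1, j => M.dl (pl t) (adv M pl t (j / 2)) (decide (j % 2 = 1))

/-- A run with real values. -/
def WeakRun (M : Sys E C K) (T : ℕ) (pl : ℕ → E) : Prop :=
  ∃ (c : ℤ → E × C) (v : ℤ → K → ℝ), (∀ j k, v j k ∈ Icc (6 : ℝ) 8) ∧
    ∀ j, 85 * 2 ^ T ≤ j → j < 86 * 2 ^ T → (c j).1 = adv M pl T j ∧ (j + 1 < 86 * 2 ^ T →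
      M.Nx (c j) (c (j + 1)) ∧ ∀ k, OpRel (M.op (c j) k) (v j k) (v (j + 1) k))

theorem rule_empty (M : Sys E C K) (T : ℕ) (pl : ℕ → E) (r : Fin 3) (t : ℕ) :
    Rule M T pl r t fun _ _ => False := fun j =>
  ⟨fun _ => by simp [StepAt, Win, xl], fun _ h => h.1.elim, fun _ h => h.1.elim, fun _ h => h.1.elim,
    fun _ => ⟨fun h => h.1.elim, fun _ => ⟨GU.imp fun _ _ _ _ _ _ h => h.1.elim,
      fun _ h => h.elim⟩⟩⟩

theorem oc_iff {α β : ℤ} {w : ℝ × ℝ} : w ∈ OC α β ↔ ht w < 35 + (w.1 - (2 * α - 1)) ^ 2 ∧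
    35 + (w.1 - (2 * α + 1)) ^ 2 < ht w ∧ 35 + (w.1 - (2 * β + 1)) ^ 2 < ht w ∧
    ht w < 35 + (w.1 - (2 * β + 3)) ^ 2 := by
  simp only [OC, Bel, Abv, lin, ht, mem_ofPred_eq]
  push_cast
  constructor <;> rintro ⟨a, b, c, d⟩ <;> refine ⟨?_, ?_, ?_, ?_⟩ <;> nlinarith

theorem oc_param {α β : ℤ} {w : ℝ × ℝ} (h : w ∈ OC α β) (h1 : α ≤ β) :
    ∃ p q : ℝ, w = cr p q ∧ 2 * α - 1 < p ∧ p ≤ 2 * α + 1 ∧ 2 * β + 1 ≤ q ∧ q < 2 * β + 3 :=
  HC.param ⟨h.1, h.2.1.not_gt, h.2.2.1.not_gt, h.2.2.2⟩ h1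

theorem deep_of {X : Set (ℝ × ℝ)} (hX : Convex ℝ X) {lo hi : ℤ} (hl : lo + 20 ≤ hi)
    (h : ∀ m, lo < m → m < hi → ∀ w, psi (psi w) ∈ OC m m → w ∈ X) :
    Deep X (lo / 2 + 3) (hi / 2 - 3) := by
  have cp : Continuous fun w => psi (psi w) := continuous_psi.comp continuous_psi
  let g : ℝ × ℝ → ℝ × ℝ := fun w => (w.1 / 4, w.2 / 16)
  have hg : ∀ w, psi (psi (g w)) = w := fun w => by ext <;> simp only [psi, g] <;> ring
  have cl : ∀ x : ℝ, lo / 2 + 1 ≤ x → x ≤ hi / 2 - 1 → (x, 9 / 4 - x ^ 2) ∈ closure X := by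
    intro x h1 h2
    have a1 := Int.floor_le (2 * x)
    have a2 := Int.lt_floor_add_one (2 * x)
    have := map_mem_closure (f := g) (by fun_prop) (cr_mem_closure (α := ⌊2 * x⌋) (β := ⌊2 * x⌋) le_rfl
      (p := 4 * x - 1) (q := 4 * x + 1) (by linarith) (by linarith) (by linarith) (by linarith))
      (t := X) fun w hw => h ⌊2 * x⌋ (Int.le_floor.2 (by push_cast; linarith))
        (Int.floor_lt.2 (by linarith)) _ (by rwa [hg])
    convert this using 1
    ext <;> simp only [g, cr] <;> ring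
  have hi' : (interior X).Nonempty := by
    refine ⟨g (cr (2 * (lo + 1 : ℤ)) (2 * (lo + 1 : ℤ) + 2)), interior_maximal
      (t := (fun w => psi (psi w)) ⁻¹' OC (lo + 1) (lo + 1))
      (fun w hw => h (lo + 1) (by omega) (by omega) w hw) ((isOpen_OC _ _).preimage cp) ?_⟩
    rw [mem_preimage, hg]
    apply cr_mem_OC le_rfl <;> linarith
  intro x h1 h2
  refine interior_maximal (t := {z : ℝ × ℝ | x - 1 < z.1 ∧ z.1 < x + 1 ∧
    z.2 < -2 * x * z.1 + (x ^ 2 + 5 / 4) ∧ -2 * x * z.1 + (x ^ 2 - 7 / 4) < z.2}) ?_ ?_ ?_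
  · rintro z ⟨a1, a2, a3, a4⟩
    refine edge_in hX hi' (u := x - 1) (p := x + 1) (A := (x - 2, 9 / 4 - (x - 2) ^ 2))
      (B := (x + 2, 9 / 4 - (x + 2) ^ 2)) ?_ ?_ (cl _ (by linarith) (by linarith))
      (cl _ (by linarith) (by linarith)) a1 a2 a3 (by dsimp only; linarith) (by dsimp only; linarith)
      (by dsimp only; nlinarith)
    · convert cl (x - 1) (by linarith) (by linarith) using 2; ring
    · convert cl (x + 1) (by linarith) (by linarith) using 2; ring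
  · refine IsOpen.and ?_ (IsOpen.and ?_ (IsOpen.and ?_ ?_)) <;>
      exact isOpen_lt (by fun_prop) (by fun_prop)
  · refine ⟨?_, ?_, ?_, ?_⟩ <;> dsimp only <;> nlinarith

theorem sound_run {M : Sys E C K} {T : ℕ} {pl : ℕ → E} {Y : Neu (Alp E C K) → Set (ℝ × ℝ)}
    (cY : ∀ a, Convex ℝ (Y a)) (hY : ∀ σ, InC (T + 5) (Rule M T pl) σ ↔ ∃ z, σ = fun a => z ∈ Y a) :
    WeakRun M T pl := by
  obtain ⟨Y, cY, hY, hp⟩ := normalize (rule_empty M T pl) cY hY
  have pin := pin_all cY hY hp fun r t π j ht h => (h j).1 ht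
  have p2 : ∀ t : ℕ, (1 : ℤ) ≤ 2 ^ t := fun t => one_le_pow₀ (by norm_num)
  have rule : ∀ {l : ℕ} {α β : ℤ} {w : ℝ × ℝ}, 2 ≤ l → w ∈ OC α β → 0 ≤ α → α ≤ β → β ≤ α + 10 →
      ∀ t ≤ T, ∃ r : Fin 3, (86 < w.1 / 2 ^ l → w.1 / 2 ^ l < 89 → r = 1) ∧
        Rule M T pl r t fun i s => pt l w ∈ Y (.inr (t + i, s)) := by
    intro l α β w hl hw h0 h1 h2 t htT
    obtain ⟨p, q, rfl, a1, a2, a3, a4⟩ := oc_param hw h1
    have b0 : (0 : ℝ) ≤ α := by exact_mod_cast h0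
    have b1 : (α : ℝ) ≤ β := by exact_mod_cast h1
    have b2 : (β : ℝ) ≤ α + 10 := by exact_mod_cast h2
    have b3 : (4 : ℝ) ^ 2 ≤ 4 ^ l := pow_le_pow_right₀ (by norm_num) hl
    obtain ⟨r, k1, k2⟩ := var_of hY hp (z := pt l (cr p q))
      (div_pos (by simp only [cr]; linarith) (by positivity)) (by
        have e : sc l (pt l (cr p q)) = cr p q := by ext <;> simp only [sc, pt] <;> field_simp
        have := ht_sc l (pt l (cr p q))
        rw [e] at this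
        have c : ht (cr p q) < 35 + 144 := by simp only [ht, cr]; nlinarith
        nlinarith)
    exact ⟨r, k2, k1.2.2.2 t (by omega)⟩
  have deep : ∀ t ≤ T, ∀ s, Deep (pt (t + 2) ⁻¹' Y (.inr (t, .inr s))) (336 * 2 ^ t - 16)
      (368 * 2 ^ t + 16) := by
    intro t ht s
    have := p2 t
    have := deep_of (X := pt (t + 2) ⁻¹' Y (.inr (t, .inr s))) (convex_sc (cY _) _)
      (lo := 42 * 2 ^ (t + 4) - 42) (hi := 46 * 2 ^ (t + 4) + 42) (by rw [pow_add]; omega)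
      fun m h1 h2 w hw => by
        obtain ⟨r, -, h⟩ := rule (l := t + 4) (by omega) hw (by rw [pow_add] at h1; omega) le_rfl
          (by omega) t ht
        have := (h m).2.2.2.1 (by omega) (pin (t + 4) (by omega) m m h1 h2 le_rfl (by omega) _ hw) s
        rwa [pt_psi, pt_psi] at this
    intro x h1 h2
    exact this x (by push_cast; rw [pow_add]; linarith) (by push_cast; rw [pow_add]; linarith)
  have mk : ∀ j : ℤ, psi (2 * j + 5, 36 - (2 * j + 5) ^ 2) ∈ OC (2 * j) (2 * j + 9) ∧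
      ((2 * j + 5, 36 - (2 * j + 5) ^ 2) : ℝ × ℝ) ∈ OC (j + 2) (j + 2) := fun j => by
    simp only [oc_iff, ht, psi]
    push_cast
    refine ⟨⟨?_, ?_, ?_, ?_⟩, ?_, ?_, ?_, ?_⟩ <;> nlinarith
  have tnt : ∀ t ≤ T, ∀ j : ℤ, 85 * 2 ^ t ≤ j → j < 86 * 2 ^ t → ∀ s,
      pt (t + 2) (psi (2 * j + 5, 36 - (2 * j + 5) ^ 2)) ∈ Y (.inr (t, .inr s)) → ∀ p q : ℝ,
      35 < (p - 4 * j + 2) * (q - 4 * j + 2) → 35 < (22 + 4 * j - p) * (22 + 4 * j - q) →
      4 * j - 2 < p → q < 4 * j + 22 → p ≤ q → pt (t + 2) (cr p q) ∈ Y (.inr (t, .inr s)) := by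
    intro t htT j h1 h2 s h p q a1 a2 a3 a4 a5
    have b1 : (85 * 2 ^ t : ℝ) ≤ j := by exact_mod_cast h1
    have b2 : (j : ℝ) < 86 * 2 ^ t := by exact_mod_cast h2
    have b3 : (1 : ℝ) ≤ 2 ^ t := one_le_pow₀ (by norm_num)
    refine interior_subset (s := pt (t + 2) ⁻¹' Y (.inr (t, .inr s))) (tent (convex_sc (cY _) _)
      (deep t htT s) (m := 4 * j + 10) ?_ (by linarith) (by linarith) (z := cr p q) ?_ ?_ ?_ ?_ ?_)
    · rwa [show psi (2 * j + 5, 36 - (2 * j + 5) ^ 2) =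
        ((4 * j + 10, 144 - (4 * j + 10) ^ 2) : ℝ × ℝ) by
        ext <;> simp only [psi] <;> ring] at h
    all_goals simp only [ht, cr]; nlinarith [sq_nonneg (p - q)]
  have lab : ∀ t ≤ T, ∀ j : ℤ, 85 * 2 ^ t ≤ j → j < 86 * 2 ^ t → ∃ a : E × C, a.1 = adv M pl t j ∧
      pt (t + 2) (psi (2 * j + 5, 36 - (2 * j + 5) ^ 2)) ∈ Y (.inr (t, .inr (.inl (c11 j, a)))) := by
    intro t
    induction t with
    | zero =>
      intro ht j h1 h2
      obtain rfl : j = 85 := by omega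
      obtain ⟨r, k, h⟩ := rule (l := 2) le_rfl (mk 85).1 (by omega) (by omega) (by omega) 0 ht
      obtain ⟨a, a1, a2⟩ := (h 85).2.1 rfl
        (pin 2 (by omega) _ _ (by omega) (by omega) (by omega) (by omega) _ (mk 85).1) (by
          have := pin 1 (by omega) _ _ (by omega) (by omega) (by omega) (by omega) _ (mk 85).2
          simp only [mem_preimage, ← pt_psi 1] at this
          exact this)
      rw [k (by norm_num [psi]) (by norm_num [psi])] at a2
      exact ⟨a, a2, a1⟩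
    | succ t ih =>
      intro ht j h1 h2
      have := p2 t
      rw [pow_succ] at h1 h2
      obtain ⟨b, b1, b2⟩ := ih (by omega) (j / 2) (by omega) (by omega)
      obtain ⟨r, -, h⟩ := rule (l := t + 3) (by omega) (mk j).1 (by omega) (by omega) (by omega) t
        (by omega)
      obtain ⟨a, a1, a2⟩ := (h j).2.2.1 (by omega)
        (pin (t + 3) (by omega) _ _ (by rw [pow_add]; omega) (by rw [pow_add]; omega) (by omega)
          (by omega) _ (mk j).1) (by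
          have := pin (t + 2) (by omega) _ _ (by rw [pow_add]; omega) (by rw [pow_add]; omega)
            (by omega) (by omega) _ (mk j).2
          simp only [mem_preimage, ← pt_psi (t + 2)] at this
          exact this)
      refine ⟨a, (a2 b ?_).trans (by rw [b1]; rfl), a1⟩
      have c1 : (2 * (j / 2 : ℤ) : ℝ) ≤ j := by exact_mod_cast (by omega : 2 * (j / 2) ≤ j)
      have c2 : (j : ℝ) ≤ 2 * (j / 2 : ℤ) + 1 := by exact_mod_cast (by omega : j ≤ 2 * (j / 2) + 1)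
      have := tnt t (by omega) (j / 2) (by omega) (by omega) _ b2 (2 * j + 4) (2 * j + 6)
        (by nlinarith) (by nlinarith) (by linarith) (by linarith) (by linarith)
      rwa [← pt_psi, show cr (2 * j + 4) (2 * j + 6) =
        ((2 * j + 5, 36 - (2 * j + 5) ^ 2) : ℝ × ℝ) by
        ext <;> simp only [cr] <;> ring] at this
  have : Nonempty (E × C) := by
    obtain ⟨a, -⟩ := lab 0 (by omega) 85 (by omega) (by omega)
    exact ⟨a⟩
  choose! c hc1 hc2 using lab T le_rfl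
  let X : ℤ → K → Gd → Set (ℝ × ℝ) := fun j k g => pt (T + 2) ⁻¹' Y (.inr (T, .inr (.inr (c11 j, k, g))))
  have pT := p2 T
  have last : ∀ j : ℤ, 85 * 2 ^ T ≤ j → j < 86 * 2 ^ T → ∀ α β w, α ≤ β → β ≤ α + 10 → -6 ≤ α → β ≤ 15 →
      WO (2 * j + 1) w α β → ∃ r, WW (fun i s => pt (T + 2) w ∈ Y (.inr (T + i, s))) j α β ∧
        Rule M T pl r T fun i s => pt (T + 2) w ∈ Y (.inr (T + i, s)) := by
    intro j h1 h2 α β w a1 a2 a3 a4 hw
    obtain ⟨r, -, h⟩ := rule (l := T + 2) (by omega) hw (by omega) (by omega) (by omega) T le_rfl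
    exact ⟨r, pin (T + 2) (by omega) _ _ (by rw [pow_add]; omega) (by rw [pow_add]; omega) (by omega)
      (by omega) _ hw, h⟩
  have gu : ∀ j : ℤ, 85 * 2 ^ T ≤ j → j < 86 * 2 ^ T → ∀ k w,
      GU (WO (2 * j + 1) w) (fun g => w ∈ X j k g) (w ∈ X (j + 1) k (.inl false)) :=
    fun j h1 h2 k w => GU.imp fun α β a1 a2 a3 a4 hw => by
      obtain ⟨r, b1, b2⟩ := last j h1 h2 α β w a1 a2 a3 a4 hw
      exact ⟨_, b1, (((b2 j).2.2.2.2 rfl).2 k).1⟩
  refine ⟨c, fun j k => val (X j k (.inl false)) (2 * j + 1), fun j k => val_mem _ _,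
    fun j h1 h2 => ⟨hc1 j h1 h2, fun h3 => ⟨?_, fun k => ?_⟩⟩⟩
  · obtain ⟨r, b1, b2⟩ := last j h1 h2 2 7 (cr (4 * j + 6) (4 * j + 18)) (by omega) (by omega) (by omega)
      (by omega) (by apply cr_mem_OC (by omega) <;> push_cast <;> linarith)
    refine ((b2 j).2.2.2.2 rfl).1 b1 _ _ (tnt T le_rfl j h1 h2 _ (hc2 j h1 h2) _ _ ?_ ?_ ?_ ?_ ?_)
      (tnt T le_rfl (j + 1) (by omega) h3 _ (hc2 (j + 1) (by omega) h3) _ _ ?_ ?_ ?_ ?_ ?_) <;>
      push_cast <;> nlinarith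
  · have b1 : (85 * 2 ^ T : ℝ) ≤ j := by exact_mod_cast h1
    have b2 : (j : ℝ) + 1 < 86 * 2 ^ T := by exact_mod_cast h3
    have b3 : (1 : ℝ) ≤ 2 ^ T := one_le_pow₀ (by norm_num)
    have cX : ∀ j g, Convex ℝ (X j k g) := fun j g => convex_sc (cY _) _
    have dX := fun j g => deep T le_rfl (.inr (c11 j, k, g))
    have e := copy_val (cX j) (dX j) (by push_cast; linarith) (by push_cast; linarith) (gu j h1 h2 k)
      (cX _ _) (dX _ _) (by
        convert center (gu (j + 1) (by omega) h3 k) (.inl false) using 2 <;> simp [cen] <;> ring)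
    simp only [show 2 * (j + 1) + 1 = 2 * j + 1 + 2 by ring, e]
    refine op_val (cX j) (dX j) (by push_cast; linarith) (by push_cast; linarith) (gu j h1 h2 k)
      fun w => GC.imp fun α β a1 a2 a3 a4 hw => ?_
    obtain ⟨r, c1, c2⟩ := last j h1 h2 α β w (by omega) (by omega) (by omega) (by omega) hw
    refine ⟨_, c1, (((c2 j).2.2.2.2 rfl).2 k).2 _ ?_⟩
    obtain ⟨p, q, rfl, d1, d2, d3, d4⟩ := oc_param hw (by omega)
    have e1 : (0 : ℝ) ≤ α := by exact_mod_cast a1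
    have e2 : (α : ℝ) ≤ 1 := by exact_mod_cast a2
    have e3 : (6 : ℝ) ≤ β := by exact_mod_cast a3
    have e4 : (β : ℝ) ≤ 7 := by exact_mod_cast a4
    push_cast at d1 d2 d3 d4
    exact tnt T le_rfl j h1 h2 _ (hc2 j h1 h2) _ _ (by nlinarith) (by nlinarith) (by linarith)
      (by linarith) (by linarith)

end Pool.Agent.Lib.MP_79902f_lc
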