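import Pool.Agent.Lib.MP_79902f_lc.Model

/-!
Every convex realization of the code carries a reconfiguration sequence of words.
-/

namespace Pool.Agent.Lib.MP_79902f_lc

open Set

variable {A : Type} {n : ℕ} {H : A → A → Prop} {B : Fin 3 → ℕ → A → Prop}

/-- A reconfiguration sequence, in the weak form extracted from a realization. -/
def WeakSeq (n : ℕ) (H : A → A → Prop) (B : Fin 3 → ℕ → A → Prop) : Prop :=
  ∃ (N : ℕ) (w : ℕ → ℕ → A), (∀ t, t + 1 < n → B 0 t (w 0 t)) ∧
    (∀ t, t + 1 < n → B 2 t (w N t)) ∧ (∀ i t, i ≤ N → t + 1 < n → ∃ r, B r t (w i t)) ∧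
    ∀ i j t, i ≤ N → j ≤ N → i ≤ j + 1 → j ≤ i + 1 → t + 3 < n → H (w i t) (w j (t + 1))

/-- The probe point of generation `p` with abscissa `x`. -/
noncomputable def probe (p : ℕ) (x : ℝ) : ℝ × ℝ := (x, -x ^ 2 + 36 / 4 ^ p)

theorem conv3 {S : Set (ℝ × ℝ)} (hS : Convex ℝ S) {a b c : ℝ × ℝ} (ha : a ∈ S) (hb : b ∈ S)
    (hc : c ∈ S) {u v w : ℝ} (hu : 0 ≤ u) (hv : 0 ≤ v) (hw : 0 ≤ w) (h : u + v + w = 1) :
    u • a + v • b + w • c ∈ S := by
  have := hS.sum_mem (t := Finset.univ) (w := ![u, v, w]) (z := ![a, b, c])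
    (fun i _ => by fin_cases i <;> simpa) (by simpa [Fin.sum_univ_three] using h)
    (fun i _ => by fin_cases i <;> simpa)
  simpa [Fin.sum_univ_three] using this

theorem probe_mem {S : Set (ℝ × ℝ)} (hS : Convex ℝ S) {t : ℕ} {x x' : ℝ}
    (h0 : probe (t + 1) x ∈ S) (h1 : probe (t + 3) (x - 1 / 2 ^ t) ∈ S)
    (h2 : probe (t + 3) (x + 1 / 2 ^ t) ∈ S) (hx : |x' - x| ≤ 1 / 2 ^ (t + 1)) :
    probe (t + 2) x' ∈ S := by
  obtain ⟨s, hs⟩ : ∃ s, x' = x + s / 2 ^ (t + 1) := ⟨(x' - x) * 2 ^ (t + 1), by field_simp; ring⟩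
  have hs' : |s| ≤ 1 := by
    rw [hs, add_sub_cancel_left, abs_div, abs_of_pos (by positivity : (0 : ℝ) < 2 ^ (t + 1))] at hx
    rwa [div_le_div_iff_of_pos_right (by positivity)] at hx
  obtain ⟨s1, s2⟩ := abs_le.1 hs'
  have := conv3 hS h0 h1 h2 (u := (43 - 4 * s ^ 2) / 151)
    (v := ((108 + 4 * s ^ 2) / 151 - s / 2) / 2) (w := ((108 + 4 * s ^ 2) / 151 + s / 2) / 2)
    (by nlinarith) (by nlinarith) (by nlinarith) (by ring)
  convert this using 1
  have e4 : (4 : ℝ) ^ t = (2 ^ t) ^ 2 := by rw [← pow_mul, mul_comm, pow_mul]; norm_num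
  subst hs
  ext
  · simp only [probe, Prod.fst_add, Prod.smul_fst, smul_eq_mul, pow_succ]
    field_simp
    ring
  · simp only [probe, Prod.snd_add, Prod.smul_snd, smul_eq_mul, pow_succ, e4]
    field_simp
    ring

theorem convex_sc {S : Set (ℝ × ℝ)} (hS : Convex ℝ S) (t : ℕ) :
    Convex ℝ {w : ℝ × ℝ | (w.1 / 2 ^ t, w.2 / 4 ^ t) ∈ S} := by
  intro w hw w' hw' a b ha hb hab
  have := hS hw hw' ha hb hab
  simp only [mem_ofPred_eq, Prod.fst_add, Prod.snd_add, Prod.smul_fst, Prod.smul_snd, smul_eq_mul,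
    Prod.smul_mk, Prod.mk_add_mk] at this ⊢
  convert this using 2 <;> ring

theorem sound_normal (hn : 2 ≤ n) {Y : Neu A → Set (ℝ × ℝ)} (cY : ∀ a, Convex ℝ (Y a))
    (hY : ∀ z, InCode n H B (fun a => z ∈ Y a))
    (hp : ∀ i : BL, Sp (Y (.inl (i, false))) (Y (.inl (i, true))) i.f) : WeakSeq n H B := by
  classical
  have step : ∀ z t j, t + 1 < n →
      StepAt (xs (fun a => z ∈ Y a) t) (xs (fun a => z ∈ Y a) (t + 1)) j := by
    intro z t j ht
    rcases hY z with ⟨z', h1, h2⟩ | ⟨r, h⟩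
    · have e : ∀ t, xs (pat0 z' : Neu A → Prop) t = fun m => om z'.1 < z'.2 ∧ Per (sc t z') m :=
        fun t => funext fun m => propext (xs_pat0 h1 t m)
      rw [h2, e, e, sc_succ]
      exact step_and (step_per _ j)
    · exact (h.2.2.2 t (by omega) j).1 ht
  let F : ℕ → ℤ → Set (ℝ × ℝ) := fun t m =>
    {w : ℝ × ℝ | (w.1 / 2 ^ t, w.2 / 4 ^ t) ∈ Y (.inr (t, .inl (cls m)))}
  have pin : ∀ t, t < n → CellPin (F t) (42 * 2 ^ t - 42) (46 * 2 ^ t + 42) := by
    intro t
    induction t with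
    | zero =>
      intro _ α β h1 h2 h3 h4 z ⟨z1, z2, z3, z4⟩
      have tr : ∀ m : ℤ, 0 ≤ m → m ≤ 88 → ∃ k : Fin 89, ∀ w, (BL.l k).f w = w.2 - lin (2 * m + 1) w.1 := by
        intro m h0 h1
        refine ⟨⟨m.toNat, by omega⟩, fun w => ?_⟩
        have : ((m.toNat : ℕ) : ℝ) = (m : ℝ) := by exact_mod_cast Int.toNat_of_nonneg h0
        simp only [BL.f, this]
      obtain ⟨k1, e1⟩ := tr (α - 1) (by omega) (by omega)
      obtain ⟨k2, e2⟩ := tr α (by omega) (by omega)
      obtain ⟨k3, e3⟩ := tr β (by omega) (by omega)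
      obtain ⟨k4, e4⟩ := tr (β + 1) (by omega) (by omega)
      have y1 := (hp (.l k1) z).1 (by rw [e1]; exact sub_neg.2 z1)
      have y2 := (hp (.l k2) z).2 (by rw [e2]; exact sub_pos.2 z2)
      have y3 := (hp (.l k3) z).2 (by rw [e3]; exact sub_pos.2 z3)
      have y4 := (hp (.l k4) z).1 (by rw [e4]; exact sub_neg.2 z4)
      rcases hY z with ⟨z', a1, a2⟩ | ⟨r, h⟩
      · have g : ∀ a, z ∈ Y a ↔ pat0 z' a := fun a => (congrFun a2 a).to_iff
        rw [g] at y1 y2 y3 y4
        simp only [pat0, e1, e2, e3, e4, if_true, Bool.false_eq_true, if_false, sub_neg,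
          sub_nonneg] at y1 y2 y3 y4
        have hc : HC α β z' := ⟨y1, not_lt.2 y2, not_lt.2 y3, y4⟩
        have ho : om z'.1 < z'.2 := by
          obtain ⟨p, q, rfl, b1, b2, b3, b4⟩ := hc.param h3
          have c1 : (1 : ℝ) ≤ α := by exact_mod_cast (show 1 ≤ α by omega)
          have c2 : (β : ℝ) ≤ 87 := by exact_mod_cast (show β ≤ 87 by omega)
          have c3 : (α : ℝ) ≤ β := by exact_mod_cast h3
          have c4 : 2 < (p + q) / 2 := by linarith
          have c5 : (p + q) / 2 < 176 := by linarith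
          simp only [om, cr]
          nlinarith [sq_nonneg (p - q)]
        have : (fun m => z ∈ F 0 m) = Per z' := by
          funext m
          have := xs_pat0 (A := A) a1 0 m
          rw [sc_zero, ← a2] at this
          simpa [F, xs, ho] using this
        rw [this]
        exact hc.win (by omega)
      · exact absurd ((h.1 _ _).1 y2) (by simp [side])
    | succ t ih =>
      intro ht
      have := cellPin_step (F := F t) (G := F (t + 1)) (fun m => convex_sc (cY _) _)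
        (fun m => by
          have : cls (m + 22) = cls m := by simp [cls]
          simp only [F, this])
        (fun z j => by
          have e : ((psi z).1 / 2 ^ (t + 1), (psi z).2 / 4 ^ (t + 1))
              = (z.1 / 2 ^ t, z.2 / 4 ^ t) := by
            ext <;> simp only [psi, pow_succ] <;> field_simp
          simp only [F, mem_ofPred_eq, e]
          exact step _ t j ht) (ih (by omega))
      convert this using 1 <;> ring
  have win : ∀ (p : ℕ) (x : ℝ), p < n → 84 ≤ x → x ≤ 92 → (∀ k : ℤ, 2 ^ p * x ≠ 2 * k) →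
      ∃ α, Win (xs (fun a => probe p x ∈ Y a) p) α α := by
    intro p x hp' h1 h2 h3
    have b1 := Int.floor_le (2 ^ p * x / 2)
    have b2 := Int.lt_floor_add_one (2 ^ p * x / 2)
    set α := ⌊2 ^ p * x / 2⌋
    have b3 : 2 * (α : ℝ) < 2 ^ p * x := lt_of_le_of_ne (by linarith) (h3 α).symm
    have pp : (0 : ℝ) < 2 ^ p := by positivity
    have c1 : 42 * 2 ^ p - 42 < α := by
      have : (42 * 2 ^ p - 42 : ℝ) < α := by nlinarith
      exact_mod_cast this
    have c2 : α < 46 * 2 ^ p + 42 := by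
      have : (α : ℝ) < 46 * 2 ^ p + 42 := by nlinarith
      exact_mod_cast this
    have hh : ht (sc p (probe p x)) = 36 := by
      rw [ht_sc]; simp only [ht, probe]; field_simp; ring
    have hx : (sc p (probe p x)).1 = 2 ^ p * x := rfl
    have ab : ∀ (m : ℤ) (z : ℝ × ℝ), Abv m z ↔ 35 + (z.1 - (2 * m + 1)) ^ 2 < ht z := by
      intro m z
      unfold Abv lin ht
      constructor <;> intro h <;> nlinarith
    have := pin p hp' α α c1 c2 le_rfl (by omega) (sc p (probe p x)) (by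
      refine ⟨?_, ?_, ?_, ?_⟩ <;> simp only [bel_iff, ab, hh, hx] <;> push_cast <;> nlinarith)
    refine ⟨α, ?_⟩
    convert this using 2 with m
    have e : ((sc p (probe p x)).1 / 2 ^ p, (sc p (probe p x)).2 / 4 ^ p) = probe p x := by
      ext <;> simp only [sc] <;> field_simp
    simp only [F, mem_ofPred_eq, e, xs]
  have var : ∀ p x, 1 ≤ p → 84 ≤ x → ∃ r, VarPat n H B r (fun a => probe p x ∈ Y a) := by
    intro p x h1 h2
    rcases hY (probe p x) with ⟨z', a1, a2⟩ | h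
    · exfalso
      have g : ∀ a, probe p x ∈ Y a ↔ pat0 z' a := fun a => (congrFun a2 a).to_iff
      refine a1 ⟨?_, fun k => ?_⟩
      · have := (hp (.h false) (probe p x)).2 (by simp [BL.f, probe]; linarith)
        simpa [g, pat0, BL.f] using this
      · have h4 : (4 : ℝ) ^ 1 ≤ 4 ^ p := pow_le_pow_right₀ (by norm_num) h1
        have h5 : (36 : ℝ) / 4 ^ p < 35 := by
          rw [div_lt_iff₀ (by positivity)]; linarith
        have h6 := bel_of_lt (z := probe p x) (by simp only [ht, probe]; linarith) (k : ℕ)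
        have := (hp (.l k) (probe p x)).1 (by
          simp only [Bel, BL.f] at h6 ⊢
          push_cast at h6
          linarith)
        simpa [g, pat0] using this
    · exact h
  let X : ℕ → ℝ := fun i => 85 + (i + 1 / 3) / 2 ^ n
  have pn : (0 : ℝ) < 2 ^ n := by positivity
  have p1 : (1 : ℝ) ≤ 2 ^ n := one_le_pow₀ (by norm_num)
  have X1 : ∀ i, 85 ≤ X i := fun i => le_add_of_nonneg_right (by positivity)
  have X2 : ∀ i, i ≤ 5 * 2 ^ n → X i ≤ 91 := by
    intro i hi
    have : (i : ℝ) ≤ 5 * 2 ^ n := by exact_mod_cast hi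
    have : (i + 1 / 3 : ℝ) / 2 ^ n ≤ 6 := by rw [div_le_iff₀ pn]; linarith
    simp only [X]; linarith
  have ng : ∀ i p (k : ℤ), p ≤ n → 2 ^ p * X i ≠ k := by
    intro i p k hp' e
    obtain ⟨d, rfl⟩ := Nat.exists_eq_add_of_le hp'
    have e2 : (3 * (k * 2 ^ d) : ℝ) = 3 * (85 * 2 ^ (p + d) + i) + 1 := by
      rw [← e]; simp only [X, pow_add]; field_simp; ring
    have e3 : (3 * (k * 2 ^ d) : ℤ) = 3 * (85 * 2 ^ (p + d) + i) + 1 := by exact_mod_cast e2
    omega
  have let1 : ∀ i t, i ≤ 5 * 2 ^ n → t + 1 < n → ∃ a, ∃ r, B r t a ∧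
      probe (t + 1) (X i) ∈ Y (.inr (t, .inr a)) ∧ (X i < 86 → r = 0) ∧ (89 < X i → r = 2) := by
    intro i t hi ht
    obtain ⟨r, h⟩ := var (t + 1) (X i) (by omega) (by linarith [X1 i])
    obtain ⟨α, hα⟩ := win (t + 1) (X i) ht (by linarith [X1 i]) (by linarith [X2 i hi])
      (fun k => by exact_mod_cast ng i (t + 1) (2 * k) ht.le)
    obtain ⟨a, a1, a2⟩ := (h.2.2.2 t (by omega) α).2.1 hα
    refine ⟨a, r, a1, a2, fun hx => ?_, fun hx => ?_⟩
    · have := (h.1 _ _).1 ((hp (.z false) (probe (t + 1) (X i))).1 (by simp [BL.f, probe]; linarith))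
      simp [side] at this
      exact this
    · have := (h.1 _ _).1 ((hp (.z true) (probe (t + 1) (X i))).2 (by simp [BL.f, probe]; linarith))
      simp [side] at this
      omega
  have : Nonempty A := by
    obtain ⟨a, -⟩ := let1 0 0 (by positivity) (by omega)
    exact ⟨a⟩
  choose! a r ha1 ha2 ha3 ha4 using let1
  refine ⟨5 * 2 ^ n, a, fun t ht => ?_, fun t ht => ?_, fun i t hi ht => ⟨_, ha1 i t hi ht⟩,
    fun i j t hi hj h1 h2 ht => ?_⟩
  · rw [← ha3 0 t (by positivity) ht]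
    · exact ha1 0 t (by positivity) ht
    · have : ((0 : ℕ) + 1 / 3 : ℝ) / 2 ^ n < 1 := by rw [div_lt_iff₀ pn]; push_cast; linarith
      simp only [X]; linarith
  · rw [← ha4 _ t le_rfl ht]
    · exact ha1 _ t le_rfl ht
    · have : 4 < ((5 * 2 ^ n : ℕ) + 1 / 3 : ℝ) / 2 ^ n := by
        rw [lt_div_iff₀ pn]; push_cast; linarith
      simp only [X]; linarith
  · have q0 : (0 : ℝ) < 1 / 2 ^ t := by positivity
    have q1 : (1 : ℝ) / 2 ^ t ≤ 1 := by
      rw [div_le_one (by positivity)]; exact one_le_pow₀ (by norm_num)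
    have deep : ∀ x : ℝ, 84 ≤ x → x ≤ 92 → (∀ k : ℤ, 2 ^ (t + 3) * x ≠ 2 * k) →
        probe (t + 3) x ∈ Y (.inr (t, .inr (a i t))) := by
      intro x b1 b2 b3
      obtain ⟨r, h⟩ := var (t + 3) x (by omega) b1
      obtain ⟨α, hα⟩ := win (t + 3) x ht b1 b2 b3
      exact (h.2.2.2 t (by omega) α).2.2.2 hα _
    have e8 : (2 : ℝ) ^ (t + 3) * (1 / 2 ^ t) = 8 := by rw [pow_add]; field_simp; norm_num
    have m1 := probe_mem (cY _) (ha2 i t hi (by omega))
      (deep _ (by linarith [X1 i]) (by linarith [X2 i hi]) (fun k e => by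
        refine ng i (t + 3) (2 * k + 8) ht.le ?_
        push_cast; linarith))
      (deep _ (by linarith [X1 i]) (by linarith [X2 i hi]) (fun k e => by
        refine ng i (t + 3) (2 * k - 8) ht.le ?_
        push_cast; linarith)) (x' := X j) (by
        have c1 : (i : ℝ) ≤ j + 1 := by exact_mod_cast h1
        have c2 : (j : ℝ) ≤ i + 1 := by exact_mod_cast h2
        have c3 : X j - X i = (j - i) / 2 ^ n := by simp only [X]; ring
        have c4 : (2 : ℝ) ^ (t + 1) ≤ 2 ^ n := pow_le_pow_right₀ (by norm_num) (by omega)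
        rw [c3, abs_div, abs_of_pos pn]
        exact div_le_div₀ zero_le_one (abs_le.2 ⟨by linarith, by linarith⟩) (by positivity) c4)
    obtain ⟨r, h⟩ := var (t + 2) (X j) (by omega) (by linarith [X1 j])
    obtain ⟨α, hα⟩ := win (t + 2) (X j) (by omega) (by linarith [X1 j]) (by linarith [X2 j hj])
      (fun k => by exact_mod_cast ng j (t + 2) (2 * k) (by omega))
    exact (h.2.2.2 t (by omega) α).2.2.1 hα _ _ (ha2 j (t + 1) hj (by omega)) m1

theorem sound (hn : 2 ≤ n) {Y : Neu A → Set (ℝ × ℝ)} (cY : ∀ a, Convex ℝ (Y a))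
    (hY : ∀ σ, InCode n H B σ ↔ ∃ z, σ = fun a => z ∈ Y a) : WeakSeq n H B := by
  have hY' : ∀ z, InCode n H B (fun a => z ∈ Y a) := fun z => (hY _).2 ⟨z, rfl⟩
  have act : ∀ r : Fin 3, ∃ z : ℝ × ℝ, Act z ∧ reg z.1 = r := by
    intro r
    refine ⟨(85 + 5 / 2 * (r : ℕ), -10000), ⟨by positivity, fun k => ?_⟩, ?_⟩
    · have hr : ((r : ℕ) : ℝ) ≤ 2 := by exact_mod_cast (show (r : ℕ) ≤ 2 by omega)
      have h0 : (0 : ℝ) ≤ (r : ℕ) := Nat.cast_nonneg _
      have h6 := bel_of_lt (z := (85 + 5 / 2 * (r : ℕ), -10000)) (by simp only [ht]; nlinarith) (k : ℕ)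
      simp only [Bel, BL.f] at h6 ⊢
      push_cast at h6
      linarith
    · fin_cases r <;> norm_num [reg]
      rfl
  obtain ⟨φ, cv, hφ⟩ := force (N := fun i => Y (.inl (i, false))) (P := fun i => Y (.inl (i, true)))
    (fun i => cY _) (fun i => cY _) (fun z => by
      rcases hY' z with ⟨z', -, a2⟩ | ⟨r, h⟩
      · have g : ∀ a, z ∈ Y a ↔ pat0 z' a := fun a => (congrFun a2 a).to_iff
        exact ⟨z', fun i => by simp [g, pat0]⟩
      · obtain ⟨z', a1, rfl⟩ := act r
        exact ⟨z', fun i => ⟨(h.1 _ _).trans (side_reg a1 i false).symm,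
          (h.1 _ _).trans (side_reg a1 i true).symm⟩⟩) (fun z' => by
      by_cases h : Act z'
      · obtain ⟨z, hz⟩ := (hY (Sum.elim (fun p => p.2 = side (reg z'.1) p.1) fun _ => False)).1
          (Or.inr ⟨reg z'.1, varPat_empty n H B _ (fun i b => Iff.rfl) (fun p => id)⟩)
        exact ⟨z, fun i => ⟨(congrFun hz (.inl (i, false))).symm.to_iff.trans
          (side_reg h i false).symm, (congrFun hz (.inl (i, true))).symm.to_iff.trans
          (side_reg h i true).symm⟩⟩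
      · obtain ⟨z, hz⟩ := (hY (pat0 z')).1 (Or.inl ⟨z', h, rfl⟩)
        have g : ∀ a, z ∈ Y a ↔ pat0 z' a := fun a => (congrFun hz a).symm.to_iff
        exact ⟨z, fun i => by simp [g, pat0]⟩)
  exact sound_normal hn (Y := fun a => φ ⁻¹' Y a) (fun a => cv _ (cY a)) (fun z => hY' (φ z)) hφ

end Pool.Agent.Lib.MP_79902f_lc
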