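import Mathlib

/-!
Convexity lemmas in the plane and the doubling step for families of tangent lines.
-/

namespace Pool.Agent.Lib.MP_79902f_lc

open Set

theorem sep {X : Set (ℝ × ℝ)} (hX : Convex ℝ X) (hi : (interior X).Nonempty) {z : ℝ × ℝ}
    (hz : z ∉ interior X) :
    ∃ a b : ℝ, (a ≠ 0 ∨ b ≠ 0) ∧ ∀ w ∈ closure X, a * w.1 + b * w.2 ≤ a * z.1 + b * z.2 := by
  obtain ⟨f, hf, h⟩ := geometric_hahn_banach_of_nonempty_interior_point hX hz hi
  have e : ∀ w : ℝ × ℝ, f w = f (1, 0) * w.1 + f (0, 1) * w.2 := by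
    intro w
    have : w = w.1 • ((1 : ℝ), (0 : ℝ)) + w.2 • ((0 : ℝ), (1 : ℝ)) := by ext <;> simp
    conv_lhs => rw [this]
    rw [map_add, map_smul, map_smul]
    simp [mul_comm]
  refine ⟨f (1, 0), f (0, 1), ?_, fun w hw => ?_⟩
  · by_contra hc
    push Not at hc
    apply hf
    ext <;> simp [hc.1, hc.2]
  · rw [← e, ← e]
    exact closure_minimal (t := {w | f w ≤ f z}) h (isClosed_le f.continuous continuous_const) hw

theorem edge_out {X : Set (ℝ × ℝ)} (hX : Convex ℝ X) (hi : (interior X).Nonempty)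
    {a b u q p : ℝ} (huq : u < q) (hqp : q < p) (hU : (u, a * u + b) ∈ closure X)
    (hP : (p, a * p + b) ∈ closure X) (hQ : (q, a * q + b) ∉ interior X)
    {o : ℝ × ℝ} (ho : o ∈ X) (ho' : o.2 < a * o.1 + b) :
    ∀ z ∈ X, z.2 ≤ a * z.1 + b := by
  obtain ⟨c, d, hcd, h⟩ := sep hX hi hQ
  have h1 := h _ hU
  have h2 := h _ hP
  have h3 := h _ (subset_closure ho)
  dsimp only at h1 h2 h3
  have e : c + d * a = 0 := by
    apply le_antisymm
    · by_contra hc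
      push Not at hc
      nlinarith
    · by_contra hc
      push Not at hc
      nlinarith
  have hc : c = -(d * a) := by linarith
  have hd : 0 < d := by
    rcases lt_trichotomy d 0 with hd | hd | hd
    · exfalso
      rw [hc] at h3
      nlinarith
    · exfalso
      rcases hcd with h' | h'
      · apply h'; rw [hc, hd]; simp
      · exact h' hd
    · exact hd
  intro z hz
  have h4 := h _ (subset_closure hz)
  dsimp only at h4
  rw [hc] at h4
  by_contra hn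
  push Not at hn
  nlinarith

theorem edge_in {X : Set (ℝ × ℝ)} (hX : Convex ℝ X) (hi : (interior X).Nonempty)
    {a b u p : ℝ} {A B z : ℝ × ℝ} (hU : (u, a * u + b) ∈ closure X)
    (hP : (p, a * p + b) ∈ closure X) (hA : A ∈ closure X) (hB : B ∈ closure X)
    (h1 : u < z.1) (h2 : z.1 < p) (h3 : z.2 < a * z.1 + b) (h4 : A.1 < z.1) (h5 : z.1 < B.1)
    (h6 : A.2 * (B.1 - z.1) + B.2 * (z.1 - A.1) < z.2 * (B.1 - A.1)) : z ∈ X := by
  by_contra hz
  obtain ⟨c, d, hcd, h⟩ := sep hX hi (fun hh => hz (interior_subset hh))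
  have e1 := h _ hU
  have e2 := h _ hP
  have e3 := h _ hA
  have e4 := h _ hB
  dsimp only at e1 e2
  rcases lt_trichotomy d 0 with hd | hd | hd
  · have k1 := mul_le_mul_of_nonneg_right e3 (sub_pos.2 h5).le
    have k2 := mul_le_mul_of_nonneg_right e4 (sub_pos.2 h4).le
    nlinarith
  · rcases hcd with h' | h'
    · rw [hd] at e1 e2
      rcases lt_or_gt_of_ne h' with hc | hc <;> nlinarith
    · exact h' hd
  · have k1 := mul_le_mul_of_nonneg_right e1 (sub_pos.2 h2).le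
    have k2 := mul_le_mul_of_nonneg_right e2 (sub_pos.2 h1).le
    have k3 : 0 < (a * z.1 + b - z.2) * (p - u) := mul_pos (by linarith) (by linarith)
    nlinarith

/-- The tangent line at `τ` of the parabola `y = 35 - x ^ 2`. -/
def lin (τ x : ℝ) : ℝ := τ ^ 2 - 2 * τ * x + 35

/-- Strictly below the line number `m`. -/
def Bel (m : ℤ) (z : ℝ × ℝ) : Prop := z.2 < lin (2 * m + 1) z.1

/-- Strictly above the line number `m`. -/
def Abv (m : ℤ) (z : ℝ × ℝ) : Prop := lin (2 * m + 1) z.1 < z.2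

/-- The open cell of the points above exactly the lines `α, …, β`. -/
def OC (α β : ℤ) : Set (ℝ × ℝ) := {z | Bel (α - 1) z ∧ Abv α z ∧ Abv β z ∧ Bel (β + 1) z}

/-- The pattern of a cell. -/
def Win (x : ℤ → Prop) (α β : ℤ) : Prop := x (α - 1) ∧ ¬ x α ∧ ¬ x β ∧ x (β + 1)

/-- The rules linking a generation of sets to the next one. -/
def StepAt (x x' : ℤ → Prop) (j : ℤ) : Prop :=
  (Win x (j - 5) (j - 2) → x' (2 * j + 1)) ∧ (Win x (j + 2) (j + 9) → x' (2 * j + 1)) ∧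
    (Win x (j + 2) (j + 3) → ¬ x' (2 * j + 1)) ∧ (Win x (j - 9) (j - 2) → x' (2 * j)) ∧
    (Win x (j + 2) (j + 5) → x' (2 * j)) ∧ (Win x (j - 3) (j - 2) → ¬ x' (2 * j))

/-- The small cells in the range have the expected patterns. -/
def CellPin (F : ℤ → Set (ℝ × ℝ)) (lo hi : ℤ) : Prop :=
  ∀ α β : ℤ, lo < α → β < hi → α ≤ β → β ≤ α + 7 → ∀ z ∈ OC α β, Win (fun m => z ∈ F m) α β

/-- The scaling from one generation to the next. -/
def psi (z : ℝ × ℝ) : ℝ × ℝ := (2 * z.1, 4 * z.2)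

/-- The crossing of the tangent lines at `p` and `q`. -/
noncomputable def cr (p q : ℝ) : ℝ × ℝ := ((p + q) / 2, 35 - p * q)

theorem isOpen_Bel (m : ℤ) : IsOpen {z | Bel m z} := by
  unfold Bel lin
  exact isOpen_lt (by fun_prop) (by fun_prop)

theorem isOpen_Abv (m : ℤ) : IsOpen {z | Abv m z} := by
  unfold Abv lin
  exact isOpen_lt (by fun_prop) (by fun_prop)

theorem isOpen_OC (α β : ℤ) : IsOpen (OC α β) :=
  (isOpen_Bel _).inter ((isOpen_Abv _).inter ((isOpen_Abv _).inter (isOpen_Bel _)))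

theorem cr_mem_OC {α β : ℤ} (h : α ≤ β) {p q : ℝ} (h1 : 2 * α - 1 < p) (h2 : p < 2 * α + 1)
    (h3 : 2 * β + 1 < q) (h4 : q < 2 * β + 3) : cr p q ∈ OC α β := by
  have h' : (α : ℝ) ≤ β := by exact_mod_cast h
  simp only [OC, Bel, Abv, lin, cr, mem_ofPred_eq]
  push_cast
  refine ⟨?_, ?_, ?_, ?_⟩ <;> nlinarith

theorem cr_mem_closure {α β : ℤ} (h : α ≤ β) {p q : ℝ} (h1 : 2 * α - 1 ≤ p) (h2 : p ≤ 2 * α + 1)
    (h3 : 2 * β + 1 ≤ q) (h4 : q ≤ 2 * β + 3) : cr p q ∈ closure (OC α β) := by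
  have hc : Continuous (fun s : ℝ => cr (p + s * (2 * α - p)) (q + s * (2 * β + 2 - q))) := by
    unfold cr; fun_prop
  have h0 : (0 : ℝ) ∈ closure (Ioo (0 : ℝ) 1) := by
    rw [closure_Ioo zero_ne_one]; simp
  have := map_mem_closure hc h0 (t := OC α β) (fun s hs => by
    obtain ⟨hs0, hs1⟩ := hs
    apply cr_mem_OC h <;> nlinarith)
  simpa using this

theorem continuous_psi : Continuous psi := by unfold psi; fun_prop

theorem interior_nonempty_of {X : Set (ℝ × ℝ)} {α β : ℤ} (h : α ≤ β)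
    (hX : ∀ z ∈ OC α β, psi z ∈ X) : (interior X).Nonempty := by
  let g : ℝ × ℝ → ℝ × ℝ := fun w => (w.1 / 2, w.2 / 4)
  have hg : Continuous g := by fun_prop
  have e : ∀ w, psi (g w) = w := fun w => by ext <;> simp [psi, g] <;> ring
  have e' : ∀ w, g (psi w) = w := fun w => by ext <;> simp [psi, g]
  have hs : g ⁻¹' OC α β ⊆ interior X :=
    interior_maximal (fun w hw => e w ▸ hX _ hw) ((isOpen_OC α β).preimage hg)
  refine ⟨psi (cr (2 * α) (2 * β + 2)), hs ?_⟩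
  rw [mem_preimage, e']
  apply cr_mem_OC h <;> linarith

/-- A long piece of the tangent line at `τ` lies on the boundary of `X`. -/
def Edge (X : Set (ℝ × ℝ)) (τ : ℝ) : Prop :=
  (interior X).Nonempty ∧ (∀ z ∈ X, z.2 ≤ lin τ z.1) ∧ ∃ u p : ℝ, τ - 19 ≤ u ∧ u ≤ τ - 13 ∧
    τ + 13 ≤ p ∧ p ≤ τ + 19 ∧ (u, lin τ u) ∈ closure X ∧ (p, lin τ p) ∈ closure X

theorem edge_of {X : Set (ℝ × ℝ)} (hX : Convex ℝ X) {τ : ℝ} {α₁ β₁ α₂ β₂ α₃ β₃ : ℤ}
    (k₁ : α₁ ≤ β₁) (k₂ : α₂ ≤ β₂) (k₃ : α₃ ≤ β₃)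
    (h₁ : ∀ z ∈ OC α₁ β₁, psi z ∈ X) (h₂ : ∀ z ∈ OC α₂ β₂, psi z ∈ X)
    (h₃ : ∀ z ∈ OC α₃ β₃, psi z ∉ X) {p₃ q₃ : ℝ} (hq : cr p₃ q₃ ∈ closure (OC α₃ β₃))
    (e₁ : (τ - 2 * (2 * α₁ + 1)) * (τ - 2 * (2 * β₁ + 3)) = 105)
    (e₂ : (τ - 2 * (2 * α₂ - 1)) * (τ - 2 * (2 * β₂ + 1)) = 105)
    (e₃ : (τ - 2 * p₃) * (τ - 2 * q₃) = 105)
    (b₁ : τ - 19 ≤ 2 * α₁ + 2 * β₁ + 4) (b₂ : 2 * α₁ + 2 * β₁ + 4 ≤ τ - 13)
    (b₃ : τ + 13 ≤ 2 * α₂ + 2 * β₂) (b₄ : 2 * α₂ + 2 * β₂ ≤ τ + 19)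
    (b₅ : τ - 13 < p₃ + q₃) (b₆ : p₃ + q₃ < τ + 13) : Edge X τ := by
  have hi := interior_nonempty_of k₁ h₁
  have on : ∀ p q : ℝ, (τ - 2 * p) * (τ - 2 * q) = 105 →
      psi (cr p q) = (p + q, -2 * τ * (p + q) + (τ ^ 2 + 35)) := by
    intro p q h
    ext
    · simp [psi, cr]; ring
    · simp only [psi, cr]; nlinarith
  have l : ∀ x, lin τ x = -2 * τ * x + (τ ^ 2 + 35) := fun x => by unfold lin; ring
  have hU : psi (cr (2 * α₁ + 1) (2 * β₁ + 3)) ∈ closure X :=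
    map_mem_closure continuous_psi (cr_mem_closure k₁ (by linarith) le_rfl (by linarith) le_rfl) h₁
  have hP : psi (cr (2 * α₂ - 1) (2 * β₂ + 1)) ∈ closure X :=
    map_mem_closure continuous_psi (cr_mem_closure k₂ le_rfl (by linarith) le_rfl (by linarith)) h₂
  have hQ : psi (cr p₃ q₃) ∉ interior X := by
    rw [← mem_compl_iff, ← closure_compl]
    exact map_mem_closure continuous_psi hq h₃
  rw [on _ _ e₁] at hU
  rw [on _ _ e₂] at hP
  rw [on _ _ e₃] at hQ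
  refine ⟨hi, ?_, _, _, by linarith, by linarith, by linarith, by linarith, l _ ▸ hU, l _ ▸ hP⟩
  intro z hz
  rw [l]
  refine edge_out hX hi (by linarith) (by linarith) hU hP hQ
    (h₁ (cr (2 * α₁) (2 * β₁ + 2)) (by apply cr_mem_OC k₁ <;> linarith)) ?_ z hz
  simp only [psi, cr]
  nlinarith

theorem Edge.mem {X : Set (ℝ × ℝ)} (hX : Convex ℝ X) {τ : ℝ} (h₀ : Edge X (τ - 44))
    (h₁ : Edge X τ) (h₂ : Edge X (τ + 44)) {z : ℝ × ℝ} (hz : z.2 < lin τ z.1)
    (k₁ : τ - 13 < z.1) (k₂ : z.1 < τ + 13) (k₃ : 0 ≤ z.2 + z.1 ^ 2) : z ∈ X := by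
  obtain ⟨hi, -, u, p, a1, a2, a3, a4, hU, hP⟩ := h₁
  obtain ⟨-, -, u', -, b1, b2, -, -, hA, -⟩ := h₀
  obtain ⟨-, -, -, p', -, -, b3, b4, -, hB⟩ := h₂
  have l : ∀ x, lin τ x = -2 * τ * x + (τ ^ 2 + 35) := fun x => by unfold lin; ring
  rw [l] at hU hP hz
  refine edge_in hX hi hU hP hA hB (by linarith) (by linarith) hz (by dsimp only; linarith)
    (by dsimp only; linarith) ?_
  dsimp only
  have e1 : lin (τ - 44) u' = (u' - (τ - 44)) ^ 2 + 35 - u' ^ 2 := by unfold lin; ring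
  have e2 : lin (τ + 44) p' = (p' - (τ + 44)) ^ 2 + 35 - p' ^ 2 := by unfold lin; ring
  have f1 : (u' - (τ - 44)) ^ 2 ≤ 361 := by nlinarith
  have f2 : (p' - (τ + 44)) ^ 2 ≤ 361 := by nlinarith
  have g1 : 44 < z.1 - u' := by linarith
  have g2 : 44 < p' - z.1 := by linarith
  have g3 : 1936 < (z.1 - u') * (p' - z.1) := by nlinarith
  have m1 := mul_le_mul_of_nonneg_right f1 (by linarith : 0 ≤ p' - z.1)
  have m2 := mul_le_mul_of_nonneg_right f2 (by linarith : 0 ≤ z.1 - u')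
  have m3 := mul_lt_mul_of_pos_right g3 (by linarith : 0 < p' - u')
  have m4 := mul_nonneg k₃ (by linarith : 0 ≤ p' - u')
  rw [e1, e2]
  nlinarith

theorem cellPin_step {F G : ℤ → Set (ℝ × ℝ)} {lo hi : ℤ} (hG : ∀ m, Convex ℝ (G m))
    (hp : ∀ m, G (m + 22) = G m)
    (hr : ∀ z j, StepAt (fun m => z ∈ F m) (fun m => psi z ∈ G m) j)
    (hF : CellPin F lo hi) : CellPin G (2 * lo + 42) (2 * hi - 42) := by
  have E : ∀ m : ℤ, 2 * lo + 20 ≤ m → m ≤ 2 * hi - 20 → Edge (G m) (2 * m + 1) := by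
    intro m h1 h2
    obtain ⟨j, rfl | rfl⟩ := Int.even_or_odd' m
    · refine edge_of (hG _) (α₁ := j - 9) (β₁ := j - 2) (α₂ := j + 2) (β₂ := j + 5) (α₃ := j - 3)
        (β₃ := j - 2) (p₃ := 2 * j - 7) (q₃ := 2 * j - 3) (by omega) (by omega) (by omega)
        (fun z hz => (hr z j).2.2.2.1 (hF _ _ (by omega) (by omega) (by omega) (by omega) z hz))
        (fun z hz => (hr z j).2.2.2.2.1 (hF _ _ (by omega) (by omega) (by omega) (by omega) z hz))
        (fun z hz => (hr z j).2.2.2.2.2 (hF _ _ (by omega) (by omega) (by omega) (by omega) z hz))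
        (by apply cr_mem_closure (by omega) <;> push_cast <;> linarith)
        ?_ ?_ ?_ ?_ ?_ ?_ ?_ ?_ ?_ <;> push_cast <;> linarith
    · refine edge_of (hG _) (α₁ := j - 5) (β₁ := j - 2) (α₂ := j + 2) (β₂ := j + 9) (α₃ := j + 2)
        (β₃ := j + 3) (p₃ := 2 * j + 5) (q₃ := 2 * j + 9) (by omega) (by omega) (by omega)
        (fun z hz => (hr z j).1 (hF _ _ (by omega) (by omega) (by omega) (by omega) z hz))
        (fun z hz => (hr z j).2.1 (hF _ _ (by omega) (by omega) (by omega) (by omega) z hz))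
        (fun z hz => (hr z j).2.2.1 (hF _ _ (by omega) (by omega) (by omega) (by omega) z hz))
        (by apply cr_mem_closure (by omega) <;> push_cast <;> linarith)
        ?_ ?_ ?_ ?_ ?_ ?_ ?_ ?_ ?_ <;> push_cast <;> linarith
  have In : ∀ m : ℤ, 2 * lo + 42 ≤ m → m ≤ 2 * hi - 42 → ∀ z : ℝ × ℝ, Bel m z →
      2 * m + 1 - 13 < z.1 → z.1 < 2 * m + 1 + 13 → 0 ≤ z.2 + z.1 ^ 2 → z ∈ G m := by
    intro m h1 h2 z hz k1 k2 k3
    have a0 := E (m - 22) (by omega) (by omega)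
    have a2 := E (m + 22) (by omega) (by omega)
    rw [← hp, sub_add_cancel] at a0
    rw [hp] at a2
    refine Edge.mem (hG m) ?_ (E m (by omega) (by omega)) ?_ hz k1 k2 k3
    · convert a0 using 1; push_cast; ring
    · convert a2 using 1; push_cast; ring
  intro α β h1 h2 h3 h4 z ⟨z1, z2, z3, z4⟩
  have h3' : (α : ℝ) ≤ β := by exact_mod_cast h3
  have h4' : (β : ℝ) ≤ α + 7 := by exact_mod_cast h4
  have y1 := z1
  have y2 := z2
  have y3 := z3
  have y4 := z4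
  simp only [Bel, Abv, lin] at y1 y2 y3 y4
  push_cast at y1 y4
  have c0 : 0 ≤ z.2 + z.1 ^ 2 := by nlinarith [sq_nonneg (2 * α + 1 - z.1)]
  have c1 : 2 * α < z.1 := by nlinarith
  have c2 : z.1 < 2 * β + 2 := by nlinarith
  have c3 : z.1 < α + β + 2 := by
    by_contra hc
    push Not at hc
    nlinarith
  have c4 : α + β < z.1 := by
    by_contra hc
    push Not at hc
    nlinarith
  refine ⟨In _ (by omega) (by omega) z z1 ?_ ?_ c0, fun hz => ?_, fun hz => ?_,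
    In _ (by omega) (by omega) z z4 ?_ ?_ c0⟩
  · push_cast; linarith
  · push_cast; linarith
  · exact absurd ((E α (by omega) (by omega)).2.1 z hz) (not_le.2 z2)
  · exact absurd ((E β (by omega) (by omega)).2.1 z hz) (not_le.2 z3)
  · push_cast; linarith
  · push_cast; linarith

end Pool.Agent.Lib.MP_79902f_lc
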