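import Pool.Agent.Lib.MP_79902f_lc.USign

open Set

noncomputable section

namespace Pool.Agent.Lib.MP_79902f_lc.Up

variable {L : List ℕ} {C : List (List ℕ)} {u v : ℕ → ℝ} {ξ w ξ' w' : ℝ}

namespace UColAux

theorem ss_pos {a b : ℝ} (ha : 0 < a) (hb : 0 < b) : SS a b :=
  ⟨⟨fun h => by linarith, fun h => by linarith⟩, ⟨fun h => by linarith, fun h => by linarith⟩⟩

theorem ss_neg {a b : ℝ} (ha : a < 0) (hb : b < 0) : SS a b :=
  ⟨⟨fun _ => hb, fun _ => ha⟩, ⟨fun h => by linarith, fun h => by linarith⟩⟩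

theorem ss_mul {a b : ℝ} (h : SS a b) (α : ℝ) : SS (α * a) (α * b) := by
  rcases lt_trichotomy a 0 with ha | ha | ha
  · have hb := h.1.1 ha
    rcases lt_trichotomy α 0 with k | k | k
    · exact ss_pos (mul_pos_of_neg_of_neg k ha) (mul_pos_of_neg_of_neg k hb)
    · rw [k, zero_mul, zero_mul]
      exact SS.rfl' _
    · exact ss_neg (mul_neg_of_pos_of_neg k ha) (mul_neg_of_pos_of_neg k hb)
  · rw [ha, h.2.1 ha]
    exact SS.rfl' _
  · have hb : 0 < b := lt_of_le_of_ne (not_lt.1 fun k => ha.not_gt (h.1.2 k))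
      fun k => ha.ne' (h.2.2 k.symm)
    rcases lt_trichotomy α 0 with k | k | k
    · exact ss_neg (mul_neg_of_neg_of_pos k ha) (mul_neg_of_neg_of_pos k hb)
    · rw [k, zero_mul, zero_mul]
      exact SS.rfl' _
    · exact ss_pos (mul_pos k ha) (mul_pos k hb)

theorem ss_comb {G G' a a' : ℝ} (h : 0 ≤ G * G') (ha : 0 < a) (ha' : 0 < a') :
    SS (G + G') (a * G + a' * G') := by
  rcases lt_trichotomy G 0 with k | k | k
  · have k' : G' ≤ 0 := by nlinarith
    exact ss_neg (by linarith) (by nlinarith)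
  · rw [k, zero_add, mul_zero, zero_add]
    exact (SS.mul_pos ha' G').symm
  · have k' : 0 ≤ G' := by nlinarith
    exact ss_pos (by linarith) (by nlinarith)

theorem ss_near {Y c c' : ℝ} (hne : c - c' ≠ 0) (h : |Y - c| ≤ |Y - c'|) :
    SS (c - c') (Y - c') := by
  rcases lt_or_gt_of_ne hne with k | k
  · refine ss_neg k (not_le.1 fun k' => ?_)
    rw [abs_of_nonneg k', abs_of_nonneg (by linarith)] at h
    linarith
  · refine ss_pos k (not_le.1 fun k' => ?_)
    rw [abs_of_nonpos k', abs_of_nonpos (by linarith)] at h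
    linarith

theorem key {G G' a a' α Y c d : ℝ} (h : 0 ≤ G * G') (ha : 0 < a) (ha' : 0 < a')
    (hd : SS d (Y - c)) (ho : α = 0 ∨ ∃ c', a * G + a' * G' = α * (c - c') ∧ |Y - c| ≤ |Y - c'|) :
    SS (lx (G + G') (d * α)) (a * G + a' * G' + α * (Y - c)) := by
  refine ((ss_comb h ha ha').lx (SS.rfl' _)).trans ?_
  unfold lx
  split_ifs with k
  · rw [k, zero_add, mul_comm]
    exact ss_mul hd α
  · rcases ho with rfl | ⟨c', e, hc⟩
    · rw [zero_mul, add_zero]
      exact SS.rfl' _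
    · rw [e] at k ⊢
      rw [show α * (c - c') + α * (Y - c) = α * (Y - c') by ring]
      exact ss_mul (ss_near (right_ne_zero_of_mul k) hc) α

theorem form {s : ℕ → ℝ} {i : ℕ} {η η' ζ ζ' a a' Y d : ℝ}
    (h : 0 ≤ fm s i ξ η w * fm s i ξ' η' w') (ha : 0 < a) (ha' : 0 < a')
    (hd : SS d (Y - (a * η + a' * η')))
    (ho : s (16 * i + 2) = 0 ∨ (fm s i ξ ζ w = 0 ∧ fm s i ξ' ζ' w' = 0))
    (hm : |Y - (a * η + a' * η')| ≤ |Y - (a * ζ + a' * ζ')|) :
    SS (fd s i (ξ + ξ') (η + η') (w + w') d) (fd s i (a * ξ + a' * ξ') Y (a * w + a' * w') 0) := by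
  have e1 : fm s i (ξ + ξ') (η + η') (w + w') = fm s i ξ η w + fm s i ξ' η' w' := by
    unfold fm
    ring
  have e2 : fm s i (a * ξ + a' * ξ') Y (a * w + a' * w') = a * fm s i ξ η w + a' * fm s i ξ' η' w'
      + s (16 * i + 2) * (Y - (a * η + a' * η')) := by
    unfold fm
    ring
  rw [fd_zero, fd, e1, e2]
  refine key h ha ha' hd (ho.imp id fun k => ⟨_, ?_, hm⟩)
  obtain ⟨k1, k2⟩ := k
  unfold fm at k1 k2 ⊢
  linear_combination a * k1 + a' * k2

theorem small (F β : ℝ) {c : ℝ} (hc : 0 < c) :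
    ∀ᶠ t in nhdsWithin (0 : ℝ) (Ioi 0), SS (c * F + t * β) (lx F β) := by
  have hl : Filter.Tendsto (fun t : ℝ => c * F + t * β) (nhdsWithin (0 : ℝ) (Ioi 0))
      (nhds (c * F)) := by
    have : Continuous fun t : ℝ => c * F + t * β := by fun_prop
    simpa using (this.tendsto 0).mono_left nhdsWithin_le_nhds
  unfold lx
  rcases lt_trichotomy F 0 with k | k | k
  · rw [if_neg k.ne]
    exact (hl.eventually_lt_const (mul_neg_of_pos_of_neg hc k)).mono fun t ht => ss_neg ht k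
  · rw [if_pos k, k, mul_zero]
    filter_upwards [self_mem_nhdsWithin] with t ht
    rw [zero_add]
    exact SS.mul_pos ht β
  · rw [if_neg k.ne']
    exact (hl.eventually_const_lt (mul_pos hc k)).mono fun t ht => ss_pos ht k

theorem okd (hw : 0 < w + w')
    (hok : ∀ a a' : ℝ, 0 < a → 0 < a' → a * w + a' * w' = 1 → ∀ Y,
      Ok L C u v (a * ξ + a' * ξ') Y 1 0) (H d : ℝ) : Ok L C u v (ξ + ξ') H (w + w') d := by
  obtain ⟨c, hc, e⟩ : ∃ c : ℝ, 0 < c ∧ c * w + c * w' = 1 :=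
    ⟨(w + w')⁻¹, inv_pos.2 hw, by rw [← mul_add, inv_mul_cancel₀ hw.ne']⟩
  have h1 : ∀ s : ℕ → ℝ, ∀ᶠ t in nhdsWithin (0 : ℝ) (Ioi 0), ∀ f ∈ Finset.range (8 * L.length),
      SS (fd s f (c * ξ + c * ξ') (c * H + t * d) 1 0) (fd s f (ξ + ξ') H (w + w') d) := by
    intro s
    rw [Filter.eventually_all_finset]
    intro f _
    refine (small (fm s f (ξ + ξ') H (w + w')) (d * s (16 * f + 2)) hc).mono fun t ht => ?_
    have e2 : fm s f (c * ξ + c * ξ') (c * H + t * d) 1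
        = c * fm s f (ξ + ξ') H (w + w') + t * (d * s (16 * f + 2)) := by
      unfold fm
      linear_combination (-s (16 * f + 3)) * e
    rwa [fd_zero, e2]
  obtain ⟨t, h2, h3⟩ := ((h1 u).and (h1 v)).exists
  exact (hok c c hc hc e _).congr (fun f hf => h2 f (Finset.mem_range.2 hf))
    fun f hf => h3 f (Finset.mem_range.2 hf)

theorem on_line (s : ℕ → ℝ) (j : ℕ) (ξ w ξ' w' : ℝ) : s (16 * j + 2) = 0 ∨
    (fm s j ξ (eta s j ξ w) w = 0 ∧ fm s j ξ' (eta s j ξ' w') w' = 0) := by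
  by_cases k : s (16 * j + 2) = 0
  · exact Or.inl k
  · refine Or.inr ⟨?_, ?_⟩ <;>
    · unfold fm eta
      field_simp
      ring

end UColAux

/-- Index the forms by (b, j), j < 8 * L.length + 1, source u or v; let c (b, j) be
a * p j + a' * p' j (or with q). Choose (b, j) with |Y - c| least and d the sign of
Y - c. A form F with slope α in Y has at (a ξ + a' ξ', c, a w + a' w') the value
a F(g) + a' F(g'), of the same sign as F(g + g') = F(g) + F(g') because 0 ≤ F(g) F(g'), and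
F(z) = F(q) + α (Y - c). If F(q) = 0 the sign is that of d α. If F(q) ≠ 0 and α ≠ 0, then
with the own height c' of F one has F(q) = α (c - c'), F(z) = α (Y - c'), and minimality
gives the same sign. Finish with Ok.congr, fd_zero. -/
theorem Col.sound {p p' q q' : ℕ → ℝ} (h : Col L C u v ξ w ξ' w' p p' q q') {a a' : ℝ}
    (ha : 0 < a) (ha' : 0 < a') (Y : ℝ) :
    Ok L C u v (a * ξ + a' * ξ') Y (a * w + a' * w') 0 := by
  obtain ⟨S, P, P', H, h0, h1⟩ : ∃ (S P P' : Bool → ℕ → ℝ), (∀ b, ∀ j < 8 * L.length + 1,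
      Cel L C u v (S b) j ξ (P b j) w ξ' (P' b j) w') ∧ S true = u ∧ S false = v :=
    ⟨fun b => bif b then u else v, fun b => bif b then p else q, fun b => bif b then p' else q',
      fun b j hj => by
        cases b
        · exact (h j hj).2
        · exact (h j hj).1, rfl, rfl⟩
  obtain ⟨⟨b, j⟩, hj, hmin⟩ := Finset.exists_min_image
    ((Finset.univ : Finset Bool) ×ˢ Finset.range (8 * L.length + 1))
    (fun z => |Y - (a * P z.1 z.2 + a' * P' z.1 z.2)|) ⟨(true, 0), by simp⟩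
  have hj' : j < 8 * L.length + 1 := by simpa using hj
  obtain ⟨-, k1, k2, k3, k4⟩ := H b j hj'
  obtain ⟨d, hd, hO⟩ : ∃ d, SS d (Y - (a * P b j + a' * P' b j)) ∧
      Ok L C u v (ξ + ξ') (P b j + P' b j) (w + w') d := by
    rcases lt_trichotomy (Y - (a * P b j + a' * P' b j)) 0 with k | k | k
    · exact ⟨-1, UColAux.ss_neg (by norm_num) k, k4⟩
    · exact ⟨0, by rw [k]; exact SS.rfl' _, k2⟩
    · exact ⟨1, UColAux.ss_pos one_pos k, k3⟩
  refine hO.congr (fun f hf => ?_) fun f hf => ?_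
  · exact UColAux.form (k1 f (by omega)).1 ha ha' hd (h0 ▸ (H true f (by omega)).1)
      (hmin (true, f) (by simp; omega))
  · exact UColAux.form (k1 f (by omega)).2 ha ha' hd (h1 ▸ (H false f (by omega)).1)
      (hmin (false, f) (by simp; omega))

/-- First part of Cel: field_simp when the slope is not zero. For Ok: put
c = 1 / (w + w'); for all small t > 0 and the finitely many forms, the value at the point
(c ξ + c ξ', c (η + η') + t d, 1), which is c F(g + g') + α t d, has the sign of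
lx (F (g + g')) (d α); use hok and Ok.congr. -/
theorem Col.complete (hw : 0 < w + w')
    (hok : ∀ a a' : ℝ, 0 < a → 0 < a' → a * w + a' * w' = 1 → ∀ Y,
      Ok L C u v (a * ξ + a' * ξ') Y 1 0)
    (hs : ∀ s ∈ ({u, v} : Set (ℕ → ℝ)), ∀ s' ∈ ({u, v} : Set (ℕ → ℝ)), ∀ i < 8 * L.length + 1,
      ∀ j < 8 * L.length + 1,
        0 ≤ fm s' i ξ (eta s j ξ w) w * fm s' i ξ' (eta s j ξ' w') w') :
    Col L C u v ξ w ξ' w' (fun j => eta u j ξ w) (fun j => eta u j ξ' w')
      (fun j => eta v j ξ w) (fun j => eta v j ξ' w') := by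
  have mu : u ∈ ({u, v} : Set (ℕ → ℝ)) := by simp
  have mv : v ∈ ({u, v} : Set (ℕ → ℝ)) := by simp
  intro j hj
  exact ⟨⟨UColAux.on_line u j ξ w ξ' w', fun i hi => ⟨hs u mu u mu i hi j hj, hs u mu v mv i hi j hj⟩,
      UColAux.okd hw hok _ _, UColAux.okd hw hok _ _, UColAux.okd hw hok _ _⟩,
    UColAux.on_line v j ξ w ξ' w', fun i hi => ⟨hs v mv u mu i hi j hj, hs v mv v mv i hi j hj⟩,
      UColAux.okd hw hok _ _, UColAux.okd hw hok _ _, UColAux.okd hw hok _ _⟩

/-- `g (ξ, w) = fm s i ξ (eta s j ξ w) w = P ξ + Q w` is linear, `root = -Q / P`. If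
`g g' < 0`, take `a = |g'|`, `a' = |g|`, so `a g + a' g' = 0`, `W = a w + a' w' > 0`, `P ≠ 0`, and
`root = (a ξ + a' ξ') / W` lies in the strip. -/
theorem sign_of_root (s : ℕ → ℝ) (i j : ℕ) (hw : 0 ≤ w) (hw' : 0 ≤ w') (hd : ξ * w' < ξ' * w)
    (h : ¬ (ξ < root s i j * w ∧ root s i j * w' < ξ')) :
    0 ≤ fm s i ξ (eta s j ξ w) w * fm s i ξ' (eta s j ξ' w') w' := by
  have e : ∀ ξ w : ℝ, fm s i ξ (eta s j ξ w) w
      = fm s i 1 (eta s j 1 0) 0 * ξ + fm s i 0 (eta s j 0 1) 1 * w := by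
    intro ξ w
    unfold fm eta
    ring
  rw [e ξ w, e ξ' w']
  unfold root at h
  generalize fm s i 1 (eta s j 1 0) 0 = P at h ⊢
  generalize fm s i 0 (eta s j 0 1) 1 = Q at h ⊢
  by_cases hP : P = 0
  · rw [hP, zero_mul, zero_mul, zero_add, zero_add]
    nlinarith [mul_nonneg (mul_self_nonneg Q) (mul_nonneg hw hw')]
  obtain ⟨r, hr, rfl⟩ : ∃ r, -Q / P = r ∧ Q = -(P * r) := ⟨_, rfl, by field_simp⟩
  rw [hr] at h
  rw [show (P * ξ + -(P * r) * w) * (P * ξ' + -(P * r) * w')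
    = P * P * ((ξ - r * w) * (ξ' - r * w')) by ring]
  refine mul_nonneg (mul_self_nonneg P) (not_lt.1 fun k => ?_)
  rcases mul_neg_iff.1 k with ⟨k1, k2⟩ | ⟨k1, k2⟩
  · nlinarith [mul_nonneg k1.le hw', mul_nonneg (neg_pos.2 k2).le hw]
  · exact h ⟨by linarith, by linarith⟩

end Pool.Agent.Lib.MP_79902f_lc.Up
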