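import Pool.Agent.Lib.MP_79902f_lc.UShort

open Set

noncomputable section

namespace Pool.Agent.Lib.MP_79902f_lc.Up

variable {J : Type} [Fintype J] {ε : J → ℝ}

/-- colours of vertical lines -/
abbrev Colour (J : Type) (W : Finset ℝ) : Type :=
  (J → Prop × Prop × Prop) × (J → J → Prop) × (W → Prop × Prop)

/-- the colour of the line `x` -/
def col (ε : J → ℝ) (E : J → Set (ℝ × ℝ)) (W : Finset ℝ) (x : ℝ) : Colour J W :=
  (fun j => (Ne (E j) x, Bd (E j) x, Cl (E j) x),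
    fun i j => ε i * top (E i) x ≤ ε j * top (E j) x, fun w => (x < w, (w : ℝ) < x))

namespace UNormAux

omit [Fintype J] in
theorem agr_refl (E : J → Set (ℝ × ℝ)) (x : ℝ) : Agr E E x := fun _ _ => Iff.rfl

omit [Fintype J] in
theorem agr_trans {E E' E'' : J → Set (ℝ × ℝ)} {x : ℝ} (h : Agr E'' E' x) (h' : Agr E' E x) :
    Agr E'' E x := fun j y => (h j y).trans (h' j y)

omit [Fintype J] in
theorem agr_sub {E E' : J → Set (ℝ × ℝ)} {x : ℝ} (h : Agr E' E x) : Sub ε E' x E x :=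
  fun y => ⟨y, fun j => h j _⟩

omit [Fintype J] in
theorem sub_trans {E E' E'' : J → Set (ℝ × ℝ)} {x x' x'' : ℝ} (h : Sub ε E'' x'' E' x')
    (h' : Sub ε E' x' E x) : Sub ε E'' x'' E x := fun y => by
  obtain ⟨y', hy'⟩ := h y
  obtain ⟨y'', hy''⟩ := h' y'
  exact ⟨y'', fun j => (hy' j).trans (hy'' j)⟩

omit [Fintype J] in
theorem agr_col {E E' : J → Set (ℝ × ℝ)} {x : ℝ} (W : Finset ℝ) (h : Agr E' E x) :
    col ε E' W x = col ε E W x := by
  have ht : ∀ j, top (E' j) x = top (E j) x := fun j => by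
    unfold top
    congr 1
    ext y
    exact h j y
  have h' : ∀ j y, ((x, y) ∈ E' j) = ((x, y) ∈ E j) := fun j y => propext (h j y)
  simp only [col, Up.Ne, Bd, Cl, ht, h']

omit [Fintype J] in
theorem col_same {E : J → Set (ℝ × ℝ)} {m a : ℝ} {W : Finset ℝ}
    (h : col ε E W a = col ε E W m) : Same ε E m a := by
  have h1 := congrArg Prod.fst h
  have h2 := congrArg (fun c => c.2.1) h
  refine ⟨fun j => ?_, fun i j => ?_⟩
  · have h3 := congrFun h1 j
    simp only [col, Prod.mk.injEq] at h3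
    exact ⟨Iff.of_eq h3.1, Iff.of_eq h3.2.1, Iff.of_eq h3.2.2⟩
  · exact Iff.of_eq (congrFun (congrFun h2 i) j)

omit [Fintype J] in
theorem col_side {E : J → Set (ℝ × ℝ)} {m a w : ℝ} {W : Finset ℝ}
    (h : col ε E W a = col ε E W m) (hw : w ∈ W) : (a < w ↔ m < w) := by
  have h2 := congrFun (congrArg (fun c => c.2.2) h) ⟨w, hw⟩
  exact Iff.of_eq (congrArg Prod.fst h2)

theorem lin_mono {Y Y' : Set (ℝ × ℝ)} {G G' : Set ℝ} (h : Lin Y G) (hG : G' ⊆ G)
    (ha : ∀ x ∈ G', ∀ y, (x, y) ∈ Y' ↔ (x, y) ∈ Y) : Lin Y' G' := by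
  rcases h with h | h | ⟨κ, β, h⟩
  · exact Or.inl fun x hx y hy => h x (hG hx) y ((ha x hx y).1 hy)
  · exact Or.inr (Or.inl fun x hx y => (ha x hx y).2 (h x (hG hx) y))
  · exact Or.inr (Or.inr ⟨κ, β, fun x hx y => ⟨fun hy => (ha x hx y).2 ((h x (hG hx) y).1 hy),
      fun hy => (h x (hG hx) y).2 ((ha x hx y).1 hy)⟩⟩)

theorem coinitial {K : Type} (T : Finset K) (c : ℝ → K) (I : Set ℝ) (hI : I.Nonempty)
    (hT : ∀ x ∈ I, c x ∈ T) : ∃ τ ∈ T, ∀ x ∈ I, ∃ a ∈ I, c a = τ ∧ a ≤ x := by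
  by_contra hn
  push Not at hn
  choose! f hf hf' using hn
  obtain ⟨x, hx⟩ := hI
  obtain ⟨τ, hτ, hmin⟩ := T.exists_min_image f ⟨c x, hT x hx⟩
  have h1 := hf τ hτ
  have h2 := hT _ h1
  exact absurd (hf' _ h2 _ h1 rfl) (not_lt.2 (hmin _ h2))

theorem gap_mono {S S' : Finset ℝ} (h : S' ⊆ S) (x : ℝ) : gap S x ⊆ gap S' x :=
  fun _ hx => ⟨fun k => hx.1 (h k), fun s hs => hx.2 s (h hs)⟩

theorem exists_above {A : Set ℝ} (hA : A.Nonempty) {x : ℝ} (h : BddAbove A → x < sSup A) :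
    ∃ a ∈ A, x < a := by
  by_cases hb : BddAbove A
  · exact exists_lt_of_lt_csSup hA (h hb)
  · exact not_bddAbove_iff.1 hb x

theorem exists_below {I : Set ℝ} {x : ℝ} (hx : x ∈ I) (h : x ≠ sInf I) : ∃ z ∈ I, z < x := by
  by_cases hb : BddBelow I
  · exact exists_lt_of_csInf_lt ⟨x, hx⟩ (lt_of_le_of_ne (csInf_le hb hx) h.symm)
  · exact not_bddBelow_iff.1 hb x

end UNormAux

open UNormAux

/-- Induction on `n`. If `I` is empty take `E` and `∅`. Otherwise some colour `τ ∈ T` is coinitial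
in `I` (finitely many colours); `A` is its class in `I`, `m ∈ A`. `E₁` from `short_right` with the
part of `A` right of `m`, `E₂` from `short_left` for `E₁` with the part left of `m` (colours depend
on the slices only, `Agr`). Apply the hypothesis to `E₂`, `I' = {x ∈ I | ∀ a ∈ A, a < x}` and
`T.erase τ`, and take `S = S' ∪ {m, sSup A, sInf I}`. For `x ∈ I` outside `S` the set
`gap S x ∩ I` lies in `gap S' x ∩ I'` or in one of the two half strips (`Lin` passes to subsets and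
depends on the slices only). A point of `W` is in no half strip, because `m` and `a` are on the
same side of it. -/
theorem greedy (hε : ∀ j, ε j = 1 ∨ ε j = -1) (W : Finset ℝ) (n : ℕ) :
    ∀ (T : Finset (Colour J W)), T.card ≤ n → ∀ E : J → Set (ℝ × ℝ), (∀ j, DC (E j)) →
      ∀ I : Set ℝ, IsUpperSet I → (∀ x ∈ I, col ε E W x ∈ T) →
        ∃ (E' : J → Set (ℝ × ℝ)) (S : Finset ℝ), (∀ j, DC (E' j)) ∧ S.card ≤ 3 * n ∧
          (∀ x, x ∉ I ∨ x ∈ W → Agr E' E x) ∧ (∀ x, ∃ x', Sub ε E' x E x') ∧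
          ∀ x ∈ I, x ∉ S → ∀ j, Lin (E' j) (gap S x ∩ I) := by
  classical
  have empty : ∀ (n : ℕ) (E : J → Set (ℝ × ℝ)), (∀ j, DC (E j)) → ∀ I : Set ℝ, ¬ I.Nonempty →
      ∃ (E' : J → Set (ℝ × ℝ)) (S : Finset ℝ), (∀ j, DC (E' j)) ∧ S.card ≤ 3 * n ∧
        (∀ x, x ∉ I ∨ x ∈ W → Agr E' E x) ∧ (∀ x, ∃ x', Sub ε E' x E x') ∧
        ∀ x ∈ I, x ∉ S → ∀ j, Lin (E' j) (gap S x ∩ I) := fun n E hE I hI =>
    ⟨E, ∅, hE, by simp, fun x _ => agr_refl E x, fun x => ⟨x, agr_sub (agr_refl E x)⟩,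
      fun x hx => absurd ⟨x, hx⟩ hI⟩
  induction n with
  | zero =>
    intro T hT E hE I _ hc
    refine empty 0 E hE I ?_
    rintro ⟨x, hx⟩
    have h0 : T = ∅ := Finset.card_eq_zero.1 (Nat.le_zero.1 hT)
    have := hc x hx
    rw [h0] at this
    exact absurd this (Finset.notMem_empty _)
  | succ n ih =>
    intro T hT E hE I hup hc
    by_cases hI : I.Nonempty
    swap
    · exact empty _ E hE I hI
    obtain ⟨τ, hτ, hco⟩ := coinitial T (col ε E W) I hI hc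
    obtain ⟨x₀, hx₀⟩ := hI
    obtain ⟨m, hmI, hmτ, -⟩ := hco x₀ hx₀
    set A : Set ℝ := {a | a ∈ I ∧ col ε E W a = τ} with hA
    have hmA : m ∈ A := ⟨hmI, hmτ⟩
    have hAc : ∀ a ∈ A, col ε E W a = col ε E W m := fun a ha => ha.2.trans hmτ.symm
    obtain ⟨E₁, hE₁, ag₁, sb₁, ln₁⟩ := short_right (ε := ε) (E := E) (m := m)
      (A := {a | a ∈ A ∧ m < a}) hε hE fun a ha => ⟨ha.2, col_same (hAc a ha.1)⟩
    have ag₁' : ∀ x, x ≤ m → Agr E₁ E x := fun x hx =>
      ag₁ x fun h => absurd h.1 (not_lt.2 hx)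
    obtain ⟨E₂, hE₂, ag₂, sb₂, ln₂⟩ := short_left (ε := ε) (E := E₁) (m := m)
      (A := {a | a ∈ A ∧ a < m}) hε hE₁ fun a ha => ⟨ha.2, col_same (W := W) (by
        rw [agr_col W (ag₁' a ha.2.le), agr_col W (ag₁' m le_rfl)]
        exact hAc a ha.1)⟩
    have ag₂' : ∀ x, m ≤ x → Agr E₂ E₁ x := fun x hx =>
      ag₂ x fun h => absurd h.1 (not_lt.2 hx)
    set I' : Set ℝ := {x | x ∈ I ∧ ∀ a ∈ A, a < x} with hI'
    have hup' : IsUpperSet I' := fun x y hxy hx =>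
      ⟨hup hxy hx.1, fun a ha => (hx.2 a ha).trans_le hxy⟩
    have hc' : ∀ x ∈ I', col ε E₂ W x ∈ T.erase τ := by
      intro x hx
      have h1 : Agr E₂ E x := agr_trans (ag₂' x (hx.2 m hmA).le) (ag₁ x fun h => by
        obtain ⟨a, ha, hxa⟩ := h.2
        exact absurd (hx.2 a ha.1) (not_lt.2 hxa.le))
      rw [agr_col W h1]
      exact Finset.mem_erase.2 ⟨fun h => lt_irrefl x (hx.2 x ⟨hx.1, h⟩), hc x hx.1⟩
    obtain ⟨E', S', hE', hS', ag, sb, ln⟩ := ih (T.erase τ)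
      (by rw [Finset.card_erase_of_mem hτ]; omega) E₂ hE₂ I' hup' hc'
    have ag' : ∀ x a, a ∈ A → x ≤ a → Agr E' E₂ x := fun x a ha hxa =>
      ag x (Or.inl fun h => absurd (h.2 a ha) (not_lt.2 hxa))
    refine ⟨E', insert m (insert (sSup A) (insert (sInf I) S')), hE', ?_, ?_, ?_, ?_⟩
    · have h1 := Finset.card_insert_le m (insert (sSup A) (insert (sInf I) S'))
      have h2 := Finset.card_insert_le (sSup A) (insert (sInf I) S')
      have h3 := Finset.card_insert_le (sInf I) S'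
      omega
    · intro x hx
      refine agr_trans (ag x (hx.imp_left fun h k => h k.1)) (agr_trans (ag₂ x ?_) (ag₁ x ?_))
      · rintro ⟨hxm, a, ha, hax⟩
        rcases hx with hx | hx
        · exact hx (hup hax.le ha.1.1)
        · exact absurd ((col_side (hAc a ha.1) hx).1 hax) (not_lt.2 hxm.le)
      · rintro ⟨hmx, a, ha, hxa⟩
        rcases hx with hx | hx
        · exact hx (hup hmx.le hmI)
        · exact absurd ((col_side (hAc a ha.1) hx).2 hmx) (not_lt.2 hxa.le)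
    · intro x
      obtain ⟨x₁, h1⟩ := sb x
      obtain ⟨x₂, h2⟩ : ∃ x₂, Sub ε E₂ x₁ E₁ x₂ := by
        by_cases h : x₁ < m ∧ ∃ a ∈ {a | a ∈ A ∧ a < m}, a < x₁
        · exact ⟨m, sb₂ x₁ h.1 h.2⟩
        · exact ⟨x₁, agr_sub (ag₂ x₁ h)⟩
      obtain ⟨x₃, h3⟩ : ∃ x₃, Sub ε E₁ x₂ E x₃ := by
        by_cases h : x₂ ∈ St m {a | a ∈ A ∧ m < a}
        · exact ⟨m, sb₁ x₂ h⟩
        · exact ⟨x₂, agr_sub (ag₁ x₂ h)⟩
      exact ⟨x₃, sub_trans h1 (sub_trans h2 h3)⟩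
    · intro x hxI hxS j
      set S : Finset ℝ := insert m (insert (sSup A) (insert (sInf I) S')) with hS
      have mS : m ∈ S := by simp [hS]
      have uS : sSup A ∈ S := by simp [hS]
      have iS : sInf I ∈ S := by simp [hS]
      have sS : S' ⊆ S := fun s hs => by simp [hS, hs]
      by_cases hx : x ∈ I'
      · refine lin_mono (ln x hx (fun h => hxS (sS h)) j) ?_ fun _ _ _ => Iff.rfl
        rintro x' ⟨hg, hx'⟩
        have hb : BddAbove A := ⟨x, fun a ha => (hx.2 a ha).le⟩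
        have h1 : sSup A < x := lt_of_le_of_ne (csSup_le ⟨m, hmA⟩ fun a ha => (hx.2 a ha).le)
          fun h => hxS (h ▸ uS)
        exact ⟨gap_mono sS x hg, hx', fun a ha => (le_csSup hb ha).trans_lt ((hg.2 _ uS).1 h1)⟩
      · obtain ⟨a, ha, hxa⟩ : ∃ a ∈ A, x ≤ a := by
          by_contra hn
          push Not at hn
          exact hx ⟨hxI, hn⟩
        rcases lt_or_gt_of_ne (fun h : x = m => hxS (h ▸ mS)) with hxm | hmx
        · have hlt : ∀ x' ∈ gap S x, x' < m := fun x' hg =>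
            lt_of_le_of_ne (not_lt.1 fun h => absurd ((hg.2 m mS).2 h) (not_lt.2 hxm.le))
              fun h => hg.1 (h ▸ mS)
          refine lin_mono (ln₂ j) ?_ fun x' hx' y => ag' x' m hmA (hlt x' hx'.1).le j y
          rintro x' ⟨hg, hx'⟩
          obtain ⟨z, hz, hzx⟩ := exists_below hx' fun h => hg.1 (h ▸ iS)
          obtain ⟨b, hb, hbτ, hbz⟩ := hco z hz
          exact ⟨hlt x' hg, b, ⟨⟨hb, hbτ⟩, (hbz.trans_lt hzx).trans (hlt x' hg)⟩, hbz.trans_lt hzx⟩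
        · have hst : ∀ x' ∈ gap S x, m < x' ∧ ∃ b ∈ A, x' < b := fun x' hg =>
            ⟨(hg.2 m mS).1 hmx, exists_above ⟨m, hmA⟩ fun hb =>
              lt_of_le_of_ne (not_lt.1 fun h => absurd ((hg.2 _ uS).2 h)
                (not_lt.2 (hxa.trans (le_csSup hb ha)))) fun h => hg.1 (h ▸ uS)⟩
          refine lin_mono (ln₁ j) ?_ ?_
          · rintro x' ⟨hg, -⟩
            obtain ⟨h1, b, hb, h2⟩ := hst x' hg
            exact ⟨h1, b, ⟨hb, h1.trans h2⟩, h2⟩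
          · rintro x' ⟨hg, -⟩ y
            obtain ⟨h1, b, hb, h2⟩ := hst x' hg
            exact agr_trans (ag' x' b hb h2.le) (ag₂' x' h1.le) j y

/-- `greedy` with `T = univ`, `I = univ`, then `S ∪ W`. -/
theorem normal (hε : ∀ j, ε j = 1 ∨ ε j = -1) (E : J → Set (ℝ × ℝ)) (hE : ∀ j, DC (E j))
    (W : Finset ℝ) :
    ∃ (E' : J → Set (ℝ × ℝ)) (S : Finset ℝ), (∀ j, DC (E' j)) ∧ W ⊆ S ∧
      S.card ≤ 3 * 2 ^ (3 * Fintype.card J + Fintype.card J * Fintype.card J + 2 * W.card) +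
        W.card ∧
      (∀ x ∈ W, Agr E' E x) ∧ (∀ x, ∃ x', Sub ε E' x E x') ∧
      ∀ x ∉ S, ∀ j, Lin (E' j) (gap S x) := by
  classical
  obtain ⟨E', S, hE', hS, ag, sb, ln⟩ := greedy hε W _ Finset.univ le_rfl E hE univ
    isUpperSet_univ fun _ _ => Finset.mem_univ _
  have hc : (Finset.univ : Finset (Colour J W)).card =
      2 ^ (3 * Fintype.card J + Fintype.card J * Fintype.card J + 2 * W.card) := by
    rw [Finset.card_univ, pow_add, pow_add, pow_mul, pow_mul, pow_mul]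
    simp only [Fintype.card_prod, Fintype.card_fun, Fintype.card_prop, Fintype.card_coe]
    norm_num [mul_assoc]
  refine ⟨E', S ∪ W, hE', Finset.subset_union_right, ?_, fun x hx => ag x (Or.inr hx), sb,
    fun x hx j => ?_⟩
  · have := Finset.card_union_le S W
    rw [hc] at hS
    omega
  · exact lin_mono (ln x (mem_univ x) (fun h => hx (Finset.mem_union_left _ h)) j)
      (fun x' h => ⟨gap_mono Finset.subset_union_left x h, mem_univ _⟩) fun _ _ _ => Iff.rfl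

end Pool.Agent.Lib.MP_79902f_lc.Up
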