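import Pool.Agent.Lib.MP_79902f_lc.USign

open Set

noncomputable section

namespace Pool.Agent.Lib.MP_79902f_lc.Up

namespace URegAux

theorem side (a b : ℝ) (K : Set (ℝ × ℝ)) :
    ∃ (ψ : ℝ × ℝ × ℝ) (e : ℝ), ∀ z : ℝ × ℝ,
      (lx (ev ψ z) e < 0 ↔ ∃ w ∈ K, a * z.1 + b * z.2 ≤ a * w.1 + b * w.2) := by
  classical
  set I : Set ℝ := (fun w : ℝ × ℝ => a * w.1 + b * w.2) '' K with hI
  rcases K.eq_empty_or_nonempty with rfl | hne
  · refine ⟨(0, 0, 1), 1, fun z => ?_⟩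
    simp [lx, ev]
  by_cases hb : BddAbove I
  · refine ⟨(a, b, -sSup I), if sSup I ∈ I then -1 else 1, fun z => ?_⟩
    rw [lx_neg_iff]
    simp only [ev]
    constructor
    · rintro (h | ⟨h, h'⟩)
      · obtain ⟨_, ⟨w, hw, rfl⟩, h2⟩ :=
          exists_lt_of_lt_csSup (hne.image _ : I.Nonempty) (show a * z.1 + b * z.2 < sSup I by linarith)
        exact ⟨w, hw, h2.le⟩
      · by_cases hs : sSup I ∈ I
        · obtain ⟨w, hw, h2⟩ := hs
          exact ⟨w, hw, by simp only at h2; linarith⟩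
        · rw [if_neg hs] at h'
          linarith
    · rintro ⟨w, hw, h⟩
      have hwI : a * w.1 + b * w.2 ∈ I := ⟨w, hw, rfl⟩
      have h1 := le_csSup hb hwI
      rcases (h.trans h1).lt_or_eq with h2 | h2
      · left
        linarith
      · right
        have h3 : sSup I = a * w.1 + b * w.2 := by linarith
        refine ⟨by linarith, ?_⟩
        rw [if_pos (h3 ▸ hwI)]
        norm_num
  · refine ⟨(0, 0, -1), 1, fun z => ?_⟩
    obtain ⟨_, ⟨w, hw, rfl⟩, h2⟩ := not_bddAbove_iff.1 hb (a * z.1 + b * z.2)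
    refine iff_of_true ?_ ⟨w, hw, h2.le⟩
    simp [lx, ev]

theorem inj {F : ℝ × ℝ × ℝ} (hF : F ≠ 0) {u u' : ℝ × ℝ} (hu : ev F u = 0) (hu' : ev F u' = 0)
    (h : -F.2.1 * u.1 + F.1 * u.2 = -F.2.1 * u'.1 + F.1 * u'.2) : u = u' := by
  simp only [ev] at hu hu'
  have hp : F.1 ^ 2 + F.2.1 ^ 2 ≠ 0 := by
    intro h0
    have h1 : F.1 = 0 := by nlinarith [sq_nonneg F.1, sq_nonneg F.2.1]
    have h2 : F.2.1 = 0 := by nlinarith [sq_nonneg F.1, sq_nonneg F.2.1]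
    rw [h1, h2] at hu
    exact hF (Prod.ext h1 (Prod.ext h2 (by simpa using hu)))
  have e1 : (F.1 ^ 2 + F.2.1 ^ 2) * (u.1 - u'.1) = 0 := by
    linear_combination F.1 * (hu - hu') - F.2.1 * h
  have e2 : (F.1 ^ 2 + F.2.1 ^ 2) * (u.2 - u'.2) = 0 := by
    linear_combination F.2.1 * (hu - hu') + F.1 * h
  exact Prod.ext (sub_eq_zero.1 ((mul_eq_zero.1 e1).resolve_left hp))
    (sub_eq_zero.1 ((mul_eq_zero.1 e2).resolve_left hp))

/-- the form number `f` -/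
def GG (ψ : ℕ → ℝ × ℝ × ℝ → ℕ → ℝ × ℝ × ℝ) (Φ : ℕ → ℝ × ℝ × ℝ) (f : ℕ) : ℝ × ℝ × ℝ :=
  if f % 2 = 0 then Φ (f / 4) else ψ (f / 4) (Φ (f / 4)) (f / 2 % 2)

/-- the registers -/
def VV (ψ : ℕ → ℝ × ℝ × ℝ → ℕ → ℝ × ℝ × ℝ) (e : ℕ → ℝ × ℝ × ℝ → ℕ → ℝ) (Φ : ℕ → ℝ × ℝ × ℝ)
    (a : ℕ) : ℝ :=
  if a % 16 = 1 then (GG ψ Φ (a / 16)).1 else if a % 16 = 2 then (GG ψ Φ (a / 16)).2.1
  else if a % 16 = 3 then (GG ψ Φ (a / 16)).2.2
  else e (a / 16 / 2) (Φ (a / 16 / 2)) (a / 16 % 2)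

variable {ψ : ℕ → ℝ × ℝ × ℝ → ℕ → ℝ × ℝ × ℝ} {e : ℕ → ℝ × ℝ × ℝ → ℕ → ℝ} {Φ : ℕ → ℝ × ℝ × ℝ}

theorem V1 (f : ℕ) : VV ψ e Φ (16 * f + 1) = (GG ψ Φ f).1 := by
  have h1 : (16 * f + 1) % 16 = 1 := by omega
  have h2 : (16 * f + 1) / 16 = f := by omega
  simp [VV, h1, h2]

theorem V2 (f : ℕ) : VV ψ e Φ (16 * f + 2) = (GG ψ Φ f).2.1 := by
  have h1 : (16 * f + 2) % 16 = 2 := by omega
  have h2 : (16 * f + 2) / 16 = f := by omega
  simp [VV, h1, h2]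

theorem V3 (f : ℕ) : VV ψ e Φ (16 * f + 3) = (GG ψ Φ f).2.2 := by
  have h1 : (16 * f + 3) % 16 = 3 := by omega
  have h2 : (16 * f + 3) / 16 = f := by omega
  simp [VV, h1, h2]

theorem V4 (r : ℕ) : VV ψ e Φ (16 * r + 4) = e (r / 2) (Φ (r / 2)) (r % 2) := by
  have h1 : (16 * r + 4) % 16 = 4 := by omega
  have h2 : (16 * r + 4) / 16 = r := by omega
  simp [VV, h1, h2]

theorem G0 (r : ℕ) : GG ψ Φ (2 * r) = Φ (r / 2) := by
  have h1 : 2 * r % 2 = 0 := by omega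
  have h2 : 2 * r / 4 = r / 2 := by omega
  rw [GG, if_pos h1, h2]

theorem G1 (r : ℕ) : GG ψ Φ (2 * r + 1) = ψ (r / 2) (Φ (r / 2)) (r % 2) := by
  have h1 : ¬ (2 * r + 1) % 2 = 0 := by omega
  have h2 : (2 * r + 1) / 4 = r / 2 := by omega
  have h3 : (2 * r + 1) / 2 = r := by omega
  rw [GG, if_neg h1, h2, h3]

theorem fm_V (f : ℕ) (x y : ℝ) : fm (VV ψ e Φ) f x y 1 = ev (GG ψ Φ f) (x, y) := by
  simp only [fm, V1, V2, V3, ev, mul_one]

theorem tr_V (r : ℕ) (x y : ℝ) : tr (VV ψ e Φ) r x y 1 0 = lx (ev (Φ (r / 2)) (x, y))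
    (lx (ev (ψ (r / 2) (Φ (r / 2)) (r % 2)) (x, y)) (e (r / 2) (Φ (r / 2)) (r % 2))) := by
  rw [tr, fd_zero, fd_zero, fm_V, fm_V, G0, G1, V4]

theorem pair_V {K : Set (ℝ × ℝ)} (j : ℕ) (x y : ℝ)
    (h : ∀ z, ev (Φ j) z = 0 → (z ∈ K ↔ lx (ev (ψ j (Φ j) 0) z) (e j (Φ j) 0) < 0 ∧
      lx (ev (ψ j (Φ j) 1) z) (e j (Φ j) 1) < 0)) :
    (tr (VV ψ e Φ) (2 * j) x y 1 0 < 0 ∧ tr (VV ψ e Φ) (2 * j + 1) x y 1 0 < 0) ↔
      (ev (Φ j) (x, y) < 0 ∨ (ev (Φ j) (x, y) = 0 ∧ (x, y) ∈ K)) := by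
  have a1 : 2 * j / 2 = j := by omega
  have a2 : 2 * j % 2 = 0 := by omega
  have a3 : (2 * j + 1) / 2 = j := by omega
  have a4 : (2 * j + 1) % 2 = 1 := by omega
  rw [tr_V, tr_V, a1, a2, a3, a4, lx_neg_iff, lx_neg_iff (a := ev (Φ j) (x, y))]
  constructor
  · rintro ⟨h1 | ⟨h1, h2⟩, h3 | ⟨_, h4⟩⟩
    · exact Or.inl h1
    · exact Or.inl h1
    · exact Or.inl h3
    · exact Or.inr ⟨h1, (h _ h1).2 ⟨h2, h4⟩⟩
  · rintro (h1 | ⟨h1, h2⟩)
    · exact ⟨Or.inl h1, Or.inl h1⟩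
    · exact ⟨Or.inr ⟨h1, ((h _ h1).1 h2).1⟩, Or.inr ⟨h1, ((h _ h1).1 h2).2⟩⟩

theorem inN_iff (v : ℕ → ℝ) (i : ℕ) (X Y W d : ℝ) : inN v i X Y W d ↔
    (tr v (2 * (2 * i)) X Y W d < 0 ∧ tr v (2 * (2 * i) + 1) X Y W d < 0) ∧
      (tr v (2 * (2 * i + 1)) X Y W d < 0 ∧ tr v (2 * (2 * i + 1) + 1) X Y W d < 0) := by
  have a0 : 2 * (2 * i) = 4 * i + 0 := by ring
  have a2 : 2 * (2 * i + 1) = 4 * i + 2 := by ring
  rw [a0, a2]
  constructor
  · intro h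
    exact ⟨⟨h 0 (by norm_num), h 1 (by norm_num)⟩, h 2 (by norm_num), h 3 (by norm_num)⟩
  · rintro ⟨⟨h0, h1⟩, h2, h3⟩ k hk
    interval_cases k
    exacts [h0, h1, h2, h3]

end URegAux

open URegAux in
/-- If the linear part of `F` is zero nothing is to be shown. Otherwise `t z = -F.2.1 z.1 + F.1 z.2`
is injective on the line and the image `I` of the part of `K` on the line is an interval, the
intersection of its lower and its upper closure. For the lower closure take the constant form `1`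
if `I` is empty, `-1` if it is unbounded above, else `t - sSup I` with `e = -1` or `1` according to
`sSup I ∈ I`. -/
theorem exists_split (F : ℝ × ℝ × ℝ) (hF : F ≠ 0) {K : Set (ℝ × ℝ)} (hK : Convex ℝ K) :
    ∃ (ψ : ℕ → ℝ × ℝ × ℝ) (e : ℕ → ℝ), ∀ z, ev F z = 0 →
      (z ∈ K ↔ lx (ev (ψ 0) z) (e 0) < 0 ∧ lx (ev (ψ 1) z) (e 1) < 0) := by
  obtain ⟨ψ₀, e₀, h₀⟩ := side (-F.2.1) F.1 (K ∩ {z | ev F z = 0})
  obtain ⟨ψ₁, e₁, h₁⟩ := side F.2.1 (-F.1) (K ∩ {z | ev F z = 0})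
  refine ⟨fun n => if n = 0 then ψ₀ else ψ₁, fun n => if n = 0 then e₀ else e₁, fun z hz => ?_⟩
  simp only [if_true, one_ne_zero, if_false]
  rw [h₀, h₁]
  constructor
  · intro h
    exact ⟨⟨z, ⟨h, hz⟩, le_rfl⟩, ⟨z, ⟨h, hz⟩, le_rfl⟩⟩
  · rintro ⟨⟨w, ⟨hw, hw0⟩, h1⟩, ⟨w', ⟨hw', hw0'⟩, h2⟩⟩
    have hw0 : ev F w = 0 := hw0
    have hw0' : ev F w' = 0 := hw0'
    rcases h1.lt_or_eq with h1 | h1
    · set D := (-F.2.1 * w.1 + F.1 * w.2) - (-F.2.1 * w'.1 + F.1 * w'.2) with hD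
      set A := (-F.2.1 * z.1 + F.1 * z.2) - (-F.2.1 * w'.1 + F.1 * w'.2) with hA
      have hA0 : 0 ≤ A := by rw [hA]; linarith
      have hAD : A < D := by rw [hA, hD]; linarith
      have hD0 : 0 < D := hA0.trans_lt hAD
      have hl : A / D * D = A := div_mul_cancel₀ A hD0.ne'
      have hm := hK hw hw' (div_nonneg hA0 hD0.le)
        (sub_nonneg.2 ((div_le_one hD0).2 hAD.le)) (by ring : A / D + (1 - A / D) = 1)
      have : (A / D) • w + (1 - A / D) • w' = z := by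
        refine inj hF ?_ hz ?_
        · simp only [ev, Prod.fst_add, Prod.snd_add, Prod.smul_fst, Prod.smul_snd,
            smul_eq_mul] at hw0 hw0' ⊢
          linear_combination (A / D) * hw0 + (1 - A / D) * hw0'
        · simp only [Prod.fst_add, Prod.snd_add, Prod.smul_fst, Prod.smul_snd, smul_eq_mul]
          linear_combination hl - (A / D) * hD + hA
      exact this ▸ hm
    · rw [inj hF hz hw0 h1]
      exact hw

open URegAux in
/-- Choose `ψ j F`, `e j F` by `exists_split` as functions of `j` and `F` (anything for `F = 0`).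
Track `r` belongs to `j = r / 2`; form `2 * r` is `φ j x`, form `2 * r + 1` is
`ψ j (φ j x) (r % 2)`, and the entry `16 * r + 4` is `e j (φ j x) (r % 2)`. Then tracks `2 j` and
`2 j + 1` both contain `z` iff `ev (φ j x) z < 0` or `ev (φ j x) z = 0 ∧ z ∈ Y j` (`fd_zero`,
`lx_neg_iff`). -/
theorem exists_reg {m : ℕ} {Y : ℕ → Set (ℝ × ℝ)} {S : Finset ℝ} {φ : ℕ → ℝ → ℝ × ℝ × ℝ}
    (hY : ∀ j < 2 * m, Convex ℝ (Y j)) (h : ∀ j < 2 * m, Trk (Y j) S (φ j)) :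
    ∃ v, Reg m (fun i => Y (2 * i) ∩ Y (2 * i + 1)) S v := by
  have hex : ∀ (j : ℕ) (F : ℝ × ℝ × ℝ), ∃ (ψ : ℕ → ℝ × ℝ × ℝ) (e : ℕ → ℝ), j < 2 * m → F ≠ 0 →
      ∀ z, ev F z = 0 →
        (z ∈ Y j ↔ lx (ev (ψ 0) z) (e 0) < 0 ∧ lx (ev (ψ 1) z) (e 1) < 0) := by
    intro j F
    by_cases hj : j < 2 * m ∧ F ≠ 0
    · obtain ⟨ψ, e, h'⟩ := exists_split F hj.2 (hY j hj.1)
      exact ⟨ψ, e, fun _ _ => h'⟩
    · exact ⟨0, 0, fun h1 h2 => absurd ⟨h1, h2⟩ hj⟩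
  choose ψ e hψ using hex
  set Φ : ℝ → ℕ → ℝ × ℝ × ℝ := fun x j => if j < 2 * m then φ j x else 0 with hΦ
  have hΦ' : ∀ x, ∀ j < 2 * m, Φ x j = φ j x := fun x j hj => if_pos hj
  have hp : ∀ x ∉ S, ∀ j < 2 * m, ∀ s y : ℝ,
      (tr (VV ψ e (Φ x)) (2 * j) s y 1 0 < 0 ∧ tr (VV ψ e (Φ x)) (2 * j + 1) s y 1 0 < 0) ↔
        (ev (φ j x) (s, y) < 0 ∨ (ev (φ j x) (s, y) = 0 ∧ (s, y) ∈ Y j)) := by
    intro x hx j hj s y
    rw [← hΦ' x j hj]
    exact pair_V j s y (hψ j _ hj (by rw [hΦ' x j hj]; exact (h j hj).ne x hx))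
  have hb : ∀ x ∉ S, ∀ j < 2 * m, ∀ z ∈ Y j,
      ev (φ j x) z < 0 ∨ (ev (φ j x) z = 0 ∧ z ∈ Y j) := fun x hx j hj z hz =>
    ((h j hj).sub x hx z hz).lt_or_eq.imp_right fun h' => ⟨h', hz⟩
  refine ⟨fun x => VV ψ e (Φ x), ?_, ?_, ?_⟩
  · intro x hx x' hx'
    have : Φ x' = Φ x := by
      funext j
      by_cases hj : j < 2 * m
      · rw [hΦ' x' j hj, hΦ' x j hj, (h j hj).const x hx x' hx']
      · simp only [hΦ, if_neg hj]
    simp only [this]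
  · intro x hx i hi y
    have hs : ∀ j < 2 * m, (ev (φ j x) (x, y) < 0 ∨ (ev (φ j x) (x, y) = 0 ∧ (x, y) ∈ Y j)) ↔
        (x, y) ∈ Y j := fun j hj =>
      ⟨fun h' => h'.elim ((h j hj).strip x hx y) And.right, hb x hx j hj _⟩
    rw [inN_iff, hp x hx _ (by omega), hp x hx _ (by omega), hs _ (by omega), hs _ (by omega)]
    rfl
  · intro x s x' ha
    have hx := ha.1
    have hx' := ha.2.1
    constructor
    · intro r hr
      have hj : r / 2 < 2 * m := by omega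
      rcases ((h _ hj).line x s x' ha).1 with h1 | ⟨l, l', h1, h2, h3⟩
      · refine ⟨0, 0, Or.inl ?_⟩
        simp only [Eq3, V1, V2, V3, V4, G0, G1, hΦ' _ _ hj, h1, and_self]
      · refine ⟨l, l', Or.inr ⟨h1, h2, ?_⟩⟩
        simp only [V1, V2, V3, G0, hΦ' _ _ hj]
        have c1 := congrArg (fun F : ℝ × ℝ × ℝ => F.1) h3
        have c2 := congrArg (fun F : ℝ × ℝ × ℝ => F.2.1) h3
        have c3 := congrArg (fun F : ℝ × ℝ × ℝ => F.2.2) h3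
        simp only [Prod.fst_sub, Prod.snd_sub, Prod.smul_fst, Prod.smul_snd, smul_eq_mul]
          at c1 c2 c3
        exact ⟨c1, c2, by linarith⟩
    · intro i hi y
      have hs : ∀ j < 2 * m,
          ((ev (φ j x) (s, y) < 0 ∨ (ev (φ j x) (s, y) = 0 ∧ (s, y) ∈ Y j)) ∧
            (ev (φ j x') (s, y) < 0 ∨ (ev (φ j x') (s, y) = 0 ∧ (s, y) ∈ Y j))) ↔
          (s, y) ∈ Y j := by
        intro j hj
        refine ⟨?_, fun h' => ⟨hb x hx j hj _ h', hb x' hx' j hj _ h'⟩⟩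
        rintro ⟨h1 | h1, h2 | h2⟩
        · exact ((h j hj).line x s x' ha).2 y h1 h2
        · exact h2.2
        · exact h1.2
        · exact h1.2
      rw [inN_iff, inN_iff, hp x hx _ (by omega), hp x hx _ (by omega), hp x' hx' _ (by omega),
        hp x' hx' _ (by omega), and_and_and_comm, hs _ (by omega), hs _ (by omega)]
      rfl

theorem Reg.mono {m : ℕ} {X : ℕ → Set (ℝ × ℝ)} {S S' : Finset ℝ} {v : ℝ → ℕ → ℝ}
    (h : Reg m X S v) (hS : S ⊆ S') : Reg m X S' v := by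
  refine ⟨fun x hx x' hx' => h.const x (fun k => hx (hS k)) x'
    ⟨fun k => hx'.1 (hS k), fun s hs => hx'.2 s (hS hs)⟩,
    fun x hx => h.strip x fun k => hx (hS k), fun x s x' ha => h.line x s x' ?_⟩
  exact ⟨fun k => ha.1 (hS k), fun k => ha.2.1 (hS k), ha.2.2.1, ha.2.2.2.1,
    fun t ht => ha.2.2.2.2 t (hS ht)⟩

/-- The key (S.filter (· < x)).max : WithBot ℝ takes at most S.card + 1 values and points
outside S with the same key lie in the same gap, so v takes at most S.card + 1 values outside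
S. Add all their roots to S. -/
theorem Reg.refine {m : ℕ} {X : ℕ → Set (ℝ × ℝ)} {S : Finset ℝ} {v : ℝ → ℕ → ℝ}
    (h : Reg m X S v) (R : ℕ) :
    ∃ S' : Finset ℝ, S ⊆ S' ∧ S'.card ≤ S.card + (S.card + 1) * (R * R) ∧
      ∀ x ∉ S', ∀ i < R, ∀ j < R, root (v x) i j ∈ S' := by
  classical
  let k : ℝ → ℕ := fun x => (S.filter (· < x)).card
  have hk : ∀ x, k x < S.card + 1 := fun x => Nat.lt_succ_of_le (Finset.card_filter_le _ _)
  have hle : ∀ x x', x ≤ x' → k x = k x' → S.filter (· < x) = S.filter (· < x') := by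
    intro x x' hxx he
    refine Finset.eq_of_subset_of_card_le (fun s hs => ?_) he.ge
    rw [Finset.mem_filter] at hs ⊢
    exact ⟨hs.1, hs.2.trans_le hxx⟩
  have heq : ∀ x x', k x = k x' → S.filter (· < x) = S.filter (· < x') := by
    intro x x' he
    rcases le_total x x' with h1 | h1
    · exact hle x x' h1 he
    · exact (hle x' x h1 he.symm).symm
  have hu : ∀ n : ℕ, ∃ u : ℕ → ℝ, ∀ x ∉ S, k x = n → v x = u := by
    intro n
    by_cases hn : ∃ x ∉ S, k x = n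
    · obtain ⟨x₀, hx₀, h0⟩ := hn
      refine ⟨v x₀, fun x hx h1 => h.const x₀ hx₀ x ⟨hx, fun s hs => ?_⟩⟩
      have h2 := Finset.ext_iff.1 (heq x₀ x (h0.trans h1.symm)) s
      simpa only [Finset.mem_filter, hs, true_and] using h2
    · exact ⟨0, fun x hx h1 => absurd ⟨x, hx, h1⟩ hn⟩
  choose u hu using hu
  refine ⟨S ∪ (Finset.range (S.card + 1) ×ˢ Finset.range R ×ˢ Finset.range R).image
    fun p : ℕ × ℕ × ℕ => root (u p.1) p.2.1 p.2.2, Finset.subset_union_left, ?_, ?_⟩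
  · refine (Finset.card_union_le _ _).trans (Nat.add_le_add_left (Finset.card_image_le.trans ?_) _)
    simp only [Finset.card_product, Finset.card_range, le_refl]
  · intro x hx i hi j hj
    have hxS : x ∉ S := fun h' => hx (Finset.mem_union_left _ h')
    refine Finset.mem_union_right _ (Finset.mem_image.2 ⟨(k x, i, j), ?_, ?_⟩)
    · simp only [Finset.mem_product, Finset.mem_range]
      exact ⟨hk x, hi, hj⟩
    · rw [hu (k x) x hxS rfl]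

end Pool.Agent.Lib.MP_79902f_lc.Up
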