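import Pool.Agent.Lib.MP_79902f_lc.UCut

open Set

noncomputable section

namespace Pool.Agent.Lib.MP_79902f_lc.Up

variable {E : Set (ℝ × ℝ)} {S : Finset ℝ}

/-- `S` is finite. -/
theorem exists_Ioo_subset_gap {x : ℝ} (hx : x ∉ S) :
    ∃ δ : ℝ, 0 < δ ∧ Ioo (x - δ) (x + δ) ⊆ gap S x := by
  have ho : IsOpen ((S : Set ℝ)ᶜ) := S.finite_toSet.isClosed.isOpen_compl
  obtain ⟨δ, hδ, hb⟩ := Metric.isOpen_iff.1 ho x hx
  rw [Real.ball_eq_Ioo] at hb
  refine ⟨δ, hδ, fun t ht => ⟨hb ht, fun s hs => ?_⟩⟩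
  have hs' : s ∉ Ioo (x - δ) (x + δ) := fun k => hb k hs
  rw [mem_Ioo, not_and_or, not_lt, not_lt] at hs'
  obtain ⟨t1, t2⟩ := ht
  constructor <;> intro k <;> rcases hs' with k' | k' <;> linarith

theorem Adj.left {x s x' : ℝ} (h : Adj S x s x') : Ico x s ⊆ gap S x := by
  obtain ⟨h1, -, -, h4, h5⟩ := h
  have key : ∀ t ∈ Ico x s, t ∉ S := fun t ht k => by
    rcases ht.1.eq_or_lt with e | e
    · exact h1 (e ▸ k)
    · exact ht.2.ne (h5 t k e (ht.2.trans h4))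
  refine fun t ht => ⟨key t ht, fun u hu => ⟨fun k => k.trans_le ht.1, fun k => ?_⟩⟩
  by_contra k'
  exact key u ⟨not_lt.1 k', k.trans ht.2⟩ hu

theorem Adj.right {x s x' : ℝ} (h : Adj S x s x') : Ioc s x' ⊆ gap S x' := by
  obtain ⟨-, h2, h3, -, h5⟩ := h
  have key : ∀ t ∈ Ioc s x', t ∉ S := fun t ht k => by
    rcases ht.2.eq_or_lt with e | e
    · exact h2 (e ▸ k)
    · exact ht.1.ne' (h5 t k (h3.trans ht.1) e)
  refine fun t ht => ⟨key t ht, fun u hu => ⟨fun k => ?_, fun k => k.trans_le ht.2⟩⟩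
  by_contra k'
  exact key u ⟨ht.1.trans_le (not_lt.1 k'), k.le⟩ hu

theorem gap_eq {x x' : ℝ} (h : x' ∈ gap S x) : gap S x' = gap S x := by
  ext t
  exact and_congr_right fun _ => forall₂_congr fun s hs => by rw [h.2 s hs]

namespace UTrkAux

/-- the line bounds the set over `G` -/
def Ln (E : Set (ℝ × ℝ)) (G : Set ℝ) (κ β : ℝ) : Prop :=
  ∀ x ∈ G, ∀ y, (y < κ * x + β → (x, y) ∈ E) ∧ ((x, y) ∈ E → y ≤ κ * x + β)

/-- the five kinds of forms -/
def Spec (E : Set (ℝ × ℝ)) (G : Set ℝ) (F : ℝ × ℝ × ℝ) : Prop :=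
  (E = ∅ ∧ F = (0, 0, 1)) ∨
    (E.Nonempty ∧ (∀ z ∈ E, ∀ x ∈ G, z.1 < x) ∧ F = (1, 0, -sSup (Prod.fst '' E))) ∨
    (E.Nonempty ∧ (∀ z ∈ E, ∀ x ∈ G, x < z.1) ∧ F = (-1, 0, sInf (Prod.fst '' E))) ∨
    ((∀ x ∈ G, ∀ y, (x, y) ∈ E) ∧ F = (0, 0, -1)) ∨
    ∃ κ β : ℝ, Ln E G κ β ∧ F = (-κ, 1, -β)

theorem self_mem {x : ℝ} (hx : x ∉ S) : x ∈ gap S x := ⟨hx, fun _ _ => Iff.rfl⟩

theorem between {a x x' t : ℝ} (h : x ∈ gap S a) (h' : x' ∈ gap S a) (k : x ≤ t) (k' : t ≤ x') :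
    t ∈ gap S a := by
  refine ⟨fun ht => ?_, fun s hs => ⟨fun e => ((h.2 s hs).1 e).trans_le k,
    fun e => (h'.2 s hs).2 (e.trans_le k')⟩⟩
  rcases k'.eq_or_lt with e | e
  · exact h'.1 (e ▸ ht)
  · exact absurd ((h.2 t ht).1 ((h'.2 t ht).2 e)) (not_lt.2 k)

theorem exists_spec (hE : DC E) {x : ℝ} (hx : x ∉ S) (h : Lin E (gap S x)) :
    ∃ F, Spec E (gap S x) F := by
  rcases h with h | h | ⟨κ, β, h⟩
  · rcases E.eq_empty_or_nonempty with e | e
    · exact ⟨_, Or.inl ⟨e, rfl⟩⟩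
    have hne : ∀ z ∈ E, z.1 ∉ gap S x := fun z hz k => h _ k z.2 hz
    by_cases hl : ∀ z ∈ E, z.1 < x
    · refine ⟨_, Or.inr (Or.inl ⟨e, fun z hz t ht => ?_, rfl⟩)⟩
      by_contra k
      exact hne z hz (between ht (self_mem hx) (not_lt.1 k) (hl z hz).le)
    · push Not at hl
      obtain ⟨w, hw, hxw⟩ := hl
      have hr : ∀ z ∈ E, x < z.1 := fun z hz => by
        by_contra k
        have k1 : z.1 ≤ x := not_lt.1 k
        have k2 : z.1 < w.1 := by
          rcases (k1.trans hxw).eq_or_lt with e' | e'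
          · have e'' : z.1 = x := le_antisymm k1 (e' ▸ hxw)
            exact absurd (by rw [e'']; exact self_mem hx) (hne z hz)
          · exact e'
        refine h x (self_mem hx) (min z.2 w.2)
          (hE.chord (x₁ := z.1) (y₁ := z.2) (x₃ := w.1) (y₃ := w.2) hz hw k1 hxw k2 ?_)
        nlinarith [mul_nonneg (sub_nonneg.2 hxw) (sub_nonneg.2 (min_le_left z.2 w.2)),
          mul_nonneg (sub_nonneg.2 k1) (sub_nonneg.2 (min_le_right z.2 w.2))]
      refine ⟨_, Or.inr (Or.inr (Or.inl ⟨e, fun z hz t ht => ?_, rfl⟩))⟩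
      by_contra k
      exact hne z hz (between (self_mem hx) ht (hr z hz).le (not_lt.1 k))
  · exact ⟨_, Or.inr (Or.inr (Or.inr (Or.inl ⟨h, rfl⟩)))⟩
  · exact ⟨_, Or.inr (Or.inr (Or.inr (Or.inr ⟨κ, β, h, rfl⟩)))⟩

theorem Ln.sub (hE : DC E) {x κ β : ℝ} (hx : x ∉ S) (h : Ln E (gap S x) κ β) {a b : ℝ}
    (hz : (a, b) ∈ E) : b ≤ κ * a + β := by
  obtain ⟨δ, hδ, hG⟩ := exists_Ioo_subset_gap hx
  by_contra k
  have hε : 0 < b - (κ * a + β) := sub_pos.2 (not_le.1 k)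
  rcases lt_trichotomy a x with e | e | e
  · obtain ⟨t, t1, t2⟩ := exists_between (max_lt e (by linarith : x - δ < x))
    have ta : a < t := (le_max_left _ _).trans_lt t1
    have tG : t ∈ gap S x := hG ⟨(le_max_right _ _).trans_lt t1, by linarith⟩
    obtain ⟨τ, hτ, eτ⟩ : ∃ τ : ℝ, 0 < τ ∧ 2 * (x - a) * τ = (x - t) * (b - (κ * a + β)) :=
      ⟨(x - t) * (b - (κ * a + β)) / (2 * (x - a)),
        div_pos (mul_pos (sub_pos.2 t2) hε) (by linarith),
        mul_div_cancel₀ _ (by linarith : (0 : ℝ) < 2 * (x - a)).ne'⟩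
    have := (h t tG (κ * t + β + τ)).2 (hE.chord hz
      ((h x (self_mem hx) (κ * x + β - τ)).1 (by linarith)) ta.le t2.le e
      (by nlinarith [mul_pos (sub_pos.2 t2) hτ]))
    linarith
  · exact k ((h x (self_mem hx) b).2 (e ▸ hz) |>.trans_eq (by rw [e]))
  · obtain ⟨t, t2, t1⟩ := exists_between (lt_min e (by linarith : x < x + δ))
    have ta : t < a := t1.trans_le (min_le_left _ _)
    have tG : t ∈ gap S x := hG ⟨by linarith, t1.trans_le (min_le_right _ _)⟩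
    obtain ⟨τ, hτ, eτ⟩ : ∃ τ : ℝ, 0 < τ ∧ 2 * (a - x) * τ = (t - x) * (b - (κ * a + β)) :=
      ⟨(t - x) * (b - (κ * a + β)) / (2 * (a - x)),
        div_pos (mul_pos (sub_pos.2 t2) hε) (by linarith),
        mul_div_cancel₀ _ (by linarith : (0 : ℝ) < 2 * (a - x)).ne'⟩
    have := (h t tG (κ * t + β + τ)).2 (hE.chord
      ((h x (self_mem hx) (κ * x + β - τ)).1 (by linarith)) hz t2.le ta.le e
      (by nlinarith [mul_pos (sub_pos.2 t2) hτ]))
    linarith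

theorem le_sup {c : ℝ} (hc : ∀ z ∈ E, z.1 ≤ c) {z : ℝ × ℝ} (hz : z ∈ E) :
    z.1 ≤ sSup (Prod.fst '' E) :=
  le_csSup ⟨c, by rintro _ ⟨w, hw, rfl⟩; exact hc w hw⟩ ⟨z, hz, rfl⟩

theorem sup_le {c : ℝ} (hn : E.Nonempty) (hc : ∀ z ∈ E, z.1 ≤ c) : sSup (Prod.fst '' E) ≤ c :=
  csSup_le (hn.image _) (by rintro _ ⟨w, hw, rfl⟩; exact hc w hw)

theorem inf_le {c : ℝ} (hc : ∀ z ∈ E, c ≤ z.1) {z : ℝ × ℝ} (hz : z ∈ E) :
    sInf (Prod.fst '' E) ≤ z.1 :=
  csInf_le ⟨c, by rintro _ ⟨w, hw, rfl⟩; exact hc w hw⟩ ⟨z, hz, rfl⟩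

theorem le_inf' {c : ℝ} (hn : E.Nonempty) (hc : ∀ z ∈ E, c ≤ z.1) : c ≤ sInf (Prod.fst '' E) :=
  le_csInf (hn.image _) (by rintro _ ⟨w, hw, rfl⟩; exact hc w hw)

theorem small {a c r : ℝ} (hr : 0 < r) (h : ∀ t, 0 < t → t ≤ r → a ≤ c * t) : a ≤ 0 := by
  by_contra k
  have ha : 0 < a := not_le.1 k
  have hc : 0 < |c| + 1 := by positivity
  have h1 := h (min r (a / (|c| + 1))) (lt_min hr (div_pos ha hc)) (min_le_left _ _)
  have h2 : min r (a / (|c| + 1)) * (|c| + 1) ≤ a := (le_div_iff₀ hc).1 (min_le_right _ _)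
  have h3 : 0 < min r (a / (|c| + 1)) := lt_min hr (div_pos ha hc)
  nlinarith [mul_le_mul_of_nonneg_right (le_abs_self c) h3.le]

/-- the conclusion on the line `s` -/
def Goal (E : Set (ℝ × ℝ)) (s : ℝ) (F F' : ℝ × ℝ × ℝ) : Prop :=
  (F = F' ∨ ∃ l l' : ℝ, 0 ≤ l ∧ 0 ≤ l' ∧ l' • F' - l • F = (1, 0, -s)) ∧
    ∀ y, ev F (s, y) < 0 → ev F' (s, y) < 0 → (s, y) ∈ E

theorem goal_right {x s x' : ℝ} (h : Adj S x s x') (F : ℝ × ℝ × ℝ) (hn : E.Nonempty)
    (hl : ∀ z ∈ E, ∀ t ∈ gap S x', z.1 < t) (hp : ∀ t ∈ Ico x s, ∃ z ∈ E, t ≤ z.1) :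
    Goal E s F (1, 0, -sSup (Prod.fst '' E)) := by
  have h1 : ∀ z ∈ E, z.1 ≤ s := fun z hz => le_of_forall_gt_imp_ge_of_dense fun t ht =>
    (hl z hz (min t x') (h.right ⟨lt_min ht h.2.2.2.1, min_le_right _ _⟩)).le.trans
      (min_le_left _ _)
  have h2 : sSup (Prod.fst '' E) = s := by
    refine le_antisymm (sup_le hn h1) (le_of_forall_lt_imp_le_of_dense fun t ht => ?_)
    obtain ⟨z, hz, k⟩ := hp (max t x) ⟨le_max_right _ _, max_lt ht h.2.2.1⟩
    exact (le_max_left _ _).trans (k.trans (le_sup h1 hz))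
  rw [h2]
  exact ⟨Or.inr ⟨0, 1, le_rfl, zero_le_one, by simp⟩, fun y _ k => by simp [ev] at k⟩

theorem goal_left {x s x' : ℝ} (h : Adj S x s x') (F' : ℝ × ℝ × ℝ) (hn : E.Nonempty)
    (hl : ∀ z ∈ E, ∀ t ∈ gap S x, t < z.1) (hp : ∀ t ∈ Ioc s x', ∃ z ∈ E, z.1 ≤ t) :
    Goal E s (-1, 0, sInf (Prod.fst '' E)) F' := by
  have h1 : ∀ z ∈ E, s ≤ z.1 := fun z hz => le_of_forall_lt_imp_le_of_dense fun t ht =>
    (le_max_left _ _).trans
      (hl z hz (max t x) (h.left ⟨le_max_right _ _, max_lt ht h.2.2.1⟩)).le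
  have h2 : sInf (Prod.fst '' E) = s := by
    refine le_antisymm (le_of_forall_gt_imp_ge_of_dense fun t ht => ?_) (le_inf' hn h1)
    obtain ⟨z, hz, k⟩ := hp (min t x') ⟨lt_min ht h.2.2.2.1, min_le_right _ _⟩
    exact ((inf_le h1 hz).trans k).trans (min_le_left _ _)
  rw [h2]
  exact ⟨Or.inr ⟨1, 0, zero_le_one, le_rfl, by simp⟩, fun y k _ => by simp [ev] at k⟩

theorem goal_lines (hE : DC E) {x s x' κ β κ' β' : ℝ} (h : Adj S x s x')
    (hl : Ln E (gap S x) κ β) (hl' : Ln E (gap S x') κ' β') :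
    Goal E s (-κ, 1, -β) (-κ', 1, -β') := by
  obtain ⟨r, hr, r1, r2⟩ : ∃ r : ℝ, 0 < r ∧ r ≤ s - x ∧ r ≤ x' - s :=
    ⟨min (s - x) (x' - s), lt_min (sub_pos.2 h.2.2.1) (sub_pos.2 h.2.2.2.1), min_le_left _ _,
      min_le_right _ _⟩
  have gl : ∀ t, 0 < t → t ≤ r → s - t ∈ gap S x := fun t t1 t2 =>
    h.left ⟨by linarith, by linarith⟩
  have gr : ∀ t, 0 < t → t ≤ r → s + t ∈ gap S x' := fun t t1 t2 =>
    h.right ⟨by linarith, by linarith⟩
  have a1 : ∀ t, 0 < t → t ≤ r → κ * s + β - (κ' * s + β') ≤ (κ - κ') * t := fun t t1 t2 => by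
    have : κ * (s - t) + β ≤ κ' * (s - t) + β' := le_of_forall_lt_imp_le_of_dense fun y hy =>
      hl'.sub hE h.2.1 ((hl _ (gl t t1 t2) y).1 hy)
    linarith
  have a2 : ∀ t, 0 < t → t ≤ r → κ' * s + β' - (κ * s + β) ≤ (κ - κ') * t := fun t t1 t2 => by
    have : κ' * (s + t) + β' ≤ κ * (s + t) + β := le_of_forall_lt_imp_le_of_dense fun y hy =>
      hl.sub hE h.1 ((hl' _ (gr t t1 t2) y).1 hy)
    linarith
  have e : κ * s + β = κ' * s + β' := by linarith [small hr a1, small hr a2]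
  have hk : 0 ≤ κ - κ' := by
    have := a1 r hr le_rfl
    rw [e, sub_self] at this
    exact nonneg_of_mul_nonneg_left this hr
  refine ⟨?_, fun y k _ => ?_⟩
  · rcases hk.eq_or_lt with k | k
    · have e1 : κ = κ' := by linarith
      have e2 : β = β' := by rw [e1] at e; linarith
      exact Or.inl (by rw [e1, e2])
    · refine Or.inr ⟨1 / (κ - κ'), 1 / (κ - κ'), by positivity, by positivity, ?_⟩
      have e2 : β = β' - (κ - κ') * s := by linarith
      have k' := k.ne'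
      refine Prod.ext ?_ (Prod.ext ?_ ?_) <;>
        simp only [Prod.fst_sub, Prod.snd_sub, Prod.smul_fst, Prod.smul_snd, smul_eq_mul]
      · field_simp; ring
      · ring
      · rw [e2]; field_simp; ring
  · have hε : 0 < κ * s + β - y := by simp only [ev] at k; linarith
    have hc : 0 < κ - κ' + 1 := by linarith
    obtain ⟨t, t1, t2, t3⟩ : ∃ t : ℝ, 0 < t ∧ t ≤ r ∧ t * (κ - κ' + 1) ≤ κ * s + β - y :=
      ⟨min r ((κ * s + β - y) / (κ - κ' + 1)), lt_min hr (div_pos hε hc), min_le_left _ _,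
        (le_div_iff₀ hc).1 (min_le_right _ _)⟩
    refine hE.chord ((hl _ (gl t t1 t2) (κ * (s - t) + β - (κ * s + β - y) / 2)).1 (by linarith))
      ((hl' _ (gr t t1 t2) (κ' * (s + t) + β' - (κ * s + β - y) / 2)).1 (by linarith))
      (by linarith) (by linarith) (by linarith) ?_
    have e2 : β' = β + (κ - κ') * s := by linarith
    rw [e2]
    nlinarith [mul_le_mul_of_nonneg_left t3 t1.le, mul_pos t1 t1]

theorem goal (hE : DC E) {x s x' : ℝ} (h : Adj S x s x') {F F' : ℝ × ℝ × ℝ}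
    (hF : Spec E (gap S x) F) (hF' : Spec E (gap S x') F') : Goal E s F F' := by
  have m := self_mem h.1
  have m' := self_mem h.2.1
  have xs := h.2.2.1
  have sx := h.2.2.2.1
  have xx := xs.trans sx
  have pl : ∀ {G : Set ℝ} {κ β : ℝ}, Ln E G κ β → ∀ t ∈ G, (t, κ * t + β - 1) ∈ E :=
    fun k t ht => (k t ht _).1 (by linarith)
  rcases hF with ⟨a, rfl⟩ | ⟨n, a, rfl⟩ | ⟨n, a, rfl⟩ | ⟨a, rfl⟩ | ⟨κ, β, a, rfl⟩ <;>
    rcases hF' with ⟨b, rfl⟩ | ⟨n', b, rfl⟩ | ⟨n', b, rfl⟩ | ⟨b, rfl⟩ | ⟨κ', β', b, rfl⟩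
  · exact ⟨Or.inl rfl, fun y k _ => by norm_num [ev] at k⟩
  · exact absurd a n'.ne_empty
  · exact absurd a n'.ne_empty
  · exact absurd a (Set.Nonempty.ne_empty ⟨_, b x' m' 0⟩)
  · exact absurd a (Set.Nonempty.ne_empty ⟨_, pl b x' m'⟩)
  · exact absurd b n.ne_empty
  · refine ⟨Or.inl rfl, fun y k _ => ?_⟩
    have := sup_le n fun z hz => (a z hz x m).le
    simp only [ev] at k
    linarith
  · obtain ⟨z, hz⟩ := n
    linarith [a z hz x m, b z hz x' m']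
  · exact absurd (a _ (b x' m' 0) x m) (not_lt.2 xx.le)
  · exact absurd (a _ (pl b x' m') x m) (not_lt.2 xx.le)
  · exact absurd b n.ne_empty
  · exact goal_right h _ n b fun t ht => ⟨n.some, n.some_mem, (a _ n.some_mem t (h.left ht)).le⟩
  · refine ⟨Or.inl rfl, fun y k _ => ?_⟩
    have := le_inf' n fun z hz => (b z hz x' m').le
    simp only [ev] at k
    linarith
  · exact goal_left h _ n a fun t ht => ⟨_, b t (h.right ht) 0, le_rfl⟩
  · exact goal_left h _ n a fun t ht => ⟨_, pl b t (h.right ht), le_rfl⟩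
  · exact absurd b (Set.Nonempty.ne_empty ⟨_, a x m 0⟩)
  · exact goal_right h _ n' b fun t ht => ⟨_, a t (h.left ht) 0, le_rfl⟩
  · exact absurd (b _ (a x m 0) x' m') (not_lt.2 xx.le)
  · exact ⟨Or.inl rfl, fun y _ _ => hE.chord (a x m y) (b x' m' y) xs.le sx.le xx (by linarith)⟩
  · linarith [b.sub hE h.2.1 (a x m (κ' * x + β' + 1))]
  · exact absurd b (Set.Nonempty.ne_empty ⟨_, pl a x m⟩)
  · exact goal_right h _ n' b fun t ht => ⟨_, pl a t (h.left ht), le_rfl⟩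
  · exact absurd (b _ (pl a x m) x' m') (not_lt.2 xx.le)
  · linarith [a.sub hE h.1 (b x' m' (κ * x' + β + 1))]
  · exact goal_lines hE h a b

end UTrkAux

/-- Define the form from the set G = gap S x only, D being the projection of E: (0, 0, 1)
if E is empty; if the slices over G are empty, (1, 0, -sSup D) when D is left of G and
(-1, 0, sInf D) otherwise (D is an interval that misses G); (0, 0, -1) if they are full;
else (-κ, 1, -β) with the chosen line. sub in the last case: a point above the line and a point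
of G slightly under it span a point over G above it (DC.chord). line: if the left gap has
D on its left, or the right gap has D on its right, both forms are equal and one is not
negative on the line s. Otherwise, if the right gap is empty then sSup D = s (l = 0,
l' = 1), if the left gap is empty then sInf D = s (l = 1, l' = 0); full next to full;
full next to a line is impossible; for two lines sub shows that they meet over s and that the
slope decreases by k ≥ 0: equal if k = 0, else l = l' = 1 / k. -/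
theorem exists_trk (hE : DC E) (h : ∀ x ∉ S, Lin E (gap S x)) : ∃ φ, Trk E S φ := by
  have ex : ∀ G : Set ℝ, ∃ F, (∃ F', UTrkAux.Spec E G F') → UTrkAux.Spec E G F := fun G => by
    by_cases k : ∃ F', UTrkAux.Spec E G F'
    · exact ⟨k.choose, fun _ => k.choose_spec⟩
    · exact ⟨0, fun k' => absurd k' k⟩
  choose Φ hΦ using ex
  have sp : ∀ x ∉ S, UTrkAux.Spec E (gap S x) (Φ (gap S x)) := fun x hx =>
    hΦ _ (UTrkAux.exists_spec hE hx (h x hx))
  refine ⟨fun x => Φ (gap S x), fun x _ x' k => by rw [gap_eq k], fun x hx => ?_,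
    fun x hx z hz => ?_, fun x hx y k => ?_,
    fun x s x' k => UTrkAux.goal hE k (sp x k.1) (sp x' k.2.1)⟩
  · rcases sp x hx with ⟨-, e⟩ | ⟨-, -, e⟩ | ⟨-, -, e⟩ | ⟨-, e⟩ | ⟨κ, β, -, e⟩ <;>
      simp [e, Prod.ext_iff]
  · have m := UTrkAux.self_mem hx
    rcases sp x hx with ⟨a, e⟩ | ⟨-, a, e⟩ | ⟨-, a, e⟩ | ⟨-, e⟩ | ⟨κ, β, a, e⟩ <;>
      simp only [e, ev]
    · exact absurd (a ▸ hz) (notMem_empty z)
    · linarith [UTrkAux.le_sup (fun w hw => (a w hw x m).le) hz]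
    · linarith [UTrkAux.inf_le (fun w hw => (a w hw x m).le) hz]
    · linarith
    · linarith [a.sub hE hx (a := z.1) (b := z.2) hz]
  · have m := UTrkAux.self_mem hx
    rcases sp x hx with ⟨-, e⟩ | ⟨n, a, e⟩ | ⟨n, a, e⟩ | ⟨a, e⟩ | ⟨κ, β, a, e⟩ <;>
      simp only [e, ev] at k
    · linarith
    · linarith [UTrkAux.sup_le n fun w hw => (a w hw x m).le]
    · linarith [UTrkAux.le_inf' n fun w hw => (a w hw x m).le]
    · exact a x m y
    · exact (a x m y).1 (by linarith)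

theorem Trk.flip {φ : ℝ → ℝ × ℝ × ℝ} (h : Trk E S φ) (e : ℝ) (he : e = 1 ∨ e = -1) :
    Trk {z | (z.1, e * z.2) ∈ E} S fun x => ((φ x).1, e * (φ x).2.1, (φ x).2.2) := by
  have e0 : e ≠ 0 := by rcases he with k | k <;> norm_num [k]
  have key : ∀ x (z : ℝ × ℝ),
      ev ((φ x).1, e * (φ x).2.1, (φ x).2.2) z = ev (φ x) (z.1, e * z.2) := fun x z => by
    simp only [ev]; ring
  refine ⟨fun x hx x' k => by rw [h.const x hx x' k], fun x hx k => h.ne x hx ?_,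
    fun x hx z hz => by rw [key]; exact h.sub x hx _ hz,
    fun x hx y k => h.strip x hx (e * y) (by rw [key] at k; exact k), fun x s x' k => ⟨?_, ?_⟩⟩
  · simp only [Prod.ext_iff, Prod.fst_zero, Prod.snd_zero, mul_eq_zero, e0, false_or] at k ⊢
    exact k
  · rcases (h.line x s x' k).1 with k' | ⟨l, l', a, b, k'⟩
    · exact Or.inl (by rw [k'])
    · refine Or.inr ⟨l, l', a, b, ?_⟩
      simp only [Prod.ext_iff, Prod.fst_sub, Prod.snd_sub, Prod.smul_fst, Prod.smul_snd,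
        smul_eq_mul] at k' ⊢
      exact ⟨k'.1, by linear_combination e * k'.2.1, k'.2.2⟩
  · intro y k1 k2
    rw [key] at k1 k2
    exact (h.line x s x' k).2 (e * y) k1 k2

end Pool.Agent.Lib.MP_79902f_lc.Up
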