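import Pool.Agent.Lib.MP_79902f_lc.URun
import Pool.Agent.Lib.MP_79902f_lc.UNorm
import Pool.Agent.Lib.MP_79902f_lc.UTrk
import Pool.Agent.Lib.MP_79902f_lc.UReg

open Set

noncomputable section

namespace Pool.Agent.Lib.MP_79902f_lc.Up

namespace UCompAux

/-- alternating signs -/
def sg (j : ℕ) : ℝ := if j % 2 = 0 then 1 else -1

lemma sg_cases (j : ℕ) : sg j = 1 ∨ sg j = -1 := by
  unfold sg
  split_ifs
  · exact Or.inl rfl
  · exact Or.inr rfl

lemma sg_even (i : ℕ) : sg (2 * i) = 1 := if_pos (by omega)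

lemma sg_odd (i : ℕ) : sg (2 * i + 1) = -1 := if_neg (by omega)

/-- the downward closure of the reflected set -/
def dn (e : ℝ) (K : Set (ℝ × ℝ)) : Set (ℝ × ℝ) := {z | ∃ y, z.2 ≤ y ∧ (z.1, e * y) ∈ K}

lemma dc_dn (e : ℝ) {K : Set (ℝ × ℝ)} (hK : Convex ℝ K) : DC (dn e K) := by
  refine ⟨?_, ?_⟩
  · rintro z ⟨y, h1, h2⟩ z' ⟨y', h1', h2'⟩ a b ha hb hab
    refine ⟨a * y + b * y', ?_, ?_⟩
    · simp only [Prod.snd_add, Prod.smul_snd, smul_eq_mul]
      exact add_le_add (mul_le_mul_of_nonneg_left h1 ha) (mul_le_mul_of_nonneg_left h1' hb)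
    · convert hK h2 h2' ha hb hab using 1
      ext
      · simp
      · simp only [Prod.snd_add, Prod.smul_snd, smul_eq_mul]
        ring
  · rintro x y y' ⟨t, h1, h2⟩ h
    exact ⟨t, h.trans h1, h2⟩

lemma convex_flip (e : ℝ) {K : Set (ℝ × ℝ)} (hK : Convex ℝ K) :
    Convex ℝ {z : ℝ × ℝ | (z.1, e * z.2) ∈ K} := by
  intro z h2 z' h2' a b ha hb hab
  show ((a • z + b • z').1, e * (a • z + b • z').2) ∈ K
  convert hK h2 h2' ha hb hab using 1
  ext
  · simp
  · simp only [Prod.snd_add, Prod.smul_snd, smul_eq_mul]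
    ring

lemma mem_iff {K : Set (ℝ × ℝ)} (hK : Convex ℝ K) (x y : ℝ) :
    (x, y) ∈ K ↔ (x, 1 * y) ∈ dn 1 K ∧ (x, -1 * y) ∈ dn (-1) K := by
  constructor
  · intro h
    exact ⟨⟨y, by simp, by simpa using h⟩, ⟨-y, by simp, by simpa using h⟩⟩
  · rintro ⟨⟨t, h1, h2⟩, ⟨t', h1', h2'⟩⟩
    simp only [one_mul, neg_mul] at h1 h2 h1' h2'
    have hc : Convex ℝ {s : ℝ | (x, s) ∈ K} := by
      intro s hs s' hs' a b ha hb hab
      show (x, a • s + b • s') ∈ K
      convert hK hs hs' ha hb hab using 1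
      ext
      · simp only [Prod.fst_add, Prod.smul_fst, smul_eq_mul]
        rw [← add_mul, hab, one_mul]
      · simp
    exact hc.ordConnected.out h2' h2 ⟨by linarith, h1⟩

lemma Mt.congr {L c : List ℕ} {P Q : ℕ → Prop} (h : Mt L c P)
    (e : ∀ i < L.length, (Q i ↔ P i)) : Mt L c Q :=
  fun i hi => (e i hi).trans (h i hi)

end UCompAux

open UCompAux in
/-- J = Fin (2 * m), ε j = 1 for even and -1 for odd j,
E j = {z | ∃ y, z.2 ≤ y ∧ (z.1, ε j * y) ∈ X (j / 2)}; then (x, y) ∈ X i iff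
(x, ε j * y) ∈ E j for j = 2 i, 2 i + 1 (slices are intervals). W = abscissas of chosen
witnesses wt k, k < C.length. normal, exists_trk, Trk.flip, exists_reg (extend the
families to ℕ by dite), Reg.refine, Reg.mono, run_of_reg; C is not empty. -/
theorem complete {L : List ℕ} {C : List (List ℕ)} (h : Rz L C) :
    Run L C (NN L.length C.length) := by
  classical
  obtain ⟨X, hX, hz, hc⟩ := h
  set m := L.length with hm
  have hwt : ∀ k : ℕ, ∃ z : ℝ × ℝ, k < C.length → Mt L (C.getD k []) fun i => z ∈ X i := by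
    intro k
    by_cases hk : k < C.length
    · obtain ⟨z, hz'⟩ := hc (C.getD k []) (by
        rw [List.getD_eq_getElem _ _ hk]
        exact List.getElem_mem hk)
      exact ⟨z, fun _ => hz'⟩
    · exact ⟨0, fun h => absurd h hk⟩
  choose wt hwt using hwt
  set W : Finset ℝ := (Finset.range C.length).image fun k => (wt k).1 with hW
  have hWc : W.card ≤ C.length := Finset.card_image_le.trans (Finset.card_range _).le
  have hWm : ∀ k < C.length, (wt k).1 ∈ W := fun k hk =>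
    Finset.mem_image.2 ⟨k, Finset.mem_range.2 hk, rfl⟩
  obtain ⟨E', S, hE', hWS, hcard, hagr, hsub, hlin⟩ :=
    normal (J := Fin (2 * m)) (ε := fun j => sg j) (fun j => sg_cases j)
      (fun j => dn (sg j) (X (j / 2))) (fun j => dc_dn _ (hX _)) W
  choose φ hφ using fun j => exists_trk (hE' j) fun x hx => hlin x hx j
  let Y : ℕ → Set (ℝ × ℝ) := fun n =>
    if hn : n < 2 * m then {z | (z.1, sg n * z.2) ∈ E' ⟨n, hn⟩} else ∅
  let ψ : ℕ → ℝ → ℝ × ℝ × ℝ := fun n =>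
    if hn : n < 2 * m then
      fun x => ((φ ⟨n, hn⟩ x).1, sg n * (φ ⟨n, hn⟩ x).2.1, (φ ⟨n, hn⟩ x).2.2)
    else 0
  have hYe : ∀ n (hn : n < 2 * m), Y n = {z | (z.1, sg n * z.2) ∈ E' ⟨n, hn⟩} :=
    fun n hn => dif_pos hn
  obtain ⟨v, hv⟩ := exists_reg (m := m) (Y := Y) (S := S) (φ := ψ)
    (fun j hj => by
      rw [hYe j hj]
      exact convex_flip _ (hE' _).1)
    (fun j hj => by
      have e : ψ j = fun x => ((φ ⟨j, hj⟩ x).1, sg j * (φ ⟨j, hj⟩ x).2.1, (φ ⟨j, hj⟩ x).2.2) :=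
        dif_pos hj
      rw [hYe j hj, e]
      exact (hφ ⟨j, hj⟩).flip _ (sg_cases j))
  obtain ⟨S', hSS, hcard', hroot⟩ := hv.refine (8 * m + 1)
  have key : ∀ x y x' y' : ℝ,
      (∀ j : Fin (2 * m), (x, sg j * y) ∈ E' j ↔ (x', sg j * y') ∈ dn (sg j) (X (j / 2))) →
      ∀ i < m, ((x, y) ∈ Y (2 * i) ∩ Y (2 * i + 1) ↔ (x', y') ∈ X i) := by
    intro x y x' y' hj i hi
    have h0 : 2 * i < 2 * m := by omega
    have h1 : 2 * i + 1 < 2 * m := by omega
    have a0 := hj ⟨2 * i, h0⟩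
    have a1 := hj ⟨2 * i + 1, h1⟩
    have d0 : 2 * i / 2 = i := by omega
    have d1 : (2 * i + 1) / 2 = i := by omega
    simp only [d0, d1] at a0 a1
    rw [mem_inter_iff, hYe _ h0, hYe _ h1, mem_ofPred_eq, mem_ofPred_eq, a0, a1, sg_even, sg_odd]
    exact (mem_iff (hX i) x' y').symm
  have hpos : 0 < C.length := by
    obtain ⟨c, hc', -⟩ := hz 0
    exact List.length_pos_of_mem hc'
  refine run_of_reg (hv.mono hSS) hroot (fun z => ?_) wt (fun k hk => ?_)
    (fun k hk => hSS (hWS (hWm k hk))) ⟨_, hSS (hWS (hWm 0 hpos))⟩ ?_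
  · obtain ⟨x', hx'⟩ := hsub z.1
    obtain ⟨y', hy'⟩ := hx' z.2
    obtain ⟨c, hc', hm'⟩ := hz (x', y')
    exact ⟨c, hc', Mt.congr hm' (key _ _ _ _ hy')⟩
  · exact Mt.congr (hwt k hk) (key _ _ _ _ fun j => hagr _ (hWm k hk) j _)
  · have hB : S.card ≤ NB m C.length := by
      refine hcard.trans ?_
      unfold NB
      rw [Fintype.card_fin]
      exact add_le_add (Nat.mul_le_mul_left _ (Nat.pow_le_pow_right (by norm_num) (by omega))) hWc
    unfold NN
    have := Nat.mul_le_mul_right ((8 * m + 1) * (8 * m + 1)) (Nat.add_le_add_right hB 1)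
    rw [mul_add, mul_one]
    omega

/-- Left to right take `X (L.getD i 0)`; right to left take `X' (L.idxOf a)` for `a ∈ L` and the
empty set otherwise. -/
theorem realizable_iff (n : ℕ) (C : List (List ℕ)) :
    ConvexRealizable n C ↔ (∀ a ∈ C.flatten, a < n) ∧ Rz C.flatten C := by
  classical
  set L := C.flatten with hL
  have hmem : ∀ i < L.length, L.getD i 0 ∈ L := fun i hi => by
    rw [List.getD_eq_getElem _ _ hi]
    exact List.getElem_mem hi
  constructor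
  · rintro ⟨X, hX, hS⟩
    have h1 : ∀ c ∈ C, ∃ z : ℝ × ℝ, ∀ a, a ∈ c ↔ a < n ∧ z ∈ X a := by
      intro c hc
      have : {i | i ∈ c} ∈ {σ : Set ℕ | ∃ z : ℝ × ℝ, σ = {i | i < n ∧ z ∈ X i}} := by
        rw [← hS]
        exact ⟨c, hc, rfl⟩
      obtain ⟨z, hz⟩ := this
      exact ⟨z, fun a => Set.ext_iff.1 hz a⟩
    have h2 : ∀ z : ℝ × ℝ, ∃ c ∈ C, ∀ a, a ∈ c ↔ a < n ∧ z ∈ X a := by
      intro z
      have : {i | i < n ∧ z ∈ X i} ∈ {σ : Set ℕ | ∃ c ∈ C, σ = {i | i ∈ c}} := by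
        rw [hS]
        exact ⟨z, rfl⟩
      obtain ⟨c, hc, hz⟩ := this
      exact ⟨c, hc, fun a => (Set.ext_iff.1 hz a).symm⟩
    have hlt : ∀ a ∈ L, a < n := by
      intro a ha
      obtain ⟨c, hc, ha'⟩ := List.mem_flatten.1 ha
      obtain ⟨z, hz⟩ := h1 c hc
      exact ((hz a).1 ha').1
    have h3 : ∀ (c : List ℕ) (z : ℝ × ℝ), (∀ a, a ∈ c ↔ a < n ∧ z ∈ X a) →
        Mt L c fun i => z ∈ X (L.getD i 0) := fun c z h i hi =>
      ⟨fun h' => (h _).2 ⟨hlt _ (hmem i hi), h'⟩, fun h' => ((h _).1 h').2⟩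
    refine ⟨hlt, fun i => X (L.getD i 0), fun i => hX _, fun z => ?_, fun c hc => ?_⟩
    · obtain ⟨c, hc, h⟩ := h2 z
      exact ⟨c, hc, h3 c z h⟩
    · obtain ⟨z, h⟩ := h1 c hc
      exact ⟨z, h3 c z h⟩
  · rintro ⟨hlt, X, hX, hz, hc⟩
    have key : ∀ c ∈ C, ∀ z : ℝ × ℝ, (Mt L c fun i => z ∈ X i) →
        {i | i ∈ c} = {i | i < n ∧ z ∈ (if i ∈ L then X (L.idxOf i) else ∅)} := by
      intro c hc' z h
      have hi : ∀ a ∈ L, (z ∈ X (L.idxOf a) ↔ a ∈ c) := by
        intro a ha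
        have h0 : L.idxOf a < L.length := List.idxOf_lt_length_iff.2 ha
        have := h _ h0
        rwa [List.getD_eq_getElem _ _ h0, List.getElem_idxOf] at this
      ext a
      simp only [mem_ofPred_eq]
      constructor
      · intro ha
        have haL : a ∈ L := List.mem_flatten.2 ⟨c, hc', ha⟩
        rw [if_pos haL]
        exact ⟨hlt a haL, (hi a haL).2 ha⟩
      · rintro ⟨-, ha⟩
        split_ifs at ha with haL
        · exact (hi a haL).1 ha
        · exact absurd ha (notMem_empty _)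
    refine ⟨fun a => if a ∈ L then X (L.idxOf a) else ∅, fun a => ?_, ?_⟩
    · show Convex ℝ (if a ∈ L then X (L.idxOf a) else ∅)
      split_ifs
      · exact hX _
      · exact convex_empty
    · ext σ
      constructor
      · rintro ⟨c, hc', rfl⟩
        obtain ⟨z, h⟩ := hc c hc'
        exact ⟨z, key c hc' z h⟩
      · rintro ⟨z, rfl⟩
        obtain ⟨c, hc', h⟩ := hz z
        exact ⟨c, hc', (key c hc' z h).symm⟩

end Pool.Agent.Lib.MP_79902f_lc.Up
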