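import Pool.Agent.Lib.MP_79902f_lc.UDefs

open Set

noncomputable section

namespace Pool.Agent.Lib.MP_79902f_lc.Up

variable {E : Set (ℝ × ℝ)} {m κ : ℝ} {A : Set ℝ}

/-- The slice is a non-empty lower set that is bounded above. -/
theorem DC.mem_iff (hE : DC E) {x : ℝ} (hn : Ne E x) (hb : Bd E x) (y : ℝ) :
    (x, y) ∈ E ↔ y < top E x ∨ (Cl E x ∧ y = top E x) := by
  obtain ⟨y₀, h₀⟩ := hn
  obtain ⟨y₁, h₁⟩ := hb
  have hbd : BddAbove {y | (x, y) ∈ E} :=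
    ⟨y₁, fun y hy => le_of_not_gt fun h => h₁ (hE.2 x y y₁ hy h.le)⟩
  constructor
  · intro h
    rcases (le_csSup hbd h : y ≤ top E x).lt_or_eq with k | k
    · exact Or.inl k
    · have k : y = top E x := k
      exact Or.inr ⟨show (x, top E x) ∈ E from k ▸ h, k⟩
  · rintro (h | ⟨h, rfl⟩)
    · obtain ⟨y', hy', k⟩ := exists_lt_of_lt_csSup (s := {y | (x, y) ∈ E}) ⟨y₀, h₀⟩ h
      exact hE.2 x y' y hy' k.le
    · exact h

/-- Three point form of convexity. -/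
theorem DC.chord (hE : DC E) {x₁ x₂ x₃ y₁ y₂ y₃ : ℝ} (h₁ : (x₁, y₁) ∈ E) (h₃ : (x₃, y₃) ∈ E)
    (k₁ : x₁ ≤ x₂) (k₃ : x₂ ≤ x₃) (k : x₁ < x₃)
    (h : (x₃ - x₁) * y₂ ≤ (x₃ - x₂) * y₁ + (x₂ - x₁) * y₃) : (x₂, y₂) ∈ E := by
  have hd : 0 < x₃ - x₁ := sub_pos.2 k
  have hc := hE.1 h₁ h₃ (div_nonneg (sub_nonneg.2 k₃) hd.le) (div_nonneg (sub_nonneg.2 k₁) hd.le)
    (by field_simp; ring)
  have e : ((x₃ - x₂) / (x₃ - x₁)) • (x₁, y₁) + ((x₂ - x₁) / (x₃ - x₁)) • (x₃, y₃) =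
      (x₂, ((x₃ - x₂) * y₁ + (x₂ - x₁) * y₃) / (x₃ - x₁)) := by
    ext
    · simp only [Prod.fst_add, Prod.smul_fst, smul_eq_mul]; field_simp; ring
    · simp only [Prod.snd_add, Prod.smul_snd, smul_eq_mul]; field_simp
  rw [e] at hc
  exact hE.2 _ _ _ hc ((le_div_iff₀ hd).2 (by linarith))

/-- Converse: a set closed under moving down with the three point property is convex. -/
theorem DC.of_chord (hd : ∀ x y y', (x, y) ∈ E → y' ≤ y → (x, y') ∈ E)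
    (h : ∀ x₁ x₂ x₃ y₁ y₂ y₃ : ℝ, (x₁, y₁) ∈ E → (x₃, y₃) ∈ E → x₁ < x₂ → x₂ < x₃ →
      (x₃ - x₁) * y₂ = (x₃ - x₂) * y₁ + (x₂ - x₁) * y₃ → (x₂, y₂) ∈ E) : DC E := by
  refine ⟨?_, hd⟩
  have key : ∀ (p q : ℝ × ℝ) (a b : ℝ), p ∈ E → q ∈ E → 0 < a → 0 < b → a + b = 1 → p.1 < q.1 →
      a • p + b • q ∈ E := by
    rintro ⟨x₁, y₁⟩ ⟨x₃, y₃⟩ a b hp hq ha hb hab (hlt : x₁ < x₃)
    obtain rfl : b = 1 - a := by linarith
    refine h x₁ (a * x₁ + (1 - a) * x₃) x₃ y₁ (a * y₁ + (1 - a) * y₃) y₃ hp hq ?_ ?_ (by ring)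
    · nlinarith
    · nlinarith
  refine convex_iff_forall_pos.2 ?_
  intro p hp q hq a b ha hb hab
  rcases lt_trichotomy p.1 q.1 with k | k | k
  · exact key p q a b hp hq ha hb hab k
  · obtain ⟨x₁, y₁⟩ := p
    obtain ⟨x₃, y₃⟩ := q
    obtain rfl : x₁ = x₃ := k
    obtain rfl : b = 1 - a := by linarith
    have e : a • (x₁, y₁) + (1 - a) • (x₁, y₃) = (x₁, a * y₁ + (1 - a) * y₃) := by
      ext
      · simp only [Prod.fst_add, Prod.smul_fst, smul_eq_mul]; ring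
      · simp only [Prod.snd_add, Prod.smul_snd, smul_eq_mul]
    rw [e]
    rcases le_total y₁ y₃ with j | j
    · exact hd _ _ _ hq (by nlinarith)
    · exact hd _ _ _ hp (by nlinarith)
  · rw [add_comm]
    exact key q p b a hq hp hb ha (by linarith) k

/-- Use DC.of_chord; note that m < x' ≤ x ∈ St m A gives x' ∈ St m A. Empty slice at m:
if x₂ ∈ St then x₁ ≤ m < x₃ and the slice at m is not empty. Full slice at m: the slices
over St are full already, cut = E. Otherwise let ℓ be the line; all points of cut are on or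
under ℓ. If x₂ ∈ St: y₂ ≤ ℓ x₂, and equality puts both end points on ℓ; without Cl they
are outside St, so x₁ ≤ m < x₃ and (m, top E m) ∈ E. If x₂ > m is outside St: so is x₃,
the second part of Good gives cut ⊆ E (chord from m to a). If x₂ ≤ m and x₃ ∈ St: the
point of the segment over m is in E by mem_iff, then chord. -/
theorem DC.cut (hE : DC E) (hA : ∀ a ∈ A, m < a ∧ Kind E m a)
    (hκ : Ne E m → Bd E m → Good E m A κ) : DC (cut E m A κ) := by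
  have hst : ∀ {x x' : ℝ}, x ∈ St m A → m < x' → x' ≤ x → x' ∈ St m A :=
    fun ⟨_, a, ha, h⟩ h₁ h₂ => ⟨h₁, a, ha, h₂.trans_lt h⟩
  refine DC.of_chord ?_ ?_
  · rintro x y y' (⟨h, k⟩ | ⟨h, hn, k⟩) hy
    · exact Or.inl ⟨h, hE.2 x y y' k hy⟩
    · refine Or.inr ⟨h, hn, ?_⟩
      rcases k with k | k | ⟨k, e⟩
      · exact Or.inl k
      · exact Or.inr (Or.inl (hy.trans_lt k))
      · rcases hy.lt_or_eq with j | j
        · exact Or.inr (Or.inl (j.trans_eq e))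
        · exact Or.inr (Or.inr ⟨k, j.trans e⟩)
  intro x₁ x₂ x₃ y₁ y₂ y₃ h₁ h₃ k₁ k₃ h
  have k := k₁.trans k₃
  by_cases hn : Ne E m
  swap
  · have g₁ : x₁ ∉ St m A ∧ (x₁, y₁) ∈ E := h₁.resolve_right fun j => hn j.2.1
    have g₃ : x₃ ∉ St m A ∧ (x₃, y₃) ∈ E := h₃.resolve_right fun j => hn j.2.1
    refine Or.inl ⟨fun h₂ => hn ?_, hE.chord g₁.2 g₃.2 k₁.le k₃.le k h.le⟩
    have j₁ : x₁ ≤ m := le_of_not_gt fun j => g₁.1 (hst h₂ j k₁.le)
    have j₃ : m ≤ x₃ := (h₂.1.trans k₃).le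
    refine ⟨min y₁ y₃, hE.chord g₁.2 g₃.2 j₁ j₃ k ?_⟩
    nlinarith [min_le_left y₁ y₃, min_le_right y₁ y₃]
  by_cases hb : Bd E m
  swap
  · have full : ∀ x ∈ St m A, ∀ y, (x, y) ∈ E := by
      rintro x ⟨j, a, ha, j'⟩ y
      have f₁ : (m, y) ∈ E := by_contra fun c => hb ⟨y, c⟩
      have f₂ : (a, y) ∈ E := by_contra fun c => hb ((hA a ha).2.2.1.1 ⟨y, c⟩)
      exact hE.chord f₁ f₂ j.le j'.le (hA a ha).1 (by linarith)
    have sub : ∀ x y, (x, y) ∈ Up.cut E m A κ → (x, y) ∈ E :=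
      fun x y j => j.elim (fun j => j.2) fun j => full x j.1 y
    by_cases h₂ : x₂ ∈ St m A
    · exact Or.inr ⟨h₂, hn, Or.inl hb⟩
    · exact Or.inl ⟨h₂, hE.chord (sub _ _ h₁) (sub _ _ h₃) k₁.le k₃.le k h.le⟩
  obtain ⟨G₁, G₂⟩ := hκ hn hb
  have under : ∀ x y, (x, y) ∈ Up.cut E m A κ → y ≤ top E m + κ * (x - m) := by
    rintro x y (⟨j, j'⟩ | ⟨-, -, j | j | ⟨-, j⟩⟩)
    · exact G₁ x y j' j
    · exact absurd hb j
    · exact j.le
    · exact j.le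
  have u₁ := under _ _ h₁
  have u₃ := under _ _ h₃
  have d₁ : 0 < x₂ - x₁ := sub_pos.2 k₁
  have d₃ : 0 < x₃ - x₂ := sub_pos.2 k₃
  have d : 0 < x₃ - x₁ := sub_pos.2 k
  by_cases h₂ : x₂ ∈ St m A
  · refine Or.inr ⟨h₂, hn, Or.inr ?_⟩
    have p₁ := mul_le_mul_of_nonneg_left u₁ d₃.le
    have p₃ := mul_le_mul_of_nonneg_left u₃ d₁.le
    have u₂ : y₂ ≤ top E m + κ * (x₂ - m) := le_of_mul_le_mul_left (by linarith) d
    rcases u₂.lt_or_eq with j | j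
    · exact Or.inl j
    refine Or.inr ⟨by_contra fun hc => ?_, j⟩
    have e₁ : y₁ = top E m + κ * (x₁ - m) :=
      u₁.antisymm (le_of_mul_le_mul_left (by rw [j] at h; linarith) d₃)
    have e₃ : y₃ = top E m + κ * (x₃ - m) :=
      u₃.antisymm (le_of_mul_le_mul_left (by rw [j] at h; linarith) d₁)
    have out : ∀ x y, (x, y) ∈ Up.cut E m A κ → y = top E m + κ * (x - m) →
        x ∉ St m A ∧ (x, y) ∈ E := by
      rintro x y (j | ⟨-, -, j | j | ⟨j, -⟩⟩) e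
      · exact j
      · exact absurd hb j
      · exact absurd e j.ne
      · exact absurd j hc
    have g₁ := out _ _ h₁ e₁
    have g₃ := out _ _ h₃ e₃
    have j₁ : x₁ ≤ m := le_of_not_gt fun j => g₁.1 (hst h₂ j k₁.le)
    exact hc (hE.chord g₁.2 g₃.2 j₁ (h₂.1.trans k₃).le k (by rw [e₁, e₃]; linarith))
  refine Or.inl ⟨h₂, ?_⟩
  rcases lt_or_ge m x₂ with j₂ | j₂
  · have n₃ : x₃ ∉ St m A := fun j => h₂ (hst j j₂ k₃.le)
    have g₃ : (x₃, y₃) ∈ E := (h₃.resolve_right fun j => n₃ j.1).2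
    have G := G₂ ⟨x₃, y₃, g₃, j₂.trans k₃, n₃⟩
    refine hE.chord ?_ g₃ k₁.le k₃.le k h.le
    rcases h₁ with j | ⟨⟨j, a, ha, j'⟩, -, c⟩
    · exact j.2
    have j : m < x₁ := j
    have j' : x₁ < a := j'
    obtain ⟨ma, ka, kb, kc⟩ := hA a ha
    have q := mul_le_mul_of_nonneg_left (G a ha) (sub_pos.2 j).le
    rcases c with c | c | ⟨c, e⟩
    · exact absurd hb c
    · have c : y₁ < top E m + κ * (x₁ - m) := c
      have f₁ : (m, y₁ - κ * (x₁ - m)) ∈ E := (hE.mem_iff hn hb _).2 (Or.inl (by linarith))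
      have f₂ : (a, y₁ + κ * (a - x₁)) ∈ E :=
        (hE.mem_iff (ka.2 hn) (kb.2 hb) _).2 (Or.inl (by linarith [G a ha]))
      exact hE.chord f₁ f₂ j.le j'.le ma (by linarith)
    · have e : y₁ = top E m + κ * (x₁ - m) := e
      exact hE.chord c (kc.2 c) j.le j'.le ma (by rw [e]; linarith)
  · have j₁ : x₁ < m := k₁.trans_le j₂
    have g₁ : (x₁, y₁) ∈ E := (h₁.resolve_right fun j => j₁.not_gt j.1.1).2
    rcases h₃ with j | ⟨⟨j, -⟩, -, c⟩
    · exact hE.chord g₁ j.2 k₁.le k₃.le k h.le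
    have j : m < x₃ := j
    obtain ⟨y, hy⟩ : ∃ y, (x₃ - x₁) * y = (x₃ - m) * y₁ + (m - x₁) * y₃ :=
      ⟨_, mul_div_cancel₀ _ d.ne'⟩
    have p₁ := mul_le_mul_of_nonneg_left u₁ (sub_pos.2 j).le
    have f : (m, y) ∈ E := by
      rcases c with c | c | ⟨c, -⟩
      · exact absurd hb c
      · have c : y₃ < top E m + κ * (x₃ - m) := c
        have p₃ := mul_lt_mul_of_pos_left c (sub_pos.2 j₁)
        exact (hE.mem_iff hn hb _).2 (Or.inl (lt_of_mul_lt_mul_left (by linarith) d.le))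
      · have p₃ := mul_le_mul_of_nonneg_left u₃ (sub_pos.2 j₁).le
        exact hE.2 _ _ _ c (le_of_mul_le_mul_left (by linarith) d)
    refine hE.chord g₁ f k₁.le j₂ j₁ (le_of_mul_le_mul_left (le_of_eq ?_) d)
    linear_combination (m - x₁) * h - (x₂ - x₁) * hy

theorem lin_cut (E : Set (ℝ × ℝ)) (m : ℝ) (A : Set ℝ) (κ : ℝ) : Lin (cut E m A κ) (St m A) := by
  by_cases hn : Ne E m
  · by_cases hb : Bd E m
    · refine Or.inr (Or.inr ⟨κ, top E m - κ * m, fun x hx y => ⟨fun h => ?_, ?_⟩⟩)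
      · exact Or.inr ⟨hx, hn, Or.inr (Or.inl (show y < top E m + κ * (x - m) by linarith))⟩
      · rintro (⟨j, -⟩ | ⟨-, -, j | j | ⟨-, j⟩⟩)
        · exact absurd hx j
        · exact absurd hb j
        · have j : y < top E m + κ * (x - m) := j
          linarith
        · have j : y = top E m + κ * (x - m) := j
          linarith
    · exact Or.inr (Or.inl fun x hx y => Or.inr ⟨hx, hn, Or.inl hb⟩)
  · exact Or.inl fun x hx y h => h.elim (fun j => j.1 hx) fun j => hn j.2.1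

end Pool.Agent.Lib.MP_79902f_lc.Up
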