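import Pool.Agent.Lib.MP_79902f_lc.WDefs

/-!
Working definitions for the upper bound: a vertical sweep of the plane with real registers.
The address `16 * i + t` holds item number `i` of kind `t`: kind `0` the accepting flag (address
`0`) and the right end of the current strip (`16` and `32`), kinds `1, 2, 3` coefficients of forms,
`4` the last entry of a track, `5, 6` multipliers, `7` to `10` heights, `11` seen bits, `12` heights
of witnesses.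
-/

open Set

noncomputable section

namespace Pool.Agent.Lib.MP_79902f_lc.Up

section Registers

/-- `a` if it is not zero, otherwise `b` -/
def lx (a b : ℝ) : ℝ := if a = 0 then b else a

/-- `a` and `b` have the same sign -/
def SS (a b : ℝ) : Prop := (a < 0 ↔ b < 0) ∧ (a = 0 ↔ b = 0)

/-- the form number `f` at the point with homogeneous coordinates `X, Y, W` -/
def fm (v : ℕ → ℝ) (f : ℕ) (X Y W : ℝ) : ℝ :=
  v (16 * f + 1) * X + v (16 * f + 2) * Y + v (16 * f + 3) * W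

/-- the form after an infinitesimal vertical move in direction `d` -/
def fd (v : ℕ → ℝ) (f : ℕ) (X Y W d : ℝ) : ℝ := lx (fm v f X Y W) (d * v (16 * f + 2))

/-- the track number `r`; it contains the points where this number is negative -/
def tr (v : ℕ → ℝ) (r : ℕ) (X Y W d : ℝ) : ℝ :=
  lx (fd v (2 * r) X Y W d) (lx (fd v (2 * r + 1) X Y W d) (v (16 * r + 4)))

/-- the four tracks of neuron `i` contain the point -/
def inN (v : ℕ → ℝ) (i : ℕ) (X Y W d : ℝ) : Prop := ∀ k < 4, tr v (4 * i + k) X Y W d < 0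

/-- the pattern `P` on the positions of `L` is the codeword `c` -/
def Mt (L c : List ℕ) (P : ℕ → Prop) : Prop := ∀ i < L.length, (P i ↔ L.getD i 0 ∈ c)

/-- the pattern of the point for the tracks of `u` and `v` together is a codeword -/
def Ok (L : List ℕ) (C : List (List ℕ)) (u v : ℕ → ℝ) (X Y W d : ℝ) : Prop :=
  ∃ c ∈ C, Mt L c fun i => inN u i X Y W d ∧ inN v i X Y W d

/-- the check along the zero line of form j of s, from (ξ, η, w) to (ξ', η', w') -/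
def Cel (L : List ℕ) (C : List (List ℕ)) (u v s : ℕ → ℝ) (j : ℕ) (ξ η w ξ' η' w' : ℝ) : Prop :=
  (s (16 * j + 2) = 0 ∨ (fm s j ξ η w = 0 ∧ fm s j ξ' η' w' = 0)) ∧
    (∀ i < 8 * L.length + 1,
      0 ≤ fm u i ξ η w * fm u i ξ' η' w' ∧ 0 ≤ fm v i ξ η w * fm v i ξ' η' w') ∧
    Ok L C u v (ξ + ξ') (η + η') (w + w') 0 ∧ Ok L C u v (ξ + ξ') (η + η') (w + w') 1 ∧
    Ok L C u v (ξ + ξ') (η + η') (w + w') (-1)

/-- the check of the column between the ends (ξ, w) and (ξ', w') -/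
def Col (L : List ℕ) (C : List (List ℕ)) (u v : ℕ → ℝ) (ξ w ξ' w' : ℝ) (p p' q q' : ℕ → ℝ) :
    Prop :=
  ∀ j < 8 * L.length + 1,
    Cel L C u v u j ξ (p j) w ξ' (p' j) w' ∧ Cel L C u v v j ξ (q j) w ξ' (q' j) w'

/-- the form number `f` is the same in `u` and `v` -/
def Eq3 (u v : ℕ → ℝ) (f : ℕ) : Prop :=
  u (16 * f + 1) = v (16 * f + 1) ∧ u (16 * f + 2) = v (16 * f + 2) ∧
    u (16 * f + 3) = v (16 * f + 3)

/-- the change of track `r` on the vertical line `s` -/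
def Tn (u v : ℕ → ℝ) (s : ℝ) (r : ℕ) (l l' : ℝ) : Prop :=
  (Eq3 u v (2 * r) ∧ Eq3 u v (2 * r + 1) ∧ u (16 * r + 4) = v (16 * r + 4)) ∨
    (0 ≤ l ∧ 0 ≤ l' ∧ l' * v (16 * (2 * r) + 1) - l * u (16 * (2 * r) + 1) = 1 ∧
      l' * v (16 * (2 * r) + 2) - l * u (16 * (2 * r) + 2) = 0 ∧
      l' * v (16 * (2 * r) + 3) - l * u (16 * (2 * r) + 3) + s = 0)

/-- one step of the sweep -/
def Nrm (L : List ℕ) (C : List (List ℕ)) (x y : ℕ → ℝ) : Prop :=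
  (y 32 = 1 ∨ (y 32 = 0 ∧ y 16 - 1 = 1)) ∧ (x 16 - 1) * y 32 < (y 16 - 1) * x 32 ∧
    Col L C y y (x 16 - 1) (x 32) (y 16 - 1) (y 32) (fun j => y (16 * j + 7))
      (fun j => y (16 * j + 8)) (fun j => y (16 * j + 7)) (fun j => y (16 * j + 8)) ∧
    (x 32 = 1 → (∀ r < 4 * L.length, Tn x y (x 16 - 1) r (y (16 * r + 5)) (y (16 * r + 6))) ∧
      Col L C x y (x 16 - 1) 1 (x 16 - 1) 1 (fun j => y (16 * j + 9)) (fun j => y (16 * j + 9))
        (fun j => y (16 * j + 10)) (fun j => y (16 * j + 10))) ∧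
    ∀ k < C.length, y (16 * k + 11) = 1 → x (16 * k + 11) = 1 ∨ (x 32 = 1 ∧
      Mt L (C.getD k []) fun i => inN x i (x 16 - 1) (y (16 * k + 12)) 1 0 ∧
        inN y i (x 16 - 1) (y (16 * k + 12)) 1 0)

/-- the transition relation -/
def Step (L : List ℕ) (C : List (List ℕ)) (x y : ℕ → ℝ) : Prop :=
  (x 0 = 1 ∧ y 0 = 1) ∨
    (Nrm L C x y ∧ (y 0 = 1 → y 32 = 0 ∧ ∀ k < C.length, y (16 * k + 11) = 1))

/-- an accepting run of `N` steps -/
def Run (L : List ℕ) (C : List (List ℕ)) (N : ℕ) : Prop :=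
  ∃ x : ℕ → ℕ → ℝ, x 0 = 0 ∧ (∀ s < N, Step L C (x s) (x (s + 1))) ∧ x N 0 = 1

/-- realizability with one convex set for each position of `L` -/
def Rz (L : List ℕ) (C : List (List ℕ)) : Prop :=
  ∃ X : ℕ → Set (ℝ × ℝ), (∀ i, Convex ℝ (X i)) ∧ (∀ z, ∃ c ∈ C, Mt L c fun i => z ∈ X i) ∧
    ∀ c ∈ C, ∃ z, Mt L c fun i => z ∈ X i

/-- bound for the number of break points -/
def NB (m k : ℕ) : ℕ := 3 * 2 ^ (3 * (2 * m) + (2 * m) * (2 * m) + 2 * k) + k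

/-- the number of steps -/
def NN (m k : ℕ) : ℕ := (NB m k + 1) * ((8 * m + 1) * (8 * m + 1) + 1) + 1

/-- height of the zero line of form `j` -/
def eta (s : ℕ → ℝ) (j : ℕ) (ξ w : ℝ) : ℝ :=
  -(s (16 * j + 1) * ξ + s (16 * j + 3) * w) / s (16 * j + 2)

/-- abscissa where form `i` vanishes on the zero line of form `j` -/
def root (s : ℕ → ℝ) (i j : ℕ) : ℝ := -fm s i 0 (eta s j 0 1) 1 / fm s i 1 (eta s j 1 0) 0

/-- the tracks are the same -/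
def Agree (u v : ℕ → ℝ) : Prop := ∀ a, 1 ≤ a % 16 → a % 16 ≤ 4 → u a = v a

end Registers

section Geometry

/-- convex and closed under moving down -/
def DC (E : Set (ℝ × ℝ)) : Prop := Convex ℝ E ∧ ∀ x y y', (x, y) ∈ E → y' ≤ y → (x, y') ∈ E

/-- upper end of the slice -/
def top (E : Set (ℝ × ℝ)) (x : ℝ) : ℝ := sSup {y | (x, y) ∈ E}

/-- the slice is not empty -/
def Ne (E : Set (ℝ × ℝ)) (x : ℝ) : Prop := ∃ y, (x, y) ∈ E

/-- the slice is not the whole line -/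
def Bd (E : Set (ℝ × ℝ)) (x : ℝ) : Prop := ∃ y, (x, y) ∉ E

/-- the slice contains its upper end -/
def Cl (E : Set (ℝ × ℝ)) (x : ℝ) : Prop := (x, top E x) ∈ E

/-- the slices at `a` and `m` are of the same kind -/
def Kind (E : Set (ℝ × ℝ)) (m a : ℝ) : Prop :=
  (Ne E a ↔ Ne E m) ∧ (Bd E a ↔ Bd E m) ∧ (Cl E a ↔ Cl E m)

/-- the slices of the family at `a` and `m` have the same type -/
def Same {J : Type} (ε : J → ℝ) (E : J → Set (ℝ × ℝ)) (m a : ℝ) : Prop :=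
  (∀ j, Kind (E j) m a) ∧
    ∀ i j, (ε i * top (E i) a ≤ ε j * top (E j) a ↔ ε i * top (E i) m ≤ ε j * top (E j) m)

/-- the half strip to the right of `m` spanned by `A` -/
def St (m : ℝ) (A : Set ℝ) : Set ℝ := {x | m < x ∧ ∃ a ∈ A, x < a}

/-- the boundary over the half strip is replaced by the line of slope `κ` -/
def cut (E : Set (ℝ × ℝ)) (m : ℝ) (A : Set ℝ) (κ : ℝ) : Set (ℝ × ℝ) :=
  {z | (z.1 ∉ St m A ∧ z ∈ E) ∨ (z.1 ∈ St m A ∧ Ne E m ∧ (¬ Bd E m ∨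
    z.2 < top E m + κ * (z.1 - m) ∨ (Cl E m ∧ z.2 = top E m + κ * (z.1 - m))))}

/-- the slope `κ` is admissible -/
def Good (E : Set (ℝ × ℝ)) (m : ℝ) (A : Set ℝ) (κ : ℝ) : Prop :=
  (∀ x y, (x, y) ∈ E → x ∉ St m A → y ≤ top E m + κ * (x - m)) ∧
    ((∃ x y, (x, y) ∈ E ∧ m < x ∧ x ∉ St m A) → ∀ a ∈ A, top E m + κ * (a - m) ≤ top E a)

/-- over `G` the set is empty, everything, or bounded by a line -/
def Lin (E : Set (ℝ × ℝ)) (G : Set ℝ) : Prop :=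
  (∀ x ∈ G, ∀ y, (x, y) ∉ E) ∨ (∀ x ∈ G, ∀ y, (x, y) ∈ E) ∨
    ∃ κ β : ℝ, ∀ x ∈ G, ∀ y, (y < κ * x + β → (x, y) ∈ E) ∧ ((x, y) ∈ E → y ≤ κ * x + β)

/-- the slices at `x` agree -/
def Agr {J : Type} (E' E : J → Set (ℝ × ℝ)) (x : ℝ) : Prop := ∀ j y, (x, y) ∈ E' j ↔ (x, y) ∈ E j

/-- every pattern of `E'` on the line `x` is a pattern of `E` on the line `x'` -/
def Sub {J : Type} (ε : J → ℝ) (E' : J → Set (ℝ × ℝ)) (x : ℝ) (E : J → Set (ℝ × ℝ)) (x' : ℝ) :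
    Prop :=
  ∀ y, ∃ y', ∀ j, (x, ε j * y) ∈ E' j ↔ (x', ε j * y') ∈ E j

/-- the component of `x` in the complement of `S` -/
def gap (S : Finset ℝ) (x : ℝ) : Set ℝ := {x' | x' ∉ S ∧ ∀ s ∈ S, (s < x ↔ s < x')}

/-- `x < s < x'` with no point of `S` other than `s` in the closed interval -/
def Adj (S : Finset ℝ) (x s x' : ℝ) : Prop :=
  x ∉ S ∧ x' ∉ S ∧ x < s ∧ s < x' ∧ ∀ t ∈ S, x < t → t < x' → t = s

/-- value of an affine form -/
def ev (F : ℝ × ℝ × ℝ) (z : ℝ × ℝ) : ℝ := F.1 * z.1 + F.2.1 * z.2 + F.2.2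

/-- a supporting form for each gap -/
structure Trk (Y : Set (ℝ × ℝ)) (S : Finset ℝ) (φ : ℝ → ℝ × ℝ × ℝ) : Prop where
  const : ∀ x ∉ S, ∀ x' ∈ gap S x, φ x' = φ x
  ne : ∀ x ∉ S, φ x ≠ 0
  sub : ∀ x ∉ S, ∀ z ∈ Y, ev (φ x) z ≤ 0
  strip : ∀ x ∉ S, ∀ y, ev (φ x) (x, y) < 0 → (x, y) ∈ Y
  line : ∀ x s x', Adj S x s x' →
    (φ x = φ x' ∨ ∃ l l' : ℝ, 0 ≤ l ∧ 0 ≤ l' ∧ l' • φ x' - l • φ x = (1, 0, -s)) ∧
      ∀ y, ev (φ x) (s, y) < 0 → ev (φ x') (s, y) < 0 → (s, y) ∈ Y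

/-- registers for each gap -/
structure Reg (m : ℕ) (X : ℕ → Set (ℝ × ℝ)) (S : Finset ℝ) (v : ℝ → ℕ → ℝ) : Prop where
  const : ∀ x ∉ S, ∀ x' ∈ gap S x, v x' = v x
  strip : ∀ x ∉ S, ∀ i < m, ∀ y, (inN (v x) i x y 1 0 ↔ (x, y) ∈ X i)
  line : ∀ x s x', Adj S x s x' → (∀ r < 4 * m, ∃ l l', Tn (v x) (v x') s r l l') ∧
    ∀ i < m, ∀ y, (inN (v x) i s y 1 0 ∧ inN (v x') i s y 1 0 ↔ (s, y) ∈ X i)

end Geometry

end Pool.Agent.Lib.MP_79902f_lc.Up
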