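import Pool.Agent.Lib.MP_79902f_lc.UDefs

/-!
The formula of the sweep. The numbers `s`, `t`, `o` name a state: `1` the old one, `2` the new one.
-/

namespace Pool.Agent.Lib.MP_79902f_lc.Up

/-- formulas -/
abbrev Fl : Type := List (ℕ × ℕ)

def oneF : Fl := [(0, 0)]

def varF (s a : ℕ) : Fl := [(s, a)]

def addF (A B : Fl) : Fl := A ++ B ++ [(3, 0)]

def subF (A B : Fl) : Fl := A ++ B ++ [(4, 0)]

def mulF (A B : Fl) : Fl := A ++ B ++ [(5, 0)]

def posF (A : Fl) : Fl := A ++ [(6, 0)]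

def zeroF : Fl := subF oneF oneF

def notF (A : Fl) : Fl := subF oneF A

def eq0F (A : Fl) : Fl := notF (posF (mulF A A))

def eqF (A B : Fl) : Fl := eq0F (subF A B)

def ltF (A B : Fl) : Fl := posF (subF B A)

def leF (A B : Fl) : Fl := notF (ltF B A)

def orF (A B : Fl) : Fl := notF (mulF (notF A) (notF B))

def impF (A B : Fl) : Fl := notF (mulF A (notF B))

def allF {α : Type} (l : List α) (g : α → Fl) : Fl := oneF ++ l.flatMap fun a => g a ++ [(5, 0)]

def anyF {α : Type} (l : List α) (g : α → Fl) : Fl := notF (allF l fun a => notF (g a))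

def cstF (b : Bool) : Fl := bif b then oneF else zeroF

def lxF (A B : Fl) : Fl := addF A (mulF (eq0F A) B)

def fmF (s f : ℕ) (X Y W : Fl) : Fl :=
  addF (addF (mulF (varF s (16 * f + 1)) X) (mulF (varF s (16 * f + 2)) Y))
    (mulF (varF s (16 * f + 3)) W)

def fdF (s f : ℕ) (X Y W D : Fl) : Fl := lxF (fmF s f X Y W) (mulF D (varF s (16 * f + 2)))

def trF (s r : ℕ) (X Y W D : Fl) : Fl :=
  lxF (fdF s (2 * r) X Y W D) (lxF (fdF s (2 * r + 1) X Y W D) (varF s (16 * r + 4)))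

def inNF (s i : ℕ) (X Y W D : Fl) : Fl :=
  allF (List.range 4) fun k => ltF (trF s (4 * i + k) X Y W D) zeroF

def patF (L c : List ℕ) (s t : ℕ) (X Y W D : Fl) : Fl :=
  allF (List.range L.length) fun i =>
    eqF (mulF (inNF s i X Y W D) (inNF t i X Y W D)) (cstF (decide (L.getD i 0 ∈ c)))

def okF (L : List ℕ) (C : List (List ℕ)) (s t : ℕ) (X Y W D : Fl) : Fl :=
  anyF C fun c => patF L c s t X Y W D

def celF (L : List ℕ) (C : List (List ℕ)) (s t o j : ℕ) (ξ η w ξ' η' w' : Fl) : Fl :=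
  mulF (orF (eq0F (varF o (16 * j + 2)))
      (mulF (eq0F (fmF o j ξ η w)) (eq0F (fmF o j ξ' η' w'))))
    (mulF (allF (List.range (8 * L.length + 1)) fun i =>
        mulF (leF zeroF (mulF (fmF s i ξ η w) (fmF s i ξ' η' w')))
          (leF zeroF (mulF (fmF t i ξ η w) (fmF t i ξ' η' w'))))
      (mulF (okF L C s t (addF ξ ξ') (addF η η') (addF w w') zeroF)
        (mulF (okF L C s t (addF ξ ξ') (addF η η') (addF w w') oneF)
          (okF L C s t (addF ξ ξ') (addF η η') (addF w w') (subF zeroF oneF)))))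

def colF (L : List ℕ) (C : List (List ℕ)) (s t : ℕ) (ξ w ξ' w' : Fl) (p p' q q' : ℕ) : Fl :=
  allF (List.range (8 * L.length + 1)) fun j =>
    mulF (celF L C s t s j ξ (varF 2 (16 * j + p)) w ξ' (varF 2 (16 * j + p')) w')
      (celF L C s t t j ξ (varF 2 (16 * j + q)) w ξ' (varF 2 (16 * j + q')) w')

def eq3F (f : ℕ) : Fl :=
  mulF (eqF (varF 1 (16 * f + 1)) (varF 2 (16 * f + 1)))
    (mulF (eqF (varF 1 (16 * f + 2)) (varF 2 (16 * f + 2)))
      (eqF (varF 1 (16 * f + 3)) (varF 2 (16 * f + 3))))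

def combF (r t : ℕ) : Fl :=
  subF (mulF (varF 2 (16 * r + 6)) (varF 2 (16 * (2 * r) + t)))
    (mulF (varF 2 (16 * r + 5)) (varF 1 (16 * (2 * r) + t)))

def endF (s : ℕ) : Fl := subF (varF s 16) oneF

def tnF (r : ℕ) : Fl :=
  orF (mulF (eq3F (2 * r)) (mulF (eq3F (2 * r + 1))
      (eqF (varF 1 (16 * r + 4)) (varF 2 (16 * r + 4)))))
    (mulF (leF zeroF (varF 2 (16 * r + 5))) (mulF (leF zeroF (varF 2 (16 * r + 6)))
      (mulF (eqF (combF r 1) oneF) (mulF (eq0F (combF r 2)) (eq0F (addF (combF r 3) (endF 1)))))))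

def nrmF (L : List ℕ) (C : List (List ℕ)) : Fl :=
  mulF (orF (eqF (varF 2 32) oneF) (mulF (eq0F (varF 2 32)) (eqF (endF 2) oneF)))
    (mulF (ltF (mulF (endF 1) (varF 2 32)) (mulF (endF 2) (varF 1 32)))
      (mulF (colF L C 2 2 (endF 1) (varF 1 32) (endF 2) (varF 2 32) 7 8 7 8)
        (mulF (impF (eqF (varF 1 32) oneF) (mulF (allF (List.range (4 * L.length)) tnF)
            (colF L C 1 2 (endF 1) oneF (endF 1) oneF 9 9 10 10)))
          (allF (List.range C.length) fun k => impF (eqF (varF 2 (16 * k + 11)) oneF)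
            (orF (eqF (varF 1 (16 * k + 11)) oneF) (mulF (eqF (varF 1 32) oneF)
              (patF L (C.getD k []) 1 2 (endF 1) (varF 2 (16 * k + 12)) oneF zeroF)))))))

def stepF (L : List ℕ) (C : List (List ℕ)) : Fl :=
  orF (mulF (eqF (varF 1 0) oneF) (eqF (varF 2 0) oneF))
    (mulF (nrmF L C) (impF (eqF (varF 2 0) oneF) (mulF (eq0F (varF 2 32))
      (allF (List.range C.length) fun k => eqF (varF 2 (16 * k + 11)) oneF))))

/-- the reduction on decoded instances -/
def red (p : ℕ × List (List ℕ)) : ℕ × Fl :=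
  if ∀ a ∈ p.2.flatten, a < p.1 then
    (NN p.2.flatten.length p.2.length, stepF p.2.flatten p.2) else (0, [])

end Pool.Agent.Lib.MP_79902f_lc.Up
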