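import Pool.Agent.Lib.MP_79902f_lc.UFDefs

open Set

noncomputable section

namespace Pool.Agent.Lib.MP_79902f_lc.Up

/-- the formula pushes the value `a` -/
def Ev (x y : ℕ → ℝ) (A : Fl) (a : ℝ) : Prop := ∀ s, A.foldl (tok x y) s = a :: s

/-- the formula pushes the truth value of `p` -/
def Bv (x y : ℕ → ℝ) (A : Fl) (p : Prop) : Prop := (Ev x y A 1 ∧ p) ∨ (Ev x y A 0 ∧ ¬ p)

namespace UFmlAux

variable {x y u v o : ℕ → ℝ} {A B X Y W D : Fl} {a b X' Y' W' D' : ℝ} {p q : Prop} {s t r : ℕ}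
  {L : List ℕ} {C : List (List ℕ)}

/-- the number `s` names the state `u` -/
def Nm (x y : ℕ → ℝ) (s : ℕ) (u : ℕ → ℝ) : Prop := (s = 1 ∧ u = x) ∨ (s = 2 ∧ u = y)

theorem n1 : Nm x y 1 x := Or.inl ⟨rfl, rfl⟩

theorem n2 : Nm x y 2 y := Or.inr ⟨rfl, rfl⟩

theorem one : Ev x y oneF 1 := fun _ => by simp [oneF, tok]

theorem var (h : Nm x y s u) (n : ℕ) : Ev x y (varF s n) (u n) := fun _ => by
  rcases h with ⟨rfl, rfl⟩ | ⟨rfl, rfl⟩ <;> simp [varF, tok]

theorem add (h : Ev x y A a) (k : Ev x y B b) : Ev x y (addF A B) (a + b) := fun s => by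
  simp [addF, List.foldl_append, h s, k (a :: s), tok]

theorem sub (h : Ev x y A a) (k : Ev x y B b) : Ev x y (subF A B) (a - b) := fun s => by
  simp [subF, List.foldl_append, h s, k (a :: s), tok]

theorem mul (h : Ev x y A a) (k : Ev x y B b) : Ev x y (mulF A B) (a * b) := fun s => by
  simp [mulF, List.foldl_append, h s, k (a :: s), tok]

theorem cast (h : Ev x y A a) (e : a = b) : Ev x y A b := e ▸ h

theorem zero : Ev x y zeroF 0 := cast (sub one one) (sub_self _)

theorem iff (h : Bv x y A p) (e : p ↔ q) : Bv x y A q := propext e ▸ h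

theorem pos (h : Ev x y A a) : Bv x y (posF A) (0 < a) := by
  by_cases k : 0 < a
  · exact Or.inl ⟨fun s => by simp [posF, List.foldl_append, h s, tok, k], k⟩
  · exact Or.inr ⟨fun s => by simp [posF, List.foldl_append, h s, tok, k], k⟩

theorem neg (h : Bv x y A p) : Bv x y (notF A) ¬ p := by
  rcases h with ⟨h, k⟩ | ⟨h, k⟩
  · exact Or.inr ⟨cast (sub one h) (sub_self _), not_not.2 k⟩
  · exact Or.inl ⟨cast (sub one h) (sub_zero _), k⟩

theorem eq0 (h : Ev x y A a) : Bv x y (eq0F A) (a = 0) :=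
  iff (neg (pos (mul h h))) (by rw [mul_self_pos, not_not])

theorem eq (h : Ev x y A a) (k : Ev x y B b) : Bv x y (eqF A B) (a = b) :=
  iff (eq0 (sub h k)) sub_eq_zero

theorem eqv (h : Bv x y A p) (k : Bv x y B q) : Bv x y (eqF A B) (p ↔ q) := by
  rcases h with ⟨h, h'⟩ | ⟨h, h'⟩ <;> rcases k with ⟨k, k'⟩ | ⟨k, k'⟩ <;>
    exact iff (eq h k) (by simp [h', k'])

theorem lt (h : Ev x y A a) (k : Ev x y B b) : Bv x y (ltF A B) (a < b) :=
  iff (pos (sub k h)) sub_pos

theorem le (h : Ev x y A a) (k : Ev x y B b) : Bv x y (leF A B) (a ≤ b) :=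
  iff (neg (lt k h)) not_lt

theorem con (h : Bv x y A p) (k : Bv x y B q) : Bv x y (mulF A B) (p ∧ q) := by
  rcases h with ⟨h, h'⟩ | ⟨h, h'⟩ <;> rcases k with ⟨k, k'⟩ | ⟨k, k'⟩
  · exact Or.inl ⟨cast (mul h k) (one_mul _), h', k'⟩
  · exact Or.inr ⟨cast (mul h k) (one_mul _), fun e => k' e.2⟩
  · exact Or.inr ⟨cast (mul h k) (zero_mul _), fun e => h' e.1⟩
  · exact Or.inr ⟨cast (mul h k) (zero_mul _), fun e => h' e.1⟩

theorem dis (h : Bv x y A p) (k : Bv x y B q) : Bv x y (orF A B) (p ∨ q) :=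
  iff (neg (con (neg h) (neg k))) or_iff_not_and_not.symm

theorem imp (h : Bv x y A p) (k : Bv x y B q) : Bv x y (impF A B) (p → q) :=
  iff (neg (con h (neg k))) (by rw [not_and, not_not])

theorem all_aux {α : Type} {g : α → Fl} {P : α → Prop} : ∀ (l : List α) (A : Fl) (p : Prop),
    Bv x y A p → (∀ a ∈ l, Bv x y (g a) (P a)) →
      Bv x y (A ++ l.flatMap fun a => g a ++ [(5, 0)]) (p ∧ ∀ a ∈ l, P a)
  | [], A, p, h, _ => by simpa using h
  | c :: l, A, p, h, k => by
    have := all_aux l _ _ (con h (k c List.mem_cons_self))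
      fun a ha => k a (List.mem_cons_of_mem _ ha)
    simpa [mulF, and_assoc] using this

theorem all {α : Type} {g : α → Fl} {P : α → Prop} {l : List α}
    (k : ∀ a ∈ l, Bv x y (g a) (P a)) : Bv x y (allF l g) (∀ a ∈ l, P a) :=
  iff (all_aux l oneF True (Or.inl ⟨one, trivial⟩) k) (by simp)

theorem allr {g : ℕ → Fl} {P : ℕ → Prop} {n : ℕ} (k : ∀ a, Bv x y (g a) (P a)) :
    Bv x y (allF (List.range n) g) (∀ a < n, P a) :=
  iff (all fun a _ => k a) (by simp)

theorem any {α : Type} {g : α → Fl} {P : α → Prop} {l : List α}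
    (k : ∀ a ∈ l, Bv x y (g a) (P a)) : Bv x y (anyF l g) (∃ a ∈ l, P a) :=
  iff (neg (all fun a ha => neg (k a ha))) (by simp)

theorem cst (p : Prop) [Decidable p] : Bv x y (cstF (decide p)) p := by
  by_cases k : p
  · exact Or.inl ⟨by simpa [cstF, k] using one, k⟩
  · exact Or.inr ⟨by simpa [cstF, k] using zero, k⟩

theorem lxv (h : Ev x y A a) (k : Ev x y B b) : Ev x y (lxF A B) (lx a b) := by
  rcases eq0 h with ⟨e, e'⟩ | ⟨e, e'⟩ <;> exact cast (add h (mul e k)) (by simp [lx, e'])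

theorem fmv (h : Nm x y s u) (f : ℕ) (hX : Ev x y X X') (hY : Ev x y Y Y') (hW : Ev x y W W') :
    Ev x y (fmF s f X Y W) (fm u f X' Y' W') :=
  add (add (mul (var h _) hX) (mul (var h _) hY)) (mul (var h _) hW)

theorem fdv (h : Nm x y s u) (f : ℕ) (hX : Ev x y X X') (hY : Ev x y Y Y') (hW : Ev x y W W')
    (hD : Ev x y D D') : Ev x y (fdF s f X Y W D) (fd u f X' Y' W' D') :=
  lxv (fmv h f hX hY hW) (mul hD (var h _))

theorem trv (h : Nm x y s u) (f : ℕ) (hX : Ev x y X X') (hY : Ev x y Y Y') (hW : Ev x y W W')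
    (hD : Ev x y D D') : Ev x y (trF s f X Y W D) (tr u f X' Y' W' D') :=
  lxv (fdv h _ hX hY hW hD) (lxv (fdv h _ hX hY hW hD) (var h _))

theorem inNv (h : Nm x y s u) (i : ℕ) (hX : Ev x y X X') (hY : Ev x y Y Y') (hW : Ev x y W W')
    (hD : Ev x y D D') : Bv x y (inNF s i X Y W D) (inN u i X' Y' W' D') :=
  allr fun _ => lt (trv h _ hX hY hW hD) zero

theorem pat (c : List ℕ) (h : Nm x y s u) (k : Nm x y t v) (hX : Ev x y X X') (hY : Ev x y Y Y')
    (hW : Ev x y W W') (hD : Ev x y D D') : Bv x y (patF L c s t X Y W D)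
      (Mt L c fun i => inN u i X' Y' W' D' ∧ inN v i X' Y' W' D') :=
  allr fun i => eqv (con (inNv h i hX hY hW hD) (inNv k i hX hY hW hD)) (cst _)

theorem ok (h : Nm x y s u) (k : Nm x y t v) (hX : Ev x y X X') (hY : Ev x y Y Y')
    (hW : Ev x y W W') (hD : Ev x y D D') :
    Bv x y (okF L C s t X Y W D) (Ok L C u v X' Y' W' D') :=
  any fun c _ => pat c h k hX hY hW hD

theorem cel {ξ η w ξ' η' w' : Fl} {c d e c' d' e' : ℝ} (h : Nm x y s u) (k : Nm x y t v)
    (l : Nm x y r o) (j : ℕ) (h1 : Ev x y ξ c) (h2 : Ev x y η d) (h3 : Ev x y w e)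
    (h4 : Ev x y ξ' c') (h5 : Ev x y η' d') (h6 : Ev x y w' e') :
    Bv x y (celF L C s t r j ξ η w ξ' η' w') (Cel L C u v o j c d e c' d' e') :=
  con (dis (eq0 (var l _)) (con (eq0 (fmv l j h1 h2 h3)) (eq0 (fmv l j h4 h5 h6))))
    (con (allr fun i => con (le zero (mul (fmv h i h1 h2 h3) (fmv h i h4 h5 h6)))
        (le zero (mul (fmv k i h1 h2 h3) (fmv k i h4 h5 h6))))
      (con (ok h k (add h1 h4) (add h2 h5) (add h3 h6) zero)
        (con (ok h k (add h1 h4) (add h2 h5) (add h3 h6) one)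
          (ok h k (add h1 h4) (add h2 h5) (add h3 h6) (cast (sub zero one) (zero_sub _))))))

theorem col {ξ w ξ' w' : Fl} {c e c' e' : ℝ} (h : Nm x y s u) (k : Nm x y t v) (h1 : Ev x y ξ c)
    (h3 : Ev x y w e) (h4 : Ev x y ξ' c') (h6 : Ev x y w' e') (n n' m m' : ℕ) :
    Bv x y (colF L C s t ξ w ξ' w' n n' m m') (Col L C u v c e c' e' (fun j => y (16 * j + n))
      (fun j => y (16 * j + n')) (fun j => y (16 * j + m)) fun j => y (16 * j + m')) :=
  allr fun j => con (cel h k h j h1 (var n2 _) h3 h4 (var n2 _) h6)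
    (cel h k k j h1 (var n2 _) h3 h4 (var n2 _) h6)

theorem eq3 (f : ℕ) : Bv x y (eq3F f) (Eq3 x y f) :=
  con (eq (var n1 _) (var n2 _)) (con (eq (var n1 _) (var n2 _)) (eq (var n1 _) (var n2 _)))

theorem comb (r t : ℕ) : Ev x y (combF r t)
    (y (16 * r + 6) * y (16 * (2 * r) + t) - y (16 * r + 5) * x (16 * (2 * r) + t)) :=
  sub (mul (var n2 _) (var n2 _)) (mul (var n2 _) (var n1 _))

theorem en (h : Nm x y s u) : Ev x y (endF s) (u 16 - 1) := sub (var h _) one

theorem tn (r : ℕ) : Bv x y (tnF r) (Tn x y (x 16 - 1) r (y (16 * r + 5)) (y (16 * r + 6))) :=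
  dis (con (eq3 _) (con (eq3 _) (eq (var n1 _) (var n2 _))))
    (con (le zero (var n2 _)) (con (le zero (var n2 _))
      (con (eq (comb r 1) one) (con (eq0 (comb r 2)) (eq0 (add (comb r 3) (en n1)))))))

theorem nrm : Bv x y (nrmF L C) (Nrm L C x y) :=
  con (dis (eq (var n2 _) one) (con (eq0 (var n2 _)) (eq (en n2) one)))
    (con (lt (mul (en n1) (var n2 _)) (mul (en n2) (var n1 _)))
      (con (col n2 n2 (en n1) (var n1 _) (en n2) (var n2 _) 7 8 7 8)
        (con (imp (eq (var n1 _) one)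
            (con (allr tn) (col n1 n2 (en n1) one (en n1) one 9 9 10 10)))
          (allr fun _ => imp (eq (var n2 _) one) (dis (eq (var n1 _) one)
            (con (eq (var n1 _) one) (pat _ n1 n2 (en n1) (var n2 _) one zero)))))))

theorem step : Bv x y (stepF L C) (Step L C x y) :=
  dis (con (eq (var n1 _) one) (eq (var n2 _) one))
    (con nrm (imp (eq (var n2 _) one) (con (eq0 (var n2 _)) (allr fun _ => eq (var n2 _) one))))

end UFmlAux

/-- One lemma for each definition of UFDefs, bottom up: Ev for oneF, varF (with the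
hypothesis (s = 1 ∧ u = x) ∨ (s = 2 ∧ u = y)), addF, subF, mulF, zeroF, lxF, fmF,
fdF, trF, combF, endF; Bv for posF, notF, eq0F, eqF (on values, and on truth
values as an iff), ltF, leF, mulF (and), orF, impF, allF (induction on the list with
the top of the stack as accumulator), anyF, cstF, and then for inNF, patF, okF, celF,
colF, eq3F, tnF, nrmF, stepF, each by the same tree of lemmas. -/
theorem holds_iff (L : List ℕ) (C : List (List ℕ)) (x y : ℕ → ℝ) :
    Holds (stepF L C) x y ↔ Step L C x y := by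
  rcases UFmlAux.step (x := x) (y := y) (L := L) (C := C) with ⟨h, k⟩ | ⟨h, k⟩ <;>
    simp [Holds, h [], k]

end Pool.Agent.Lib.MP_79902f_lc.Up
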