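import Pool.Agent.Lib.MP_79902f_lc.UFDefs
import Pool.Agent.Shared.PolyTime.Extra
import Pool.Agent.Shared.PolyTime.Decode

/-!
The reduction is computed in polynomial time: one lemma for each formula writer.
-/

namespace Pool.Agent.Lib.MP_79902f_lc.Up

open N68a2faeb N487b59b3 Pool.Agent.Shared.PolyTime

variable {α β : Type} [N487b59b3 α] [N487b59b3 β]

@[fun_prop]
theorem pt_varF {s a : α → ℕ} (hs : IsPolyTime s) (ha : IsPolyTime a) :
    IsPolyTime fun x => varF (s x) (a x) := by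
  unfold varF
  fun_prop

@[fun_prop]
theorem pt_addF {A B : α → Fl} (hA : IsPolyTime A) (hB : IsPolyTime B) :
    IsPolyTime fun x => addF (A x) (B x) := by
  unfold addF
  fun_prop

@[fun_prop]
theorem pt_subF {A B : α → Fl} (hA : IsPolyTime A) (hB : IsPolyTime B) :
    IsPolyTime fun x => subF (A x) (B x) := by
  unfold subF
  fun_prop

@[fun_prop]
theorem pt_mulF {A B : α → Fl} (hA : IsPolyTime A) (hB : IsPolyTime B) :
    IsPolyTime fun x => mulF (A x) (B x) := by
  unfold mulF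
  fun_prop

@[fun_prop]
theorem pt_posF {A : α → Fl} (hA : IsPolyTime A) :
    IsPolyTime fun x => posF (A x) := by
  unfold posF
  fun_prop

@[fun_prop]
theorem pt_notF {A : α → Fl} (hA : IsPolyTime A) :
    IsPolyTime fun x => notF (A x) := by
  unfold notF
  fun_prop

@[fun_prop]
theorem pt_eq0F {A : α → Fl} (hA : IsPolyTime A) :
    IsPolyTime fun x => eq0F (A x) := by
  unfold eq0F
  fun_prop

@[fun_prop]
theorem pt_eqF {A B : α → Fl} (hA : IsPolyTime A) (hB : IsPolyTime B) :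
    IsPolyTime fun x => eqF (A x) (B x) := by
  unfold eqF
  fun_prop

@[fun_prop]
theorem pt_ltF {A B : α → Fl} (hA : IsPolyTime A) (hB : IsPolyTime B) :
    IsPolyTime fun x => ltF (A x) (B x) := by
  unfold ltF
  fun_prop

@[fun_prop]
theorem pt_leF {A B : α → Fl} (hA : IsPolyTime A) (hB : IsPolyTime B) :
    IsPolyTime fun x => leF (A x) (B x) := by
  unfold leF
  fun_prop

@[fun_prop]
theorem pt_orF {A B : α → Fl} (hA : IsPolyTime A) (hB : IsPolyTime B) :
    IsPolyTime fun x => orF (A x) (B x) := by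
  unfold orF
  fun_prop

@[fun_prop]
theorem pt_impF {A B : α → Fl} (hA : IsPolyTime A) (hB : IsPolyTime B) :
    IsPolyTime fun x => impF (A x) (B x) := by
  unfold impF
  fun_prop

@[fun_prop]
theorem pt_allF {l : α → List β} {g : α → β → Fl}
    (hg : IsPolyTime fun p : α × β => g p.1 p.2) (hl : IsPolyTime l) :
    IsPolyTime fun x => allF (l x) (g x) := by
  unfold allF
  refine IsPolyTime.append (by fun_prop) (IsPolyTime.flatMap ?_ hl)
  exact IsPolyTime.append hg (by fun_prop)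

@[fun_prop]
theorem pt_anyF {l : α → List β} {g : α → β → Fl}
    (hg : IsPolyTime fun p : α × β => g p.1 p.2) (hl : IsPolyTime l) :
    IsPolyTime fun x => anyF (l x) (g x) := by
  unfold anyF
  exact pt_notF (pt_allF (pt_notF hg) hl)

@[fun_prop]
theorem pt_cstF {b : α → Bool} (hb : IsPolyTime b) :
    IsPolyTime fun x => cstF (b x) := by
  unfold cstF
  fun_prop

@[fun_prop]
theorem pt_lxF {A B : α → Fl} (hA : IsPolyTime A) (hB : IsPolyTime B) :
    IsPolyTime fun x => lxF (A x) (B x) := by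
  unfold lxF
  fun_prop

@[fun_prop]
theorem pt_fmF {s f : α → ℕ} {X Y W : α → Fl} (hs : IsPolyTime s) (hf : IsPolyTime f)
    (hX : IsPolyTime X) (hY : IsPolyTime Y) (hW : IsPolyTime W) :
    IsPolyTime fun x => fmF (s x) (f x) (X x) (Y x) (W x) := by
  unfold fmF
  fun_prop

@[fun_prop]
theorem pt_fdF {s f : α → ℕ} {X Y W D : α → Fl} (hs : IsPolyTime s) (hf : IsPolyTime f)
    (hX : IsPolyTime X) (hY : IsPolyTime Y) (hW : IsPolyTime W) (hD : IsPolyTime D) :
    IsPolyTime fun x => fdF (s x) (f x) (X x) (Y x) (W x) (D x) := by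
  unfold fdF
  fun_prop

@[fun_prop]
theorem pt_trF {s r : α → ℕ} {X Y W D : α → Fl} (hs : IsPolyTime s) (hr : IsPolyTime r)
    (hX : IsPolyTime X) (hY : IsPolyTime Y) (hW : IsPolyTime W) (hD : IsPolyTime D) :
    IsPolyTime fun x => trF (s x) (r x) (X x) (Y x) (W x) (D x) := by
  unfold trF
  fun_prop

@[fun_prop]
theorem pt_inNF {s i : α → ℕ} {X Y W D : α → Fl} (hs : IsPolyTime s) (hi : IsPolyTime i)
    (hX : IsPolyTime X) (hY : IsPolyTime Y) (hW : IsPolyTime W) (hD : IsPolyTime D) :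
    IsPolyTime fun x => inNF (s x) (i x) (X x) (Y x) (W x) (D x) := by
  unfold inNF
  fun_prop

@[fun_prop]
theorem pt_patF {L c : α → List ℕ} {s t : α → ℕ} {X Y W D : α → Fl} (hL : IsPolyTime L)
    (hc : IsPolyTime c) (hs : IsPolyTime s) (ht : IsPolyTime t) (hX : IsPolyTime X)
    (hY : IsPolyTime Y) (hW : IsPolyTime W) (hD : IsPolyTime D) :
    IsPolyTime fun x => patF (L x) (c x) (s x) (t x) (X x) (Y x) (W x) (D x) := by
  unfold patF
  fun_prop

@[fun_prop]
theorem pt_okF {L : α → List ℕ} {C : α → List (List ℕ)} {s t : α → ℕ} {X Y W D : α → Fl}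
    (hL : IsPolyTime L) (hC : IsPolyTime C) (hs : IsPolyTime s) (ht : IsPolyTime t)
    (hX : IsPolyTime X) (hY : IsPolyTime Y) (hW : IsPolyTime W) (hD : IsPolyTime D) :
    IsPolyTime fun x => okF (L x) (C x) (s x) (t x) (X x) (Y x) (W x) (D x) := by
  unfold okF
  fun_prop

@[fun_prop]
theorem pt_celF {L : α → List ℕ} {C : α → List (List ℕ)} {s t o j : α → ℕ}
    {a b w a' b' w' : α → Fl} (hL : IsPolyTime L) (hC : IsPolyTime C) (hs : IsPolyTime s)
    (ht : IsPolyTime t) (ho : IsPolyTime o) (hj : IsPolyTime j) (ha : IsPolyTime a)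
    (hb : IsPolyTime b) (hw : IsPolyTime w) (ha' : IsPolyTime a') (hb' : IsPolyTime b')
    (hw' : IsPolyTime w') :
    IsPolyTime fun x => celF (L x) (C x) (s x) (t x) (o x) (j x) (a x) (b x) (w x) (a' x) (b' x)
      (w' x) := by
  unfold celF
  fun_prop

@[fun_prop]
theorem pt_colF {L : α → List ℕ} {C : α → List (List ℕ)} {s t : α → ℕ} {a w a' w' : α → Fl}
    {p p' q q' : α → ℕ} (hL : IsPolyTime L) (hC : IsPolyTime C) (hs : IsPolyTime s)
    (ht : IsPolyTime t) (ha : IsPolyTime a) (hw : IsPolyTime w) (ha' : IsPolyTime a')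
    (hw' : IsPolyTime w') (hp : IsPolyTime p) (hp' : IsPolyTime p') (hq : IsPolyTime q)
    (hq' : IsPolyTime q') :
    IsPolyTime fun x => colF (L x) (C x) (s x) (t x) (a x) (w x) (a' x) (w' x) (p x) (p' x) (q x)
      (q' x) := by
  unfold colF
  fun_prop

@[fun_prop]
theorem pt_eq3F {f : α → ℕ} (hf : IsPolyTime f) :
    IsPolyTime fun x => eq3F (f x) := by
  unfold eq3F
  fun_prop

@[fun_prop]
theorem pt_combF {r t : α → ℕ} (hr : IsPolyTime r) (ht : IsPolyTime t) :
    IsPolyTime fun x => combF (r x) (t x) := by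
  unfold combF
  fun_prop

@[fun_prop]
theorem pt_endF {s : α → ℕ} (hs : IsPolyTime s) :
    IsPolyTime fun x => endF (s x) := by
  unfold endF
  fun_prop

@[fun_prop]
theorem pt_tnF {r : α → ℕ} (hr : IsPolyTime r) :
    IsPolyTime fun x => tnF (r x) := by
  unfold tnF
  fun_prop

@[fun_prop]
theorem pt_nrmF {L : α → List ℕ} {C : α → List (List ℕ)} (hL : IsPolyTime L) (hC : IsPolyTime C) :
    IsPolyTime fun x => nrmF (L x) (C x) := by
  unfold nrmF
  fun_prop

@[fun_prop]
theorem pt_stepF {L : α → List ℕ} {C : α → List (List ℕ)} (hL : IsPolyTime L) (hC : IsPolyTime C)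
    :
    IsPolyTime fun x => stepF (L x) (C x) := by
  unfold stepF
  fun_prop

@[fun_prop]
theorem pt_NB {m k : α → ℕ} (hm : IsPolyTime m) (hk : IsPolyTime k) (bm : PolyBdd m)
    (bk : PolyBdd k) :
    IsPolyTime fun x => NB (m x) (k x) := by
  unfold NB
  fun_prop

@[fun_prop]
theorem pt_NN {m k : α → ℕ} (hm : IsPolyTime m) (hk : IsPolyTime k) (bm : PolyBdd m)
    (bk : PolyBdd k) :
    IsPolyTime fun x => NN (m x) (k x) := by
  unfold NN
  fun_prop

theorem red_polyTime : IsPolyTime red := by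
  unfold red
  fun_prop

end Pool.Agent.Lib.MP_79902f_lc.Up
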