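import Pool.Agent.Lib.MP_79902f_lc.UCol

open Set

noncomputable section

namespace Pool.Agent.Lib.MP_79902f_lc.Up

variable {L : List ℕ} {C : List (List ℕ)} {u v : ℕ → ℝ}

namespace USoundAux

theorem lx_comb {A A' c c' e a b : ℝ} (ha : 0 < a) (hb : 0 < b) (h : lx A c < 0)
    (h' : lx A' c' < 0) (he : c < 0 → c' < 0 → e < 0) : lx (a * A + b * A') e < 0 := by
  rw [lx_neg_iff] at h h' ⊢
  rcases h with h | ⟨h, hc⟩ <;> rcases h' with h' | ⟨h', hc'⟩
  · exact Or.inl (add_neg (mul_neg_of_pos_of_neg ha h) (mul_neg_of_pos_of_neg hb h'))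
  · left
    rw [h', mul_zero, add_zero]
    exact mul_neg_of_pos_of_neg ha h
  · left
    rw [h, mul_zero, zero_add]
    exact mul_neg_of_pos_of_neg hb h'
  · right
    exact ⟨by rw [h, h', mul_zero, mul_zero, add_zero], he hc hc'⟩

theorem tr_eq (v : ℕ → ℝ) (r : ℕ) (X Y W : ℝ) : tr v r X Y W 0 =
    lx (fm v (2 * r) X Y W) (lx (fm v (2 * r + 1) X Y W) (v (16 * r + 4))) := by
  unfold tr
  rw [fd_zero, fd_zero]

theorem fm_le {r : ℕ} {a b : ℝ} (h : tr v r a b 1 0 < 0) : fm v (2 * r) a b 1 ≤ 0 := by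
  rw [tr_eq, lx_neg_iff] at h
  rcases h with h | h
  · exact h.le
  · exact h.1.le

theorem of_fm {r : ℕ} {a b : ℝ} (h : fm v (2 * r) a b 1 < 0) : tr v r a b 1 0 < 0 := by
  rw [tr_eq, lx_neg_iff]
  exact Or.inl h

theorem tr_same {r : ℕ} (h1 : Eq3 u v (2 * r)) (h2 : Eq3 u v (2 * r + 1))
    (h3 : u (16 * r + 4) = v (16 * r + 4)) (a b : ℝ) : tr u r a b 1 0 = tr v r a b 1 0 := by
  rw [tr_eq, tr_eq]
  unfold fm
  rw [h1.1, h1.2.1, h1.2.2, h2.1, h2.2.1, h2.2.2, h3]

theorem comb {s l l' a b : ℝ} {r : ℕ}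
    (h1 : l' * v (16 * (2 * r) + 1) - l * u (16 * (2 * r) + 1) = 1)
    (h2 : l' * v (16 * (2 * r) + 2) - l * u (16 * (2 * r) + 2) = 0)
    (h3 : l' * v (16 * (2 * r) + 3) - l * u (16 * (2 * r) + 3) + s = 0) :
    l' * fm v (2 * r) a b 1 - l * fm u (2 * r) a b 1 = a - s := by
  unfold fm
  linear_combination a * h1 + b * h2 + h3

theorem Mt_congr {c : List ℕ} {P Q : ℕ → Prop} (h : Mt L c P)
    (hPQ : ∀ i < L.length, (Q i ↔ P i)) : Mt L c Q :=
  fun i hi => (hPQ i hi).trans (h i hi)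

end USoundAux

/-- `lx_neg_iff`, `fd_zero`: an open half-plane together with a convex part of its boundary. -/
theorem convex_tr (v : ℕ → ℝ) (r : ℕ) : Convex ℝ {z : ℝ × ℝ | tr v r z.1 z.2 1 0 < 0} := by
  rw [convex_iff_forall_pos]
  intro z hz z' hz' a b ha hb hab
  have e : ∀ f, fm v f (a • z + b • z').1 (a • z + b • z').2 1 =
      a * fm v f z.1 z.2 1 + b * fm v f z'.1 z'.2 1 := by
    intro f
    simp only [fm, Prod.fst_add, Prod.snd_add, Prod.smul_fst, Prod.smul_snd, smul_eq_mul]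
    linear_combination (-v (16 * f + 3)) * hab
  simp only [mem_ofPred_eq, USoundAux.tr_eq] at hz hz' ⊢
  rw [e, e]
  exact USoundAux.lx_comb ha hb hz hz' fun h h' => USoundAux.lx_comb ha hb h h' fun k _ => k

/-- In the second case l' φ' - l φ = a - s at the point (a, b). -/
theorem Tn.left {s l l' a b : ℝ} {r : ℕ} (h : Tn u v s r l l') (ha : a < s)
    (hz : tr u r a b 1 0 < 0) : tr v r a b 1 0 < 0 := by
  rcases h with ⟨h1, h2, h3⟩ | ⟨hl, hl', h1, h2, h3⟩
  · rwa [← USoundAux.tr_same h1 h2 h3]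
  · have e := USoundAux.comb (a := a) (b := b) h1 h2 h3
    have k := mul_nonpos_of_nonneg_of_nonpos hl (USoundAux.fm_le hz)
    refine USoundAux.of_fm (lt_of_not_ge fun hge => ?_)
    have := mul_nonneg hl' hge
    linarith

theorem Tn.right {s l l' a b : ℝ} {r : ℕ} (h : Tn u v s r l l') (ha : s < a)
    (hz : tr v r a b 1 0 < 0) : tr u r a b 1 0 < 0 := by
  rcases h with ⟨h1, h2, h3⟩ | ⟨hl, hl', h1, h2, h3⟩
  · rwa [USoundAux.tr_same h1 h2 h3]
  · have e := USoundAux.comb (a := a) (b := b) h1 h2 h3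
    have k := mul_nonpos_of_nonneg_of_nonpos hl' (USoundAux.fm_le hz)
    refine USoundAux.of_fm (lt_of_not_ge fun hge => ?_)
    have := mul_nonneg hl hge
    linarith

/-- Let K + 1 be the first time with x t 0 = 1 (x 0 = 0). The steps t ≤ K are Nrm steps,
x (K + 1) 32 = 0, all seen bits of x (K + 1) are 1. For 1 ≤ t ≤ K one has x t 32 = 1
(after the end (1, 0) the order condition fails), and s t = x t 16 - 1 is strictly increasing
on [1, K]. Put X i = {z | ∀ t ∈ [1, K + 1], inN (x t) i z.1 z.2 1 0} (convex by convex_tr).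
By Tn.left, Tn.right and induction: if z.1 lies in the open strip between the ends of x t
and x (t + 1) then z ∈ X i ↔ inN (x (t + 1)) i .., and if z.1 = s t then
z ∈ X i ↔ inN (x t) i .. ∧ inN (x (t + 1)) i .. (for i < L.length). Every z.1 is in one of
these cases (largest t ≤ K with t = 0 or s t ≤ z.1). Col.sound with
a = (ξ' - z.1 w') / D, a' = (z.1 w - ξ) / D, D = ξ' w - ξ w' on strips and a = a' = 1 / 2
on lines. Seen bits: induction on t ≤ K + 1; c ∈ C is C.getD k [] with k < C.length. -/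
theorem sound {N : ℕ} (h : Run L C N) : Rz L C := by
  classical
  obtain ⟨x, hx0, hstep, hN⟩ := h
  have hex : ∃ t, x t 0 = 1 := ⟨N, hN⟩
  have hT1 : x (Nat.find hex) 0 = 1 := Nat.find_spec hex
  have hTN : Nat.find hex ≤ N := Nat.find_min' hex hN
  have hT0 : Nat.find hex ≠ 0 := by
    intro h0
    rw [h0, hx0] at hT1
    simp at hT1
  obtain ⟨K, hK⟩ := Nat.exists_eq_succ_of_ne_zero hT0
  have hst : ∀ t ≤ K, Nrm L C (x t) (x (t + 1)) ∧ (x (t + 1) 0 = 1 →
      x (t + 1) 32 = 0 ∧ ∀ k < C.length, x (t + 1) (16 * k + 11) = 1) := by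
    intro t ht
    rcases hstep t (by omega) with h1 | h1
    · exact absurd h1.1 (Nat.find_min hex (by omega))
    · exact h1
  have hn : ∀ t ≤ K, Nrm L C (x t) (x (t + 1)) := fun t ht => (hst t ht).1
  have hlast := (hst K le_rfl).2 (by rw [hK] at hT1; exact hT1)
  have hlast' : x (K + 1) 16 - 1 = 1 := by
    rcases (hn K le_rfl).1 with h1 | h1
    · rw [hlast.1] at h1
      exact absurd h1 zero_ne_one
    · exact h1.2
  have hw : ∀ t, 1 ≤ t → t ≤ K → x t 32 = 1 := by
    intro t h1 h2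
    obtain ⟨t, rfl⟩ := Nat.exists_eq_add_of_le' h1
    rcases (hn t (by omega)).1 with h3 | h3
    · exact h3
    · exfalso
      have h4 := (hn (t + 1) h2).2.1
      rw [h3.1, h3.2] at h4
      rcases (hn (t + 1) h2).1 with h5 | h5
      · rw [h5] at h4
        linarith
      · rw [h5.1] at h4
        linarith
  have hlt : ∀ t, 1 ≤ t → ∀ t', t + 1 ≤ t' → t' ≤ K → x t 16 - 1 < x t' 16 - 1 := by
    have h1 : ∀ t, 1 ≤ t → t + 1 ≤ K → x t 16 - 1 < x (t + 1) 16 - 1 := by
      intro t ht htK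
      have := (hn t (by omega)).2.1
      rwa [hw t ht (by omega), hw (t + 1) (by omega) htK, mul_one, mul_one] at this
    intro t ht t' htt
    induction t', htt using Nat.le_induction with
    | base => exact h1 t ht
    | succ n hn' ih => exact fun hK' => (ih (by omega)).trans (h1 n (by omega) hK')
  have hup : ∀ i < L.length, ∀ (a b : ℝ) (t₀ : ℕ), 1 ≤ t₀ →
      (∀ t, t₀ ≤ t → t ≤ K → a < x t 16 - 1) → inN (x t₀) i a b 1 0 →
      ∀ t, t₀ ≤ t → t ≤ K + 1 → inN (x t) i a b 1 0 := by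
    intro i hi a b t₀ h1 ha h0 t ht
    induction t, ht using Nat.le_induction with
    | base => exact fun _ => h0
    | succ n hn' ih =>
      intro hK' k hk
      exact (((hn n (by omega)).2.2.2.1 (hw n (by omega) (by omega))).1 (4 * i + k)
        (by omega)).left (ha n hn' (by omega)) (ih (by omega) k hk)
  have hdown : ∀ i < L.length, ∀ (a b : ℝ) (t : ℕ), 1 ≤ t → ∀ t₀, t ≤ t₀ → t₀ ≤ K + 1 →
      (∀ t', 1 ≤ t' → t' < t₀ → x t' 16 - 1 < a) → inN (x t₀) i a b 1 0 →
      inN (x t) i a b 1 0 := by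
    intro i hi a b t h1 t₀ ht
    induction t₀, ht using Nat.le_induction with
    | base => exact fun _ _ h0 => h0
    | succ n hn' ih =>
      intro hK' ha h0
      refine ih (by omega) (fun t' h2 h3 => ha t' h2 (by omega)) fun k hk => ?_
      exact (((hn n (by omega)).2.2.2.1 (hw n (by omega) (by omega))).1 (4 * i + k)
        (by omega)).right (ha n (by omega) (by omega)) (h0 k hk)
  let X : ℕ → Set (ℝ × ℝ) := fun i => {z | ∀ t, 1 ≤ t → t ≤ K + 1 → inN (x t) i z.1 z.2 1 0}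
  have hline : ∀ t, 1 ≤ t → t ≤ K → ∀ b : ℝ, ∀ i < L.length, ((x t 16 - 1, b) ∈ X i ↔
      inN (x t) i (x t 16 - 1) b 1 0 ∧ inN (x (t + 1)) i (x t 16 - 1) b 1 0) := by
    intro t h1 h2 b i hi
    refine ⟨fun h => ⟨h t h1 (by omega), h (t + 1) (by omega) (by omega)⟩, fun h t' h3 h4 => ?_⟩
    rcases le_or_gt t' t with h5 | h5
    · exact hdown i hi _ b t' h3 t h5 (by omega) (fun n h6 h7 => hlt n h6 t h7 h2) h.1
    · exact hup i hi _ b (t + 1) (by omega) (fun n h6 h7 => hlt t h1 n h6 h7) h.2 t' h5 h4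
  have hstrip : ∀ t ≤ K, ∀ a b : ℝ, (1 ≤ t → x t 16 - 1 < a) →
      (t + 1 ≤ K → a < x (t + 1) 16 - 1) → ∀ i < L.length,
      ((a, b) ∈ X i ↔ inN (x (t + 1)) i a b 1 0 ∧ inN (x (t + 1)) i a b 1 0) := by
    intro t h2 a b ha ha' i hi
    rw [and_self]
    refine ⟨fun h => h (t + 1) (by omega) (by omega), fun h t' h3 h4 => ?_⟩
    rcases le_or_gt t' t with h5 | h5
    · refine hdown i hi a b t' h3 (t + 1) (by omega) (by omega) (fun n h6 h7 => ?_) h
      rcases eq_or_lt_of_le (Nat.lt_succ_iff.1 h7) with h8 | h8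
      · rw [h8]
        exact ha (by omega)
      · exact (hlt n h6 t h8 h2).trans (ha (by omega))
    · refine hup i hi a b (t + 1) (by omega) (fun n h6 h7 => ?_) h t' h5 h4
      rcases eq_or_lt_of_le h6 with h8 | h8
      · rw [← h8]
        exact ha' (by omega)
      · exact (ha' (by omega)).trans (hlt (t + 1) (by omega) n h8 h7)
  have hseen : ∀ t ≤ K + 1, ∀ k < C.length, x t (16 * k + 11) = 1 →
      ∃ z, Mt L (C.getD k []) fun i => z ∈ X i := by
    intro t
    induction t with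
    | zero =>
      intro _ k _ h1
      rw [hx0] at h1
      simp at h1
    | succ t ih =>
      intro ht k hk h1
      rcases (hn t (by omega)).2.2.2.2 k hk h1 with h2 | ⟨h2, h3⟩
      · exact ih (by omega) k hk h2
      · have h4 : 1 ≤ t := by
          refine Nat.one_le_iff_ne_zero.2 fun h0 => ?_
          rw [h0, hx0] at h2
          simp at h2
        exact ⟨(x t 16 - 1, x (t + 1) (16 * k + 12)),
          USoundAux.Mt_congr h3 (hline t h4 (by omega) _)⟩
  refine ⟨X, fun i => ?_, ?_, fun c hc => ?_⟩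
  · have : X i = ⋂ t ∈ {t | 1 ≤ t ∧ t ≤ K + 1}, ⋂ k ∈ {k | k < 4},
        {z : ℝ × ℝ | tr (x t) (4 * i + k) z.1 z.2 1 0 < 0} := by
      ext z
      simp only [X, inN, mem_ofPred_eq, mem_iInter, and_imp]
    rw [this]
    exact convex_iInter₂ fun t _ => convex_iInter₂ fun k _ => convex_tr _ _
  · rintro ⟨a, b⟩
    obtain ⟨t, htK, hP, hmax⟩ : ∃ t ≤ K, (t = 0 ∨ x t 16 - 1 ≤ a) ∧
        (t + 1 ≤ K → a < x (t + 1) 16 - 1) := by
      refine ⟨Nat.findGreatest (fun t => t = 0 ∨ x t 16 - 1 ≤ a) K, Nat.findGreatest_le K,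
        Nat.findGreatest_spec (P := fun t => t = 0 ∨ x t 16 - 1 ≤ a) (Nat.zero_le K) (Or.inl rfl),
        fun h => lt_of_not_ge fun hge => ?_⟩
      exact Nat.findGreatest_is_greatest (Nat.lt_succ_self _) h (Or.inr hge)
    by_cases hl : 1 ≤ t ∧ x t 16 - 1 = a
    · obtain ⟨h1, rfl⟩ := hl
      have h2 := ((hn t htK).2.2.2.1 (hw t h1 htK)).2.sound (a := 1 / 2) (a' := 1 / 2)
        (by norm_num) (by norm_num) b
      rw [show 1 / 2 * (x t 16 - 1) + 1 / 2 * (x t 16 - 1) = x t 16 - 1 by ring,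
        show (1 / 2 * 1 + 1 / 2 * 1 : ℝ) = 1 by norm_num] at h2
      obtain ⟨c, hc, hm⟩ := h2
      exact ⟨c, hc, USoundAux.Mt_congr hm (hline t h1 htK b)⟩
    · have ha : 1 ≤ t → x t 16 - 1 < a := by
        intro h1
        rcases hP with h2 | h2
        · omega
        · exact lt_of_le_of_ne h2 fun h3 => hl ⟨h1, h3⟩
      have hD : 0 < (x (t + 1) 16 - 1) * x t 32 - (x t 16 - 1) * x (t + 1) 32 :=
        sub_pos.2 (hn t htK).2.1
      have hA : 0 < x (t + 1) 16 - 1 - a * x (t + 1) 32 := by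
        rcases eq_or_lt_of_le htK with h1 | h1
        · rw [h1, hlast.1, hlast']
          norm_num
        · rw [hw (t + 1) (by omega) h1, mul_one]
          exact sub_pos.2 (hmax h1)
      have hA' : 0 < a * x t 32 - (x t 16 - 1) := by
        rcases Nat.eq_zero_or_pos t with h1 | h1
        · rw [h1, hx0]
          simp
        · rw [hw t h1 htK, mul_one]
          exact sub_pos.2 (ha h1)
      have h2 := (hn t htK).2.2.1.sound (div_pos hA hD) (div_pos hA' hD) b
      generalize hD' : (x (t + 1) 16 - 1) * x t 32 - (x t 16 - 1) * x (t + 1) 32 = D at h2 hD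
      have e1 : (x (t + 1) 16 - 1 - a * x (t + 1) 32) / D * (x t 16 - 1) +
          (a * x t 32 - (x t 16 - 1)) / D * (x (t + 1) 16 - 1) = a := by
        field_simp
        rw [← hD']
        ring
      have e2 : (x (t + 1) 16 - 1 - a * x (t + 1) 32) / D * x t 32 +
          (a * x t 32 - (x t 16 - 1)) / D * x (t + 1) 32 = 1 := by
        field_simp
        rw [← hD']
        ring
      rw [e1, e2] at h2
      obtain ⟨c, hc, hm⟩ := h2
      exact ⟨c, hc, USoundAux.Mt_congr hm (hstrip t htK a b ha hmax)⟩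
  · obtain ⟨k, hk, rfl⟩ := List.mem_iff_getElem.1 hc
    have := hseen (K + 1) le_rfl k hk (hlast.2 k hk)
    rwa [List.getD_eq_getElem _ _ hk] at this

end Pool.Agent.Lib.MP_79902f_lc.Up
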