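import Pool.Agent.Lib.MP_79902f_lc.UComp
import Pool.Agent.Lib.MP_79902f_lc.USound
import Pool.Agent.Lib.MP_79902f_lc.UFml
import Pool.Agent.Lib.MP_79902f_lc.UPoly

/-!
The planar convex code problem reduces to bounded reachability over the reals.
-/

open Set

noncomputable section

namespace Pool.Agent.Lib.MP_79902f_lc.Up

open N68a2faeb N793a5b8e N487b59b3 Pool.Agent.Shared.PolyTime

theorem not_reach_zero (F : Fl) : ¬ Reach 0 F := by
  rintro ⟨x, h0, -, h1⟩
  rw [h0] at h1
  exact zero_ne_one h1

theorem reach_iff (L : List ℕ) (C : List (List ℕ)) (N : ℕ) :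
    Reach N (stepF L C) ↔ Run L C N := by
  unfold Reach Run
  simp only [holds_iff]

theorem red_iff (p : ℕ × List (List ℕ)) :
    ConvexRealizable p.1 p.2 ↔ Reach (red p).1 (red p).2 := by
  rw [realizable_iff]
  unfold red
  split_ifs with h
  · rw [reach_iff]
    exact ⟨fun h' => complete h'.2, fun h' => ⟨h, sound h'⟩⟩
  · exact ⟨fun h' => (h h'.1).elim, fun h' => (not_reach_zero _ h').elim⟩

theorem realReach_encode (q : ℕ × Fl) : RealReach (bitEncode q) = true ↔ Reach q.1 q.2 := by
  simp only [RealReach, decide_eq_true_eq]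
  constructor
  · rintro ⟨N, F, h, hr⟩
    rw [bitEncode_injective h]
    exact hr
  · exact fun h => ⟨q.1, q.2, rfl, h⟩

/-- the reduction on strings -/
def redW (w : List Bool) : ℕ × Fl :=
  (bitDecode w : Option (ℕ × List (List ℕ))).elim (0, []) fun p =>
    if bitEncode p = w then red p else (0, [])

theorem redW_polyTime : IsPolyTime redW := by
  have := red_polyTime
  unfold redW
  fun_prop

theorem cc2_le_reach : ManyOneReducible ConvexCode2 RealReach := by
  refine ⟨fun w => bitEncode (redW w), redW_polyTime.bitEncode, fun w => ?_⟩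
  rw [Bool.eq_iff_iff, realReach_encode]
  simp only [ConvexCode2, decide_eq_true_eq]
  constructor
  · rintro ⟨n, C, rfl, h⟩
    have e : redW (bitEncode (n, C)) = red (n, C) := by simp [redW]
    rw [e]
    exact (red_iff (n, C)).1 h
  · intro h
    unfold redW at h
    cases hd : (bitDecode w : Option (ℕ × List (List ℕ))) with
    | none =>
      rw [hd] at h
      exact (not_reach_zero _ h).elim
    | some p =>
      rw [hd, Option.elim_some] at h
      split_ifs at h with he
      · exact ⟨p.1, p.2, he.symm, (red_iff p).2 h⟩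
      · exact (not_reach_zero _ h).elim

end Pool.Agent.Lib.MP_79902f_lc.Up
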