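import Pool.Agent.Lib.MP_79902f_lc.UStep

open Set

noncomputable section

namespace Pool.Agent.Lib.MP_79902f_lc.Up

variable {L : List ℕ} {C : List (List ℕ)} {X : ℕ → Set (ℝ × ℝ)} {S : Finset ℝ} {v : ℝ → ℕ → ℝ}

namespace URunAux

/-- some path of `n` steps leads from `x` to an accepting state -/
def Acc (L : List ℕ) (C : List (List ℕ)) : ℕ → (ℕ → ℝ) → Prop
  | 0, x => x 0 = 1
  | n + 1, x => ∃ y, Step L C x y ∧ Acc L C n y

theorem Acc.succ : ∀ {n : ℕ} {x : ℕ → ℝ}, Acc L C n x → Acc L C (n + 1) x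
  | 0, x, h => ⟨x, Or.inl ⟨h, h⟩, h⟩
  | _ + 1, _, ⟨y, h1, h2⟩ => ⟨y, h1, h2.succ⟩

theorem Acc.mono {n N : ℕ} {x : ℕ → ℝ} (h : Acc L C n x) (hn : n ≤ N) : Acc L C N x := by
  induction hn with
  | refl => exact h
  | step _ ih => exact ih.succ

theorem Acc.path : ∀ {n : ℕ} {x : ℕ → ℝ}, Acc L C n x →
    ∃ z : ℕ → ℕ → ℝ, z 0 = x ∧ (∀ s < n, Step L C (z s) (z (s + 1))) ∧ z n 0 = 1
  | 0, x, h => ⟨fun _ => x, rfl, fun _ hs => absurd hs (Nat.not_lt_zero _), h⟩
  | n + 1, x, ⟨y, h1, h2⟩ => by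
    obtain ⟨z, z0, z1, z2⟩ := h2.path
    refine ⟨fun s => Nat.casesOn s x z, rfl, fun s hs => ?_, z2⟩
    cases s with
    | zero =>
      subst z0
      exact h1
    | succ s => exact z1 s (Nat.lt_of_succ_lt_succ hs)

/-- the invariant at the break point `s` -/
def Inv (C : List (List ℕ)) (S : Finset ℝ) (v : ℝ → ℕ → ℝ) (wt : ℕ → ℝ × ℝ) (s : ℝ)
    (x : ℕ → ℝ) : Prop :=
  x 16 - 1 = s ∧ x 32 = 1 ∧
    (∃ x₀, x₀ ∉ S ∧ x₀ < s ∧ (∀ t ∈ S, x₀ < t → s ≤ t) ∧ Agree x (v x₀)) ∧
    ∀ k < C.length, (wt k).1 < s → x (16 * k + 11) = 1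

end URunAux

open URunAux

/-- Let Acc n x say that some path of n steps leads from x to a state with first coordinate
1 (recursion on n); it is monotone in n (an accepting state may stay) and Acc N 0 gives
Run. Invariant at s ∈ S: x 16 - 1 = s, x 32 = 1, Agree x (v x₀) for some x₀ ∉ S,
x₀ < s with no point of S in (x₀, s), and x (16 k + 11) = 1 whenever (wt k).1 < s.
Induction on the number n of points of S above s: Acc (n + 1) x. If there is none, use
exists_step with (ξ', w') = (1, 0), x₁ = s + 1, acc = 1; otherwise with the least such point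
s', w' = 1, x₁ = (s + s') / 2, acc = 0. First step from 0 to the least point s of S
with x₁ = s - 1. -/
theorem run_of_reg (hR : Reg L.length X S v)
    (hroot : ∀ x ∉ S, ∀ i < 8 * L.length + 1, ∀ j < 8 * L.length + 1, root (v x) i j ∈ S)
    (hC : ∀ z, ∃ c ∈ C, Mt L c fun i => z ∈ X i) (wt : ℕ → ℝ × ℝ)
    (hw : ∀ k < C.length, Mt L (C.getD k []) fun i => wt k ∈ X i)
    (hwS : ∀ k < C.length, (wt k).1 ∈ S) (hne : S.Nonempty) {N : ℕ} (hN : S.card + 1 ≤ N) :
    Run L C N := by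
  classical
  have main : ∀ (n : ℕ) (s : ℝ) (x : ℕ → ℝ), (S.filter (s < ·)).card ≤ n → Inv C S v wt s x →
      Acc L C (n + 1) x := by
    intro n
    induction n using Nat.strong_induction_on with
    | _ n ih =>
      rintro s x hn ⟨h1, h2, ⟨x₀, a1, a2, a3, a4⟩, h3⟩
      have bit : ∀ k < C.length, (wt k).1 ≤ s →
          x (16 * k + 11) = 1 ∨ (x 32 = 1 ∧ (wt k).1 = x 16 - 1) := fun k hk hs =>
        hs.lt_or_eq.imp (h3 k hk) fun e => ⟨h2, e.trans h1.symm⟩
      rcases (S.filter (s < ·)).eq_empty_or_nonempty with he | he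
      · have hs : ∀ t ∈ S, t ≤ s := fun t ht => not_lt.1 (Finset.filter_eq_empty_iff.1 he ht)
        have b1 : s + 1 ∉ S := fun h => by linarith [hs _ h]
        obtain ⟨y, y1, y2, -, y4, -, y6⟩ := exists_step hR hroot hC wt hw (x := x) (ξ' := 1)
          (w' := 0) (x₁ := s + 1)
          (Or.inr ⟨h2, x₀, ⟨a1, b1, h1 ▸ a2, by linarith, fun t ht t1 _ =>
            h1 ▸ le_antisymm (hs t ht) (a3 t ht t1)⟩, a4⟩)
          (Or.inr ⟨rfl, rfl⟩) (by rw [h2]; norm_num) b1
          (fun a c1 _ => by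
            rw [h1, h2, mul_one] at c1
            exact ⟨fun h => by linarith [hs _ h], fun t ht =>
              iff_of_true (by linarith [hs t ht]) (by linarith [hs t ht])⟩) 1
        refine Acc.mono (n := 1) ⟨y, Or.inr ⟨y1, fun _ => ⟨y4, fun k hk => ?_⟩⟩, y2⟩ (by omega)
        exact y6 k hk (bit k hk (hs _ (hwS k hk)))
      · obtain ⟨s', m1, m2⟩ := Finset.exists_min_image _ id he
        obtain ⟨m3, m4⟩ := Finset.mem_filter.1 m1
        have hs : ∀ t ∈ S, t ≤ s ∨ s' ≤ t := fun t ht =>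
          (le_or_gt t s).imp_right fun h => m2 t (Finset.mem_filter.2 ⟨ht, h⟩)
        have b1 : (s + s') / 2 ∉ S := fun h => by rcases hs _ h with h | h <;> linarith
        obtain ⟨y, y1, y2, y3, y4, y5, y6⟩ := exists_step hR hroot hC wt hw (x := x) (ξ' := s')
          (w' := 1) (x₁ := (s + s') / 2)
          (Or.inr ⟨h2, x₀, ⟨a1, b1, h1 ▸ a2, by linarith, fun t ht t1 t2 =>
            h1 ▸ le_antisymm ((hs t ht).resolve_right (by linarith)) (a3 t ht t1)⟩, a4⟩)
          (Or.inl rfl) (by rw [h1, h2]; linarith) b1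
          (fun a c1 c2 => by
            rw [h1, h2, mul_one] at c1
            rw [mul_one] at c2
            refine ⟨fun h => by rcases hs _ h with h | h <;> linarith, fun t ht => ?_⟩
            rcases hs t ht with h | h
            · exact iff_of_true (by linarith) (by linarith)
            · exact iff_of_false (by linarith) (by linarith)) 0
        have hc : (S.filter (s' < ·)).card < (S.filter (s < ·)).card := by
          refine Finset.card_lt_card ⟨fun t ht => ?_, fun h => ?_⟩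
          · obtain ⟨t1, t2⟩ := Finset.mem_filter.1 ht
            exact Finset.mem_filter.2 ⟨t1, m4.trans t2⟩
          · exact lt_irrefl _ (Finset.mem_filter.1 (h m1)).2
        have hy := ih _ (hc.trans_le hn) s' y le_rfl ⟨y3, y4, ⟨_, b1, by linarith, fun t ht t1 =>
          (hs t ht).resolve_left (by linarith), y5⟩, fun k hk hlt =>
            y6 k hk (bit k hk ((hs _ (hwS k hk)).resolve_right (not_le.2 hlt)))⟩
        exact ⟨y, Or.inr ⟨y1, fun h => absurd (y2.symm.trans h) zero_ne_one⟩,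
          hy.mono (hc.trans_le hn)⟩
  obtain ⟨s, m1, m2⟩ := Finset.exists_min_image S id hne
  have hs : ∀ t ∈ S, s ≤ t := m2
  have b1 : s - 1 ∉ S := fun h => by linarith [hs _ h]
  obtain ⟨y, y1, y2, y3, y4, y5, -⟩ := exists_step hR hroot hC wt hw (x := 0) (ξ' := s) (w' := 1)
    (x₁ := s - 1) (Or.inl ⟨rfl, rfl⟩) (Or.inl rfl) (by simp) b1
    (fun a _ c2 => by
      rw [mul_one] at c2
      exact ⟨fun h => by linarith [hs _ h], fun t ht =>
        iff_of_false (by linarith [hs t ht]) (by linarith [hs t ht])⟩) 0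
  have hc : (S.filter (s < ·)).card < S.card :=
    Finset.card_lt_card ⟨Finset.filter_subset _ _, fun h =>
      lt_irrefl _ (Finset.mem_filter.1 (h m1)).2⟩
  have hy := main _ s y le_rfl ⟨y3, y4, ⟨_, b1, by linarith, fun t ht _ => hs t ht, y5⟩,
    fun k hk hlt => absurd (hs _ (hwS k hk)) (not_le.2 hlt)⟩
  have h0 : Acc L C (S.card + 1) 0 :=
    ⟨y, Or.inr ⟨y1, fun h => absurd (y2.symm.trans h) zero_ne_one⟩, hy.mono hc⟩
  exact (h0.mono hN).path

end Pool.Agent.Lib.MP_79902f_lc.Up
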