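import Pool.Agent.Lib.MP_79902f_lc.USlope

open Set

noncomputable section

namespace Pool.Agent.Lib.MP_79902f_lc.Up

variable {J : Type} [Fintype J] {ε : J → ℝ} {E : J → Set (ℝ × ℝ)} {m : ℝ} {A : Set ℝ}

/-- If `y = r j` take `r' j`; otherwise `Set.Finite.exists_between'`. -/
theorem exists_same_place (s : Set J) (r r' : J → ℝ)
    (h : ∀ i ∈ s, ∀ j ∈ s, (r i ≤ r j ↔ r' i ≤ r' j)) (y : ℝ) :
    ∃ y', ∀ j ∈ s, (y < r j ↔ y' < r' j) ∧ (y = r j ↔ y' = r' j) := by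
  by_cases hy : ∃ i ∈ s, y = r i
  · obtain ⟨i, hi, rfl⟩ := hy
    refine ⟨r' i, fun j hj => ⟨?_, ?_⟩⟩
    · rw [← not_le, ← not_le, h j hj i hi]
    · rw [le_antisymm_iff, le_antisymm_iff, h j hj i hi, h i hi j hj]
  · obtain ⟨b, h1, h2⟩ := Set.Finite.exists_between'
      ((Set.toFinite {j | j ∈ s ∧ r j < y}).image r')
      ((Set.toFinite {j | j ∈ s ∧ y < r j}).image r') (by
        rintro _ ⟨i, hi, rfl⟩ _ ⟨j, hj, rfl⟩
        rw [← not_le, ← h j hj.1 i hi.1, not_le]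
        exact hi.2.trans hj.2)
    refine ⟨b, fun j hj => ?_⟩
    rcases lt_trichotomy y (r j) with c | c | c
    · have := h2 _ ⟨j, ⟨hj, c⟩, rfl⟩
      exact ⟨iff_of_true c this, iff_of_false c.ne this.ne⟩
    · exact absurd ⟨j, hj, c⟩ hy
    · have := h1 _ ⟨j, ⟨hj, c⟩, rfl⟩
      exact ⟨iff_of_false c.not_gt this.not_gt, iff_of_false c.ne' this.ne'⟩

namespace UShortAux

theorem place {e y y' l t : ℝ} (he : e = 1 ∨ e = -1)
    (h : (y < e * l ↔ y' < e * t) ∧ (y = e * l ↔ y' = e * t)) :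
    (e * y < l ↔ e * y' < t) ∧ (e * y = l ↔ e * y' = t) := by
  rcases he with rfl | rfl
  · simpa using h
  · simp only [neg_mul, one_mul] at h ⊢
    refine ⟨?_, ?_⟩
    · rw [neg_lt, neg_lt (a := y'), ← not_le, ← not_le, le_iff_lt_or_eq, le_iff_lt_or_eq, h.1, h.2]
    · rw [neg_eq_iff_eq_neg, neg_eq_iff_eq_neg, h.2]

/-- reflection in the vertical axis -/
def rf (E : Set (ℝ × ℝ)) : Set (ℝ × ℝ) := {z | (-z.1, z.2) ∈ E}

theorem mem_rf {E : Set (ℝ × ℝ)} {x y : ℝ} : (x, y) ∈ rf E ↔ (-x, y) ∈ E := Iff.rfl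

theorem top_rf (E : Set (ℝ × ℝ)) (x : ℝ) : top (rf E) x = top E (-x) := rfl

theorem dc_rf {E : Set (ℝ × ℝ)} (h : DC E) : DC (rf E) := by
  refine ⟨fun z hz z' hz' a b ha hb hab => ?_, fun x y y' h1 h2 => h.2 (-x) y y' h1 h2⟩
  have h1 := h.1 hz hz' ha hb hab
  have e : a • (-z.1, z.2) + b • (-z'.1, z'.2) = (-(a • z + b • z').1, (a • z + b • z').2) := by
    ext
    · simp only [Prod.smul_mk, Prod.mk_add_mk, Prod.fst_add, Prod.smul_fst, smul_eq_mul]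
      ring
    · simp only [Prod.smul_mk, Prod.mk_add_mk, Prod.snd_add, Prod.smul_snd]
  rw [e] at h1
  exact h1

theorem same_rf {J : Type} {ε : J → ℝ} {E : J → Set (ℝ × ℝ)} {m a : ℝ}
    (h : Same ε E (-m) (-a)) : Same ε (fun j => rf (E j)) m a := h

end UShortAux

/-- Empty `A`: take `E`. Otherwise `cut (E j) m A (κ j)` with `exists_slopes`, `DC.cut`,
`lin_cut`; for `Sub` use `exists_same_place` on the finite `j` and `DC.mem_iff`. -/
theorem short_right (hε : ∀ j, ε j = 1 ∨ ε j = -1) (hE : ∀ j, DC (E j))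
    (hA : ∀ a ∈ A, m < a ∧ Same ε E m a) :
    ∃ E' : J → Set (ℝ × ℝ), (∀ j, DC (E' j)) ∧ (∀ x ∉ St m A, Agr E' E x) ∧
      (∀ x ∈ St m A, Sub ε E' x E m) ∧ ∀ j, Lin (E' j) (St m A) := by
  rcases A.eq_empty_or_nonempty with rfl | hn
  · have h0 : ∀ x, x ∉ St m (∅ : Set ℝ) := fun x hx => by
      obtain ⟨-, a, ha, -⟩ := hx
      exact ha
    exact ⟨E, hE, fun x _ j y => Iff.rfl, fun x hx => absurd hx (h0 x),
      fun j => Or.inl fun x hx => absurd hx (h0 x)⟩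
  obtain ⟨κ, hκ, hord⟩ := exists_slopes hε hE hn hA
  refine ⟨fun j => cut (E j) m A (κ j),
    fun j => (hE j).cut (fun a ha => ⟨(hA a ha).1, (hA a ha).2.1 j⟩) (hκ j),
    fun x hx j y => ?_, fun x hx y => ?_, fun j => lin_cut _ _ _ _⟩
  · exact ⟨fun h => h.elim (fun h => h.2) fun h => absurd h.1 hx, fun h => Or.inl ⟨hx, h⟩⟩
  · obtain ⟨y', hy'⟩ := exists_same_place {j | Ne (E j) m ∧ Bd (E j) m}
      (fun j => ε j * (top (E j) m + κ j * (x - m))) (fun j => ε j * top (E j) m)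
      (fun i hi j hj => hord x hx i j hi.1 hi.2 hj.1 hj.2) y
    refine ⟨y', fun j => ?_⟩
    have e : (x, ε j * y) ∈ cut (E j) m A (κ j) ↔ Ne (E j) m ∧ (¬ Bd (E j) m ∨
        ε j * y < top (E j) m + κ j * (x - m) ∨
          (Cl (E j) m ∧ ε j * y = top (E j) m + κ j * (x - m))) :=
      ⟨fun h => h.elim (fun h => absurd hx h.1) fun h => h.2, fun h => Or.inr ⟨hx, h⟩⟩
    rw [e]
    by_cases h1 : Ne (E j) m
    · by_cases h2 : Bd (E j) m
      · have h3 := UShortAux.place (hε j) (hy' j ⟨h1, h2⟩)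
        rw [(hE j).mem_iff h1 h2, h3.1, h3.2]
        exact ⟨fun h => h.2.resolve_left (not_not.2 h2), fun h => ⟨h1, Or.inr h⟩⟩
      · exact iff_of_true ⟨h1, Or.inl h2⟩ (by_contra fun h => h2 ⟨_, h⟩)
    · exact iff_of_false (fun h => h1 h.1) fun h => h1 ⟨_, h⟩

/-- Reflect in the vertical axis: apply short_right to the preimages under
(x, y) ↦ (-x, y), the point -m and the set -A. -/
theorem short_left (hε : ∀ j, ε j = 1 ∨ ε j = -1) (hE : ∀ j, DC (E j))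
    (hA : ∀ a ∈ A, a < m ∧ Same ε E m a) :
    ∃ E' : J → Set (ℝ × ℝ), (∀ j, DC (E' j)) ∧ (∀ x, ¬ (x < m ∧ ∃ a ∈ A, a < x) → Agr E' E x) ∧
      (∀ x, x < m → (∃ a ∈ A, a < x) → Sub ε E' x E m) ∧
      ∀ j, Lin (E' j) {x | x < m ∧ ∃ a ∈ A, a < x} := by
  obtain ⟨F, h1, h2, h3, h4⟩ := short_right (ε := ε) (E := fun j => UShortAux.rf (E j)) (m := -m)
    (A := {a | -a ∈ A}) hε (fun j => UShortAux.dc_rf (hE j)) fun a ha =>
      ⟨neg_lt.1 (hA _ ha).1, UShortAux.same_rf (by rw [neg_neg]; exact (hA _ ha).2)⟩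
  have hs : ∀ x, -x ∈ St (-m) {a | -a ∈ A} ↔ x < m ∧ ∃ a ∈ A, a < x := by
    intro x
    refine and_congr neg_lt_neg_iff ⟨?_, ?_⟩
    · rintro ⟨a, ha, h⟩
      exact ⟨-a, ha, neg_lt.1 h⟩
    · rintro ⟨a, ha, h⟩
      exact ⟨-a, by simpa using ha, neg_lt_neg h⟩
  refine ⟨fun j => UShortAux.rf (F j), fun j => UShortAux.dc_rf (h1 j), fun x hx j y => ?_,
    fun x hx ha y => ?_, fun j => ?_⟩
  · have := h2 (-x) (fun h => hx ((hs x).1 h)) j y
    rw [UShortAux.mem_rf, neg_neg] at this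
    exact this
  · obtain ⟨y', hy'⟩ := h3 (-x) ((hs x).2 ⟨hx, ha⟩) y
    refine ⟨y', fun j => ?_⟩
    have := hy' j
    rw [UShortAux.mem_rf, neg_neg] at this
    exact this
  · rcases h4 j with h | h | ⟨κ, β, h⟩
    · exact Or.inl fun x hx y => h (-x) ((hs x).2 hx) y
    · exact Or.inr (Or.inl fun x hx y => h (-x) ((hs x).2 hx) y)
    · refine Or.inr (Or.inr ⟨-κ, β, fun x hx y => ?_⟩)
      have := h (-x) ((hs x).2 hx) y
      rw [mul_neg, ← neg_mul] at this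
      exact this

end Pool.Agent.Lib.MP_79902f_lc.Up
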