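import Pool.Agent.Lib.MP_79902f_lc.UDefs

open Set

noncomputable section

namespace Pool.Agent.Lib.MP_79902f_lc.Up

variable {L : List ℕ} {C : List (List ℕ)} {u v u' v' : ℕ → ℝ} {X Y W d X' Y' W' d' : ℝ}

theorem SS.rfl' (a : ℝ) : SS a a := ⟨Iff.rfl, Iff.rfl⟩

theorem SS.symm {a b : ℝ} (h : SS a b) : SS b a := ⟨h.1.symm, h.2.symm⟩

theorem SS.trans {a b c : ℝ} (h : SS a b) (h' : SS b c) : SS a c :=
  ⟨h.1.trans h'.1, h.2.trans h'.2⟩

theorem SS.lx {a b a' b' : ℝ} (h : SS a a') (h' : SS b b') : SS (lx a b) (lx a' b') := by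
  unfold Up.lx
  by_cases ha : a = 0
  · rw [if_pos ha, if_pos (h.2.1 ha)]; exact h'
  · rw [if_neg ha, if_neg fun k => ha (h.2.2 k)]; exact h

theorem SS.mul_pos {c : ℝ} (hc : 0 < c) (a : ℝ) : SS (c * a) a :=
  ⟨⟨fun h => by nlinarith, fun h => mul_neg_of_pos_of_neg hc h⟩,
    by simp [hc.ne']⟩

theorem lx_neg_iff {a b : ℝ} : lx a b < 0 ↔ a < 0 ∨ (a = 0 ∧ b < 0) := by
  unfold lx
  by_cases ha : a = 0 <;> simp [ha]

theorem fd_zero (v : ℕ → ℝ) (f : ℕ) (X Y W : ℝ) : fd v f X Y W 0 = fm v f X Y W := by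
  unfold fd lx
  split_ifs with h <;> simp [h]

theorem inN_congr {m i : ℕ} (hi : i < m)
    (h : ∀ f < 8 * m, SS (fd v f X Y W d) (fd v f X' Y' W' d')) :
    inN v i X Y W d ↔ inN v i X' Y' W' d' :=
  forall₂_congr fun k hk =>
    ((h _ (by omega)).lx ((h _ (by omega)).lx (SS.rfl' _))).1

theorem Ok.congr (h : Ok L C u v X Y W d)
    (hu : ∀ f < 8 * L.length, SS (fd u f X Y W d) (fd u f X' Y' W' d'))
    (hv : ∀ f < 8 * L.length, SS (fd v f X Y W d) (fd v f X' Y' W' d')) :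
    Ok L C u v X' Y' W' d' := by
  obtain ⟨c, hc, hm⟩ := h
  exact ⟨c, hc, fun i hi =>
    (and_congr (inN_congr hi hu) (inN_congr hi hv)).symm.trans (hm i hi)⟩

theorem Agree.rfl' (u : ℕ → ℝ) : Agree u u := fun _ _ _ => rfl

theorem Agree.symm (h : Agree u v) : Agree v u := fun a h1 h2 => (h a h1 h2).symm

theorem Agree.at (h : Agree u v) (f t : ℕ) (h1 : 1 ≤ t) (h2 : t ≤ 4) :
    u (16 * f + t) = v (16 * f + t) := h _ (by omega) (by omega)

theorem Agree.fm (h : Agree u v) : fm u = fm v := by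
  funext f X Y W
  simp only [Up.fm, h.at f 1, h.at f 2, h.at f 3, le_refl, Nat.reduceLeDiff]

theorem Agree.fd (h : Agree u v) : fd u = fd v := by
  funext f X Y W d
  simp only [Up.fd, h.fm, h.at f 2, Nat.reduceLeDiff]

theorem Agree.tr (h : Agree u v) : tr u = tr v := by
  funext r X Y W d
  simp only [Up.tr, h.fd, h.at r 4, le_refl, Nat.reduceLeDiff]

theorem Agree.inN (h : Agree u v) : inN u = inN v := by
  funext i X Y W d
  simp only [Up.inN, h.tr]

theorem Agree.col (h : Agree u u') (h' : Agree v v') : Col L C u v = Col L C u' v' := by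
  funext ξ w ξ' w' p p' q q'
  have e : ∀ j, u (16 * j + 2) = u' (16 * j + 2) := fun j => h.at j 2 (by omega) (by omega)
  have e' : ∀ j, v (16 * j + 2) = v' (16 * j + 2) := fun j => h'.at j 2 (by omega) (by omega)
  simp only [Col, Cel, Ok, h.fm, h'.fm, h.inN, h'.inN, e, e']

theorem Agree.tn (h : Agree u u') (h' : Agree v v') : Tn u v = Tn u' v' := by
  funext s r l l'
  simp only [Tn, Eq3, h.at _ 1, h.at _ 2, h.at _ 3, h.at _ 4, h'.at _ 1, h'.at _ 2, h'.at _ 3,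
    h'.at _ 4, le_refl, Nat.reduceLeDiff]

end Pool.Agent.Lib.MP_79902f_lc.Up
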