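import Pool.Agent.Lib.MP_79902f_lc.UCut

open Set

noncomputable section

namespace Pool.Agent.Lib.MP_79902f_lc.Up

namespace USlopeAux

/-- all points strictly under (x, y) are in the set -/
def Un (E : Set (ℝ × ℝ)) (x y : ℝ) : Prop := ∀ y' < y, (x, y') ∈ E

theorem un_of_mem {E : Set (ℝ × ℝ)} (hE : DC E) {x y : ℝ} (h : (x, y) ∈ E) : Un E x y :=
  fun y' hy => hE.2 x y y' h hy.le

theorem un_top {E : Set (ℝ × ℝ)} (hE : DC E) {x : ℝ} (hn : Ne E x) (hb : Bd E x) :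
    Un E x (top E x) :=
  fun y' hy => (hE.mem_iff hn hb y').2 (Or.inl hy)

theorem le_top' {E : Set (ℝ × ℝ)} (hE : DC E) {x y : ℝ} (hb : Bd E x) (h : (x, y) ∈ E) :
    y ≤ top E x := by
  rcases (hE.mem_iff ⟨y, h⟩ hb y).1 h with h1 | h1
  · exact h1.le
  · exact h1.2.le

theorem conc {E : Set (ℝ × ℝ)} (hE : DC E) {x₁ x₂ x₃ y₁ y₃ : ℝ} (h₁ : Un E x₁ y₁)
    (h₃ : Un E x₃ y₃) (hb : Bd E x₂) (k₁ : x₁ ≤ x₂) (k₃ : x₂ ≤ x₃) (k : x₁ < x₃) :
    (x₃ - x₂) * y₁ + (x₂ - x₁) * y₃ ≤ (x₃ - x₁) * top E x₂ := by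
  have hp : 0 < x₃ - x₁ := sub_pos.2 k
  have key : ((x₃ - x₂) * y₁ + (x₂ - x₁) * y₃) / (x₃ - x₁) ≤ top E x₂ := by
    refine le_of_forall_pos_le_add fun δ hδ => ?_
    have hm : (x₂, ((x₃ - x₂) * y₁ + (x₂ - x₁) * y₃) / (x₃ - x₁) - δ) ∈ E := by
      refine hE.chord (h₁ (y₁ - δ) (by linarith)) (h₃ (y₃ - δ) (by linarith)) k₁ k₃ k ?_
      rw [mul_sub, mul_div_cancel₀ _ hp.ne']
      exact le_of_eq (by ring)
    have := le_top' hE hb hm
    linarith
  rw [div_le_iff₀ hp] at key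
  linarith

/-- the chord slope from `m` to `a` -/
def sl (E : Set (ℝ × ℝ)) (m a : ℝ) : ℝ := (top E a - top E m) / (a - m)

theorem sl_mul (E : Set (ℝ × ℝ)) {m a : ℝ} (h : m < a) :
    top E a = top E m + sl E m a * (a - m) := by
  unfold sl
  rw [div_mul_cancel₀ _ (sub_pos.2 h).ne']
  ring

theorem le_sl {E : Set (ℝ × ℝ)} (hE : DC E) {m a x y : ℝ} (hn : Ne E m) (hb : Bd E m)
    (hba : Bd E a) (h : m < a) (hx : a ≤ x) (hy : Un E x y) :
    (y - top E m) / (x - m) ≤ sl E m a := by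
  have h1 := conc hE (un_top hE hn hb) hy hba h.le hx (lt_of_lt_of_le h hx)
  unfold sl
  rw [div_le_div_iff₀ (by linarith) (by linarith)]
  nlinarith

theorem left_le {E : Set (ℝ × ℝ)} (hE : DC E) {m a x y : ℝ} (hb : Bd E m)
    (hna : Ne E a) (hba : Bd E a) (h : m < a) (hx : x ≤ m) (hy : (x, y) ∈ E) :
    y ≤ top E m + sl E m a * (x - m) := by
  have h1 := conc hE (un_of_mem hE hy) (un_top hE hna hba) hb hx h.le (lt_of_le_of_lt hx h)
  rw [sl_mul E h] at h1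
  have hp : 0 < a - m := sub_pos.2 h
  have h2 : (a - m) * y ≤ (a - m) * (top E m + sl E m a * (x - m)) := by nlinarith
  exact le_of_mul_le_mul_left h2 hp

theorem clamp_le {e e' s s' M d : ℝ} (he : e = 1 ∨ e = -1) (he' : e' = 1 ∨ e' = -1)
    (hM : 0 ≤ M) (hs : s ≤ M) (hs' : s' ≤ M) (hd : 0 ≤ d) (h : e * s ≤ e' * s' + d) :
    e * max s (-M) ≤ e' * max s' (-M) + d := by
  rcases he with rfl | rfl <;> rcases he' with rfl | rfl <;>
    rcases le_total s (-M) with h1 | h1 <;> rcases le_total s' (-M) with h2 | h2 <;>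
    simp only [max_eq_left, max_eq_right, h1, h2] <;> linarith

theorem exists_ge {A : Set ℝ} {a b : ℝ} (ha : a ∈ A) (hb : b ∈ A) :
    ∃ c ∈ A, a ≤ c ∧ b ≤ c := by
  rcases le_total a b with h | h
  · exact ⟨b, hb, h, le_rfl⟩
  · exact ⟨a, ha, le_rfl, h⟩

end USlopeAux

open USlopeAux

variable {J : Type} [Fintype J] {ε : J → ℝ} {E : J → Set (ℝ × ℝ)} {m : ℝ} {A : Set ℝ}

/-- Call j finite if Ne (E j) m and Bd (E j) m; σ j a = (top a - top m) / (a - m) is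
antitone on A for finite j (DC.chord with points slightly under the tops, DC.mem_iff). Fix
a₀ ∈ A and M ≥ 0 with |σ j a₀| ≤ M for all j and -M ≤ σ j a for all a ∈ A whenever
σ j is bounded below on A. Let κ j be the infimum of max (σ j a) (-M) over a ∈ A; it is
the limit along atTop of the subtype A (tendsto_atTop_ciInf). Good: left of m use
κ ≤ σ a₀; a point (x, y) ∈ E j with m < x ∉ St has (y - top m) / (x - m) ≤ σ a for all a.
Order: for a ≥ a₀, ε * max σ (-M) = max (min (ε σ) M) (-M), and this clamp is monotone and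
1-Lipschitz. If δ = ε j top j m - ε i top i m ≥ 0 and x < a₁ ≤ a then
ε i σ i a ≤ ε j σ j a + δ / (a₁ - m); pass to the limit; strict if δ > 0. -/
theorem exists_slopes (hε : ∀ j, ε j = 1 ∨ ε j = -1) (hE : ∀ j, DC (E j)) (hn : A.Nonempty)
    (hA : ∀ a ∈ A, m < a ∧ Same ε E m a) :
    ∃ κ : J → ℝ, (∀ j, Ne (E j) m → Bd (E j) m → Good (E j) m A (κ j)) ∧
      ∀ x ∈ St m A, ∀ i j, Ne (E i) m → Bd (E i) m → Ne (E j) m → Bd (E j) m →
        (ε i * (top (E i) m + κ i * (x - m)) ≤ ε j * (top (E j) m + κ j * (x - m)) ↔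
          ε i * top (E i) m ≤ ε j * top (E j) m) := by
  obtain ⟨a₀, ha₀⟩ := hn
  have hB : ∀ j, ∃ b : ℝ, 0 ≤ b ∧ |sl (E j) m a₀| ≤ b ∧
      ∀ c : ℝ, (∀ a ∈ A, c ≤ sl (E j) m a) → ∀ a ∈ A, -b ≤ sl (E j) m a := by
    intro j
    by_cases hc : ∃ c : ℝ, ∀ a ∈ A, c ≤ sl (E j) m a
    · obtain ⟨c, hc⟩ := hc
      refine ⟨|sl (E j) m a₀| + |c|, by positivity, by linarith [abs_nonneg c], ?_⟩
      intro _ _ a ha
      linarith [hc a ha, abs_nonneg (sl (E j) m a₀), neg_abs_le c]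
    · exact ⟨|sl (E j) m a₀|, abs_nonneg _, le_rfl, fun c h => absurd ⟨c, h⟩ hc⟩
  choose B hB0 hB1 hB2 using hB
  obtain ⟨M, hM0, hM⟩ : ∃ M : ℝ, 0 ≤ M ∧ ∀ j, B j ≤ M :=
    ⟨∑ j, B j, Finset.sum_nonneg fun j _ => hB0 j,
      fun j => Finset.single_le_sum (fun i _ => hB0 i) (Finset.mem_univ j)⟩
  have hna : ∀ j, Ne (E j) m → ∀ a ∈ A, Ne (E j) a := fun j h a ha => ((hA a ha).2.1 j).1.2 h
  have hba : ∀ j, Bd (E j) m → ∀ a ∈ A, Bd (E j) a := fun j h a ha => ((hA a ha).2.1 j).2.1.2 h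
  have anti : ∀ j, Ne (E j) m → Bd (E j) m → ∀ a ∈ A, ∀ a' ∈ A, a ≤ a' →
      sl (E j) m a' ≤ sl (E j) m a := fun j h1 h2 a ha a' ha' h =>
    le_sl (hE j) h1 h2 (hba j h2 a ha) (hA a ha).1 h
      (un_top (hE j) (hna j h1 a' ha') (hba j h2 a' ha'))
  obtain ⟨κ, hκ1, hκ2⟩ : ∃ κ : J → ℝ, (∀ j, ∀ a ∈ A, κ j ≤ max (sl (E j) m a) (-M)) ∧
      ∀ j c, (∀ a ∈ A, c ≤ max (sl (E j) m a) (-M)) → c ≤ κ j := by
    refine ⟨fun j => sInf ((fun a => max (sl (E j) m a) (-M)) '' A), fun j a ha => ?_,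
      fun j c hc => ?_⟩
    · refine csInf_le ⟨-M, ?_⟩ ⟨a, ha, rfl⟩
      rintro _ ⟨a', _, rfl⟩
      exact le_max_right _ _
    · refine le_csInf ⟨_, a₀, ha₀, rfl⟩ ?_
      rintro _ ⟨a', ha', rfl⟩
      exact hc a' ha'
  have near : ∀ j, Ne (E j) m → Bd (E j) m → ∀ η : ℝ, 0 < η → ∃ b ∈ A, ∀ a ∈ A, b ≤ a →
      max (sl (E j) m a) (-M) ≤ κ j + η := by
    intro j h1 h2 η hη
    by_contra hc
    push Not at hc
    have : κ j + η ≤ κ j := by
      refine hκ2 j _ fun b hb => ?_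
      obtain ⟨a, ha, hba', hlt⟩ := hc b hb
      exact hlt.le.trans (max_le_max (anti j h1 h2 b hb a ha hba') le_rfl)
    linarith
  have far : ∀ j c x y, Ne (E j) m → Bd (E j) m → (x, y) ∈ E j → m < x → x ∉ St m A →
      c = (y - top (E j) m) / (x - m) → ∀ a ∈ A, c ≤ sl (E j) m a := by
    intro j c x y h1 h2 hxy hx hst hc a ha
    have hax : a ≤ x := by
      by_contra hlt
      exact hst ⟨hx, a, ha, not_le.1 hlt⟩
    rw [hc]
    exact le_sl (hE j) h1 h2 (hba j h2 a ha) (hA a ha).1 hax (un_of_mem (hE j) hxy)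
  have main : ∀ a₁ ∈ A, ∀ i j, Ne (E i) m → Bd (E i) m → Ne (E j) m → Bd (E j) m →
      ε i * top (E i) m ≤ ε j * top (E j) m →
      ε i * κ i ≤ ε j * κ j + (ε j * top (E j) m - ε i * top (E i) m) / (a₁ - m) := by
    intro a₁ ha₁ i j hi1 hi2 hj1 hj2 hle
    have hp1 : 0 < a₁ - m := sub_pos.2 (hA a₁ ha₁).1
    have hδ : 0 ≤ ε j * top (E j) m - ε i * top (E i) m := sub_nonneg.2 hle
    have hd : 0 ≤ (ε j * top (E j) m - ε i * top (E i) m) / (a₁ - m) := div_nonneg hδ hp1.le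
    refine le_of_forall_pos_le_add fun η hη => ?_
    obtain ⟨bi, hbi, hbi'⟩ := near i hi1 hi2 (η / 2) (by linarith)
    obtain ⟨bj, hbj, hbj'⟩ := near j hj1 hj2 (η / 2) (by linarith)
    obtain ⟨c₁, hc₁, k1, k2⟩ := exists_ge hbi hbj
    obtain ⟨c₂, hc₂, k3, k4⟩ := exists_ge ha₀ ha₁
    obtain ⟨a, ha, k5, k6⟩ := exists_ge hc₁ hc₂
    have hp : 0 < a - m := sub_pos.2 (hA a ha).1
    have hsame := ((hA a ha).2.2 i j).2 hle
    rw [sl_mul (E i) (hA a ha).1, sl_mul (E j) (hA a ha).1] at hsame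
    have h1 : ε i * sl (E i) m a ≤ ε j * sl (E j) m a +
        (ε j * top (E j) m - ε i * top (E i) m) / (a - m) := by
      rw [← sub_le_iff_le_add', le_div_iff₀ hp]
      nlinarith
    have h2 : (ε j * top (E j) m - ε i * top (E i) m) / (a - m) ≤
        (ε j * top (E j) m - ε i * top (E i) m) / (a₁ - m) :=
      div_le_div_of_nonneg_left hδ hp1 (by linarith)
    have hsi : sl (E i) m a ≤ M :=
      (anti i hi1 hi2 a₀ ha₀ a ha (k3.trans k6)).trans
        ((le_abs_self _).trans ((hB1 i).trans (hM i)))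
    have hsj : sl (E j) m a ≤ M :=
      (anti j hj1 hj2 a₀ ha₀ a ha (k3.trans k6)).trans
        ((le_abs_self _).trans ((hB1 j).trans (hM j)))
    have h3 := clamp_le (hε i) (hε j) hM0 hsi hsj hd (h1.trans (by linarith))
    have u1 := hbi' a ha (k1.trans k5)
    have u2 := hbj' a ha (k2.trans k5)
    have l1 := hκ1 i a ha
    have l2 := hκ1 j a ha
    rcases hε i with e1 | e1 <;> rcases hε j with e2 | e2 <;> rw [e1, e2] at h3 ⊢ <;> linarith
  refine ⟨κ, fun j h1 h2 => ⟨fun x y hxy hst => ?_, ?_⟩, ?_⟩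
  · rcases le_or_gt x m with hx | hx
    · have h3 := left_le (hE j) h2 (hna j h1 a₀ ha₀) (hba j h2 a₀ ha₀) (hA a₀ ha₀).1 hx hxy
      have h4 := hκ1 j a₀ ha₀
      rw [max_eq_left (by linarith [neg_abs_le (sl (E j) m a₀), hB1 j, hM j])] at h4
      nlinarith
    · have h3 : (y - top (E j) m) / (x - m) ≤ κ j :=
        hκ2 j _ fun a ha => (far j _ x y h1 h2 hxy hx hst rfl a ha).trans (le_max_left _ _)
      rw [div_le_iff₀ (sub_pos.2 hx)] at h3
      linarith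
  · rintro ⟨x, y, hxy, hx, hst⟩ a ha
    have h3 := hB2 j _ (far j _ x y h1 h2 hxy hx hst rfl) a ha
    have h4 := hκ1 j a ha
    rw [max_eq_left (by linarith [hM j])] at h4
    rw [sl_mul (E j) (hA a ha).1]
    have hp : 0 < a - m := sub_pos.2 (hA a ha).1
    nlinarith
  · rintro x ⟨hx, a₁, ha₁, hxa⟩ i j hi1 hi2 hj1 hj2
    have hp : 0 < x - m := sub_pos.2 hx
    have hp1 : 0 < a₁ - m := by linarith
    constructor
    · intro h
      by_contra hc
      have hlt := not_le.1 hc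
      have h1 := main a₁ ha₁ j i hj1 hj2 hi1 hi2 hlt.le
      have h2 : (ε i * top (E i) m - ε j * top (E j) m) / (a₁ - m) * (x - m) <
          ε i * top (E i) m - ε j * top (E j) m := by
        rw [div_mul_eq_mul_div, div_lt_iff₀ hp1]
        exact mul_lt_mul_of_pos_left (by linarith) (sub_pos.2 hlt)
      have h3 := mul_le_mul_of_nonneg_right h1 hp.le
      nlinarith
    · intro h
      have h1 := main a₁ ha₁ i j hi1 hi2 hj1 hj2 h
      have h2 : (ε j * top (E j) m - ε i * top (E i) m) / (a₁ - m) * (x - m) ≤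
          ε j * top (E j) m - ε i * top (E i) m := by
        rw [div_mul_eq_mul_div, div_le_iff₀ hp1]
        exact mul_le_mul_of_nonneg_left (by linarith) (sub_nonneg.2 h)
      have h3 := mul_le_mul_of_nonneg_right h1 hp.le
      nlinarith

end Pool.Agent.Lib.MP_79902f_lc.Up
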