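import Pool.Agent.Lib.MP_79902f_lc.UCol

open Set

noncomputable section

namespace Pool.Agent.Lib.MP_79902f_lc.Up

variable {L : List ℕ} {C : List (List ℕ)} {X : ℕ → Set (ℝ × ℝ)} {S : Finset ℝ} {v : ℝ → ℕ → ℝ}

namespace UStepAux

/-- a state vector from its entries by kind and index -/
def mk (g : ℕ → ℕ → ℝ) (a : ℕ) : ℝ := g (a % 16) (a / 16)

theorem mk_at (g : ℕ → ℕ → ℝ) (j t : ℕ) (ht : t < 16) : mk g (16 * j + t) = g t j := by
  unfold mk
  rw [show (16 * j + t) % 16 = t by omega, show (16 * j + t) / 16 = j by omega]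

/-- the entries -/
def ent (acc ξ' w' : ℝ) (s : ℕ → ℝ) (f5 f6 f7 f8 f9 f10 f11 f12 : ℕ → ℝ) : ℕ → ℕ → ℝ
  | 0, j => if j = 0 then acc else if j = 1 then ξ' + 1 else w'
  | 5, j => f5 j
  | 6, j => f6 j
  | 7, j => f7 j
  | 8, j => f8 j
  | 9, j => f9 j
  | 10, j => f10 j
  | 11, j => f11 j
  | 12, j => f12 j
  | t, j => s (16 * j + t)

theorem exists_vec (acc ξ' w' : ℝ) (s : ℕ → ℝ) (f5 f6 f7 f8 f9 f10 f11 f12 : ℕ → ℝ) :
    ∃ y : ℕ → ℝ, y 0 = acc ∧ y 16 - 1 = ξ' ∧ y 32 = w' ∧ Agree y s ∧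
      (∀ j, y (16 * j + 5) = f5 j) ∧ (∀ j, y (16 * j + 6) = f6 j) ∧ (∀ j, y (16 * j + 7) = f7 j) ∧
      (∀ j, y (16 * j + 8) = f8 j) ∧ (∀ j, y (16 * j + 9) = f9 j) ∧
      (∀ j, y (16 * j + 10) = f10 j) ∧ (∀ j, y (16 * j + 11) = f11 j) ∧
      ∀ j, y (16 * j + 12) = f12 j := by
  refine ⟨mk (ent acc ξ' w' s f5 f6 f7 f8 f9 f10 f11 f12), ?_, ?_, ?_, ?_,
    fun j => mk_at _ j 5 (by omega), fun j => mk_at _ j 6 (by omega),
    fun j => mk_at _ j 7 (by omega), fun j => mk_at _ j 8 (by omega),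
    fun j => mk_at _ j 9 (by omega), fun j => mk_at _ j 10 (by omega),
    fun j => mk_at _ j 11 (by omega), fun j => mk_at _ j 12 (by omega)⟩
  · have h := mk_at (ent acc ξ' w' s f5 f6 f7 f8 f9 f10 f11 f12) 0 0 (by omega)
    simpa [ent] using h
  · have h := mk_at (ent acc ξ' w' s f5 f6 f7 f8 f9 f10 f11 f12) 1 0 (by omega)
    have h' : mk (ent acc ξ' w' s f5 f6 f7 f8 f9 f10 f11 f12) 16 = ξ' + 1 := by
      simpa [ent] using h
    rw [h']
    ring
  · have h := mk_at (ent acc ξ' w' s f5 f6 f7 f8 f9 f10 f11 f12) 2 0 (by omega)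
    simpa [ent] using h
  · intro a h1 h2
    have e : 16 * (a / 16) + a % 16 = a := Nat.div_add_mod a 16
    have c : a % 16 = 1 ∨ a % 16 = 2 ∨ a % 16 = 3 ∨ a % 16 = 4 := by omega
    unfold mk
    rcases c with c | c | c | c <;> rw [c] at e ⊢ <;> exact congrArg s e

end UStepAux

open UStepAux

/-- Define y a by cases on a % 16, index a / 16: kind 0 from acc, ξ' + 1, w'; kinds
1 to 4 from v x₁; 5, 6 the multipliers of Reg.line (chosen, for the x₀ of hx; anything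
in the first case); 7, 8 are eta (v x₁) j ξ w and eta (v x₁) j ξ' w'; 9, 10 are
eta (v x₀) j ξ 1, eta (v x₁) j ξ 1; 11 is 1 or 0 according to the hypothesis in the last
clause; 12 is (wt k).2. Rewrite with Agree.col, Agree.tn, Agree.inN. Strip:
Col.complete, where a point a ξ + a' ξ' with a w + a' w' = 1 lies in gap S x₁ by hg
(Reg.const, Reg.strip, hC), and sign_of_root (a root is in S, so not in the gap). Line:
Col.complete with mul_self_nonneg and Reg.line. -/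
theorem exists_step (hR : Reg L.length X S v)
    (hroot : ∀ x ∉ S, ∀ i < 8 * L.length + 1, ∀ j < 8 * L.length + 1, root (v x) i j ∈ S)
    (hC : ∀ z, ∃ c ∈ C, Mt L c fun i => z ∈ X i) (wt : ℕ → ℝ × ℝ)
    (hw : ∀ k < C.length, Mt L (C.getD k []) fun i => wt k ∈ X i) {x : ℕ → ℝ} {ξ' w' x₁ : ℝ}
    (hx : (x 16 = 0 ∧ x 32 = 0) ∨ (x 32 = 1 ∧ ∃ x₀, Adj S x₀ (x 16 - 1) x₁ ∧ Agree x (v x₀)))
    (he : w' = 1 ∨ (w' = 0 ∧ ξ' = 1)) (hd : (x 16 - 1) * w' < ξ' * x 32) (h₁ : x₁ ∉ S)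
    (hg : ∀ a, x 16 - 1 < a * x 32 → a * w' < ξ' → a ∈ gap S x₁) (acc : ℝ) :
    ∃ y, Nrm L C x y ∧ y 0 = acc ∧ y 16 - 1 = ξ' ∧ y 32 = w' ∧ Agree y (v x₁) ∧
      ∀ k < C.length, (x (16 * k + 11) = 1 ∨ (x 32 = 1 ∧ (wt k).1 = x 16 - 1)) →
        y (16 * k + 11) = 1 := by
  classical
  have hw0 : 0 ≤ x 32 := by
    rcases hx with h | h
    · exact h.2.ge
    · rw [h.1]; exact zero_le_one
  have hw1 : 0 ≤ w' := by
    rcases he with h | h
    · rw [h]; exact zero_le_one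
    · exact h.1.ge
  have hww : 0 < x 32 + w' := by
    rcases hx with h | h
    · rw [h.1, h.2] at hd
      rw [h.2]
      linarith
    · rw [h.1]; linarith
  obtain ⟨x₀, l, l', H⟩ : ∃ (x₀ : ℝ) (l l' : ℕ → ℝ), x 32 = 1 → Adj S x₀ (x 16 - 1) x₁ ∧
      Agree x (v x₀) ∧ ∀ r < 4 * L.length, Tn (v x₀) (v x₁) (x 16 - 1) r (l r) (l' r) := by
    rcases hx with h | ⟨-, x₀, h1, h2⟩
    · exact ⟨0, 0, 0, fun k => absurd (h.2.symm.trans k) zero_ne_one⟩
    · have h3 := (hR.line _ _ _ h1).1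
      choose! l l' hl using h3
      exact ⟨x₀, l, l', fun _ => ⟨h1, h2, hl⟩⟩
  obtain ⟨y, y0, y1, y2, ya, y5, y6, y7, y8, y9, y10, y11, y12⟩ := exists_vec acc ξ' w' (v x₁) l l'
    (fun j => eta (v x₁) j (x 16 - 1) (x 32)) (fun j => eta (v x₁) j ξ' w')
    (fun j => eta (v x₀) j (x 16 - 1) 1) (fun j => eta (v x₁) j (x 16 - 1) 1)
    (fun k => if x (16 * k + 11) = 1 ∨ (x 32 = 1 ∧ (wt k).1 = x 16 - 1) then 1 else 0)
    (fun k => (wt k).2)
  refine ⟨y, ⟨?_, ?_, ?_, fun h1 => ⟨fun r hr => ?_, ?_⟩, fun k hk h1 => ?_⟩, y0, y1, y2, ya,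
    fun k _ h => ?_⟩
  · rw [y1, y2]; exact he
  · rw [y1, y2]; exact hd
  · simp only [y1, y2, y7, y8]
    rw [Agree.col ya ya]
    refine Col.complete hww (fun a a' ha ha' hs Y => ?_) (fun s hs s' hs' i hi j hj => ?_)
    · have hp : 0 < ξ' * x 32 - (x 16 - 1) * w' := sub_pos.2 hd
      have hm : a * (x 16 - 1) + a' * ξ' ∈ gap S x₁ := by
        refine hg _ ?_ ?_
        · have e : (a * (x 16 - 1) + a' * ξ') * x 32 - (x 16 - 1) * (a * x 32 + a' * w')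
              = a' * (ξ' * x 32 - (x 16 - 1) * w') := by ring
          rw [hs] at e
          linarith [mul_pos ha' hp]
        · have e : ξ' * (a * x 32 + a' * w') - (a * (x 16 - 1) + a' * ξ') * w'
              = a * (ξ' * x 32 - (x 16 - 1) * w') := by ring
          rw [hs] at e
          linarith [mul_pos ha hp]
      obtain ⟨c, hc, hm'⟩ := hC (a * (x 16 - 1) + a' * ξ', Y)
      refine ⟨c, hc, fun i hi => ?_⟩
      have h2 := hR.strip _ hm.1 i hi Y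
      rw [hR.const x₁ h₁ _ hm] at h2
      exact (and_self_iff.trans h2).trans (hm' i hi)
    · have e1 : s = v x₁ := by simpa using hs
      have e2 : s' = v x₁ := by simpa using hs'
      rw [e1, e2]
      exact sign_of_root (v x₁) i j hw0 hw1 hd fun k => (hg _ k.1 k.2).1 (hroot x₁ h₁ i hi j hj)
  · obtain ⟨-, ha, hl⟩ := H h1
    rw [y5, y6, Agree.tn ha ya]
    exact hl r hr
  · obtain ⟨hA, ha, -⟩ := H h1
    simp only [y9, y10]
    rw [Agree.col ha ya]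
    refine Col.complete (by norm_num) (fun a a' _ _ hs Y => ?_)
      (fun s _ s' _ i _ j _ => mul_self_nonneg _)
    have e : a * (x 16 - 1) + a' * (x 16 - 1) = x 16 - 1 := by
      have e1 : a * (x 16 - 1) + a' * (x 16 - 1) = (a * 1 + a' * 1) * (x 16 - 1) := by ring
      rw [e1, hs, one_mul]
    rw [e]
    obtain ⟨c, hc, hm'⟩ := hC (x 16 - 1, Y)
    exact ⟨c, hc, fun i hi => ((hR.line _ _ _ hA).2 i hi Y).trans (hm' i hi)⟩
  · rw [y11] at h1
    have h2 : x (16 * k + 11) = 1 ∨ (x 32 = 1 ∧ (wt k).1 = x 16 - 1) := by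
      by_contra hn
      rw [if_neg hn] at h1
      exact zero_ne_one h1
    rcases h2 with h2 | ⟨h2, h3⟩
    · exact Or.inl h2
    · obtain ⟨hA, ha, -⟩ := H h2
      refine Or.inr ⟨h2, fun i hi => ?_⟩
      rw [y12, ha.inN, ya.inN]
      refine ((hR.line _ _ _ hA).2 i hi (wt k).2).trans ?_
      rw [← h3]
      exact hw k hk i hi
  · rw [y11, if_pos h]

end Pool.Agent.Lib.MP_79902f_lc.Up
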