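import Mathlib

/-!
The abstract systems between bounded reachability over the reals and planar convex codes: nets of
ports on a binary pyramid, systems of real slots on the pyramid, and a pointer machine.
-/

namespace Pool.Agent.Lib.MP_79902f_lc.W

open Set

/-- The ternary relation of the concurrency gadget is `FF a b c = 0`. -/
def FF (a b c : ℝ) : ℝ :=
  7 * (4 * c + 7) * (a - 2) * (10 * b + 3) - 3 * (19 * a - 8) * (5 * b + 12) * (c - 2)

/-- What the concurrency gadget forces. -/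
def TriW (v₁ v₂ v₃ : ℝ) : Prop :=
  (∀ a ∈ Ioo (6 : ℝ) 8, ∀ b ∈ Ioo (6 : ℝ) 8, ∀ c ∈ Ioo (6 : ℝ) 8,
    a < v₁ → b < v₂ → 0 ≤ FF a b c → c ≤ v₃) ∧
  (∀ a ∈ Ioo (6 : ℝ) 8, ∀ b ∈ Ioo (6 : ℝ) 8, ∀ c ∈ Ioo (6 : ℝ) 8,
    c < v₃ → FF a b c < 0 → a ≤ v₁ ∨ b ≤ v₂)

/-- The cells of the level `t` below the root. -/
def In (t : ℕ) (j : ℤ) : Prop := 85 * 2 ^ t ≤ j ∧ j < 86 * 2 ^ t

/-- A net: labels with vertical and horizontal constraints, ports with conditional links, ternary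
devices, comparisons with `7` and the source port. -/
structure Net (E A P D : Type) where
  root : A
  idle : A
  V : E → A → A → Bool → Prop
  Nx : A → A → Prop
  hold : A → P → Prop
  down : A → P → Prop
  lk : A → P → P → Prop
  tri : D → P × P × P
  le7 : P → Prop
  ge7 : P → Prop
  y : P

variable {E A P D : Type}

/-- What every convex realization carries. -/
def Net.Weak (M : Net E A P D) (T : ℕ) (pl : ℕ → E) : Prop :=
  ∃ (c : ℕ → ℤ → A) (v : ℕ → ℤ → P → ℝ), (∀ t j p, v t j p ∈ Icc (6 : ℝ) 8) ∧ c 0 85 = M.root ∧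
    7 < v 0 85 M.y ∧ ∀ t ≤ T, ∀ j, In t j →
      (t < T → (∀ b : Bool, M.V (pl t) (c t j) (c (t + 1) (2 * j + b.toNat)) b) ∧
        ∀ p, M.down (c (t + 1) (2 * j)) p → v t j p ≤ v (t + 1) (2 * j) p) ∧
      (In t (j + 1) → M.Nx (c t j) (c t (j + 1)) ∧
        ∀ p, M.hold (c t (j + 1)) p → v t j p ≤ v t (j + 1) p) ∧
      (∀ p p', M.lk (c t j) p p' → v t j p ≤ v t j p') ∧
      (∀ d, TriW (v t j (M.tri d).1) (v t j (M.tri d).2.1) (v t j (M.tri d).2.2)) ∧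
      (∀ p, M.le7 p → v t j p ≤ 7) ∧ ∀ p, M.ge7 p → 7 ≤ v t j p

/-- What suffices for a convex realization; `η` is the excess at the source. -/
def Net.Strong (M : Net E A P D) (T : ℕ) (pl : ℕ → E) (η : ℝ) : Prop :=
  ∃ (c : ℕ → ℤ → A) (v : ℕ → ℤ → P → ℝ), (∀ t j p, v t j p ∈ Ioo (6 : ℝ) 8) ∧
    (∀ j, c 0 j = if j = 85 then M.root else M.idle) ∧ v 0 85 M.y = 7 + η ∧ ∀ t ≤ T, ∀ j,
      (t < T → (∀ b : Bool, M.V (pl t) (c t j) (c (t + 1) (2 * j + b.toNat)) b) ∧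
        ∀ p, M.down (c (t + 1) (2 * j)) p → v t j p = v (t + 1) (2 * j) p) ∧
      (M.Nx (c t j) (c t (j + 1)) ∧ ∀ p, M.hold (c t (j + 1)) p → v t j p = v t (j + 1) p) ∧
      (∀ p p', M.lk (c t j) p p' → v t j p = v t j p') ∧
      (∀ d, FF (v t j (M.tri d).1) (v t j (M.tri d).2.1) (v t j (M.tri d).2.2) = 0) ∧
      (∀ p, M.le7 p → v t j p ≤ 7) ∧ ∀ p, M.ge7 p → 7 ≤ v t j p

/-- The three checks: sum, product, unit. -/
def Chk (o : Fin 3) (a b c : ℝ) : Prop := if o = 0 then a + b = c else if o = 1 then a * b = c else a = 1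

/-- A system of five real slots in every cell of the pyramid. -/
structure RSys (E A : Type) where
  root : A
  idle : A
  V : E → A → A → Bool → Prop
  Nx : A → A → Prop
  first : A → Prop
  hold : A → Fin 5 → Prop
  down : A → Fin 5 → Prop
  eqv : A → Fin 5 → Fin 5 → Prop
  zero : A → Prop
  chk : A → Fin 3 → Prop
  first_root : first root
  first_V : ∀ e a a' b, V e a a' b → (first a' ↔ first a ∧ b = false)

/-- A run below the root. -/
def RSys.Weak (M : RSys E A) (T : ℕ) (pl : ℕ → E) : Prop :=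
  ∃ (c : ℕ → ℤ → A) (x : ℕ → ℤ → Fin 5 → ℝ), c 0 85 = M.root ∧ ∀ t ≤ T, ∀ j, In t j →
    (t < T → (∀ b : Bool, M.V (pl t) (c t j) (c (t + 1) (2 * j + b.toNat)) b) ∧
      ∀ s, M.down (c (t + 1) (2 * j)) s → x t j s = x (t + 1) (2 * j) s) ∧
    (In t (j + 1) → M.Nx (c t j) (c t (j + 1)) ∧
      ∀ s, M.hold (c t (j + 1)) s → x t j s = x t (j + 1) s) ∧
    (∀ s s', M.eqv (c t j) s s' → x t j s = x t j s') ∧ (M.zero (c t j) → x t j 0 = 0) ∧
    (t = T → ∀ o, M.chk (c t j) o → Chk o (x t j 2) (x t j 3) (x t j 4))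

/-- A bounded run on the whole pyramid. -/
def RSys.Strong (M : RSys E A) (T : ℕ) (pl : ℕ → E) : Prop :=
  ∃ (c : ℕ → ℤ → A) (x : ℕ → ℤ → Fin 5 → ℝ) (B : ℝ), (∀ t j s, |x t j s| ≤ B) ∧
    (∀ j, c 0 j = if j = 85 then M.root else M.idle) ∧ ∀ t ≤ T, ∀ j,
    (t < T → (∀ b : Bool, M.V (pl t) (c t j) (c (t + 1) (2 * j + b.toNat)) b) ∧
      ∀ s, M.down (c (t + 1) (2 * j)) s → x t j s = x (t + 1) (2 * j) s) ∧
    (M.Nx (c t j) (c t (j + 1)) ∧ ∀ s, M.hold (c t (j + 1)) s → x t j s = x t (j + 1) s) ∧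
    (∀ s s', M.eqv (c t j) s s' → x t j s = x t j s') ∧ (M.zero (c t j) → x t j 0 = 0) ∧
    ∀ o, M.chk (c t j) o → Chk o (x t j 2) (x t j 3) (x t j 4)

/-- A state of the pointer machine. -/
structure St where
  ptr : ℕ → Prop
  mem : ℕ → ℝ
  reg : Fin 3 → ℝ

/-- One command on `m` memory cells: `0` nothing, `1` reset the pointer, `2` move it, `3` guess the
pointed cell, `4, 5, 6` load a register, `7, 8, 9` check. -/
def Step (m c : ℕ) (s s' : St) : Prop :=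
  (∀ i < m, s'.ptr i ↔ if c = 1 then i = 0 else if c = 2 then 0 < i ∧ s.ptr (i - 1) else s.ptr i) ∧
    (∀ i < m, ¬ (c = 3 ∧ s.ptr i) → s'.mem i = s.mem i) ∧
    (∀ k : Fin 3, c ≠ 4 + k → s'.reg k = s.reg k) ∧
    (∀ k : Fin 3, c = 4 + k → ∀ i < m, s.ptr i → (∀ i', i < i' → i' < m → ¬ s.ptr i') →
      s'.reg k = s.mem i) ∧
    ∀ o : Fin 3, c = 7 + o → Chk o (s.reg 0) (s.reg 1) (s.reg 2)

/-- A list of commands. -/
def Runs (m : ℕ) : List ℕ → St → St → Prop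
  | [], s, s' => s' = s
  | c :: l, s, s' => ∃ u, Step m c s u ∧ Runs m l u s'

/-- `N` rounds of the program `P₀` from the zero memory, followed by the program `P₁`. -/
def Accepts (m N : ℕ) (P₀ P₁ : List ℕ) : Prop :=
  ∃ σ : ℕ → St, (∀ i < m, (σ 0).mem i = 0) ∧ (∀ ρ < N, Runs m P₀ (σ ρ) (σ (ρ + 1))) ∧
    ∃ s, Runs m P₁ (σ N) s

/-- The flag of the level `t`: the kind of the level (counter, program, memory, registers), one bit
and one command. -/
def plan (r m N : ℕ) (P₀ P₁ : List ℕ) (t : ℕ) : ℕ × Bool × ℕ :=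
  if t < r then (0, N.testBit (r - 1 - t), 0)
  else if t < r + (P₀ ++ P₁).length then
    (1, decide (P₀.length ≤ r + (P₀ ++ P₁).length - 1 - t),
      (P₀ ++ P₁).getD (r + (P₀ ++ P₁).length - 1 - t) 0)
  else if t < r + (P₀ ++ P₁).length + m then (2, decide (t = r + (P₀ ++ P₁).length), 0)
  else (3, false, 0)

/-- The same flag in a finite type. -/
def planF (r m N : ℕ) (P₀ P₁ : List ℕ) (t : ℕ) : Fin 4 × Bool × Fin 10 :=
  (Fin.ofNat 4 (plan r m N P₀ P₁ t).1, (plan r m N P₀ P₁ t).2.1, Fin.ofNat 10 (plan r m N P₀ P₁ t).2.2)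

end Pool.Agent.Lib.MP_79902f_lc.W
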