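import Pool.Agent.Lib.MP_79902f_lc.NDefs

/-!
Bounded reachability for semialgebraic transition relations.
-/

namespace Pool.Agent.Lib.MP_79902f_lc

open N68a2faeb

/-- One token of a formula in reverse Polish form, acting on a stack of reals: the constant `1`, a
coordinate of the old state `x`, a coordinate of the new state `y`, sum, difference, product, and
the sign test (`1` for a positive number, `0` otherwise). -/
noncomputable def tok (x y : ℕ → ℝ) (s : List ℝ) (c : ℕ × ℕ) : List ℝ :=
  if c.1 = 0 then 1 :: s
  else if c.1 = 1 then x c.2 :: s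
  else if c.1 = 2 then y c.2 :: s
  else if c.1 = 3 then (s.getD 1 0 + s.getD 0 0) :: s.drop 2
  else if c.1 = 4 then (s.getD 1 0 - s.getD 0 0) :: s.drop 2
  else if c.1 = 5 then (s.getD 1 0 * s.getD 0 0) :: s.drop 2
  else (if 0 < s.getD 0 0 then 1 else 0) :: s.drop 1

/-- The formula `F` holds for the old state `x` and the new state `y`. -/
def Holds (F : List (ℕ × ℕ)) (x y : ℕ → ℝ) : Prop := (F.foldl (tok x y) []).getD 0 0 = 1

/-- There is a path of `N` steps, each obeying `F`, from the origin to a state whose first
coordinate is `1`. -/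
def Reach (N : ℕ) (F : List (ℕ × ℕ)) : Prop :=
  ∃ x : ℕ → ℕ → ℝ, x 0 = 0 ∧ (∀ s < N, Holds F (x s) (x (s + 1))) ∧ x N 0 = 1

open Classical in
/-- Bounded reachability over the reals, the number of steps being written in binary. -/
noncomputable def RealReach : DecisionProblem := fun w =>
  decide (∃ (N : ℕ) (F : List (ℕ × ℕ)), w = N487b59b3.bitEncode (N, F) ∧ Reach N F)

end Pool.Agent.Lib.MP_79902f_lc
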