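import Pool.Agent.Lib.MP_79902f_lc.WTab

/-!
The wires work: values are transported along the wires, and the intended lines obey the links.
-/

namespace Pool.Agent.Lib.MP_79902f_lc.W

open Set Mob Filter Topology

theorem ev_af {M : Mob} {v : ℝ} (h : M.Pos) (hv : v ∈ Icc (6 : ℝ) 8) (c d : ℤ) :
    (af M c d).ev v = c + d * M.ev v := by
  have := den_pos h hv
  simp only [ev, af]; push_cast; field_simp; ring

theorem IncM.eq {S P T : Mob} {v : ℝ} (h : IncM S P T) (hS : S.Pos) (e : P.2.2 = S.2.2) (hT : T.Pos)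
    (hv : v ∈ Icc (6 : ℝ) 8) : T.ev v * S.ev v = P.ev v := by
  obtain ⟨h1, h2, h3⟩ := h
  have k1 := congrArg (Int.cast (R := ℝ)) h1
  have k2 := congrArg (Int.cast (R := ℝ)) h2
  have k3 := congrArg (Int.cast (R := ℝ)) h3
  push_cast at k1 k2 k3
  have d1 := (den_pos hS hv).ne'
  have d2 := (den_pos hT hv).ne'
  simp only [ev, e]
  rw [div_mul_div_comm, div_eq_div_iff (mul_ne_zero d2 d1) d1]
  apply mul_left_cancel₀ one_ne_zero
  linear_combination (S.2.2.1 * (8 - v) + S.2.2.2 * (v - 6)) * ( (8 - v) ^ 2 * k1 + (v - 6) ^ 2 * k2 + (8 - v) * (v - 6) * k3)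

theorem cq_eq (p q : ℝ) : cq p q = cp (p + q) (p * q) := by
  ext <;> simp only [cq, cr, cp] <;> ring

theorem ht_cq (p q : ℝ) : ht (cq p q) = 35 + (p - q) ^ 2 := by simp only [ht, cq, cr]; ring

theorem beL_cp {τ p q S P : ℝ} : BeL τ p q (cp S P) ↔ p * q - τ * (p + q) < P - τ * S := by
  simp only [BeL, cp, lin]
  constructor <;> intro h <;> linarith

theorem tr_cq (κ : Fin 3) (a : ℤ) (ζ : ℝ) :
    tr κ (cq a ζ) = cp ((cf κ a).1 + (cf κ a).2.1 * ζ) ((cf κ a).2.2.1 + (cf κ a).2.2.2 * ζ) := by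
  fin_cases κ <;> ext <;> simp [tr, cf, cq, cr, cp, sh] <;> ring

theorem continuous_tr (κ : Fin 3) : Continuous (tr κ) := by
  unfold tr sh
  split_ifs <;> fun_prop

theorem below0 {X : Set (ℝ × ℝ)} (hX : Convex ℝ X) {lo hi : ℝ} (hD : Deep X lo hi)
    {S P S' P' τ p q : ℝ} (hS : cp S P ∈ closure X) (hO : cq p q ∈ closure X)
    (hb : (S ≤ S' ∧ S' ≤ p + q) ∨ (p + q ≤ S' ∧ S' ≤ S))
    (e : P - τ * S ≤ p * q - τ * (p + q)) (hl : p * q - τ * (p + q) ≤ P' - τ * S')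
    (hs : (P - τ * S < p * q - τ * (p + q) ∧ S' ≠ p + q) ∨ p * q - τ * (p + q) < P' - τ * S')
    (h0 : 0 < ht (cp S' P')) (h1 : lo ≤ S' + 1) (h2 : S' + 1 ≤ hi) : cp S' P' ∈ interior X := by
  obtain ⟨θ, t0, t1, t2⟩ : ∃ θ : ℝ, 0 ≤ θ ∧ θ ≤ 1 ∧ S' = θ * S + (1 - θ) * (p + q) := by
    by_cases c : S = p + q
    · exact ⟨0, le_rfl, zero_le_one, by rcases hb with h | h <;> linarith [h.1, h.2]⟩
    refine ⟨(S' - (p + q)) / (S - (p + q)), ?_, ?_, by have := sub_ne_zero.2 c; field_simp; ring⟩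
    · rcases hb with h | h
      · exact div_nonneg_of_nonpos (by linarith [h.2]) (by linarith [h.1, h.2])
      · exact div_nonneg (by linarith [h.1]) (by linarith [h.1, h.2])
    · rcases hb with h | h
      · exact (div_le_one_of_neg (lt_of_le_of_ne (by linarith [h.1, h.2]) (sub_ne_zero.2 c))).2
          (by linarith [h.1])
      · exact div_le_one_of_le₀ (by linarith [h.2]) (by linarith [h.1, h.2])
  have hQ := hX.closure hS hO t0 (sub_nonneg.2 t1) (by ring)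
  refine vert hX hD h1 h2 h0 (y := 34 - 2 * S' - 4 * (θ * P + (1 - θ) * (p * q))) ?_ ?_
  · convert hQ using 1
    rw [cq_eq, t2]
    ext <;> simp only [cp, Prod.fst_add, Prod.snd_add, Prod.smul_fst, Prod.smul_snd, smul_eq_mul] <;> ring
  · simp only [cp]
    have k := mul_le_mul_of_nonneg_left e t0
    rcases hs with ⟨h, h'⟩ | h
    · have : 0 < θ := lt_of_le_of_ne t0 fun c => h' (by rw [t2, ← c]; ring)
      have := mul_lt_mul_of_pos_left h this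
      rw [t2] at hl
      nlinarith
    · rw [t2] at h
      nlinarith

theorem beL_tr {κ : Fin 3} {M : Mob} {v ζ p q : ℝ} {a : ℤ} (h : M.Pos) (hv : v ∈ Icc (6 : ℝ) 8)
    (e : M.ev v * ((cf κ a).1 + (cf κ a).2.1 * ζ - p - q) = (cf κ a).2.2.1 + (cf κ a).2.2.2 * ζ - p * q)
    (z : ℝ × ℝ) : BeL (M.ev v) p q (tr κ z) ↔ BeL ((lkM κ M).ev v) a ζ z := by
  fin_cases κ
  · simp [cf, tr, lkM, BeL] at e ⊢
    constructor <;> intro k <;> linarith
  · have d := (den_pos h hv).ne'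
    have : (lkM 1 M).ev v = (2 * M.ev v - 3) / 4 := by
      simp [lkM, ev]; field_simp; ring
    simp [cf, tr, BeL, this, lin] at e ⊢
    constructor <;> intro k <;> linarith
  · simp [cf, tr, lkM, BeL, ev_af h hv, lin, sh] at e ⊢
    constructor <;> intro k <;> linarith

namespace Rc

variable {R Q : Rc} {v : ℝ}

/-- The intended line. -/
def Ln (R : Rc) (v : ℝ) (z : ℝ × ℝ) : Prop := BeL (R.ta.ev v) R.p R.q z

/-- The source point. -/
noncomputable def src (R : Rc) (v : ℝ) : ℝ × ℝ := cp (R.sg.ev v) (R.pg.ev v)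

/-- The set contains the target points up to the value `v`. -/
def Out (R : Rc) (Z : Set (ℝ × ℝ)) (v : ℝ) : Prop :=
  ∀ w ∈ Ioo 6 v, cq R.b (R.zt.ev w) ∈ interior Z

/-- The cells of the incoming link. -/
def Cel (R : Rc) (α β : ℤ) : Prop := ∃ n, R.lo ≤ n ∧ n < R.hi ∧ (α, β) = cel R.a R.s n

theorem Good.inc (h : R.Good) (hv : v ∈ Icc (6 : ℝ) 8) :
    R.ta.ev v * (R.sg.ev v - R.p - R.q) = R.pg.ev v - R.p * R.q ∧
      R.ta.ev v * (R.b + R.zt.ev v - R.p - R.q) = R.b * R.zt.ev v - R.p * R.q := by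
  obtain ⟨⟨p1, p2, p3⟩, ⟨i1, i2⟩, -⟩ := h
  have e1 := i1.eq p1 rfl p3 hv
  have e2 := i2.eq p2 rfl p3 hv
  rw [ev_af (M := R.sg) p1 hv, ev_af (M := R.pg) p1 hv] at e1
  rw [ev_af p2 hv, ev_af p2 hv] at e2
  push_cast at e1 e2
  exact ⟨by linarith, by linarith⟩

theorem Good.tau (h : R.Good) (hv : v ∈ Icc (6 : ℝ) 8) :
    R.p ≤ R.ta.ev v ∧ R.ta.ev v ≤ R.q ∧ -1 ≤ R.ta.ev v ∧ R.ta.ev v ≤ 9 := by
  obtain ⟨⟨-, -, p⟩, -, -, -, ⟨a1, a2, a3, a4⟩, -⟩ := h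
  simpa only [ev_k, Int.cast_neg, Int.cast_one, Int.cast_ofNat] using And.intro (a1.le (pos_k _) p hv)
    (And.intro (a2.le p (pos_k _) hv) (And.intro (a3.le (pos_k _) p hv) (a4.le p (pos_k _) hv)))

theorem Good.bd (h : R.Good) {α β : ℤ} (c : R.Cel α β) : -9 ≤ α ∧ α ≤ β ∧ β ≤ α + 10 ∧ β ≤ 13 := by
  obtain ⟨n, h1, h2, e⟩ := c
  obtain ⟨-, -, -, -, -, -, ⟨-, -, -, a1⟩, a2, -⟩ := h
  unfold cel at e
  split_ifs at e <;> obtain ⟨rfl, rfl⟩ := Prod.mk.inj e <;> omega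

/-- A point on or above the line gives the target points. -/
theorem Good.out (h : R.Good) {Z : Set (ℝ × ℝ)} (hZ : Convex ℝ Z) (hD : Deep Z (-20) 40)
    (hO : cq R.p R.q ∈ closure Z) {S P u w : ℝ} (hu : u ∈ Ioo (6 : ℝ) 8) (hw : w ∈ Ioo 6 u)
    (hS : cp S P ∈ closure Z) (e : P - R.ta.ev u * S ≤ R.p * R.q - R.ta.ev u * (R.p + R.q))
    (hb : (S ≤ R.b + R.zt.ev w ∧ R.b + R.zt.ev w ≤ R.p + R.q) ∨
      (R.p + R.q ≤ R.b + R.zt.ev w ∧ R.b + R.zt.ev w ≤ S)) : cq R.b (R.zt.ev w) ∈ interior Z := by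
  have u4 := Ioo_subset_Icc_self hu
  have w2 : w ∈ Icc (6 : ℝ) 8 := ⟨hw.1.le, by linarith [hw.2, hu.2]⟩
  have e2 := (h.inc u4).2
  obtain ⟨⟨-, p2, p3⟩, -, hm, -, -, -, -, -, -, c1, c2⟩ := h
  have d1 := c1.le (pos_k _) p2 w2
  have d2 := c2.le p2 (pos_k _) w2
  rw [ev_k, ev_af p2 w2] at d1 d2
  push_cast at d1 d2
  obtain ⟨c, c3, c4⟩ := ev_sub p2 w2 u4
  have c5 := mul_pos c3 (sub_pos.2 hw.2)
  have hl : R.p * R.q - R.ta.ev u * (R.p + R.q) <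
      R.b * R.zt.ev w - R.ta.ev u * (R.b + R.zt.ev w) := by
    rcases hm with ⟨f1, f2⟩ | ⟨f1, f2⟩
    · have g1 := f1.lt (pos_k _) p3 hu
      have g2 := mul_pos c5 ((Int.cast_pos (R := ℝ)).2 (sub_pos.2 f2))
      rw [ev_k] at g1
      nlinarith
    · have g1 := f1.lt p3 (pos_k _) hu
      have g2 := mul_neg_of_pos_of_neg c5 ((Int.cast_lt_zero (R := ℝ)).2 (sub_neg.2 f2))
      rw [ev_k] at g1
      nlinarith
  rw [cq_eq]
  exact below0 hZ hD hS hO hb e hl.le (Or.inr hl) (by rw [← cq_eq, ht_cq]; positivity) (by linarith)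
    (by linarith)

theorem Good.step (h : R.Good) {Z : Set (ℝ × ℝ)} (hZ : Convex ℝ Z) (hD : Deep Z (-20) 40)
    (hO : cq R.p R.q ∈ closure Z) (hv : v ≤ 8) (hS : ∀ w ∈ Ioo 6 v, R.src w ∈ closure Z) :
    R.Out Z v := fun w hw => by
  have hu : (w + v) / 2 ∈ Ioo (6 : ℝ) 8 := ⟨by linarith [hw.1, hw.2], by linarith [hw.2]⟩
  have u4 := Ioo_subset_Icc_self hu
  have w2 : w ∈ Icc (6 : ℝ) 8 := ⟨hw.1.le, by linarith [hw.2]⟩
  refine h.out hZ hD hO hu ⟨hw.1, by linarith [hw.2]⟩ (hS _ ⟨hu.1, by linarith [hw.2]⟩)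
    (by linarith [(h.inc u4).1]) ?_
  obtain ⟨⟨p1, p2, -⟩, -, -, ⟨a, b, c⟩ | ⟨a, b, c⟩ | ⟨a, b, c, d⟩, -⟩ := h
  · have a := a.le p1 (pos_k _) u4
    have b := b.le (pos_k _) p2 w2
    have c := c.le p2 (pos_k _) w2
    simp only [ev_k, ev_af p2 w2] at a b c
    push_cast at a b c
    exact Or.inl ⟨by linarith, by linarith⟩
  · have a := a.le (pos_k _) p1 u4
    have b := b.le p2 (pos_k _) w2
    have c := c.le (pos_k _) p2 w2
    simp only [ev_k, ev_af p2 w2] at a b c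
    push_cast at a b c
    exact Or.inr ⟨by linarith, by linarith⟩
  · have d' := (Int.cast_le (R := ℝ)).2 d
    rw [a, b, c, ev_id, ev_id]
    push_cast at d' ⊢
    exact Or.inr ⟨by linarith [hw.1], by linarith [hw.2]⟩

theorem Good.link (h : R.Good) (hl : Q.Lnk R) {Y Z : Set (ℝ × ℝ)}
    (hL : ∀ α β, R.Cel α β → ∀ z ∈ OC α β, z ∈ Y → tr R.kd z ∈ Z) (hv : v ≤ 8) (hY : Q.Out Y v) :
    ∀ w ∈ Ioo 6 v, R.src w ∈ closure Z := fun w hw => by
  have w2 : w ∈ Icc (6 : ℝ) 8 := ⟨hw.1.le, by linarith [hw.2]⟩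
  have hY := hY w hw
  rw [hl.1, hl.2.1] at hY
  obtain ⟨⟨p1, -⟩, -, -, -, -, -, ⟨a1, a2, a3, a4⟩, a5, -⟩ := h
  have b1 := a1.le (pos_k _) p1 w2
  have b2 := a2.le p1 (pos_k _) w2
  rw [ev_k] at b1 b2
  obtain ⟨n, n1, n2, n3, n4⟩ : ∃ n : ℤ, R.lo ≤ n ∧ n < R.hi ∧ n ≤ R.zs.ev w ∧ R.zs.ev w ≤ n + 1 := by
    rcases b2.eq_or_lt with e | e
    · exact ⟨R.hi - 1, by omega, by omega, by push_cast; linarith, by push_cast; linarith⟩
    · exact ⟨_, Int.le_floor.2 b1, Int.floor_lt.2 e, Int.floor_le _, (Int.lt_floor_add_one _).le⟩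
  have : cq R.a (R.zs.ev w) ∈ closure (tr R.kd ⁻¹' Z) := by
    refine pass hY (K := OC (cel R.a R.s n).1 (cel R.a R.s n).2) ?_
      fun z hz => hL _ _ ⟨n, n1, n2, rfl⟩ z hz
    have hs : (0 : ℝ) ≤ R.s ∧ (R.s : ℝ) ≤ 1 := by rcases a4 with e | e <;> simp [e]
    unfold cel
    split_ifs with c
    · exact cq_closure (by dsimp only; omega) (by push_cast; linarith) (by push_cast; linarith)
        (by linarith) (by linarith)
    · rw [cq_comm]
      exact cq_closure (by dsimp only; omega) (by push_cast; linarith) (by push_cast; linarith)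
        (by push_cast; linarith) (by push_cast; linarith)
  have := map_mem_closure (continuous_tr R.kd) this fun _ h => h
  rwa [tr_cq, ← ev_af p1 w2, ← ev_af p1 w2] at this

theorem Good.ln_link (h : R.Good) (hQ : Q.Good) (hl : Q.Lnk R) (hv : v ∈ Ioo (6 : ℝ) 8) {α β : ℤ}
    (c : R.Cel α β) {z : ℝ × ℝ} (hz : HC α β z) (hY : Q.Ln v z) : R.Ln v (tr R.kd z) := by
  have w := Ioo_subset_Icc_self hv
  have c1 := (h.inc w).1
  have c2 := (hQ.inc w).2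
  obtain ⟨b1, b2, p3, b3⟩ := hl
  have q3 := hQ.1.2.2
  rw [b1, b2] at c2
  rw [sg, pg, ev_af h.1.1 w, ev_af h.1.1 w] at c1
  refine (beL_tr h.1.2.2 w c1 z).2 (BeL.wedge (a := R.a) (ζ := R.zs.ev v) (by linarith) rfl hY ?_)
  obtain ⟨n, -, -, e⟩ := c
  rcases b3 with ⟨s, b3⟩ | ⟨s, b3⟩
  · refine Or.inl ⟨?_, ?_⟩
    · rw [cel, s] at e
      split_ifs at e <;> obtain ⟨rfl, rfl⟩ := Prod.mk.inj e
      · simpa using hz.1
      · simpa using hz.2.2.2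
    · rcases b3 with ⟨k1, k2⟩ | ⟨k1, k2⟩
      · have := k1.lt (pos_k _) p3 hv
        rw [ev_k] at this
        exact Or.inl ⟨this, k2.le p3 q3 w⟩
      · have := k2.lt p3 (pos_k _) hv
        rw [ev_k] at this
        exact Or.inr ⟨k1.le q3 p3 w, this⟩
  · refine Or.inr ⟨?_, ?_⟩
    · rw [cel, s] at e
      split_ifs at e <;> obtain ⟨rfl, rfl⟩ := Prod.mk.inj e
      · simpa using hz.2.1
      · simpa using hz.2.2.1
    · rcases b3 with ⟨k1, k2⟩ | ⟨k1, k2⟩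
      · have := k1.lt (pos_k _) q3 hv
        rw [ev_k] at this
        exact Or.inl ⟨this, k2.le q3 p3 w⟩
      · have := k2.lt q3 (pos_k _) hv
        rw [ev_k] at this
        exact Or.inr ⟨k1.le p3 q3 w, this⟩

theorem Good.ln_cen (h : R.Good) (hv : v ∈ Icc (6 : ℝ) 8) {z : ℝ × ℝ} (hz : HC (R.p + 1) (R.q - 1) z) :
    R.Ln v z :=
  BeL.center (by simpa using hz.1) (by simpa using hz.2.2.2) (h.tau hv).1 (h.tau hv).2.1

theorem Good.cen (h : R.Good) {Z : Set (ℝ × ℝ)} (hZ : OC (R.p + 1) (R.q - 1) ⊆ Z) :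
    cq R.p R.q ∈ closure Z :=
  closure_mono hZ (cq_closure (by have := h.2.2.2.2.2.1; omega) (by push_cast; linarith)
    (by push_cast; linarith) (by push_cast; linarith) (by push_cast; linarith))

end Rc

/-- A family of sets along the wire `k`. -/
structure Wire (k : Fin 5) (Z : ℕ → Set (ℝ × ℝ)) : Prop where
  cv : ∀ i, Convex ℝ (Z i)
  dp : ∀ i, Deep (Z i) (-20) 40
  cn : ∀ i < 7, cq (tb k i).p (tb k i).q ∈ closure (Z i)
  lk : ∀ i < 6, ∀ α β, (tb k (i + 1)).Cel α β → ∀ z ∈ OC α β, z ∈ Z i → tr (tb k (i + 1)).kd z ∈ Z (i + 1)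

theorem ends (k : Fin 5) {i : ℕ} (h : i = 0 ∨ i = 6) : (tb k i).b = 0 ∧ (tb k i).zt = (6, 8, 1, 1) ∧
    (tb k i).ta = (2, 2, 5, 7) ∧ (tb k i).p = -1 ∧ (tb k i).q = 2 := by
  rcases h with rfl | rfl <;> fin_cases k <;> exact ⟨rfl, rfl, rfl, rfl, rfl⟩

namespace Wire

variable {k : Fin 5} {Z : ℕ → Set (ℝ × ℝ)} {v : ℝ}

theorem src (h : Wire k Z) (hv : v ≤ 8) {i : ℕ} (hi : i < 6) (h0 : (tb k i).Out (Z i) v) :
    ∀ w ∈ Ioo 6 v, (tb k (i + 1)).src w ∈ closure (Z (i + 1)) :=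
  (good k _ (by omega)).link (lnk k i hi) (h.lk i hi) hv h0

theorem chain (h : Wire k Z) (hv : v ≤ 8) {i j : ℕ} (h1 : i ≤ j) (h2 : j ≤ 6)
    (h0 : (tb k i).Out (Z i) v) : (tb k j).Out (Z j) v := by
  induction j, h1 using Nat.le_induction with
  | base => exact h0
  | succ j _ ih =>
    exact (good k (j + 1) (by omega)).step (h.cv _) (h.dp _) (h.cn _ (by omega)) hv
      (h.src hv (by omega) (ih (by omega)))

theorem first (i : ℕ) (hi : i ≤ 6) (h : Wire k Z) : (tb k i).Out (Z i) (val (Z 0) 0) :=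
  h.chain (val_mem _ _).2 i.zero_le hi fun w hw => by
    obtain ⟨a1, a2, -⟩ := ends k (Or.inl rfl)
    simpa [a1, a2, ev_id] using val_PR (Z 0) 0 w hw.1 hw.2

theorem last (h : Wire k Z) (hv : v ∈ Icc (6 : ℝ) 8) {i : ℕ} (hi : i ≤ 6) (h0 : (tb k i).Out (Z i) v) :
    v ≤ val (Z 6) 0 :=
  le_val hv fun w h1 h2 => by
    obtain ⟨a1, a2, -⟩ := ends k (Or.inr rfl)
    simpa [a1, a2, ev_id] using h.chain hv.2 hi le_rfl h0 w ⟨h1, h2⟩

theorem val_le (h : Wire k Z) : val (Z 0) 0 ≤ val (Z 6) 0 :=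
  h.last (val_mem _ _) (Nat.zero_le _) (h.first 0 (by omega))

end Wire

end Pool.Agent.Lib.MP_79902f_lc.W
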