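import Pool.Agent.Lib.MP_79902f_lc.WAbs
import Pool.Agent.Lib.MP_79902f_lc.EqFixW
import Pool.Agent.Lib.MP_79902f_lc.WDefs
import Pool.Agent.Lib.MP_79902f_lc.Code

/-!
Formulas are compiled to programs of the pointer machine.
-/

namespace Pool.Agent.Lib.MP_79902f_lc.W

open N68a2faeb Pool.Agent.Shared.PolyTime N487b59b3

namespace Prog

variable {m : ℕ}

theorem runs_append {l l' : List ℕ} {s s'' : St} :
    Runs m (l ++ l') s s'' ↔ ∃ s', Runs m l s s' ∧ Runs m l' s' s'' := by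
  induction l generalizing s with
  | nil => simp [Runs]
  | cons c l ih =>
    simp only [List.cons_append, Runs, ih]
    exact ⟨fun ⟨u, a, s', b, c⟩ => ⟨s', ⟨u, a, b⟩, c⟩, fun ⟨s', ⟨u, a, b⟩, c⟩ => ⟨u, a, s', b, c⟩⟩

theorem runs_one {c : ℕ} {s s' : St} : Runs m [c] s s' ↔ Step m c s s' := by
  simp [Runs]

/-- the pointer is at `a` -/
def At (m a : ℕ) (s : St) : Prop := ∀ i < m, s.ptr i ↔ i = a

/-- equality on the memory cells -/
def EqB (m : ℕ) (μ ν : ℕ → ℝ) : Prop := ∀ i < m, μ i = ν i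

theorem step_keep {c : ℕ} {s s' : St} (h : Step m c s s') (hc : c < 3) :
    EqB m s'.mem s.mem ∧ s'.reg = s.reg :=
  ⟨fun i hi => h.2.1 i hi (by omega), funext fun k => h.2.2.1 k (by omega)⟩

theorem mv_sound {a b : ℕ} {s s' : St} (h : Runs m (List.replicate a 2) s s') (hb : At m b s) :
    At m (b + a) s' ∧ EqB m s'.mem s.mem ∧ s'.reg = s.reg := by
  induction a generalizing b s with
  | zero =>
    obtain rfl : s' = s := h
    exact ⟨hb, fun _ _ => rfl, rfl⟩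
  | succ a ih =>
    obtain ⟨u, h1, h2⟩ := h
    have h3 : At m (b + 1) u := fun i hi => by
      rw [h1.1 i hi, if_neg (by omega), if_pos rfl, hb (i - 1) (by omega)]
      omega
    obtain ⟨k1, k2, k3⟩ := ih h2 h3
    obtain ⟨k4, k5⟩ := step_keep h1 (by omega)
    exact ⟨by rwa [show b + (a + 1) = b + 1 + a by omega], fun i hi => (k2 i hi).trans (k4 i hi),
      k3.trans k5⟩

theorem mv_ex (a : ℕ) (s : St) : ∃ s', Runs m (List.replicate a 2) s s' := by
  induction a generalizing s with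
  | zero => exact ⟨s, rfl⟩
  | succ a ih =>
    obtain ⟨s', h⟩ := ih ⟨fun i => 0 < i ∧ s.ptr (i - 1), s.mem, s.reg⟩
    exact ⟨s', ⟨fun i => 0 < i ∧ s.ptr (i - 1), s.mem, s.reg⟩, ⟨fun i _ => by simp,
      fun _ _ _ => rfl, fun _ _ => rfl, fun k hk => by omega, fun k hk => by omega⟩, h⟩

/-- move the pointer to `a`, then execute `c` -/
def ld (m a c : ℕ) : List ℕ := 1 :: (List.replicate (min a m) 2 ++ [c])

theorem ld_sound {a c : ℕ} {s s' : St} (ha : a < m) (h : Runs m (ld m a c) s s') :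
    ∃ u, At m a u ∧ EqB m u.mem s.mem ∧ u.reg = s.reg ∧ Step m c u s' := by
  obtain ⟨v, h1, h2⟩ := h
  obtain ⟨u, h3, h4⟩ := runs_append.1 h2
  obtain ⟨k1, k2, k3⟩ := mv_sound (b := 0) h3 fun i hi => by rw [h1.1 i hi, if_pos rfl]
  obtain ⟨k4, k5⟩ := step_keep h1 (by omega)
  rw [zero_add, min_eq_left ha.le] at k1
  exact ⟨u, k1, fun i hi => (k2 i hi).trans (k4 i hi), k3.trans k5, runs_one.1 h4⟩

theorem ld_ex {a : ℕ} (ha : a < m) (c : ℕ) (s : St) : ∃ u, At m a u ∧ EqB m u.mem s.mem ∧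
    ∀ s', Step m c u s' → Runs m (ld m a c) s s' := by
  obtain ⟨u, h⟩ := mv_ex (m := m) (min a m) ⟨fun i => i = 0, s.mem, s.reg⟩
  obtain ⟨k1, k2, -⟩ := mv_sound (b := 0) h fun i _ => Iff.rfl
  rw [zero_add, min_eq_left ha.le] at k1
  exact ⟨u, k1, k2, fun s' h' => ⟨⟨fun i => i = 0, s.mem, s.reg⟩, ⟨fun i _ => by simp,
    fun _ _ _ => rfl, fun _ _ => rfl, fun k hk => by omega, fun k hk => by omega⟩,
    runs_append.2 ⟨u, h, runs_one.2 h'⟩⟩⟩

/-- the program `P` acts on the memory as the relation `Φ` -/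
def Impl (m : ℕ) (P : List ℕ) (Φ : (ℕ → ℝ) → (ℕ → ℝ) → Prop) : Prop :=
  ∀ (s : St) (μ μ' : ℕ → ℝ), EqB m s.mem μ → ((∃ s', Runs m P s s' ∧ EqB m s'.mem μ') ↔ Φ μ μ')

theorem Impl.append {P Q : List ℕ} {Φ Ψ : (ℕ → ℝ) → (ℕ → ℝ) → Prop} (h : Impl m P Φ)
    (h' : Impl m Q Ψ) : Impl m (P ++ Q) fun μ μ'' => ∃ μ', Φ μ μ' ∧ Ψ μ' μ'' := by
  intro s μ μ'' hs
  constructor
  · rintro ⟨s'', h1, h2⟩
    obtain ⟨s', h3, h4⟩ := runs_append.1 h1
    exact ⟨s'.mem, (h s μ _ hs).1 ⟨s', h3, fun _ _ => rfl⟩,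
      (h' s' _ _ fun _ _ => rfl).1 ⟨s'', h4, h2⟩⟩
  · rintro ⟨μ', h1, h2⟩
    obtain ⟨s', h3, h4⟩ := (h s μ μ' hs).2 h1
    obtain ⟨s'', h5, h6⟩ := (h' s' μ' μ'' h4).2 h2
    exact ⟨s'', runs_append.2 ⟨s', h3, h5⟩, h6⟩

theorem Impl.congr {P : List ℕ} {Φ Ψ : (ℕ → ℝ) → (ℕ → ℝ) → Prop} (h : Impl m P Φ)
    (e : ∀ μ μ', Φ μ μ' ↔ Ψ μ μ') : Impl m P Ψ := fun s μ μ' hs => (h s μ μ' hs).trans (e μ μ')

theorem impl_nil : Impl m [] fun μ μ' => EqB m μ' μ := by
  intro s μ μ' hs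
  constructor
  · rintro ⟨s', h1, h2⟩
    obtain rfl : s' = s := h1
    exact fun i hi => (h2 i hi).symm.trans (hs i hi)
  · exact fun h => ⟨s, rfl, fun i hi => (hs i hi).trans (h i hi).symm⟩

theorem impl_guess {a : ℕ} (ha : a < m) :
    Impl m (ld m a 3) fun μ μ' => ∀ i < m, i ≠ a → μ' i = μ i := by
  intro s μ μ' hs
  constructor
  · rintro ⟨s', h1, h2⟩ i hi hne
    obtain ⟨u, k1, k2, -, k4⟩ := ld_sound ha h1
    rw [← h2 i hi, k4.2.1 i hi fun h => hne ((k1 i hi).1 h.2), k2 i hi, hs i hi]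
  · intro h
    obtain ⟨u, k1, k2, k3⟩ := ld_ex ha 3 s
    refine ⟨⟨u.ptr, μ', u.reg⟩, k3 _ ⟨fun i _ => by simp, fun i hi hn => ?_, fun _ _ => rfl,
      fun k hk => by omega, fun k hk => by omega⟩, fun _ _ => rfl⟩
    have := h i hi fun e => hn ⟨rfl, (k1 i hi).2 e⟩
    rw [k2 i hi, hs i hi]
    exact this

theorem load_sound {a c : ℕ} {s s' : St} (ha : a < m) (k : Fin 3) (hc : c = 4 + k)
    (h : Runs m (ld m a c) s s') :
    EqB m s'.mem s.mem ∧ s'.reg k = s.mem a ∧ ∀ k', k' ≠ k → s'.reg k' = s.reg k' := by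
  obtain ⟨u, k1, k2, k3, k4⟩ := ld_sound ha h
  refine ⟨fun i hi => (k4.2.1 i hi (by omega)).trans (k2 i hi), ?_, fun k' hk => ?_⟩
  · rw [← k2 a ha]
    exact k4.2.2.2.1 k hc a ha ((k1 a ha).2 rfl) fun i' h1 h2 h3 => by
      have := (k1 i' h2).1 h3
      omega
  · rw [← k3]
    exact k4.2.2.1 k' fun e => hk (Fin.ext (by omega))

theorem load_ex {a c : ℕ} (ha : a < m) (k : Fin 3) (hc : c = 4 + k) (s : St) :
    ∃ s', Runs m (ld m a c) s s' := by
  obtain ⟨u, k1, -, k3⟩ := ld_ex ha c s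
  refine ⟨⟨u.ptr, u.mem, Function.update u.reg k (u.mem a)⟩, k3 _ ⟨fun i _ => ?_, fun _ _ _ => rfl,
    fun k' hk => ?_, fun k' hk i hi h1 _ => ?_, fun o ho => by omega⟩⟩
  · rw [if_neg (by omega), if_neg (by omega)]
  · exact Function.update_of_ne (fun e => hk (by rw [hc, e])) _ _
  · obtain rfl : k' = k := Fin.ext (by omega)
    obtain rfl := (k1 i hi).1 h1
    exact Function.update_self _ _ _

/-- a check: the operation and three addresses -/
abbrev Q : Type := ℕ × ℕ × ℕ × ℕ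

/-- the program of a check -/
def ck (m : ℕ) (q : Q) : List ℕ :=
  ld m q.2.1 4 ++ (ld m q.2.2.1 5 ++ (ld m q.2.2.2 6 ++ [7 + q.1 % 3]))

/-- the meaning of a check -/
def Ok (μ : ℕ → ℝ) (q : Q) : Prop := Chk (Fin.ofNat 3 q.1) (μ q.2.1) (μ q.2.2.1) (μ q.2.2.2)

/-- the addresses are memory cells -/
def Bd (m : ℕ) (q : Q) : Prop := q.2.1 < m ∧ q.2.2.1 < m ∧ q.2.2.2 < m

theorem Ok.congr {μ ν : ℕ → ℝ} {q : Q} (hq : Bd m q) (e : EqB m μ ν) : Ok μ q ↔ Ok ν q := by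
  rw [Ok, Ok, e _ hq.1, e _ hq.2.1, e _ hq.2.2]

theorem loads {q : Q} (hq : Bd m q) {s s1 s2 s3 : St} (h1 : Runs m (ld m q.2.1 4) s s1)
    (h2 : Runs m (ld m q.2.2.1 5) s1 s2) (h3 : Runs m (ld m q.2.2.2 6) s2 s3) :
    EqB m s3.mem s.mem ∧
      (Chk (Fin.ofNat 3 q.1) (s3.reg 0) (s3.reg 1) (s3.reg 2) ↔ Ok s.mem q) := by
  obtain ⟨a1, a2, -⟩ := load_sound hq.1 0 rfl h1
  obtain ⟨b1, b2, b3⟩ := load_sound hq.2.1 1 rfl h2
  obtain ⟨c1, c2, c3⟩ := load_sound hq.2.2 2 rfl h3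
  refine ⟨fun i hi => ((c1 i hi).trans (b1 i hi)).trans (a1 i hi), ?_⟩
  rw [Ok, c3 0 (by decide), b3 0 (by decide), a2, c3 1 (by decide), b2, a1 _ hq.2.1, c2,
    b1 _ hq.2.2, a1 _ hq.2.2]

theorem impl_ck {q : Q} (hq : Bd m q) : Impl m (ck m q) fun μ μ' => EqB m μ' μ ∧ Ok μ q := by
  intro s μ μ' hs
  constructor
  · rintro ⟨s', h, h'⟩
    obtain ⟨s1, h1, h⟩ := runs_append.1 h
    obtain ⟨s2, h2, h⟩ := runs_append.1 h
    obtain ⟨s3, h3, h⟩ := runs_append.1 h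
    obtain ⟨k1, k2⟩ := loads hq h1 h2 h3
    have h4 := runs_one.1 h
    refine ⟨fun i hi => ?_, (Ok.congr hq hs).1 (k2.1 (h4.2.2.2.2 _ rfl))⟩
    rw [← h' i hi, h4.2.1 i hi (by omega), k1 i hi, hs i hi]
  · rintro ⟨h, h'⟩
    obtain ⟨s1, h1⟩ := load_ex hq.1 0 (c := 4) rfl s
    obtain ⟨s2, h2⟩ := load_ex hq.2.1 1 (c := 5) rfl s1
    obtain ⟨s3, h3⟩ := load_ex hq.2.2 2 (c := 6) rfl s2
    obtain ⟨k1, k2⟩ := loads hq h1 h2 h3
    refine ⟨s3, runs_append.2 ⟨s1, h1, runs_append.2 ⟨s2, h2, runs_append.2 ⟨s3, h3, runs_one.2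
      ⟨fun i _ => ?_, fun _ _ _ => rfl, fun _ _ => rfl, fun k hk => by omega, fun o ho => ?_⟩⟩⟩⟩,
      fun i hi => by rw [k1 i hi, hs i hi, h i hi]⟩
    · rw [if_neg (by omega), if_neg (by omega)]
    · obtain rfl : o = Fin.ofNat 3 q.1 := Fin.ext (by simp only [Fin.val_ofNat]; omega)
      exact k2.2 ((Ok.congr hq hs).2 h')

theorem impl_guesses (l : List ℕ) (hl : ∀ a ∈ l, a < m) :
    Impl m (l.flatMap fun a => ld m a 3) fun μ μ' => ∀ i < m, i ∉ l → μ' i = μ i := by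
  induction l with
  | nil => exact impl_nil.congr fun μ μ' => by simp [EqB]
  | cons a l ih =>
    rw [List.flatMap_cons]
    refine ((impl_guess (hl a (by simp))).append (ih fun b hb => hl b (by simp [hb]))).congr
      fun μ μ' => ⟨?_, fun h => ⟨Function.update μ a (μ' a), fun i _ hne => ?_, fun i hi hn => ?_⟩⟩
    · rintro ⟨ν, h1, h2⟩ i hi hn
      rw [List.mem_cons, not_or] at hn
      rw [h2 i hi hn.2, h1 i hi hn.1]
    · exact Function.update_of_ne hne _ _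
    · by_cases e : i = a
      · rw [e, Function.update_self]
      · rw [Function.update_of_ne e, h i hi (by simp [e, hn])]

theorem impl_cks (l : List Q) (hl : ∀ q ∈ l, Bd m q) :
    Impl m (l.flatMap fun q => ck m q) fun μ μ' => EqB m μ' μ ∧ ∀ q ∈ l, Ok μ q := by
  induction l with
  | nil => exact impl_nil.congr fun μ μ' => by simp
  | cons a l ih =>
    rw [List.flatMap_cons]
    refine ((impl_ck (hl a (by simp))).append (ih fun b hb => hl b (by simp [hb]))).congr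
      fun μ μ' => ⟨?_, fun h => ⟨μ, ⟨fun _ _ => rfl, h.2 a (by simp)⟩, h.1,
        fun q hq => h.2 q (by simp [hq])⟩⟩
    rintro ⟨ν, ⟨h1, h2⟩, h3, h4⟩
    refine ⟨fun i hi => (h3 i hi).trans (h1 i hi), fun q hq => ?_⟩
    rcases List.mem_cons.1 hq with rfl | hq'
    · exact h2
    · exact (Ok.congr (hl q hq) h1).1 (h4 q hq')

/-- formulas -/
abbrev Fm : Type := List (ℕ × ℕ)

/-- the number of memory cells -/
def mm (F : Fm) : ℕ := 8 * F.length + 8

/-- the coordinates that matter -/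
def co (F : Fm) : List ℕ := 0 :: F.map Prod.snd

/-- the number of a coordinate -/
def ix (F : Fm) (i : ℕ) : ℕ := List.idxOf i (co F)

/-- how many entries a token removes -/
def pops (c : ℕ) : ℕ := if c ≤ 2 then 0 else if c ≤ 5 then 2 else 1

/-- the addresses of the entries of the stack after `p` tokens -/
def stk (F : Fm) (p : ℕ) : List ℕ := ((List.range F.length).take p).foldl
  (fun st q => (8 * q + 3) :: st.drop (pops (F.getD q (0, 0)).1)) []

/-- the checks of the token `c` at the position `p` -/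
def tc (F : Fm) (p : ℕ) (st : List ℕ) (c : ℕ × ℕ) : List Q :=
  if c.1 = 0 then [(2, 8 * p + 3, 0, 0)]
  else if c.1 = 1 then [(0, 8 * ix F c.2 + 1, 0, 8 * p + 3)]
  else if c.1 = 2 then [(0, 8 * ix F c.2 + 2, 0, 8 * p + 3)]
  else if c.1 = 3 then [(0, st.getD 1 0, st.getD 0 0, 8 * p + 3)]
  else if c.1 = 4 then [(0, 8 * p + 3, st.getD 0 0, st.getD 1 0)]
  else if c.1 = 5 then [(1, st.getD 1 0, st.getD 0 0, 8 * p + 3)]
  else [(1, 8 * p + 4, 8 * p + 4, 8 * p + 5), (1, st.getD 0 0, 8 * p + 5, 8 * p + 6),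
    (1, 8 * p + 3, 8 * p + 6, 8 * p + 3), (0, st.getD 0 0, 8 * p + 5, 8 * p + 7),
    (1, 8 * p + 3, 8 * p + 7, 8 * p + 7)]

/-- the old state is copied -/
def c1 (F : Fm) : List Q := (List.range (F.length + 1)).map fun k => (0, 8 * k + 2, 0, 8 * k + 1)

/-- the formula is evaluated -/
def c2 (F : Fm) : List Q :=
  ((List.range F.length).flatMap fun p => tc F p (stk F p) (F.getD p (0, 0)))
    ++ [(2, (stk F F.length).getD 0 0, 0, 0)]

/-- the cells of the old state -/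
def g1 (F : Fm) : List ℕ := (List.range (mm F)).filter fun i => decide (i % 8 = 1)

/-- the cells of the new state and the auxiliary cells -/
def g2 (F : Fm) : List ℕ := (List.range (mm F)).filter fun i => decide (2 ≤ i % 8)

/-- one round -/
def p0 (F : Fm) : List ℕ :=
  ((g1 F).flatMap fun a => ld (mm F) a 3) ++ (((c1 F).flatMap fun q => ck (mm F) q) ++
    (((g2 F).flatMap fun a => ld (mm F) a 3) ++ (c2 F).flatMap fun q => ck (mm F) q))

/-- the final test -/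
def p1 (F : Fm) : List ℕ := ck (mm F) (2, 2, 0, 0)

variable {F : Fm}

theorem stk_succ {p : ℕ} (hp : p < F.length) :
    stk F (p + 1) = (8 * p + 3) :: (stk F p).drop (pops (F.getD p (0, 0)).1) := by
  rw [stk, List.take_succ_eq_append_getElem (by simpa using hp), List.foldl_append, stk]
  simp

theorem stk_lt {p : ℕ} (hp : p ≤ F.length) : ∀ a ∈ stk F p, a < mm F := by
  induction p with
  | zero => simp [stk]
  | succ p ih =>
    intro a ha
    rw [stk_succ hp, List.mem_cons] at ha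
    rcases ha with rfl | ha
    · unfold mm
      omega
    · exact ih (by omega) a (List.mem_of_mem_drop ha)

theorem getD_lt {st : List ℕ} (h : ∀ a ∈ st, a < mm F) (j : ℕ) : st.getD j 0 < mm F := by
  rcases lt_or_ge j st.length with hj | hj
  · rw [List.getD_eq_getElem _ _ hj]
    exact h _ (List.getElem_mem hj)
  · rw [List.getD_eq_default _ _ hj]
    unfold mm
    omega

theorem co_mem {p : ℕ} (hp : p < F.length) : (F.getD p (0, 0)).2 ∈ co F := by
  rw [List.getD_eq_getElem _ _ hp]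
  exact List.mem_cons_of_mem _ (List.mem_map_of_mem (List.getElem_mem hp))

theorem ix_le {i : ℕ} (h : i ∈ co F) : ix F i ≤ F.length := by
  have := List.idxOf_lt_length_of_mem h
  simp only [co, List.length_cons, List.length_map] at this
  unfold ix co
  omega

theorem getD_ix {i : ℕ} (h : i ∈ co F) : (co F).getD (ix F i) 0 = i := by
  rw [ix, List.getD_eq_getElem _ _ (List.idxOf_lt_length_of_mem h), List.getElem_idxOf]

theorem mem_c2 {q : Q} : q ∈ c2 F ↔ (∃ p < F.length, q ∈ tc F p (stk F p) (F.getD p (0, 0))) ∨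
    q = (2, (stk F F.length).getD 0 0, 0, 0) := by
  simp only [c2, List.mem_append, List.mem_flatMap, List.mem_range, List.mem_singleton]

theorem bd_c1 : ∀ q ∈ c1 F, Bd (mm F) q := by
  intro q hq
  obtain ⟨k, hk, rfl⟩ := List.mem_map.1 hq
  have := List.mem_range.1 hk
  simp only [Bd, mm]
  omega

theorem bd_c2 : ∀ q ∈ c2 F, Bd (mm F) q := by
  intro q hq
  have h0 : 0 < mm F := by unfold mm; omega
  rcases mem_c2.1 hq with ⟨p, hp, hq⟩ | rfl
  · have a0 := getD_lt (stk_lt hp.le) 0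
    have a1 := getD_lt (stk_lt hp.le) 1
    have a2 := ix_le (co_mem hp)
    have a3 : mm F = 8 * F.length + 8 := rfl
    unfold tc at hq
    generalize (stk F p).getD 0 0 = b0 at hq a0
    generalize (stk F p).getD 1 0 = b1 at hq a1
    split_ifs at hq <;> simp only [List.mem_cons, List.not_mem_nil, or_false] at hq
    all_goals first
      | (subst hq; simp only [Bd]; omega)
      | (rcases hq with rfl | rfl | rfl | rfl | rfl <;> simp only [Bd] <;> omega)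
  · exact ⟨getD_lt (stk_lt le_rfl) 0, h0, h0⟩

theorem tok_eq (x y : ℕ → ℝ) (s : List ℝ) (c : ℕ × ℕ) :
    tok x y s c = (tok x y s c).getD 0 0 :: s.drop (pops c.1) := by
  unfold tok pops
  split_ifs <;> first | rfl | omega

theorem getD_map {μ : ℕ → ℝ} (h0 : μ 0 = 0) (st : List ℕ) (j : ℕ) :
    (st.map μ).getD j 0 = μ (st.getD j 0) := by
  rw [← List.getD_map st 0 μ, h0]

theorem ok0 {μ : ℕ → ℝ} {a b c : ℕ} : Ok μ (0, a, b, c) ↔ μ a + μ b = μ c := Iff.rfl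

theorem ok1 {μ : ℕ → ℝ} {a b c : ℕ} : Ok μ (1, a, b, c) ↔ μ a * μ b = μ c := Iff.rfl

theorem ok2 {μ : ℕ → ℝ} {a b c : ℕ} : Ok μ (2, a, b, c) ↔ μ a = 1 := Iff.rfl

theorem sign_sound {a u s t1 t2 t3 : ℝ} (h1 : u * u = t1) (h2 : a * t1 = t2) (h3 : s * t2 = s)
    (h4 : a + t1 = t3) (h5 : s * t3 = t3) : s = if 0 < a then 1 else 0 := by
  have h6 : 0 ≤ t1 := h1 ▸ mul_self_nonneg u
  split_ifs with h
  · exact mul_right_cancel₀ (show t3 ≠ 0 by linarith) (by rw [h5, one_mul])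
  · have h7 : t2 ≤ 0 := h2 ▸ mul_nonpos_of_nonpos_of_nonneg (not_lt.1 h) h6
    exact mul_right_cancel₀ (show t2 - 1 ≠ 0 by linarith) (by linarith)

theorem tc_sound {μ x y : ℕ → ℝ} (h0 : μ 0 = 0) {p : ℕ} {st : List ℕ} {c : ℕ × ℕ}
    (hx : μ (8 * ix F c.2 + 1) = x c.2) (hy : μ (8 * ix F c.2 + 2) = y c.2)
    (h : ∀ q ∈ tc F p st c, Ok μ q) : μ (8 * p + 3) = (tok x y (st.map μ) c).getD 0 0 := by
  unfold tc at h
  unfold tok
  simp only [getD_map h0]
  split_ifs at h ⊢ <;>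
    simp only [List.forall_mem_cons, List.not_mem_nil, false_imp_iff, implies_true, and_true, ok0,
      ok1, ok2, h0, add_zero, List.getD_cons_zero] at h ⊢
  · exact h
  · rw [← h, hx]
  · rw [← h, hy]
  · exact h.symm
  · linarith
  · exact h.symm
  · rw [sign_sound h.1 h.2.1 h.2.2.1 h.2.2.2.1 h.2.2.2.2, if_pos ‹_›]
  · rw [sign_sound h.1 h.2.1 h.2.2.1 h.2.2.2.1 h.2.2.2.2, if_neg ‹_›]

/-- the witness of the sign test -/
noncomputable def wit (a : ℝ) : ℝ := if 0 < a then √(a⁻¹) else √(-a)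

theorem tc_compl {μ x y : ℕ → ℝ} (h0 : μ 0 = 0) {p : ℕ} {st : List ℕ} {c : ℕ × ℕ}
    (hx : μ (8 * ix F c.2 + 1) = x c.2) (hy : μ (8 * ix F c.2 + 2) = y c.2)
    (h3 : μ (8 * p + 3) = (tok x y (st.map μ) c).getD 0 0) {a : ℝ} (ha : a = μ (st.getD 0 0))
    (h4 : μ (8 * p + 4) = wit a) (h5 : μ (8 * p + 5) = wit a * wit a)
    (h6 : μ (8 * p + 6) = a * (wit a * wit a)) (h7 : μ (8 * p + 7) = a + wit a * wit a) :
    ∀ q ∈ tc F p st c, Ok μ q := by
  unfold tc
  unfold tok at h3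
  simp only [getD_map h0, ← ha] at h3
  split_ifs at h3 ⊢ with _ _ _ _ _ _ hp <;>
    simp only [List.forall_mem_cons, List.not_mem_nil, false_imp_iff, implies_true, and_true, ok0,
      ok1, ok2, h0, add_zero, List.getD_cons_zero, ← ha, h4, h5, h6, h7, hx, hy, true_and]
      at h3 ⊢
  · exact h3
  · exact h3.symm
  · exact h3.symm
  · exact h3.symm
  · linarith
  · exact h3.symm
  · rw [h3, wit, if_pos hp, Real.mul_self_sqrt (inv_nonneg.2 hp.le), mul_inv_cancel₀ hp.ne']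
    simp
  · rw [h3, wit, if_neg hp, Real.mul_self_sqrt (by linarith)]
    simp

theorem eval_stk {μ x y : ℕ → ℝ}
    (h : ∀ p < F.length, (F.take p).foldl (tok x y) [] = (stk F p).map μ →
      μ (8 * p + 3) = (tok x y ((stk F p).map μ) (F.getD p (0, 0))).getD 0 0)
    {p : ℕ} (hp : p ≤ F.length) : (F.take p).foldl (tok x y) [] = (stk F p).map μ := by
  induction p with
  | zero => simp [stk]
  | succ p ih =>
    have e := ih (by omega)
    rw [List.take_succ_eq_append_getElem hp, List.foldl_append, e, stk_succ hp, List.map_cons,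
      h p hp e, List.map_drop, ← tok_eq, List.getD_eq_getElem _ _ hp]
    rfl

theorem c2_sound {μ x y : ℕ → ℝ} (h0 : μ 0 = 0) (hx : ∀ i ∈ co F, μ (8 * ix F i + 1) = x i)
    (hy : ∀ i ∈ co F, μ (8 * ix F i + 2) = y i) (h : ∀ q ∈ c2 F, Ok μ q) : Holds F x y := by
  have e := eval_stk (μ := μ) (x := x) (y := y) (fun p hp _ => tc_sound h0 (hx _ (co_mem hp))
    (hy _ (co_mem hp)) fun q hq => h q (mem_c2.2 (Or.inl ⟨p, hp, hq⟩))) (le_refl F.length)
  rw [List.take_length] at e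
  rw [Holds, e, getD_map h0]
  exact ok2.1 (h _ (mem_c2.2 (Or.inr rfl)))

theorem c2_compl {x y : ℕ → ℝ} (h : Holds F x y) : ∃ μ : ℕ → ℝ, (∀ k, μ (8 * k) = 0) ∧
    (∀ k, μ (8 * k + 1) = x ((co F).getD k 0)) ∧ (∀ k, μ (8 * k + 2) = y ((co F).getD k 0)) ∧
      ∀ q ∈ c2 F, Ok μ q := by
  obtain ⟨A, hA⟩ : ∃ A : ℕ → ℝ, ∀ p, A p = ((F.take p).foldl (tok x y) []).getD 0 0 :=
    ⟨_, fun _ => rfl⟩
  obtain ⟨μ, hμ⟩ : ∃ μ : ℕ → ℝ, ∀ k j, j < 8 → μ (8 * k + j) = [0, x ((co F).getD k 0),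
      y ((co F).getD k 0), A (k + 1), wit (A k), wit (A k) * wit (A k),
      A k * (wit (A k) * wit (A k)), A k + wit (A k) * wit (A k)].getD j 0 :=
    ⟨fun i => [0, x ((co F).getD (i / 8) 0), y ((co F).getD (i / 8) 0), A (i / 8 + 1),
      wit (A (i / 8)), wit (A (i / 8)) * wit (A (i / 8)),
      A (i / 8) * (wit (A (i / 8)) * wit (A (i / 8))),
      A (i / 8) + wit (A (i / 8)) * wit (A (i / 8))].getD (i % 8) 0, fun k j hj => by
        simp only [show (8 * k + j) / 8 = k by omega, show (8 * k + j) % 8 = j by omega]⟩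
  have h0 : μ 0 = 0 := hμ 0 0 (by omega)
  have h3 : ∀ p < F.length, (F.take p).foldl (tok x y) [] = (stk F p).map μ →
      μ (8 * p + 3) = (tok x y ((stk F p).map μ) (F.getD p (0, 0))).getD 0 0 := by
    intro p hp e
    rw [← e, List.getD_eq_getElem _ _ hp, hμ p 3 (by omega)]
    show A (p + 1) = _
    rw [hA, List.take_succ_eq_append_getElem hp, List.foldl_append]
    rfl
  refine ⟨μ, fun k => hμ k 0 (by omega), fun k => hμ k 1 (by omega), fun k => hμ k 2 (by omega),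
    fun q hq => ?_⟩
  rcases mem_c2.1 hq with ⟨p, hp, hq⟩ | rfl
  · have e := eval_stk h3 hp.le
    refine tc_compl (x := x) (y := y) h0 ?_ ?_ (h3 p hp e) (a := A p) ?_ (hμ p 4 (by omega))
      (hμ p 5 (by omega)) (hμ p 6 (by omega)) (hμ p 7 (by omega)) q hq
    · rw [hμ _ 1 (by omega), getD_ix (co_mem hp)]
      rfl
    · rw [hμ _ 2 (by omega), getD_ix (co_mem hp)]
      rfl
    · rw [hA, e, getD_map h0]
  · have e := eval_stk h3 (le_refl F.length)
    rw [List.take_length] at e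
    rw [Holds, e, getD_map h0] at h
    exact ok2.2 h

theorem impl_p0 : Impl (mm F) (p0 F) fun μ μ' => ∃ ν : ℕ → ℝ,
    (∀ i < mm F, i % 8 ≠ 1 → ν i = μ i) ∧
    (∀ k ≤ F.length, ν (8 * k + 2) + ν 0 = ν (8 * k + 1)) ∧
      (∀ i < mm F, i % 8 < 2 → μ' i = ν i) ∧ ∀ q ∈ c2 F, Ok μ' q := by
  have b1 : ∀ a ∈ g1 F, a < mm F := fun a ha => List.mem_range.1 (List.mem_filter.1 ha).1
  have b2 : ∀ a ∈ g2 F, a < mm F := fun a ha => List.mem_range.1 (List.mem_filter.1 ha).1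
  refine ((impl_guesses _ b1).append ((impl_cks _ bd_c1).append ((impl_guesses _ b2).append
    (impl_cks _ bd_c2)))).congr fun μ μ' => ⟨?_, ?_⟩
  · rintro ⟨ν, h1, ν2, ⟨h2, h3⟩, ν3, h4, h5, h6⟩
    refine ⟨ν, fun i hi hn => h1 i hi (by simp [g1, hn]), fun k hk => ok0.1 (h3 _
      (List.mem_map.2 ⟨k, List.mem_range.2 (by omega), rfl⟩)), fun i hi hn => ?_,
      fun q hq => (Ok.congr (bd_c2 q hq) h5).2 (h6 q hq)⟩
    rw [h5 i hi, h4 i hi (by simp [g2, hn]), h2 i hi]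
  · rintro ⟨ν, h1, h2, h3, h4⟩
    refine ⟨ν, fun i hi hn => h1 i hi (by simpa [g1, hi] using hn), ν, ⟨fun _ _ => rfl,
      fun q hq => ?_⟩, μ', fun i hi hn => h3 i hi (by simpa [g2, hi] using hn), fun _ _ => rfl, h4⟩
    obtain ⟨k, hk, rfl⟩ := List.mem_map.1 hq
    exact ok0.2 (h2 k (by have := List.mem_range.1 hk; omega))

theorem impl_p1 : Impl (mm F) (p1 F) fun μ μ' => EqB (mm F) μ' μ ∧ μ 2 = 1 :=
  (impl_ck (by simp only [Bd, mm]; omega)).congr fun _ _ => by rw [ok2]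

theorem sound {N : ℕ} (h : Accepts (mm F) N (p0 F) (p1 F)) : Reach N F := by
  obtain ⟨σ, h0, h1, s, h2⟩ := h
  have hm : mm F = 8 * F.length + 8 := rfl
  have R := fun ρ hρ => (impl_p0 (σ ρ) _ _ fun _ _ => rfl).1 ⟨_, h1 ρ hρ, fun _ _ => rfl⟩
  have Z : ∀ ρ ≤ N, (σ ρ).mem 0 = 0 := by
    intro ρ hρ
    induction ρ with
    | zero => exact h0 0 (by omega)
    | succ ρ ih =>
      obtain ⟨ν, k1, -, k3, -⟩ := R ρ hρ
      rw [k3 0 (by omega) (by omega), k1 0 (by omega) (by omega), ih (by omega)]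
  refine ⟨fun ρ i => if i ∈ co F then (σ ρ).mem (8 * ix F i + 2) else 0, ?_, fun ρ hρ => ?_, ?_⟩
  · funext i
    beta_reduce
    split_ifs with hi
    · exact h0 _ (by have := ix_le hi; omega)
    · rfl
  · obtain ⟨ν, k1, k2, k3, k4⟩ := R ρ hρ
    refine c2_sound (Z (ρ + 1) hρ) (fun i hi => ?_) (fun i hi => (if_pos hi).symm) k4
    have := ix_le hi
    beta_reduce
    rw [if_pos hi, k3 _ (by omega) (by omega), ← k2 _ this, k1 _ (by omega) (by omega),
      k1 0 (by omega) (by omega), Z ρ hρ.le, add_zero]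
  · have := ((impl_p1 (σ N) _ _ fun _ _ => rfl).1 ⟨s, h2, fun _ _ => rfl⟩).2
    simpa [co, ix] using this

theorem compl {N : ℕ} (h : Reach N F) : Accepts (mm F) N (p0 F) (p1 F) := by
  obtain ⟨x, h0, h1, h2⟩ := h
  have hm : mm F = 8 * F.length + 8 := rfl
  have key : ∀ n ≤ N, ∃ σ : ℕ → St, (∀ i < mm F, (σ 0).mem i = 0) ∧
      (∀ ρ < n, Runs (mm F) (p0 F) (σ ρ) (σ (ρ + 1))) ∧ ∀ k ≤ F.length,
        (σ n).mem (8 * k) = 0 ∧ (σ n).mem (8 * k + 2) = x n ((co F).getD k 0) := by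
    intro n hn
    induction n with
    | zero => exact ⟨fun _ => ⟨fun _ => False, fun _ => 0, fun _ => 0⟩, fun _ _ => rfl,
        fun _ h => absurd h (by omega), fun k _ => ⟨rfl, by rw [h0]; rfl⟩⟩
    | succ n ih =>
      obtain ⟨σ, a1, a2, a3⟩ := ih (by omega)
      obtain ⟨μ, b0, b1, b2, b3⟩ := c2_compl (h1 n hn)
      obtain ⟨s', c1, c2⟩ := (impl_p0 (σ n) _ μ fun _ _ => rfl).2
        ⟨fun i => if i % 8 = 1 then μ i else (σ n).mem i, fun i _ hi => if_neg hi, fun k hk => by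
          beta_reduce
          rw [if_neg (by omega), if_neg (by omega), if_pos (by omega), b1, (a3 k hk).2,
            (a3 0 (by omega)).1, add_zero], fun i hi hn => by
          beta_reduce
          split_ifs with e
          · rfl
          · obtain ⟨k, rfl⟩ : ∃ k, i = 8 * k := ⟨i / 8, by omega⟩
            rw [b0, (a3 k (by omega)).1], b3⟩
      refine ⟨Function.update σ (n + 1) s', ?_, fun ρ hρ => ?_, fun k hk => ?_⟩
      · rwa [Function.update_of_ne (by omega)]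
      · rw [Function.update_of_ne (by omega)]
        rcases eq_or_ne ρ n with rfl | e
        · rwa [Function.update_self]
        · rw [Function.update_of_ne (by omega)]
          exact a2 ρ (by omega)
      · rw [Function.update_self, c2 _ (by omega), c2 _ (by omega)]
        exact ⟨b0 k, b2 k⟩
  obtain ⟨σ, a1, a2, a3⟩ := key N le_rfl
  obtain ⟨s, hs, -⟩ := (impl_p1 (σ N) _ _ fun _ _ => rfl).2
    ⟨fun _ _ => rfl, (a3 0 (by omega)).2.trans h2⟩
  exact ⟨σ, a1, a2, s, hs⟩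

theorem ld_lt {a c : ℕ} (hc : c < 10) : ∀ d ∈ ld m a c, d < 10 := by
  intro d hd
  simp only [ld, List.mem_cons, List.mem_append, List.mem_replicate, List.not_mem_nil,
    or_false] at hd
  rcases hd with h | ⟨-, h⟩ | h <;> omega

theorem ck_lt (q : Q) : ∀ d ∈ ck m q, d < 10 := by
  intro d hd
  simp only [ck, List.mem_append, List.mem_singleton] at hd
  rcases hd with h | h | h | h
  · exact ld_lt (by omega) d h
  · exact ld_lt (by omega) d h
  · exact ld_lt (by omega) d h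
  · omega

theorem cmd_lt (F : Fm) : ∀ c ∈ p0 F ++ p1 F, c < 10 := by
  intro d hd
  simp only [p0, p1, List.mem_append, List.mem_flatMap] at hd
  rcases hd with (⟨a, -, h⟩ | ⟨a, -, h⟩ | ⟨a, -, h⟩ | ⟨a, -, h⟩) | h
  · exact ld_lt (by omega) d h
  · exact ck_lt _ d h
  · exact ld_lt (by omega) d h
  · exact ck_lt _ d h
  · exact ck_lt _ d h

theorem pt_mm : IsPolyTime mm := by
  unfold mm
  fun_prop

theorem bdd_mm : PolyBdd mm := by
  unfold mm
  fun_prop

theorem pt_ld (c : ℕ) : IsPolyTime fun z : Fm × ℕ => ld (mm z.1) z.2 c := by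
  have h1 : IsPolyTime fun z : Fm × ℕ => mm z.1 := pt_mm.comp (by fun_prop)
  have h2 : PolyBdd fun z : Fm × ℕ => mm z.1 := bdd_mm.comp (by fun_prop)
  exact (IsPolyTime.const 1).cons ((IsPolyTime.replicate (by fun_prop)
    (PolyBdd.min_right _ h2) (IsPolyTime.const 2)).append (IsPolyTime.const [c]))

theorem pt_ck : IsPolyTime fun z : Fm × Q => ck (mm z.1) z.2 :=
  ((pt_ld 4).comp (g := fun z : Fm × Q => (z.1, z.2.2.1)) (by fun_prop)).append
    (((pt_ld 5).comp (g := fun z : Fm × Q => (z.1, z.2.2.2.1)) (by fun_prop)).append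
      (((pt_ld 6).comp (g := fun z : Fm × Q => (z.1, z.2.2.2.2)) (by fun_prop)).append
        (by fun_prop)))

theorem pt_stk : IsPolyTime fun z : Fm × ℕ => stk z.1 z.2 := by
  unfold stk pops
  refine IsPolyTime.foldl_grow (by fun_prop) (by fun_prop) (by fun_prop)
    (fun z => 16 * z.1.length + 7) (by fun_prop) fun z s b hb => ?_
  have h1 := List.mem_range.1 (List.mem_of_mem_take hb)
  have h2 := bsize_nat_le_self (8 * b + 3)
  have h3 := bsize_sublist (List.drop_sublist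
    (if (z.1.getD b (0, 0)).1 ≤ 2 then 0 else if (z.1.getD b (0, 0)).1 ≤ 5 then 2 else 1) s)
  rw [bsize_cons]
  omega

theorem pt_tc : IsPolyTime fun z : Fm × ℕ × List ℕ × ℕ × ℕ => tc z.1 z.2.1 z.2.2.1 z.2.2.2 := by
  unfold tc ix co
  fun_prop

theorem pt_c2 : IsPolyTime c2 := by
  have h : IsPolyTime fun F : Fm => stk F F.length :=
    pt_stk.comp (g := fun F : Fm => (F, F.length)) (by fun_prop)
  refine (IsPolyTime.flatMap (pt_tc.comp (g := fun z : Fm × ℕ =>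
    (z.1, z.2, stk z.1 z.2, z.1.getD z.2 (0, 0))) ?_) (by fun_prop)).append (by fun_prop)
  have := pt_stk
  fun_prop

theorem pt_p0 : IsPolyTime p0 := by
  have h1 := pt_mm
  have h2 := bdd_mm
  have a1 : IsPolyTime g1 := by unfold g1; fun_prop
  have a2 : IsPolyTime g2 := by unfold g2; fun_prop
  have a3 : IsPolyTime c1 := by unfold c1; fun_prop
  exact (IsPolyTime.flatMap (pt_ld 3) a1).append ((IsPolyTime.flatMap pt_ck a3).append
    ((IsPolyTime.flatMap (pt_ld 3) a2).append (IsPolyTime.flatMap pt_ck pt_c2)))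

theorem pt_p1 : IsPolyTime p1 :=
  pt_ck.comp (g := fun F : Fm => (F, ((2, 2, 0, 0) : Q))) (by fun_prop)

end Prog

theorem exists_prog : ∃ (m : List (ℕ × ℕ) → ℕ) (P₀ P₁ : List (ℕ × ℕ) → List ℕ),
    IsPolyTime m ∧ PolyBdd m ∧ IsPolyTime P₀ ∧ IsPolyTime P₁ ∧ (∀ F, ∀ c ∈ P₀ F ++ P₁ F, c < 10) ∧
      ∀ N F, Reach N F ↔ Accepts (m F) N (P₀ F) (P₁ F) :=
  ⟨Prog.mm, Prog.p0, Prog.p1, Prog.pt_mm, Prog.bdd_mm, Prog.pt_p0, Prog.pt_p1, Prog.cmd_lt,
    fun _ _ => ⟨Prog.compl, Prog.sound⟩⟩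

end Pool.Agent.Lib.MP_79902f_lc.W
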