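import Pool.Agent.Lib.MP_79902f_lc.WAbs
import Pool.Agent.Lib.MP_79902f_lc.EqFixW

/-!
The pointer machine on the pyramid.
-/

namespace Pool.Agent.Lib.MP_79902f_lc.W

open Set

namespace Pyr

/-! ### Sequences of states -/

/-- The state cut down to the first `m` cells. -/
noncomputable def nrm (m : ℕ) (s : St) : St :=
  ⟨fun i => i < m ∧ s.ptr i, fun i => if i < m then s.mem i else 0, s.reg⟩

theorem step_nrm {m c : ℕ} {s u : St} (h : Step m c s u) : Step m c (nrm m s) (nrm m u) := by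
  obtain ⟨h1, h2, h3, h4, h5⟩ := h
  refine ⟨fun i hi => ?_, fun i hi hc => ?_, h3, fun k hk i hi hp hq => ?_, h5⟩
  · have h6 : i - 1 < m := by omega
    simp only [nrm, hi, h6, true_and]
    exact h1 i hi
  · simp only [nrm, hi, true_and, if_true] at hc ⊢
    exact h2 i hi hc
  · simp only [nrm, hi, true_and, if_true] at hp ⊢
    exact h4 k hk i hi hp fun i' h6 h7 h8 => hq i' h6 h7 ⟨h7, h8⟩

theorem nrm_eq {m : ℕ} {s u : St} (h : Step m 0 s u) : nrm m u = nrm m s := by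
  obtain ⟨h1, h2, h3, -, -⟩ := h
  have e1 : (fun i => i < m ∧ u.ptr i) = fun i => i < m ∧ s.ptr i := by
    funext i
    refine propext (and_congr_right fun hi => ?_)
    simpa using h1 i hi
  have e2 : (fun i => if i < m then u.mem i else 0) = fun i => if i < m then s.mem i else 0 := by
    funext i
    split_ifs with hi
    · exact h2 i hi (by simp)
    · rfl
  have e3 : u.reg = s.reg := funext fun k => h3 k (by omega)
  simp only [nrm, e1, e2, e3]

theorem step_nop (m : ℕ) (s : St) : Step m 0 s s :=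
  ⟨fun i _ => by simp, fun _ _ _ => rfl, fun _ _ => rfl, fun k hk => by omega, fun o ho => by omega⟩

theorem runs_of_seq {m : ℕ} (e : ℕ → St) (l : List ℕ) (a : ℕ)
    (h : ∀ i < l.length, Step m (l.getD i 0) (e (a + i)) (e (a + i + 1))) :
    Runs m l (e a) (e (a + l.length)) := by
  induction l generalizing a with
  | nil => simp [Runs]
  | cons c l ih =>
    refine ⟨e (a + 1), by simpa using h 0 (by simp), ?_⟩
    have h1 := ih (a + 1) fun i hi => by
      have h2 := h (i + 1) (by simpa using hi)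
      rw [List.getD_cons_succ] at h2
      rwa [show a + 1 + i = a + (i + 1) by omega]
    rwa [show a + 1 + l.length = a + (c :: l).length by simp; omega] at h1

theorem seq_of_runs {m : ℕ} {l : List ℕ} {s s' : St} (h : Runs m l s s') :
    ∃ e : ℕ → St, e 0 = s ∧ e l.length = s' ∧
      ∀ i < l.length, Step m (l.getD i 0) (e i) (e (i + 1)) := by
  induction l generalizing s with
  | nil => exact ⟨fun _ => s, rfl, h.symm, fun i hi => by simp at hi⟩
  | cons c l ih =>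
    obtain ⟨u, h1, h2⟩ := h
    obtain ⟨e, e0, e1, e2⟩ := ih h2
    refine ⟨fun i => match i with | 0 => s | i + 1 => e i, rfl, e1, fun i hi => ?_⟩
    rcases i with _ | i
    · simpa [e0] using h1
    · simpa using e2 i (by simpa using hi)

/-- The command number `i` of the round `ρ`. -/
def gc (N : ℕ) (P₀ P₁ : List ℕ) (ρ i : ℕ) : ℕ :=
  if (i < P₀.length ∧ ρ < N) ∨ (P₀.length ≤ i ∧ ρ = N) then (P₀ ++ P₁).getD i 0 else 0

/-- The commands of the single steps. -/
structure Cm (r N : ℕ) (P₀ P₁ : List ℕ) (cm : ℕ → ℕ) : Prop where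
  pow : ∀ ρ < 2 ^ r, ∀ i < (P₀ ++ P₁).length,
    cm (ρ * 2 ^ (P₀ ++ P₁).length + 2 ^ i) = gc N P₀ P₁ ρ i
  nop : ∀ ρ < 2 ^ r, ∀ u < 2 ^ (P₀ ++ P₁).length, (∀ i, u ≠ 2 ^ i) →
    cm (ρ * 2 ^ (P₀ ++ P₁).length + u) = 0

/-- A sequence of `K` states. -/
def Seq (m K : ℕ) (cm : ℕ → ℕ) : Prop :=
  ∃ τ : ℕ → St, (∀ i < m, (τ 0).mem i = 0) ∧ ∀ n, n + 1 < K → Step m (cm (n + 1)) (τ n) (τ (n + 1))

theorem lt_pow {r L ρ u : ℕ} (h : ρ < 2 ^ r) (hu : u < 2 ^ L) : ρ * 2 ^ L + u < 2 ^ (r + L) := by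
  rw [pow_add]
  have := Nat.mul_le_mul_right (2 ^ L) (Nat.succ_le_of_lt h)
  rw [Nat.succ_mul] at this
  omega

theorem accepts_of_rounds {m N : ℕ} {P₀ P₁ : List ℕ} (E : ℕ → ℕ → St)
    (h0 : ∀ i < m, (E 0 0).mem i = 0)
    (h1 : ∀ ρ ≤ N, ∀ i < (P₀ ++ P₁).length, Step m (gc N P₀ P₁ ρ i) (E ρ i) (E ρ (i + 1)))
    (h2 : ∀ ρ ≤ N, ∀ i < (P₀ ++ P₁).length, gc N P₀ P₁ ρ i = 0 → E ρ (i + 1) = E ρ i)
    (h3 : ∀ ρ < N, E (ρ + 1) 0 = E ρ (P₀ ++ P₁).length) : Accepts m N P₀ P₁ := by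
  rw [List.length_append] at h1 h2 h3
  refine ⟨fun ρ => E ρ 0, h0, fun ρ hρ => ?_, E N (P₀.length + P₁.length), ?_⟩
  · have h4 := runs_of_seq (m := m) (E ρ) P₀ 0 fun i hi => by
      have h5 := h1 ρ hρ.le i (by omega)
      rw [gc, if_pos (Or.inl ⟨hi, hρ⟩), List.getD_append _ _ _ _ hi] at h5
      simpa using h5
    have h5 : ∀ k ≤ P₁.length, E ρ (P₀.length + k) = E ρ P₀.length := by
      intro k hk
      induction k with
      | zero => rfl
      | succ k ih =>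
        rw [← ih (by omega), ← add_assoc]
        exact h2 ρ hρ.le _ (by omega) (if_neg (by omega))
    simp only [h3 ρ hρ, h5 _ le_rfl]
    simpa using h4
  · have h5 : ∀ k ≤ P₀.length, E N k = E N 0 := by
      intro k hk
      induction k with
      | zero => rfl
      | succ k ih =>
        rw [← ih (by omega)]
        exact h2 N le_rfl _ (by omega) (if_neg (by omega))
    have h4 := runs_of_seq (m := m) (E N) P₁ P₀.length fun i hi => by
      have h6 := h1 N le_rfl (P₀.length + i) (by omega)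
      rw [gc, if_pos (Or.inr ⟨by omega, rfl⟩), List.getD_append_right _ _ _ _ (by omega),
        Nat.add_sub_cancel_left] at h6
      exact h6
    rwa [h5 _ le_rfl] at h4

theorem accepts_of_seq {r m N : ℕ} {P₀ P₁ : List ℕ} {cm : ℕ → ℕ} (hN : N < 2 ^ r)
    (hc : Cm r N P₀ P₁ cm) (h : Seq m (2 ^ (r + (P₀ ++ P₁).length)) cm) : Accepts m N P₀ P₁ := by
  obtain ⟨τ, h0, h1⟩ := h
  obtain ⟨hp, hn⟩ := hc
  generalize hL : (P₀ ++ P₁).length = L at *
  have key : ∀ ρ < 2 ^ r, ∀ i < L, ∀ k, k < 2 ^ i →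
      nrm m (τ (ρ * 2 ^ L + 2 ^ i + k)) = nrm m (τ (ρ * 2 ^ L + 2 ^ i)) := by
    intro ρ hρ i hi k hk
    induction k with
    | zero => rfl
    | succ k ih =>
      have h2 : 2 ^ (i + 1) ≤ 2 ^ L := Nat.pow_le_pow_right two_pos hi
      have h3 : 2 ^ i + (k + 1) < 2 ^ (i + 1) := by rw [pow_succ]; omega
      have h4 := h1 (ρ * 2 ^ L + 2 ^ i + k) (by
        have := lt_pow (u := 2 ^ i + (k + 1)) hρ (lt_of_lt_of_le h3 h2)
        omega)
      have h5 := hn ρ hρ (2 ^ i + (k + 1)) (lt_of_lt_of_le h3 h2) fun j hj => by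
        have h6 : 2 ^ i < 2 ^ j := by omega
        have h7 : 2 ^ j < 2 ^ (i + 1) := by omega
        rw [Nat.pow_lt_pow_iff_right one_lt_two] at h6 h7
        omega
      rw [show ρ * 2 ^ L + 2 ^ i + k + 1 = ρ * 2 ^ L + (2 ^ i + (k + 1)) by omega, h5] at h4
      rw [← ih (by omega), add_assoc]
      exact nrm_eq h4
  have key2 : ∀ ρ ≤ N, ∀ i < L, Step m (gc N P₀ P₁ ρ i) (τ (ρ * 2 ^ L + 2 ^ i - 1))
      (τ (ρ * 2 ^ L + 2 ^ i)) ∧ nrm m (τ (ρ * 2 ^ L + 2 ^ (i + 1) - 1)) =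
        nrm m (τ (ρ * 2 ^ L + 2 ^ i)) := by
    intro ρ hρ i hi
    have hρ' : ρ < 2 ^ r := by omega
    have h2 : 0 < 2 ^ i := by positivity
    have h3 := lt_pow (u := 2 ^ i) hρ' (Nat.pow_lt_pow_right one_lt_two hi)
    have h4 := h1 (ρ * 2 ^ L + 2 ^ i - 1) (by omega)
    rw [show ρ * 2 ^ L + 2 ^ i - 1 + 1 = ρ * 2 ^ L + 2 ^ i by omega, hp ρ hρ' i hi] at h4
    refine ⟨h4, ?_⟩
    rw [← key ρ hρ' i hi (2 ^ i - 1) (by omega), pow_succ]
    congr 2
    omega
  refine accepts_of_rounds (fun ρ i => nrm m (τ (ρ * 2 ^ L + 2 ^ i - 1))) (fun i hi => ?_)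
    (fun ρ hρ i hi => ?_) (fun ρ hρ i hi h => ?_) fun ρ hρ => ?_
  · simp [nrm, hi, h0 i hi]
  · rw [hL] at hi
    rw [(key2 ρ hρ i hi).2]
    exact step_nrm (key2 ρ hρ i hi).1
  · rw [hL] at hi
    have h2 := (key2 ρ hρ i hi).1
    rw [h] at h2
    rw [(key2 ρ hρ i hi).2]
    exact nrm_eq h2
  · have h2 : 0 < 2 ^ L := by positivity
    have h3 := lt_pow (ρ := ρ + 1) (r := r) (by omega) h2
    have h4 := hn (ρ + 1) (by omega) 0 h2 fun i => (by positivity : 0 < 2 ^ i).ne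
    rw [Nat.succ_mul] at h3 h4
    have h5 := h1 (ρ * 2 ^ L + 2 ^ L - 1) (by omega)
    rw [show ρ * 2 ^ L + 2 ^ L - 1 + 1 = ρ * 2 ^ L + 2 ^ L + 0 by omega, h4] at h5
    rw [hL, Nat.succ_mul]
    exact nrm_eq h5

theorem rounds_of_accepts {m N : ℕ} {P₀ P₁ : List ℕ} (h : Accepts m N P₀ P₁) :
    ∃ E : ℕ → ℕ → St, (∀ i < m, (E 0 0).mem i = 0) ∧
      (∀ ρ, ∀ i < (P₀ ++ P₁).length, Step m (gc N P₀ P₁ ρ i) (E ρ i) (E ρ (i + 1))) ∧
      ∀ ρ, E (ρ + 1) 0 = E ρ (P₀ ++ P₁).length := by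
  obtain ⟨σ, h0, h1, s, h2⟩ := h
  obtain ⟨f, f0, -, f2⟩ := seq_of_runs h2
  have h3 : ∀ ρ, ∃ e : ℕ → St, ρ < N → e 0 = σ ρ ∧ e P₀.length = σ (ρ + 1) ∧
      ∀ i < P₀.length, Step m (P₀.getD i 0) (e i) (e (i + 1)) := by
    intro ρ
    by_cases hρ : ρ < N
    · obtain ⟨e, he⟩ := seq_of_runs (h1 ρ hρ)
      exact ⟨e, fun _ => he⟩
    · exact ⟨σ, fun h => absurd h hρ⟩
  choose e he using h3
  rw [List.length_append]
  refine ⟨fun ρ i => if ρ < N then e ρ (min i P₀.length) else if ρ = N then f (i - P₀.length)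
    else f P₁.length, fun i hi => ?_, fun ρ i hi => ?_, fun ρ => ?_⟩
  · rcases Nat.eq_zero_or_pos N with hN | hN
    · simp [hN, f0, h0 i hi]
    · simp [hN, (he 0 hN).1, h0 i hi]
  · rcases lt_trichotomy ρ N with hρ | hρ | hρ
    · simp only [hρ, if_true]
      by_cases h4 : i < P₀.length
      · rw [gc, if_pos (Or.inl ⟨h4, hρ⟩), List.getD_append _ _ _ _ h4, min_eq_left h4.le,
          min_eq_left (by omega)]
        exact (he ρ hρ).2.2 i h4
      · rw [gc, if_neg (by omega), min_eq_right (by omega), min_eq_right (by omega)]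
        exact step_nop _ _
    · simp only [hρ, lt_irrefl, if_false, if_true]
      by_cases h4 : i < P₀.length
      · rw [gc, if_neg (by omega), show i - P₀.length = 0 by omega,
          show i + 1 - P₀.length = 0 by omega]
        exact step_nop _ _
      · rw [gc, if_pos (Or.inr ⟨by omega, rfl⟩), List.getD_append_right _ _ _ _ (by omega),
          show i + 1 - P₀.length = i - P₀.length + 1 by omega]
        exact f2 _ (by omega)
    · simp only [hρ.not_gt, hρ.ne', if_false]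
      rw [gc, if_neg (by omega)]
      exact step_nop _ _
  · rcases lt_trichotomy ρ N with hρ | hρ | hρ
    · simp only [hρ, if_true, Nat.zero_min, Nat.zero_sub, min_eq_right (Nat.le_add_right _ _),
        (he ρ hρ).2.1]
      by_cases h4 : ρ + 1 < N
      · rw [if_pos h4, (he _ h4).1]
      · rw [if_neg h4, if_pos (by omega), f0, show N = ρ + 1 by omega]
    · simp [hρ]
    · simp only [hρ.not_gt, hρ.ne', if_false]
      rw [if_neg (by omega), if_neg (by omega)]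

theorem seq_of_accepts {r m N : ℕ} {P₀ P₁ : List ℕ} {cm : ℕ → ℕ}
    (hc : Cm r N P₀ P₁ cm) (h : Accepts m N P₀ P₁) : Seq m (2 ^ (r + (P₀ ++ P₁).length)) cm := by
  obtain ⟨E, h0, h1, h2⟩ := rounds_of_accepts h
  obtain ⟨hp, hn⟩ := hc
  generalize (P₀ ++ P₁).length = L at *
  have hL : 0 < 2 ^ L := by positivity
  refine ⟨fun n => E (n / 2 ^ L) (n % 2 ^ L).size, by simpa using h0, fun n hn' => ?_⟩
  obtain ⟨ρ, u, hu, rfl⟩ : ∃ ρ u, u < 2 ^ L ∧ n = ρ * 2 ^ L + u :=
    ⟨n / 2 ^ L, n % 2 ^ L, Nat.mod_lt _ hL, by rw [mul_comm, Nat.div_add_mod]⟩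
  have e1 : ∀ ρ u, u < 2 ^ L → (ρ * 2 ^ L + u) / 2 ^ L = ρ ∧ (ρ * 2 ^ L + u) % 2 ^ L = u := by
    intro ρ u hu
    rw [add_comm, Nat.add_mul_div_right _ _ hL, Nat.add_mul_mod_self_right, Nat.div_eq_of_lt hu,
      Nat.mod_eq_of_lt hu]
    simp
  have e2 : ∀ ρ u, ρ * 2 ^ L + u < 2 ^ (r + L) → ρ < 2 ^ r := by
    intro ρ u h
    rw [pow_add] at h
    exact lt_of_mul_lt_mul_right (lt_of_le_of_lt (Nat.le_add_right _ _) h) (Nat.zero_le _)
  have e3 : ∀ i, (2 ^ i - 1).size = i := by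
    intro i
    have h3 : 0 < 2 ^ i := by positivity
    refine le_antisymm (Nat.size_le.2 (by omega)) ?_
    rcases i with _ | i
    · simp
    · have h4 : 0 < 2 ^ i := by positivity
      exact Nat.lt_size.2 (by rw [pow_succ]; omega)
  simp only [(e1 ρ u hu).1, (e1 ρ u hu).2]
  by_cases h3 : u + 1 < 2 ^ L
  · rw [add_assoc] at hn' ⊢
    have hρ := e2 _ _ hn'
    rw [(e1 ρ _ h3).1, (e1 ρ _ h3).2]
    by_cases h4 : ∃ i, u + 1 = 2 ^ i
    · obtain ⟨i, hi⟩ := h4
      have h5 : i < L := by rwa [hi, Nat.pow_lt_pow_iff_right one_lt_two] at h3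
      rw [hi, hp ρ hρ i h5, Nat.size_pow, show u = 2 ^ i - 1 by omega, e3]
      exact h1 ρ i h5
    · have h5 : (u + 1).size = u.size := by
        refine le_antisymm (Nat.size_le.2 ?_) (Nat.size_le_size (by omega))
        have h6 := Nat.lt_size_self u
        have h7 : u + 1 ≠ 2 ^ u.size := fun h => h4 ⟨_, h⟩
        omega
      rw [hn ρ hρ _ h3 (fun i h => h4 ⟨i, h⟩), h5]
      exact step_nop _ _
  · have h4 : ρ * 2 ^ L + u + 1 = (ρ + 1) * 2 ^ L + 0 := by rw [Nat.succ_mul]; omega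
    rw [h4] at hn' ⊢
    rw [(e1 _ _ hL).1, (e1 _ _ hL).2, hn _ (e2 _ _ hn') 0 hL fun i => (by positivity : 0 < 2 ^ i).ne,
      show u = 2 ^ L - 1 by omega, e3, Nat.size_zero, h2]
    exact step_nop _ _

section

/-! ### The labels -/

/-- The flags. -/
abbrev Fl : Type := Fin 4 × Bool × Fin 10

/-- The part of a label that is determined from above. -/
structure Ctl where
  first : Bool
  cmp : Fin 3
  z : Bool
  cmd : Fin 10
  kind : Fin 4

instance : Finite Ctl :=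
  Finite.of_injective (fun a : Ctl => (a.first, a.cmp, a.z, a.cmd, a.kind)) fun a b h => by
    cases a
    cases b
    simp only [Prod.mk.injEq] at h
    simp [h]

/-- The child on the side `b`. -/
def child (e : Fl) (a : Ctl) (b : Bool) : Ctl where
  first := a.first && !b
  cmp := if e.1 = 0 ∧ a.cmp = 1 then (if b = e.2.1 then 1 else if b = true then 2 else 0) else a.cmp
  z := if e.1 = 0 then a.z else a.z && !b
  cmd := if b = false then a.cmd else
    if e.1 = 1 ∧ a.z = true ∧ (e.2.1 = false ∧ a.cmp = 0 ∨ e.2.1 = true ∧ a.cmp = 1) then e.2.2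
    else 0
  kind := e.1

/-- The determined part of the label of the cell `n` of the level `t`. -/
def ctl (pl : ℕ → Fl) : ℕ → ℕ → Ctl
  | 0, _ => ⟨true, 1, true, 0, 0⟩
  | t + 1, n => child (pl t) (ctl pl t (n / 2)) (decide (n % 2 = 1))

/-- Labels of the cells below the root: the determined part, the old and the new pointer bit. -/
abbrev Lab : Type := Ctl × Bool × Bool

/-- The vertical constraint. -/
def VL (e : Fl) (a a' : Lab) (b : Bool) : Prop :=
  a'.1 = child e a.1 b ∧ (e.1 = 2 → (a'.2.2 = true ↔ if (a'.1.cmd : ℕ) = 1 then e.2.1 = true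
    else if (a'.1.cmd : ℕ) = 2 then a.2.1 = true else a'.2.1 = true)) ∧ (e.1 ≠ 2 → a'.2.1 = false)

/-- The horizontal constraint. -/
def NxL (a a' : Lab) : Prop := a'.1.kind = 2 → a'.1.first = false → a'.2.1 = a.2.2

/-- Slots kept from the left neighbour. -/
def holdL (a : Lab) (s : Fin 5) : Prop :=
  a.1.first = false ∧ (a.1.kind = 2 ∧ s = 0 ∧ ¬ ((a.1.cmd : ℕ) = 3 ∧ a.2.1 = true) ∨
    a.1.kind = 3 ∧ 2 ≤ (s : ℕ) ∧ (a.1.cmd : ℕ) ≠ s + 2)

/-- Slots kept from the parent. -/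
def downL (a : Lab) (s : Fin 5) : Prop :=
  s = 1 ∧ 4 ≤ (a.1.cmd : ℕ) ∧ (a.1.cmd : ℕ) ≤ 6 ∧ (a.1.kind = 2 ∧ a.2.1 = false ∨ a.1.kind = 3)

/-- Equal slots. -/
def eqvL (a : Lab) (s s' : Fin 5) : Prop :=
  4 ≤ (a.1.cmd : ℕ) ∧ (a.1.cmd : ℕ) ≤ 6 ∧ (a.1.kind = 2 ∧ a.2.1 = true ∧ s = 0 ∧ s' = 1 ∨
    a.1.kind = 3 ∧ s = 1 ∧ (a.1.cmd : ℕ) = s' + 2)

/-- Empty memory. -/
def zeroL (a : Lab) : Prop := a.1.kind = 2 ∧ a.1.first = true

/-- Checks. -/
def chkL (a : Lab) (o : Fin 3) : Prop := a.1.kind = 3 ∧ (a.1.cmd : ℕ) = 7 + o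

/-- The label of the root. -/
def rootL : Lab := (⟨true, 1, true, 0, 0⟩, false, false)

/-- A property of the living labels. -/
def on (P : Lab → Prop) : Option Lab → Prop
  | none => False
  | some l => P l

/-- The vertical constraint on all labels. -/
def VO (e : Fl) : Option Lab → Option Lab → Bool → Prop
  | none, a', _ => a' = none
  | some l, a', b => on (fun l' => VL e l l' b) a'

/-- The horizontal constraint on all labels. -/
def NxO : Option Lab → Option Lab → Prop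
  | some l, some l' => NxL l l'
  | _, _ => True

/-- The system. -/
def sys : RSys Fl (Option Lab) where
  root := some rootL
  idle := none
  V := VO
  Nx := NxO
  first := on fun l => l.1.first = true
  hold a s := on (fun l => holdL l s) a
  down a s := on (fun l => downL l s) a
  eqv a s s' := on (fun l => eqvL l s s') a
  zero := on zeroL
  chk a o := on (fun l => chkL l o) a
  first_root := rfl
  first_V e a a' b h := by
    rcases a with _ | l
    · have h' : a' = none := h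
      simp [h', on]
    · rcases a' with _ | l'
      · exact h.elim
      · have h' : l'.1 = child e l.1 b := h.1
        simp [on, h', child]

/-- A run, the cells of each level being numbered from zero. -/
structure NRun (T : ℕ) (pl : ℕ → Fl) (l : ℕ → ℕ → Lab) (x : ℕ → ℕ → Fin 5 → ℝ) : Prop where
  root : l 0 0 = rootL
  V : ∀ t < T, ∀ n < 2 ^ t, ∀ b : Bool, VL (pl t) (l t n) (l (t + 1) (2 * n + b.toNat)) b
  down : ∀ t < T, ∀ n < 2 ^ t, ∀ s, downL (l (t + 1) (2 * n)) s → x t n s = x (t + 1) (2 * n) s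
  Nx : ∀ t ≤ T, ∀ n, n + 1 < 2 ^ t → NxL (l t n) (l t (n + 1))
  hold : ∀ t ≤ T, ∀ n, n + 1 < 2 ^ t → ∀ s, holdL (l t (n + 1)) s → x t n s = x t (n + 1) s
  eqv : ∀ t ≤ T, ∀ n < 2 ^ t, ∀ s s', eqvL (l t n) s s' → x t n s = x t n s'
  zero : ∀ t ≤ T, ∀ n < 2 ^ t, zeroL (l t n) → x t n 0 = 0
  chk : ∀ n < 2 ^ T, ∀ o, chkL (l T n) o → Chk o (x T n 2) (x T n 3) (x T n 4)

variable {T : ℕ} {pl : ℕ → Fl} {l : ℕ → ℕ → Lab} {x : ℕ → ℕ → Fin 5 → ℝ}

theorem split2 (n : ℕ) : 2 * (n / 2) + (decide (n % 2 = 1)).toNat = n := by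
  rcases Nat.mod_two_eq_zero_or_one n with h | h <;> simp [h] <;> omega

theorem half_lt {t n : ℕ} (h : n < 2 ^ (t + 1)) : n / 2 < 2 ^ t := by
  rw [pow_succ] at h
  omega

theorem NRun.V' (h : NRun T pl l x) {t n : ℕ} (ht : t < T) (hn : n < 2 ^ (t + 1)) :
    VL (pl t) (l t (n / 2)) (l (t + 1) n) (decide (n % 2 = 1)) := by
  have h1 := h.V t ht (n / 2) (half_lt hn) (decide (n % 2 = 1))
  rwa [split2] at h1

theorem NRun.ctl_eq (h : NRun T pl l x) {t n : ℕ} (ht : t ≤ T) (hn : n < 2 ^ t) :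
    (l t n).1 = ctl pl t n := by
  induction t generalizing n with
  | zero =>
    obtain rfl : n = 0 := by simpa using hn
    rw [h.root]
    rfl
  | succ t ih => rw [(h.V' ht hn).1, ih (by omega) (half_lt hn), ctl]

theorem ctl_first {t n : ℕ} (hn : n < 2 ^ t) : (ctl pl t n).first = true ↔ n = 0 := by
  induction t generalizing n with
  | zero => simpa [ctl] using hn
  | succ t ih =>
    simp only [ctl, child, Bool.and_eq_true, ih (half_lt hn), Bool.not_eq_true',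
      decide_eq_false_iff_not]
    omega

theorem in_iff (t n : ℕ) : In t (85 * 2 ^ t + (n : ℤ)) ↔ n < 2 ^ t := by
  rw [In, ← Int.ofNat_lt]
  push_cast
  constructor
  · intro h
    linarith [h.2]
  · intro h
    constructor <;> linarith [Int.natCast_nonneg n]

theorem in_ex {t : ℕ} {j : ℤ} (h : In t j) : ∃ n : ℕ, n < 2 ^ t ∧ j = 85 * 2 ^ t + (n : ℤ) := by
  obtain ⟨n, hn⟩ := Int.eq_ofNat_of_zero_le (sub_nonneg.2 h.1)
  have h1 : j = 85 * 2 ^ t + (n : ℤ) := by linarith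
  exact ⟨n, (in_iff t n).1 (h1 ▸ h), h1⟩

theorem idx_child (t n : ℕ) (b : Bool) : 2 * (85 * 2 ^ t + (n : ℤ)) + (b.toNat : ℤ) =
    85 * 2 ^ (t + 1) + ((2 * n + b.toNat : ℕ) : ℤ) := by
  push_cast
  ring

theorem idx_left (t n : ℕ) : 2 * (85 * 2 ^ t + (n : ℤ)) = 85 * 2 ^ (t + 1) + ((2 * n : ℕ) : ℤ) := by
  push_cast
  ring

theorem idx_succ (t n : ℕ) : 85 * 2 ^ t + (n : ℤ) + 1 = 85 * 2 ^ t + ((n + 1 : ℕ) : ℤ) := by
  push_cast
  ring

theorem child_lt {t n : ℕ} (h : n < 2 ^ t) (b : Bool) : 2 * n + b.toNat < 2 ^ (t + 1) := by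
  have := b.toNat_le
  rw [pow_succ]
  omega

theorem nrun_of_weak (h : sys.Weak T pl) : ∃ l x, NRun T pl l x := by
  obtain ⟨c, x, h0, h⟩ := h
  have key : ∀ t ≤ T, ∀ n : ℕ, n < 2 ^ t →
      c t (85 * 2 ^ t + (n : ℤ)) = some ((c t (85 * 2 ^ t + (n : ℤ))).getD rootL) := by
    intro t
    induction t with
    | zero =>
      intro _ n hn
      obtain rfl : n = 0 := by simpa using hn
      simp [h0, sys]
    | succ t ih =>
      intro ht n hn
      have h1 := ((h t (by omega) _ ((in_iff t _).2 (half_lt hn))).1 ht).1 (decide (n % 2 = 1))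
      rw [ih (by omega) _ (half_lt hn), idx_child, split2] at h1
      generalize c (t + 1) (85 * 2 ^ (t + 1) + (n : ℤ)) = a at h1
      rcases a with _ | a
      · exact h1.elim
      · rfl
  refine ⟨fun t n => (c t (85 * 2 ^ t + (n : ℤ))).getD rootL, fun t n => x t (85 * 2 ^ t + (n : ℤ)),
    by simp [h0, sys], fun t ht n hn b => ?_, fun t ht n hn s hs => ?_, fun t ht n hn => ?_,
    fun t ht n hn s hs => ?_, fun t ht n hn s s' hs => ?_, fun t ht n hn hs => ?_,
    fun n hn o hs => ?_⟩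
  · have h1 := ((h t ht.le _ ((in_iff t _).2 hn)).1 ht).1 b
    rw [key t ht.le n hn, idx_child, key (t + 1) ht _ (child_lt hn b)] at h1
    exact h1
  · have h1 := ((h t ht.le _ ((in_iff t _).2 hn)).1 ht).2 s
    rw [idx_left, key (t + 1) ht (2 * n) (child_lt hn false)] at h1
    exact h1 hs
  · have h1 := (h t ht _ ((in_iff t n).2 (by omega))).2.1
    rw [idx_succ, key t ht n (by omega), key t ht _ hn] at h1
    exact (h1 ((in_iff t _).2 hn)).1
  · have h1 := (h t ht _ ((in_iff t n).2 (by omega))).2.1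
    rw [idx_succ, key t ht _ hn] at h1
    exact (h1 ((in_iff t _).2 hn)).2 s hs
  · have h1 := (h t ht _ ((in_iff t n).2 hn)).2.2.1 s s'
    rw [key t ht n hn] at h1
    exact h1 hs
  · have h1 := (h t ht _ ((in_iff t n).2 hn)).2.2.2.1
    rw [key t ht n hn] at h1
    exact h1 hs
  · have h1 := (h T le_rfl _ ((in_iff T n).2 hn)).2.2.2.2 rfl o
    rw [key T le_rfl n hn] at h1
    exact h1 hs

theorem in_child {t : ℕ} {j : ℤ} (b : Bool) (h : In (t + 1) (2 * j + (b.toNat : ℤ))) : In t j := by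
  have h1 : (b.toNat : ℤ) ≤ 1 := by exact_mod_cast b.toNat_le
  have h2 : (0 : ℤ) ≤ b.toNat := Int.natCast_nonneg _
  rw [In, pow_succ] at h
  rw [In]
  omega

open Classical in
theorem strong_of_nrun (h : NRun T pl l x) (hk : ∀ t, t + 1 < T → (pl t).1 ≠ 3) :
    sys.Strong T pl := by
  obtain ⟨B, hB⟩ := (((finite_Iic T).prod ((finite_Iio (2 ^ T)).prod
    (finite_univ (α := Fin 5)))).image fun p => |x p.1 p.2.1 p.2.2|).bddAbove
  have hB' : ∀ t ≤ T, ∀ n < 2 ^ t, ∀ s, |x t n s| ≤ B := fun t ht n hn s =>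
    hB ⟨(t, n, s), ⟨ht, lt_of_lt_of_le hn (Nat.pow_le_pow_right two_pos ht), trivial⟩, rfl⟩
  obtain ⟨c, hc⟩ : ∃ c : ℕ → ℤ → Option Lab, ∀ t j,
      c t j = if In t j then some (l t (j - 85 * 2 ^ t).toNat) else none := ⟨_, fun _ _ => rfl⟩
  obtain ⟨y, hy⟩ : ∃ y : ℕ → ℤ → Fin 5 → ℝ, ∀ t j,
      y t j = if t ≤ T ∧ In t j then x t (j - 85 * 2 ^ t).toNat else 0 := ⟨_, fun _ _ => rfl⟩
  have c1 : ∀ t n : ℕ, n < 2 ^ t → c t (85 * 2 ^ t + (n : ℤ)) = some (l t n) := fun t n hn => by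
    rw [hc, if_pos ((in_iff t n).2 hn)]
    simp
  have c2 : ∀ t j, ¬ In t j → c t j = none := fun t j hj => by rw [hc, if_neg hj]
  have y1 : ∀ t ≤ T, ∀ n : ℕ, n < 2 ^ t → y t (85 * 2 ^ t + (n : ℤ)) = x t n := fun t ht n hn => by
    rw [hy, if_pos ⟨ht, (in_iff t n).2 hn⟩]
    simp
  refine ⟨c, y, B, fun t j s => ?_, fun j => ?_, fun t ht j => ⟨fun ht' => ?_, ?_, ?_⟩⟩
  · by_cases h1 : t ≤ T ∧ In t j
    · obtain ⟨n, hn, rfl⟩ := in_ex h1.2
      rw [y1 t h1.1 n hn]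
      exact hB' t h1.1 n hn s
    · rw [hy, if_neg h1]
      simpa using (abs_nonneg _).trans (hB' 0 (Nat.zero_le _) 0 (by simp) s)
  · split_ifs with hj
    · have h1 := c1 0 0 (by simp)
      rw [h.root] at h1
      simpa [hj, sys] using h1
    · exact c2 0 j fun h1 => hj (by rw [In] at h1; omega)
  · by_cases h1 : In t j
    · obtain ⟨n, hn, rfl⟩ := in_ex h1
      refine ⟨fun b => ?_, fun s hs => ?_⟩
      · rw [idx_child, c1 t n hn, c1 _ _ (child_lt hn b)]
        exact h.V t ht' n hn b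
      · rw [idx_left, c1 _ (2 * n) (child_lt hn false)] at hs
        rw [idx_left, y1 t ht n hn, y1 _ ht' (2 * n) (child_lt hn false)]
        exact h.down t ht' n hn s hs
    · refine ⟨fun b => ?_, fun s hs => ?_⟩
      · rw [c2 t j h1, c2 _ _ fun h2 => h1 (in_child b h2)]
        rfl
      · rw [c2 _ _ fun h2 => h1 (in_child false (by simpa using h2))] at hs
        exact hs.elim
  · by_cases h1 : In t (j + 1)
    · obtain ⟨n, hn, h2⟩ := in_ex h1
      rcases n with _ | n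
      · have h3 : (l t 0).1.first = true := by
          rw [h.ctl_eq ht hn]
          exact (ctl_first hn).2 rfl
        rw [h2, c1 t 0 hn, c2 t j fun h4 => by rw [In] at h4; omega]
        refine ⟨trivial, fun s hs => ?_⟩
        have h4 : (l t 0).1.first = false := hs.1
        simp [h3] at h4
      · obtain rfl : j = 85 * 2 ^ t + (n : ℤ) := by
          rw [← idx_succ] at h2
          omega
        rw [idx_succ, c1 t n (by omega), c1 t _ hn, y1 t ht n (by omega), y1 t ht _ hn]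
        exact ⟨h.Nx t ht n hn, h.hold t ht n hn⟩
    · rw [c2 t _ h1]
      refine ⟨?_, fun s hs => hs.elim⟩
      rcases c t j with _ | a <;> trivial
  · by_cases h1 : In t j
    · obtain ⟨n, hn, rfl⟩ := in_ex h1
      rw [c1 t n hn, y1 t ht n hn]
      refine ⟨h.eqv t ht n hn, h.zero t ht n hn, fun o ho => ?_⟩
      rcases ht.eq_or_lt with rfl | ht'
      · exact h.chk n hn o ho
      · have h2 : (l t n).1.kind = 3 := ho.1
        rw [h.ctl_eq ht hn] at h2
        rcases t with _ | t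
        · simp [ctl] at h2
        · exact absurd h2 (hk t ht')
    · rw [c2 t j h1]
      exact ⟨fun _ _ h => h.elim, fun h => h.elim, fun _ h => h.elim⟩

end

section

/-! ### The commands -/

variable {T : ℕ} {pl : ℕ → Fl} {l : ℕ → ℕ → Lab} {x : ℕ → ℕ → Fin 5 → ℝ}

/-- What is used of the flags. -/
structure Pl (r m N : ℕ) (P₀ P₁ : List ℕ) (pl : ℕ → Fl) : Prop where
  cnt : ∀ t < r, (pl t).1 = 0 ∧ (pl t).2.1 = N.testBit (r - 1 - t)
  prg : ∀ s i, s + i + 1 = (P₀ ++ P₁).length → (pl (r + s)).1 = 1 ∧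
    ((pl (r + s)).2.1 = true ↔ P₀.length ≤ i) ∧ ((pl (r + s)).2.2 : ℕ) = (P₀ ++ P₁).getD i 0
  mem : ∀ i < m, (pl (r + (P₀ ++ P₁).length + i)).1 = 2 ∧
    ((pl (r + (P₀ ++ P₁).length + i)).2.1 = true ↔ i = 0)
  reg : (pl (r + (P₀ ++ P₁).length + m)).1 = 3

theorem pl_plan {r m N : ℕ} {P₀ P₁ : List ℕ} (h : ∀ c ∈ P₀ ++ P₁, c < 10) :
    Pl r m N P₀ P₁ (planF r m N P₀ P₁) := by
  refine ⟨fun t ht => ?_, fun s i hs => ?_, fun i hi => ?_, ?_⟩
  · simp only [planF, plan, if_pos ht]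
    exact ⟨rfl, trivial⟩
  · have h1 : r + (P₀ ++ P₁).length - 1 - (r + s) = i := by omega
    have h2 : (P₀ ++ P₁).getD i 0 < 10 := by
      rw [List.getD_eq_getElem _ _ (by omega)]
      exact h _ (List.getElem_mem _)
    simp only [planF, plan, if_neg (by omega : ¬ r + s < r),
      if_pos (by omega : r + s < r + (P₀ ++ P₁).length), h1, decide_eq_true_eq, Fin.val_ofNat,
      Nat.mod_eq_of_lt h2]
    exact ⟨rfl, trivial, trivial⟩
  · simp only [planF, plan, if_neg (by omega : ¬ r + (P₀ ++ P₁).length + i < r),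
      if_neg (by omega : ¬ r + (P₀ ++ P₁).length + i < r + (P₀ ++ P₁).length),
      if_pos (by omega : r + (P₀ ++ P₁).length + i < r + (P₀ ++ P₁).length + m), decide_eq_true_eq]
    exact ⟨rfl, by omega⟩
  · simp only [planF, plan, if_neg (by omega : ¬ r + (P₀ ++ P₁).length + m < r),
      if_neg (by omega : ¬ r + (P₀ ++ P₁).length + m < r + (P₀ ++ P₁).length), lt_irrefl, if_false]
    rfl

variable {r m N : ℕ} {P₀ P₁ : List ℕ}

theorem Pl.counter (h : Pl r m N P₀ P₁ pl) (hN : N < 2 ^ r) {t n : ℕ} (ht : t ≤ r)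
    (hn : n < 2 ^ t) : ((ctl pl t n).cmp = 0 ↔ n < N / 2 ^ (r - t)) ∧
      ((ctl pl t n).cmp = 1 ↔ n = N / 2 ^ (r - t)) ∧ (ctl pl t n).z = true ∧
        (ctl pl t n).cmd = 0 := by
  induction t generalizing n with
  | zero =>
    obtain rfl : n = 0 := by simpa using hn
    simp [ctl, Nat.div_eq_of_lt hN]
  | succ t ih =>
    obtain ⟨i1, i2, i3, i4⟩ := ih (by omega) (half_lt hn)
    obtain ⟨h1, h2⟩ := h.cnt t ht
    have h3 : N / 2 ^ (r - t) = N / 2 ^ (r - (t + 1)) / 2 := by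
      rw [Nat.div_div_eq_div_mul, ← pow_succ]
      congr 2
      omega
    rw [Nat.testBit_eq_decide_div_mod_eq, show r - 1 - t = r - (t + 1) by omega] at h2
    rw [h3] at i1 i2
    generalize N / 2 ^ (r - (t + 1)) = q at *
    simp only [ctl, child, h1, h2, i3, i4, true_and, if_true, i2]
    refine ⟨?_, ?_, by simp⟩
    · split_ifs with h4 h5 h6
      · simp only [decide_eq_decide] at h5
        simp only [one_ne_zero, false_iff]
        omega
      · simp only [decide_eq_decide, decide_eq_true_eq] at h5 h6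
        simp only [Fin.reduceEq, false_iff]
        omega
      · simp only [decide_eq_decide, decide_eq_true_eq] at h5 h6
        simp only [true_iff]
        omega
      · rw [i1]
        omega
    · split_ifs with h4 h5 h6
      · simp only [decide_eq_decide] at h5
        simp only [true_iff]
        omega
      · simp only [decide_eq_decide, decide_eq_true_eq] at h5 h6
        simp only [Fin.reduceEq, false_iff]
        omega
      · simp only [decide_eq_decide, decide_eq_true_eq] at h5 h6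
        simp only [zero_ne_one, false_iff]
        omega
      · rw [i2]
        omega

theorem Pl.program (h : Pl r m N P₀ P₁ pl) (hN : N < 2 ^ r) {ρ : ℕ} (hρ : ρ < 2 ^ r) {s u : ℕ}
    (hs : s ≤ (P₀ ++ P₁).length) (hu : u < 2 ^ s) :
    (ctl pl (r + s) (ρ * 2 ^ s + u)).cmp = (ctl pl r ρ).cmp ∧
      ((ctl pl (r + s) (ρ * 2 ^ s + u)).z = true ↔ u = 0) ∧
      (∀ i, u = 2 ^ i → ((ctl pl (r + s) (ρ * 2 ^ s + u)).cmd : ℕ) =
        gc N P₀ P₁ ρ ((P₀ ++ P₁).length - s + i)) ∧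
      ((∀ i, u ≠ 2 ^ i) → (ctl pl (r + s) (ρ * 2 ^ s + u)).cmd = 0) := by
  obtain ⟨c1, c2, c3, c4⟩ := h.counter hN le_rfl hρ
  rw [Nat.sub_self, pow_zero, Nat.div_one] at c1 c2
  induction s generalizing u with
  | zero =>
    obtain rfl : u = 0 := by simpa using hu
    simp only [add_zero, pow_zero, mul_one, c3, c4, true_and, implies_true, and_true]
    exact fun i hi => absurd hi (by positivity : 0 < 2 ^ i).ne
  | succ s ih =>
    obtain ⟨i1, i2, i3, i4⟩ := ih (by omega) (half_lt hu)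
    obtain ⟨h1, h2, h3⟩ := h.prg s ((P₀ ++ P₁).length - (s + 1)) (by omega)
    have e1 : (ρ * 2 ^ (s + 1) + u) / 2 = ρ * 2 ^ s + u / 2 := by
      rw [pow_succ, ← mul_assoc]
      omega
    have e2 : (ρ * 2 ^ (s + 1) + u) % 2 = u % 2 := by
      rw [pow_succ, ← mul_assoc]
      omega
    rw [← add_assoc, ctl, e1, e2]
    generalize ctl pl (r + s) (ρ * 2 ^ s + u / 2) = a at *
    simp only [child, h1, one_ne_zero, false_and, if_false, i1, true_and, Bool.and_eq_true, i2,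
      Bool.not_eq_true', decide_eq_false_iff_not, c1, c2]
    refine ⟨by omega, fun i hi => ?_, fun hi => ?_⟩
    · rcases i with _ | i
      · have h4 : u = 1 := by simpa using hi
        rw [if_neg (by omega), add_zero, gc, ← h3]
        have h5 : (u / 2 = 0 ∧ ((pl (r + s)).2.1 = false ∧ ρ < N ∨ (pl (r + s)).2.1 = true ∧ ρ = N)) ↔
            ((P₀ ++ P₁).length - (s + 1) < P₀.length ∧ ρ < N ∨
              P₀.length ≤ (P₀ ++ P₁).length - (s + 1) ∧ ρ = N) := by
          rw [← Bool.not_eq_true, h2]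
          omega
        simp only [h5]
        split_ifs <;> rfl
      · rw [pow_succ] at hi
        rw [if_pos (by omega), i3 i (by omega)]
        congr 1
        omega
    · by_cases h4 : u % 2 = 1
      · have h5 := hi 0
        rw [if_neg (by omega), if_neg (by omega)]
      · rw [if_pos h4]
        refine i4 fun i h5 => hi (i + 1) ?_
        rw [pow_succ]
        omega

theorem Pl.cm (h : Pl r m N P₀ P₁ pl) (hN : N < 2 ^ r) :
    Cm r N P₀ P₁ fun n => (ctl pl (r + (P₀ ++ P₁).length) n).cmd := by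
  refine ⟨fun ρ hρ i hi => ?_, fun ρ hρ u hu hi => ?_⟩
  · have h1 := (h.program hN hρ le_rfl (Nat.pow_lt_pow_right one_lt_two hi)).2.2.1 i rfl
    rwa [Nat.sub_self, zero_add] at h1
  · have h1 := (h.program hN hρ le_rfl hu).2.2.2 hi
    simp only [h1, Fin.val_zero]

/-- What the lower levels use of the flags. -/
structure Low (D m : ℕ) (pl : ℕ → Fl) : Prop where
  top : ∀ t < D, (pl t).1 ≠ 2 ∧ (pl t).1 ≠ 3
  mem : ∀ i < m, (pl (D + i)).1 = 2 ∧ ((pl (D + i)).2.1 = true ↔ i = 0)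
  reg : (pl (D + m)).1 = 3

theorem Pl.low (h : Pl r m N P₀ P₁ pl) : Low (r + (P₀ ++ P₁).length) m pl := by
  refine ⟨fun t ht => ?_, h.mem, h.reg⟩
  by_cases h1 : t < r
  · simp [(h.cnt t h1).1]
  · have h2 := (h.prg (t - r) (r + (P₀ ++ P₁).length - 1 - t) (by omega)).1
    rw [show r + (t - r) = t by omega] at h2
    simp [h2]

variable {D : ℕ}

theorem Low.cmd (h : Low D m pl) {s : ℕ} (hs : s ≤ m + 1) (n : ℕ) :
    ((ctl pl (D + s) n).cmd : ℕ) =
      if n % 2 ^ s = 0 then ((ctl pl D (n / 2 ^ s)).cmd : ℕ) else 0 := by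
  induction s generalizing n with
  | zero => simp [Nat.mod_one]
  | succ s ih =>
    have h1 : (pl (D + s)).1 ≠ 1 := by
      rcases (Nat.le_of_succ_le_succ hs).eq_or_lt with rfl | h2
      · simp [h.reg]
      · simp [(h.mem s h2).1]
    have h2 : n % 2 ^ (s + 1) = n % 2 + 2 * (n / 2 % 2 ^ s) := by
      rw [pow_succ', Nat.mod_mul]
    rw [← add_assoc, ctl]
    simp only [child, h1, false_and, if_false, decide_eq_false_iff_not]
    by_cases h3 : n % 2 = 1
    · rw [if_neg (by omega), if_neg (by omega)]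
      rfl
    · rw [if_pos h3, ih (by omega), Nat.div_div_eq_div_mul, ← pow_succ', h2]
      congr 1
      exact propext (by omega)

theorem Low.kind2 (h : Low D m pl) {t : ℕ} (ht : t ≤ D + m + 1) (n : ℕ) :
    ((ctl pl t n).kind = 2 ↔ D < t ∧ t ≤ D + m) ∧ ((ctl pl t n).kind = 3 ↔ t = D + m + 1) := by
  rcases t with _ | t
  · simp [ctl]
  · change ((pl t).1 = 2 ↔ _) ∧ ((pl t).1 = 3 ↔ _)
    by_cases h1 : t < D
    · simp only [(h.top t h1).1, (h.top t h1).2, false_iff]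
      omega
    · obtain ⟨i, rfl⟩ := Nat.exists_eq_add_of_le (not_lt.1 h1)
      by_cases h2 : i < m
      · simp only [(h.mem i h2).1, Fin.reduceEq, false_iff, true_iff]
        omega
      · obtain rfl : i = m := by omega
        simp [h.reg]

end

section

/-! ### From runs to sequences -/

variable {D m : ℕ} {pl : ℕ → Fl} {l : ℕ → ℕ → Lab} {x : ℕ → ℕ → Fin 5 → ℝ}

theorem block {α : Type} (f : ℕ → α) {q K n : ℕ} (hq : 0 < q) (hn : (n + 1) * q ≤ K)
    (h : ∀ w, w + 1 < K → (w + 1) % q ≠ 0 → f (w + 1) = f w) : f ((n + 1) * q - 1) = f (n * q) := by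
  rw [Nat.succ_mul] at hn ⊢
  have key : ∀ u < q, f (n * q + u) = f (n * q) := by
    intro u hu
    induction u with
    | zero => rfl
    | succ u ih =>
      rw [← ih (by omega), ← add_assoc]
      refine h _ (by omega) ?_
      rw [add_assoc, Nat.mul_add_mod_of_lt hu]
      omega
  rw [← key (q - 1) (by omega)]
  congr 1
  omega

theorem left_lt {D n : ℕ} (s : ℕ) (h : n < 2 ^ D) : n * 2 ^ s < 2 ^ (D + s) :=
  lt_pow (u := 0) h (by positivity)

theorem Low.cmd_left (h : Low D m pl) {s : ℕ} (hs : s ≤ m + 1) (n : ℕ) :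
    ((ctl pl (D + s) (n * 2 ^ s)).cmd : ℕ) = (ctl pl D n).cmd := by
  rw [h.cmd hs, if_pos (Nat.mul_mod_left _ _), Nat.mul_div_cancel _ (by positivity)]

/-- The slot of a register. -/
def rg (k : Fin 3) : Fin 5 := ⟨k + 2, by omega⟩

theorem NRun.memcell (R : NRun (D + m + 1) pl l x) (h : Low D m pl) {i w : ℕ} (hi : i < m)
    (hw : w + 1 < 2 ^ (D + (i + 1))) :
    (l (D + (i + 1)) (w + 1)).2.1 = (l (D + (i + 1)) w).2.2 ∧
      (¬ (((ctl pl (D + (i + 1)) (w + 1)).cmd : ℕ) = 3 ∧ (l (D + (i + 1)) w).2.2 = true) →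
        x (D + (i + 1)) (w + 1) 0 = x (D + (i + 1)) w 0) := by
  have ht : D + (i + 1) ≤ D + m + 1 := by omega
  have e := R.ctl_eq ht hw
  have h1 : (l (D + (i + 1)) (w + 1)).1.kind = 2 := by
    rw [e, (h.kind2 ht _).1]
    omega
  have h2 : (l (D + (i + 1)) (w + 1)).1.first = false := by
    rw [e, ← Bool.not_eq_true, ctl_first hw]
    omega
  have h3 := R.Nx _ ht w hw h1 h2
  refine ⟨h3, fun h4 => (R.hold _ ht w hw 0 ⟨h2, Or.inl ⟨h1, rfl, ?_⟩⟩).symm⟩
  rwa [h3, e]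

theorem NRun.ptrcell (R : NRun (D + m + 1) pl l x) (h : Low D m pl) {i w : ℕ} (hi : i < m)
    (hw : w < 2 ^ (D + (i + 1))) :
    (l (D + (i + 1)) w).2.2 = true ↔ if ((ctl pl (D + (i + 1)) w).cmd : ℕ) = 1 then i = 0
      else if ((ctl pl (D + (i + 1)) w).cmd : ℕ) = 2 then (l (D + i) (w / 2)).2.1 = true
      else (l (D + (i + 1)) w).2.1 = true := by
  have h1 : VL (pl (D + i)) (l (D + i) (w / 2)) (l (D + (i + 1)) w) (decide (w % 2 = 1)) :=
    R.V' (by omega) hw
  have h2 := h1.2.1 (h.mem i hi).1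
  rwa [R.ctl_eq (by omega) hw, (h.mem i hi).2] at h2

theorem NRun.topcell (R : NRun (D + m + 1) pl l x) (h : Low D m pl) {w : ℕ} (hw : w < 2 ^ D) :
    (l D w).2.1 = false := by
  rcases D with _ | D
  · obtain rfl : w = 0 := by simpa using hw
    rw [R.root]
    rfl
  · exact (R.V' (by omega) hw).2.2 (h.top D (by omega)).1

theorem NRun.regcell (R : NRun (D + m + 1) pl l x) (h : Low D m pl) {w : ℕ}
    (hw : w + 1 < 2 ^ (D + (m + 1))) (k : Fin 3)
    (hk : ((ctl pl (D + (m + 1)) (w + 1)).cmd : ℕ) ≠ 4 + k) :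
    x (D + (m + 1)) (w + 1) (rg k) = x (D + (m + 1)) w (rg k) := by
  have ht : D + (m + 1) ≤ D + m + 1 := le_rfl
  have e := R.ctl_eq ht hw
  refine (R.hold _ ht w hw _ ⟨?_, Or.inr ⟨?_, by simp [rg], ?_⟩⟩).symm
  · rw [e, ← Bool.not_eq_true, ctl_first hw]
    omega
  · rw [e, (h.kind2 ht _).2]
    rfl
  · rw [e]
    simp only [rg]
    omega

theorem seq_of_nrun (R : NRun (D + m + 1) pl l x) (h : Low D m pl) :
    Seq m (2 ^ D) fun n => (ctl pl D n).cmd := by
  refine ⟨fun n => ⟨fun i => (l (D + (i + 1)) (n * 2 ^ (i + 1))).2.2 = true,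
    fun i => x (D + (i + 1)) (n * 2 ^ (i + 1)) 0, fun k => x (D + (m + 1)) (n * 2 ^ (m + 1)) (rg k)⟩,
    fun i hi => ?_, fun n hn => ?_⟩
  · have ht : D + (i + 1) ≤ D + m + 1 := by omega
    have hw : 0 * 2 ^ (i + 1) < 2 ^ (D + (i + 1)) := by simp
    refine R.zero _ ht _ hw ⟨?_, ?_⟩
    · rw [R.ctl_eq ht hw, (h.kind2 ht _).1]
      omega
    · rw [R.ctl_eq ht hw, ctl_first hw]
      simp
  have hp : ∀ s, (n + 1) * 2 ^ s - 1 + 1 = (n + 1) * 2 ^ s := fun s =>
    Nat.sub_add_cancel (Nat.mul_pos n.succ_pos (by positivity))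
  have bM : ∀ i < m, (l (D + (i + 1)) ((n + 1) * 2 ^ (i + 1))).2.1 =
      (l (D + (i + 1)) (n * 2 ^ (i + 1))).2.2 ∧
      (¬ (((ctl pl D (n + 1)).cmd : ℕ) = 3 ∧ (l (D + (i + 1)) (n * 2 ^ (i + 1))).2.2 = true) →
        x (D + (i + 1)) ((n + 1) * 2 ^ (i + 1)) 0 = x (D + (i + 1)) (n * 2 ^ (i + 1)) 0) := by
    intro i hi
    have h1 := block (fun w => ((l (D + (i + 1)) w).2.2, x (D + (i + 1)) w 0)) (by positivity)
      (left_lt (i + 1) hn).le fun w hw hq => by
        have h2 := R.memcell h hi hw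
        have h3 := R.ptrcell h hi hw
        rw [h.cmd (by omega), if_neg hq] at h2 h3
        rw [if_neg (by omega), if_neg (by omega), h2.1, Bool.coe_iff_coe] at h3
        rw [h3, h2.2 (by omega)]
    have h2 := R.memcell h hi (w := (n + 1) * 2 ^ (i + 1) - 1) (by rw [hp]; exact left_lt _ hn)
    simp only [Prod.mk.injEq] at h1
    rwa [hp, h.cmd_left (by omega), h1.1, h1.2] at h2
  have bR : ∀ k : Fin 3, ((ctl pl D (n + 1)).cmd : ℕ) ≠ 4 + k →
      x (D + (m + 1)) ((n + 1) * 2 ^ (m + 1)) (rg k) = x (D + (m + 1)) (n * 2 ^ (m + 1)) (rg k) := by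
    intro k hk
    have h1 := block (fun w => x (D + (m + 1)) w (rg k)) (by positivity)
      (left_lt (m + 1) hn).le fun w hw hq => R.regcell h hw k (by
        rw [h.cmd le_rfl, if_neg hq]
        omega)
    have h2 := R.regcell h (w := (n + 1) * 2 ^ (m + 1) - 1) (by rw [hp]; exact left_lt _ hn) k
    rw [hp, h.cmd_left le_rfl] at h2
    exact (h2 hk).trans h1
  have e2 : ∀ s, 2 * ((n + 1) * 2 ^ s) = (n + 1) * 2 ^ (s + 1) := fun s => by ring
  have eC : ∀ s ≤ m + 1, ((l (D + s) ((n + 1) * 2 ^ s)).1.cmd : ℕ) = (ctl pl D (n + 1)).cmd :=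
    fun s hs => by rw [R.ctl_eq (by omega) (left_lt s hn), h.cmd_left hs]
  have eK : ∀ s ≤ m + 1, ((l (D + s) ((n + 1) * 2 ^ s)).1.kind = 2 ↔ 0 < s ∧ s ≤ m) ∧
      ((l (D + s) ((n + 1) * 2 ^ s)).1.kind = 3 ↔ s = m + 1) := fun s hs => by
    rw [R.ctl_eq (by omega) (left_lt s hn), (h.kind2 (by omega) _).1, (h.kind2 (by omega) _).2]
    omega
  refine ⟨fun i hi => ?_, fun i hi hc => (bM i hi).2 hc, bR, fun k hk i hi h1 h2 => ?_,
    fun o ho => ?_⟩
  · have h1 := R.ptrcell h hi (left_lt (i + 1) hn)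
    rw [h.cmd_left (by omega), (bM i hi).1, ← e2, Nat.mul_div_cancel_left _ two_pos, e2] at h1
    refine h1.trans ?_
    rcases i with _ | i
    · have h2 := R.topcell h hn
      simp [h2]
    · simp [(bM i (by omega)).1]
  · have hk3 := k.2
    dsimp only at hk h1 h2 ⊢
    have h3 : ∀ s, i + 1 ≤ s → s ≤ m + 1 → x (D + s) ((n + 1) * 2 ^ s) 1 =
        x (D + (i + 1)) ((n + 1) * 2 ^ (i + 1)) 0 := by
      intro s hs
      induction s, hs using Nat.le_induction with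
      | base =>
        intro hs
        refine (R.eqv _ (by omega) _ (left_lt _ hn) 0 1 ⟨?_, ?_, Or.inl ⟨?_, ?_, rfl, rfl⟩⟩).symm
        · rw [eC _ hs]
          omega
        · rw [eC _ hs]
          omega
        · rw [(eK _ hs).1]
          omega
        · rw [(bM i hi).1]
          exact h1
      | succ s hs ih =>
        intro hs'
        have h4 := R.down (D + s) (by omega) _ (left_lt s hn) 1
        rw [e2] at h4
        rw [← ih (by omega)]
        refine (h4 ⟨rfl, ?_, ?_, ?_⟩).symm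
        · exact (eC _ hs').ge.trans' (by omega)
        · exact (eC _ hs').le.trans (by omega)
        · by_cases h5 : s < m
          · refine Or.inl ⟨(eK _ hs').1.2 (by omega), ((bM s h5).1).trans ?_⟩
            simpa using h2 s hs h5
          · exact Or.inr ((eK _ hs').2.2 (by omega))
    have h4 := R.eqv (D + (m + 1)) le_rfl _ (left_lt _ hn) 1 (rg k) ⟨by rw [eC _ le_rfl]; omega,
      by rw [eC _ le_rfl]; omega, Or.inr ⟨(eK _ le_rfl).2.2 rfl, rfl, by
        rw [eC _ le_rfl]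
        simp only [rg]
        omega⟩⟩
    exact (h4.symm.trans (h3 _ (by omega) le_rfl)).trans ((bM i hi).2 (by omega))
  · dsimp only at ho
    have h1 := R.chk _ (left_lt (m + 1) hn) o ⟨(eK _ le_rfl).2.2 rfl, (eC _ le_rfl).trans ho⟩
    have h2 := fun k : Fin 3 => bR k (by omega)
    dsimp only
    rw [← h2, ← h2, ← h2]
    exact h1

end

section

/-! ### From sequences to runs -/

variable {D m : ℕ} {pl : ℕ → Fl}

open Classical in
/-- The value on the bus after `i` memory cells. -/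
noncomputable def bus (m : ℕ) (s u : St) (a : ℝ) : ℕ → ℝ
  | 0 => a
  | i + 1 => if i < m ∧ s.ptr i then u.mem i else bus m s u a i

theorem bus_eq {s u : St} {k : Fin 3} (h : Step m (4 + k) s u) :
    bus m s u (u.reg k) (m + 1) = u.reg k := by
  have key : ∀ j ≤ m, bus m s u (u.reg k) j = u.reg k ∨ ∃ i < j, s.ptr i ∧
      (∀ i', i < i' → i' < j → ¬ s.ptr i') ∧ bus m s u (u.reg k) j = u.mem i := by
    intro j hj
    induction j with
    | zero => exact Or.inl rfl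
    | succ j ih =>
      by_cases h1 : s.ptr j
      · exact Or.inr ⟨j, by omega, h1, fun i' _ _ => by omega, by rw [bus, if_pos ⟨hj, h1⟩]⟩
      · rw [bus, if_neg fun h2 => h1 h2.2]
        refine (ih (by omega)).imp_right fun ⟨i, h2, h3, h4, h5⟩ =>
          ⟨i, by omega, h3, fun i' h6 h7 => ?_, h5⟩
        rcases (Nat.le_of_lt_succ h7).eq_or_lt with rfl | h8
        · exact h1
        · exact h4 i' h6 h8
  rw [bus, if_neg (by omega)]
  rcases key m le_rfl with h1 | ⟨i, h1, h2, h3, h4⟩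
  · exact h1
  · rw [h4, h.2.2.2.1 k rfl i h1 h2 h3, h.2.1 i h1 (by omega)]

theorem pred_div {q w : ℕ} (hq : 0 < q) :
    (w % q = 0 → (w - 1) / q = w / q - 1) ∧ (w % q ≠ 0 → (w - 1) / q = w / q) := by
  rcases w with _ | w
  · simp
  · rw [Nat.add_sub_cancel, Nat.succ_div]
    constructor <;> intro h <;> simp [Nat.dvd_iff_mod_eq_zero, h]

theorem ctl_child (t n : ℕ) (b : Bool) :
    ctl pl (t + 1) (2 * n + b.toNat) = child (pl t) (ctl pl t n) b := by
  rw [ctl]
  cases b <;> congr 2 <;> simp <;> omega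

theorem ctl_cmd_zero (t : ℕ) : (ctl pl t 0).cmd = 0 := by
  induction t with
  | zero => rfl
  | succ t ih => simp [ctl, child, ih]

theorem Low.left (h : Low D m pl) {s w : ℕ} (hs : s ≤ m + 1)
    (hc : ((ctl pl (D + s) w).cmd : ℕ) ≠ 0) :
    w % 2 ^ s = 0 ∧ ((ctl pl D (w / 2 ^ s)).cmd : ℕ) = (ctl pl (D + s) w).cmd := by
  rw [h.cmd hs] at hc ⊢
  by_cases h1 : w % 2 ^ s = 0
  · simp [h1]
  · simp [h1] at hc

open Classical in
theorem nrun_of_seq (h : Low D m pl) (hs : Seq m (2 ^ D) fun n => (ctl pl D n).cmd) :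
    ∃ l x, NRun (D + m + 1) pl l x := by
  obtain ⟨τ, h0, h1⟩ := hs
  have G : ∀ s ≤ m + 1, ∀ w < 2 ^ (D + s),
      Step m (ctl pl (D + s) w).cmd (τ ((w - 1) / 2 ^ s)) (τ (w / 2 ^ s)) := by
    intro s hs w hw
    have hq : 0 < 2 ^ s := by positivity
    have h2 : w / 2 ^ s < 2 ^ D := by rwa [Nat.div_lt_iff_lt_mul hq, ← pow_add]
    rw [h.cmd hs]
    split_ifs with h3
    · rw [(pred_div hq).1 h3]
      generalize w / 2 ^ s = n at h2
      rcases n with _ | n
      · rw [ctl_cmd_zero]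
        exact step_nop _ _
      · exact h1 n h2
    · rw [(pred_div hq).2 h3]
      exact step_nop _ _
  obtain ⟨l, hl⟩ : ∃ l : ℕ → ℕ → Lab, ∀ t w, l t w = (ctl pl t w,
      decide (D < t ∧ t ≤ D + m ∧ (τ ((w - 1) / 2 ^ (t - D))).ptr (t - D - 1)),
      decide (D < t ∧ (τ (w / 2 ^ (t - D))).ptr (t - D - 1))) := ⟨_, fun _ _ => rfl⟩
  obtain ⟨x, hx⟩ : ∃ x : ℕ → ℕ → Fin 5 → ℝ, ∀ t w s, x t w s =
      if s = 0 then (τ (w / 2 ^ (t - D))).mem (t - D - 1) else if s = 1 then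
        bus m (τ (w / 2 ^ (t - D) - 1)) (τ (w / 2 ^ (t - D))) ((τ (w / 2 ^ (t - D))).reg
          (Fin.ofNat 3 ((ctl pl D (w / 2 ^ (t - D))).cmd - 4))) (t - D)
      else (τ (w / 2 ^ (t - D))).reg (Fin.ofNat 3 (s - 2)) := ⟨_, fun _ _ _ => rfl⟩
  have l1 : ∀ t w, (l t w).1 = ctl pl t w := fun t w => by rw [hl]
  have po : ∀ i ≤ m, ∀ w, (l (D + i) w).2.1 = true ↔
      0 < i ∧ (τ ((w - 1) / 2 ^ i)).ptr (i - 1) := fun i hi w => by
    simp [hl, hi]
  have pn : ∀ i w, (l (D + (i + 1)) w).2.2 = true ↔ (τ (w / 2 ^ (i + 1))).ptr i := fun i w => by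
    simp [hl]
  have x0 : ∀ i w, x (D + (i + 1)) w 0 = (τ (w / 2 ^ (i + 1))).mem i := fun i w => by simp [hx]
  have x1 : ∀ i w, x (D + i) w 1 = bus m (τ (w / 2 ^ i - 1)) (τ (w / 2 ^ i)) ((τ (w / 2 ^ i)).reg
      (Fin.ofNat 3 ((ctl pl D (w / 2 ^ i)).cmd - 4))) i := fun i w => by simp [hx]
  have xr : ∀ w k, x (D + (m + 1)) w (rg k) = (τ (w / 2 ^ (m + 1))).reg k := fun w k => by
    rw [hx, Nat.add_sub_cancel_left]
    fin_cases k <;> rfl
  have k2 : ∀ t ≤ D + m + 1, ∀ w, (ctl pl t w).kind = 2 → ∃ i < m, t = D + (i + 1) := by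
    intro t ht w hw
    rw [(h.kind2 ht w).1] at hw
    exact ⟨t - D - 1, by omega, by omega⟩
  have k3 : ∀ t ≤ D + m + 1, ∀ w, (ctl pl t w).kind = 3 → t = D + (m + 1) := fun t ht w hw =>
    (h.kind2 ht w).2.1 hw
  have rk : ∀ s : Fin 5, 2 ≤ (s : ℕ) → ∃ k, s = rg k := fun s hs =>
    ⟨⟨s - 2, by omega⟩, Fin.ext (by simp only [rg]; omega)⟩
  refine ⟨l, x, by simp [hl, rootL, ctl], fun t ht n hn b => ⟨?_, fun h2 => ?_, fun h2 => ?_⟩,
    fun t ht n hn s hs => ?_, fun t ht n hn h2 _ => ?_, fun t ht n hn s hs => ?_,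
    fun t ht n hn s s' hs => ?_, fun t ht n hn hs => ?_, fun n hn o hs => ?_⟩
  · rw [l1, l1, ctl_child]
  · obtain ⟨i, hi, h3⟩ := k2 (t + 1) ht 0 h2
    obtain rfl : t = D + i := by omega
    have h4 := (G (i + 1) (by omega) _ (child_lt hn b)).1 i hi
    rw [add_assoc, pn, l1, po (i + 1) hi, po i hi.le, (h.mem i hi).2, h4]
    by_cases h5 : ((ctl pl (D + (i + 1)) (2 * n + b.toNat)).cmd : ℕ) = 2
    · have h6 := (h.left (s := i + 1) (w := 2 * n + b.toNat) (by omega) (by omega)).1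
      have h7 := b.toNat_le
      have h8 : (2 * n + b.toNat) / 2 = n := by omega
      rw [(pred_div (by positivity)).1 h6]
      rw [pow_succ', Nat.mod_mul, h8] at h6
      rw [(pred_div (q := 2 ^ i) (w := n) (by positivity)).1 (by omega), pow_succ',
        ← Nat.div_div_eq_div_mul, h8]
      simp [h5]
    · simp [h5]
  · have h3 := (h.kind2 (t := t + 1) ht 0).1
    rw [hl]
    exact decide_eq_false fun h4 => h2 (h3.2 ⟨h4.1, h4.2.1⟩)
  · obtain ⟨rfl, h2, -, h3⟩ := hs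
    rw [l1] at h2 h3
    obtain ⟨i, hi, rfl⟩ : ∃ i ≤ m, t = D + i := by
      rcases h3 with h3 | h3
      · obtain ⟨i, h4, h5⟩ := k2 _ ht _ h3.1
        exact ⟨i, h4.le, by omega⟩
      · exact ⟨m, le_rfl, by have := k3 _ ht _ h3; omega⟩
    have h4 : 2 * n / 2 ^ (i + 1) = n / 2 ^ i := by
      rw [pow_succ', Nat.mul_div_mul_left _ _ two_pos]
    rw [add_assoc] at h2 h3
    rw [add_assoc, x1, x1, h4, bus, if_neg]
    rintro ⟨h5, h6⟩
    rcases h3 with h3 | h3
    · have h7 := (h.left (s := i + 1) (w := 2 * n) (by omega) (by omega)).1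
      have h8 := (po (i + 1) h5 (2 * n)).2 ⟨by omega, by
        rw [(pred_div (by positivity)).1 h7, h4]
        exact h6⟩
      simp [h8] at h3
    · have := k3 _ (by omega) _ h3
      omega
  · rw [l1] at h2
    obtain ⟨i, hi, rfl⟩ := k2 t ht _ h2
    rw [← Bool.coe_iff_coe, po (i + 1) hi, pn]
    simp
  · obtain ⟨-, ⟨h2, rfl, h3⟩ | ⟨h2, h3, h4⟩⟩ := hs
    · rw [l1] at h2 h3
      obtain ⟨i, hi, rfl⟩ := k2 t ht _ h2
      rw [po (i + 1) hi] at h3
      rw [x0, x0]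
      exact ((G (i + 1) (by omega) _ hn).2.1 i hi fun h4 => h3 ⟨h4.1, by omega, h4.2⟩).symm
    · rw [l1] at h2 h4
      obtain rfl := k3 t ht _ h2
      obtain ⟨k, rfl⟩ := rk s h3
      rw [xr, xr]
      exact ((G (m + 1) le_rfl _ hn).2.2.1 k (by simp only [rg] at h4; omega)).symm
  · obtain ⟨h2, -, ⟨h3, h4, rfl, rfl⟩ | ⟨h3, rfl, h4⟩⟩ := hs
    · rw [l1] at h2 h3
      obtain ⟨i, hi, rfl⟩ := k2 t ht _ h3
      have h5 := (h.left (s := i + 1) (w := n) (by omega) (by omega)).1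
      rw [po (i + 1) hi, (pred_div (by positivity)).1 h5] at h4
      rw [x0, x1, bus, if_pos ⟨hi, h4.2⟩]
    · rw [l1] at h2 h3 h4
      obtain rfl := k3 t ht _ h3
      obtain ⟨k, rfl⟩ := rk s' (by omega)
      obtain ⟨h5, h6⟩ := h.left (s := m + 1) (w := n) le_rfl (by omega)
      have h7 := G (m + 1) le_rfl _ hn
      have h8 : ((ctl pl (D + (m + 1)) n).cmd : ℕ) = 4 + k := by
        simp only [rg] at h4
        omega
      rw [h8, (pred_div (by positivity)).1 h5] at h7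
      rw [xr, x1, h6, h8, Nat.add_sub_cancel_left, Fin.ofNat_val_eq_self]
      exact bus_eq h7
  · obtain ⟨h2, h3⟩ := hs
    rw [l1] at h2 h3
    obtain ⟨i, hi, rfl⟩ := k2 t ht _ h2
    rw [(ctl_first hn).1 h3, x0, Nat.zero_div]
    exact h0 i hi
  · have h2 : ((ctl pl (D + (m + 1)) n).cmd : ℕ) = 7 + o := by
      rw [← l1]
      exact hs.2
    have h3 := G (m + 1) le_rfl _ hn
    have h4 := h3.2.2.2.2 o h2
    have h5 := fun k : Fin 3 => h3.2.2.1 k (by omega)
    rw [← h5, ← h5, ← h5, ← xr, ← xr, ← xr] at h4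
    exact h4

end

end Pyr

open Pyr

theorem exists_rsys : ∃ (A : Type) (_ : Finite A) (M : RSys (Fin 4 × Bool × Fin 10) A), M.root ≠ M.idle ∧
    ∀ (r m N : ℕ) (P₀ P₁ : List ℕ), N < 2 ^ r → (∀ c ∈ P₀ ++ P₁, c < 10) →
      (M.Weak (r + (P₀ ++ P₁).length + m + 1) (planF r m N P₀ P₁) → Accepts m N P₀ P₁) ∧
        (Accepts m N P₀ P₁ → M.Strong (r + (P₀ ++ P₁).length + m + 1) (planF r m N P₀ P₁)) := by
  refine ⟨Option Lab, inferInstance, sys, by simp [sys], fun r m N P₀ P₁ hN hc => ?_⟩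
  have h := pl_plan (r := r) (m := m) (N := N) hc
  refine ⟨fun h1 => ?_, fun h1 => ?_⟩
  · obtain ⟨l, x, R⟩ := nrun_of_weak h1
    exact accepts_of_seq hN (h.cm hN) (seq_of_nrun R h.low)
  · obtain ⟨l, x, R⟩ := nrun_of_seq h.low (seq_of_accepts (h.cm hN) h1)
    refine strong_of_nrun R fun t ht h2 => ?_
    have h3 := (h.low.kind2 (t := t + 1) ht.le 0).2.1 h2
    omega

end Pool.Agent.Lib.MP_79902f_lc.W
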