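import Pool.Agent.Lib.MP_79902f_lc.WRule

/-!
An exact run of a net gives a convex realization of its code.
-/

namespace Pool.Agent.Lib.MP_79902f_lc.W

open Set

variable {E A P D : Type}

/-- The three half-planes of the source for the excess `η`. -/
def KS (η : ℝ) : Fin 3 → Set (ℝ × ℝ) :=
  ![{z | BeL (85 + (270 - 2 * η) / (135 + 90 * η)) 84 87 (sc 1 z)},
    {z | BeL (171 + 63 / (9 - η)) 178 180 (sc 2 z)}, {z | z.2 < -186 * z.1 + 8688}]

/-- The tall sets. -/
def KK (η : ℝ) : Alw A P D → Set (ℝ × ℝ) :=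
  Sum.elim (fun _ => ∅) (Sum.elim (fun _ => ∅) fun k => {z | k ≠ 1 ∧ z ∈ KS η k})

theorem src_data {η : ℝ} (h : η ∈ Ioo (0 : ℝ) 1) {x y : ℝ} (hx : x = (270 - 2 * η) / (135 + 90 * η))
    (hy : y = 63 / (9 - η)) : (1 < x ∧ x < 2) ∧ (7 < y ∧ y < 8) ∧ y * (9 - η) = 63 ∧
      ∃ ζ, x * (ζ - 1) = 2 ∧ ζ * (2 * y + 1) = 17 * y - 89 := by
  obtain ⟨h0, h1⟩ := h
  have e1 : x * (135 + 90 * η) = 270 - 2 * η := by rw [hx]; exact div_mul_cancel₀ _ (by linarith)
  have e2 : y * (9 - η) = 63 := by rw [hy]; exact div_mul_cancel₀ _ (by linarith)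
  obtain ⟨ζ, e3⟩ : ∃ ζ, ζ * (135 - η) = 270 + 89 * η := ⟨_, div_mul_cancel₀ _ (by linarith)⟩
  refine ⟨⟨by nlinarith, by nlinarith⟩, ⟨by nlinarith, by nlinarith⟩, e2, ζ, ?_, ?_⟩
  · apply mul_right_cancel₀ (show 135 - η ≠ 0 by linarith)
    linear_combination x * e3 + e1
  · apply mul_right_cancel₀ (show 9 - η ≠ 0 by linarith)
    linear_combination (2 * ζ - 17) * e2 + e3

theorem twoPts {η : ℝ} (h : η ∈ Ioo (0 : ℝ) 1) : TwoPts (KK η : Alw A P D → Set (ℝ × ℝ)) := by
  obtain ⟨⟨x1, x2⟩, -⟩ := src_data h rfl rfl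
  have e0 : ∀ z, z ∈ (KK η : Alw A P D → _) (.inr (.inr 0)) ↔
      BeL (85 + (270 - 2 * η) / (135 + 90 * η)) 84 87 (sc 1 z) := fun z => and_iff_right (by decide)
  have e2 : ∀ z, z ∈ (KK η : Alw A P D → _) (.inr (.inr 2)) ↔ z.2 < -186 * z.1 + 8688 :=
    fun z => and_iff_right (by decide)
  simp only [TwoPts, e0, e2]
  generalize (270 - 2 * η) / (135 + 90 * η) = x at *
  refine ⟨fun b => (92 + x / 2, -8610 + (if b then 184 else 188) * (1 - x / 2)), fun b => ?_⟩
  cases b <;> norm_num [om, BL.f, lin, BeL, sc] <;> refine ⟨?_, ?_, ?_, ?_, ?_, ?_⟩ <;> nlinarith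

/-- The coordinates relative to a station. -/
def rel (t : ℕ) (j : ℤ) (z : ℝ × ℝ) : ℝ × ℝ := sh (-(2 * j + 1 : ℤ)) (sc (t + 2) z)

theorem rel_tr (κ : Fin 3) (t : ℕ) (j : ℤ) (z : ℝ × ℝ) : rel (t + lv κ) (nj κ j) z = tr κ (rel t j z) := by
  fin_cases κ
  · rfl
  · ext <;> simp [rel, lv, nj, tr, sh, sc, pow_succ] <;> ring
  · ext <;> simp [rel, lv, nj, tr, sh, sc] <;> ring

theorem beL_sh {τ p q a : ℝ} {w : ℝ × ℝ} : BeL τ p q (sh (-a) w) ↔ BeL (a + τ) (a + p) (a + q) w := by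
  simp only [BeL, sh, lin]
  constructor <;> intro h <;> linarith

theorem hc_sh {a α β : ℤ} {w : ℝ × ℝ} (h : HC (a + α) (a + β) w) : HC α β (sh (-a) w) := by
  have e : ∀ m : ℤ, Bel m (sh (-a) w) ↔ Bel (a + m) w := fun m => by
    simp only [Bel, sh, lin]
    push_cast
    constructor <;> intro h <;> linarith
  simp only [HC, e, ← add_sub_assoc, ← add_assoc]
  exact h

/-- The port whose value a set carries. -/
def own (M : Net E A P D) : Gs P D → P × Fin 3 := Sum.elim id fun g => (port M g.1, ow (kind g.1) g.2)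

theorem own_nm (M : Net E A P D) (n : Wn P D) {i : ℕ} (hi : i < 7) :
    own M (nm M n i) = (port M n, ow (kind n) i) := by
  unfold nm
  split_ifs
  · rfl
  · simp [own, Nat.mod_eq_of_lt hi]

/-- The values of the ports and of their shadows. -/
def ext (v : ℕ → ℤ → P → ℝ) (t : ℕ) (j : ℤ) (u : P × Fin 3) : ℝ :=
  if u.2 = 0 then v t j u.1 else if u.2 = 1 then
    (if t ≠ 0 ∧ j % 2 = 0 then v (t - 1) (j / 2) u.1 else v t j u.1) else v t (j - 1) u.1

theorem ext_nj (v : ℕ → ℤ → P → ℝ) (t : ℕ) (j : ℤ) (p : P) (κ : Fin 3) :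
    ext v (t + lv κ) (nj κ j) (p, κ) = ext v t j (p, 0) := by
  fin_cases κ <;> simp [ext, lv, nj]

theorem real_net [Finite A] [Finite P] [Finite D] {M : Net E A P D} (hM : M.root ≠ M.idle) {T : ℕ}
    {pl : ℕ → E} {η : ℝ} (hη : η ∈ Ioo (0 : ℝ) 1) (h : M.Strong T pl η) :
    ∃ Y : Neu (Alw A P D) → Set (ℝ × ℝ), (∀ a, Convex ℝ (Y a)) ∧
      ∀ σ, InW (KK η) (T + 5) (Rule M T pl) σ ↔ ∃ z, σ = fun a => z ∈ Y a := by
  obtain ⟨c, v, hv, h0, hy, h⟩ := h
  have hu : ∀ t j u, ext v t j u ∈ Ioo (6 : ℝ) 8 := fun t j u => by unfold ext; split_ifs <;> exact hv _ _ _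
  have hu' := fun t j u => Ioo_subset_Icc_self (hu t j u)
  obtain ⟨⟨x1, x2⟩, ⟨y1, y2⟩, y3, ζ, x3, y4⟩ := src_data hη rfl rfl
  let H : ℕ → Alw A P D → Set (ℝ × ℝ) := fun t => Sum.elim
    (fun a => {z | (∀ m, Bel m (sc t z)) ∧
      ∀ j, c11 j = a.1 → a.2 ≠ c t j → Bel (4 * j + 9) (sc (t + 3) z)})
    (Sum.elim (fun a => {z | (∀ m, Bel m (sc t z)) ∧
      ∀ j, c11 j = a.1 → (rc a.2).Ln (ext v t j (own M a.2)) (rel t j z)})
      fun k => {z | (t ≠ 0 ∨ k = 1 → ∀ m, Bel m (sc t z)) ∧ (t = 0 → z ∈ KS η k)})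
  have hin : ∀ t s z, 4 ^ t * ht z < 35 / 64 → z ∈ H t s := by
    rintro t (a | a | k) z hz
    · exact ⟨bel_of_lt (by rw [ht_sc]; linarith), fun j _ _ =>
        bel_of_lt (by rw [ht_sc, pow_add]; linarith) _⟩
    · refine ⟨bel_of_lt (by rw [ht_sc]; linarith), fun j _ => ?_⟩
      obtain ⟨a1, a2, -⟩ := (good_rc a.2).tau (hu' t j (own M a.2))
      exact BeL.of_lt (by rw [rel, ht_sh, ht_sc, pow_add]; linarith) a1 a2
    · refine ⟨fun _ => bel_of_lt (by rw [ht_sc]; linarith), ?_⟩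
      rintro rfl
      fin_cases k
      · exact BeL.of_lt (by rw [ht_sc]; linarith) (by linarith) (by linarith)
      · exact BeL.of_lt (by rw [ht_sc]; linarith) (by linarith) (by linarith)
      · change z.2 < _
        unfold ht at hz
        nlinarith [sq_nonneg (z.1 - 93)]
  refine realize_genW (by omega) (rule_empty M T pl) (H := H) ?_ hin ?_ ?_ ?_
  · rintro t (a | a | k) z hz z' hz' u w hu hw e
    · exact ⟨fun m => convex_bel _ _ (hz.1 m) (hz'.1 m) hu hw e,
        fun j k k' => convex_bel _ _ (hz.2 j k k') (hz'.2 j k k') hu hw e⟩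
    · exact ⟨fun m => convex_bel _ _ (hz.1 m) (hz'.1 m) hu hw e,
        fun j k => beL_sh.2 (convex_BeL _ _ _ _ (beL_sh.1 (hz.2 j k)) (beL_sh.1 (hz'.2 j k)) hu hw e)⟩
    · refine ⟨fun k m => convex_bel _ _ (hz.1 k m) (hz'.1 k m) hu hw e, fun ht => ?_⟩
      refine (show Convex ℝ (KS η k) from ?_) (hz.2 ht) (hz'.2 ht) hu hw e
      fin_cases k
      · exact convex_BeL _ _ _ _
      · exact convex_BeL _ _ _ _
      · have := convex_BeL 46 45 47 0
        convert this using 1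
        ext z
        change z.2 < _ ↔ _
        norm_num [BeL, lin, sc]
        constructor <;> intro h <;> linarith
  · rintro t (a | a | k) z hz
    exacts [Or.inr hz.1, Or.inr hz.1, (em (t ≠ 0 ∨ k = 1)).elim (fun c => Or.inr (hz.1 c)) fun c =>
      Or.inl ⟨by tauto, by tauto, hz.2 (by tauto)⟩]
  · rintro (a | a | k) z hz
    exacts [hz.elim, hz.elim, ⟨fun c => (c.elim (fun c => c rfl) hz.1).elim, fun _ => hz.2⟩]
  rintro z t htn j _ rfl
  set π : Loc (Alw A P D) := fun i s => t + i < T + 5 ∧ z ∈ Hx H (t + i) s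
  have ex : ∀ i, xl π i = fun m => t + i < T + 5 ∧ Per (sc (t + i) z) m := fun i => funext fun m => by
    simp only [xl, π, Hx, Sum.elim_inl, mem_ofPred_eq, per_cls]
  have wi : ∀ {i α β}, Win (xl π i) α β → α ≤ β → β ≤ α + 20 →
      ∃ k, HC (α + 22 * k) (β + 22 * k) (sc (t + i) z) := fun h h1 h2 =>
    win_inv (win_and (ex _ ▸ h)).2 h1 h2
  have hs : ∀ s, ht (sc (s + 1) z) = 4 * ht (sc s z) := fun s => by rw [ht_sc, ht_sc]; ring
  have mk : ∀ s, s < T + 5 → ∀ k k', HC (2 * j + 22 * k) (2 * j + 9 + 22 * k) (sc (s + 2) z) →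
      HC (j + 2 + 22 * k') (j + 2 + 22 * k') (sc (s + 1) z) →
      z ∈ H s (.inl (c11 j, c s (j + 22 * k'))) := by
    intro s _ k k' h1 h2
    obtain ⟨-, a1, -, a2⟩ := marker (sc_succ _ _ ▸ h1) h2
    refine ⟨bel_of_lt (by linarith [hs s]), fun i b1 b2 => ?_⟩
    rw [sc_succ, sc_succ]
    exact a2 i b1 fun e => b2 (by rw [e])
  refine ⟨fun ht' => ?_, ?_, fun ht' h1 h2 => ?_, fun ht' h1 s => ?_, fun ht α β a1 a2 a3 a4 h1 => ?_, ?_⟩
  · rw [ex, ex]
    simp only [Fin.val_zero, Fin.val_one, add_zero, htn, ht', true_and, sc_succ]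
    exact step_per _ j
  · rintro rfl h1 h2
    obtain ⟨k, h1⟩ := wi h1 (by omega) (by omega)
    obtain ⟨k', h2⟩ := wi h2 (by omega) (by omega)
    refine ⟨htn, ?_⟩
    convert mk 0 htn k k' h1 h2 using 1
    rw [h0, if_congr (P := j + 22 * k' = 85) (Q := reg z.1 = 1 ∧ j % 22 = 19) ?_ rfl rfl]
    · rfl
    obtain ⟨-, -, ⟨a1, a2⟩, -⟩ := marker (sc_succ _ _ ▸ h1) h2
    rw [show (sc (0 + (1 : Fin 5)) z).1 = 2 * z.1 by simp [sc]] at a1 a2
    unfold reg
    constructor
    · intro e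
      have : (j : ℝ) + 22 * k' = 85 := by exact_mod_cast e
      rw [if_neg (by linarith), if_pos (by linarith)]
      exact ⟨rfl, by omega⟩
    · rintro ⟨e, e'⟩
      split_ifs at e with c1 c2
      · exact absurd e (by decide)
      · have d1 : (83 : ℝ) < j + 22 * k' := by linarith
        have d2 : (j : ℝ) + 22 * k' < 87 := by linarith
        have d3 : 83 < j + 22 * k' := by exact_mod_cast d1
        have d4 : j + 22 * k' < 87 := by exact_mod_cast d2
        omega
      · exact absurd e (by decide)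
  · obtain ⟨k, h1⟩ := wi h1 (by omega) (by omega)
    obtain ⟨k', h2⟩ := wi h2 (by omega) (by omega)
    refine ⟨_, ⟨by change t + 1 < _; omega, mk (t + 1) (by omega) k k' h1 h2⟩, fun b hb => ?_⟩
    obtain rfl := (marker (sc_succ _ _ ▸ h1) h2).1
    obtain rfl : b = c t ((j + 22 * k') / 2) := by
      by_contra hc
      exact nb_between h1.2.1 h1.2.2.1 (by omega) (by omega) (hb.2.2 _ (c11_eq.2 (by omega)) hc)
    convert ((h t ht'.le ((j + 22 * k') / 2)).1 ht').1 (decide (j % 2 = 1)) using 2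
    by_cases e : j % 2 = 1 <;> simp [e] <;> omega
  · obtain ⟨k, h1⟩ := wi h1 le_rfl (by omega)
    have := h1.one.1
    rw [ht_sc, pow_add] at this
    exact ⟨htn, hin t s z (by norm_num at this; linarith)⟩
  · obtain ⟨k, h1⟩ := wi h1 (by omega) (by omega)
    replace h1 : HC _ _ (sc (t + 2) z) := h1
    obtain ⟨u, e, h1⟩ : ∃ u, u % 11 = j % 11 ∧ HC (2 * u + 1 + α) (2 * u + 1 + β) (sc (t + 2) z) :=
      ⟨j + 11 * k, by omega, by convert h1 using 1 <;> ring⟩
    have h2 : HC α β (rel t u z) := hc_sh h1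
    have lab : 0 ≤ α → α ≤ 2 → 6 ≤ β → β ≤ 7 →
        ∀ i i' a, i % 11 = i' % 11 → i = u ∨ i = u + 1 → LL π 0 i' a → a = c t i := by
      intro h1' h2 h3 h4 i i' a e hi ha
      by_contra hc
      have := ha.2.2 i (c11_eq.2 e) hc
      obtain ⟨a1, a2⟩ := not_bel (j := u) (α := 1 + α) (β := 1 + β) (by convert h1 using 1 <;> ring)
        (by omega) (by omega) (by omega) (by omega)
      rw [← sc_succ] at a1 a2
      rcases hi with rfl | rfl
      exacts [a1 this, a2 this]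
    have gad : ∀ κ g, t + lv κ < T + 5 → Near (tr κ (rel t u z)) →
        (π (lv κ) (.inr (.inr (.inl (c11 (nj κ j), g)))) ↔
          (rc g).Ln (ext v (t + lv κ) (nj κ u) (own M g)) (tr κ (rel t u z))) := by
      intro κ g b1 b2
      have e' : nj κ u % 11 = nj κ j % 11 := by unfold nj; split_ifs <;> omega
      rw [← rel_tr] at b2 ⊢
      refine ⟨fun k => k.2.2 _ (c11_eq.2 e'), fun h' => ⟨b1, bel_of_lt ?_, fun m hm => ?_⟩⟩
      · have b3 := b2.1
        rw [rel, ht_sh, hs, hs] at b3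
        linarith
      · rw [c11_eq] at hm
        generalize nj κ u = i at *
        rcases eq_or_ne m i with rfl | c
        · exact h'
        · rw [show rel (t + lv κ) m z = sh (2 * (i - m) : ℤ) (rel (t + lv κ) i z) by
            ext <;> simp only [rel, sh] <;> push_cast <;> ring]
          exact ln_far (good_rc g) (hu' _ _ _) b2 (by norm_cast; omega)
    have g0 : ∀ g, π (lv 0) (.inr (.inr (.inl (c11 (nj 0 j), g)))) ↔
        (rc g).Ln (ext v t u (own M g)) (rel t u z) := fun g =>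
      gad 0 g htn (near_cell h2 a1 a2 a3 a4).1
    have ln : ∀ n, ∀ i < 7, ∀ x w, (rc (nm M n i)).Ln x w ↔ (tb (kind n) i).Ln x w := fun n i hi x w => by
      obtain ⟨b1, b2, b3⟩ := rc_nm M n hi
      rw [Rc.Ln, b1, b2, b3, Rc.Ln]
    obtain ⟨-, ⟨s1, -⟩, s3, s4, s5, s6⟩ := h t ht u
    simp only [GR]
    refine ⟨?_, ?_, fun n i hi b1 b2 b3 => ?_, fun _ _ _ _ d => ?_, ?_, ?_, ?_, ?_⟩
    · rintro rfl rfl a a' b1 b2
      rwa [lab (by omega) (by omega) (by omega) (by omega) u j a e (Or.inl rfl) b1,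
        lab (by omega) (by omega) (by omega) (by omega) (u + 1) (j + 1) a' (by omega) (Or.inr rfl) b2]
    · rintro g rfl rfl
      exact (g0 g).2 ((good_rc g).ln_cen (hu' _ _ _) h2)
    · rw [g0, ln n i (by omega), own_nm M n (by omega)] at b3
      have g := good (kind n) (i + 1) (by omega)
      rw [gad _ _ (by unfold lv; split_ifs with c <;> [have := b1 c; skip] <;> simp <;> omega)
        (near_tr g b2 h2), ln n _ (by omega), own_nm M n (by omega)]
      convert g.ln_link (good _ i (by omega)) (lnk _ i hi) (hu _ _ _) b2 h2 b3 using 1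
      rcases ow_succ (kind n) i hi with ⟨e1, e2⟩ | ⟨e1, e2⟩
      · rw [e1, e2]; rfl
      · rw [e1, e2, ext_nj]
    · simp only [g0, ln _ 3 (by omega), ln _ 2 (by omega), own_nm M _ (show 3 < 7 by omega),
        own_nm M _ (show 2 < 7 by omega)]
      exact ln_tri (hu' _ _ _) (hu' _ _ _) (hu' _ _ _) (by exact s4 d) _
    · rintro rfl rfl p k
      rw [g0]
      exact ln_out (hu _ _ _) (s5 p k) h2
    · rintro rfl rfl p k
      rw [g0]
      exact ln_in (hu _ _ _) (s6 p k) h2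
    · rintro rfl b1 b2 a ⟨p, κ⟩ p' b3 b4
      obtain rfl := lab (by omega) (by omega) b1 b2 u j a e (Or.inl rfl) b3
      rw [g0, g0]
      refine fun k => (show ext v t u (p, κ) = ext v t u (p', 0) from ?_) ▸ k
      fin_cases κ
      · exact s3 p p' b4
      · obtain ⟨rfl, b4⟩ := b4
        simp only [ext]
        split_ifs with c1 c2 c3
        · rfl
        · obtain ⟨t, rfl⟩ := Nat.exists_eq_succ_of_ne_zero c3.1
          have := ((h t (by omega) (u / 2)).1 ht).2 p
          rw [show 2 * (u / 2) = u by omega] at this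
          exact this b4
        · rfl
        · exact absurd rfl c2
      · obtain ⟨rfl, b4⟩ := b4
        have := (h t ht (u - 1)).2.1.2 p
        rw [sub_add_cancel] at this
        exact this b4
    · rintro rfl rfl b1 ⟨rfl, b2⟩
      have b3 := lab (by omega) (by omega) (by omega) (by omega) u j _ e (Or.inl rfl) b1
      obtain rfl : u = 85 := by
        by_contra hc
        exact hM (by rw [b3, h0, if_neg hc])
      rw [g0]
      have b4 : BeL (63 / (9 - η)) 7 9 (rel 0 85 z) := beL_sh.2 (by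
        convert b2.2.2 rfl using 1
        simp only [KS]
        norm_num)
      obtain ⟨c1, c2, c3⟩ := tauR (hv 0 85 M.y)
      change BeL (Mob.ev (2, 2, 5, 7) (v 0 85 M.y)) (-1 : ℤ) (2 : ℤ) _
      rw [hy] at *
      refine BeL.wedge (a := 0) (ζ := 7 + η) ?_ ?_ b4 (Or.inl ⟨h2.1, Or.inl ⟨?_, ?_⟩⟩) <;> push_cast <;>
        linarith
  rintro rfl
  have e2 : ∀ {α β : ℤ}, HC α β (sc 1 z) → α ≤ β → β ≤ α + 2 → ht (sc 1 z) < 51 ∧ 2 * α < (sc 1 z).1 ∧
      (sc 1 z).1 < 2 * β + 2 := by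
    intro α β h h1 h2
    obtain ⟨p, q, e, a1, a2, a3, a4⟩ := h.param h1
    have b1 : (α : ℝ) ≤ β := by exact_mod_cast h1
    have b2 : (β : ℝ) ≤ α + 2 := by exact_mod_cast h2
    rw [e]
    simp only [ht, cr]
    exact ⟨by nlinarith, by linarith, by linarith⟩
  have kk : ∀ k : ℤ, k = 0 ∨ (k : ℝ) ≤ -1 ∨ (1 : ℝ) ≤ k := fun k => by norm_cast; omega
  refine ⟨fun h1 => ?_, fun h1 h2 => ?_, fun h1 => ?_⟩ <;> obtain ⟨k, h1⟩ := wi h1 (by omega) (by omega)
  · refine ⟨htn, fun c => absurd c (by decide), fun _ => ?_⟩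
    rcases kk k with rfl | c | c
    · exact_mod_cast BeL.center (p := 84) (q := 87) h1.1 h1.2.2.2 (by push_cast; linarith)
        (by push_cast; linarith)
    · exact BeL.far h1 (by linarith) (by linarith) (Or.inr (by push_cast; linarith))
    · exact BeL.far h1 (by linarith) (by linarith) (Or.inl (by push_cast; linarith))
  · replace h1 : HC _ _ (sc 1 z) := h1
    obtain ⟨a1, a2, a3⟩ := e2 h1 (by omega) (by omega)
    refine ⟨htn, fun _ => bel_of_lt (by have := hs 0; change ht (sc 0 z) < _; linarith), fun _ => ?_⟩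
    change BeL _ _ _ (sc (1 + 1) z)
    have a4 := hs 1
    have a5 : (sc (1 + 1) z).1 = 2 * (sc 1 z).1 := by rw [sc_succ]; rfl
    push_cast at a2 a3
    rcases kk k with rfl | c | c
    · have := BeL.wedge (a := 85) (ζ := 85 + ζ) (τ' := 85 + (2 * (63 / (9 - η)) + 1) / 4) (p' := 85)
        (q' := 85 + ζ) (by push_cast; linarith) (by norm_num) (h2.2.2 rfl)
        (Or.inr ⟨h1.2.1, Or.inl ⟨by push_cast; linarith, by linarith⟩⟩)
      rw [sc_succ]
      simp only [BeL, lin, psi] at this ⊢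
      linarith
    · exact beL_far (by linarith) (by linarith) (by nlinarith)
    · exact beL_far (by linarith) (by linarith) (by nlinarith)
  · replace h1 : HC _ _ (sc (1 + 1) z) := h1
    refine ⟨htn, fun _ => bel_of_lt (by
      have := hs 0; have := hs 1; change ht (sc 0 z) < _; linarith [h1.one.1]), fun _ => ?_⟩
    rcases kk k with rfl | c | c
    · exact_mod_cast BeL.center (p := 178) (q := 180) h1.1 h1.2.2.2 (by push_cast; linarith)
        (by push_cast; linarith)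
    · exact BeL.far h1 (by linarith) (by linarith) (Or.inr (by push_cast; linarith))
    · exact BeL.far h1 (by linarith) (by linarith) (Or.inl (by push_cast; linarith))

end Pool.Agent.Lib.MP_79902f_lc.W
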