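import Pool.Agent.Lib.MP_79902f_lc.WAbs

/-!
Real slots are simulated by ports.
-/

namespace Pool.Agent.Lib.MP_79902f_lc.W

open Set Filter Topology

noncomputable section

namespace Slot

/-- coordinate of the third port -/
def tt (v : ℝ) : ℝ := 4 + 15 / (v - 2)

/-- coordinate of the first port -/
def al (v : ℝ) : ℝ := 3 / 7 * (2 * tt v + 11)

/-- coordinate of the second port -/
def sg (v : ℝ) : ℝ := (5 * v + 12) / (10 * v + 3)

/-- the ternary relation in coordinates -/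
def G (a b c : ℝ) : Prop := tt c = al a * sg b

theorem FF_iff {a b c : ℝ} (ha : a ∈ Ioo (6 : ℝ) 8) (hb : b ∈ Ioo (6 : ℝ) 8)
    (hc : c ∈ Ioo (6 : ℝ) 8) : FF a b c = 0 ↔ G a b c := by
  have h1 : 0 < a - 2 := by linarith [ha.1]
  have h2 : 0 < 10 * b + 3 := by linarith [hb.1]
  have h3 : 0 < c - 2 := by linarith [hc.1]
  have e : FF a b c = 7 * (a - 2) * (10 * b + 3) * (c - 2) * (tt c - al a * sg b) := by
    unfold FF al tt sg
    field_simp
    ring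
  rw [e, mul_eq_zero, or_iff_right (by positivity), sub_eq_zero, G]

theorem ev_add {v : ℝ} (h : v ∈ Ioo (6 : ℝ) 8) (k : ℝ) :
    ∀ᶠ s in 𝓝[>] (0 : ℝ), v + k * s ∈ Ioo (6 : ℝ) 8 := by
  have c : ContinuousAt (fun s : ℝ => v + k * s) 0 := by fun_prop
  exact (c.eventually_mem (Ioo_mem_nhds (by simpa using h.1) (by simpa using h.2))).filter_mono
    nhdsWithin_le_nhds

theorem cont_FF (a b c k l : ℝ) :
    ContinuousAt (fun s : ℝ => FF (a + k * s) (b + k * s) (c + l * s)) 0 := by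
  unfold FF
  fun_prop

theorem tri_ge {a b c c' : ℝ} (h : TriW a b c) (ha : a ∈ Ioo (6 : ℝ) 8) (hb : b ∈ Ioo (6 : ℝ) 8)
    (hc : c' ∈ Ioo (6 : ℝ) 8) (hcc : c' ≤ c) : 0 ≤ FF a b c' := by
  by_contra! hn
  have e : ∀ᶠ s in 𝓝[>] (0 : ℝ), FF (a + 1 * s) (b + 1 * s) (c' + -1 * s) < 0 :=
    ((cont_FF a b c' 1 (-1)).eventually_lt continuousAt_const (by simpa using hn)).filter_mono
      nhdsWithin_le_nhds
  obtain ⟨s, ⟨⟨⟨e1, e2⟩, e3⟩, e4⟩, e5⟩ := (((((ev_add ha 1).and (ev_add hb 1)).and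
    (ev_add hc (-1))).and e).and self_mem_nhdsWithin).exists
  have e5 : 0 < s := e5
  rcases h.2 _ e1 _ e2 _ e3 (by linarith) e4 with k | k <;> linarith

theorem tri_eq {a b c : ℝ} (h : TriW a b c) (ha : a ∈ Ioo (6 : ℝ) 8) (hb : b ∈ Ioo (6 : ℝ) 8)
    (hc : c ∈ Ioo (6 : ℝ) 8) : FF a b c = 0 := by
  refine le_antisymm ?_ (tri_ge h ha hb hc le_rfl)
  by_contra! hn
  have e : ∀ᶠ s in 𝓝[>] (0 : ℝ), 0 < FF (a + -1 * s) (b + -1 * s) (c + 1 * s) :=
    (continuousAt_const.eventually_lt (cont_FF a b c (-1) 1) (by simpa using hn)).filter_mono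
      nhdsWithin_le_nhds
  obtain ⟨s, ⟨⟨⟨e1, e2⟩, e3⟩, e4⟩, e5⟩ := (((((ev_add ha (-1)).and (ev_add hb (-1))).and
    (ev_add hc 1)).and e).and self_mem_nhdsWithin).exists
  have e5 : 0 < s := e5
  linarith [h.1 _ e1 _ e2 _ e3 (by linarith) (by linarith) e4.le]

theorem tri_rev {a b : ℝ} (h : TriW a b 7) (ha : a ≤ 7) (hb : b ≤ 7) :
    a ∈ Ioo (6 : ℝ) 8 ∧ b ∈ Ioo (6 : ℝ) 8 := by
  have h1 := h.2 (61 / 10) (by norm_num) (71 / 10) (by norm_num) (69 / 10) (by norm_num)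
    (by norm_num) (by norm_num [FF])
  have h2 := h.2 (71 / 10) (by norm_num) (61 / 10) (by norm_num) (69 / 10) (by norm_num)
    (by norm_num) (by norm_num [FF])
  rcases h1 with h1 | h1 <;> rcases h2 with h2 | h2 <;>
    exact ⟨⟨by linarith, by linarith⟩, by linarith, by linarith⟩

theorem tri_src {a b c : ℝ} (h : TriW a b c) (ha : a ∈ Ioo (6 : ℝ) 8) (hb : b ∈ Ioo (6 : ℝ) 8)
    (hc : 7 < c) : FF a b 7 ≠ 0 := by
  intro h0
  obtain ⟨c', c1, c2⟩ := exists_between (lt_min hc (by norm_num : (7 : ℝ) < 8))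
  have := tri_ge h ha hb ⟨by linarith, c2.trans_le (min_le_right _ _)⟩
    (c2.trans_le (min_le_left _ _)).le
  have e : FF a b c' = FF a b 7
      - (c' - 7) * (3 * (19 * a - 8) * (5 * b + 12) - 28 * (a - 2) * (10 * b + 3)) := by
    unfold FF
    ring
  have p : 0 < 3 * (19 * a - 8) * (5 * b + 12) - 28 * (a - 2) * (10 * b + 3) := by
    nlinarith [ha.1, ha.2, hb.1, hb.2, mul_pos (sub_pos.2 ha.1) (sub_pos.2 hb.1)]
  nlinarith [mul_pos (sub_pos.2 c1) p]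

theorem rails {a b a' b' : ℝ} (ha : a ∈ Ioo (6 : ℝ) 8) (hb : b' ∈ Ioo (6 : ℝ) 8)
    (h : FF a b 7 = 0) (h' : FF a' b' 7 = 0) (h1 : a ≤ a') (h2 : b ≤ b') : b = b' := by
  refine le_antisymm h2 (not_lt.1 fun hl => ?_)
  have e : FF a' b' 7 - FF a b 7
      = (a' - a) * (1025 * b' - 2685) + (b' - b) * (1025 * a - 4300) := by
    unfold FF
    ring
  have p1 : 0 ≤ (a' - a) * (1025 * b' - 2685) := mul_nonneg (by linarith) (by linarith [hb.1])
  have p2 : 0 < (b' - b) * (1025 * a - 4300) := mul_pos (by linarith) (by linarith [ha.1])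
  linarith

theorem sg_pos {v : ℝ} (h : v ∈ Ioo (6 : ℝ) 8) : 0 < sg v :=
  div_pos (by linarith [h.1]) (by linarith [h.1])

theorem al_pos {v : ℝ} (h : v ∈ Ioo (6 : ℝ) 8) : 0 < al v := by
  have : 0 < v - 2 := by linarith [h.1]
  unfold al tt
  positivity

theorem sg_inj {v w : ℝ} (h : v ∈ Ioo (6 : ℝ) 8) (h' : w ∈ Ioo (6 : ℝ) 8) (e : sg v = sg w) :
    v = w := by
  rw [sg, sg, div_eq_div_iff (by linarith [h.1]) (by linarith [h'.1])] at e
  linarith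

/-- the addition gadget -/
def AddG (C O x y z : ℝ) (f : Fin 7 → ℝ) : Prop :=
  G (f 0) (f 2) O ∧ G (f 1) (f 2) x ∧ G (f 0) C (f 3) ∧ G (f 1) C (f 4) ∧ G (f 3) (f 2) (f 5) ∧
    G y C (f 5) ∧ G (f 4) (f 2) (f 6) ∧ G z C (f 6)

/-- the multiplication gadget -/
def MulG (C x y z : ℝ) (f : Fin 2 → ℝ) : Prop := G (f 0) C x ∧ G C (f 1) y ∧ G (f 0) (f 1) z

theorem AddG.eq {C O x y z : ℝ} {f : Fin 7 → ℝ} (h : AddG C O x y z f) (hC : sg C ≠ 0) :
    tt z = tt x + tt y - tt O := by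
  obtain ⟨h1, h2, h3, h4, h5, h6, h7, h8⟩ := h
  unfold G at *
  have e5 : al (f 3) = 3 / 7 * (2 * tt (f 3) + 11) := rfl
  have e7 : al (f 4) = 3 / 7 * (2 * tt (f 4) + 11) := rfl
  have e6 : al y = 3 / 7 * (2 * tt y + 11) := rfl
  have e8 : al z = 3 / 7 * (2 * tt z + 11) := rfl
  rw [e5, h3] at h5
  rw [e7, h4] at h7
  rw [e6] at h6
  rw [e8] at h8
  apply mul_right_cancel₀ hC
  linear_combination 7 / 6 * (h7 - h8 - h5 + h6) + sg C * (h1 - h2)

theorem MulG.eq {C O x y z : ℝ} {f : Fin 2 → ℝ} (h : MulG C x y z f) (hO : G C C O) :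
    tt x * tt y = tt O * tt z := by
  obtain ⟨h1, h2, h3⟩ := h
  unfold G at *
  rw [h1, h2, h3, hO]
  ring

/-- the working range -/
def I : Set ℝ := Ioo (131 / 20) 7

theorem I_sub {v : ℝ} (h : v ∈ I) : v ∈ Ioo (6 : ℝ) 8 := ⟨by linarith [h.1], by linarith [h.2]⟩

/-- inverse of `tt` -/
def tv (z : ℝ) : ℝ := 2 + 15 / (z - 4)

theorem tv_ok {z : ℝ} (h1 : 7 < z) (h2 : z < 729 / 100) : tv z ∈ I ∧ tt (tv z) = z := by
  have p : 0 < z - 4 := by linarith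
  have a1 : 15 / (z - 4) < 5 := (div_lt_iff₀ p).2 (by linarith)
  have a2 : 91 / 20 < 15 / (z - 4) := (lt_div_iff₀ p).2 (by linarith)
  refine ⟨⟨by unfold tv; linarith, by unfold tv; linarith⟩, ?_⟩
  unfold tt tv
  field_simp
  ring

theorem exT {z : ℝ} (h1 : 7 < z) (h2 : z < 729 / 100) : ∃ v ∈ I, tt v = z := ⟨_, tv_ok h1 h2⟩

theorem exA {w : ℝ} (h1 : 75 / 7 < w) (h2 : w < 274 / 25) : ∃ v ∈ I, al v = w := by
  obtain ⟨v, hv, e⟩ := exT (z := (7 * w / 3 - 11) / 2) (by linarith) (by linarith)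
  exact ⟨v, hv, by rw [al, e]; ring⟩

theorem exS {k : ℝ} (h1 : 161 / 250 < k) (h2 : k < 653 / 1000) : ∃ v ∈ I, sg v = k := by
  have p : 0 < 10 * k - 5 := by linarith
  refine ⟨(12 - 3 * k) / (10 * k - 5),
    ⟨(lt_div_iff₀ p).2 (by linarith), (div_lt_iff₀ p).2 (by linarith)⟩, ?_⟩
  have e : 10 * ((12 - 3 * k) / (10 * k - 5)) + 3 = 105 / (10 * k - 5) := by
    field_simp
    ring
  have e' : 5 * ((12 - 3 * k) / (10 * k - 5)) + 12 = k * (105 / (10 * k - 5)) := by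
    rw [← mul_div_assoc, ← mul_div_assoc, div_add' _ _ _ p.ne']
    congr 1
    ring
  rw [sg, e, e', mul_div_cancel_right₀ _ (by positivity)]

theorem exBar {v : ℝ} (h : v ∈ I) : ∃ b ∈ I, G b v 7 := by
  have h1 := h.1
  have h2 := h.2
  have p : 0 < 5 * v + 12 := by linarith
  have q : 0 < 10 * v + 3 := by linarith
  obtain ⟨b, hb, e⟩ := exA (w := 7 * (10 * v + 3) / (5 * v + 12))
    ((lt_div_iff₀ p).2 (by linarith)) ((div_lt_iff₀ p).2 (by linarith))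
  refine ⟨b, hb, ?_⟩
  rw [G, e, tt, sg]
  field_simp
  norm_num

theorem alC : al (20 / 3) = 534 / 49 := by norm_num [al, tt]

theorem sgC : sg (20 / 3) = 136 / 209 := by norm_num [sg]

/-- the value which stands for the small real `X` -/
def enc (X : ℝ) : ℝ := tv (534 / 49 * (136 / 209) * (1 + X))

theorem enc_ok {X : ℝ} (h : |X| < 1 / 400) :
    enc X ∈ I ∧ tt (enc X) = 534 / 49 * (136 / 209) * (1 + X) := by
  obtain ⟨h1, h2⟩ := abs_lt.1 h
  exact tv_ok (by linarith) (by linarith)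

theorem addOK {X Y : ℝ} (hX : |X| < 1 / 1000) (hY : |Y| < 1 / 1000) :
    ∃ f : Fin 7 → ℝ, (∀ k, f k ∈ I) ∧ AddG (20 / 3) (enc 0) (enc X) (enc Y) (enc (X + Y)) f := by
  have e0 := (enc_ok (X := 0) (by norm_num)).2
  have eX := (enc_ok (X := X) (by linarith)).2
  have eY := (enc_ok (X := Y) (by linarith)).2
  have eZ := (enc_ok (X := X + Y) (by linarith [abs_add_le X Y])).2
  obtain ⟨x1, x2⟩ := abs_lt.1 hX
  obtain ⟨y1, y2⟩ := abs_lt.1 hY
  obtain ⟨m, hm⟩ : ∃ m : ℝ, m = 1 + 2 * (534 / 49 * (136 / 209)) * Y / 11 := ⟨_, rfl⟩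
  have m0 : 0 < m := by linarith
  obtain ⟨μ, μ1, μ2, hμ⟩ : ∃ μ : ℝ, 499 / 500 < μ ∧ μ < 501 / 500 ∧ μ * m = 1 :=
    ⟨1 / m, (lt_div_iff₀ m0).2 (by linarith), (div_lt_iff₀ m0).2 (by linarith), by field_simp⟩
  obtain ⟨ν, hν⟩ : ∃ ν : ℝ, ν = (1 + X) * μ := ⟨_, rfl⟩
  have ν1 : 249 / 250 < ν := by nlinarith
  have ν2 : ν < 251 / 250 := by nlinarith
  obtain ⟨p1, i0, g0⟩ := exA (w := 534 / 49 * μ) (by linarith) (by linarith)
  obtain ⟨p2, i1, g1⟩ := exA (w := 534 / 49 * ν) (by linarith) (by linarith)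
  obtain ⟨q, i2, g2⟩ := exS (k := 136 / 209 * m) (by linarith) (by linarith)
  obtain ⟨s1, i3, g3⟩ := exT (z := 534 / 49 * (136 / 209) * μ) (by linarith) (by linarith)
  obtain ⟨s2, i4, g4⟩ := exT (z := 534 / 49 * (136 / 209) * ν) (by linarith) (by linarith)
  obtain ⟨n1, i5, g5⟩ := exT (z := 3 / 7 * (2 * (534 / 49 * (136 / 209) * (1 + Y)) + 11)
    * (136 / 209)) (by linarith) (by linarith)
  obtain ⟨n2, i6, g6⟩ := exT (z := 3 / 7 * (2 * (534 / 49 * (136 / 209) * (1 + (X + Y))) + 11)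
    * (136 / 209)) (by linarith) (by linarith)
  refine ⟨![p1, p2, q, s1, s2, n1, n2], fun k => by fin_cases k <;> assumption, ?_⟩
  show G p1 q _ ∧ G p2 q _ ∧ G p1 _ s1 ∧ G p2 _ s2 ∧ G s1 q n1 ∧ G _ _ n1 ∧ G s2 q n2 ∧ G _ _ n2
  refine ⟨?_, ?_, ?_, ?_, ?_, ?_, ?_, ?_⟩
  · rw [G, e0, g0, g2]
    linear_combination -(534 / 49 * (136 / 209)) * hμ
  · rw [G, eX, g1, g2, hν]
    linear_combination -(534 / 49 * (136 / 209)) * (1 + X) * hμ
  · rw [G, g3, g0, sgC]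
    ring
  · rw [G, g4, g1, sgC]
    ring
  · rw [G, g5, al, g3, g2]
    linear_combination -(6 / 7 * (534 / 49 * (136 / 209)) * (136 / 209)) * hμ
      - 33 / 7 * (136 / 209) * hm
  · rw [G, g5, al, eY, sgC]
  · rw [G, g6, al, g4, g2, hν]
    linear_combination -(6 / 7 * (534 / 49 * (136 / 209)) * (136 / 209)) * (1 + X) * hμ
      - 33 / 7 * (136 / 209) * hm
  · rw [G, g6, al, eZ, sgC]

theorem mulOK {X Y : ℝ} (hX : |X| < 1 / 1000) (hY : |Y| < 1 / 1000) :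
    ∃ f : Fin 2 → ℝ, (∀ k, f k ∈ I) ∧ MulG (20 / 3) (enc X) (enc Y) (enc (X + Y + X * Y)) f := by
  have eX := (enc_ok (X := X) (by linarith)).2
  have eY := (enc_ok (X := Y) (by linarith)).2
  obtain ⟨x1, x2⟩ := abs_lt.1 hX
  obtain ⟨y1, y2⟩ := abs_lt.1 hY
  have eZ := (enc_ok (X := X + Y + X * Y) (abs_lt.2 ⟨by nlinarith, by nlinarith⟩)).2
  obtain ⟨p, i0, g0⟩ := exA (w := 534 / 49 * (1 + X)) (by linarith) (by linarith)
  obtain ⟨q, i1, g1⟩ := exS (k := 136 / 209 * (1 + Y)) (by linarith) (by linarith)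
  refine ⟨![p, q], fun k => by fin_cases k <;> assumption, ?_⟩
  show G p _ _ ∧ G _ q _ ∧ G p q _
  refine ⟨?_, ?_, ?_⟩
  · rw [G, eX, g0, sgC]
    ring
  · rw [G, eY, g1, alC]
    ring
  · rw [G, eZ, g0, g1]
    ring

/-- slots: numbers, the two constants, inner slots of the gadgets -/
abbrev Sl : Type := Fin 18 ⊕ Bool ⊕ (Fin 5 × Fin 7) ⊕ (Fin 2 × Fin 2)

/-- ports: two rails for every slot, the port of value seven and the source -/
abbrev Pt : Type := (Sl × Bool) ⊕ Bool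

/-- devices on the data rails -/
abbrev D0 : Type := Bool ⊕ (Fin 5 × Fin 8) ⊕ (Fin 2 × Fin 3)

/-- number slots -/
abbrev o (i : Fin 18) : Sl := .inl i

/-- the held constant -/
abbrev sC : Sl := .inr (.inl false)

/-- the shifted constant -/
abbrev sU : Sl := .inr (.inl true)

/-- inner slots of the additions -/
abbrev ia (g : Fin 5) (k : Fin 7) : Sl := .inr (.inr (.inl (g, k)))

/-- inner slots of the multiplications -/
abbrev im (g : Fin 2) (k : Fin 2) : Sl := .inr (.inr (.inr (g, k)))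

/-- wiring of the additions -/
def aW : Fin 5 → Fin 18 × Fin 18 × Fin 18 :=
  ![(7, 8, 9), (15, 10, 13), (16, 11, 15), (17, 6, 14), (16, 12, 17)]

/-- wiring of the multiplications -/
def mW : Fin 2 → Fin 18 × Fin 18 × Fin 18 := ![(10, 11, 13), (6, 12, 14)]

/-- the slots of a device -/
def dv : D0 → Sl × Sl × Sl
  | .inl false => (sC, sC, o 5)
  | .inl true => (sC, sU, o 6)
  | .inr (.inl (g, k)) => ![(ia g 0, ia g 2, o 5), (ia g 1, ia g 2, o (aW g).1),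
      (ia g 0, sC, ia g 3), (ia g 1, sC, ia g 4), (ia g 3, ia g 2, ia g 5),
      (o (aW g).2.1, sC, ia g 5), (ia g 4, ia g 2, ia g 6), (o (aW g).2.2, sC, ia g 6)] k
  | .inr (.inr (g, k)) => ![(im g 0, sC, o (mW g).1), (sC, im g 1, o (mW g).2.1),
      (im g 0, im g 1, o (mW g).2.2)] k

/-- all devices of one cell are satisfied -/
def Cell (w : Sl → ℝ) : Prop := ∀ d, G (w (dv d).1) (w (dv d).2.1) (w (dv d).2.2)

theorem cell_iff (w : Sl → ℝ) : Cell w ↔ G (w sC) (w sC) (w (o 5)) ∧ G (w sC) (w sU) (w (o 6)) ∧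
    (∀ g, AddG (w sC) (w (o 5)) (w (o (aW g).1)) (w (o (aW g).2.1)) (w (o (aW g).2.2))
      fun k => w (ia g k)) ∧
    ∀ g, MulG (w sC) (w (o (mW g).1)) (w (o (mW g).2.1)) (w (o (mW g).2.2))
      fun k => w (im g k) := by
  refine ⟨fun h => ⟨h (.inl false), h (.inl true), fun g => ⟨h (.inr (.inl (g, 0))),
    h (.inr (.inl (g, 1))), h (.inr (.inl (g, 2))), h (.inr (.inl (g, 3))),
    h (.inr (.inl (g, 4))), h (.inr (.inl (g, 5))), h (.inr (.inl (g, 6))),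
    h (.inr (.inl (g, 7)))⟩, fun g => ⟨h (.inr (.inr (g, 0))), h (.inr (.inr (g, 1))),
    h (.inr (.inr (g, 2)))⟩⟩, ?_⟩
  rintro ⟨h1, h2, h3, h4⟩ ((_ | _) | ⟨g, k⟩ | ⟨g, k⟩)
  · exact h1
  · exact h2
  · obtain ⟨a0, a1, a2, a3, a4, a5, a6, a7⟩ := h3 g
    fin_cases k
    exacts [a0, a1, a2, a3, a4, a5, a6, a7]
  · obtain ⟨a0, a1, a2⟩ := h4 g
    fin_cases k
    exacts [a0, a1, a2]

theorem cell_weak {w : Sl → ℝ} (hw : ∀ s, w s ∈ Ioo (6 : ℝ) 8) (h : Cell w) :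
    tt (w (o 9)) = tt (w (o 7)) + tt (w (o 8)) - tt (w (o 5)) ∧
      (tt (w (o 10)) - tt (w (o 5))) * (tt (w (o 11)) - tt (w (o 5)))
        = (tt (w (o 6)) - tt (w (o 5))) * (tt (w (o 12)) - tt (w (o 5))) := by
  obtain ⟨h1, -, h3, h4⟩ := (cell_iff w).1 h
  have hC := (sg_pos (hw sC)).ne'
  have a1 : tt (w (o 13)) = tt (w (o 15)) + tt (w (o 10)) - tt (w (o 5)) := (h3 1).eq hC
  have a2 : tt (w (o 15)) = tt (w (o 16)) + tt (w (o 11)) - tt (w (o 5)) := (h3 2).eq hC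
  have a3 : tt (w (o 14)) = tt (w (o 17)) + tt (w (o 6)) - tt (w (o 5)) := (h3 3).eq hC
  have a4 : tt (w (o 17)) = tt (w (o 16)) + tt (w (o 12)) - tt (w (o 5)) := (h3 4).eq hC
  have m0 : tt (w (o 10)) * tt (w (o 11)) = tt (w (o 5)) * tt (w (o 13)) := (h4 0).eq h1
  have m1 : tt (w (o 6)) * tt (w (o 12)) = tt (w (o 5)) * tt (w (o 14)) := (h4 1).eq h1
  exact ⟨(h3 0).eq hC, by linear_combination m0 - m1 + tt (w (o 5)) * (a1 + a2 - a3 - a4)⟩

/-- the real slots among the number slots -/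
def rl (i : Fin 5) : Fin 18 := Fin.castLE (by norm_num) i

theorem cell_strong {e u : ℝ} {r : Fin 5 → ℝ} (he : |e| < 1 / 4000) (hr : ∀ i, |r i| < 1 / 4000)
    (hu : u ∈ I) (hue : sg u = 136 / 209 * (1 + e)) :
    ∃ w : Sl → ℝ, (∀ s, w s ∈ I) ∧ Cell w ∧ w sC = 20 / 3 ∧ w sU = u ∧ w (o 5) = enc 0 ∧
      w (o 6) = enc e ∧ (∀ i, w (o (rl i)) = enc (r i)) ∧
      (r 2 + r 3 = r 4 → w (o 7) = enc (r 2) ∧ w (o 8) = enc (r 3) ∧ w (o 9) = enc (r 4)) ∧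
      (r 2 * r 3 = e * r 4 →
        w (o 10) = enc (r 2) ∧ w (o 11) = enc (r 3) ∧ w (o 12) = enc (r 4)) := by
  obtain ⟨a, b, ha, hb, hab⟩ : ∃ a b : ℝ, |a| < 1 / 4000 ∧ |b| < 1 / 4000 ∧
      (r 2 + r 3 = r 4 → a = r 2 ∧ b = r 3) := ⟨r 2, r 3, hr 2, hr 3, fun _ => ⟨rfl, rfl⟩⟩
  obtain ⟨p, q, s, hp, hq, hs, hpq, hm⟩ : ∃ p q s : ℝ, |p| < 1 / 4000 ∧ |q| < 1 / 4000 ∧
      |s| < 1 / 4000 ∧ p * q = e * s ∧ (r 2 * r 3 = e * r 4 → p = r 2 ∧ q = r 3 ∧ s = r 4) := by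
    by_cases h : r 2 * r 3 = e * r 4
    · exact ⟨r 2, r 3, r 4, hr 2, hr 3, hr 4, h, fun _ => ⟨rfl, rfl, rfl⟩⟩
    · exact ⟨0, 0, 0, by norm_num, by norm_num, by norm_num, by simp, fun k => absurd k h⟩
  have hz : |p * q| < 1 / 4000 := by
    rw [abs_mul]
    nlinarith [abs_nonneg p, abs_nonneg q]
  obtain ⟨X, hX⟩ : ∃ X : Fin 18 → ℝ, X = ![r 0, r 1, r 2, r 3, r 4, 0, e, a, b, a + b, p, q, s,
    p + q + p * q, e + s + p * q, q + p * q, p * q, s + p * q] := ⟨_, rfl⟩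
  have hb : ∀ i, |X i| < 1 / 1000 := by
    have h0 := abs_lt.1 (hr 0)
    have h1 := abs_lt.1 (hr 1)
    have h2 := abs_lt.1 (hr 2)
    have h3 := abs_lt.1 (hr 3)
    have h4 := abs_lt.1 (hr 4)
    rw [abs_lt] at he ha hb hp hq hs hz
    intro i
    rw [hX, abs_lt]
    fin_cases i <;> simp <;> constructor <;> linarith
  have ea : ∀ g, X (aW g).2.2 = X (aW g).1 + X (aW g).2.1 := by
    intro g
    rw [hX]
    fin_cases g <;> simp [aW] <;> ring
  have em : ∀ g, X (mW g).2.2 = X (mW g).1 + X (mW g).2.1 + X (mW g).1 * X (mW g).2.1 := by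
    intro g
    rw [hX]
    fin_cases g <;> simp [mW, hpq]
  choose fa fa1 fa2 using fun g => addOK (hb (aW g).1) (hb (aW g).2.1)
  choose fm fm1 fm2 using fun g => mulOK (hb (mW g).1) (hb (mW g).2.1)
  have x5 : X 5 = 0 := by rw [hX]; rfl
  have x6 : X 6 = e := by rw [hX]; rfl
  refine ⟨Sum.elim (fun i => enc (X i)) (Sum.elim (fun b => if b then u else 20 / 3)
    (Sum.elim (fun x => fa x.1 x.2) fun x => fm x.1 x.2)), ?_, (cell_iff _).2 ⟨?_, ?_, ?_, ?_⟩,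
    rfl, rfl, congrArg enc x5, congrArg enc x6, fun i => congrArg enc ?_, fun h => ?_,
    fun h => ?_⟩
  · rintro (i | (_ | _) | x | x)
    · exact (enc_ok (by linarith [hb i])).1
    · exact ⟨by norm_num, by norm_num⟩
    · exact hu
    · exact fa1 _ _
    · exact fm1 _ _
  · show G (20 / 3) (20 / 3) (enc (X 5))
    rw [G, x5, (enc_ok (X := 0) (by norm_num)).2, alC, sgC]
    ring
  · show G (20 / 3) u (enc (X 6))
    rw [G, x6, (enc_ok (X := e) (by linarith)).2, alC, hue]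
    ring
  · intro g
    have := fa2 g
    rw [← ea, ← x5] at this
    exact this
  · intro g
    have := fm2 g
    rw [← em] at this
    exact this
  · rw [hX]
    fin_cases i <;> rfl
  · obtain ⟨rfl, rfl⟩ := hab h
    rw [hX, ← h]
    exact ⟨rfl, rfl, rfl⟩
  · obtain ⟨rfl, rfl, rfl⟩ := hm h
    rw [hX]
    exact ⟨rfl, rfl, rfl⟩

variable {E A : Type}

/-- conditional equalities between number slots -/
def LK (M : RSys E A) (a : A) (i i' : Fin 18) : Prop :=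
  (∃ s s', M.eqv a s s' ∧ i = rl s ∧ i' = rl s') ∨ (M.zero a ∧ i = rl 0 ∧ i' = 5) ∨
    (M.chk a 0 ∧ (i = rl 2 ∧ i' = 7 ∨ i = rl 3 ∧ i' = 8 ∨ i = rl 4 ∧ i' = 9)) ∨
    (M.chk a 1 ∧ (i = rl 2 ∧ i' = 10 ∨ i = rl 3 ∧ i' = 11 ∨ i = rl 4 ∧ i' = 12)) ∨
    (M.chk a 2 ∧ i = rl 2 ∧ i' = 6)

/-- transported slots -/
def TR (h : Fin 5 → Prop) (s : Sl) : Prop := s = sC ∨ s = o 6 ∨ ∃ i, h i ∧ s = o (rl i)

/-- the net -/
def net (M : RSys E A) : Net E A Pt (Sl ⊕ D0 ⊕ Unit) where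
  root := M.root
  idle := M.idle
  V := M.V
  Nx := M.Nx
  hold a p := ∃ s b, p = .inl (s, b) ∧ TR (M.hold a) s
  down a p := ∃ s b, p = .inl (s, b) ∧ TR (M.down a) s
  lk a p p' := ∃ i i' b, LK M a i i' ∧ p = .inl (o i, b) ∧ p' = .inl (o i', b)
  tri := Sum.elim (fun s => (.inl (s, true), .inl (s, false), .inr false))
    (Sum.elim (fun d => (.inl ((dv d).1, false), .inl ((dv d).2.1, false),
      .inl ((dv d).2.2, false))) fun _ => (.inl (sC, true), .inl (sU, false), .inr true))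
  le7 p := p ≠ .inr true
  ge7 p := p = .inr false
  y := .inr true

theorem In.half {t : ℕ} {j : ℤ} (h : In (t + 1) j) :
    In t (j / 2) ∧ In (t + 1) (2 * (j / 2)) ∧ (j = 2 * (j / 2) ∨ j = 2 * (j / 2) + 1) := by
  unfold In at *
  rw [pow_succ] at *
  generalize (2 : ℤ) ^ t = n at *
  omega

theorem weak (M : RSys E A) (T : ℕ) (pl : ℕ → E) (h : (net M).Weak T pl) : M.Weak T pl := by
  obtain ⟨c, v, -, h0, hy, h⟩ := h
  have base : ∀ t ≤ T, ∀ j, In t j → ∀ s, v t j (.inl (s, true)) ∈ Ioo (6 : ℝ) 8 ∧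
      v t j (.inl (s, false)) ∈ Ioo (6 : ℝ) 8 ∧
      FF (v t j (.inl (s, true))) (v t j (.inl (s, false))) 7 = 0 := by
    intro t ht j hj s
    obtain ⟨-, -, -, h4, h5, h6⟩ := h t ht j hj
    have e7 : v t j (.inr false) = 7 := le_antisymm (h5 _ (by simp [net])) (h6 _ rfl)
    have k : TriW (v t j (.inl (s, true))) (v t j (.inl (s, false))) (v t j (.inr false)) :=
      h4 (.inl s)
    rw [e7] at k
    obtain ⟨k1, k2⟩ := tri_rev k (h5 _ (by simp [net])) (h5 _ (by simp [net]))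
    exact ⟨k1, k2, tri_eq k k1 k2 (by norm_num)⟩
  have two : ∀ t ≤ T, ∀ j, In t j → ∀ t' ≤ T, ∀ j', In t' j' → ∀ s s',
      (∀ b, v t j (.inl (s, b)) ≤ v t' j' (.inl (s', b))) →
      v t j (.inl (s, false)) = v t' j' (.inl (s', false)) := fun t ht j hj t' ht' j' hj' s s' k =>
    rails (base t ht j hj s).1 (base t' ht' j' hj' s').2.1 (base t ht j hj s).2.2
      (base t' ht' j' hj' s').2.2 (k true) (k false)
  have cell : ∀ t ≤ T, ∀ j, In t j → Cell fun s => v t j (.inl (s, false)) :=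
    fun t ht j hj d => (FF_iff (base t ht j hj _).2.1 (base t ht j hj _).2.1
      (base t ht j hj _).2.1).1 (tri_eq ((h t ht j hj).2.2.2.1 (.inr (.inl d)))
        (base t ht j hj _).2.1 (base t ht j hj _).2.1 (base t ht j hj _).2.1)
  have dn : ∀ t < T, ∀ j, In t j → ∀ s, TR (M.down (c (t + 1) (2 * j))) s →
      v t j (.inl (s, false)) = v (t + 1) (2 * j) (.inl (s, false)) := by
    intro t ht j hj s hs
    refine two t ht.le j hj (t + 1) ht (2 * j) ?_ s s fun b =>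
      ((h t ht.le j hj).1 ht).2 _ ⟨s, b, rfl, hs⟩
    unfold In at *
    rw [pow_succ]
    omega
  have hd : ∀ t ≤ T, ∀ j, In t j → In t (j + 1) → ∀ s, TR (M.hold (c t (j + 1))) s →
      v t j (.inl (s, false)) = v t (j + 1) (.inl (s, false)) := fun t ht j hj hj' s hs =>
    two t ht j hj t ht (j + 1) hj' s s fun b => ((h t ht j hj).2.1 hj').2 _ ⟨s, b, rfl, hs⟩
  have lk : ∀ t ≤ T, ∀ j, In t j → ∀ i i', LK M (c t j) i i' →
      v t j (.inl (o i, false)) = v t j (.inl (o i', false)) := fun t ht j hj i i' k =>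
    two t ht j hj t ht j hj _ _ fun b => (h t ht j hj).2.2.1 _ _ ⟨i, i', b, k, rfl, rfl⟩
  have glob : ∀ s, (∀ f, TR f s) → ∀ t ≤ T, ∀ j, In t j →
      v t j (.inl (s, false)) = v 0 85 (.inl (s, false)) := by
    intro s hs t
    induction t with
    | zero =>
      intro _ j hj
      obtain rfl : j = 85 := by
        unfold In at hj
        omega
      rfl
    | succ t ih =>
      intro ht j hj
      obtain ⟨k1, k2, k3⟩ := In.half hj
      have e := (dn t ht _ k1 s (hs _)).symm.trans (ih (Nat.le_of_succ_le ht) _ k1)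
      generalize j / 2 = i at *
      rcases k3 with rfl | rfl
      · exact e
      · exact (hd _ ht _ k2 hj s (hs _)).symm.trans e
  have r0 : In 0 85 := by norm_num [In]
  have T0 := Nat.zero_le T
  have gC := glob sC fun _ => Or.inl rfl
  have gE := glob (o 6) fun _ => Or.inr (Or.inl rfl)
  have gO : ∀ t ≤ T, ∀ j, In t j →
      tt (v t j (.inl (o 5, false))) = tt (v 0 85 (.inl (o 5, false))) := by
    intro t ht j hj
    have k1 : G _ _ _ := ((cell_iff _).1 (cell t ht j hj)).1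
    have k2 : G _ _ _ := ((cell_iff _).1 (cell 0 T0 85 r0)).1
    rw [gC t ht j hj] at k1
    exact Eq.trans k1 (Eq.symm k2)
  obtain ⟨τ, hτ⟩ : ∃ τ, τ = tt (v 0 85 (.inl (o 5, false))) := ⟨_, rfl⟩
  obtain ⟨ε, hε⟩ : ∃ ε, ε = tt (v 0 85 (.inl (o 6, false))) - τ := ⟨_, rfl⟩
  have ε0 : ε ≠ 0 := by
    intro k
    obtain ⟨k1, k2, -⟩ := (cell_iff _).1 (cell 0 T0 85 r0)
    have b1 := base 0 T0 85 r0 sC
    have b2 := base 0 T0 85 r0 sU
    have k3 : TriW (v 0 85 (.inl (sC, true))) (v 0 85 (.inl (sU, false))) (v 0 85 (.inr true)) :=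
      (h 0 T0 85 r0).2.2.2.1 (.inr (.inr ()))
    refine tri_src k3 b1.1 b2.2.1 hy ?_
    unfold G at k1 k2
    rw [hε, hτ, k1, k2, ← mul_sub, mul_eq_zero, or_iff_right (al_pos b1.2.1).ne', sub_eq_zero] at k
    rw [sg_inj b2.2.1 b1.2.1 k]
    exact b1.2.2
  refine ⟨c, fun t j s => (tt (v t j (.inl (o (rl s), false))) - τ) / ε, h0, fun t ht j hj =>
    ⟨fun k => ⟨((h t ht j hj).1 k).1, fun s hs => ?_⟩,
      fun k => ⟨((h t ht j hj).2.1 k).1, fun s hs => ?_⟩, fun s s' hs => ?_, fun k => ?_,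
      fun _ q k => ?_⟩⟩
  · beta_reduce
    rw [dn t k j hj _ (Or.inr (Or.inr ⟨s, hs, rfl⟩))]
  · beta_reduce
    rw [hd t ht j hj k _ (Or.inr (Or.inr ⟨s, hs, rfl⟩))]
  · beta_reduce
    rw [lk t ht j hj _ _ (Or.inl ⟨s, s', hs, rfl, rfl⟩)]
  · beta_reduce
    rw [lk t ht j hj _ _ (Or.inr (Or.inl ⟨k, rfl, rfl⟩)), gO t ht j hj, ← hτ, sub_self, zero_div]
  · obtain ⟨w1, w2⟩ := cell_weak (fun s => (base t ht j hj s).2.1) (cell t ht j hj)
    rw [gO t ht j hj, ← hτ] at w1 w2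
    rw [gE t ht j hj, ← hε] at w2
    beta_reduce
    fin_cases q
    · have l := fun i i' a => lk t ht j hj i i' (Or.inr (Or.inr (Or.inl ⟨k, a⟩)))
      rw [l _ _ (Or.inl ⟨rfl, rfl⟩), l _ _ (Or.inr (Or.inl ⟨rfl, rfl⟩)),
        l _ _ (Or.inr (Or.inr ⟨rfl, rfl⟩))]
      refine (if_pos rfl).mpr ?_
      rw [w1]
      ring
    · have l := fun i i' a => lk t ht j hj i i' (Or.inr (Or.inr (Or.inr (Or.inl ⟨k, a⟩))))
      rw [l _ _ (Or.inl ⟨rfl, rfl⟩), l _ _ (Or.inr (Or.inl ⟨rfl, rfl⟩)),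
        l _ _ (Or.inr (Or.inr ⟨rfl, rfl⟩))]
      refine (if_neg (by decide)).mpr ((if_pos rfl).mpr ?_)
      rw [div_mul_div_comm, w2, mul_div_mul_left _ _ ε0]
    · rw [lk t ht j hj _ _ (Or.inr (Or.inr (Or.inr (Or.inr ⟨k, rfl, rfl⟩)))), gE t ht j hj, ← hε]
      exact (if_neg (by decide)).mpr ((if_neg (by decide)).mpr (div_self ε0))

theorem strong (M : RSys E A) (T : ℕ) (pl : ℕ → E) (h : M.Strong T pl) :
    ∃ δ > 0, ∀ η ∈ Ioo (0 : ℝ) δ, (net M).Strong T pl η := by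
  obtain ⟨c, x, B, hB, h0, h⟩ := h
  have B0 : 0 ≤ B := (abs_nonneg _).trans (hB 0 0 0)
  refine ⟨1 / 4000 / (B + 1), by positivity, fun η ⟨η0, η1⟩ => ?_⟩
  rw [lt_div_iff₀ (by positivity)] at η1
  have η2 : η < 1 / 4000 := by nlinarith
  obtain ⟨e, he⟩ : ∃ e, e = tt (7 + η) / 7 - 1 := ⟨_, rfl⟩
  have he1 : |e| ≤ η := by
    have p : 0 < 7 + η - 2 := by linarith
    have a1 : 15 / (7 + η - 2) ≤ 3 := (div_le_iff₀ p).2 (by linarith)
    have a2 : 3 - η ≤ 15 / (7 + η - 2) := (le_div_iff₀ p).2 (by nlinarith)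
    rw [he, tt, abs_le]
    constructor <;> linarith
  have he2 := abs_le.1 he1
  obtain ⟨u, hu, hue⟩ := exS (k := 136 / 209 * (1 + e)) (by linarith) (by linarith)
  have hr : ∀ t j i, |e * x t j i| < 1 / 4000 := fun t j i => by
    rw [abs_mul]
    nlinarith [mul_le_mul he1 (hB t j i) (abs_nonneg _) η0.le]
  choose w w1 w2 w3 w4 w5 w6 w7 w8 w9 using fun t j =>
    cell_strong (r := fun i => e * x t j i) (he1.trans_lt η2) (hr t j) hu hue
  choose! bar b1 b2 using fun v (hv : v ∈ I) => exBar hv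
  have tr : ∀ (f : Fin 5 → Prop) t j t' j', (∀ s, f s → x t j s = x t' j' s) → ∀ s, TR f s →
      w t j s = w t' j' s := by
    rintro f t j t' j' k s (rfl | rfl | ⟨i, hi, rfl⟩)
    · rw [w3, w3]
    · rw [w6, w6]
    · rw [w7, w7, k i hi]
  have i7 : (7 : ℝ) ∈ Ioo (6 : ℝ) 8 := by norm_num
  refine ⟨c, fun t j => Sum.elim (fun p => if p.2 then bar (w t j p.1) else w t j p.1)
    fun b => if b then 7 + η else 7, ?_, h0, rfl, fun t ht j =>
    ⟨fun k => ⟨((h t ht j).1 k).1, ?_⟩, ⟨(h t ht j).2.1.1, ?_⟩, ?_, ?_, ?_, ?_⟩⟩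
  · rintro t j (⟨s, _ | _⟩ | _ | _)
    · exact I_sub (w1 t j s)
    · exact I_sub (b1 _ (w1 t j s))
    · exact i7
    · exact ⟨show 6 < 7 + η by linarith, show 7 + η < 8 by linarith⟩
  · rintro p ⟨s, b, rfl, hs⟩
    simp only [Sum.elim_inl, tr _ _ _ _ _ ((h t ht j).1 k).2 s hs]
  · rintro p ⟨s, b, rfl, hs⟩
    simp only [Sum.elim_inl, tr _ _ _ _ _ (h t ht j).2.1.2 s hs]
  · rintro p p' ⟨i, i', b, k, rfl, rfl⟩
    suffices w t j (o i) = w t j (o i') by simp only [Sum.elim_inl, this]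
    obtain ⟨-, -, h3, h4, h5⟩ := h t ht j
    rcases k with ⟨s, s', k, rfl, rfl⟩ | ⟨k, rfl, rfl⟩ | ⟨k, l⟩ | ⟨k, l⟩ | ⟨k, rfl, rfl⟩
    · rw [w7, w7, h3 s s' k]
    · rw [w7, w5, h4 k, mul_zero]
    · have q : x t j 2 + x t j 3 = x t j 4 := (if_pos rfl).mp (h5 0 k)
      obtain ⟨a1, a2, a3⟩ := w8 t j (by rw [← q]; ring)
      rcases l with ⟨rfl, rfl⟩ | ⟨rfl, rfl⟩ | ⟨rfl, rfl⟩
      exacts [(w7 t j 2).trans a1.symm, (w7 t j 3).trans a2.symm, (w7 t j 4).trans a3.symm]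
    · have q : x t j 2 * x t j 3 = x t j 4 :=
        (if_pos rfl).mp ((if_neg (by decide)).mp (h5 1 k))
      obtain ⟨a1, a2, a3⟩ := w9 t j (by rw [← q]; ring)
      rcases l with ⟨rfl, rfl⟩ | ⟨rfl, rfl⟩ | ⟨rfl, rfl⟩
      exacts [(w7 t j 2).trans a1.symm, (w7 t j 3).trans a2.symm, (w7 t j 4).trans a3.symm]
    · have q : x t j 2 = 1 := (if_neg (by decide)).mp ((if_neg (by decide)).mp (h5 2 k))
      rw [w7, w6, q, mul_one]
  · rintro (s | d | _)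
    · exact (FF_iff (I_sub (b1 _ (w1 t j s))) (I_sub (w1 t j s)) i7).2 (b2 _ (w1 t j s))
    · exact (FF_iff (I_sub (w1 t j _)) (I_sub (w1 t j _)) (I_sub (w1 t j _))).2 (w2 t j d)
    · refine (FF_iff (I_sub (b1 _ (w1 t j sC))) (I_sub (w1 t j sU))
        ⟨show 6 < 7 + η by linarith, show 7 + η < 8 by linarith⟩).2 ?_
      have k := b2 _ (w1 t j sC)
      have t7 : tt 7 = 7 := by norm_num [tt]
      rw [G, t7, w3, sgC] at k
      rw [G, w3, w4, hue, he]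
      linear_combination tt (7 + η) / 7 * k
  · rintro (⟨s, _ | _⟩ | _ | _) k
    · exact (w1 t j s).2.le
    · exact (b1 _ (w1 t j s)).2.le
    · exact le_rfl
    · exact absurd rfl k
  · rintro p rfl
    exact le_rfl

end Slot

theorem exists_net {E A : Type} (M : RSys E A) :
    ∃ (P D : Type) (_ : Finite P) (_ : Finite D) (N : Net E A P D), N.root = M.root ∧ N.idle = M.idle ∧
      ∀ (T : ℕ) (pl : ℕ → E), (N.Weak T pl → M.Weak T pl) ∧
        (M.Strong T pl → ∃ δ > 0, ∀ η ∈ Ioo (0 : ℝ) δ, N.Strong T pl η) :=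
  ⟨_, _, inferInstance, inferInstance, Slot.net M, rfl, rfl, fun T pl =>
    ⟨Slot.weak M T pl, Slot.strong M T pl⟩⟩

end

end Pool.Agent.Lib.MP_79902f_lc.W
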