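import Pool.Agent.Lib.MP_79902f_lc.WSound
import Pool.Agent.Lib.MP_79902f_lc.WReal
import Pool.Agent.Lib.MP_79902f_lc.WSlot
import Pool.Agent.Lib.MP_79902f_lc.WPyr
import Pool.Agent.Lib.MP_79902f_lc.WProg

/-!
The reduction from bounded reachability over the reals to the realizability of planar convex codes.
-/

namespace Pool.Agent.Lib.MP_79902f_lc.W

open Set N68a2faeb N793a5b8e Pool.Agent.Shared.PolyTime N487b59b3

theorem net_iff {E A P D : Type} [Finite A] [Finite P] [Finite D] (M : Net E A P D)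
    (hM : M.root ≠ M.idle) : ∃ C : List (List ℕ), ∀ (T : ℕ) (pl : ℕ → E),
      ((∃ δ > 0, ∀ η ∈ Ioo (0 : ℝ) δ, M.Strong T pl η) →
        ConvexRealizable (nb + (T + 5) * nw (Alw A P D)) (codeW C (T + 5) (Rule M T pl))) ∧
      (ConvexRealizable (nb + (T + 5) * nw (Alw A P D)) (codeW C (T + 5) (Rule M T pl)) →
        M.Weak T pl) := by
  obtain ⟨η₀, h0, h⟩ := exists_recurrent (A := Alw A P D) KK
  refine ⟨constW (KK η₀ : Alw A P D → _), fun T pl => ⟨?_, fun k => ?_⟩⟩
  · rintro ⟨δ, hδ, k⟩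
    obtain ⟨η, a1, a2, a3⟩ := h δ hδ
    rw [← a3]
    exact (realizable_iffW (by omega)).2 (real_net hM a1 (k η ⟨a1.1, a2⟩))
  · obtain ⟨Y, cY, hY⟩ := (realizable_iffW (by omega)).1 k
    exact sound_net (twoPts h0) cY hY

theorem reach_le_cc2 : ManyOneReducible RealReach ConvexCode2 := by
  classical
  obtain ⟨m, P₀, P₁, hm, hm', hP₀, hP₁, hlt, hprog⟩ := exists_prog
  obtain ⟨A, _, R, hR, hpyr⟩ := exists_rsys
  obtain ⟨P, D, _, _, M, e1, e2, hnet⟩ := exists_net R
  obtain ⟨C, hC⟩ := net_iff M (by rwa [e1, e2])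
  let a : List Bool → ℕ × List (ℕ × ℕ) := fun x => (bitDecode x).getD (0, [])
  let z : List Bool → ℕ × List (ℕ × ℕ) := fun x => if bitEncode (a x) = x then a x else (0, [])
  have ha : IsPolyTime a := by fun_prop
  have hz : IsPolyTime z := by fun_prop
  have key : ∀ x, (∃ N F, x = bitEncode (N, F) ∧ Reach N F) ↔ Reach (z x).1 (z x).2 := by
    intro x
    constructor
    · rintro ⟨N, F, rfl, h⟩
      simpa [z, a] using h
    · intro h
      by_cases c : bitEncode (a x) = x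
      · exact ⟨(a x).1, (a x).2, c.symm, by simpa only [z, if_pos c] using h⟩
      · obtain ⟨y, h1, -, h2⟩ := h
        simp [z, c, h1] at h2
  let F : List Bool → List (ℕ × ℕ) := fun x => (z x).2
  have hF : IsPolyTime F := by fun_prop
  have g1 : IsPolyTime fun x => m (F x) := hm.comp hF
  have g2 : PolyBdd fun x => m (F x) := hm'.comp hF
  have g3 : IsPolyTime fun x => P₀ (F x) := hP₀.comp hF
  have g4 : IsPolyTime fun x => P₁ (F x) := hP₁.comp hF
  let T : List Bool → ℕ := fun x => (z x).1.size + (P₀ (F x) ++ P₁ (F x)).length + m (F x) + 1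
  have hT : IsPolyTime T := by fun_prop
  have hT' : PolyBdd T := by fun_prop
  let pl : List Bool → ℕ → Fin 4 × Bool × Fin 10 := fun x =>
    planF (z x).1.size (m (F x)) (z x).1 (P₀ (F x)) (P₁ (F x))
  have hp : IsPolyTime fun p : List Bool × ℕ =>
      plan (z p.1).1.size (m (F p.1)) (z p.1).1 (P₀ (F p.1)) (P₁ (F p.1)) p.2 := by
    simp only [plan, Nat.testBit_eq_inth, List.getI]
    fun_prop
  have hc := pt_codeW C (n := fun x => T x + 5) (by fun_prop) (by fun_prop)
    (fun r (b : Fin 4 ⊕ (Fin 4 × Bool × Fin 10) → Prop) π => ∀ j e, b (.inr e) →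
      RuleJ M r (b (.inl 0)) (b (.inl 1)) (b (.inl 2)) (b (.inl 3)) e π j)
    (d := fun x t => Sum.elim ![t + 1 < T x + 5, t = 0, t < T x, t ≤ T x] fun e => pl x t = e) (by
      rintro (i | ⟨i, b, c⟩)
      · fin_cases i <;> simp only [Sum.elim_inl] <;> fun_prop
      · simp only [Sum.elim_inr, pl, planF, Prod.mk.injEq, Fin.ext_iff, Fin.val_ofNat]
        fun_prop)
  refine ⟨fun x => bitEncode (nb + (T x + 5) * nw (Alw A P D), codeW C (T x + 5) (Rule M (T x) (pl x))),
    IsPolyTime.bitEncode (IsPolyTime.pair (by fun_prop) hc), fun x => ?_⟩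
  obtain ⟨k1, k2⟩ := hpyr _ (m (F x)) (z x).1 (P₀ (F x)) (P₁ (F x)) (Nat.lt_size_self _) (hlt _)
  rw [Bool.eq_iff_iff]
  simp only [RealReach, ConvexCode2, decide_eq_true_eq]
  rw [key, hprog]
  constructor
  · exact fun h => ⟨_, _, rfl, (hC _ _).1 ((hnet _ _).2 (k2 h))⟩
  · rintro ⟨n', C', e, h⟩
    obtain ⟨rfl, rfl⟩ := Prod.mk.inj (bitEncode_injective e)
    exact k1 ((hnet _ _).1 ((hC _ _).2 h))

end Pool.Agent.Lib.MP_79902f_lc.W
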