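import Pool.Agent.Lib.MP_79902f_lc.NCode

/-!
Codes given by local rules, with some sets of the first generation reaching out of the active part.
-/

namespace Pool.Agent.Lib.MP_79902f_lc.W

open Set N68a2faeb Pool.Agent.Shared.PolyTime N487b59b3

theorem force_sj {N P : BL → Set (ℝ × ℝ)} (cN : ∀ i, Convex ℝ (N i))
    (cP : ∀ i, Convex ℝ (P i)) (hA : ∀ z, ∃ z', Match N P z z') (hB : ∀ z', ∃ z, Match N P z z') :
    ∃ φ : ℝ × ℝ → ℝ × ℝ, Function.Surjective φ ∧ (∀ S : Set (ℝ × ℝ), Convex ℝ S → Convex ℝ (φ ⁻¹' S)) ∧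
      ∀ i, Sp (φ ⁻¹' N i) (φ ⁻¹' P i) i.f := by
  have hc : ∀ i w, w ∈ P i ↔ w ∉ N i := by
    intro i w
    obtain ⟨z', h⟩ := hA w
    rw [(h i).1, (h i).2, not_lt]
  have ex : ∀ i : BL, ∀ z₁ z₂ : ℝ × ℝ, i.f z₁ < 0 → 0 ≤ i.f z₂ →
      ∃ a b c : ℝ, (a ≠ 0 ∨ b ≠ 0) ∧ Sp (N i) (P i) (fun w => a * w.1 + b * w.2 + c) := by
    intro i z₁ z₂ h1 h2
    obtain ⟨w₁, k1⟩ := hB z₁
    obtain ⟨w₂, k2⟩ := hB z₂
    exact exists_sp (cN i) (cP i) (hc i) ⟨w₁, (k1 i).1.2 h1⟩ ⟨w₂, (k2 i).2.2 h2⟩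
  have le0 : ∀ {i : BL} {g : ℝ × ℝ → ℝ}, Sp (N i) (P i) g → ∀ w, (w ∈ N i → g w ≤ 0) ∧
      (w ∈ P i → 0 ≤ g w) := by
    intro i g hs w
    refine ⟨fun hw => ?_, fun hw => ?_⟩
    · by_contra hn
      exact (hc i w).1 ((hs w).2 (not_le.1 hn)) hw
    · by_contra hn
      exact (hc i w).1 hw ((hs w).1 (not_le.1 hn))
  obtain ⟨a1, b1, c1, n1, s1⟩ := ex (.h true) (-2, 0) (0, 0) (by norm_num [BL.f]) (by simp [BL.f])
  obtain ⟨a2, b2, c2, n2, s2⟩ := ex (.h false) (-2, 0) (0, 0) (by simp [BL.f]) (by simp [BL.f])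
  obtain ⟨a3, b3, c3, n3, s3⟩ := ex (.g 0) (0, 0) (0, 37) (by simp [BL.f]) (by norm_num [BL.f])
  obtain ⟨a4, b4, c4, n4, s4⟩ := ex (.g 1) (0, 0) (0, 37) (by norm_num [BL.f]) (by norm_num [BL.f])
  obtain ⟨l, e, lp, e0, ea, eb, ec⟩ := par_of n1 n2 (c := c1) (c' := c2) (fun w hw => by
    obtain ⟨z', h⟩ := hA w
    have := (h _).1.1 ((s1 w).1 hw)
    refine (le0 s2 w).1 ((h _).1.2 ?_)
    simp [BL.f] at this ⊢
    linarith)
  obtain ⟨m, f, mp, f0, fa, fb, fc⟩ := par_of n3 n4 (c := c3) (c' := c4) (fun w hw => by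
    obtain ⟨z', h⟩ := hA w
    have := (h _).1.1 ((s3 w).1 hw)
    refine (le0 s4 w).1 ((h _).1.2 ?_)
    simp [BL.f] at this ⊢
    linarith)
  have ep : 0 < e := by
    refine lt_of_le_of_ne e0 fun h0 => ?_
    obtain ⟨z₁, h₁⟩ := hB (-1 / 4, 75 / 2)
    obtain ⟨z₂, h₂⟩ := hB (-1 / 10, 73 / 2)
    obtain ⟨z₃, h₃⟩ := hB (-9 / 10, 73 / 2)
    have on : ∀ z z', Match N P z z' → -1 ≤ z'.1 → z'.1 < 0 → a1 * z.1 + b1 * z.2 + c1 = 0 := by
      intro z z' h k1 k2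
      have t1 := (le0 s1 z).2 ((h _).2.2 (by simp [BL.f]; linarith))
      have t2 := (le0 s2 z).1 ((h _).1.2 (by simp [BL.f]; linarith))
      rw [ea, eb, ec, ← h0] at t2
      nlinarith
    refine not_collinear n1 (cN (.g 1)) (cP (.d 0)) (cP (.l 0)) ?_ ?_ ?_ ?_ ?_ ?_ ?_ ?_ ?_
      (on _ _ h₁ (by norm_num) (by norm_num)) (on _ _ h₂ (by norm_num) (by norm_num))
      (on _ _ h₃ (by norm_num) (by norm_num)) <;>
      simp only [(h₁ _).1, (h₂ _).1, (h₃ _).1, (h₁ _).2, (h₂ _).2, (h₃ _).2] <;>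
      norm_num [BL.f, lin]
  have fp : 0 < f := by
    refine lt_of_le_of_ne f0 fun h0 => ?_
    obtain ⟨z₁, h₁⟩ := hB (-2, 73 / 2)
    obtain ⟨z₂, h₂⟩ := hB (-1 / 3, 361 / 10)
    obtain ⟨z₃, h₃⟩ := hB (-1 / 3, 369 / 10)
    have on : ∀ z z', Match N P z z' → 36 ≤ z'.2 → z'.2 < 37 → a3 * z.1 + b3 * z.2 + c3 = 0 := by
      intro z z' h k1 k2
      have t1 := (le0 s3 z).2 ((h _).2.2 (by simp [BL.f]; linarith))
      have t2 := (le0 s4 z).1 ((h _).1.2 (by simp [BL.f]; linarith))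
      rw [fa, fb, fc, ← h0] at t2
      nlinarith
    refine not_collinear n3 (cP (.h true)) (cP (.d 0)) (cN (.l 0)) ?_ ?_ ?_ ?_ ?_ ?_ ?_ ?_ ?_
      (on _ _ h₁ (by norm_num) (by norm_num)) (on _ _ h₂ (by norm_num) (by norm_num))
      (on _ _ h₃ (by norm_num) (by norm_num)) <;>
      simp only [(h₁ _).1, (h₂ _).1, (h₃ _).1, (h₁ _).2, (h₂ _).2, (h₃ _).2] <;>
      norm_num [BL.f, lin]
  have hdet : a1 * b3 - b1 * a3 ≠ 0 := by
    intro hd
    have pt : ∀ x y : ℝ, ∃ z : ℝ × ℝ, (x < -1 → a1 * z.1 + b1 * z.2 + c1 ≤ 0) ∧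
        (0 ≤ x → e ≤ l * (a1 * z.1 + b1 * z.2 + c1)) ∧ (y < 36 → a3 * z.1 + b3 * z.2 + c3 ≤ 0) ∧
        (36 ≤ y → 0 ≤ a3 * z.1 + b3 * z.2 + c3) := by
      intro x y
      obtain ⟨z, h⟩ := hB (x, y)
      refine ⟨z, fun k => (le0 s1 z).1 ((h _).1.2 (by simp [BL.f]; linarith)), fun k => ?_,
        fun k => (le0 s3 z).1 ((h _).1.2 (by simp [BL.f]; linarith)),
        fun k => (le0 s3 z).2 ((h _).2.2 (by simp [BL.f]; linarith))⟩
      have t2 := (le0 s2 z).2 ((h _).2.2 (by simp [BL.f]; linarith))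
      rw [ea, eb, ec] at t2
      linarith
    obtain ⟨z₁, -, t1, t2, -⟩ := pt 0 0
    obtain ⟨z₂, t3, -, -, t4⟩ := pt (-2) 36
    obtain ⟨z₃, -, t5, -, t6⟩ := pt 0 36
    obtain ⟨z₄, t7, -, t8, -⟩ := pt (-2) 0
    replace t1 := t1 le_rfl
    replace t2 := t2 (by norm_num)
    replace t3 := t3 (by norm_num)
    replace t4 := t4 le_rfl
    replace t5 := t5 le_rfl
    replace t6 := t6 le_rfl
    replace t7 := t7 (by norm_num)
    replace t8 := t8 (by norm_num)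
    have u1 : 0 < a1 * z₁.1 + b1 * z₁.2 + c1 := by nlinarith
    have u5 : 0 < a1 * z₃.1 + b1 * z₃.2 + c1 := by nlinarith
    have hn : 0 < a3 ^ 2 + b3 ^ 2 := by
      rcases n3 with h | h <;> positivity
    set k := (a1 * a3 + b1 * b3) / (a3 ^ 2 + b3 ^ 2) with hk
    have ka : a1 = k * a3 := by
      rw [hk]; field_simp; linear_combination b3 * hd
    have kb : b1 = k * b3 := by
      rw [hk]; field_simp; linear_combination (-a3) * hd
    rw [ka, kb] at u1 u5 t3 t7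
    rcases le_total 0 k with k0 | k0 <;> nlinarith
  obtain ⟨D, hD⟩ : ∃ D, D * (a1 * b3 - b1 * a3) = 1 := ⟨_, inv_mul_cancel₀ hdet⟩
  let φ : ℝ × ℝ → ℝ × ℝ := fun w =>
    ((b3 * (e / l * (w.1 + 1) - c1) - b1 * (f / m * (w.2 - 36) - c3)) * D,
      (a1 * (f / m * (w.2 - 36) - c3) - a3 * (e / l * (w.1 + 1) - c1)) * D)
  have q1 : ∀ w, a1 * (φ w).1 + b1 * (φ w).2 + c1 = e / l * (w.1 + 1) := by
    intro w; simp only [φ]; linear_combination (e / l * (w.1 + 1) - c1) * hD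
  have q3 : ∀ w, a3 * (φ w).1 + b3 * (φ w).2 + c3 = f / m * (w.2 - 36) := by
    intro w; simp only [φ]; linear_combination (f / m * (w.2 - 36) - c3) * hD
  have q2 : ∀ w, a2 * (φ w).1 + b2 * (φ w).2 + c2 = e * w.1 := by
    intro w
    have : l * (e / l * (w.1 + 1)) = e * (w.1 + 1) := by field_simp
    rw [ea, eb, ec]
    linear_combination l * q1 w + this
  have q4 : ∀ w, a4 * (φ w).1 + b4 * (φ w).2 + c4 = f * (w.2 - 37) := by
    intro w
    have : m * (f / m * (w.2 - 36)) = f * (w.2 - 36) := by field_simp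
    rw [fa, fb, fc]
    linear_combination m * q3 w + this
  have cv : ∀ S : Set (ℝ × ℝ), Convex ℝ S → Convex ℝ (φ ⁻¹' S) := by
    intro S hS w hw w' hw' s t hs ht hst
    have : φ (s • w + t • w') = s • φ w + t • φ w' := by
      obtain rfl : t = 1 - s := by linarith
      ext <;> simp only [φ, Prod.fst_add, Prod.snd_add, Prod.smul_fst, Prod.smul_snd,
        smul_eq_mul] <;> ring
    rw [mem_preimage, this]
    exact hS hw hw' hs ht hst
  have sj : Function.Surjective φ := by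
    intro z
    refine ⟨(l / e * (a1 * z.1 + b1 * z.2 + c1) - 1, m / f * (a3 * z.1 + b3 * z.2 + c3) + 36), ?_⟩
    have i1 : e / l * (l / e * (a1 * z.1 + b1 * z.2 + c1) - 1 + 1) = a1 * z.1 + b1 * z.2 + c1 := by
      field_simp; ring
    have i2 : f / m * (m / f * (a3 * z.1 + b3 * z.2 + c3) + 36 - 36) = a3 * z.1 + b3 * z.2 + c3 := by
      field_simp; ring
    ext <;> simp only [φ, i1, i2]
    · linear_combination z.1 * hD
    · linear_combination z.2 * hD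
  have el : 0 < e / l := by positivity
  have fm : 0 < f / m := by positivity
  refine ⟨φ, sj, cv, force_normal (fun i => cv _ (cN i)) (fun i => cv _ (cP i)) (fun z => hA (φ z))
    (fun z' => ?_) (fun w => ⟨fun h => (s2 _).1 ?_, fun h => (s2 _).2 ?_⟩)
    (fun w => ⟨fun h => (s1 _).1 ?_, fun h => (s1 _).2 ?_⟩)
    (fun w => ⟨fun h => (s3 _).1 ?_, fun h => (s3 _).2 ?_⟩)
    (fun w => ⟨fun h => (s4 _).1 ?_, fun h => (s4 _).2 ?_⟩)⟩
  · obtain ⟨z, h⟩ := hB z'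
    obtain ⟨w, rfl⟩ := sj z
    exact ⟨w, h⟩
  all_goals
    simp only [q1, q2, q3, q4]
    simp [BL.f] at h
    nlinarith

variable {A : Type} {n : ℕ} {Rl : Fin 3 → ℕ → Loc A → Prop} {K : A → Set (ℝ × ℝ)}

/-- The pattern of a point outside the active part. -/
def pat1 (K : A → Set (ℝ × ℝ)) (z : ℝ × ℝ) : Neu A → Prop :=
  Sum.elim (fun p => pat0 z (.inl p : Neu A)) fun p => Sum.elim
    (fun k => pat0 z (.inr (p.1, .inl k) : Neu A)) (fun s => p.1 = 0 ∧ om z.1 < z.2 ∧ z ∈ K s) p.2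

/-- The code. -/
def InW (K : A → Set (ℝ × ℝ)) (n : ℕ) (Rl : Fin 3 → ℕ → Loc A → Prop) (σ : Neu A → Prop) : Prop :=
  (∃ z, ¬ Act z ∧ σ = pat1 K z) ∨ ∃ r, VarP n Rl r σ

theorem realize_genW [Finite A] (hn : 2 ≤ n) (h0 : ∀ r t, Rl r t fun _ _ => False)
    {H : ℕ → A → Set (ℝ × ℝ)} (hc : ∀ t s, Convex ℝ (H t s))
    (hin : ∀ t s z, 4 ^ t * ht z < 35 / 64 → z ∈ H t s)
    (hout : ∀ t s, ∀ z ∈ H t s, (t = 0 ∧ z ∈ K s) ∨ ∀ m, Bel m (sc t z)) (hK : ∀ s, K s ⊆ H 0 s)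
    (hR : ∀ z : ℝ × ℝ, ∀ t < n, Rl (reg z.1) t fun i s => t + i < n ∧ z ∈ Hx H (t + i) s) :
    ∃ Y : Neu A → Set (ℝ × ℝ), (∀ a, Convex ℝ (Y a)) ∧
      ∀ σ, InW K n Rl σ ↔ ∃ z, σ = fun a => z ∈ Y a := by
  classical
  have cH : ∀ t s, Convex ℝ (Hx H t s) := by
    rintro t (k | s)
    · exact fun z hz z' hz' a b ha hb hab j => convex_bel _ t (hz j) (hz' j) ha hb hab
    · exact hc t s
  have iH : ∀ t s z, 4 ^ t * ht z < 35 / 64 → z ∈ Hx H t s := by
    rintro t (k | s) z h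
    · exact fun j => bel_of_lt (by rw [ht_sc]; linarith) _
    · exact hin t s z h
  have oH : ∀ t s, t ≠ 0 → ∀ z ∈ Hx H t s, 4 ^ t * ht z < 519 := by
    rintro t (k | s) ht z h <;> rw [← ht_sc]
    · exact lt_of_per h
    · linarith [lt_of_all ((hout t s z h).resolve_left fun c => ht c.1)]
  have inner : ∀ {z : ℝ × ℝ} {σ : Neu A → Prop}, (∀ i b, σ (.inl (i, b)) ↔ b = side (reg z.1) i) →
      (∀ t s, σ (.inr (t, s)) ↔ t < n ∧ z ∈ Hx H t s) → VarP n Rl (reg z.1) σ := by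
    intro z σ h1 h2
    refine ⟨h1, fun t s h => ((h2 t s).1 h).1, ?_, fun t htn => by simpa only [h2] using hR z t htn⟩
    have hex : ∃ t, n ≤ t ∨ 35 / 64 ≤ 4 ^ t * ht z := ⟨n, Or.inl le_rfl⟩
    refine ⟨Nat.find hex, fun t s h => ?_, fun t s h => ?_⟩
    · have := Nat.find_min hex h
      push Not at this
      exact (h2 t s).2 ⟨this.1, iH t s z this.2⟩
    · obtain ⟨a1, a2⟩ := (h2 t s).1 h
      by_contra hc
      obtain ⟨d, rfl⟩ := Nat.exists_eq_add_of_le (not_lt.1 hc)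
      have a3 := oH _ _ (by omega) _ a2
      have a4 : (1 : ℝ) ≤ 4 ^ d := one_le_pow₀ (by norm_num)
      rcases Nat.find_spec hex with a5 | a5
      · omega
      · rw [pow_add, pow_add] at a3
        nlinarith
  have fin : {σ : Neu A → Prop | ∀ t s, σ (.inr (t, s)) → t < n}.Finite := by
    have f1 : (range (Sum.inl : BL × Bool → Neu A) ∪
        Sum.inr '' (Iio n ×ˢ (univ : Set (Fin 22 ⊕ A)))).Finite :=
      (finite_range _).union (((finite_Iio n).prod finite_univ).image _)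
    refine f1.finite_subsets.subset ?_
    intro σ hσ a ha
    rcases a with a | ⟨t, s⟩
    · exact Or.inl ⟨a, rfl⟩
    · exact Or.inr ⟨(t, s), ⟨hσ t s ha, trivial⟩, rfl⟩
  obtain ⟨e, he⟩ := Set.countable_iff_exists_injOn.1 (Set.Finite.countable fin)
  let xr : Fin 3 → ℝ := fun r => 85 + 5 / 2 * (r : ℕ)
  let mx : Fin 3 → (Neu A → Prop) → ℝ := fun r σ => xr r + 1 / (e σ + 2)
  have m1 : ∀ σ, (0 : ℝ) < 1 / (e σ + 2) := fun σ => by positivity
  have m2 : ∀ σ, (1 : ℝ) / (e σ + 2) ≤ 1 / 2 := fun σ =>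
    one_div_le_one_div_of_le (by norm_num) (by linarith [Nat.cast_nonneg (α := ℝ) (e σ)])
  have mreg : ∀ r σ, reg (mx r σ) = r := by
    intro r σ
    have a1 := m1 σ
    have a2 := m2 σ
    simp only [mx, xr]
    generalize (1 : ℝ) / (e σ + 2) = u at a1 a2 ⊢
    unfold reg
    fin_cases r <;> norm_num
    · intro h; linarith
    · rw [if_neg (by linarith), if_pos (by linarith)]
    · rw [if_neg (by linarith), if_neg (by linarith)]; rfl
  have mb : ∀ r σ, 85 ≤ mx r σ ∧ mx r σ ≤ 91 := by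
    intro r σ
    have hr : ((r : ℕ) : ℝ) ≤ 2 := by exact_mod_cast (show (r : ℕ) ≤ 2 by omega)
    have h0 : (0 : ℝ) ≤ (r : ℕ) := Nat.cast_nonneg _
    have a1 := m1 σ
    have a2 := m2 σ
    simp only [mx, xr]
    constructor <;> linarith
  have mht : ∀ r σ, ht (mx r σ, om (mx r σ)) < 0 := by
    intro r σ
    obtain ⟨a1, a2⟩ := mb r σ
    simp only [ht, om]
    nlinarith
  have mact : ∀ r σ, Act (mx r σ, om (mx r σ)) := by
    intro r σ
    refine ⟨by linarith [(mb r σ).1], fun k => ?_⟩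
    have h6 := bel_of_lt (z := (mx r σ, om (mx r σ))) (by linarith [mht r σ]) (k : ℕ)
    simp only [Bel, BL.f] at h6 ⊢
    push_cast at h6
    linarith
  have minj : ∀ r σ r' σ', VarP n Rl r σ → VarP n Rl r' σ' → mx r σ = mx r' σ' → σ = σ' := by
    intro r σ r' σ' h h' e1
    have e2 : r = r' := by rw [← mreg r σ, e1, mreg]
    subst e2
    refine he h.2.1 h'.2.1 ?_
    simp only [mx, add_right_inj, one_div, inv_inj, add_left_inj] at e1
    exact_mod_cast e1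
  let S : Neu A → Set (ℝ × ℝ) := fun a =>
    {z | om z.1 < z.2 ∨ ∃ r σ, VarP n Rl r σ ∧ σ a ∧ z = (mx r σ, om (mx r σ))}
  let Y : Neu A → Set (ℝ × ℝ) := Sum.elim (fun p => {z | if p.2 then 0 ≤ p.1.f z else p.1.f z < 0})
    (fun p => {z | p.1 < n ∧ z ∈ Hx H p.1 p.2 ∧ z ∈ S (.inr p)})
  have mus : ∀ r σ, VarP n Rl r σ → σ = fun a => (mx r σ, om (mx r σ)) ∈ Y a := by
    intro r σ h
    funext a
    apply propext
    rcases a with ⟨i, b⟩ | ⟨t, s⟩
    · rw [h.1]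
      have := side_reg (mact r σ) i b
      rw [mreg] at this
      exact this.symm
    · refine ⟨fun h' => ⟨h.2.1 t s h', iH t s _ ?_, Or.inr ⟨r, σ, h, h', rfl⟩⟩, ?_⟩
      · have := mul_neg_of_pos_of_neg (by positivity : (0 : ℝ) < 4 ^ t) (mht r σ)
        linarith
      · rintro ⟨-, -, h' | ⟨r', σ', a1, a2, a3⟩⟩
        · exact absurd h' (lt_irrefl _)
        · rwa [minj r σ r' σ' h a1 (congrArg Prod.fst a3)]
  have cst : ∀ z, ¬ Act z → pat1 K z = fun a => z ∈ Y a := by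
    intro z hz
    funext a
    apply propext
    have hs : ∀ a, z ∈ S a ↔ om z.1 < z.2 := by
      intro a
      refine ⟨?_, Or.inl⟩
      rintro (h | ⟨r, σ, -, -, rfl⟩)
      · exact h
      · exact absurd (mact r σ) hz
    rcases a with ⟨i, b⟩ | ⟨t, k | b⟩
    · rfl
    · have := xs_pat0 (A := A) hz t (k : ℕ)
      have e1 : cls (k : ℕ) = k := by
        ext; simp only [cls]; omega
      simp only [xs, e1] at this
      refine ⟨fun h => ⟨by have := h.1; omega, h.2.2, (hs _).2 h.2.1⟩,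
        fun h => this.2 ⟨(hs _).1 h.2.2, h.2.1⟩⟩
    · refine ⟨?_, fun h => ?_⟩
      · rintro ⟨rfl, a1, a2⟩
        exact ⟨by omega, hK _ a2, (hs _).2 a1⟩
      obtain ⟨m, hm⟩ := ge_of_not_act hz ((hs _).1 h.2.2)
      rcases hout t b z h.2.1 with a1 | a1
      · exact ⟨a1.1, (hs _).1 h.2.2, a1.2⟩
      exfalso
      rcases Nat.eq_zero_or_pos t with rfl | ht'
      · rw [sc_zero] at a1
        exact hm (a1 m)
      · have a2 := lt_of_all a1
        have a3 := ge_of_not_bel hm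
        have a4 : (4 : ℝ) ^ 1 ≤ 4 ^ t := pow_le_pow_right₀ (by norm_num) ht'
        rw [ht_sc] at a2
        nlinarith
  refine ⟨Y, fun a => ?_, fun σ => ⟨?_, ?_⟩⟩
  · rcases a with ⟨i, b⟩ | ⟨t, s⟩
    · have af : ∀ (z z' : ℝ × ℝ) (u v : ℝ), u + v = 1 →
          i.f (u • z + v • z') = u * i.f z + v * i.f z' := by
        intro z z' u v h
        obtain rfl : v = 1 - u := by linarith
        cases i <;> simp only [BL.f, lin, Prod.fst_add, Prod.snd_add, Prod.smul_fst, Prod.smul_snd,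
          smul_eq_mul] <;> (try split_ifs) <;> ring
      intro z hz z' hz' u v hu hv huv
      cases b
      · simp only [Y, Sum.elim_inl, Bool.false_eq_true, if_false, mem_ofPred_eq] at hz hz' ⊢
        rw [af _ _ _ _ huv]
        rcases hu.eq_or_lt with rfl | hu'
        · obtain rfl : v = 1 := by linarith
          simpa using hz'
        · nlinarith
      · simp only [Y, Sum.elim_inl, if_true, mem_ofPred_eq] at hz hz' ⊢
        rw [af _ _ _ _ huv]
        positivity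
    · have cS : Convex ℝ (S (.inr (t, s))) := by
        refine convex_epi (fun z h => Or.inl h) ?_
        rintro z (h | ⟨r, σ, -, -, rfl⟩)
        · exact h.le
        · exact le_rfl
      intro z hz z' hz' u v hu hv huv
      exact ⟨hz.1, cH t s hz.2.1 hz'.2.1 hu hv huv, cS hz.2.2 hz'.2.2 hu hv huv⟩
  · rintro (⟨z, hz, rfl⟩ | ⟨r, h⟩)
    · exact ⟨z, cst z hz⟩
    · exact ⟨_, mus r σ h⟩
  · rintro ⟨z, rfl⟩
    by_cases hz : Act z
    · right
      by_cases h1 : om z.1 < z.2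
      · refine ⟨reg z.1, inner (fun i b => side_reg hz i b) (fun t s => ?_)⟩
        exact ⟨fun h => ⟨h.1, h.2.1⟩, fun h => ⟨h.1, h.2, Or.inl h1⟩⟩
      by_cases h2 : ∃ r σ, VarP n Rl r σ ∧ z = (mx r σ, om (mx r σ))
      · obtain ⟨r, σ, h, rfl⟩ := h2
        exact ⟨r, mus r σ h ▸ h⟩
      · refine ⟨reg z.1, varP_empty h0 _ (fun i b => side_reg hz i b) ?_⟩
        rintro p ⟨-, -, h | ⟨r, σ, a1, -, a2⟩⟩
        · exact h1 h
        · exact h2 ⟨r, σ, a1, a2⟩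
    · exact Or.inl ⟨z, hz, (cst z hz).symm⟩

theorem normalizeW (h0 : ∀ r t, Rl r t fun _ _ => False) {Y : Neu A → Set (ℝ × ℝ)}
    (cY : ∀ a, Convex ℝ (Y a)) (hY : ∀ σ, InW K n Rl σ ↔ ∃ z, σ = fun a => z ∈ Y a) :
    ∃ Y : Neu A → Set (ℝ × ℝ), (∀ a, Convex ℝ (Y a)) ∧ (∀ σ, InW K n Rl σ ↔ ∃ z, σ = fun a => z ∈ Y a) ∧
      ∀ i : BL, Sp (Y (.inl (i, false))) (Y (.inl (i, true))) i.f := by
  have hY' : ∀ z, InW K n Rl (fun a => z ∈ Y a) := fun z => (hY _).2 ⟨z, rfl⟩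
  have act : ∀ r : Fin 3, ∃ z : ℝ × ℝ, Act z ∧ reg z.1 = r := by
    intro r
    refine ⟨(85 + 5 / 2 * (r : ℕ), -10000), ⟨by positivity, fun k => ?_⟩, ?_⟩
    · have hr : ((r : ℕ) : ℝ) ≤ 2 := by exact_mod_cast (show (r : ℕ) ≤ 2 by omega)
      have h0 : (0 : ℝ) ≤ (r : ℕ) := Nat.cast_nonneg _
      have h6 := bel_of_lt (z := (85 + 5 / 2 * (r : ℕ), -10000)) (by simp only [ht]; nlinarith) (k : ℕ)
      simp only [Bel, BL.f] at h6 ⊢
      push_cast at h6
      linarith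
    · fin_cases r <;> norm_num [reg]
      rfl
  obtain ⟨φ, sj, cv, hφ⟩ := force_sj (N := fun i => Y (.inl (i, false))) (P := fun i => Y (.inl (i, true)))
    (fun i => cY _) (fun i => cY _) (fun z => by
      rcases hY' z with ⟨z', -, a2⟩ | ⟨r, h⟩
      · have g : ∀ a, z ∈ Y a ↔ pat1 K z' a := fun a => (congrFun a2 a).to_iff
        exact ⟨z', fun i => by simp [g, pat1, pat0]⟩
      · obtain ⟨z', a1, rfl⟩ := act r
        exact ⟨z', fun i => ⟨(h.1 _ _).trans (side_reg a1 i false).symm,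
          (h.1 _ _).trans (side_reg a1 i true).symm⟩⟩) (fun z' => by
      by_cases h : Act z'
      · obtain ⟨z, hz⟩ := (hY (Sum.elim (fun p => p.2 = side (reg z'.1) p.1) fun _ => False)).1
          (Or.inr ⟨reg z'.1, varP_empty h0 _ (fun i b => Iff.rfl) (fun p => id)⟩)
        exact ⟨z, fun i => ⟨(congrFun hz (.inl (i, false))).symm.to_iff.trans
          (side_reg h i false).symm, (congrFun hz (.inl (i, true))).symm.to_iff.trans
          (side_reg h i true).symm⟩⟩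
      · obtain ⟨z, hz⟩ := (hY (pat1 K z')).1 (Or.inl ⟨z', h, rfl⟩)
        have g : ∀ a, z ∈ Y a ↔ pat1 K z' a := fun a => (congrFun hz a).symm.to_iff
        exact ⟨z, fun i => by simp [g, pat1, pat0]⟩)
  refine ⟨fun a => φ ⁻¹' Y a, fun a => cv _ (cY a), fun σ => (hY σ).trans ⟨?_, fun ⟨z, h⟩ => ⟨φ z, h⟩⟩, hφ⟩
  rintro ⟨z, rfl⟩
  obtain ⟨w, rfl⟩ := sj z
  exact ⟨w, rfl⟩

variable {Y : Neu A → Set (ℝ × ℝ)} (cY : ∀ a, Convex ℝ (Y a)) (hY : ∀ z, InW K n Rl fun a => z ∈ Y a)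
  (hp : ∀ i : BL, Sp (Y (.inl (i, false))) (Y (.inl (i, true))) i.f)

include cY hY hp in
theorem pin_allW (hS : ∀ r t π j, t + 1 < n → Rl r t π → StepAt (xl π 0) (xl π 1) j) (t : ℕ)
    (ht : t < n) : Pin (fun m => pt t ⁻¹' Y (.inr (t, .inl (cls m)))) (42 * 2 ^ t - 42) (46 * 2 ^ t + 42) := by
  let S : Set (ℝ × ℝ) := Y (.inl (.h false, true)) ∩ ⋂ k, Y (.inl (.l k, false))
  let Z : Neu A → Set (ℝ × ℝ) := Sum.elim (fun p => Y (.inl p)) fun p => Sum.elim
    (fun k => Y (.inr (p.1, .inl k))) (fun s => Y (.inr (p.1, .inr s)) ∩ S) p.2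
  refine pin_all (Y := Z) (Rl := Rl) ?_ (fun z => ?_) hp hS t ht
  · rintro (p | ⟨t, k | s⟩)
    exacts [cY _, cY _, (cY _).inter ((cY _).inter (convex_iInter fun _ => cY _))]
  rcases hY z with ⟨z', a1, a2⟩ | ⟨r, h⟩
  · have g : ∀ a, z ∈ Y a ↔ pat1 K z' a := fun a => (congrFun a2 a).to_iff
    refine Or.inl ⟨z', a1, funext ?_⟩
    rintro (p | ⟨t, k | s⟩)
    exacts [propext (g _), propext (g _), eq_false fun h => a1 ⟨by simpa [g, pat1, pat0, BL.f] using h.2.1,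
      fun k => by simpa [g, pat1, pat0] using mem_iInter.1 h.2.2 k⟩]
  · refine Or.inr ⟨r, ?_⟩
    have : z ∈ S := ⟨(h.1 _ _).2 rfl, mem_iInter.2 fun k => (h.1 _ _).2 rfl⟩
    convert h using 2 with a
    rcases a with p | ⟨t, k | s⟩
    exacts [Iff.rfl, Iff.rfl, and_iff_left this]

include hY hp in
theorem var_ofW {z : ℝ × ℝ} (h1 : 0 < z.1) (h2 : ht z < 35) :
    ∃ r, VarP n Rl r (fun a => z ∈ Y a) ∧ (86 < z.1 → z.1 < 89 → r = 1) := by
  rcases hY z with ⟨z', a1, a2⟩ | ⟨r, h⟩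
  · exfalso
    have g : ∀ a, z ∈ Y a ↔ pat1 K z' a := fun a => (congrFun a2 a).to_iff
    refine a1 ⟨?_, fun k => ?_⟩
    · have := (hp (.h false) z).2 (by simpa [BL.f] using h1)
      simpa [g, pat1, pat0, BL.f] using this
    · have h6 := bel_of_lt h2 (k : ℕ)
      have := (hp (.l k) z).1 (by
        simp only [Bel, BL.f] at h6 ⊢
        push_cast at h6
        linarith)
      simpa [g, pat1, pat0] using this
  · refine ⟨r, h, fun a b => ?_⟩
    have c1 := (h.1 _ _).1 ((hp (.z false) z).2 (by simp [BL.f]; linarith))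
    have c2 := (h.1 _ _).1 ((hp (.z true) z).1 (by simp [BL.f]; linarith))
    simp [side] at c1 c2
    omega

variable [Finite A]

open Classical in
/-- The constant part of the code. -/
noncomputable def constW (K : A → Set (ℝ × ℝ)) : List (List ℕ) :=
  (List.range (nb + 2 * nw A)).sublists.filter
    fun c => decide (∃ z, ¬ Act z ∧ (fun a : Neu A => idx a ∈ c) = pat1 K z)

theorem constW_spec (σ : Neu A → Prop) :
    (∃ z, ¬ Act z ∧ σ = pat1 K z) ↔ ∃ c ∈ constW K, σ = fun a => idx a ∈ c := by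
  classical
  constructor
  · rintro ⟨z, hz, rfl⟩
    have key : pat1 K z = fun a : Neu A => idx a ∈ (List.range (nb + 2 * nw A)).filter
        (fun i => decide (∃ a : Neu A, pat1 K z a ∧ idx a = i)) := by
      funext a
      simp only [List.mem_filter, List.mem_range, decide_eq_true_eq, idx_injective.eq_iff,
        exists_eq_right, eq_iff_iff, iff_and_self]
      rcases a with p | ⟨t, k | b⟩
      · have := idx_inl_lt (A := A) p
        omega
      all_goals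
        intro h
        rw [idx_inr_lt]
        have := h.1
        omega
    refine ⟨_, ?_, key⟩
    simp only [constW, List.mem_filter, List.mem_sublists, List.filter_sublist, true_and,
      decide_eq_true_eq]
    exact ⟨z, hz, by simpa using key.symm⟩
  · rintro ⟨c, hc, rfl⟩
    simpa using (List.mem_filter.1 hc).2

theorem exists_recurrent (K : ℝ → A → Set (ℝ × ℝ)) : ∃ η₀ ∈ Ioo (0 : ℝ) 1, ∀ δ > 0, ∃ η ∈ Ioo (0 : ℝ) 1,
    η < δ ∧ constW (K η) = constW (K η₀) := by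
  have : Finite {l | l ∈ (List.range (nb + 2 * nw A)).sublists.sublists} := List.finite_toSet _
  obtain ⟨y, hy⟩ := Finite.exists_infinite_fiber
    (β := {l | l ∈ (List.range (nb + 2 * nw A)).sublists.sublists})
    fun m : ℕ => ⟨constW (K (1 / (m + 2))), List.mem_sublists.2 List.filter_sublist⟩
  rw [Set.infinite_coe_iff] at hy
  have r : ∀ m : ℕ, (1 / (m + 2) : ℝ) ∈ Ioo (0 : ℝ) 1 := fun m =>
    ⟨by positivity, (div_lt_one (by positivity)).2 (by linarith [Nat.cast_nonneg (α := ℝ) m])⟩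
  obtain ⟨m₀, h0⟩ := hy.nonempty
  refine ⟨_, r m₀, fun δ hδ => ?_⟩
  obtain ⟨N, hN⟩ := exists_nat_one_div_lt hδ
  obtain ⟨m, h1, h2⟩ := hy.exists_gt N
  have : (N : ℝ) < m := by exact_mod_cast h2
  exact ⟨_, r m, (one_div_le_one_div_of_le (by positivity) (by linarith)).trans_lt hN,
    congrArg Subtype.val (h1.trans h0.symm)⟩

/-- The code as a list. -/
noncomputable def codeW (C : List (List ℕ)) (n : ℕ) (Rl : Fin 3 → ℕ → Loc A → Prop) : List (List ℕ) :=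
  C ++ (varN n (Rl 0) 0 ++ varN n (Rl 1) 1 ++ varN n (Rl 2) 2)

theorem codeW_spec (σ : Neu A → Prop) :
    InW K n Rl σ ↔ ∃ c ∈ codeW (constW K) n Rl, σ = fun a => idx a ∈ c := by
  simp only [InW, codeW, List.mem_append, or_and_right, exists_or, ← varN_spec,
    Fin.exists_fin_succ, ← constW_spec σ]
  simp [or_assoc]

theorem realizable_iffW (hn : 2 ≤ n) : ConvexRealizable (nb + n * nw A) (codeW (constW K) n Rl) ↔
    ∃ Y : Neu A → Set (ℝ × ℝ), (∀ a, Convex ℝ (Y a)) ∧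
      ∀ σ, InW K n Rl σ ↔ ∃ z, σ = fun a => z ∈ Y a := by
  constructor
  · rintro ⟨X, hX, h⟩
    refine ⟨fun a => {z | idx a < nb + n * nw A ∧ z ∈ X (idx a)},
      fun a z hz z' hz' u v hu hv huv => ⟨hz.1, hX _ hz.2 hz'.2 hu hv huv⟩, fun σ => ?_⟩
    rw [codeW_spec]
    constructor
    · rintro ⟨c, hc, rfl⟩
      obtain ⟨z, hz⟩ := (Set.ext_iff.1 h _).1 ⟨c, hc, rfl⟩
      exact ⟨z, funext fun a => propext (Set.ext_iff.1 hz (idx a))⟩
    · rintro ⟨z, rfl⟩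
      obtain ⟨c, hc, hz⟩ := (Set.ext_iff.1 h _).2 ⟨z, rfl⟩
      exact ⟨c, hc, funext fun a => propext (Set.ext_iff.1 hz (idx a))⟩
  rintro ⟨Y, hY, h⟩
  have lt : ∀ {σ : Neu A → Prop}, InW K n Rl σ → ∀ {a}, σ a → idx a < nb + n * nw A := by
    rintro σ h (p | ⟨t, s⟩) ha
    · have := idx_inl_lt (A := A) p
      omega
    · rw [idx_inr_lt]
      rcases h with ⟨z, -, rfl⟩ | ⟨r, h⟩
      · rcases s with k | b
        · have := ha.1
          omega
        · have := ha.1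
          omega
      · exact h.2.1 t s ha
  let e : Neu A ≃ ℕ := Equiv.ofBijective idx ⟨idx_injective, idx_surjective⟩
  have key : ∀ (z : ℝ × ℝ) (c : List ℕ), ((fun a => z ∈ Y a) = fun a => idx a ∈ c) →
      {i | i ∈ c} = {i | i < nb + n * nw A ∧ z ∈ Y (e.symm i)} := by
    intro z c hz
    ext i
    obtain ⟨a, rfl⟩ := e.surjective i
    have := (congrFun hz a).to_iff
    simp only [Set.mem_ofPred_eq, Equiv.symm_apply_apply]
    exact ⟨fun k => ⟨lt ((h _).2 ⟨z, rfl⟩) (this.2 k), this.2 k⟩, fun k => this.1 k.2⟩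
  refine ⟨fun i => Y (e.symm i), fun i => hY _, Set.ext fun S => ⟨?_, ?_⟩⟩
  · rintro ⟨c, hc, rfl⟩
    obtain ⟨z, hz⟩ := (h _).1 ((codeW_spec _).2 ⟨c, hc, rfl⟩)
    exact ⟨z, key z c hz.symm⟩
  · rintro ⟨z, rfl⟩
    obtain ⟨c, hc, hz⟩ := (codeW_spec _).1 ((h _).2 ⟨z, rfl⟩)
    exact ⟨c, hc, (key z c hz).symm⟩

open Classical in
theorem pt_codeW (C : List (List ℕ)) {α D : Type} [N487b59b3 α] [Finite D] {n : α → ℕ} (h1 : IsPolyTime n) (h2 : PolyBdd n)
    (P : Fin 3 → (D → Prop) → Loc A → Prop) {d : α → ℕ → D → Prop}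
    (hd : ∀ i, IsPolyTime fun p : α × ℕ => decide (d p.1 p.2 i)) :
    IsPolyTime fun x => codeW C (n x) fun r t => P r (d x t) := by
  have key : ∀ r, IsPolyTime fun x => varN (n x) (fun t => P r (d x t)) r := by
    intro r
    unfold varN
    refine IsPolyTime.filter (f := fun x c => decide (ChkN (n x) (fun t => P r (d x t)) c)) ?_ ?_
    · refine IsPolyTime.decide_and (by fun_prop) (IsPolyTime.decide_forall_lt ?_ (by fun_prop)
        (h2.comp (by fun_prop)))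
      refine pt_fin (ι := D ⊕ Fin 5 × (Fin 22 ⊕ A)) (f := fun p : (α × List ℕ) × ℕ => Sum.elim
        (d p.1.1 p.2) fun i => idx (.inr (p.2 + i.1, i.2) : Neu A) ∈ p.1.2) ?_
        fun b => P r (fun i => b (.inl i)) fun i s => b (.inr (i, s))
      rintro (i | ⟨i, s⟩)
      · exact (hd i).comp (g := fun p : (α × List ℕ) × ℕ => (p.1.1, p.2)) (by fun_prop)
      · simp only [Sum.elim_inr, idx]
        fun_prop
    have hb : PolyBdd fun p : (α × ℕ) × List ℕ => n p.1.1 := h2.comp (by fun_prop)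
    have : IsPolyTime fun x => (List.range (n x + 1)).flatMap fun t =>
        (List.range (5 * nw A)).sublists.map fun u => cand A r (min t (n x)) u := by
      unfold cand
      fun_prop
    refine this.of_eq fun x => List.flatMap_congr fun t ht => ?_
    rw [min_eq_left (by simpa [Nat.lt_succ_iff] using ht)]
  unfold codeW
  have k0 := key 0
  have k1 := key 1
  have k2 := key 2
  fun_prop

end Pool.Agent.Lib.MP_79902f_lc.W
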