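import Pool.Agent.Lib.MP_79902f_lc.WTri
import Pool.Agent.Lib.MP_79902f_lc.WMod

/-!
The local rules for a net of ports, and the geometry of the source.
-/

namespace Pool.Agent.Lib.MP_79902f_lc.W

open Set Filter Topology

/-- The names of the wires: copy and descent of a port, three loops of a device. -/
abbrev Wn (P D : Type) : Type := (P × Bool) ⊕ (D × Fin 3)

/-- The gadget sets of a station. -/
abbrev Gs (P D : Type) : Type := (P × Fin 3) ⊕ (Wn P D × Fin 7)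

/-- The sets of one generation. -/
abbrev Alw (A P D : Type) : Type := (Fin 11 × A) ⊕ (Fin 11 × Gs P D) ⊕ Fin 3

variable {E A P D : Type}

/-- The kind of a wire. -/
def kind : Wn P D → Fin 5 := Sum.elim (fun p => if p.2 then 1 else 0) fun d => ![2, 3, 4] d.2

/-- The port of a wire. -/
def port (M : Net E A P D) : Wn P D → P :=
  Sum.elim Prod.fst fun d => ![(M.tri d.1).1, (M.tri d.1).2.1, (M.tri d.1).2.2] d.2

/-- The station owning the set number `i` of a wire of kind `k`. -/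
def ow (k : Fin 5) (i : ℕ) : Fin 3 :=
  if k = 0 then (if i = 6 then 2 else 0) else if k = 1 then (if 3 ≤ i then 1 else 0) else 0

/-- The name of the set number `i` of a wire. -/
def nm (M : Net E A P D) (n : Wn P D) (i : ℕ) : Gs P D :=
  if i = 0 ∨ i = 6 then .inl (port M n, ow (kind n) i) else .inr (n, Fin.ofNat 7 i)

/-- The data of a set. -/
def rc : Gs P D → Rc := Sum.elim (fun _ => prt 0 0 1) fun g => tb (kind g.1) g.2

/-- The conditional links. -/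
def cond (M : Net E A P D) (a : A) (u : P × Fin 3) (p : P) : Prop :=
  if u.2 = 0 then M.lk a u.1 p else u.1 = p ∧ if u.2 = 1 then M.down a p else M.hold a p

/-- The level of a neighbour. -/
def lv (κ : Fin 3) : Fin 5 := if κ = 1 then 1 else 0

/-- The position of a neighbour. -/
def nj (κ : Fin 3) (j : ℤ) : ℤ := if κ = 0 then j else if κ = 1 then 2 * j else j + 1

/-- The rules in the cell `(α, β)` of a station. -/
def GR (M : Net E A P D) (f S : Prop) (L L' : A → Prop) (X : Fin 3 → Gs P D → Prop) (α β : ℤ) : Prop :=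
  (α = 2 → β = 7 → ∀ a a', L a → L' a' → M.Nx a a') ∧
    (∀ g, α = (rc g).p + 1 → β = (rc g).q - 1 → X 0 g) ∧
    (∀ n, ∀ i < 6, ((tb (kind n) (i + 1)).kd = 1 → f) → (tb (kind n) (i + 1)).Cel α β →
      X 0 (nm M n i) → X (tb (kind n) (i + 1)).kd (nm M n (i + 1))) ∧
    (1 ≤ α → α ≤ 2 → 6 ≤ β → β ≤ 7 → ∀ d,
      (X 0 (nm M (.inr (d, 0)) 3) → X 0 (nm M (.inr (d, 1)) 3) → X 0 (nm M (.inr (d, 2)) 2)) ∧
      (X 0 (nm M (.inr (d, 2)) 2) → X 0 (nm M (.inr (d, 0)) 3) ∨ X 0 (nm M (.inr (d, 1)) 3))) ∧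
    (α = 0 → β = 7 → ∀ p, M.le7 p → ¬ X 0 (.inl (p, 0))) ∧
    (α = 1 → β = 6 → ∀ p, M.ge7 p → X 0 (.inl (p, 0))) ∧
    (α = 1 → 6 ≤ β → β ≤ 7 → ∀ a u p, L a → cond M a u p → X 0 (.inl u) → X 0 (.inl (p, 0))) ∧
    (α = 1 → β = 7 → L M.root → S → X 0 (.inl (M.y, 0)))

/-- Labels in a local pattern. -/
def LL (π : Loc (Alw A P D)) (i : Fin 5) (j : ℤ) (a : A) : Prop := π i (.inr (.inl (c11 j, a)))

/-- The three sets of the source in a local pattern. -/
def SS (π : Loc (Alw A P D)) (k : Fin 3) : Prop := π 0 (.inr (.inr (.inr k)))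

/-- The rules at the position `j`. -/
def RuleJ (M : Net E A P D) (r : Fin 3) (f₁ f₂ f₃ f₄ : Prop) (e : E) (π : Loc (Alw A P D)) (j : ℤ) :
    Prop :=
  (f₁ → StepAt (xl π 0) (xl π 1) j) ∧
    (f₂ → Win (xl π 2) (2 * j) (2 * j + 9) → Win (xl π 1) (j + 2) (j + 2) →
      LL π 0 j (if r = 1 ∧ j % 22 = 19 then M.root else M.idle)) ∧
    (f₃ → Win (xl π 3) (2 * j) (2 * j + 9) → Win (xl π 2) (j + 2) (j + 2) →
      ∃ a, LL π 1 j a ∧ ∀ b, LL π 0 (j / 2) b → M.V e b a (decide (j % 2 = 1))) ∧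
    (f₄ → Win (xl π 4) j j → ∀ s, π 0 (.inr s)) ∧
    (f₄ → ∀ α β, -9 ≤ α → α ≤ β → β ≤ α + 10 → β ≤ 13 → Win (xl π 2) (2 * j + 1 + α) (2 * j + 1 + β) →
      GR M f₃ (f₂ ∧ SS π 1) (LL π 0 j) (LL π 0 (j + 1))
        (fun κ g => π (lv κ) (.inr (.inr (.inl (c11 (nj κ j), g))))) α β) ∧
    (f₂ → (Win (xl π 1) 85 86 → SS π 0) ∧ (Win (xl π 1) 85 87 → SS π 0 → SS π 1) ∧
      (Win (xl π 2) 179 179 → SS π 1))

/-- The rules. -/
def Rule (M : Net E A P D) (T : ℕ) (pl : ℕ → E) (r : Fin 3) (t : ℕ) (π : Loc (Alw A P D)) : Prop :=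
  ∀ j e, pl t = e → RuleJ M r (t + 1 < T + 5) (t = 0) (t < T) (t ≤ T) e π j

theorem rule_empty (M : Net E A P D) (T : ℕ) (pl : ℕ → E) (r : Fin 3) (t : ℕ) :
    Rule M T pl r t fun _ _ => False := fun j _ _ =>
  ⟨fun _ => by simp [StepAt, Win, xl], fun _ h => h.1.elim, fun _ h => h.1.elim, fun _ h => h.1.elim,
    fun _ _ _ _ _ _ _ h => h.1.elim, fun _ => ⟨fun h => h.1.elim, fun h => h.1.elim, fun h => h.1.elim⟩⟩

theorem good_rc (g : Gs P D) : (rc g).Good := by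
  rcases g with p | g
  exacts [good_prt, good _ _ g.2.2]

theorem rc_nm (M : Net E A P D) (n : Wn P D) {i : ℕ} (hi : i < 7) :
    (rc (nm M n i)).p = (tb (kind n) i).p ∧ (rc (nm M n i)).q = (tb (kind n) i).q ∧
      (rc (nm M n i)).ta = (tb (kind n) i).ta := by
  unfold nm
  split_ifs with h
  · obtain ⟨-, -, a1, a2, a3⟩ := ends (kind n) h
    exact ⟨a2.symm, a3.symm, a1.symm⟩
  · simp [rc, Nat.mod_eq_of_lt hi]

theorem ow_succ : ∀ k, ∀ i < 6, ((tb k (i + 1)).kd = 0 ∧ ow k (i + 1) = ow k i) ∨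
    (ow k i = 0 ∧ ow k (i + 1) = (tb k (i + 1)).kd) := by decide

/-- The chart of a station. -/
noncomputable def ch (t : ℕ) (j : ℤ) (w : ℝ × ℝ) : ℝ × ℝ := pt (t + 2) (sh (2 * j + 1 : ℤ) w)

theorem ch_tr (κ : Fin 3) (t : ℕ) (j : ℤ) (w : ℝ × ℝ) : ch (t + lv κ) (nj κ j) (tr κ w) = ch t j w := by
  fin_cases κ
  · rfl
  · ext <;> simp [ch, lv, nj, tr, sh, pt, pow_succ] <;> field_simp <;> ring
  · ext <;> simp [ch, lv, nj, tr, sh, pt] <;> ring

theorem oc_sh (a : ℤ) {α β : ℤ} {w : ℝ × ℝ} (h : w ∈ OC α β) : sh a w ∈ OC (a + α) (a + β) := by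
  rw [oc_iff] at h ⊢
  rw [ht_sh]
  simp only [sh]
  push_cast
  obtain ⟨a1, a2, a3, a4⟩ := h
  exact ⟨by linarith, by linarith, by linarith, by linarith⟩

theorem convex_sh {S : Set (ℝ × ℝ)} (h : Convex ℝ S) (a : ℝ) : Convex ℝ (sh a ⁻¹' S) := by
  intro z hz z' hz' u v hu hv e
  have : sh a (u • z + v • z') = u • sh a z + v • sh a z' := by
    obtain rfl : v = 1 - u := by linarith
    ext <;> simp only [sh, Prod.fst_add, Prod.snd_add, Prod.smul_fst, Prod.smul_snd, smul_eq_mul] <;> ring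
  rw [mem_preimage, this]
  exact h hz hz' hu hv e

theorem deep_sh {S : Set (ℝ × ℝ)} {lo hi lo' hi' a : ℝ} (h : Deep S lo hi) (h1 : lo ≤ lo' + 2 * a)
    (h2 : hi' + 2 * a ≤ hi) : Deep (sh a ⁻¹' S) lo' hi' := fun x k1 k2 =>
  preimage_interior_subset_interior_preimage (f := sh a) (by unfold sh; fun_prop) (by
    rw [mem_preimage, show sh a (x, -x ^ 2) = (x + 2 * a, -(x + 2 * a) ^ 2) by
      ext <;> simp only [sh]; ring]
    exact h (x + 2 * a) (by linarith) (by linarith))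

theorem port_le {U R : Set (ℝ × ℝ)} (hR : Convex ℝ R) (hD : Deep R (-20) 40)
    (hO : cq (-1) 2 ∈ closure R) {β : ℤ} {y : ℝ} (h1 : 6 ≤ β) (h2 : β ≤ 7) (h3 : β ≤ y) (h4 : y ≤ β + 1)
    (h : ∀ z ∈ OC 1 β, z ∈ U → z ∈ R) (hy : cq 0 y ∈ interior U) : y ≤ val R 0 := by
  have a1 := (Int.cast_le (R := ℝ)).2 h1
  have a2 := (Int.cast_le (R := ℝ)).2 h2
  push_cast at a1 a2
  exact reg_le (a := 0) hR hD (by simpa using hO) (by norm_num) (by norm_num) ⟨by linarith, by linarith⟩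
    (by simpa using pass hy (cq_closure (α := 1) (by omega) (by norm_num) (by norm_num) h3 h4) h)

theorem val_le_val {U R : Set (ℝ × ℝ)} (hR : Convex ℝ R) (hD : Deep R (-20) 40)
    (hO : cq (-1) 2 ∈ closure R) (h : ∀ β : ℤ, 6 ≤ β → β ≤ 7 → ∀ z ∈ OC 1 β, z ∈ U → z ∈ R) :
    val U 0 ≤ val R 0 :=
  id_le (val_mem _ _).1 fun w hw => by
    have := val_PR U 0 w hw.1 hw.2
    simp only [Int.cast_zero, zero_add] at this
    rcases le_total w 7 with c | c
    · exact port_le hR hD hO (β := 6) le_rfl (by norm_num) (by simpa using hw.1.le) (by norm_num [c])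
        (h 6 le_rfl (by norm_num)) this
    · exact port_le hR hD hO (β := 7) (by norm_num) le_rfl (by simpa using c)
        (by push_cast; linarith [hw.2, (val_mem U 0).2]) (h 7 (by norm_num) le_rfl) this

/-- The change of chart to the right child. -/
def dr (z : ℝ × ℝ) : ℝ × ℝ := (2 * z.1 - 2, 4 * z.2 + 8 * z.1 - 4)

theorem exists_gt {U : Set (ℝ × ℝ)} {y : ℝ} (h : cq 0 y ∈ interior U) :
    ∃ y' ∈ Ioo y (y + 1), cq 0 y' ∈ interior U := by
  have c : ContinuousAt (fun y => cq 0 y) y := by unfold cq cr; fun_prop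
  obtain ⟨y', k1, k2⟩ := (((c.eventually_mem (isOpen_interior.mem_nhds h)).filter_mono
    (nhdsWithin_le_nhds (s := Ioi y))).and (Ioo_mem_nhdsGT (lt_add_one y))).exists
  exact ⟨y', k2, k1⟩

theorem src_sound {U V R : Set (ℝ × ℝ)} (cU : Convex ℝ U) (dU : Deep U (-10) 22)
    (oU : OC 0 1 ⊆ U) {z : ℝ × ℝ} (hz : z ∈ U) (z1 : 3 ≤ z.1) (z2 : lin 5 z.1 < z.2)
    (l1 : ∀ z ∈ OC 0 2, z ∈ U → dr z ∈ V) (cV : Convex ℝ V) (dV : Deep V (-20) 40) (oV : OC 8 8 ⊆ V)
    (l2 : ∀ z ∈ OC 1 7, z ∈ V → z ∈ R) (cR : Convex ℝ R) (dR : Deep R (-20) 40)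
    (oR : cq (-1) 2 ∈ closure R) : 7 < val R 0 := by
  have a1 : cq 0 2 ∈ interior U := by
    rw [cq_eq]
    unfold lin at z2
    refine below0 (S := z.1 - 1) (P := (36 - 2 * z.1 - z.2) / 4) (τ := 2) (p := -1) (q := 2) cU dU ?_
      (closure_mono oU (cq_closure (by norm_num) (by norm_num) (by norm_num) (by norm_num)
        (by norm_num))) (Or.inr ⟨by norm_num, by linarith⟩) (by linarith) (by norm_num)
      (Or.inl ⟨by linarith, by norm_num⟩) (by rw [← cq_eq, ht_cq]; positivity) (by norm_num) (by norm_num)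
    convert subset_closure hz using 1
    ext <;> simp only [cp] <;> ring
  obtain ⟨ζ, ⟨b1, b2⟩, b3⟩ := exists_gt a1
  have a2 := map_mem_closure (f := dr) (by unfold dr; fun_prop) (pass (Y := dr ⁻¹' V) b3
    (cq_closure (α := 0) (β := 2) (by norm_num) (by norm_num) (by norm_num) (by simpa using b1.le)
      (by simpa using b2.le)) l1) (t := V) fun _ h => h
  have a3 : cq 0 7 ∈ interior V := by
    rw [cq_eq]
    refine below0 (S := 2 * ζ - 1) (P := -26 - ζ) (τ := 7) (p := 7) (q := 9) cV dV ?_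
      (closure_mono oV (cq_closure (by norm_num) (by norm_num) (by norm_num) (by norm_num)
        (by norm_num))) (Or.inl ⟨by linarith, by norm_num⟩) (by linarith) (by norm_num)
      (Or.inl ⟨by linarith, by norm_num⟩) (by rw [← cq_eq, ht_cq]; positivity) (by norm_num) (by norm_num)
    convert a2 using 1
    ext <;> simp only [cp, dr, cq, cr] <;> ring
  obtain ⟨y, ⟨c1, c2⟩, c3⟩ := exists_gt a3
  exact c1.trans_le (port_le cR dR oR (β := 7) (by norm_num) le_rfl (by simpa using c1.le)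
    (by simpa using c2.le) l2 c3)

/-- Two points near the vertex of the source, with different patterns. -/
def TwoPts (K : Alw A P D → Set (ℝ × ℝ)) : Prop :=
  ∃ z : Bool → ℝ × ℝ, ∀ b, om (z b).1 < (z b).2 ∧ 0 ≤ (BL.l 45).f (z b) ∧ (BL.l 47).f (z b) < 0 ∧
    0 ≤ (BL.z true).f (z b) ∧ z b ∈ K (.inr (.inr 0)) ∧ (z b ∈ K (.inr (.inr 2)) ↔ b = true)

end Pool.Agent.Lib.MP_79902f_lc.W
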