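import Pool.Agent.Lib.MP_79902f_lc.WRule

/-!
Every convex realization of the code of a net carries a run of the net.
-/

namespace Pool.Agent.Lib.MP_79902f_lc.W

open Set

variable {E A P D : Type}

theorem In.child {t : ℕ} {j : ℤ} (h : In t j) (b : Bool) : In (t + 1) (2 * j + b.toNat) := by
  unfold In at *
  rw [pow_succ]
  cases b <;> simp <;> omega

theorem sound_net {M : Net E A P D} {T : ℕ} {pl : ℕ → E} {K : Alw A P D → Set (ℝ × ℝ)} (hK : TwoPts K)
    {Y : Neu (Alw A P D) → Set (ℝ × ℝ)} (cY : ∀ a, Convex ℝ (Y a))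
    (hY : ∀ σ, InW K (T + 5) (Rule M T pl) σ ↔ ∃ z, σ = fun a => z ∈ Y a) : M.Weak T pl := by
  obtain ⟨Y, cY, hY', hp⟩ := normalizeW (rule_empty M T pl) cY hY
  have hY : ∀ z, InW K (T + 5) (Rule M T pl) fun a => z ∈ Y a := fun z => (hY' _).2 ⟨z, rfl⟩
  have pin := pin_allW cY hY hp fun r t π j ht h => (h j _ rfl).1 ht
  have p2 : ∀ t : ℕ, (1 : ℤ) ≤ 2 ^ t := fun t => one_le_pow₀ (by norm_num)
  have rule : ∀ {l : ℕ} {α β : ℤ} {w : ℝ × ℝ}, w ∈ OC α β → 0 ≤ α → α ≤ β →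
      (2 ≤ l ∧ β ≤ α + 10 ∨ l = 1 ∧ β ≤ α + 2) →
      ∀ t ≤ T, ∃ r : Fin 3, (86 < w.1 / 2 ^ l → w.1 / 2 ^ l < 89 → r = 1) ∧
        Rule M T pl r t fun i s => pt l w ∈ Y (.inr (t + i, s)) := by
    intro l α β w hw h0 h1 h2 t htT
    obtain ⟨p, q, rfl, a1, a2, a3, a4⟩ := oc_param hw h1
    have b0 : (0 : ℝ) ≤ α := by exact_mod_cast h0
    have b1 : (α : ℝ) ≤ β := by exact_mod_cast h1
    obtain ⟨r, k1, k2⟩ := var_ofW hY hp (z := pt l (cr p q))
      (div_pos (by simp only [cr]; linarith) (by positivity)) (by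
        have e : sc l (pt l (cr p q)) = cr p q := by ext <;> simp only [sc, pt] <;> field_simp
        have := ht_sc l (pt l (cr p q))
        rw [e] at this
        rcases h2 with ⟨hl, h2⟩ | ⟨rfl, h2⟩
        · have b2 : (β : ℝ) ≤ α + 10 := by exact_mod_cast h2
          have b3 : (4 : ℝ) ^ 2 ≤ 4 ^ l := pow_le_pow_right₀ (by norm_num) hl
          have c : ht (cr p q) < 35 + 144 := by simp only [ht, cr]; nlinarith
          nlinarith
        · have b2 : (β : ℝ) ≤ α + 2 := by exact_mod_cast h2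
          have c : ht (cr p q) < 35 + 16 := by simp only [ht, cr]; nlinarith
          linarith)
    exact ⟨r, k2, k1.2.2.2 t (by omega)⟩
  have deep : ∀ t ≤ T, ∀ s, Deep (pt (t + 2) ⁻¹' Y (.inr (t, .inr s))) (336 * 2 ^ t - 16)
      (368 * 2 ^ t + 16) := by
    intro t ht s
    have := p2 t
    have := deep_of (X := pt (t + 2) ⁻¹' Y (.inr (t, .inr s))) (convex_sc (cY _) _)
      (lo := 42 * 2 ^ (t + 4) - 42) (hi := 46 * 2 ^ (t + 4) + 42) (by rw [pow_add]; omega)
      fun m h1 h2 w hw => by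
        obtain ⟨r, -, h⟩ := rule (l := t + 4) hw (by rw [pow_add] at h1; omega) le_rfl
          (by omega) t ht
        have := (h m _ rfl).2.2.2.1 ht (pin (t + 4) (by omega) m m h1 h2 le_rfl (by omega) _ hw) s
        rwa [pt_psi, pt_psi] at this
    intro x h1 h2
    exact this x (by push_cast; rw [pow_add]; linarith) (by push_cast; rw [pow_add]; linarith)
  have mk : ∀ j : ℤ, psi (2 * j + 5, 36 - (2 * j + 5) ^ 2) ∈ OC (2 * j) (2 * j + 9) ∧
      ((2 * j + 5, 36 - (2 * j + 5) ^ 2) : ℝ × ℝ) ∈ OC (j + 2) (j + 2) := fun j => by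
    simp only [oc_iff, ht, psi]
    push_cast
    refine ⟨⟨?_, ?_, ?_, ?_⟩, ?_, ?_, ?_, ?_⟩ <;> nlinarith
  let Lb : ℕ → ℤ → A → Prop := fun t j a =>
    pt (t + 2) (psi (2 * j + 5, 36 - (2 * j + 5) ^ 2)) ∈ Y (.inr (t, .inr (.inl (c11 j, a))))
  have tnt : ∀ t ≤ T, ∀ j : ℤ, In t j → ∀ a, Lb t j a → ∀ p q : ℝ,
      35 < (p - 4 * j + 2) * (q - 4 * j + 2) → 35 < (22 + 4 * j - p) * (22 + 4 * j - q) →
      4 * j - 2 < p → q < 4 * j + 22 → p ≤ q →
      pt (t + 2) (cr p q) ∈ Y (.inr (t, .inr (.inl (c11 j, a)))) := by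
    intro t htT j ⟨h1, h2⟩ s h p q a1 a2 a3 a4 a5
    have b1 : (85 * 2 ^ t : ℝ) ≤ j := by exact_mod_cast h1
    have b2 : (j : ℝ) < 86 * 2 ^ t := by exact_mod_cast h2
    have b3 : (1 : ℝ) ≤ 2 ^ t := one_le_pow₀ (by norm_num)
    refine interior_subset (s := pt (t + 2) ⁻¹' Y (.inr (t, .inr _))) (tent (convex_sc (cY _) _)
      (deep t htT _) (m := 4 * j + 10) ?_ (by linarith) (by linarith) (z := cr p q) ?_ ?_ ?_ ?_ ?_)
    · simp only [Lb] at h
      rwa [show psi (2 * j + 5, 36 - (2 * j + 5) ^ 2) =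
        ((4 * j + 10, 144 - (4 * j + 10) ^ 2) : ℝ × ℝ) by
        ext <;> simp only [psi] <;> ring] at h
    all_goals simp only [ht, cr]; nlinarith [sq_nonneg (p - q)]
  have lab : ∀ t j, ∃ a : A, t ≤ T → In t j → Lb t j a ∧ (t = 0 → a = M.root) ∧
      ∀ s, t = s + 1 → ∀ b, Lb s (j / 2) b → M.V (pl s) b a (decide (j % 2 = 1)) := by
    intro t j
    by_cases h : t ≤ T ∧ In t j
    swap
    · exact ⟨M.root, fun h1 h2 => absurd ⟨h1, h2⟩ h⟩
    obtain ⟨ht, h1, h2⟩ := h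
    rcases t with _ | t
    · obtain rfl : j = 85 := by omega
      obtain ⟨r, k, h⟩ := rule (l := 2) (mk 85).1 (by omega) (by omega) (by omega) 0 ht
      have a1 := (h 85 _ rfl).2.1 rfl
        (pin 2 (by omega) _ _ (by omega) (by omega) (by omega) (by omega) _ (mk 85).1) (by
          have := pin 1 (by omega) _ _ (by omega) (by omega) (by omega) (by omega) _ (mk 85).2
          simp only [mem_preimage, ← pt_psi 1] at this
          exact this)
      rw [k (by norm_num [psi]) (by norm_num [psi])] at a1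
      exact ⟨M.root, fun _ _ => ⟨a1, fun _ => rfl, nofun⟩⟩
    · have := p2 t
      rw [pow_succ] at h1 h2
      obtain ⟨r, -, h⟩ := rule (l := t + 3) (mk j).1 (by omega) (by omega) (by omega) t (by omega)
      obtain ⟨a, a1, a2⟩ := (h j _ rfl).2.2.1 (by omega)
        (pin (t + 3) (by omega) _ _ (by rw [pow_add]; omega) (by rw [pow_add]; omega) (by omega)
          (by omega) _ (mk j).1) (by
          have := pin (t + 2) (by omega) _ _ (by rw [pow_add]; omega) (by rw [pow_add]; omega)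
            (by omega) (by omega) _ (mk j).2
          simp only [mem_preimage, ← pt_psi (t + 2)] at this
          exact this)
      refine ⟨a, fun _ _ => ⟨a1, nofun, fun s hs b b2 => ?_⟩⟩
      obtain rfl : t = s := by omega
      refine a2 b ?_
      have c1 : (2 * (j / 2 : ℤ) : ℝ) ≤ j := by exact_mod_cast (by omega : 2 * (j / 2) ≤ j)
      have c2 : (j : ℝ) ≤ 2 * (j / 2 : ℤ) + 1 := by exact_mod_cast (by omega : j ≤ 2 * (j / 2) + 1)
      have := tnt t (by omega) (j / 2) ⟨by omega, by omega⟩ _ b2 (2 * j + 4) (2 * j + 6)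
        (by nlinarith) (by nlinarith) (by linarith) (by linarith) (by linarith)
      rwa [← pt_psi, show cr (2 * j + 4) (2 * j + 6) =
        ((2 * j + 5, 36 - (2 * j + 5) ^ 2) : ℝ × ℝ) by
        ext <;> simp only [cr] <;> ring] at this
  choose c hc using lab
  let X : ℕ → ℤ → Alw A P D → Set (ℝ × ℝ) := fun t j s => ch t j ⁻¹' Y (.inr (t, .inr s))
  let G : ℕ → ℤ → Gs P D → Set (ℝ × ℝ) := fun t j g => X t j (.inr (.inl (c11 j, g)))
  have cX : ∀ t j s, Convex ℝ (X t j s) := fun t j s => convex_sh (convex_sc (cY _) _) _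
  have dX : ∀ t ≤ T, ∀ j, In t j → ∀ s, Deep (X t j s) (-20) 40 := by
    intro t ht j ⟨h1, h2⟩ s
    have b1 : (85 * 2 ^ t : ℝ) ≤ j := by exact_mod_cast h1
    have b2 : (j : ℝ) + 1 ≤ 86 * 2 ^ t := by exact_mod_cast h2
    have b3 : (1 : ℝ) ≤ 2 ^ t := one_le_pow₀ (by norm_num)
    exact deep_sh (deep t ht s) (by push_cast; linarith) (by push_cast; linarith)
  have gr : ∀ t ≤ T, ∀ j, In t j → ∀ α β, -9 ≤ α → α ≤ β → β ≤ α + 10 → β ≤ 13 → ∀ w ∈ OC α β,
      GR M (t < T) (t = 0 ∧ w ∈ X t j (.inr (.inr 1))) (fun a => w ∈ X t j (.inl (c11 j, a)))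
        (fun a => w ∈ X t j (.inl (c11 (j + 1), a)))
        (fun κ g => tr κ w ∈ G (t + lv κ) (nj κ j) g) α β := by
    intro t ht j ⟨h1, h2⟩ α β a1 a2 a3 a4 w hw
    have := p2 t
    have hw' := oc_sh (2 * j + 1) hw
    obtain ⟨r, -, h⟩ := rule (l := t + 2) hw' (by omega) (by omega) (by omega) t ht
    simp only [G, X, mem_preimage, ch_tr]
    exact (h j _ rfl).2.2.2.2.1 ht α β a1 a2 a3 a4 (pin (t + 2) (by omega) _ _
      (by rw [pow_add]; omega) (by rw [pow_add]; omega) (by omega) (by omega) _ hw')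
  have oG : ∀ t ≤ T, ∀ j, In t j → ∀ g, cq (rc g).p (rc g).q ∈ closure (G t j g) :=
    fun t ht j hj g => (good_rc g).cen fun w hw => by
      have := (good_rc g).2.2.2.2.2.1
      exact (gr t ht j hj _ _ (by omega) (by omega) (by omega) (by omega) w hw).2.1 g rfl rfl
  have oP : ∀ t ≤ T, ∀ j, In t j → ∀ u, cq (-1) 2 ∈ closure (G t j (.inl u)) := fun t ht j hj u => by
    simpa [rc, prt] using oG t ht j hj (.inl u)
  have lb : ∀ t ≤ T, ∀ j, In t j → ∀ β : ℤ, 6 ≤ β → β ≤ 7 → ∀ w ∈ OC 1 β,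
      w ∈ X t j (.inl (c11 j, c t j)) := by
    intro t ht j hj β h1 h2 w hw
    obtain ⟨p, q, rfl, d1, d2, d3, d4⟩ := oc_param hw (by omega)
    have e3 : (6 : ℝ) ≤ β := by exact_mod_cast h1
    have e4 : (β : ℝ) ≤ 7 := by exact_mod_cast h2
    push_cast at d1 d2
    have := tnt t ht j hj _ (hc t j ht hj).1 (p + 4 * j + 2) (q + 4 * j + 2) (by nlinarith)
      (by nlinarith) (by linarith) (by linarith) (by linarith)
    simp only [X, ch, mem_preimage]
    convert this using 2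
    ext <;> simp only [sh, cr] <;> push_cast <;> ring
  have cnd : ∀ t ≤ T, ∀ j, In t j → ∀ u p, cond M (c t j) u p →
      val (G t j (.inl u)) 0 ≤ val (G t j (.inl (p, 0))) 0 := fun t ht j hj u p h =>
    val_le_val (cX _ _ _) (dX t ht j hj _) (oP t ht j hj _) fun β h1 h2 w hw =>
      (gr t ht j hj 1 β (by omega) (by omega) (by omega) (by omega) w hw).2.2.2.2.2.2.1 rfl h1 h2 _ u p
        (lb t ht j hj β h1 h2 w hw) h
  have wire : ∀ n t j, (∀ i, t + lv (ow (kind n) i) ≤ T ∧ In (t + lv (ow (kind n) i))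
      (nj (ow (kind n) i) j)) →
      Wire (kind n) fun i => G (t + lv (ow (kind n) i)) (nj (ow (kind n) i) j) (nm M n i) := by
    intro n t j h
    refine ⟨fun i => cX _ _ _, fun i => dX _ (h i).1 _ (h i).2 _, fun i hi => ?_, fun i hi α β k w hw => ?_⟩
    · obtain ⟨a1, a2, -⟩ := rc_nm M n hi
      rw [← a1, ← a2]
      exact oG _ (h i).1 _ (h i).2 _
    · obtain ⟨a1, a2, a3, a4⟩ := (good _ _ (by omega)).bd k
      have := fun f => (gr _ (h i).1 _ (h i).2 α β a1 a2 a3 a4 w hw).2.2.1 n i hi f k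
      have b := (h (i + 1)).1
      rcases ow_succ (kind n) i hi with ⟨e1, e2⟩ | ⟨e1, e2⟩
      · rw [e1] at this ⊢
        rw [e2]
        exact this nofun
      · rw [e1] at this ⊢
        rw [e2] at b ⊢
        exact this fun e => by rw [e] at b; exact b
  refine ⟨c, fun t j p => val (G t j (.inl (p, 0))) 0, fun _ _ _ => val_mem _ _,
    (hc 0 85 T.zero_le ⟨by norm_num, by norm_num⟩).2.1 rfl, ?_, fun t ht j hj =>
      ⟨fun h => ⟨fun b => ?_, fun p k => ?_⟩, fun h => ⟨?_, fun p k => ?_⟩,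
        fun p p' k => cnd t ht j hj (p, 0) p' k, fun d => ?_, fun p k => ?_, fun p k => ?_⟩⟩
  · have i0 : In 0 85 := ⟨by norm_num, by norm_num⟩
    obtain ⟨z, hz⟩ := hK
    choose y hy using fun b => (hY' (pat1 K (z b))).1 (Or.inl ⟨z b, fun h => (h.2 45).not_ge (hz b).2.1, rfl⟩)
    have g : ∀ b a, y b ∈ Y a ↔ pat1 K (z b) a := fun b a => (congrFun (hy b) a).symm.to_iff
    obtain ⟨b, hb⟩ : ∃ b, y b ≠ (93, -8610) := by
      by_contra hn
      push Not at hn
      have := (g true (.inr (0, .inr (.inr (.inr 2))))).2 ⟨rfl, (hz _).1, (hz _).2.2.2.2.2.2 rfl⟩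
      rw [hn, ← hn false, g] at this
      exact absurd ((hz _).2.2.2.2.2.1 this.2.2) (by simp)
    obtain ⟨z0, z1, z2, z3, z4, -⟩ := hz b
    have y1 : ¬ (BL.l 45).f (y b) < 0 := fun h => absurd ((g _ _).1 ((hp _ _).1 h)) z1.not_gt
    have y2 : ¬ 0 < (BL.l 47).f (y b) := fun h => absurd ((g _ _).1 ((hp _ _).2 h)) z2.not_ge
    have y3 : ¬ (BL.z true).f (y b) < 0 := fun h => absurd ((g _ _).1 ((hp _ _).1 h)) z3.not_gt
    have y4 := (g b (.inr (0, .inr (.inr (.inr 0))))).2 ⟨rfl, z0, z4⟩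
    generalize y b = w at hb y1 y2 y3 y4
    norm_num [BL.f, lin] at y1 y2 y3
    have s1 : ∀ β : ℤ, 0 ≤ β → β ≤ 2 → ∀ w ∈ OC 0 β, ∃ π : Loc (Alw A P D),
        (∀ k, SS π k ↔ pt 1 (sh 85 w) ∈ Y (.inr (0, .inr (.inr (.inr k))))) ∧
        Win (xl π 1) (85 + 0) (85 + β) ∧ (Win (xl π 1) 85 86 → SS π 0) ∧
        (Win (xl π 1) 85 87 → SS π 0 → SS π 1) := by
      intro β h1 h2 w hw
      have hw' := oc_sh 85 hw
      obtain ⟨r, -, h⟩ := rule (l := 1) hw' (by omega) (by omega) (by omega) 0 T.zero_le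
      obtain ⟨k1, k2, -⟩ := (h 0 _ rfl).2.2.2.2.2 rfl
      exact ⟨fun i s => pt 1 (sh (85 : ℤ) w) ∈ Y (.inr (0 + i, s)), fun _ => by simp [SS],
        pin 1 (by omega) _ _ (by omega) (by omega) (by omega) (by omega) _ hw', k1, k2⟩
    refine src_sound (U := sh 85 ⁻¹' (pt 1 ⁻¹' Y (.inr (0, .inr (.inr (.inr 0))))))
      (V := X 0 85 (.inr (.inr 1))) (convex_sh (convex_sc (cY _) _) _)
      (deep_sh (lo := 160) (hi := 192) (fun x h1 h2 => ?_) (by norm_num) (by norm_num))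
      (fun w hw => ?_) (z := sh (-85) (psi w)) ?_ ?_ ?_ (fun w hw k => ?_) (cX _ _ _)
      (dX 0 T.zero_le 85 i0 _) (fun w hw => ?_) (fun w hw k => ?_) (cX _ _ _) (dX 0 T.zero_le 85 i0 _)
      (oP 0 T.zero_le 85 i0 _)
    · have := preimage_interior_subset_interior_preimage
        (t := pt 2 ⁻¹' Y (.inr (0, .inr (.inr (.inr 0))))) continuous_psi (a := (x, -x ^ 2)) (by
          rw [mem_preimage, show psi (x, -x ^ 2) = (2 * x, -(2 * x) ^ 2) by ext <;> simp only [psi]; ring]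
          exact deep 0 T.zero_le _ _ (by linarith) (by linarith))
      simpa only [← preimage_comp, Function.comp_def, pt_psi 1] using this
    · obtain ⟨π, k0, k1, k2, -⟩ := s1 1 (by omega) (by omega) w hw
      exact (k0 _).1 (k2 k1)
    · rwa [mem_preimage, mem_preimage, show pt 1 (sh 85 (sh (-85) (psi w))) = w by
        ext <;> simp only [pt, sh, psi] <;> ring]
    · simp only [sh, psi]; linarith
    · simp only [sh, psi, lin]
      by_contra hn
      exact hb (Prod.ext (by dsimp only; linarith) (by dsimp only; linarith))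
    · obtain ⟨π, k0, k1, -, k2⟩ := s1 2 (by omega) (by omega) w hw
      have := (k0 _).1 (k2 k1 ((k0 _).2 k))
      rwa [show pt 1 (sh 85 w) = ch 0 85 (dr w) by
        ext <;> simp only [pt, sh, ch, dr] <;> push_cast <;> ring] at this
    · have hw' := oc_sh (2 * 85 + 1) hw
      obtain ⟨r, -, h⟩ := rule (l := 2) hw' (by omega) (by omega) (by omega) 0 T.zero_le
      exact ((h 0 _ rfl).2.2.2.2.2 rfl).2.2
        (pin 2 (by omega) _ _ (by omega) (by omega) (by omega) (by omega) _ hw')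
    · exact (gr 0 T.zero_le 85 i0 1 7 (by omega) (by omega) (by omega) (by omega) w hw).2.2.2.2.2.2.2
        rfl rfl ((hc 0 85 T.zero_le i0).2.1 rfl ▸ lb 0 T.zero_le 85 i0 7 (by omega) le_rfl w hw) ⟨rfl, k⟩
  · have := (hc (t + 1) _ h (hj.child b)).2.2 t rfl (c t j) (by
      rw [show (2 * j + b.toNat : ℤ) / 2 = j by cases b <;> simp; omega]
      exact (hc t j ht hj).1)
    rwa [show decide ((2 * j + b.toNat : ℤ) % 2 = 1) = b by cases b <;> simp] at this
  · have h2 : In (t + 1) (2 * j) := by simpa using hj.child false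
    exact (wire (.inl (p, true)) t j fun i => by
      by_cases e : 3 ≤ i <;> simp [kind, ow, lv, nj, *]).val_le.trans
        (cnd (t + 1) h _ h2 (p, 1) p ⟨rfl, k⟩)
  · have := (gr t ht j hj 2 7 (by omega) (by omega) (by omega) (by omega) (cr 4 16)
      (by apply cr_mem_OC (by omega) <;> norm_num)).1 rfl rfl
    have e : ch t j (cr 4 16) = pt (t + 2) (cr (4 * j + 6) (4 * j + 18)) := by
      unfold ch
      congr 1
      ext <;> simp only [sh, cr] <;> push_cast <;> ring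
    simp only [X, mem_preimage, e] at this
    refine this _ _ (tnt t ht j hj _ (hc t j ht hj).1 _ _ ?_ ?_ ?_ ?_ ?_)
      (tnt t ht (j + 1) h _ (hc t _ ht h).1 _ _ ?_ ?_ ?_ ?_ ?_) <;> push_cast <;> nlinarith
  · exact (wire (.inl (p, false)) t j fun i => by
      by_cases e : i = 6 <;> simp [kind, ow, lv, nj, *]).val_le.trans (cnd t ht _ h (p, 2) p ⟨rfl, k⟩)
  · exact tri_sound (wire (.inr (d, 0)) t j fun i => ⟨ht, hj⟩) (wire (.inr (d, 1)) t j fun i => ⟨ht, hj⟩)
      (wire (.inr (d, 2)) t j fun i => ⟨ht, hj⟩) rfl rfl rfl fun α β a1 a2 a3 a4 w hw =>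
        (gr t ht j hj α β (by omega) (by omega) (by omega) (by omega) w hw).2.2.2.1 a1 a2 a3 a4 d
  · exact val_le_seven fun w hw => (gr t ht j hj 0 7 (by omega) (by omega) (by omega) (by omega) w
      (by simpa [WO] using hw)).2.2.2.2.1 rfl rfl p k
  · exact reg_le (a := 0) (cX _ _ _) (dX t ht j hj _) (by simpa using oP t ht j hj _) (by norm_num)
      (by norm_num) (by norm_num) (closure_mono (fun w hw => (gr t ht j hj 1 6 (by omega) (by omega)
        (by omega) (by omega) w hw).2.2.2.2.2.1 rfl rfl p k) (cq_closure (by norm_num) (by norm_num)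
          (by norm_num) (by norm_num) (by norm_num)))

end Pool.Agent.Lib.MP_79902f_lc.W
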