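import Pool.Agent.Lib.MP_79902f_lc.NCode
import Pool.Agent.Lib.MP_79902f_lc.WAbs

/-!
Wires of free lines in coordinates relative to a station, and the concurrency gadget.
-/

namespace Pool.Agent.Lib.MP_79902f_lc.W

open Set Mob Filter Topology

/-- The shear moving the lattice by `a` steps. -/
def sh (a : ℝ) (z : ℝ × ℝ) : ℝ × ℝ := (z.1 + 2 * a, z.2 - 4 * a * z.1 - 4 * a ^ 2)

/-- The point with the sum `S` and the product `P` of the two tangent parameters. -/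
def cp (S P : ℝ) : ℝ × ℝ := (S + 1, 34 - 2 * S - 4 * P)

/-- The changes of charts: same station, left child, next station. -/
def tr (κ : Fin 3) (z : ℝ × ℝ) : ℝ × ℝ :=
  if κ = 0 then z else if κ = 1 then (2 * z.1 + 2, 4 * z.2 - 8 * z.1 - 4) else sh (-2) z

/-- The coefficients of the sum and of the product of the image of `cq a ζ`. -/
def cf (κ : Fin 3) (a : ℤ) : ℤ × ℤ × ℤ × ℤ :=
  if κ = 0 then (a, 1, 0, a) else if κ = 1 then (3 + 2 * a, 2, 3 * a - 24, 4 * a + 3)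
  else (a - 4, 1, 4 - 2 * a, a - 2)

/-- An affine function of a Moebius function. -/
def af (M : Mob) (c d : ℤ) : Mob := (c * M.2.2.1 + d * M.1, c * M.2.2.2 + d * M.2.1, M.2.2.1, M.2.2.2)

/-- The slope parameter in the previous chart. -/
def lkM (κ : Fin 3) (M : Mob) : Mob :=
  if κ = 0 then M else if κ = 1 then (2 * M.1 - 3 * M.2.2.1, 2 * M.2.1 - 3 * M.2.2.2, 4 * M.2.2.1,
    4 * M.2.2.2) else af M 2 1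

/-- A test for `T * S = P`, where `S` and `P` have the same denominators. -/
def IncM (S P T : Mob) : Prop := T.1 * S.1 = T.2.2.1 * P.1 ∧ T.2.1 * S.2.1 = T.2.2.2 * P.2.1 ∧
  T.1 * S.2.1 + T.2.1 * S.1 = T.2.2.1 * P.2.1 + T.2.2.2 * P.1

instance (S P T : Mob) : Decidable (IncM S P T) := by unfold IncM; infer_instance

/-- One set of a wire: source line `a`, centre `(p, q)`, target line `b`, change of chart, cells of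
the incoming link, source and target coordinates, slope parameter and a separating constant. -/
structure Rc where
  a : ℤ
  p : ℤ
  q : ℤ
  b : ℤ
  kd : Fin 3
  s : ℤ
  lo : ℤ
  hi : ℤ
  zs : Mob
  zt : Mob
  ta : Mob
  sp : ℤ

/-- A port. -/
def prt (a : ℤ) (κ : Fin 3) (s : ℤ) : Rc :=
  ⟨a, -1, 2, 0, κ, s, 6 + a, 8 + a, (6 + a, 8 + a, 1, 1), (6, 8, 1, 1), (2, 2, 5, 7), 0⟩

/-- The five wires. -/
def tbl : Fin 5 → List Rc :=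
  ![
    [prt 0 0 1,
      ⟨0, -4, 4, 6, 0, 0, 6, 8, (6, 8, 1, 1), (0, -8, 5, 8), (8, 8, 3, 4), 6⟩,
      ⟨6, -8, 3, -1, 0, 0, -1, 0, (0, -8, 5, 8), (120, 192, 25, 32), (120, 144, 55, 80), 5⟩,
      ⟨-1, 3, 8, 6, 0, 0, 4, 6, (120, 192, 25, 32), (30, -8, 15, 8), (60, 80, 15, 16), 5⟩,
      ⟨6, 2, 14, 8, 0, 0, -1, 2, (30, -8, 15, 8), (10, 2, 5, 3), (30, 34, 15, 11), 8⟩,
      ⟨8, 3, 14, 2, 0, 1, 0, 2, (10, 2, 5, 3), (8, 10, 1, 1), (26, 22, 7, 5), 10⟩,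
      prt 2 2 1],
    [prt 0 0 1,
      ⟨0, -4, 4, 6, 0, 0, 6, 8, (6, 8, 1, 1), (0, -8, 5, 8), (8, 8, 3, 4), 6⟩,
      ⟨6, -6, 0, -4, 0, 0, -1, 0, (0, -8, 5, 8), (0, 6, 15, 19), (0, -12, 15, 22), -3⟩,
      ⟨-4, -3, 6, -6, 1, 0, 0, 1, (0, 6, 15, 19), (51, 70, 11, 14), (27, 42, 12, 14), -4⟩,
      ⟨-6, 1, 10, 8, 0, 0, 4, 5, (51, 70, 11, 14), (1, 0, 6, 7), (52, 70, 17, 21), -1⟩,
      ⟨8, -8, 1, 0, 0, 0, 0, 1, (1, 0, 6, 7), (6, 8, 1, 1), (8, 8, 13, 15), 8⟩,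
      prt 0 0 1],
    [prt 0 0 1,
      ⟨0, -4, 2, 6, 0, 0, 6, 8, (6, 8, 1, 1), (0, -4, 10, 13), (4, 4, 4, 5), 6⟩,
      ⟨6, -4, 2, 5, 0, 0, -1, 0, (0, -4, 10, 13), (-4, -12, 16, 21), (4, 4, 4, 5), 5⟩,
      ⟨5, 2, 14, 10, 0, 1, -1, 0, (-4, -12, 16, 21), (124, 162, 74, 99), (52, 72, 20, 27), 5⟩,
      ⟨10, -6, 6, 8, 0, 1, 1, 2, (124, 162, 74, 99), (2, 0, 47, 63), (122, 162, 27, 36), 9⟩,
      ⟨8, -1, 1, 0, 0, 0, 0, 1, (2, 0, 47, 63), (6, 8, 1, 1), (1, 1, 6, 8), 8⟩,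
      prt 0 0 0],
    [prt 0 0 1,
      ⟨0, 6, 12, 3, 0, 0, 6, 8, (6, 8, 1, 1), (36, 60, 6, 7), (36, 36, 6, 5), 8⟩,
      ⟨3, -4, 6, 0, 0, 1, 6, 9, (36, 60, 6, 7), (126, 192, 21, 29), (252, 348, 42, 67), 7⟩,
      ⟨0, 3, 12, 10, 0, 1, 6, 7, (126, 192, 21, 29), (24, 28, 9, 11), (84, 116, 21, 27), 7⟩,
      ⟨10, -4, 7, 8, 0, 1, 2, 3, (24, 28, 9, 11), (2, 0, 17, 21), (164, 196, 29, 35), 9⟩,
      ⟨8, -4, 1, 0, 0, 0, 0, 1, (2, 0, 17, 21), (6, 8, 1, 1), (4, 4, 9, 11), 8⟩,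
      prt 0 0 1],
    [prt 0 0 1,
      ⟨0, -10, 2, 5, 0, 0, 6, 8, (6, 8, 1, 1), (-2, -6, 5, 6), (10, 10, 7, 8), 5⟩,
      ⟨5, 2, 12, 11, 0, 1, -1, 0, (-2, -6, 5, 6), (82, 102, 43, 54), (130, 174, 47, 60), 5⟩,
      ⟨11, -2, 8, 0, 0, 1, 1, 2, (82, 102, 43, 54), (2382, 2978, 265, 331), (530, 662, 99, 124), 9⟩,
      ⟨0, 7, 12, 9, 0, 0, 8, 9, (2382, 2978, 265, 331), (12, 4, 77, 95), (3180, 3972, 379, 473), 9⟩,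
      ⟨9, -4, 1, 0, 0, 0, 0, 1, (12, 4, 77, 95), (6, 8, 1, 1), (4, 4, 9, 11), 8⟩,
      prt 0 0 1]]

/-- The set number `i` of the wire `k`. -/
def tb (k : Fin 5) (i : ℕ) : Rc := (tbl k).getD i (prt 0 0 1)

/-- The sum at the source point. -/
def Rc.sg (R : Rc) : Mob := af R.zs (cf R.kd R.a).1 (cf R.kd R.a).2.1

/-- The product at the source point. -/
def Rc.pg (R : Rc) : Mob := af R.zs (cf R.kd R.a).2.2.1 (cf R.kd R.a).2.2.2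

/-- The checks on one set. -/
def Rc.Good (R : Rc) : Prop :=
  (R.zs.Pos ∧ R.zt.Pos ∧ R.ta.Pos) ∧
    (IncM (af R.sg (-R.p - R.q) 1) (af R.pg (-R.p * R.q) 1) R.ta ∧
      IncM (af R.zt (R.b - R.p - R.q) 1) (af R.zt (-R.p * R.q) R.b) R.ta) ∧
    (((k R.b).Lt R.ta ∧ R.zt.1 * R.zt.2.2.2 < R.zt.2.1 * R.zt.2.2.1) ∨
      (R.ta.Lt (k R.b) ∧ R.zt.2.1 * R.zt.2.2.1 < R.zt.1 * R.zt.2.2.2)) ∧
    ((R.sg.Le (k R.sp) ∧ (k R.sp).Le (af R.zt R.b 1) ∧ (af R.zt R.b 1).Le (k (R.p + R.q))) ∨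
      ((k R.sp).Le R.sg ∧ (af R.zt R.b 1).Le (k R.sp) ∧ (k (R.p + R.q)).Le (af R.zt R.b 1)) ∨
      (R.sg = (6, 8, 1, 1) ∧ R.zt = (6, 8, 1, 1) ∧ R.b = 0 ∧ R.p + R.q ≤ 6)) ∧
    ((k R.p).Le R.ta ∧ R.ta.Le (k R.q) ∧ (k (-1)).Le R.ta ∧ R.ta.Le (k 9)) ∧
    (R.p + 2 ≤ R.q ∧ R.q ≤ R.p + 12 ∧ -10 ≤ R.p ∧ R.q ≤ 14) ∧
    ((k R.lo).Le R.zs ∧ R.zs.Le (k R.hi) ∧ R.lo < R.hi ∧ (R.s = 0 ∨ R.s = 1)) ∧
    ((R.a + 1 ≤ R.lo ∧ R.hi ≤ R.a + 11 ∧ -9 ≤ R.a ∧ R.hi ≤ 14) ∨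
      (R.hi ≤ R.a - 1 ∧ R.a - 11 ≤ R.lo ∧ -10 ≤ R.lo ∧ R.a ≤ 13)) ∧
    (R.kd = 1 → R.a = -4 ∧ R.s = 0 ∧ R.lo = 0 ∧ R.hi = 1) ∧
    (k (-20)).Le (af R.zt R.b 1) ∧ (af R.zt R.b 1).Le (k 30)

instance (R : Rc) : Decidable R.Good := by unfold Rc.Good; infer_instance

/-- The checks on two consecutive sets. -/
def Rc.Lnk (Q R : Rc) : Prop :=
  Q.zt = R.zs ∧ Q.b = R.a ∧ (lkM R.kd R.ta).Pos ∧
    ((R.s = 1 ∧ (((k R.a).Lt (lkM R.kd R.ta) ∧ (lkM R.kd R.ta).Le Q.ta) ∨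
      (Q.ta.Le (lkM R.kd R.ta) ∧ (lkM R.kd R.ta).Lt (k R.a)))) ∨
    (R.s = 0 ∧ (((k R.a).Lt Q.ta ∧ Q.ta.Le (lkM R.kd R.ta)) ∨
      ((lkM R.kd R.ta).Le Q.ta ∧ Q.ta.Lt (k R.a)))))

instance (Q R : Rc) : Decidable (Q.Lnk R) := by unfold Rc.Lnk; infer_instance

theorem good_prt : (prt 0 0 1).Good := by decide

theorem good : ∀ k, ∀ i < 7, (tb k i).Good := by decide

theorem lnk : ∀ k, ∀ i < 6, (tb k i).Lnk (tb k (i + 1)) := by decide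

end Pool.Agent.Lib.MP_79902f_lc.W
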