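import Pool.Agent.Lib.MP_79902f_lc.WGeo

/-!
The concurrency gadget, the comparisons with seven, and the far copies of the lines.
-/

namespace Pool.Agent.Lib.MP_79902f_lc.W

open Set Mob Filter Topology

theorem tri_data {a b c : ℝ} (ha : a ∈ Icc (6 : ℝ) 8) (hb : b ∈ Icc (6 : ℝ) 8) (hc : c ∈ Icc (6 : ℝ) 8)
    {x y z : ℝ} (hx : x = (tb 2 3).ta.ev a) (hy : y = (tb 3 3).ta.ev b) (hz : z = (tb 4 2).ta.ev c) :
    (13 / 5 ≤ x ∧ x ≤ 8 / 3) ∧ (4 ≤ y ∧ y ≤ 43 / 10) ∧ (11 / 4 ≤ z ∧ z ≤ 3) ∧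
      ∃ κ > 0, 4 * y - 12 * x + 8 * z - x * y - y * z + 2 * x * z = -κ * FF a b c := by
  obtain ⟨a1, a2⟩ := ha
  obtain ⟨b1, b2⟩ := hb
  obtain ⟨c1, c2⟩ := hc
  have d1 : 0 < 7 * a - 2 := by linarith
  have d2 : 0 < 3 * b + 3 := by linarith
  have d3 : 0 < 13 * c + 16 := by linarith
  have e1 : x * (7 * a - 2) = 20 * a - 16 := by
    rw [hx, show (tb 2 3).ta = (52, 72, 20, 27) from rfl, ev, div_mul_eq_mul_div,
      div_eq_iff (by push_cast; linarith)]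
    push_cast; ring
  have e2 : y * (3 * b + 3) = 16 * b - 12 := by
    rw [hy, show (tb 3 3).ta = (84, 116, 21, 27) from rfl, ev, div_mul_eq_mul_div,
      div_eq_iff (by push_cast; linarith)]
    push_cast; ring
  have e3 : z * (13 * c + 16) = 44 * c - 4 := by
    rw [hz, show (tb 4 2).ta = (130, 174, 47, 60) from rfl, ev, div_mul_eq_mul_div,
      div_eq_iff (by push_cast; linarith)]
    push_cast; ring
  refine ⟨⟨by nlinarith, by nlinarith⟩, ⟨by nlinarith, by nlinarith⟩, ⟨by nlinarith, by nlinarith⟩,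
    48 / 5 / ((7 * a - 2) * (3 * b + 3) * (13 * c + 16)), by positivity, ?_⟩
  rw [eq_div_of_mul_eq d1.ne' e1, eq_div_of_mul_eq d2.ne' e2, eq_div_of_mul_eq d3.ne' e3, FF]
  have := d1.ne'
  have := d2.ne'
  have := d3.ne'
  generalize hA : 7 * a - 2 = A at *
  generalize hB : 3 * b + 3 = B at *
  generalize hC : 13 * c + 16 = C at *
  field_simp
  subst hA hB hC
  ring

theorem exists_W {x y : ℝ} (hx : 13 / 5 ≤ x ∧ x ≤ 8 / 3) (hy : 4 ≤ y ∧ y ≤ 43 / 10) :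
    ∃ r s : ℝ, (0 ≤ r ∧ r ≤ 2 ∧ 6 ≤ s ∧ s ≤ 8) ∧ (7 ≤ r + s ∧ r + s ≤ 9) ∧
      r * s - x * (r + s) = 28 - 16 * x ∧ r * s - y * (r + s) = 36 - 15 * y := by
  obtain ⟨x1, x2⟩ := hx
  obtain ⟨y1, y2⟩ := hy
  have d : 0 < y - x := by linarith
  obtain ⟨S, hS⟩ : ∃ S, S * (y - x) = 15 * y - 16 * x - 8 := ⟨_, div_mul_cancel₀ _ d.ne'⟩
  have s1 : 7 ≤ S := by nlinarith
  have s2 : S ≤ 9 := by nlinarith
  set D := S ^ 2 - 4 * (28 - 16 * x + x * S) with hD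
  have k1 : S - 4 ≤ √D := Real.le_sqrt_of_sq_le (by nlinarith)
  have k2 : 12 - S ≤ √D := Real.le_sqrt_of_sq_le (by nlinarith)
  have k3 : √D ≤ S := Real.sqrt_le_iff.2 ⟨by linarith, by nlinarith⟩
  have k4 : √D ≤ 16 - S := Real.sqrt_le_iff.2 ⟨by linarith, by nlinarith⟩
  have k5 : √D ^ 2 = D := Real.sq_sqrt (by nlinarith)
  refine ⟨(S - √D) / 2, (S + √D) / 2, ⟨?_, ?_, ?_, ?_⟩, ⟨?_, ?_⟩, ?_, ?_⟩ <;> nlinarith

namespace Wire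

variable {k : Fin 5} {Z : ℕ → Set (ℝ × ℝ)} {u r s : ℝ}

theorem inside (h : Wire k Z) {i : ℕ} (hi : i < 6) (hu : u ∈ Ioo 6 (val (Z 0) 0))
    (h1 : (tb k (i + 1)).sg.Le (Mob.k 7)) (h2 : 9 ≤ (tb k (i + 1)).p + (tb k (i + 1)).q)
    (h3 : 7 ≤ r + s ∧ r + s ≤ 9) (hl : (tb k (i + 1)).Ln u (cq r s)) :
    cq r s ∈ interior (Z (i + 1)) := by
  have g := good k (i + 1) (by omega)
  have u2 : u ∈ Icc (6 : ℝ) 8 := ⟨hu.1.le, hu.2.le.trans (val_mem _ _).2⟩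
  have a1 := h1.le g.1.1 (pos_k _) u2
  have a2 := (Int.cast_le (R := ℝ)).2 h2
  rw [ev_k] at a1
  push_cast at a1 a2
  rw [Rc.Ln, cq_eq, beL_cp] at hl
  rw [cq_eq]
  exact below0 (h.cv _) (h.dp _) (h.src (val_mem _ _).2 hi (h.first i hi.le) u hu) (h.cn _ (by omega))
    (Or.inl ⟨by linarith [h3.1], by linarith [h3.2]⟩) (by linarith [(g.inc u2).1]) hl.le (Or.inr hl)
    (by rw [← cq_eq, ht_cq]; positivity) (by linarith [h3.1]) (by linarith [h3.2])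

theorem outside (h : Wire k Z) {i : ℕ} (hi : i ≤ 6) (hu : u ∈ Ioo (6 : ℝ) 8)
    (h1 : (Mob.k 9).Le (af (tb k i).zt (tb k i).b 1))
    (h2 : (af (tb k i).zt (tb k i).b 1).Le (Mob.k ((tb k i).p + (tb k i).q))) (h3 : r + s ≤ 9)
    (hW : cq r s ∈ closure (Z i)) (hl : ¬ (tb k i).Ln u (cq r s)) : u ≤ val (Z 6) 0 := by
  have g := good k i (by omega)
  rw [Rc.Ln, cq_eq, beL_cp, not_lt] at hl
  rw [cq_eq] at hW
  refine h.last (Ioo_subset_Icc_self hu) hi fun w hw => g.out (h.cv _) (h.dp _) (h.cn _ (by omega)) hu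
    hw hW hl (Or.inl ?_)
  have w2 : w ∈ Icc (6 : ℝ) 8 := ⟨hw.1.le, by linarith [hw.2, hu.2]⟩
  have a1 := h1.le (pos_k _) g.1.2.1 w2
  have a2 := h2.le g.1.2.1 (pos_k _) w2
  rw [ev_k, ev_af g.1.2.1 w2] at a1 a2
  push_cast at a1 a2
  exact ⟨by linarith, by linarith⟩

end Wire

theorem ev_lt {M : Mob} (h : M.Pos) (h' : M.1 * M.2.2.2 < M.2.1 * M.2.2.1) {v w : ℝ}
    (hv : v ∈ Icc (6 : ℝ) 8) (hw : w ∈ Icc (6 : ℝ) 8) (e : v < w) : M.ev v < M.ev w := by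
  obtain ⟨c, h1, h2⟩ := ev_sub h hv hw
  have := mul_pos (mul_pos h1 (sub_pos.2 e)) ((Int.cast_pos (R := ℝ)).2 (sub_pos.2 h'))
  linarith

theorem ln_cp (S P v : ℝ) : ((tb 2 3).Ln v (cp S P) ↔ 28 - (tb 2 3).ta.ev v * 16 < P - (tb 2 3).ta.ev v * S) ∧
    ((tb 3 3).Ln v (cp S P) ↔ 36 - (tb 3 3).ta.ev v * 15 < P - (tb 3 3).ta.ev v * S) ∧
    ((tb 4 2).Ln v (cp S P) ↔ 24 - (tb 4 2).ta.ev v * 14 < P - (tb 4 2).ta.ev v * S) := by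
  simp only [Rc.Ln, beL_cp, show (tb 2 3).p = 2 from rfl, show (tb 2 3).q = 14 from rfl,
    show (tb 3 3).p = 3 from rfl, show (tb 3 3).q = 12 from rfl, show (tb 4 2).p = 2 from rfl,
    show (tb 4 2).q = 12 from rfl]
  norm_num

theorem tri_sound {X Y Z : ℕ → Set (ℝ × ℝ)} (hX : Wire 2 X) (hY : Wire 3 Y) (hZ : Wire 4 Z)
    (eX : X 6 = X 0) (eY : Y 6 = Y 0) (eZ : Z 6 = Z 0)
    (h : ∀ α β : ℤ, 1 ≤ α → α ≤ 2 → 6 ≤ β → β ≤ 7 → ∀ z ∈ OC α β,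
      (z ∈ X 3 → z ∈ Y 3 → z ∈ Z 2) ∧ (z ∈ Z 2 → z ∈ X 3 ∨ z ∈ Y 3)) :
    TriW (val (X 0) 0) (val (Y 0) 0) (val (Z 0) 0) := by
  have cell : ∀ {r s : ℝ} {U V : Set (ℝ × ℝ)}, (0 ≤ r ∧ r ≤ 2 ∧ 6 ≤ s ∧ s ≤ 8) → cq r s ∈ interior U →
      (∀ α β : ℤ, 1 ≤ α → α ≤ 2 → 6 ≤ β → β ≤ 7 → ∀ z ∈ OC α β, z ∈ U → z ∈ V) → cq r s ∈ closure V := by
    rintro r s U V ⟨a1, a2, a3, a4⟩ k1 k2
    obtain ⟨α, b1, b2, b3, b4⟩ : ∃ α : ℤ, 1 ≤ α ∧ α ≤ 2 ∧ α - 1 ≤ r ∧ r ≤ α := by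
      rcases le_total r 1 with c | c
      exacts [⟨1, by norm_num [*]⟩, ⟨2, by norm_num [*]⟩]
    obtain ⟨β, c1, c2, c3, c4⟩ : ∃ β : ℤ, 6 ≤ β ∧ β ≤ 7 ∧ β ≤ s ∧ s ≤ β + 1 := by
      rcases le_total s 7 with c | c
      exacts [⟨6, by norm_num [*]⟩, ⟨7, by norm_num [*]⟩]
    exact pass k1 (cq_closure (by omega) b3 b4 c3 c4) (k2 α β b1 b2 c1 c2)
  have I := fun {v : ℝ} (hv : v ∈ Ioo (6 : ℝ) 8) => Ioo_subset_Icc_self hv
  refine ⟨fun a ha b hb c hc h1 h2 h3 => ?_, fun a ha b hb c hc h1 h3 => ?_⟩ <;>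
    obtain ⟨x1, y1, z1, κ, k1, k2⟩ := tri_data (I ha) (I hb) (I hc) rfl rfl rfl <;>
    obtain ⟨r, s, w1, w2, w3, w4⟩ := exists_W x1 y1
  · have v1 := val_mem (X 0) 0
    have v2 := val_mem (Y 0) 0
    have m1 := ev_lt (M := (tb 2 3).ta) (by decide) (by decide) (I ha)
      (w := (a + val (X 0) 0) / 2) ⟨by linarith [ha.1], by linarith [v1.2]⟩ (by linarith)
    have m2 := ev_lt (M := (tb 3 3).ta) (by decide) (by decide) (I hb)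
      (w := (b + val (Y 0) 0) / 2) ⟨by linarith [hb.1], by linarith [v2.2]⟩ (by linarith)
    have i1 := hX.inside (i := 2) (u := (a + val (X 0) 0) / 2) (by omega)
      ⟨by linarith [ha.1], by linarith⟩ (by decide) (by decide) w2
      (by rw [cq_eq, (ln_cp _ _ _).1]; nlinarith [w2.2])
    have i2 := hY.inside (i := 2) (u := (b + val (Y 0) 0) / 2) (by omega)
      ⟨by linarith [hb.1], by linarith⟩ (by decide) (by decide) w2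
      (by rw [cq_eq, (ln_cp _ _ _).2.1]; nlinarith [w2.2])
    rw [← eZ]
    refine hZ.outside (i := 2) (by omega) hc (by decide) (by decide) w2.2 (cell (U := X 3 ∩ Y 3) w1
      (by rw [interior_inter]; exact ⟨i1, i2⟩) fun α β a1 a2 a3 a4 z hz k =>
        (h α β a1 a2 a3 a4 z hz).1 k.1 k.2) ?_
    rw [cq_eq, (ln_cp _ _ _).2.2, not_lt]
    have := mul_nonneg k1.le h3
    nlinarith [x1.2, y1.1]
  · have i1 := hZ.inside (i := 1) (by omega) ⟨hc.1, h1⟩ (by decide) (by decide) w2 (by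
      rw [cq_eq, (ln_cp _ _ _).2.2]
      have := mul_neg_of_pos_of_neg k1 h3
      nlinarith [x1.2, y1.1])
    have := cell (V := X 3 ∪ Y 3) w1 i1 fun α β a1 a2 a3 a4 z hz => (h α β a1 a2 a3 a4 z hz).2
    rw [closure_union] at this
    rw [← eX, ← eY]
    exact this.imp
      (fun k => hX.outside (by omega) ha (by decide) (by decide) w2.2 k
        (by rw [cq_eq, (ln_cp _ _ _).1]; linarith))
      fun k => hY.outside (by omega) hb (by decide) (by decide) w2.2 k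
        (by rw [cq_eq, (ln_cp _ _ _).2.1]; linarith)

theorem ln_tri {a b c : ℝ} (ha : a ∈ Icc (6 : ℝ) 8) (hb : b ∈ Icc (6 : ℝ) 8) (hc : c ∈ Icc (6 : ℝ) 8)
    (h : FF a b c = 0) (z : ℝ × ℝ) : ((tb 2 3).Ln a z → (tb 3 3).Ln b z → (tb 4 2).Ln c z) ∧
      ((tb 4 2).Ln c z → (tb 2 3).Ln a z ∨ (tb 3 3).Ln b z) := by
  obtain ⟨x1, y1, z1, κ, -, k2⟩ := tri_data ha hb hc rfl rfl rfl
  obtain ⟨S, P, rfl⟩ : ∃ S P, z = cp S P :=
    ⟨z.1 - 1, (36 - 2 * z.1 - z.2) / 4, by ext <;> simp only [cp] <;> ring⟩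
  rw [(ln_cp _ _ _).1, (ln_cp _ _ _).2.1, (ln_cp _ _ _).2.2]
  rw [h, mul_zero] at k2
  generalize (tb 2 3).ta.ev a = x at *
  generalize (tb 3 3).ta.ev b = y at *
  generalize (tb 4 2).ta.ev c = z at *
  have e : (y - x) * (P - z * S - (24 - z * 14)) = (y - z) * (P - x * S - (28 - x * 16)) +
      (z - x) * (P - y * S - (36 - y * 15)) := by linear_combination k2
  have d1 : 0 < y - z := by linarith [y1.1, z1.2]
  have d2 : 0 < z - x := by linarith [x1.2, z1.1]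
  refine ⟨fun h1 h2 => ?_, fun h1 => ?_⟩
  · have := add_pos (mul_pos d1 (sub_pos.2 h1)) (mul_pos d2 (sub_pos.2 h2))
    rw [← e] at this
    exact sub_pos.1 ((mul_pos_iff_of_pos_left (by linarith)).1 this)
  · by_contra hn
    push Not at hn
    have := mul_pos (show 0 < y - x by linarith) (sub_pos.2 h1)
    nlinarith [hn.1, hn.2]

theorem ln_out {y : ℝ} {z : ℝ × ℝ} (hy : y ∈ Ioo (6 : ℝ) 8) (h7 : y ≤ 7) (h : HC 0 7 z) :
    ¬ (prt 0 0 1).Ln y z := by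
  obtain ⟨c3, c4, c5⟩ := tauR hy
  obtain ⟨p, q, rfl, a1, a2, a3, a4⟩ := h.param (by omega)
  simp only [Rc.Ln, BeL, prt, lin, cr, not_lt]
  push_cast at a1 a2 a3 a4 ⊢
  have := mul_nonneg (sub_nonneg.2 a2) (show 0 ≤ q - 2 by linarith)
  nlinarith

theorem ln_in {y : ℝ} {z : ℝ × ℝ} (hy : y ∈ Ioo (6 : ℝ) 8) (h7 : 7 ≤ y) (h : HC 1 6 z) :
    (prt 0 0 1).Ln y z := by
  obtain ⟨c3, c4, c5⟩ := tauR hy
  obtain ⟨p, q, rfl, a1, a2, a3, a4⟩ := h.param (by omega)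
  simp only [Rc.Ln, BeL, prt, lin, cr]
  push_cast at a1 a2 a3 a4 ⊢
  have := mul_pos (show 0 < p - 1 by linarith) (show 0 < q - 2 by linarith)
  nlinarith

/-- The point is closer to the station than to its periodic copies. -/
def Near (w : ℝ × ℝ) : Prop := ht w < 560 ∧ -25 < w.1 ∧ w.1 < 43 ∧ ht w < 35 + (w.1 + 25) ^ 2 ∧
  ht w < 35 + (43 - w.1) ^ 2

theorem ht_sh (d : ℝ) (w : ℝ × ℝ) : ht (sh d w) = ht w := by simp only [ht, sh]; ring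

theorem beL_far {τ p q : ℝ} {z : ℝ × ℝ} (h3 : p ≤ τ) (h4 : τ ≤ q)
    (h : ht z < 35 + (z.1 - (2 * τ + 1)) ^ 2) : BeL τ p q z := by
  have k : (p - τ) * (q - τ) ≤ 0 := mul_nonpos_of_nonpos_of_nonneg (by linarith) (by linarith)
  unfold BeL lin
  unfold ht at h
  nlinarith

theorem ln_far {R : Rc} (h : R.Good) {v d : ℝ} (hv : v ∈ Icc (6 : ℝ) 8) {w : ℝ × ℝ} (hw : Near w)
    (hd : 22 ≤ d ∨ d ≤ -22) : R.Ln v (sh d w) := by
  obtain ⟨a1, a2, a3, a4⟩ := h.tau hv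
  obtain ⟨-, b1, b2, b3, b4⟩ := hw
  refine beL_far a1 a2 ?_
  rw [ht_sh]
  simp only [sh]
  rcases hd with c | c <;> nlinarith

theorem near_cell {α β : ℤ} {z : ℝ × ℝ} (h : HC α β z) (h1 : -9 ≤ α) (h2 : α ≤ β) (h3 : β ≤ α + 10)
    (h4 : β ≤ 13) : Near z ∧ Near (tr 2 z) := by
  obtain ⟨p, q, rfl, a1, a2, a3, a4⟩ := h.param h2
  have b1 := (Int.cast_le (R := ℝ)).2 h1
  have b2 := (Int.cast_le (R := ℝ)).2 h2
  have b3 := (Int.cast_le (R := ℝ)).2 h3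
  have b4 := (Int.cast_le (R := ℝ)).2 h4
  push_cast at b1 b3 b4
  refine ⟨⟨?_, ?_, ?_, ?_, ?_⟩, ?_, ?_, ?_, ?_, ?_⟩ <;> simp [tr, sh, ht, cr] <;> nlinarith

theorem near_tr {R : Rc} (h : R.Good) {α β : ℤ} (c : R.Cel α β) {z : ℝ × ℝ} (hz : HC α β z) :
    Near (tr R.kd z) := by
  obtain ⟨a1, a2, a3, a4⟩ := h.bd c
  obtain ⟨b1, b2⟩ := near_cell hz a1 a2 a3 a4
  have := h.2.2.2.2.2.2.2.2.1
  generalize R.kd = κ at *
  fin_cases κ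
  · exact b1
  · obtain ⟨n, n1, n2, e⟩ := c
    obtain ⟨e1, e2, e3, e4⟩ := this rfl
    rw [e1, e2, show n = 0 by omega] at e
    obtain ⟨rfl, rfl⟩ := Prod.mk.inj e
    obtain ⟨p, q, rfl, a1, a2, a3, a4⟩ := hz.param (by omega)
    norm_num at a1 a2 a3 a4
    refine ⟨?_, ?_, ?_, ?_, ?_⟩ <;> simp [tr, ht, cr] <;> nlinarith
  · exact b2

end Pool.Agent.Lib.MP_79902f_lc.W
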